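import Pool.Agent.Lib.B10.ArchFrame

/-!
# Entries of the frame in a slit disc, and the final bound
-/

namespace B10

open Finset Matrix Filter Topology Polynomial ComplexConjugate

/-- the brackets of a node with the point `b` -/
noncomputable def bnode (b : Fin 2 → ℝ) (w : ℂ) : ℂ := (b 0 : ℂ) - b 1 * w

theorem bnode_conj (b : Fin 2 → ℝ) (w : ℂ) : bnode b (conj w) = conj (bnode b w) := by
  unfold bnode; simp

/-- the Malmquist basis along the slit disc -/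
theorem hom_psi {n : ℕ} {μ ρ : ℝ} (b T : Fin 2 → ℝ) (a c : Fin n → ℂ) (i : Fin n) {τ : ℂ}
    (hs : sl μ ρ τ ≠ 0) :
    hom n (mb a c i) (b 0 + psi μ ρ τ * T 0) (b 1 + psi μ ρ τ * T 1)
      = (∏ j ∈ univ.erase i, lx μ ρ (bnode b (if j < i then a j else c j))
          (bnode T (if j < i then a j else c j)) τ) / sl μ ρ τ ^ (n - 1) := by
  rw [hom_mb]
  have h1 : ∀ j ∈ (univ : Finset (Fin n)).erase i,
      (b 0 + psi μ ρ τ * T 0 : ℂ) - (if j < i then a j else c j) * (b 1 + psi μ ρ τ * T 1)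
      = lx μ ρ (bnode b (if j < i then a j else c j))
          (bnode T (if j < i then a j else c j)) τ / sl μ ρ τ := by
    intro j _
    rw [← lin_psi hs]
    unfold bnode
    ring
  rw [Finset.prod_congr rfl h1, Finset.prod_div_distrib, Finset.prod_const,
    Finset.card_erase_of_mem (Finset.mem_univ i), Finset.card_univ, Fintype.card_fin]

/-- bound of one factor, node or conjugate node -/
theorem node_le {μ ρ : ℝ} (hρ : 0 < ρ) {b T : Fin 2 → ℝ} {w t : ℂ}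
    (h : Root μ ρ (bnode b w) (bnode T w) t) (P : Prop) [Decidable P] {τ : ℂ} (hτ : ‖τ‖ ≤ 1) :
    ‖lx μ ρ (bnode b (if P then conj w else w)) (bnode T (if P then conj w else w)) τ‖
      ≤ ‖bnode b w‖ / ‖t‖ * ‖den t τ‖ := by
  by_cases hP : P
  · rw [if_pos hP, bnode_conj, bnode_conj]
    have h1 := lx_le hρ.ne' h.conj hτ
    rwa [RCLike.norm_conj, RCLike.norm_conj, den_conj] at h1
  · rw [if_neg hP]
    exact lx_le hρ.ne' h hτ

theorem analyticAt_lx (μ ρ : ℝ) (β θ τ : ℂ) : AnalyticAt ℂ (lx μ ρ β θ) τ := by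
  unfold lx
  have h : AnalyticAt ℂ (fun τ : ℂ => (1 + ((μ / ρ : ℝ) : ℂ) * τ + τ ^ 2) * β
      + (τ * (ρ : ℂ)⁻¹) * θ) τ := by fun_prop
  simpa [div_eq_mul_inv] using h

/-- the constant of the missing factor -/
theorem miss {t β τ : ℂ} {C : ℝ} (ht : ‖t‖ < 1) (ht0 : t ≠ 0) (hτ : ‖τ‖ ≤ 1)
    (hC : ‖t‖ ≤ C * ‖β‖ * (1 - ‖t‖) ^ 2) : 1 ≤ C * (‖β‖ / ‖t‖) * ‖den t τ‖ := by
  have htp : 0 < ‖t‖ := norm_pos_iff.mpr ht0
  have h1 : 0 ≤ C * ‖β‖ := by
    have h2 : 0 < (1 - ‖t‖) ^ 2 := by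
      have : 0 < 1 - ‖t‖ := by linarith
      positivity
    by_contra hcon
    push Not at hcon
    nlinarith
  have h3 := den_ge ht hτ
  have h4 : C * ‖β‖ * (1 - ‖t‖) ^ 2 ≤ C * ‖β‖ * ‖den t τ‖ := mul_le_mul_of_nonneg_left h3 h1
  have h5 : C * (‖β‖ / ‖t‖) * ‖den t τ‖ = C * ‖β‖ * ‖den t τ‖ / ‖t‖ := by ring
  rw [h5, le_div_iff₀ htp]
  linarith

/-- **T columns.** -/
theorem row_T {n : ℕ} {μ ρ : ℝ} (hρ : 0 < ρ) (b T : Fin 2 → ℝ) (w t : Fin n → ℂ)
    (ht : ∀ i, Root μ ρ (bnode b (w i)) (bnode T (w i)) (t i)) {C : ℝ}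
    (hC : ∀ i, ‖t i‖ ≤ C * ‖bnode b (w i)‖ * (1 - ‖t i‖) ^ 2) (ε : ℂ) (i : Fin n) :
    ∃ G : ℂ → ℂ, DiffContOnCl ℂ G (Metric.ball 0 1) ∧
      (G =ᶠ[𝓝 0] fun τ => unitU μ ρ t τ * (ε * hom n (mb (fun j => conj (w j)) w i)
        (b 0 + psi μ ρ τ * T 0) (b 1 + psi μ ρ τ * T 1))) ∧
      ∀ τ : ℂ, ‖τ‖ = 1 → ‖G τ‖ ≤ ‖ε‖ * (C * ∏ j, (‖bnode b (w j)‖ / ‖t j‖)) := by
  refine ⟨fun τ => (ε * ∏ j ∈ univ.erase i, lx μ ρ (bnode b (if j < i then conj (w j) else w j))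
      (bnode T (if j < i then conj (w j) else w j)) τ) / ∏ j, den (t j) τ, ?_, ?_, ?_⟩
  · refine diffCont_div (fun i => (ht i).lt) fun τ => ?_
    exact analyticAt_const.fun_mul (Finset.analyticAt_fun_prod _ fun j _ => analyticAt_lx _ _ _ _ _)
  · filter_upwards [eventually_sl μ ρ] with τ hs
    rw [hom_psi b T _ _ i hs]
    unfold unitU
    have hs' : sl μ ρ τ ^ (n - 1) ≠ 0 := pow_ne_zero _ hs
    field_simp
  · intro τ hτ
    rw [norm_div, norm_mul, norm_prod, norm_prod, mul_div_assoc]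
    refine mul_le_mul_of_nonneg_left ?_ (norm_nonneg _)
    refine prod_bound univ i (Finset.mem_univ i) _ (fun j => ‖den (t j) τ‖)
      (fun j => ‖bnode b (w j)‖ / ‖t j‖) ?_ ?_ ?_ ?_
    · intro j _ _
      exact ⟨norm_nonneg _, node_le hρ (ht j) _ hτ.le⟩
    · intro j _
      exact norm_pos_iff.mpr (den_ne (ht j).lt hτ.le)
    · intro j _; positivity
    · exact miss (ht i).lt (ht i).ne hτ.le (hC i)

/-- the tail of a product of Taylor series only matters up to the order -/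
theorem tc_mul_congr {H f g : ℂ → ℂ} (hH : AnalyticAt ℂ H 0) (hf : AnalyticAt ℂ f 0)
    (hg : AnalyticAt ℂ g 0) (o : ℕ) (h : ∀ j ≤ o, tc j f = tc j g) :
    tc o (fun t => H t * f t) = tc o (fun t => H t * g t) := by
  rw [tc_mul hH hf, tc_mul hH hg]
  refine Finset.sum_congr rfl fun p hp => ?_
  have hp' : p.1 + p.2 = o := Finset.HasAntidiagonal.mem_antidiagonal.mp hp
  rw [h p.2 (by omega)]

/-- the truncated logarithms -/
theorem exists_trunc {Lab Let : Type} [Fintype Let] (S : Frame Lab Let) (u : Fin S.k) (l : Lab)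
    {μ ρ : ℝ} (hρ : 0 < ρ) (hsum : ∑ a, S.co u a * br2 (S.b l) (S.a a) = 0)
    (hrow : ∀ a, br2 (S.b l) (S.a a) ≠ 0 →
      |μ + br2 (S.T l) (S.a a) / br2 (S.b l) (S.a a)| ≤ 2 * ρ) (o : ℕ) :
    ∃ E : ℂ → ℂ, (∀ τ, AnalyticAt ℂ E τ) ∧
      (∀ j ≤ o, tc j (fun τ => S.eg u l (psi μ ρ τ)) = tc j E) ∧
      ∀ τ : ℂ, ‖τ‖ ≤ 1 → ‖E τ‖ ≤ (∑ a, |S.co u a * br2 (S.b l) (S.a a)|) *
        (2 * ∑ j ∈ range o, 1 / ((j : ℝ) + 1)) := by
  have hv : ∀ a, ∃ v : ℂ, ‖v‖ = 1 ∧ (br2 (S.b l) (S.a a) ≠ 0 →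
      v + conj v = (-((μ + br2 (S.T l) (S.a a) / br2 (S.b l) (S.a a)) / ρ) : ℝ)) := by
    intro a
    by_cases h0 : br2 (S.b l) (S.a a) = 0
    · exact ⟨1, by simp, fun h => absurd h0 h⟩
    · obtain ⟨v, hv1, hv2⟩ := exists_circle
        ((μ + br2 (S.T l) (S.a a) / br2 (S.b l) (S.a a)) / ρ) (by
          rw [abs_div, abs_of_pos hρ, div_le_iff₀ hρ]
          exact hrow a h0)
      exact ⟨v, hv1, fun _ => hv2⟩
  choose v hv1 hv2 using hv
  set ec : ℕ → ℂ := fun j => ∑ a, ((S.co u a * br2 (S.b l) (S.a a) : ℝ) : ℂ) *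
    (-(v a ^ j + conj (v a) ^ j) / j) with hec
  refine ⟨fun τ => ∑ j ∈ range (o + 1), ec j * τ ^ j, ?_, ?_, ?_⟩
  · intro τ
    exact Finset.analyticAt_fun_sum _ fun j _ => by fun_prop
  · intro j hj
    have e1 : (fun τ => S.eg u l (psi μ ρ τ)) =ᶠ[𝓝 0] fun τ =>
        ∑ a, ((S.co u a * br2 (S.b l) (S.a a) : ℝ) : ℂ) *
          (Complex.log (1 + τ * (-(v a))) + Complex.log (1 + τ * (-conj (v a)))) := by
      have hall : ∀ a, ∀ᶠ τ in 𝓝 (0 : ℂ), ((S.co u a * br2 (S.b l) (S.a a) : ℝ) : ℂ) *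
          Complex.log (1 + psi μ ρ τ * ((br2 (S.T l) (S.a a) / br2 (S.b l) (S.a a) : ℝ) : ℂ))
          = ((S.co u a * br2 (S.b l) (S.a a) : ℝ) : ℂ) *
            (Complex.log (1 + τ * (-(v a))) + Complex.log (1 + τ * (-conj (v a))))
            - ((S.co u a * br2 (S.b l) (S.a a) : ℝ) : ℂ) * Complex.log (sl μ ρ τ) := by
        intro a
        by_cases h0 : br2 (S.b l) (S.a a) = 0
        · filter_upwards with τ
          rw [h0]; simp
        · filter_upwards [log_slit hρ (hv2 a h0) (hv1 a)] with τ hτ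
          rw [hτ]; ring
      filter_upwards [eventually_all.mpr hall] with τ hτ
      unfold Frame.eg
      rw [Finset.sum_congr rfl fun a _ => hτ a, Finset.sum_sub_distrib, ← Finset.sum_mul]
      have h1 : ∑ a, ((S.co u a * br2 (S.b l) (S.a a) : ℝ) : ℂ) = 0 := by
        rw [← Complex.ofReal_sum, hsum, Complex.ofReal_zero]
      rw [h1, zero_mul, sub_zero]
    have e2 : tc j (fun τ => S.eg u l (psi μ ρ τ)) = ec j := by
      rw [tc_congr e1, tc_sum]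
      · refine Finset.sum_congr rfl fun a _ => ?_
        rw [tc_const_mul, tc_log_slit]
      · intro a _
        exact analyticAt_const.fun_mul
          ((Frame.analyticAt_log1 _).fun_add (Frame.analyticAt_log1 _))
    rw [e2]
    symm
    refine tc_of_exp (H := fun _ => 0) analyticAt_const (o + 1) ec ?_ j (by omega)
    filter_upwards with τ
    simp
  · intro τ hτ
    have hb : ∀ j, ‖ec j * τ ^ j‖ ≤ (∑ a, |S.co u a * br2 (S.b l) (S.a a)|) * (2 / (j : ℝ)) := by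
      intro j
      rw [norm_mul, norm_pow]
      have h1 : ‖τ‖ ^ j ≤ 1 := pow_le_one₀ (norm_nonneg _) hτ
      have h2 : ‖ec j‖ ≤ (∑ a, |S.co u a * br2 (S.b l) (S.a a)|) * (2 / (j : ℝ)) := by
        rw [hec, Finset.sum_mul]
        refine (norm_sum_le _ _).trans (Finset.sum_le_sum fun a _ => ?_)
        rw [norm_mul, Complex.norm_real, Real.norm_eq_abs, norm_div, Complex.norm_natCast, norm_neg]
        refine mul_le_mul_of_nonneg_left ?_ (abs_nonneg _)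
        refine div_le_div_of_nonneg_right ?_ (Nat.cast_nonneg j)
        refine (norm_add_le _ _).trans ?_
        rw [norm_pow, norm_pow, RCLike.norm_conj, hv1 a, one_pow]
        norm_num
      calc ‖ec j‖ * ‖τ‖ ^ j ≤ ‖ec j‖ * 1 := mul_le_mul_of_nonneg_left h1 (norm_nonneg _)
        _ ≤ _ := by rw [mul_one]; exact h2
    refine (norm_sum_le _ _).trans ?_
    rw [Finset.sum_range_succ']
    have h0 : ‖ec 0 * τ ^ 0‖ ≤ 0 := by
      have := hb 0
      simpa using this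
    have h1 : ∑ j ∈ range o, ‖ec (j + 1) * τ ^ (j + 1)‖
        ≤ ∑ j ∈ range o, (∑ a, |S.co u a * br2 (S.b l) (S.a a)|) * (2 / ((j + 1 : ℕ) : ℝ)) :=
      Finset.sum_le_sum fun j _ => hb (j + 1)
    have h2 : ∑ j ∈ range o, (∑ a, |S.co u a * br2 (S.b l) (S.a a)|) * (2 / ((j + 1 : ℕ) : ℝ))
        = (∑ a, |S.co u a * br2 (S.b l) (S.a a)|) * (2 * ∑ j ∈ range o, 1 / ((j : ℝ) + 1)) := by
      rw [Finset.mul_sum, Finset.mul_sum]
      refine Finset.sum_congr rfl fun j _ => ?_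
      push_cast
      ring
    linarith

/-- the letters along the slit disc -/
theorem fF_psi {Lab Let : Type} (S : Frame Lab Let) (l : Lab) {μ ρ : ℝ} {τ : ℂ}
    (hs : sl μ ρ τ ≠ 0) :
    S.fF l (psi μ ρ τ) = (∏ k, lx μ ρ ((br2 (S.b l) (S.a (S.cF k)) : ℝ) : ℂ)
      ((br2 (S.T l) (S.a (S.cF k)) : ℝ) : ℂ) τ) / sl μ ρ τ ^ S.nF := by
  unfold Frame.fF
  rw [Finset.prod_congr rfl fun k _ => lin_psi hs _ _, Finset.prod_div_distrib, Finset.prod_const,
    Finset.card_univ, Fintype.card_fin]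

/-- **E columns, inner rows.** -/
theorem row_E {Lab Let : Type} [Fintype Let] (S : Frame Lab Let) (l : Lab) {μ ρ : ℝ}
    (hρ : 0 < ρ) (wE : Fin S.nE → ℂ) (wF : Fin S.nF → ℂ) (t : Fin (S.nE + S.nF) → ℂ)
    (ht : ∀ i, Root μ ρ (bnode (S.b l) (Fin.append wE wF i)) (bnode (S.T l) (Fin.append wE wF i))
      (t i)) {C : ℝ}
    (hC : ∀ i, ‖t i‖ ≤ C * ‖bnode (S.b l) (Fin.append wE wF i)‖ * (1 - ‖t i‖) ^ 2)
    (κ : Fin S.nF → ℝ) (hκ0 : ∀ k, 0 < κ k) (him : ∀ k, (wF k).im ≠ 0)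
    (hκ : ∀ k, ‖bnode (S.a (S.cF k)) (wF k)‖ / |(wF k).im| ≤ κ k)
    (hsum : ∀ u, ∑ a, S.co u a * br2 (S.b l) (S.a a) = 0)
    (hrow : ∀ a, br2 (S.b l) (S.a a) ≠ 0 →
      |μ + br2 (S.T l) (S.a a) / br2 (S.b l) (S.a a)| ≤ 2 * ρ) (o : ℕ) {A : ℝ}
    (hA : ∀ u, (∑ a, |S.co u a * br2 (S.b l) (S.a a)|) *
        (2 * ∑ j ∈ range o, 1 / ((j : ℝ) + 1)) ≤ A) (i : Fin S.nE) (u : Fin S.k) :
    ∃ G : ℂ → ℂ, DiffContOnCl ℂ G (Metric.ball 0 1) ∧
      (tc o G = tc o fun τ => unitU μ ρ t τ * ((((∏ k, κ k : ℝ)) : ℂ)⁻¹ *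
        hom S.nE (mb (fun j => conj (wE j)) wE i) (S.b l 0 + psi μ ρ τ * S.T l 0)
        (S.b l 1 + psi μ ρ τ * S.T l 1) * S.fF l (psi μ ρ τ) * S.eg u l (psi μ ρ τ))) ∧
      ∀ τ : ℂ, ‖τ‖ = 1 → ‖G τ‖
        ≤ A * (C * ∏ j, (‖bnode (S.b l) (Fin.append wE wF j)‖ / ‖t j‖)) := by
  obtain ⟨E, hE1, hE2, hE3⟩ := exists_trunc S u l hρ (hsum u) hrow o
  have hKp : 0 < ∏ k, κ k := Finset.prod_pos fun k _ => hκ0 k
  set K : ℝ := ∏ k, κ k with hK
  set num : ℂ → ℂ := fun τ => (K : ℂ)⁻¹ *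
    (∏ j ∈ univ.erase i, lx μ ρ (bnode (S.b l) (if j < i then conj (wE j) else wE j))
      (bnode (S.T l) (if j < i then conj (wE j) else wE j)) τ) *
    (∏ k, lx μ ρ ((br2 (S.b l) (S.a (S.cF k)) : ℝ) : ℂ)
      ((br2 (S.T l) (S.a (S.cF k)) : ℝ) : ℂ) τ) with hnum
  have hnuma : ∀ τ, AnalyticAt ℂ num τ := by
    intro τ
    exact (analyticAt_const.fun_mul (Finset.analyticAt_fun_prod _ fun j _ =>
      analyticAt_lx _ _ _ _ _)).fun_mul (Finset.analyticAt_fun_prod _ fun j _ =>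
      analyticAt_lx _ _ _ _ _)
  have hH : AnalyticAt ℂ (fun τ => num τ / ∏ j, den (t j) τ) 0 :=
    (hnuma 0).fun_div (analyticAt_prod_den t 0) (prod_den_ne (fun j => (ht j).lt) (by simp))
  have hegpsi : AnalyticAt ℂ (fun τ => S.eg u l (psi μ ρ τ)) 0 := by
    have h1 : AnalyticAt ℂ (S.eg u l) (psi μ ρ 0) := by
      rw [psi_zero]; exact S.analyticAt_eg u l
    exact h1.fun_comp (analyticAt_psi μ ρ)
  refine ⟨fun τ => num τ * E τ / ∏ j, den (t j) τ, ?_, ?_, ?_⟩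
  · exact diffCont_div (fun i => (ht i).lt) fun τ => (hnuma τ).fun_mul (hE1 τ)
  · have e1 : (fun τ => unitU μ ρ t τ * ((K : ℂ)⁻¹ *
        hom S.nE (mb (fun j => conj (wE j)) wE i) (S.b l 0 + psi μ ρ τ * S.T l 0)
        (S.b l 1 + psi μ ρ τ * S.T l 1) * S.fF l (psi μ ρ τ) * S.eg u l (psi μ ρ τ)))
        =ᶠ[𝓝 0] fun τ => (num τ / ∏ j, den (t j) τ) * S.eg u l (psi μ ρ τ) := by
      filter_upwards [eventually_sl μ ρ] with τ hs
      rw [hom_psi (S.b l) (S.T l) _ _ i hs, fF_psi S l hs]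
      unfold unitU
      have hn : S.nE + S.nF - 1 = (S.nE - 1) + S.nF := by have := i.isLt; omega
      rw [hn, pow_add]
      have hs1 : sl μ ρ τ ^ (S.nE - 1) ≠ 0 := pow_ne_zero _ hs
      have hs2 : sl μ ρ τ ^ S.nF ≠ 0 := pow_ne_zero _ hs
      rw [hnum]
      field_simp
    rw [tc_congr e1]
    have e2 : (fun τ => num τ * E τ / ∏ j, den (t j) τ)
        = fun τ => (num τ / ∏ j, den (t j) τ) * E τ := by
      funext τ; ring
    rw [e2]
    exact (tc_mul_congr hH hegpsi (hE1 0) o hE2).symm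
  · intro τ hτ
    have hτ' : ‖τ‖ ≤ 1 := hτ.le
    -- the numerator
    have hA0 : ‖E τ‖ ≤ A := (hE3 τ hτ').trans (hA u)
    have h1 : ‖num τ / ∏ j, den (t j) τ‖
        ≤ C * ∏ j, (‖bnode (S.b l) (Fin.append wE wF j)‖ / ‖t j‖) := by
      rw [Fin.prod_univ_add, Fin.prod_univ_add]
      have p1 : (∏ j ∈ univ.erase i,
          ‖lx μ ρ (bnode (S.b l) (if j < i then conj (wE j) else wE j))
            (bnode (S.T l) (if j < i then conj (wE j) else wE j)) τ‖) /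
          ∏ j, ‖den (t (Fin.castAdd S.nF j)) τ‖
          ≤ C * ∏ j, (‖bnode (S.b l) (Fin.append wE wF (Fin.castAdd S.nF j))‖ /
            ‖t (Fin.castAdd S.nF j)‖) := by
        refine prod_bound univ i (Finset.mem_univ i) _ (fun j => ‖den (t (Fin.castAdd S.nF j)) τ‖)
          (fun j => ‖bnode (S.b l) (Fin.append wE wF (Fin.castAdd S.nF j))‖ /
            ‖t (Fin.castAdd S.nF j)‖) ?_ ?_ ?_ ?_
        · intro j _ _
          refine ⟨norm_nonneg _, ?_⟩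
          have h2 := ht (Fin.castAdd S.nF j)
          rw [Fin.append_left] at h2
          show _ ≤ ‖bnode (S.b l) (Fin.append wE wF (Fin.castAdd S.nF j))‖ / _ * _
          rw [Fin.append_left]
          exact node_le hρ h2 _ hτ'
        · intro j _
          exact norm_pos_iff.mpr (den_ne (ht _).lt hτ')
        · intro j _; positivity
        · exact miss (ht _).lt (ht _).ne hτ' (hC _)
      have p2 : K⁻¹ * (∏ k, ‖lx μ ρ ((br2 (S.b l) (S.a (S.cF k)) : ℝ) : ℂ)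
          ((br2 (S.T l) (S.a (S.cF k)) : ℝ) : ℂ) τ‖) /
          ∏ k, ‖den (t (Fin.natAdd S.nE k)) τ‖
          ≤ ∏ k, (‖bnode (S.b l) (Fin.append wE wF (Fin.natAdd S.nE k))‖ /
            ‖t (Fin.natAdd S.nE k)‖) := by
        rw [hK, ← Finset.prod_inv_distrib, ← Finset.prod_mul_distrib, ← Finset.prod_div_distrib]
        refine Finset.prod_le_prod (fun k _ => ?_) fun k _ => ?_
        · have := hκ0 k
          positivity
        · have hd : 0 < ‖den (t (Fin.natAdd S.nE k)) τ‖ :=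
            norm_pos_iff.mpr (den_ne (ht _).lt hτ')
          have h2 := ht (Fin.natAdd S.nE k)
          rw [Fin.append_right] at h2
          have h3 := lx_le hρ.ne' h2 hτ'
          have h4 := lx_letter (μ := μ) (ρ := ρ) (S.b l 0) (S.b l 1) (S.T l 0) (S.T l 1)
            (S.a (S.cF k) 0) (S.a (S.cF k) 1) (wF k) (him k) hτ
          have h5 : ‖((S.a (S.cF k) 0 : ℝ) : ℂ) - (S.a (S.cF k) 1 : ℝ) * wF k‖ / |(wF k).im|
              ≤ κ k := hκ k
          rw [div_le_iff₀ hd, inv_mul_le_iff₀ (hκ0 k), Fin.append_right]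
          refine h4.trans ?_
          exact mul_le_mul h5 h3 (norm_nonneg _) (hκ0 k).le
      have hqE : 0 ≤ C * ∏ j, (‖bnode (S.b l) (Fin.append wE wF (Fin.castAdd S.nF j))‖ /
            ‖t (Fin.castAdd S.nF j)‖) := le_trans (by positivity) p1
      have e3 : ‖num τ / ((∏ j, den (t (Fin.castAdd S.nF j)) τ) *
          ∏ k, den (t (Fin.natAdd S.nE k)) τ)‖
          = ((∏ j ∈ univ.erase i,
          ‖lx μ ρ (bnode (S.b l) (if j < i then conj (wE j) else wE j))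
            (bnode (S.T l) (if j < i then conj (wE j) else wE j)) τ‖) /
          ∏ j, ‖den (t (Fin.castAdd S.nF j)) τ‖) *
          (K⁻¹ * (∏ k, ‖lx μ ρ ((br2 (S.b l) (S.a (S.cF k)) : ℝ) : ℂ)
          ((br2 (S.T l) (S.a (S.cF k)) : ℝ) : ℂ) τ‖) /
          ∏ k, ‖den (t (Fin.natAdd S.nE k)) τ‖) := by
        rw [hnum]
        simp only [norm_div, norm_mul, norm_prod, norm_inv, Complex.norm_real]
        rw [Real.norm_of_nonneg hKp.le]
        ring
      rw [e3, ← mul_assoc]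
      exact mul_le_mul p1 p2 (by positivity) hqE
    have e4 : num τ * E τ / ∏ j, den (t j) τ = E τ * (num τ / ∏ j, den (t j) τ) := by ring
    show ‖num τ * E τ / ∏ j, den (t j) τ‖ ≤ _
    rw [e4, norm_mul]
    exact mul_le_mul hA0 h1 (norm_nonneg _) ((norm_nonneg _).trans hA0)

/-- **E columns, rows where the letters vanish to high order.** -/
theorem row_E0 {Lab Let : Type} [Fintype Let] (S : Frame Lab Let) (l : Lab) {μ ρ : ℝ}
    {n : ℕ} (t : Fin n → ℂ) (ht : ∀ i, ‖t i‖ < 1) (o : ℕ)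
    (ho : o < (univ.filter fun k => br2 (S.b l) (S.a (S.cF k)) = 0).card)
    (g : ℂ → ℂ) (hg : AnalyticAt ℂ g 0) (u : Fin S.k) :
    tc o (fun τ => unitU μ ρ t τ * (g τ * S.fF l (psi μ ρ τ) * S.eg u l (psi μ ρ τ))) = 0 := by
  set Z := univ.filter fun k => br2 (S.b l) (S.a (S.cF k)) = 0 with hZ
  have hegpsi : AnalyticAt ℂ (fun τ => S.eg u l (psi μ ρ τ)) 0 := by
    have h1 : AnalyticAt ℂ (S.eg u l) (psi μ ρ 0) := by
      rw [psi_zero]; exact S.analyticAt_eg u l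
    exact h1.fun_comp (analyticAt_psi μ ρ)
  have hpsi := analyticAt_psi μ ρ
  have hinv : AnalyticAt ℂ (fun τ => (ρ : ℂ)⁻¹ / sl μ ρ τ) 0 :=
    analyticAt_const.fun_div (analyticAt_sl μ ρ 0) (by rw [sl_zero]; exact one_ne_zero)
  have hrest : AnalyticAt ℂ (fun τ => unitU μ ρ t τ * (g τ * S.eg u l (psi μ ρ τ)) *
      ((∏ k ∈ Z, ((ρ : ℂ)⁻¹ / sl μ ρ τ) * ((br2 (S.T l) (S.a (S.cF k)) : ℝ) : ℂ)) *
      ∏ k ∈ univ.filter (fun k => ¬ br2 (S.b l) (S.a (S.cF k)) = 0),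
        (((br2 (S.b l) (S.a (S.cF k)) : ℝ) : ℂ) + psi μ ρ τ *
          ((br2 (S.T l) (S.a (S.cF k)) : ℝ) : ℂ)))) 0 := by
    refine ((analyticAt_unitU μ ρ ht).fun_mul (hg.fun_mul hegpsi)).fun_mul
      ((Finset.analyticAt_fun_prod _ fun k _ => hinv.fun_mul analyticAt_const).fun_mul
      (Finset.analyticAt_fun_prod _ fun k _ =>
        analyticAt_const.fun_add (hpsi.fun_mul analyticAt_const)))
  rw [← tc_eq_zero_of_order ho hrest]
  congr 1
  funext τ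
  unfold Frame.fF
  rw [← Finset.prod_filter_mul_prod_filter_not univ
    (fun k => br2 (S.b l) (S.a (S.cF k)) = 0)]
  have h1 : ∏ k ∈ univ.filter (fun k => br2 (S.b l) (S.a (S.cF k)) = 0),
      (((br2 (S.b l) (S.a (S.cF k)) : ℝ) : ℂ) + psi μ ρ τ *
        ((br2 (S.T l) (S.a (S.cF k)) : ℝ) : ℂ))
      = τ ^ Z.card * ∏ k ∈ Z, ((ρ : ℂ)⁻¹ / sl μ ρ τ) *
        ((br2 (S.T l) (S.a (S.cF k)) : ℝ) : ℂ) := by
    rw [← Finset.prod_const, ← Finset.prod_mul_distrib]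
    refine Finset.prod_congr rfl fun k hk => ?_
    rw [Finset.mem_filter] at hk
    rw [hk.2]
    unfold psi
    push_cast
    ring
  rw [h1]
  ring

/-- `det_disc_le` where only the relevant Taylor coefficients have to agree -/
theorem det_disc_le' {ι P : Type*} [Fintype ι] [DecidableEq ι]
    (pt : ι → P) (ord : ι → ℕ)
    (hinj : ∀ r s, pt r = pt s → ord r = ord s → r = s)
    (hfull : ∀ r, ∀ j < ord r, ∃ s, pt s = pt r ∧ ord s = j)
    (F : P → ι → ℂ → ℂ) (hF : ∀ b c, AnalyticAt ℂ (F b c) 0)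
    (W : Matrix ι ι ℂ) (U Ψ : ι → ℂ → ℂ) (hU : ∀ r, AnalyticAt ℂ (U r) 0)
    (hΨ : ∀ r, AnalyticAt ℂ (Ψ r) 0) (h0 : ∀ r, Ψ r 0 = 0) (B : ι → ℝ)
    (hB : ∀ r c, ∃ G : ℂ → ℂ, DiffContOnCl ℂ G (Metric.ball 0 1) ∧
      (tc (ord r) G = tc (ord r) fun t => U r t * ∑ d, F (pt r) d (Ψ r t) * W d c) ∧
      ∀ t : ℂ, ‖t‖ = 1 → ‖G t‖ ≤ B r) :
    ‖(Matrix.of fun r c : ι => tc (ord r) (F (pt r) c)).det‖ * ‖W.det‖
        * ∏ r, (‖U r 0‖ * ‖deriv (Ψ r) 0‖ ^ ord r)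
      ≤ (Fintype.card ι).factorial * ∏ r, B r := by
  have hT : ∀ r, ‖tc (ord r) (fun t => U r t * Ψ r t ^ ord r)‖
      = ‖U r 0‖ * ‖deriv (Ψ r) 0‖ ^ ord r := by
    intro r
    rw [tc_diag (hU r) (hΨ r) (h0 r), norm_mul, norm_pow]
  have key := det_jets_le pt ord hinj hfull (fun b c j => tc j (F b c))
    (fun r j => tc (ord r) (fun t => U r t * Ψ r t ^ j)) W B ?_
  · rw [← Finset.prod_congr rfl fun r _ => hT r]
    exact key
  · intro r c
    obtain ⟨G, hG1, hG2, hG3⟩ := hB r c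
    have hsumF : AnalyticAt ℂ (fun x => ∑ d, F (pt r) d x * W d c) 0 :=
      Finset.analyticAt_fun_sum _ fun d _ => (hF _ _).fun_mul analyticAt_const
    have h1 : ∀ j, ∑ d, tc j (F (pt r) d) * W d c
        = tc j (fun x => ∑ d, F (pt r) d x * W d c) := by
      intro j
      rw [tc_sum Finset.univ (fun d x => F (pt r) d x * W d c)
        fun d _ => (hF _ _).fun_mul analyticAt_const]
      exact Finset.sum_congr rfl fun d _ => (tc_mul_const _).symm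
    have h2 : ∑ j ∈ range (ord r + 1), tc (ord r) (fun t => U r t * Ψ r t ^ j) *
        ∑ d, tc j (F (pt r) d) * W d c = tc (ord r) G := by
      rw [hG2, tc_comp (hU r) (hΨ r) hsumF (h0 r)]
      exact Finset.sum_congr rfl fun j _ => by rw [h1 j]
    rw [h2]
    exact norm_tc_le hG1 (fun t ht => hG3 t ht) _

/-- **The archimedean bound of the frame.** -/
theorem arch_frame {Lab Let R : Type} [Fintype Let] [Fintype R] [DecidableEq R]
    (S : Frame Lab Let) (e : R ≃ S.Col) (pt : R → Lab) (ord : R → ℕ)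
    (hinj : ∀ r s, pt r = pt s → ord r = ord s → r = s)
    (hfull : ∀ r, ∀ j < ord r, ∃ s, pt s = pt r ∧ ord s = j)
    (wE : Fin S.nE → ℂ) (wF : Fin S.nF → ℂ) (him : ∀ k, (wF k).im ≠ 0)
    (κ : Fin S.nF → ℝ) (hκ0 : ∀ k, 0 < κ k)
    (hκ : ∀ k, ‖bnode (S.a (S.cF k)) (wF k)‖ / |(wF k).im| ≤ κ k)
    (hco : ∀ u i, ∑ a, S.co u a * S.a a i = 0)
    (μ ρ : R → ℝ) (hρ : ∀ r, 0 < ρ r) (t : R → Fin (S.nE + S.nF) → ℂ)
    (ht : ∀ r i, Root (μ r) (ρ r) (bnode (S.b (pt r)) (Fin.append wE wF i))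
      (bnode (S.T (pt r)) (Fin.append wE wF i)) (t r i))
    (hrow : ∀ r, (∀ a, br2 (S.b (pt r)) (S.a a) ≠ 0 →
      |μ r + br2 (S.T (pt r)) (S.a a) / br2 (S.b (pt r)) (S.a a)| ≤ 2 * ρ r) ∨
      ord r < (univ.filter fun k => br2 (S.b (pt r)) (S.a (S.cF k)) = 0).card)
    (A C : ℝ) (hC0 : 0 ≤ C)
    (hC : ∀ r i, ‖t r i‖ ≤ C * ‖bnode (S.b (pt r)) (Fin.append wE wF i)‖ * (1 - ‖t r i‖) ^ 2)
    (hAb : ∀ r (e : Fin 2), |S.b (pt r) e| ≤ A)
    (hAE : ∀ r u, (∑ a, |S.co u a * br2 (S.b (pt r)) (S.a a)|) *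
        (2 * ∑ j ∈ range (ord r), 1 / ((j : ℝ) + 1)) ≤ A) :
    ‖(Matrix.of fun r r' : R => tc (ord r) (S.fn (pt r) (e r'))).det‖ *
      ((∏ i, ∏ j ∈ Ioi i, ‖conj (Fin.append wE wF i) - Fin.append wE wF j‖) ^ 2 *
      (((∏ k, κ k)⁻¹) ^ S.nE * ∏ i, ∏ j ∈ Ioi i, ‖conj (wE i) - wE j‖) ^ S.k) *
      ∏ r, (ρ r)⁻¹ ^ ord r
    ≤ (Fintype.card R).factorial *
      ∏ r, (A * (C * ∏ j, (‖bnode (S.b (pt r)) (Fin.append wE wF j)‖ / ‖t r j‖))) := by
  classical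
  have hKp : 0 < ∏ k, κ k := Finset.prod_pos fun k _ => hκ0 k
  set w := Fin.append wE wF with hw
  set WW := (S.W w wE (∏ k, κ k)).submatrix e e with hWW
  have hdet : ‖WW.det‖ = (∏ i, ∏ j ∈ Ioi i, ‖conj (w i) - w j‖) ^ 2 *
      (((∏ k, κ k)⁻¹) ^ S.nE * ∏ i, ∏ j ∈ Ioi i, ‖conj (wE i) - wE j‖) ^ S.k := by
    rw [hWW, Matrix.det_submatrix_equiv_self, S.det_W]
    simp only [norm_mul, norm_pow, norm_prod, norm_inv, Complex.norm_real]
    have hk : ∏ k, ‖κ k‖ = ∏ k, κ k :=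
      Finset.prod_congr rfl fun k _ => Real.norm_of_nonneg (hκ0 k).le
    rw [hk]
  have key := det_disc_le' pt ord hinj hfull (fun l r' => S.fn l (e r'))
    (fun l r' => S.analyticAt_fn l (e r')) WW
    (fun r => unitU (μ r) (ρ r) (t r)) (fun r => psi (μ r) (ρ r))
    (fun r => analyticAt_unitU _ _ fun i => (ht r i).lt) (fun r => analyticAt_psi _ _)
    (fun r => psi_zero _ _)
    (fun r => A * (C * ∏ j, (‖bnode (S.b (pt r)) (w j)‖ / ‖t r j‖))) ?_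
  · rw [hdet] at key
    have h1 : ∏ r, (‖unitU (μ r) (ρ r) (t r) 0‖ * ‖deriv (psi (μ r) (ρ r)) 0‖ ^ ord r)
        = ∏ r, (ρ r)⁻¹ ^ ord r := by
      refine Finset.prod_congr rfl fun r _ => ?_
      rw [unitU_zero, norm_one, one_mul, deriv_psi (hρ r)]
    rw [h1] at key
    exact key
  · intro r r'
    have hsumc : ∀ τ, ∑ d, S.fn (pt r) (e d) (psi (μ r) (ρ r) τ) * WW d r'
        = ∑ d, S.fn (pt r) d (psi (μ r) (ρ r) τ) * S.W w wE (∏ k, κ k) d (e r') := by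
      intro τ
      rw [← Equiv.sum_comp e]
      rfl
    have hCp : 0 ≤ C * ∏ j, (‖bnode (S.b (pt r)) (w j)‖ / ‖t r j‖) :=
      mul_nonneg hC0 (Finset.prod_nonneg fun j _ => by positivity)
    have hA0 : 0 ≤ A := (abs_nonneg _).trans (hAb r 0)
    rcases hc : e r' with ⟨i, ε⟩ | ⟨i, u⟩
    · obtain ⟨G, hG1, hG2, hG3⟩ := row_T (hρ r) (S.b (pt r)) (S.T (pt r)) w (t r) (ht r) (hC r)
        (S.b (pt r) ε : ℂ) i
      refine ⟨G, hG1, ?_, fun τ hτ => (hG3 τ hτ).trans ?_⟩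
      · rw [tc_congr hG2]
        congr 1
        funext τ
        rw [hsumc τ, hc, S.new_T]
      · rw [Complex.norm_real, Real.norm_eq_abs]
        exact mul_le_mul_of_nonneg_right (hAb r ε) hCp
    · have hE : ∀ τ, unitU (μ r) (ρ r) (t r) τ *
          ∑ d, S.fn (pt r) (e d) (psi (μ r) (ρ r) τ) * WW d r'
          = unitU (μ r) (ρ r) (t r) τ * ((((∏ k, κ k : ℝ)) : ℂ)⁻¹ *
        hom S.nE (mb (fun j => conj (wE j)) wE i) (S.b (pt r) 0 + psi (μ r) (ρ r) τ * S.T (pt r) 0)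
        (S.b (pt r) 1 + psi (μ r) (ρ r) τ * S.T (pt r) 1) * S.fF (pt r) (psi (μ r) (ρ r) τ) *
          S.eg u (pt r) (psi (μ r) (ρ r) τ)) := by
        intro τ
        rw [hsumc τ, hc, S.new_E]
      have hfun : (fun τ => unitU (μ r) (ρ r) (t r) τ *
          ∑ d, S.fn (pt r) (e d) (psi (μ r) (ρ r) τ) * WW d r')
          = fun τ => unitU (μ r) (ρ r) (t r) τ * ((((∏ k, κ k : ℝ)) : ℂ)⁻¹ *
        hom S.nE (mb (fun j => conj (wE j)) wE i) (S.b (pt r) 0 + psi (μ r) (ρ r) τ * S.T (pt r) 0)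
        (S.b (pt r) 1 + psi (μ r) (ρ r) τ * S.T (pt r) 1) * S.fF (pt r) (psi (μ r) (ρ r) τ) *
          S.eg u (pt r) (psi (μ r) (ρ r) τ)) := funext hE
      rcases hrow r with hr | hr
      · have hsum : ∀ u, ∑ a, S.co u a * br2 (S.b (pt r)) (S.a a) = 0 := by
          intro u
          unfold br2
          have h2 : ∀ a, S.co u a * (S.b (pt r) 0 * S.a a 1 - S.b (pt r) 1 * S.a a 0)
              = S.b (pt r) 0 * (S.co u a * S.a a 1) - S.b (pt r) 1 * (S.co u a * S.a a 0) := by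
            intro a; ring
          rw [Finset.sum_congr rfl fun a _ => h2 a, Finset.sum_sub_distrib, ← Finset.mul_sum,
            ← Finset.mul_sum, hco, hco]
          ring
        obtain ⟨G, hG1, hG2, hG3⟩ := row_E S (pt r) (hρ r) wE wF (t r) (ht r) (hC r) κ hκ0 him hκ
          hsum hr (ord r) (hAE r) i u
        refine ⟨G, hG1, ?_, hG3⟩
        rw [hG2, hfun]
      · refine ⟨fun _ => 0, ?_, ?_, fun τ _ => ?_⟩
        · exact diffContOnCl_const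
        · have h3 : tc (ord r) (fun _ : ℂ => (0 : ℂ)) = 0 := by
            have := tc_const_mul (i := ord r) (g := fun _ : ℂ => (0 : ℂ)) 0
            simpa using this
          rw [hfun, h3]
          symm
          have hg : AnalyticAt ℂ (fun τ => (((∏ k, κ k : ℝ)) : ℂ)⁻¹ *
              hom S.nE (mb (fun j => conj (wE j)) wE i)
              (S.b (pt r) 0 + psi (μ r) (ρ r) τ * S.T (pt r) 0)
              (S.b (pt r) 1 + psi (μ r) (ρ r) τ * S.T (pt r) 1)) 0 := by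
            have hpsi := analyticAt_psi (μ r) (ρ r)
            unfold hom
            refine analyticAt_const.fun_mul (Finset.analyticAt_fun_sum _ fun k _ => ?_)
            exact analyticAt_const.fun_mul (((analyticAt_const.fun_add
              (hpsi.fun_mul analyticAt_const)).fun_pow _).fun_mul ((analyticAt_const.fun_add
              (hpsi.fun_mul analyticAt_const)).fun_pow _))
          exact row_E0 S (pt r) (t r) (fun i => (ht r i).lt) (ord r) hr _ hg u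
        · rw [norm_zero]
          exact mul_nonneg hA0 hCp

end B10
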