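import Pool.Agent.Lib.B10.ArchData
import Pool.Agent.Lib.B10.ArchRow

/-!
# The roots of the nodes in the slit discs, with lower bounds (ellipse inequality)
-/

namespace B10.Ar

open Complex ComplexConjugate

/-- the root in the unit disc -/
theorem exists_unit_root (z : ℂ) (hz : z.im ≠ 0) :
    ∃ t : ℂ, t ≠ 0 ∧ ‖t‖ < 1 ∧ t ^ 2 + 1 = z * t := by
  obtain ⟨s, hs⟩ := IsAlgClosed.exists_pow_nat_eq (z ^ 2 - 4) (show 0 < 2 by norm_num)
  have h1 : ((z + s) / 2) * ((z - s) / 2) = 1 := by linear_combination -hs / 4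
  have e1 : ((z + s) / 2) ^ 2 + 1 = z * ((z + s) / 2) := by linear_combination hs / 4
  have e2 : ((z - s) / 2) ^ 2 + 1 = z * ((z - s) / 2) := by linear_combination hs / 4
  have n1 : (z + s) / 2 ≠ 0 := left_ne_zero_of_mul_eq_one h1
  have n2 : (z - s) / 2 ≠ 0 := right_ne_zero_of_mul_eq_one h1
  set t1 := (z + s) / 2 with ht1
  set t2 := (z - s) / 2 with ht2
  have hn : ‖t1‖ * ‖t2‖ = 1 := by rw [← norm_mul, h1, norm_one]
  by_cases c1 : ‖t1‖ < 1
  · exact ⟨t1, n1, c1, e1⟩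
  by_cases c2 : ‖t2‖ < 1
  · exact ⟨t2, n2, c2, e2⟩
  exfalso
  push Not at c1 c2
  have h3 : ‖t1‖ = 1 := by nlinarith [norm_nonneg t1, norm_nonneg t2]
  have h4 : t1 * conj t1 = 1 := by
    rw [Complex.mul_conj, Complex.normSq_eq_norm_sq, h3]; simp
  have h5 : t2 = conj t1 := mul_left_cancel₀ n1 (h1.trans h4.symm)
  have h6 : z = t1 + t2 := by rw [ht1, ht2]; ring
  apply hz
  rw [h6, h5]
  simp

/-- the ellipse inequality gives a lower bound of the root -/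
theorem norm_root_ge {z t : ℂ} (ht0 : t ≠ 0) (ht : ‖t‖ < 1) (e : t ^ 2 + 1 = z * t)
    (hz : z.im ≠ 0) {s : ℝ} (hs0 : 0 < s) (hs1 : s < 1)
    (h : z.re ^ 2 * s ^ 2 * (1 - s ^ 2) ^ 2 + z.im ^ 2 * s ^ 2 * (1 + s ^ 2) ^ 2
      ≤ (1 - s ^ 2) ^ 2 * (1 + s ^ 2) ^ 2) : s ≤ ‖t‖ := by
  by_contra hlt
  push Not at hlt
  set r := ‖t‖ with hr
  have hr0 : 0 < r := norm_pos_iff.mpr ht0
  have hrr : t.re ^ 2 + t.im ^ 2 = r ^ 2 := by
    have := Complex.normSq_eq_norm_sq t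
    rw [Complex.normSq_apply] at this
    rw [hr, ← this]; ring
  -- `z r^2 = t r^2 + conj t`
  have hz1 : z * (r : ℂ) ^ 2 = t * (r : ℂ) ^ 2 + conj t := by
    have h1 : t * conj t = (r : ℂ) ^ 2 := by
      rw [Complex.mul_conj, Complex.normSq_eq_norm_sq]; push_cast; rfl
    have h2 : (z * (r : ℂ) ^ 2) * t = (t * (r : ℂ) ^ 2 + conj t) * t := by
      linear_combination (-(r : ℂ) ^ 2) * e - h1
    exact mul_right_cancel₀ ht0 h2
  have hre : z.re * r ^ 2 = t.re * (1 + r ^ 2) := by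
    have := congrArg Complex.re hz1
    rw [← Complex.ofReal_pow] at this
    simp only [Complex.mul_re, Complex.ofReal_re, Complex.ofReal_im, mul_zero, sub_zero,
      Complex.add_re, Complex.conj_re] at this
    linarith
  have him : z.im * r ^ 2 = - (t.im * (1 - r ^ 2)) := by
    have := congrArg Complex.im hz1
    rw [← Complex.ofReal_pow] at this
    simp only [Complex.mul_im, Complex.ofReal_re, Complex.ofReal_im, mul_zero, zero_add,
      Complex.add_im, Complex.conj_im] at this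
    linarith
  have h1r : 0 < 1 - r ^ 2 := by nlinarith
  have h1s : 0 < 1 - s ^ 2 := by nlinarith
  have key : z.re ^ 2 * (r / (1 + r ^ 2)) ^ 2 + z.im ^ 2 * (r / (1 - r ^ 2)) ^ 2 = 1 := by
    have a1 : z.re * (r / (1 + r ^ 2)) = t.re / r := by
      field_simp
      linarith
    have a2 : z.im * (r / (1 - r ^ 2)) = - (t.im / r) := by
      field_simp
      linarith
    rw [← mul_pow, ← mul_pow, a1, a2]
    field_simp
    linarith
  have key2 : z.re ^ 2 * (s / (1 + s ^ 2)) ^ 2 + z.im ^ 2 * (s / (1 - s ^ 2)) ^ 2 ≤ 1 := by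
    have e3 : z.re ^ 2 * (s / (1 + s ^ 2)) ^ 2 + z.im ^ 2 * (s / (1 - s ^ 2)) ^ 2
        = (z.re ^ 2 * s ^ 2 * (1 - s ^ 2) ^ 2 + z.im ^ 2 * s ^ 2 * (1 + s ^ 2) ^ 2)
          / ((1 - s ^ 2) ^ 2 * (1 + s ^ 2) ^ 2) := by
      field_simp
    rw [e3]
    exact div_le_one_of_le₀ h (by positivity)
  have m1 : r / (1 + r ^ 2) ≤ s / (1 + s ^ 2) := by
    rw [div_le_div_iff₀ (by positivity) (by positivity)]
    nlinarith [mul_pos (sub_pos.mpr hlt) (show 0 < 1 - r * s by nlinarith)]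
  have m2 : r / (1 - r ^ 2) < s / (1 - s ^ 2) := by
    rw [div_lt_div_iff₀ h1r h1s]
    nlinarith [mul_pos (sub_pos.mpr hlt) (show 0 < 1 + r * s by positivity)]
  have m3 : z.re ^ 2 * (r / (1 + r ^ 2)) ^ 2 ≤ z.re ^ 2 * (s / (1 + s ^ 2)) ^ 2 := by
    gcongr
  have m4 : z.im ^ 2 * (r / (1 - r ^ 2)) ^ 2 < z.im ^ 2 * (s / (1 - s ^ 2)) ^ 2 := by
    have : 0 < z.im ^ 2 := by positivity
    have h5 : (r / (1 - r ^ 2)) ^ 2 < (s / (1 - s ^ 2)) ^ 2 := by
      apply pow_lt_pow_left₀ m2 (by positivity) (by norm_num)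
    exact mul_lt_mul_of_pos_left h5 this
  linarith

/-- the homogeneous coordinates of a node -/
noncomputable def W0 (k : Fin 18) : ℂ := (wr k 0 : ℂ) + (wi k 0 : ℂ) * I
noncomputable def W1 (k : Fin 18) : ℂ := (wr k 1 : ℂ) + (wi k 1 : ℂ) * I

theorem W1_ne (k : Fin 18) : W1 k ≠ 0 := by
  intro h
  have h1 := congrArg Complex.re h
  have h2 := congrArg Complex.im h
  unfold W1 at h1 h2
  simp only [Complex.add_re, Complex.intCast_re, Complex.mul_re, Complex.intCast_im, Complex.I_re,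
    Complex.I_im, mul_zero, mul_one, sub_zero, add_zero, Complex.zero_re, Complex.add_im,
    Complex.mul_im, zero_add, Complex.zero_im] at h1 h2
  have h3 : wr k 1 = 0 := by exact_mod_cast h1
  have h4 : wi k 1 = 0 := by exact_mod_cast h2
  have h5 := im_pos k
  unfold im at h5
  rw [h3, h4] at h5
  simp at h5

/-- the bracket with a node -/
theorem bnode_eq (x : Fin 2 → ℤ) (k : Fin 18) :
    bnode (fun e => (x e : ℝ)) (W0 k / W1 k)
      = ((bz x (wr k) : ℂ) + (bz x (wi k) : ℂ) * I) / W1 k := by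
  have h := W1_ne k
  unfold bnode
  rw [eq_div_iff h, sub_mul, mul_assoc, div_mul_cancel₀ _ h]
  unfold W0 W1 bz
  push_cast
  ring

theorem xi_ne : ∀ c k, xi c k ≠ 0 := by decide +kernel

theorem bnode_ne (c k : _) : bnode (fun e => (b c e : ℝ)) (W0 k / W1 k) ≠ 0 := by
  rw [bnode_eq]
  refine div_ne_zero ?_ (W1_ne k)
  intro h
  have h1 := congrArg Complex.re h
  have h2 := congrArg Complex.im h
  simp only [Complex.add_re, Complex.intCast_re, Complex.mul_re, Complex.intCast_im, Complex.I_re,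
    Complex.I_im, mul_zero, mul_one, sub_zero, add_zero, Complex.zero_re, Complex.add_im,
    Complex.mul_im, zero_add, Complex.zero_im] at h1 h2
  have h3 : bz (b c) (wr k) = 0 := by exact_mod_cast h1
  have h4 : bz (b c) (wi k) = 0 := by exact_mod_cast h2
  have h5 := nb_pos c k
  unfold nb at h5
  rw [h3, h4] at h5
  simp at h5

theorem ratio (c : Fin 12) (k : Fin 18) :
    bnode (fun e => (T c e : ℝ)) (W0 k / W1 k) / bnode (fun e => (b c e : ℝ)) (W0 k / W1 k)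
      = ⟨(xr c k : ℝ) / nb c k, (xi c k : ℝ) / nb c k⟩ := by
  have hb := bnode_ne c k
  have hW := W1_ne k
  rw [div_eq_iff hb, bnode_eq, bnode_eq, ← mul_div_assoc, div_left_inj' hW]
  have hn : (nb c k : ℝ) ≠ 0 := by exact_mod_cast (nb_pos c k).ne'
  have hnb : (nb c k : ℝ) = (bz (b c) (wr k) : ℝ) ^ 2 + (bz (b c) (wi k) : ℝ) ^ 2 := by
    unfold nb; push_cast; ring
  have hxr : (xr c k : ℝ) = (bz (T c) (wr k) : ℝ) * (bz (b c) (wr k) : ℝ)
      + (bz (T c) (wi k) : ℝ) * (bz (b c) (wi k) : ℝ) := by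
    unfold xr; push_cast; ring
  have hxi : (xi c k : ℝ) = (bz (T c) (wi k) : ℝ) * (bz (b c) (wr k) : ℝ)
      - (bz (T c) (wr k) : ℝ) * (bz (b c) (wi k) : ℝ) := by
    unfold xi; push_cast; ring
  apply Complex.ext
  · simp only [Complex.add_re, Complex.intCast_re, Complex.mul_re, Complex.intCast_im,
      Complex.I_re, Complex.I_im, mul_zero, mul_one, sub_zero, add_zero, Complex.add_im,
      Complex.mul_im, zero_add]
    rw [div_mul_eq_mul_div, div_mul_eq_mul_div, ← sub_div, eq_div_iff hn, hxr, hxi, hnb]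
    ring
  · simp only [Complex.add_re, Complex.intCast_re, Complex.mul_re, Complex.intCast_im,
      Complex.I_re, Complex.I_im, mul_zero, mul_one, sub_zero, add_zero, Complex.add_im,
      Complex.mul_im, zero_add]
    rw [div_mul_eq_mul_div, div_mul_eq_mul_div, ← add_div, eq_div_iff hn, hxr, hxi, hnb]
    ring

/-- **The roots.** -/
theorem root_exists (c : Fin 12) (v : Fin 4) (k : Fin 18) :
    ∃ t : ℂ, Root (mu c : ℝ) (rho (ty c) v : ℝ) (bnode (fun e => (b c e : ℝ)) (W0 k / W1 k))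
      (bnode (fun e => (T c e : ℝ)) (W0 k / W1 k)) t ∧ (tau c v k : ℝ) / 10 ^ 6 ≤ ‖t‖ := by
  have hρ : (0:ℝ) < (rho (ty c) v : ℝ) := by exact_mod_cast rho_pos (ty c) v
  have hn : (0:ℝ) < (nb c k : ℝ) := by exact_mod_cast nb_pos c k
  have hb := bnode_ne c k
  set β := bnode (fun e => (b c e : ℝ)) (W0 k / W1 k) with hβ
  set θ := bnode (fun e => (T c e : ℝ)) (W0 k / W1 k) with hθ
  have hr : θ / β = ⟨(xr c k : ℝ) / nb c k, (xi c k : ℝ) / nb c k⟩ := ratio c k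
  set z : ℂ := - (((mu c : ℝ) : ℂ) + θ / β) / ((rho (ty c) v : ℝ) : ℂ) with hz
  have hzre : z.re = - ((((mu c : ℝ) + (xr c k : ℝ) / nb c k)) / (rho (ty c) v : ℝ)) := by
    rw [hz, Complex.div_ofReal_re, hr, Complex.neg_re, Complex.add_re, Complex.ofReal_re, neg_div]
  have hzim : z.im = - (((xi c k : ℝ) / nb c k) / (rho (ty c) v : ℝ)) := by
    rw [hz, Complex.div_ofReal_im, hr, Complex.neg_im, Complex.add_im, Complex.ofReal_im, neg_div,
      zero_add]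
  have hzne : z.im ≠ 0 := by
    rw [hzim]
    have : (xi c k : ℝ) ≠ 0 := by exact_mod_cast xi_ne c k
    exact neg_ne_zero.mpr (div_ne_zero (div_ne_zero this hn.ne') hρ.ne')
  obtain ⟨t, ht0, ht1, hte⟩ := exists_unit_root z hzne
  refine ⟨t, ⟨ht0, ht1, ?_⟩, ?_⟩
  · rw [hte, hz]
    have hρ' : (((rho (ty c) v : ℝ)) : ℂ) ≠ 0 := by exact_mod_cast hρ.ne'
    field_simp
    ring
  · have hs0 : (0:ℝ) < (tau c v k : ℝ) / 10 ^ 6 := by
      have : (0:ℝ) < tau c v k := by exact_mod_cast tau_pos c v k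
      positivity
    have hs1 : (tau c v k : ℝ) / 10 ^ 6 < 1 := by
      rw [div_lt_one (by positivity)]
      exact_mod_cast tau_lt c v k
    refine norm_root_ge ht0 ht1 hte hzne hs0 hs1 ?_
    have he : ((((mu c : ℝ) + (xr c k : ℝ) / nb c k) / (rho (ty c) v : ℝ)) ^ 2
        * ((tau c v k : ℝ) * 10 ^ 6) ^ 2 * (10 ^ 12 - (tau c v k : ℝ) ^ 2) ^ 2
      + (((xi c k : ℝ) / nb c k) / (rho (ty c) v : ℝ)) ^ 2 * ((tau c v k : ℝ) * 10 ^ 6) ^ 2
        * (10 ^ 12 + (tau c v k : ℝ) ^ 2) ^ 2)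
      ≤ (10 ^ 12 - (tau c v k : ℝ) ^ 2) ^ 2 * (10 ^ 12 + (tau c v k : ℝ) ^ 2) ^ 2 := by
      have := ellipse c v k
      have h2 : ((((((mu c + xr c k / nb c k) / rho (ty c) v) ^ 2 * ((tau c v k : ℚ) * 10 ^ 6) ^ 2
        * (10 ^ 12 - (tau c v k : ℚ) ^ 2) ^ 2
      + ((xi c k / nb c k) / rho (ty c) v) ^ 2 * ((tau c v k : ℚ) * 10 ^ 6) ^ 2
        * (10 ^ 12 + (tau c v k : ℚ) ^ 2) ^ 2) : ℚ) : ℝ))
      ≤ ((((10 ^ 12 - (tau c v k : ℚ) ^ 2) ^ 2 * (10 ^ 12 + (tau c v k : ℚ) ^ 2) ^ 2 : ℚ)) : ℝ) :=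
        Rat.cast_le.mpr this
      push_cast at h2
      exact h2
    rw [hzre, hzim, neg_sq, neg_sq]
    set X := (((mu c : ℝ) + (xr c k : ℝ) / nb c k) / (rho (ty c) v : ℝ)) ^ 2
    set Y := (((xi c k : ℝ) / nb c k) / (rho (ty c) v : ℝ)) ^ 2
    set τ := (tau c v k : ℝ)
    have e1 : X * (τ / 10 ^ 6) ^ 2 * (1 - (τ / 10 ^ 6) ^ 2) ^ 2
        + Y * (τ / 10 ^ 6) ^ 2 * (1 + (τ / 10 ^ 6) ^ 2) ^ 2
        = (X * (τ * 10 ^ 6) ^ 2 * (10 ^ 12 - τ ^ 2) ^ 2
          + Y * (τ * 10 ^ 6) ^ 2 * (10 ^ 12 + τ ^ 2) ^ 2) / 10 ^ 48 := by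
      ring
    have e2 : (1 - (τ / 10 ^ 6) ^ 2) ^ 2 * (1 + (τ / 10 ^ 6) ^ 2) ^ 2
        = ((10 ^ 12 - τ ^ 2) ^ 2 * (10 ^ 12 + τ ^ 2) ^ 2) / 10 ^ 48 := by
      ring
    rw [e1, e2]
    exact div_le_div_of_nonneg_right he (by positivity)

end B10.Ar
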