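import Pool.Agent.Lib.B10.ArchFin
import Pool.Agent.Lib.B10.ArchRoot

/-!
# The archimedean bound of the minors of the base 10 matrix
-/

namespace B10

/-- **The archimedean block.** -/
theorem arch (c0 : ℕ) :
    ∃ C : ℝ, 0 ≤ C ∧ ∃ n0 : ℕ, ∀ n : ℕ, n0 ≤ n → ∀ x : Col (2 * n) → Row (2 * n) c0,
      Function.Injective x →
      |((Dx x : ℚ) : ℝ)| ≤ Real.exp (14541 * (n : ℝ) ^ 2 + C * n * Real.log (n + 2)) := by
  choose t ht htau using Ar.root_exists
  exact As.arch_of_root t ht htau c0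

end B10
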