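import Pool.Agent.Lib.B10.ArchData

/-!
# The archimedean constant
-/

namespace B10.As

open Finset Ar

/-- the homogeneous nodes -/
noncomputable def W0 (k : Fin 18) : ℂ := (wr k 0 : ℂ) + (wi k 0 : ℂ) * Complex.I
noncomputable def W1 (k : Fin 18) : ℂ := (wr k 1 : ℂ) + (wi k 1 : ℂ) * Complex.I

/-- the nodes -/
noncomputable def nd (k : Fin 18) : ℂ := W0 k / W1 k

/-- the multiplicities of the E nodes -/
def alE (k : Fin 18) : ℕ := if k.val < 6 then al k else 0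

/-- the multiplicities of the beta nodes -/
def alF (k : Fin 18) : ℕ := if k.val < 6 then 0 else al k

/-- the rows -/
noncomputable def BarR : ℝ :=
  ∑ c : Fin 12, ∑ v : Fin 4,
    (((thr (ty c) v : ℝ) - (thr0 (ty c) v : ℝ)) *
      (∑ k, (al k : ℝ) * (Real.log (nb c k) / 2 - Real.log ((tau c v k : ℝ) / 10 ^ 6)))
    + ((thr (ty c) v : ℝ) ^ 2 - (thr0 (ty c) v : ℝ) ^ 2) / 2 * Real.log (rho (ty c) v))

/-- the constant `B`: `log |Dx x| ≤ B n ^ 2 + C n log (n + 2)`, `m = 2 n` -/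
noncomputable def Bar : ℝ :=
  BarR - 1 / 2 * (∑ k, ∑ l, (al k : ℝ) * (al l : ℝ) * Real.log (dd k l))
    - 3 / 4 * (∑ k, ∑ l, (alE k : ℝ) * (alE l : ℝ) * Real.log (dd k l))
    + 126 * (∑ k, (alF k : ℝ) * (Real.log (nb (lt k) k) / 2 - Real.log (im k)))

end B10.As
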