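import Mathlib

/-!
# Base 10: the letters, the logarithms and the matrix

Letters `z` = primitive integral vectors `lt z` with complements `tv z`, `br (lt z) (tv z) = 1`, in the
order `0, 1, ∞, -1, 2, 1/2 | -2, -1/2, 1/3, 2/3, 3, 3/2`. The germ at `z` of a form is its value at
`X = lt z + t * tv z`, a power series in `t` over `ℚ`. Rows `(z, i)`, `i < LL z * m + c`; columns: `2 * 57 m`
columns of the two constants, `3 * 21 m` columns of the three logarithms of the base 10 world.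
-/

set_option autoImplicit false

namespace B10

/-- the bracket of two integral vectors -/
def br (x y : Fin 2 → ℤ) : ℤ := x 0 * y 1 - x 1 * y 0

/-- the letters `0, 1, ∞, -1, 2, 1/2, -2, -1/2, 1/3, 2/3, 3, 3/2` -/
def lt : Fin 12 → Fin 2 → ℤ :=
  ![![0, 1], ![1, 1], ![1, 0], ![-1, 1], ![2, 1], ![1, 2], ![-2, 1], ![-1, 2], ![1, 3], ![2, 3],
    ![3, 1], ![3, 2]]

/-- the complements -/
def tv : Fin 12 → Fin 2 → ℤ :=
  ![![-1, 0], ![-1, 0], ![0, 1], ![-1, 0], ![-1, 0], ![0, 1], ![-1, 0], ![0, -1], ![0, 1],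
    ![-1, -1], ![-1, 0], ![1, 1]]

/-- the coefficients of the three logarithms -/
def co : Fin 3 → Fin 12 → ℤ :=
  ![![-13, 13, -13, 0, 0, 0, 1, -1, -1, 1, -1, 1],
    ![11, -11, -35, -7, 7, 0, -1, -6, 4, -4, 1, 6],
    ![-35, -11, 11, 7, 0, 7, 6, 1, 1, 6, 4, -4]]

/-- the orders of the germs (times `m`) -/
def LL : Fin 12 → ℕ := ![30, 30, 30, 21, 21, 21, 4, 4, 4, 4, 4, 4]

/-- the exponents of the fixed factor of the logarithm columns (times `m`) -/
def FF : Fin 12 → ℕ := ![2, 2, 2, 2, 2, 2, 4, 4, 4, 4, 4, 4]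

theorem br_lt_tv (z : Fin 12) : br (lt z) (tv z) = 1 := by
  revert z
  decide

theorem co_sum (u : Fin 3) (e : Fin 2) : ∑ a, co u a * lt a e = 0 := by
  revert u e
  decide

theorem br_lt_ne {z a : Fin 12} (h : a ≠ z) : br (lt z) (lt a) ≠ 0 := by
  revert z a
  decide

/-- the columns -/
abbrev Col (m : ℕ) : Type := (Fin 2 × Fin (57 * m)) ⊕ (Fin 3 × Fin (21 * m))

theorem card_Col (m : ℕ) : Fintype.card (Col m) = 177 * m := by
  simp only [Fintype.card_sum, Fintype.card_prod, Fintype.card_fin]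
  ring

/-- the rows -/
abbrev Row (m c : ℕ) : Type := Σ z : Fin 12, Fin (LL z * m + c)

open PowerSeries in
/-- the coordinates at `z` -/
noncomputable def xz (z : Fin 12) (e : Fin 2) : PowerSeries ℚ :=
  C (lt z e : ℚ) + C (tv z e : ℚ) * X

open PowerSeries in
/-- the linear form `⟨X, a⟩` at `z` -/
noncomputable def lf (z a : Fin 12) : PowerSeries ℚ :=
  C (br (lt z) (lt a) : ℚ) + C (br (tv z) (lt a) : ℚ) * X

/-- the fixed factor of the logarithm columns at `z` -/
noncomputable def Fs (m : ℕ) (z : Fin 12) : PowerSeries ℚ := ∏ a, lf z a ^ (FF a * m)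

/-- the series `log (1 + w X)` -/
noncomputable def Log1 (w : ℚ) : PowerSeries ℚ :=
  PowerSeries.mk fun j => (-1) ^ (j + 1) * w ^ j / (j : ℚ)

open PowerSeries in
/-- the germ at `z` of the logarithm `u` -/
noncomputable def Es (u : Fin 3) (z : Fin 12) : PowerSeries ℚ :=
  ∑ a ∈ Finset.univ.erase z, C ((co u a : ℚ) * (br (lt z) (lt a) : ℚ)) *
    Log1 ((br (tv z) (lt a) : ℚ) / (br (lt z) (lt a) : ℚ))

open PowerSeries in
/-- the germ at `z` of a column -/
noncomputable def gm (m : ℕ) (z : Fin 12) : Col m → PowerSeries ℚ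
  | Sum.inl (e, j) => C (lt z e : ℚ) * (xz z 0 ^ (j : ℕ) * xz z 1 ^ (57 * m - 1 - j))
  | Sum.inr (u, j) => Fs m z * (xz z 0 ^ (j : ℕ) * xz z 1 ^ (21 * m - 1 - j)) * Es u z

/-- the matrix -/
noncomputable def Mx (m c : ℕ) : Matrix (Row m c) (Col m) ℚ :=
  Matrix.of fun r j => PowerSeries.coeff (r.2 : ℕ) (gm m r.1 j)

/-- the minor of the rows `x` -/
noncomputable def Dx {m c : ℕ} (x : Col m → Row m c) : ℚ := ((Mx m c).submatrix x id).det

end B10
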