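import Pool.Agent.Lib.B10.ArchMinor
import Pool.Agent.Lib.B10.Defs

/-!
# The archimedean bound of the minors `Dx` of the base 10 matrix
-/

namespace B10

open Finset Matrix Filter Topology ComplexConjugate

theorem sum_FF (m : ℕ) : Fintype.card (Σ a : Fin 12, Fin (FF a * m)) = 36 * m := by
  rw [Fintype.card_sigma]
  simp only [Fintype.card_fin]
  rw [← Finset.sum_mul]
  congr 1

/-- the list of the letters of the fixed factor -/
noncomputable def cFm (m : ℕ) (k : Fin (36 * m)) : Fin 12 :=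
  ((Fintype.equivFinOfCardEq (sum_FF m)).symm k).1

/-- the frame -/
noncomputable def SF (m : ℕ) : Frame (Fin 12) (Fin 12) where
  nE := 21 * m
  nF := 36 * m
  k := 3
  b := fun z e => (lt z e : ℝ)
  T := fun z e => (tv z e : ℝ)
  a := fun z e => (lt z e : ℝ)
  co := fun u z => (co u z : ℝ)
  cF := cFm m

/-- the columns of the two forms -/
noncomputable def colE (m : ℕ) : (SF m).Col ≃ Col m :=
  Equiv.sumCongr ((Equiv.prodComm _ _).trans
    (Equiv.prodCongr (Equiv.refl _) (finCongr (show 21 * m + 36 * m = 57 * m by ring))))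
    (Equiv.prodComm _ _)

theorem prod_cFm {M : Type*} [CommMonoid M] (m : ℕ) (g : Fin 12 → M) :
    ∏ k, g (cFm m k) = ∏ a, g a ^ (FF a * m) := by
  unfold cFm
  rw [Equiv.prod_comp (Fintype.equivFinOfCardEq (sum_FF m)).symm
    (fun s : Σ a : Fin 12, Fin (FF a * m) => g s.1), Fintype.prod_sigma]
  refine Finset.prod_congr rfl fun a _ => ?_
  show ∏ _y : Fin (FF a * m), g a = _
  rw [Finset.prod_const, Finset.card_univ, Fintype.card_fin]

theorem tsr_lin (α β : ℂ) : tsr (fun x => α + x * β)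
    = PowerSeries.C α + PowerSeries.C β * PowerSeries.X := by
  have h := tsr_poly (Polynomial.C α + Polynomial.C β * Polynomial.X)
  simp only [Polynomial.eval_add, Polynomial.eval_C, Polynomial.eval_mul, Polynomial.eval_X] at h
  have e : (fun x : ℂ => α + x * β) = fun x => α + β * x := by funext x; ring
  rw [e, h]
  simp

theorem tsr_pow {g : ℂ → ℂ} (hg : AnalyticAt ℂ g 0) (n : ℕ) :
    tsr (fun x => g x ^ n) = tsr g ^ n := by
  have h := tsr_prod (range n) (fun _ => g) (fun _ _ => hg)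
  simpa [Finset.prod_const] using h

theorem map_xz (z : Fin 12) (e : Fin 2) :
    (xz z e).map (algebraMap ℚ ℂ) = tsr (fun x => ((lt z e : ℤ) : ℂ) + x * ((tv z e : ℤ) : ℂ)) := by
  rw [tsr_lin]
  unfold xz
  simp

theorem map_lf (z a : Fin 12) :
    (lf z a).map (algebraMap ℚ ℂ)
      = tsr (fun x => ((br (lt z) (lt a) : ℤ) : ℂ) + x * ((br (tv z) (lt a) : ℤ) : ℂ)) := by
  rw [tsr_lin]
  unfold lf
  simp

theorem map_Log1 (w : ℚ) :
    (Log1 w).map (algebraMap ℚ ℂ) = tsr (fun x => Complex.log (1 + x * (w : ℂ))) := by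
  ext i
  rw [coeff_tsr, tc_log, PowerSeries.coeff_map]
  unfold Log1
  rw [PowerSeries.coeff_mk]
  simp only [eq_ratCast]
  push_cast
  ring

theorem analyticAt_lin (α β : ℂ) (x : ℂ) : AnalyticAt ℂ (fun x : ℂ => α + x * β) x := by
  fun_prop

theorem map_mono (m : ℕ) (z : Fin 12) (n j : ℕ) :
    (xz z 0 ^ j * xz z 1 ^ (n - 1 - j)).map (algebraMap ℚ ℂ) = tsr ((SF m).mono z n j) := by
  rw [map_mul, map_pow, map_pow, map_xz, map_xz, ← tsr_pow (analyticAt_lin _ _ _),
    ← tsr_pow (analyticAt_lin _ _ _), ← tsr_mul]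
  · congr 1
  · exact (analyticAt_lin _ _ _).fun_pow _
  · exact (analyticAt_lin _ _ _).fun_pow _

theorem map_Fs (m : ℕ) (z : Fin 12) :
    (Fs m z).map (algebraMap ℚ ℂ) = tsr ((SF m).fF z) := by
  unfold Fs
  rw [map_prod]
  have h : tsr ((SF m).fF z) = ∏ k, tsr (fun x : ℂ =>
      ((br2 ((SF m).b z) ((SF m).a ((SF m).cF k)) : ℝ)
        + x * (br2 ((SF m).T z) ((SF m).a ((SF m).cF k)) : ℝ) : ℂ)) := by
    rw [← tsr_prod]
    · congr 1
    · exact fun k _ => analyticAt_lin _ _ _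
  rw [h]
  have h2 := prod_cFm m (fun a => tsr (fun x : ℂ =>
      ((br2 ((SF m).b z) ((SF m).a a) : ℝ) + x * (br2 ((SF m).T z) ((SF m).a a) : ℝ) : ℂ)))
  refine Eq.trans ?_ h2.symm
  refine Finset.prod_congr rfl fun a _ => ?_
  rw [map_pow, map_lf]
  congr 2
  funext x
  unfold br2 br SF
  push_cast
  rfl

theorem map_Es (m : ℕ) (z : Fin 12) (u : Fin 3) :
    (Es u z).map (algebraMap ℚ ℂ) = tsr ((SF m).eg u z) := by
  have h : tsr ((SF m).eg u z) = ∑ a, PowerSeries.C
      (((SF m).co u a * br2 ((SF m).b z) ((SF m).a a) : ℝ) : ℂ) *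
      tsr (fun x : ℂ => Complex.log (1 + x *
        ((br2 ((SF m).T z) ((SF m).a a) / br2 ((SF m).b z) ((SF m).a a) : ℝ) : ℂ))) := by
    rw [← Finset.sum_congr rfl fun a _ => tsr_const_mul (g := fun x : ℂ => Complex.log (1 + x *
        ((br2 ((SF m).T z) ((SF m).a a) / br2 ((SF m).b z) ((SF m).a a) : ℝ) : ℂ))) _,
      ← tsr_sum]
    · congr 1
    · exact fun a _ => analyticAt_const.fun_mul (Frame.analyticAt_log1 _)
  rw [h, ← Finset.sum_erase_add _ _ (Finset.mem_univ z)]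
  have h0 : br2 ((SF m).b z) ((SF m).a z) = 0 := by
    unfold br2 SF; ring
  rw [h0, mul_zero]
  simp only [Complex.ofReal_zero, map_zero, zero_mul, add_zero]
  unfold Es
  rw [map_sum]
  refine Finset.sum_congr rfl fun a _ => ?_
  rw [map_mul, map_Log1, PowerSeries.map_C]
  congr 1
  · congr 1
    unfold SF br2 br
    push_cast
    simp
  · congr 1
    funext x
    unfold SF br2 br
    push_cast
    rfl

/-- the germs agree -/
theorem map_gm (m : ℕ) (z : Fin 12) (c : (SF m).Col) :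
    (gm m z (colE m c)).map (algebraMap ℚ ℂ) = tsr ((SF m).fn z c) := by
  rcases c with ⟨j, e⟩ | ⟨j, u⟩
  · have h1 : colE m (Sum.inl (j, e)) = Sum.inl (e,
        finCongr (show 21 * m + 36 * m = 57 * m by ring) j) := rfl
    rw [h1]
    unfold gm
    rw [map_mul, PowerSeries.map_C]
    have h2 : ((finCongr (show 21 * m + 36 * m = 57 * m by ring) j : Fin (57 * m)) : ℕ)
      = (j : ℕ) := rfl
    rw [h2, map_mono m z (57 * m) j]
    have h3 : 57 * m = (SF m).nE + (SF m).nF := by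
      show 57 * m = 21 * m + 36 * m
      ring
    rw [h3, ← tsr_const_mul]
    congr 1
  · have h1 : colE m (Sum.inr (j, u)) = Sum.inr (u, j) := rfl
    rw [h1]
    unfold gm
    rw [map_mul, map_mul, map_Fs, map_mono, map_Es m, ← tsr_mul, ← tsr_mul]
    · congr 1
      funext x
      show _ = (SF m).mono z (SF m).nE j x * (SF m).fF z x * (SF m).eg u z x
      rw [mul_comm ((SF m).fF z x)]
      rfl
    · exact ((SF m).analyticAt_fF z 0).fun_mul ((SF m).analyticAt_mono z _ _ 0)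
    · exact (SF m).analyticAt_eg u z
    · exact (SF m).analyticAt_fF z 0
    · exact (SF m).analyticAt_mono z _ _ 0

/-- the minor as a complex determinant of Taylor coefficients -/
theorem Dx_eq {m c : ℕ} (x : Col m → Row m c) :
    ((Dx x : ℚ) : ℂ) = (Matrix.of fun d d' : (SF m).Col =>
      tc ((x (colE m d)).2 : ℕ) ((SF m).fn (x (colE m d)).1 d')).det := by
  unfold Dx
  have h1 : (((((Mx m c).submatrix x id).det : ℚ)) : ℂ)
      = (((Mx m c).submatrix x id).map (algebraMap ℚ ℂ)).det := by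
    rw [← RingHom.mapMatrix_apply, ← RingHom.map_det]
    simp
  rw [h1, ← Matrix.det_submatrix_equiv_self (colE m)]
  congr 1
  ext d d'
  rw [Matrix.submatrix_apply, Matrix.map_apply, Matrix.submatrix_apply, Matrix.of_apply]
  unfold Mx
  rw [Matrix.of_apply, id, ← PowerSeries.coeff_map, map_gm, coeff_tsr]

/-- **The archimedean bound of the minors of the base 10 matrix.** -/
theorem arch_Dx {m c : ℕ} (hm : c < 27 * m) (x : Col m → Row m c) (hx : Function.Injective x)
    (wE : Fin (21 * m) → ℂ) (wF : Fin (36 * m) → ℂ) (him : ∀ k, (wF k).im ≠ 0)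
    (κ : Fin (36 * m) → ℝ) (hκ0 : ∀ k, 0 < κ k)
    (hκ : ∀ k, ‖bnode (fun e => (lt (cFm m k) e : ℝ)) (wF k)‖ / |(wF k).im| ≤ κ k)
    (μ ρ : Row m c → ℝ) (hρ : ∀ r, 0 < ρ r)
    (t : Row m c → Fin (21 * m + 36 * m) → ℂ)
    (ht : ∀ r i, Root (μ r) (ρ r) (bnode (fun e => (lt r.1 e : ℝ)) (Fin.append wE wF i))
      (bnode (fun e => (tv r.1 e : ℝ)) (Fin.append wE wF i)) (t r i))
    (hrow : ∀ r, ∀ a, a ≠ r.1 →
      |μ r + (br (tv r.1) (lt a) : ℝ) / (br (lt r.1) (lt a) : ℝ)| ≤ 2 * ρ r)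
    (C : ℝ) (hC0 : 0 ≤ C)
    (hC : ∀ r i, ‖t r i‖ ≤ C * ‖bnode (fun e => (lt r.1 e : ℝ)) (Fin.append wE wF i)‖ *
      (1 - ‖t r i‖) ^ 2)
    (lam : ℝ) (hlam0 : 0 < lam)
    (hlam : ∀ (r : Row m c) (j : ℕ), j < LL r.1 * m + c → lam * ((ρ r)⁻¹ ^ j *
      (2 + |μ r| / ρ r) ^ (57 * m - 1 - j) / ∏ i, (1 - ‖t r i‖) ^ 2) ≤
      (40000 * (m : ℝ)) * (C * ∏ j, (‖bnode (fun e => (lt r.1 e : ℝ)) (Fin.append wE wF j)‖ /
        ‖t r j‖))) :
    |((Dx x : ℚ) : ℝ)| *
      ((∏ i, ∏ j ∈ Ioi i, ‖conj (Fin.append wE wF i) - Fin.append wE wF j‖) ^ 2 *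
      (((∏ k, κ k)⁻¹) ^ (21 * m) * ∏ i, ∏ j ∈ Ioi i, ‖conj (wE i) - wE j‖) ^ 3) *
      lam ^ (Fintype.card (Row m c) - 177 * m) * ∏ r : Row m c, (ρ r)⁻¹ ^ (r.2 : ℕ)
    ≤ (Fintype.card (Row m c)).factorial *
      ∏ r : Row m c, ((40000 * (m : ℝ)) *
        (C * ∏ j, (‖bnode (fun e => (lt r.1 e : ℝ)) (Fin.append wE wF j)‖ / ‖t r j‖))) := by
  classical
  have hm1 : 1 ≤ m := by omega
  have hLL : ∀ z, LL z ≤ 30 := by decide
  have key := arch_minor (SF m) (fun d => x (colE m d))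
    (hx.comp (colE m).injective) (fun r : Row m c => r.1) (fun r : Row m c => (r.2 : ℕ))
    (by
      rintro ⟨z, i⟩ ⟨z', i'⟩ h1 h2
      dsimp only at h1 h2
      subst h1
      rw [Fin.ext h2])
    (by
      rintro ⟨z, i⟩ j hj
      exact ⟨⟨z, ⟨j, lt_trans hj i.2⟩⟩, rfl, rfl⟩)
    (by
      rintro ⟨z, i⟩
      show (i : ℕ) ≤ 21 * m + 36 * m - 1
      have h1 := i.2
      have h2 : LL z * m ≤ 30 * m := Nat.mul_le_mul_right _ (hLL z)
      omega)
    wE wF him κ hκ0 hκ
    (by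
      intro u i
      have h := co_sum u i
      have h' : ((∑ a, co u a * lt a i : ℤ) : ℝ) = 0 := by rw [h]; simp
      rw [← h']
      push_cast
      rfl)
    μ ρ hρ t ht
    (by
      intro r
      left
      intro a ha
      have hne : a ≠ r.1 := by
        rintro rfl
        apply ha
        unfold SF br2
        ring
      have h := hrow r a hne
      have e1 : br2 ((SF m).T r.1) ((SF m).a a) = (br (tv r.1) (lt a) : ℝ) := by
        unfold SF br2 br; push_cast; rfl
      have e2 : br2 ((SF m).b r.1) ((SF m).a a) = (br (lt r.1) (lt a) : ℝ) := by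
        unfold SF br2 br; push_cast; rfl
      rw [e1, e2]
      exact h)
    (40000 * (m : ℝ)) C hC0 hC
    (by
      intro r e
      have h1 : ∀ z e, |lt z e| ≤ 3 := by decide
      have h2 : |((lt r.1 e : ℤ) : ℝ)| ≤ 3 := by
        have := h1 r.1 e
        exact_mod_cast this
      have h3 : (1 : ℝ) ≤ m := by exact_mod_cast hm1
      show |((lt r.1 e : ℤ) : ℝ)| ≤ _
      linarith)
    (by
      intro r u
      have h1 : (∑ a, |(SF m).co u a * br2 ((SF m).b r.1) ((SF m).a a)|)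
          = ((∑ a, |co u a * br (lt r.1) (lt a)| : ℤ) : ℝ) := by
        push_cast
        refine Finset.sum_congr rfl fun a _ => ?_
        unfold SF br2 br
        push_cast
        rfl
      have h2 : ∀ (u : Fin 3) (z : Fin 12), ∑ a, |co u a * br (lt z) (lt a)| ≤ 300 := by
        decide
      have h3 : (∑ a, |(SF m).co u a * br2 ((SF m).b r.1) ((SF m).a a)|) ≤ 300 := by
        rw [h1]
        exact_mod_cast h2 u r.1
      have h4 : ∑ j ∈ range (r.2 : ℕ), 1 / ((j : ℝ) + 1) ≤ (57 * m : ℕ) := by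
        calc ∑ j ∈ range (r.2 : ℕ), 1 / ((j : ℝ) + 1) ≤ ∑ j ∈ range (r.2 : ℕ), (1 : ℝ) := by
              refine Finset.sum_le_sum fun j _ => ?_
              rw [div_le_one (by positivity)]
              linarith [Nat.cast_nonneg (α := ℝ) j]
          _ = (r.2 : ℕ) := by simp
          _ ≤ (57 * m : ℕ) := by
              have h5 := r.2.2
              have h6 : LL r.1 * m ≤ 30 * m := Nat.mul_le_mul_right _ (hLL r.1)
              exact_mod_cast (by omega)
      have h5 : 0 ≤ ∑ j ∈ range (r.2 : ℕ), 1 / ((j : ℝ) + 1) :=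
        Finset.sum_nonneg fun j _ => by positivity
      push_cast at h4
      have h6 : (0 : ℝ) ≤ m := Nat.cast_nonneg m
      calc (∑ a, |(SF m).co u a * br2 ((SF m).b r.1) ((SF m).a a)|) *
          (2 * ∑ j ∈ range (r.2 : ℕ), 1 / ((j : ℝ) + 1))
          ≤ 300 * (2 * (57 * m)) := by
            refine mul_le_mul h3 (by linarith) (by linarith) (by norm_num)
        _ ≤ _ := by linarith)
    lam hlam0
    (by
      rintro ⟨z, i⟩ ⟨z', i'⟩ h
      dsimp only at h
      subst h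
      have h1 := hlam ⟨z', i⟩ (i' : ℕ) i'.2
      have h2 : (SF m).nE + (SF m).nF - 1 - (i' : ℕ) = 57 * m - 1 - (i' : ℕ) := by
        show 21 * m + 36 * m - 1 - (i' : ℕ) = _
        omega
      simp only [h2]
      exact h1)
  have e1 : ‖(Matrix.of fun c_1 c' : (SF m).Col => tc ((x (colE m c_1)).2 : ℕ)
      ((SF m).fn (x (colE m c_1)).1 c')).det‖ = |((Dx x : ℚ) : ℝ)| := by
    rw [← Dx_eq x, Complex.norm_ratCast]
  have e2 : Fintype.card (SF m).Col = 177 * m := by
    rw [Fintype.card_congr (colE m), card_Col]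
  rw [e1, e2] at key
  exact key

end B10
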