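import Pool.Agent.Lib.B10.ArchData

/-!
# The numerical inequality of the archimedean certificate
-/

namespace B10.Ar

open Finset

def nbN (c : Fin 12) (k : Fin 18) : ℕ := (nb c k).toNat
def ddN (k l : Fin 18) : ℕ := (dd k l).toNat
def imN (k : Fin 18) : ℕ := (im k).toNat

/-- certified bound of a row: nodes -/
def rowQ (c : Fin 12) (v : Fin 4) : ℚ :=
  1 / 2 * lub ((∏ k, nbN c k ^ al k) * 10 ^ 1368) (∏ k, tau c v k ^ (2 * al k))

/-- certified bound of a row: radius -/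
def radQ (t : Fin 3) (v : Fin 4) : ℚ := lub (rho t v).num.toNat (rho t v).den

def colT (k : Fin 18) : ℚ := lub 1 (∏ l, ddN k l ^ al l)

def colE (k : Fin 18) : ℚ :=
  lub 1 (∏ l ∈ univ.filter (fun l : Fin 18 => l.val < 6), ddN k l ^ al l)

def kapQ (k : Fin 18) : ℚ := lub (nbN (lt k) k) (imN k ^ 2)

def BQ : ℚ :=
  (∑ c, ∑ v, ((thr (ty c) v - thr0 (ty c) v : ℚ) * rowQ c v
    + ((thr (ty c) v ^ 2 - thr0 (ty c) v ^ 2 : ℚ) / 2) * radQ (ty c) v))
  + (∑ k, (al k : ℚ) / 2 * colT k)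
  + 3 / 4 * (∑ k ∈ univ.filter (fun l : Fin 18 => l.val < 6), (al k : ℚ) * colE k)
  + 63 * (∑ k ∈ univ.filter (fun l : Fin 18 => 6 ≤ l.val), (al k : ℚ) * kapQ k)

theorem BQ_le : BQ ≤ 14541 := by decide +kernel

theorem thr0_le : ∀ t v, thr0 t v ≤ thr t v := by decide +kernel

theorem sum_al : ∑ k, al k = 114 := by decide +kernel

theorem nbN_cast (c : Fin 12) (k : Fin 18) : ((nbN c k : ℕ) : ℝ) = (nb c k : ℝ) := by
  have h : ((nbN c k : ℕ) : ℤ) = nb c k := Int.toNat_of_nonneg (nb_pos c k).le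
  exact_mod_cast congrArg (fun z : ℤ => (z : ℝ)) h

theorem ddN_cast (k l : Fin 18) : ((ddN k l : ℕ) : ℝ) = (dd k l : ℝ) := by
  have h : ((ddN k l : ℕ) : ℤ) = dd k l := Int.toNat_of_nonneg (dd_pos k l).le
  exact_mod_cast congrArg (fun z : ℤ => (z : ℝ)) h

theorem imN_cast (k : Fin 18) : ((imN k : ℕ) : ℝ) = (im k : ℝ) := by
  have h : ((imN k : ℕ) : ℤ) = im k := Int.toNat_of_nonneg (im_pos k).le
  exact_mod_cast congrArg (fun z : ℤ => (z : ℝ)) h

theorem nbN_pos (c : Fin 12) (k : Fin 18) : 0 < nbN c k := by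
  have := nb_pos c k
  unfold nbN; omega

theorem ddN_pos (k l : Fin 18) : 0 < ddN k l := by
  have := dd_pos k l
  unfold ddN; omega

theorem imN_pos (k : Fin 18) : 0 < imN k := by
  have := im_pos k
  unfold imN; omega

theorem log_prod_pow {α : Type*} (s : Finset α) (f : α → ℕ) (e : α → ℕ) (hf : ∀ a ∈ s, 0 < f a) :
    Real.log ((∏ a ∈ s, f a ^ e a : ℕ) : ℝ) = ∑ a ∈ s, (e a : ℝ) * Real.log (f a) := by
  push_cast
  rw [Real.log_prod]
  · exact Finset.sum_congr rfl fun a _ => Real.log_pow _ _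
  · intro a ha
    have : (0:ℝ) < f a := by exact_mod_cast hf a ha
    positivity

theorem row_le (c : Fin 12) (v : Fin 4) :
    ∑ k, (al k : ℝ) * (Real.log (nb c k) / 2 - Real.log ((tau c v k : ℝ) / 10 ^ 6))
      ≤ ((rowQ c v : ℚ) : ℝ) := by
  have h1 : 0 < (∏ k, nbN c k ^ al k) * 10 ^ 1368 :=
    Nat.mul_pos (Finset.prod_pos fun k _ => Nat.pow_pos (nbN_pos c k)) (by positivity)
  have h2 : 0 < ∏ k, tau c v k ^ (2 * al k) :=
    Finset.prod_pos fun k _ => Nat.pow_pos (tau_pos c v k)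
  have h := log_le_lub _ _ h1 h2
  have h1' : (((∏ k, nbN c k ^ al k) * 10 ^ 1368 : ℕ) : ℝ) ≠ 0 := by exact_mod_cast h1.ne'
  have h2' : ((∏ k, tau c v k ^ (2 * al k) : ℕ) : ℝ) ≠ 0 := by exact_mod_cast h2.ne'
  rw [Real.log_div h1' h2', log_prod_pow _ _ _ fun k _ => tau_pos c v k] at h
  have h3 : Real.log (((∏ k, nbN c k ^ al k) * 10 ^ 1368 : ℕ) : ℝ)
      = (∑ k, (al k : ℝ) * Real.log (nb c k)) + 1368 * Real.log 10 := by
    rw [Nat.cast_mul, Real.log_mul, log_prod_pow _ _ _ fun k _ => nbN_pos c k]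
    · congr 1
      · exact Finset.sum_congr rfl fun k _ => by rw [nbN_cast]
      · push_cast
        rw [Real.log_pow]; norm_num
    · exact_mod_cast (Finset.prod_pos fun k _ => Nat.pow_pos (nbN_pos c k)).ne'
    · positivity
  rw [h3] at h
  have h4 : ((rowQ c v : ℚ) : ℝ) = 1 / 2 * ((lub ((∏ k, nbN c k ^ al k) * 10 ^ 1368)
      (∏ k, tau c v k ^ (2 * al k)) : ℚ) : ℝ) := by
    unfold rowQ; push_cast; ring
  have h5 : ∑ k, (al k : ℝ) * (Real.log (nb c k) / 2 - Real.log ((tau c v k : ℝ) / 10 ^ 6))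
      = 1 / 2 * ((∑ k, (al k : ℝ) * Real.log (nb c k)) + 1368 * Real.log 10
        - ∑ k, ((2 * al k : ℕ) : ℝ) * Real.log (tau c v k)) := by
    have h6 : (1368 : ℝ) = ∑ k, (al k : ℝ) * 12 := by
      rw [← Finset.sum_mul]
      have := sum_al
      have h7 : (∑ k, (al k : ℝ)) = 114 := by exact_mod_cast this
      rw [h7]; norm_num
    rw [h6, Finset.sum_mul, ← Finset.sum_add_distrib, ← Finset.sum_sub_distrib, Finset.mul_sum]
    refine Finset.sum_congr rfl fun k _ => ?_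
    have ht : (0:ℝ) < tau c v k := by exact_mod_cast tau_pos c v k
    rw [Real.log_div ht.ne' (by positivity), Real.log_pow]
    push_cast
    ring
  rw [h5, h4]
  linarith

theorem rad_le (t : Fin 3) (v : Fin 4) :
    Real.log (rho t v) ≤ ((radQ t v : ℚ) : ℝ) := by
  have hp := rho_pos t v
  have hn : 0 < (rho t v).num := Rat.num_pos.mpr hp
  have h1 : 0 < (rho t v).num.toNat := by omega
  have h := log_le_lub (rho t v).num.toNat (rho t v).den h1 (rho t v).den_pos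
  have e : (((rho t v).num.toNat : ℕ) : ℝ) / ((rho t v).den : ℝ) = ((rho t v : ℚ) : ℝ) := by
    have h2 : (((rho t v).num.toNat : ℕ) : ℤ) = (rho t v).num := Int.toNat_of_nonneg hn.le
    have h3 : (((rho t v).num.toNat : ℕ) : ℝ) = ((rho t v).num : ℝ) := by
      exact_mod_cast congrArg (fun z : ℤ => (z : ℝ)) h2
    rw [h3]
    exact (Rat.cast_def _).symm
  rw [e] at h
  exact h

theorem colT_le (k : Fin 18) :
    - ∑ l, (al l : ℝ) * Real.log (dd k l) ≤ ((colT k : ℚ) : ℝ) := by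
  have h2 : 0 < ∏ l, ddN k l ^ al l := Finset.prod_pos fun l _ => Nat.pow_pos (ddN_pos k l)
  have h := log_le_lub 1 _ one_pos h2
  rw [Nat.cast_one, one_div, Real.log_inv, log_prod_pow _ _ _ fun l _ => ddN_pos k l] at h
  refine le_trans (le_of_eq ?_) h
  congr 1
  exact Finset.sum_congr rfl fun l _ => by rw [ddN_cast]

theorem colE_le (k : Fin 18) :
    - ∑ l ∈ univ.filter (fun l : Fin 18 => l.val < 6), (al l : ℝ) * Real.log (dd k l)
      ≤ ((colE k : ℚ) : ℝ) := by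
  have h2 : 0 < ∏ l ∈ univ.filter (fun l : Fin 18 => l.val < 6), ddN k l ^ al l :=
    Finset.prod_pos fun l _ => Nat.pow_pos (ddN_pos k l)
  have h := log_le_lub 1 _ one_pos h2
  rw [Nat.cast_one, one_div, Real.log_inv, log_prod_pow _ _ _ fun l _ => ddN_pos k l] at h
  refine le_trans (le_of_eq ?_) h
  congr 1
  exact Finset.sum_congr rfl fun l _ => by rw [ddN_cast]

theorem kap_le (k : Fin 18) :
    2 * (Real.log (nb (lt k) k) / 2 - Real.log (im k)) ≤ ((kapQ k : ℚ) : ℝ) := by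
  have hi : 0 < imN k ^ 2 := Nat.pow_pos (imN_pos k)
  have h := log_le_lub (nbN (lt k) k) (imN k ^ 2) (nbN_pos _ _) hi
  have h1 : ((nbN (lt k) k : ℕ) : ℝ) ≠ 0 := by exact_mod_cast (nbN_pos (lt k) k).ne'
  have h2 : ((imN k ^ 2 : ℕ) : ℝ) ≠ 0 := by exact_mod_cast hi.ne'
  rw [Real.log_div h1 h2, Nat.cast_pow, Real.log_pow, nbN_cast, imN_cast] at h
  have h3 : ((kapQ k : ℚ) : ℝ) = ((lub (nbN (lt k) k) (imN k ^ 2) : ℚ) : ℝ) := rfl
  rw [h3]
  push_cast at h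
  linarith

/-- the constant of the archimedean bound -/
noncomputable def Bar : ℝ :=
  (∑ c, ∑ v, (((thr (ty c) v : ℝ) - thr0 (ty c) v) *
      (∑ k, (al k : ℝ) * (Real.log (nb c k) / 2 - Real.log ((tau c v k : ℝ) / 10 ^ 6)))
    + (((thr (ty c) v : ℝ) ^ 2 - (thr0 (ty c) v : ℝ) ^ 2) / 2) * Real.log (rho (ty c) v)))
  - 1 / 2 * (∑ k, ∑ l, (al k : ℝ) * (al l : ℝ) * Real.log (dd k l))
  - 3 / 4 * (∑ k ∈ univ.filter (fun l : Fin 18 => l.val < 6),
      ∑ l ∈ univ.filter (fun l : Fin 18 => l.val < 6), (al k : ℝ) * (al l : ℝ) * Real.log (dd k l))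
  + 126 * (∑ k ∈ univ.filter (fun l : Fin 18 => 6 ≤ l.val),
      (al k : ℝ) * (Real.log (nb (lt k) k) / 2 - Real.log (im k)))

/-- **The numerical inequality.** -/
theorem Bar_le : Bar ≤ 14541 := by
  have h0 : ((BQ : ℚ) : ℝ) ≤ 14541 := by exact_mod_cast BQ_le
  refine le_trans ?_ h0
  have e : ((BQ : ℚ) : ℝ) =
      (∑ c, ∑ v, (((thr (ty c) v : ℝ) - thr0 (ty c) v) * ((rowQ c v : ℚ) : ℝ)
        + (((thr (ty c) v : ℝ) ^ 2 - (thr0 (ty c) v : ℝ) ^ 2) / 2) * ((radQ (ty c) v : ℚ) : ℝ)))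
      + (∑ k, (al k : ℝ) / 2 * ((colT k : ℚ) : ℝ))
      + 3 / 4 * (∑ k ∈ univ.filter (fun l : Fin 18 => l.val < 6), (al k : ℝ) * ((colE k : ℚ) : ℝ))
      + 63 * (∑ k ∈ univ.filter (fun l : Fin 18 => 6 ≤ l.val), (al k : ℝ) * ((kapQ k : ℚ) : ℝ)) := by
    unfold BQ
    push_cast
    rfl
  rw [e]
  unfold Bar
  have i1 : (∑ c, ∑ v, (((thr (ty c) v : ℝ) - thr0 (ty c) v) *
      (∑ k, (al k : ℝ) * (Real.log (nb c k) / 2 - Real.log ((tau c v k : ℝ) / 10 ^ 6)))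
    + (((thr (ty c) v : ℝ) ^ 2 - (thr0 (ty c) v : ℝ) ^ 2) / 2) * Real.log (rho (ty c) v)))
      ≤ (∑ c, ∑ v, (((thr (ty c) v : ℝ) - thr0 (ty c) v) * ((rowQ c v : ℚ) : ℝ)
        + (((thr (ty c) v : ℝ) ^ 2 - (thr0 (ty c) v : ℝ) ^ 2) / 2) *
          ((radQ (ty c) v : ℚ) : ℝ))) := by
    refine Finset.sum_le_sum fun c _ => Finset.sum_le_sum fun v _ => ?_
    have ht : (thr0 (ty c) v : ℝ) ≤ thr (ty c) v := by exact_mod_cast thr0_le (ty c) v
    have ht0 : (0:ℝ) ≤ thr0 (ty c) v := by positivity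
    have hsq : (thr0 (ty c) v : ℝ) ^ 2 ≤ (thr (ty c) v : ℝ) ^ 2 := by gcongr
    exact add_le_add (mul_le_mul_of_nonneg_left (row_le c v) (by linarith))
      (mul_le_mul_of_nonneg_left (rad_le (ty c) v) (by linarith))
  have i2 : - (1 / 2 * (∑ k, ∑ l, (al k : ℝ) * (al l : ℝ) * Real.log (dd k l)))
      ≤ ∑ k, (al k : ℝ) / 2 * ((colT k : ℚ) : ℝ) := by
    have e2 : - (1 / 2 * (∑ k, ∑ l, (al k : ℝ) * (al l : ℝ) * Real.log (dd k l)))
        = ∑ k, (al k : ℝ) / 2 * (- ∑ l, (al l : ℝ) * Real.log (dd k l)) := by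
      rw [Finset.mul_sum, ← Finset.sum_neg_distrib]
      refine Finset.sum_congr rfl fun k _ => ?_
      rw [show (∑ l, (al k : ℝ) * (al l : ℝ) * Real.log (dd k l))
        = (al k : ℝ) * ∑ l, (al l : ℝ) * Real.log (dd k l) by
          rw [Finset.mul_sum]; exact Finset.sum_congr rfl fun l _ => by ring]
      ring
    rw [e2]
    exact Finset.sum_le_sum fun k _ => mul_le_mul_of_nonneg_left (colT_le k) (by positivity)
  have i3 : - (3 / 4 * (∑ k ∈ univ.filter (fun l : Fin 18 => l.val < 6),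
      ∑ l ∈ univ.filter (fun l : Fin 18 => l.val < 6), (al k : ℝ) * (al l : ℝ) * Real.log (dd k l)))
      ≤ 3 / 4 * (∑ k ∈ univ.filter (fun l : Fin 18 => l.val < 6),
        (al k : ℝ) * ((colE k : ℚ) : ℝ)) := by
    have e3 : - (3 / 4 * (∑ k ∈ univ.filter (fun l : Fin 18 => l.val < 6),
        ∑ l ∈ univ.filter (fun l : Fin 18 => l.val < 6),
          (al k : ℝ) * (al l : ℝ) * Real.log (dd k l)))
        = 3 / 4 * (∑ k ∈ univ.filter (fun l : Fin 18 => l.val < 6), (al k : ℝ) *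
          (- ∑ l ∈ univ.filter (fun l : Fin 18 => l.val < 6), (al l : ℝ) * Real.log (dd k l))) := by
      rw [← mul_neg, ← Finset.sum_neg_distrib]
      congr 1
      refine Finset.sum_congr rfl fun k _ => ?_
      rw [mul_neg, Finset.mul_sum]
      congr 1
      exact Finset.sum_congr rfl fun l _ => by ring
    rw [e3]
    refine mul_le_mul_of_nonneg_left ?_ (by norm_num)
    exact Finset.sum_le_sum fun k _ => mul_le_mul_of_nonneg_left (colE_le k) (by positivity)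
  have i4 : 126 * (∑ k ∈ univ.filter (fun l : Fin 18 => 6 ≤ l.val),
      (al k : ℝ) * (Real.log (nb (lt k) k) / 2 - Real.log (im k)))
      ≤ 63 * (∑ k ∈ univ.filter (fun l : Fin 18 => 6 ≤ l.val), (al k : ℝ) * ((kapQ k : ℚ) : ℝ)) := by
    rw [show (126 : ℝ) = 63 * 2 by norm_num, mul_assoc]
    refine mul_le_mul_of_nonneg_left ?_ (by norm_num)
    rw [Finset.mul_sum]
    refine Finset.sum_le_sum fun k _ => ?_
    have := mul_le_mul_of_nonneg_left (kap_le k) (show (0:ℝ) ≤ (al k : ℝ) by positivity)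
    linarith
  linarith

end B10.Ar
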