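import Pool.Agent.Lib.B10.ArchSum
import Pool.Agent.Lib.B10.ArchNum

/-!
# The archimedean bound, final form (from the roots)
-/

namespace B10.As

open Finset Ar

theorem Bar_eq : B10.As.Bar = B10.Ar.Bar := by
  unfold B10.As.Bar B10.Ar.Bar BarR
  have h1 : ∑ k, ∑ l, (alE k : ℝ) * (alE l : ℝ) * Real.log (dd k l)
      = ∑ k ∈ univ.filter (fun l : Fin 18 => l.val < 6),
        ∑ l ∈ univ.filter (fun l : Fin 18 => l.val < 6),
          (al k : ℝ) * (al l : ℝ) * Real.log (dd k l) := by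
    rw [Finset.sum_filter]
    refine Finset.sum_congr rfl fun k _ => ?_
    by_cases hk : k.val < 6
    · rw [if_pos hk, Finset.sum_filter]
      refine Finset.sum_congr rfl fun l _ => ?_
      unfold alE
      by_cases hl : l.val < 6
      · rw [if_pos hk, if_pos hl, if_pos hl]
      · rw [if_neg hl, if_neg hl]; simp
    · rw [if_neg hk]
      refine Finset.sum_eq_zero fun l _ => ?_
      unfold alE
      rw [if_neg hk]; simp
  have h2 : ∑ k, (alF k : ℝ) * (Real.log (nb (Ar.lt k) k) / 2 - Real.log (im k))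
      = ∑ k ∈ univ.filter (fun l : Fin 18 => 6 ≤ l.val),
      (al k : ℝ) * (Real.log (nb (Ar.lt k) k) / 2 - Real.log (im k)) := by
    rw [Finset.sum_filter]
    refine Finset.sum_congr rfl fun k _ => ?_
    unfold alF
    by_cases hk : k.val < 6
    · rw [if_pos hk, if_neg (by omega)]; simp
    · rw [if_neg hk, if_pos (by omega)]
  rw [h1, h2]

theorem Bar_le : B10.As.Bar ≤ 14541 := by
  rw [Bar_eq]; exact B10.Ar.Bar_le

/-- **The archimedean block**, from the roots. -/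
theorem arch_of_root (t : Fin 12 → Fin 4 → Fin 18 → ℂ)
    (ht : ∀ c v k, Root (mu c : ℝ) (rho (ty c) v : ℝ) (bnode (fun e => (b c e : ℝ)) (nd k))
      (bnode (fun e => (T c e : ℝ)) (nd k)) (t c v k))
    (htau : ∀ c v k, (tau c v k : ℝ) / 10 ^ 6 ≤ ‖t c v k‖) (c0 : ℕ) :
    ∃ C : ℝ, 0 ≤ C ∧ ∃ n0 : ℕ, ∀ n : ℕ, n0 ≤ n → ∀ x : Col (2 * n) → Row (2 * n) c0,
      Function.Injective x →
      |((Dx x : ℚ) : ℝ)| ≤ Real.exp (14541 * (n : ℝ) ^ 2 + C * n * Real.log (n + 2)) := by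
  obtain ⟨C, hC0, hC⟩ := arch_sum t ht htau c0
  refine ⟨C, hC0, c0 + 1, fun n hn x hx => ?_⟩
  by_cases hD : Dx x = 0
  · rw [hD]
    simp only [Rat.cast_zero, abs_zero]
    positivity
  · have h1 := hC n (by omega) (by omega) x hx hD
    have h2 : 0 < |((Dx x : ℚ) : ℝ)| := abs_pos.mpr (by exact_mod_cast hD)
    rw [← Real.exp_log h2]
    apply Real.exp_le_exp.mpr
    have h3 : B10.As.Bar * (n : ℝ) ^ 2 ≤ 14541 * (n : ℝ) ^ 2 :=
      mul_le_mul_of_nonneg_right Bar_le (sq_nonneg _)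
    calc Real.log |((Dx x : ℚ) : ℝ)| ≤ B10.As.Bar * (n : ℝ) ^ 2 + C * (n * Real.log (n + 2)) := h1
      _ ≤ 14541 * (n : ℝ) ^ 2 + C * (n * Real.log (n + 2)) := by linarith
      _ = _ := by ring

end B10.As
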