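import Pool.Agent.Lib.B10.Slit

/-!
# The archimedean bound of the determinant of the Hermite-Pade frame, slit discs

Columns: two families of `nE + nF` monomials of degree `nE + nF - 1`, whose germs at the letter
`b` are `b e * form` (`e = 0, 1`), and `k` families of `nE` monomials of degree `nE - 1`, whose
germs are `form * F * E_u`, `F` the product of the `nF` letters `cF`,
`E_u = ∑ a, co u a * ⟨b, a⟩ * log (1 + x ⟨T, a⟩ / ⟨b, a⟩)`. Rows: jets at `b + x T`.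
-/

namespace B10

open Finset Matrix Filter Topology Polynomial ComplexConjugate

/-- the bracket -/
def br2 (x y : Fin 2 → ℝ) : ℝ := x 0 * y 1 - x 1 * y 0

/-- data of the frame -/
structure Frame (Lab Let : Type) where
  nE : ℕ
  nF : ℕ
  k : ℕ
  b : Lab → Fin 2 → ℝ
  T : Lab → Fin 2 → ℝ
  a : Let → Fin 2 → ℝ
  co : Fin k → Let → ℝ
  cF : Fin nF → Let

namespace Frame

variable {Lab Let : Type} (S : Frame Lab Let)

/-- the columns -/
abbrev Col : Type := (Fin (S.nE + S.nF) × Fin 2) ⊕ (Fin S.nE × Fin S.k)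

/-- a monomial -/
noncomputable def mono (l : Lab) (n j : ℕ) (x : ℂ) : ℂ :=
  (S.b l 0 + x * S.T l 0) ^ j * (S.b l 1 + x * S.T l 1) ^ (n - 1 - j)

/-- the product of the letters -/
noncomputable def fF (l : Lab) (x : ℂ) : ℂ :=
  ∏ k, ((br2 (S.b l) (S.a (S.cF k)) : ℝ) + x * (br2 (S.T l) (S.a (S.cF k)) : ℝ) : ℂ)

/-- the logarithmic germ -/
noncomputable def eg [Fintype Let] (u : Fin S.k) (l : Lab) (x : ℂ) : ℂ :=
  ∑ a, ((S.co u a * br2 (S.b l) (S.a a) : ℝ) : ℂ) *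
    Complex.log (1 + x * ((br2 (S.T l) (S.a a) / br2 (S.b l) (S.a a) : ℝ) : ℂ))

/-- the germs of the columns -/
noncomputable def fn [Fintype Let] (l : Lab) : S.Col → ℂ → ℂ
  | Sum.inl (j, e), x => (S.b l e : ℂ) * S.mono l (S.nE + S.nF) j x
  | Sum.inr (j, u), x => S.mono l S.nE j x * S.fF l x * S.eg u l x

theorem analyticAt_log1 (z : ℂ) : AnalyticAt ℂ (fun x : ℂ => Complex.log (1 + x * z)) 0 := by
  have h1 : AnalyticAt ℂ (fun x : ℂ => 1 + x * z) 0 := by fun_prop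
  have h2 : (1 + (0 : ℂ) * z) ∈ Complex.slitPlane := by simp
  exact h1.clog h2

theorem analyticAt_mono (l : Lab) (n j : ℕ) (x : ℂ) : AnalyticAt ℂ (S.mono l n j) x := by
  unfold mono
  fun_prop

theorem analyticAt_fF (l : Lab) (x : ℂ) : AnalyticAt ℂ (S.fF l) x := by
  unfold fF
  exact Finset.analyticAt_fun_prod _ fun k _ => by fun_prop

theorem analyticAt_eg [Fintype Let] (u : Fin S.k) (l : Lab) : AnalyticAt ℂ (S.eg u l) 0 := by
  unfold eg
  exact Finset.analyticAt_fun_sum _ fun a _ => analyticAt_const.fun_mul (analyticAt_log1 _)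

theorem analyticAt_fn [Fintype Let] (l : Lab) (c : S.Col) : AnalyticAt ℂ (S.fn l c) 0 := by
  rcases c with ⟨j, e⟩ | ⟨j, u⟩
  · exact analyticAt_const.fun_mul (S.analyticAt_mono l _ _ 0)
  · exact ((S.analyticAt_mono l _ _ 0).fun_mul (S.analyticAt_fF l 0)).fun_mul
      (S.analyticAt_eg u l)

/-- the change of the columns -/
noncomputable def W (w : Fin (S.nE + S.nF) → ℂ) (wE : Fin S.nE → ℂ) (K : ℝ) :
    Matrix S.Col S.Col ℂ :=
  Matrix.fromBlocks
    (Matrix.blockDiagonal fun _ : Fin 2 => cm (mb (fun i => conj (w i)) w)) 0 0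
    (Matrix.blockDiagonal fun _ : Fin S.k =>
      ((K : ℂ)⁻¹) • cm (mb (fun i => conj (wE i)) wE))

theorem det_W (w : Fin (S.nE + S.nF) → ℂ) (wE : Fin S.nE → ℂ) (K : ℝ) :
    (S.W w wE K).det = (∏ i, ∏ j ∈ Ioi i, (conj (w i) - w j)) ^ 2 *
      (((K : ℂ)⁻¹) ^ S.nE * ∏ i, ∏ j ∈ Ioi i, (conj (wE i) - wE j)) ^ S.k := by
  unfold W
  rw [Matrix.det_fromBlocks_zero₂₁, Matrix.det_blockDiagonal, Matrix.det_blockDiagonal,
    Finset.prod_const, Finset.prod_const, Finset.card_univ, Finset.card_univ, Fintype.card_fin,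
    Fintype.card_fin, Matrix.det_smul, Fintype.card_fin, det_mb, det_mb]

/-- the new functions, T columns -/
theorem new_T [Fintype Let] (w : Fin (S.nE + S.nF) → ℂ) (wE : Fin S.nE → ℂ) (K : ℝ) (l : Lab)
    (i : Fin (S.nE + S.nF)) (e : Fin 2) (x : ℂ) :
    ∑ d, S.fn l d x * S.W w wE K d (Sum.inl (i, e))
      = (S.b l e : ℂ) * hom (S.nE + S.nF) (mb (fun i => conj (w i)) w i)
          (S.b l 0 + x * S.T l 0) (S.b l 1 + x * S.T l 1) := by
  rw [Fintype.sum_sum_type]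
  have h2 : ∑ d : Fin S.nE × Fin S.k, S.fn l (Sum.inr d) x *
      S.W w wE K (Sum.inr d) (Sum.inl (i, e)) = 0 :=
    Finset.sum_eq_zero fun d _ => by
      unfold W
      rw [Matrix.fromBlocks_apply₂₁, Matrix.zero_apply, mul_zero]
  rw [h2, add_zero, Fintype.sum_prod_type_right, Finset.sum_eq_single e]
  · unfold hom
    rw [Finset.mul_sum, ← Fin.sum_univ_eq_sum_range (fun k => (S.b l e : ℂ) *
      ((mb (fun i => conj (w i)) w i).coeff k * ((S.b l 0 + x * S.T l 0) ^ k *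
        (S.b l 1 + x * S.T l 1) ^ (S.nE + S.nF - 1 - k))))]
    refine Finset.sum_congr rfl fun j _ => ?_
    unfold W
    rw [Matrix.fromBlocks_apply₁₁, Matrix.blockDiagonal_apply, if_pos rfl]
    unfold fn mono cm
    rw [Matrix.of_apply]
    ring
  · intro e' _ he'
    refine Finset.sum_eq_zero fun j _ => ?_
    unfold W
    rw [Matrix.fromBlocks_apply₁₁, Matrix.blockDiagonal_apply, if_neg he', mul_zero]
  · intro h; exact absurd (Finset.mem_univ _) h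

/-- the new functions, E columns -/
theorem new_E [Fintype Let] (w : Fin (S.nE + S.nF) → ℂ) (wE : Fin S.nE → ℂ) (K : ℝ) (l : Lab)
    (i : Fin S.nE) (u : Fin S.k) (x : ℂ) :
    ∑ d, S.fn l d x * S.W w wE K d (Sum.inr (i, u))
      = (K : ℂ)⁻¹ * hom S.nE (mb (fun i => conj (wE i)) wE i)
          (S.b l 0 + x * S.T l 0) (S.b l 1 + x * S.T l 1) * S.fF l x * S.eg u l x := by
  rw [Fintype.sum_sum_type]
  have h2 : ∑ d : Fin (S.nE + S.nF) × Fin 2, S.fn l (Sum.inl d) x *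
      S.W w wE K (Sum.inl d) (Sum.inr (i, u)) = 0 :=
    Finset.sum_eq_zero fun d _ => by
      unfold W
      rw [Matrix.fromBlocks_apply₁₂, Matrix.zero_apply, mul_zero]
  rw [h2, zero_add, Fintype.sum_prod_type_right, Finset.sum_eq_single u]
  · unfold hom
    rw [Finset.mul_sum, Finset.sum_mul, Finset.sum_mul,
      ← Fin.sum_univ_eq_sum_range (fun k => (K : ℂ)⁻¹ *
      ((mb (fun i => conj (wE i)) wE i).coeff k * ((S.b l 0 + x * S.T l 0) ^ k *
        (S.b l 1 + x * S.T l 1) ^ (S.nE - 1 - k))) * S.fF l x * S.eg u l x)]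
    refine Finset.sum_congr rfl fun j _ => ?_
    unfold W
    rw [Matrix.fromBlocks_apply₂₂, Matrix.blockDiagonal_apply, if_pos rfl]
    unfold fn mono cm
    rw [Matrix.smul_apply, Matrix.of_apply, smul_eq_mul]
    ring
  · intro e' _ he'
    refine Finset.sum_eq_zero fun j _ => ?_
    unfold W
    rw [Matrix.fromBlocks_apply₂₂, Matrix.blockDiagonal_apply, if_neg he', mul_zero]
  · intro h; exact absurd (Finset.mem_univ _) h

end Frame

/-! ### One row -/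

/-- `s(τ)` -/
noncomputable def sl (μ ρ : ℝ) (τ : ℂ) : ℂ := 1 + (μ / ρ : ℝ) * τ + τ ^ 2

/-- the map of the slit disc -/
noncomputable def psi (μ ρ : ℝ) (τ : ℂ) : ℂ := (τ / ρ) / sl μ ρ τ

theorem sl_zero (μ ρ : ℝ) : sl μ ρ 0 = 1 := by unfold sl; simp

theorem analyticAt_sl (μ ρ : ℝ) (τ : ℂ) : AnalyticAt ℂ (sl μ ρ) τ := by
  unfold sl; fun_prop

theorem analyticAt_psi (μ ρ : ℝ) : AnalyticAt ℂ (psi μ ρ) 0 := by
  have h1 : AnalyticAt ℂ (fun τ : ℂ => τ / ρ) 0 := by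
    have : AnalyticAt ℂ (fun τ : ℂ => τ * (ρ : ℂ)⁻¹) 0 := by fun_prop
    simpa [div_eq_mul_inv] using this
  exact h1.fun_div (analyticAt_sl μ ρ 0) (by rw [sl_zero]; exact one_ne_zero)

theorem psi_zero (μ ρ : ℝ) : psi μ ρ 0 = 0 := by unfold psi; simp

theorem eventually_sl (μ ρ : ℝ) : ∀ᶠ τ in 𝓝 (0 : ℂ), sl μ ρ τ ≠ 0 := by
  have h := (analyticAt_sl μ ρ 0).continuousAt
  exact h.eventually_ne (by rw [sl_zero]; exact one_ne_zero)

theorem deriv_psi {μ ρ : ℝ} (hρ : 0 < ρ) : ‖deriv (psi μ ρ) 0‖ = ρ⁻¹ := by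
  have h := tc_diag (U := fun _ => 1) analyticAt_const (analyticAt_psi μ ρ) (psi_zero μ ρ) 1
  simp only [one_mul, pow_one] at h
  rw [← h]
  have e : (fun τ => psi μ ρ τ) = fun τ => τ ^ 1 * (((ρ : ℂ)⁻¹) / sl μ ρ τ) := by
    funext τ; unfold psi; ring
  rw [e, tc_pow_mul, sl_zero, div_one, norm_inv, Complex.norm_real, Real.norm_of_nonneg hρ.le]
  exact analyticAt_const.fun_div (analyticAt_sl μ ρ 0) (by rw [sl_zero]; exact one_ne_zero)

theorem lin_psi {μ ρ : ℝ} {τ : ℂ} (h : sl μ ρ τ ≠ 0) (β θ : ℂ) :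
    β + psi μ ρ τ * θ = lx μ ρ β θ τ / sl μ ρ τ := by
  have h1 : τ / ρ / sl μ ρ τ * sl μ ρ τ = τ / ρ := div_mul_cancel₀ _ h
  have h2 : lx μ ρ β θ τ = sl μ ρ τ * β + (τ / ρ) * θ := rfl
  rw [eq_div_iff h, h2]
  unfold psi
  linear_combination θ * h1

/-- the unit of a row -/
noncomputable def unitU (μ ρ : ℝ) {n : ℕ} (t : Fin n → ℂ) (τ : ℂ) : ℂ :=
  sl μ ρ τ ^ (n - 1) / ∏ i, den (t i) τ

theorem analyticAt_den (t τ : ℂ) : AnalyticAt ℂ (den t) τ := by
  unfold den; fun_prop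

theorem den_zero (t : ℂ) : den t 0 = 1 := by unfold den; simp

theorem prod_den_ne {n : ℕ} {t : Fin n → ℂ} (ht : ∀ i, ‖t i‖ < 1) {τ : ℂ} (hτ : ‖τ‖ ≤ 1) :
    ∏ i, den (t i) τ ≠ 0 := Finset.prod_ne_zero_iff.mpr fun _ _ => den_ne (ht _) hτ

theorem analyticAt_prod_den {n : ℕ} (t : Fin n → ℂ) (τ : ℂ) :
    AnalyticAt ℂ (fun τ => ∏ i, den (t i) τ) τ :=
  Finset.analyticAt_fun_prod _ fun i _ => analyticAt_den _ _

theorem analyticAt_unitU (μ ρ : ℝ) {n : ℕ} {t : Fin n → ℂ} (ht : ∀ i, ‖t i‖ < 1) :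
    AnalyticAt ℂ (unitU μ ρ t) 0 :=
  ((analyticAt_sl μ ρ 0).fun_pow _).fun_div (analyticAt_prod_den t 0)
    (prod_den_ne ht (by simp))

theorem unitU_zero (μ ρ : ℝ) {n : ℕ} (t : Fin n → ℂ) : unitU μ ρ t 0 = 1 := by
  unfold unitU
  rw [sl_zero]
  simp [den_zero]

/-- a quotient with the denominators `den` is continuous up to the boundary -/
theorem diffCont_div {n : ℕ} {t : Fin n → ℂ} (ht : ∀ i, ‖t i‖ < 1) {g : ℂ → ℂ}
    (hg : ∀ τ, AnalyticAt ℂ g τ) :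
    DiffContOnCl ℂ (fun τ => g τ / ∏ i, den (t i) τ) (Metric.ball 0 1) := by
  apply DifferentiableOn.diffContOnCl
  intro τ hτ
  rw [closure_ball (0 : ℂ) one_ne_zero] at hτ
  have hτ' : ‖τ‖ ≤ 1 := by simpa using hτ
  exact ((hg τ).fun_div (analyticAt_prod_den t τ)
    (prod_den_ne ht hτ')).differentiableAt.differentiableWithinAt

/-- the main product bound: one factor missing -/
theorem prod_bound {α : Type*} [DecidableEq α] (J : Finset α) (i : α) (hi : i ∈ J)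
    (L d q : α → ℝ) (hL : ∀ j ∈ J, j ≠ i → 0 ≤ L j ∧ L j ≤ q j * d j) (hd : ∀ j ∈ J, 0 < d j)
    (hq : ∀ j ∈ J, 0 ≤ q j) {C : ℝ} (hC : 1 ≤ C * q i * d i) :
    (∏ j ∈ J.erase i, L j) / ∏ j ∈ J, d j ≤ C * ∏ j ∈ J, q j := by
  have hdp : 0 < ∏ j ∈ J, d j := Finset.prod_pos hd
  rw [div_le_iff₀ hdp]
  have h1 : ∏ j ∈ J.erase i, L j ≤ ∏ j ∈ J.erase i, (q j * d j) :=
    Finset.prod_le_prod (fun j hj => (hL j (Finset.mem_of_mem_erase hj)
      (Finset.ne_of_mem_erase hj)).1) fun j hj => (hL j (Finset.mem_of_mem_erase hj)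
      (Finset.ne_of_mem_erase hj)).2
  have h2 : 0 ≤ ∏ j ∈ J.erase i, (q j * d j) :=
    Finset.prod_nonneg fun j hj => mul_nonneg (hq j (Finset.mem_of_mem_erase hj))
      (hd j (Finset.mem_of_mem_erase hj)).le
  have h3 : C * (∏ j ∈ J, q j) * ∏ j ∈ J, d j
      = (C * q i * d i) * ∏ j ∈ J.erase i, (q j * d j) := by
    rw [← Finset.mul_prod_erase J q hi, ← Finset.mul_prod_erase J d hi,
      Finset.prod_mul_distrib]
    ring
  rw [h3]
  calc ∏ j ∈ J.erase i, L j ≤ 1 * ∏ j ∈ J.erase i, (q j * d j) := by rw [one_mul]; exact h1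
    _ ≤ _ := mul_le_mul_of_nonneg_right hC h2

/-! ### The logarithms -/

/-- near `1` the logarithm of a product is the sum of the logarithms -/
theorem eventually_log_mul {f g : ℂ → ℂ} (hf : ContinuousAt f 0) (hg : ContinuousAt g 0)
    (hf0 : f 0 = 1) (hg0 : g 0 = 1) :
    ∀ᶠ τ in 𝓝 (0 : ℂ), Complex.log (f τ * g τ) = Complex.log (f τ) + Complex.log (g τ) := by
  have hpi := Real.pi_pos
  have harg : ∀ h : ℂ → ℂ, ContinuousAt h 0 → h 0 = 1 →
      ∀ᶠ τ in 𝓝 (0 : ℂ), |Complex.arg (h τ)| < Real.pi / 2 := by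
    intro h hh h0
    have h1 : ContinuousAt (fun τ => |Complex.arg (h τ)|) 0 := by
      have h2 : ContinuousAt Complex.arg (h 0) := by
        apply Complex.continuousAt_arg
        rw [h0]; simp
      exact (ContinuousAt.comp (f := h) (g := Complex.arg) h2 hh).abs
    have h3 : |Complex.arg (h 0)| < Real.pi / 2 := by
      rw [h0]; simp; positivity
    exact h1.eventually_lt_const h3
  filter_upwards [harg f hf hf0, harg g hg hg0,
    hf.eventually_ne (by rw [hf0]; exact one_ne_zero),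
    hg.eventually_ne (by rw [hg0]; exact one_ne_zero)] with τ h1 h2 h3 h4
  rw [Complex.log_mul_eq_add_log_iff h3 h4]
  rw [abs_lt] at h1 h2
  constructor
  · linarith [h1.1, h2.1]
  · linarith [h1.2, h2.2]

/-- a point of the unit circle with given real part -/
theorem exists_circle (h : ℝ) (hh : |h| ≤ 2) : ∃ v : ℂ, ‖v‖ = 1 ∧ v + conj v = (-h : ℝ) := by
  have h1 : 0 ≤ 1 - (h / 2) ^ 2 := by
    have := sq_le_sq' (neg_le_of_abs_le hh) (le_of_abs_le hh)
    nlinarith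
  refine ⟨⟨-h / 2, Real.sqrt (1 - (h / 2) ^ 2)⟩, ?_, ?_⟩
  · have h2 : Complex.normSq (⟨-h / 2, Real.sqrt (1 - (h / 2) ^ 2)⟩ : ℂ) = 1 := by
      rw [Complex.normSq_mk, Real.mul_self_sqrt h1]
      ring
    have h3 := Complex.normSq_eq_norm_sq (⟨-h / 2, Real.sqrt (1 - (h / 2) ^ 2)⟩ : ℂ)
    rw [h2] at h3
    have h4 : ‖(⟨-h / 2, Real.sqrt (1 - (h / 2) ^ 2)⟩ : ℂ)‖ ^ 2 = 1 ^ 2 := by
      rw [← h3, one_pow]
    exact (sq_eq_sq₀ (norm_nonneg _) zero_le_one).mp h4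
  · rw [Complex.add_conj]
    push_cast
    ring

/-- one logarithm along the slit disc -/
theorem log_slit {μ ρ z : ℝ} (hρ : 0 < ρ) {v : ℂ} (hv : v + conj v = (-((μ + z) / ρ) : ℝ))
    (hn : ‖v‖ = 1) :
    ∀ᶠ τ in 𝓝 (0 : ℂ), Complex.log (1 + psi μ ρ τ * z)
      = Complex.log (1 + τ * (-v)) + Complex.log (1 + τ * (-conj v))
        - Complex.log (sl μ ρ τ) := by
  have hc1 : ContinuousAt (fun τ : ℂ => 1 + τ * (-v)) 0 := by fun_prop
  have hc2 : ContinuousAt (fun τ : ℂ => 1 + τ * (-conj v)) 0 := by fun_prop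
  have hc3 : ContinuousAt (fun τ : ℂ => 1 + psi μ ρ τ * z) 0 :=
    continuousAt_const.add ((analyticAt_psi μ ρ).continuousAt.mul continuousAt_const)
  have hc4 : ContinuousAt (sl μ ρ) 0 := (analyticAt_sl μ ρ 0).continuousAt
  have e1 := eventually_log_mul hc1 hc2 (by simp) (by simp)
  have e2 := eventually_log_mul hc3 hc4 (by rw [psi_zero]; simp) (sl_zero μ ρ)
  have hρ' : (ρ : ℂ) ≠ 0 := by exact_mod_cast hρ.ne'
  have hvv : v * conj v = 1 := by
    rw [Complex.mul_conj, Complex.normSq_eq_norm_sq, hn]; simp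
  filter_upwards [e1, e2, eventually_sl μ ρ] with τ h1 h2 h3
  have key : (1 + τ * (-v)) * (1 + τ * (-conj v)) = (1 + psi μ ρ τ * z) * sl μ ρ τ := by
    have h4 : psi μ ρ τ * sl μ ρ τ = τ / ρ := div_mul_cancel₀ _ h3
    have h5 : v + conj v = -((μ + z) / ρ) := by rw [hv]; push_cast; ring
    have h6 : sl μ ρ τ = 1 + (μ / ρ) * τ + τ ^ 2 := by unfold sl; push_cast; ring
    calc (1 + τ * (-v)) * (1 + τ * (-conj v)) = 1 - τ * (v + conj v) + τ ^ 2 * (v * conj v) := by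
          ring
      _ = 1 + τ * ((μ + z) / ρ) + τ ^ 2 := by rw [h5, hvv]; ring
      _ = sl μ ρ τ + z * (τ / ρ) := by rw [h6]; ring
      _ = (1 + psi μ ρ τ * z) * sl μ ρ τ := by rw [← h4]; ring
  rw [← h1, key, h2]
  ring

/-- coefficients of the logarithm along the slit disc -/
theorem tc_log_slit (v : ℂ) (j : ℕ) :
    tc j (fun τ => Complex.log (1 + τ * (-v)) + Complex.log (1 + τ * (-conj v)))
      = -(v ^ j + conj v ^ j) / j := by
  rw [tc_add (Frame.analyticAt_log1 _) (Frame.analyticAt_log1 _), tc_log, tc_log]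
  have h : ∀ z : ℂ, (-z) ^ j * (-(-1) ^ j / (j : ℂ)) = -z ^ j / j := by
    intro z
    rw [neg_pow z]
    have h1 : ((-1 : ℂ) ^ j) * ((-1) ^ j) = 1 := by
      rw [← mul_pow]; simp
    calc (-1) ^ j * z ^ j * (-(-1) ^ j / (j : ℂ)) = -(((-1) ^ j * (-1) ^ j) * z ^ j) / j := by ring
      _ = _ := by rw [h1, one_mul]
  rw [h, h]
  ring

end B10
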