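import Pool.Agent.Lib.B10.ArchRow

/-!
# The archimedean bound of all maximal minors of the frame
-/

namespace B10

open Finset Matrix Filter Topology Polynomial ComplexConjugate

/-- the germ of a unit column -/
noncomputable def unitCol {Lab : Type} (l l' : Lab) (o : ℕ) (x : ℂ) : ℂ :=
  by classical exact if l = l' then x ^ o else 0

theorem analyticAt_unitCol {Lab : Type} (l l' : Lab) (o : ℕ) (x : ℂ) :
    AnalyticAt ℂ (unitCol l l' o) x := by
  classical
  unfold unitCol
  by_cases h : l = l'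
  · simp only [if_pos h]; fun_prop
  · simp only [if_neg h]; exact analyticAt_const

theorem tc_unitCol {Lab : Type} (l l' : Lab) (o i : ℕ) :
    tc i (unitCol l l' o) = by classical exact if l = l' ∧ i = o then 1 else 0 := by
  classical
  by_cases h : l = l'
  · have e : unitCol l l' o = fun x => x ^ o := by
      funext x; unfold unitCol; rw [if_pos h]
    rw [e, tc_pow]
    simp [h]
  · have e : unitCol l l' o = fun x => (0 : ℂ) * x ^ o := by
      funext x; unfold unitCol; rw [if_neg h, zero_mul]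
    rw [e, tc_const_mul, zero_mul]
    simp [h]

/-- **The archimedean bound of the maximal minors.** `R` = all rows, `x` = the chosen ones. -/
theorem arch_minor {Lab Let R : Type} [Fintype Let] [Fintype R] [DecidableEq R]
    (S : Frame Lab Let) (x : S.Col → R) (hx : Function.Injective x)
    (pt : R → Lab) (ord : R → ℕ)
    (hinj : ∀ r s, pt r = pt s → ord r = ord s → r = s)
    (hfull : ∀ r, ∀ j < ord r, ∃ s, pt s = pt r ∧ ord s = j)
    (hord : ∀ r, ord r ≤ S.nE + S.nF - 1)
    (wE : Fin S.nE → ℂ) (wF : Fin S.nF → ℂ) (him : ∀ k, (wF k).im ≠ 0)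
    (κ : Fin S.nF → ℝ) (hκ0 : ∀ k, 0 < κ k)
    (hκ : ∀ k, ‖bnode (S.a (S.cF k)) (wF k)‖ / |(wF k).im| ≤ κ k)
    (hco : ∀ u i, ∑ a, S.co u a * S.a a i = 0)
    (μ ρ : R → ℝ) (hρ : ∀ r, 0 < ρ r) (t : R → Fin (S.nE + S.nF) → ℂ)
    (ht : ∀ r i, Root (μ r) (ρ r) (bnode (S.b (pt r)) (Fin.append wE wF i))
      (bnode (S.T (pt r)) (Fin.append wE wF i)) (t r i))
    (hrow : ∀ r, (∀ a, br2 (S.b (pt r)) (S.a a) ≠ 0 →
      |μ r + br2 (S.T (pt r)) (S.a a) / br2 (S.b (pt r)) (S.a a)| ≤ 2 * ρ r) ∨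
      ord r < (univ.filter fun k => br2 (S.b (pt r)) (S.a (S.cF k)) = 0).card)
    (A C : ℝ) (hC0 : 0 ≤ C)
    (hC : ∀ r i, ‖t r i‖ ≤ C * ‖bnode (S.b (pt r)) (Fin.append wE wF i)‖ * (1 - ‖t r i‖) ^ 2)
    (hAb : ∀ r (e : Fin 2), |S.b (pt r) e| ≤ A)
    (hAE : ∀ r u, (∑ a, |S.co u a * br2 (S.b (pt r)) (S.a a)|) *
        (2 * ∑ j ∈ range (ord r), 1 / ((j : ℝ) + 1)) ≤ A)
    (lam : ℝ) (hlam0 : 0 < lam)
    (hlam : ∀ r s, pt s = pt r → lam * ((ρ r)⁻¹ ^ ord s *
      (2 + |μ r| / ρ r) ^ (S.nE + S.nF - 1 - ord s) / ∏ i, (1 - ‖t r i‖) ^ 2) ≤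
      A * (C * ∏ j, (‖bnode (S.b (pt r)) (Fin.append wE wF j)‖ / ‖t r j‖))) :
    ‖(Matrix.of fun c c' : S.Col => tc (ord (x c)) (S.fn (pt (x c)) c')).det‖ *
      ((∏ i, ∏ j ∈ Ioi i, ‖conj (Fin.append wE wF i) - Fin.append wE wF j‖) ^ 2 *
      (((∏ k, κ k)⁻¹) ^ S.nE * ∏ i, ∏ j ∈ Ioi i, ‖conj (wE i) - wE j‖) ^ S.k) *
      lam ^ (Fintype.card R - Fintype.card S.Col) * ∏ r, (ρ r)⁻¹ ^ ord r
    ≤ (Fintype.card R).factorial *
      ∏ r, (A * (C * ∏ j, (‖bnode (S.b (pt r)) (Fin.append wE wF j)‖ / ‖t r j‖))) := by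
  classical
  have hKp : 0 < ∏ k, κ k := Finset.prod_pos fun k _ => hκ0 k
  set w := Fin.append wE wF with hw
  -- the omitted rows
  let Ex : Type := {r : R // r ∉ Set.range x}
  let g : S.Col ⊕ Ex → R := Sum.elim x Subtype.val
  have hg : Function.Bijective g := by
    constructor
    · rintro (c | s) (c' | s') h
      · exact congrArg Sum.inl (hx h)
      · exact absurd ⟨c, h⟩ s'.2
      · exact absurd ⟨c', h.symm⟩ s.2
      · exact congrArg Sum.inr (Subtype.ext h)
    · intro r
      by_cases hr : r ∈ Set.range x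
      · obtain ⟨c, hc⟩ := hr
        exact ⟨Sum.inl c, hc⟩
      · exact ⟨Sum.inr ⟨r, hr⟩, rfl⟩
  let e : S.Col ⊕ Ex ≃ R := Equiv.ofBijective g hg
  have he1 : ∀ c, e (Sum.inl c) = x c := fun _ => rfl
  have he2 : ∀ s, e (Sum.inr s) = s.1 := fun _ => rfl
  let FF : Lab → (S.Col ⊕ Ex) → ℂ → ℂ := fun l c =>
    Sum.elim (fun c => S.fn l c) (fun s => unitCol l (pt s.1) (ord s.1)) c
  have hFFa : ∀ l c, AnalyticAt ℂ (FF l c) 0 := by
    rintro l (c | s)
    · exact S.analyticAt_fn l c
    · exact analyticAt_unitCol _ _ _ _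
  -- the full determinant is the minor
  have hfulldet : (Matrix.of fun r r' : R => tc (ord r) (FF (pt r) (e.symm r'))).det
      = (Matrix.of fun c c' : S.Col => tc (ord (x c)) (S.fn (pt (x c)) c')).det := by
    rw [← Matrix.det_submatrix_equiv_self e]
    have hb : (Matrix.of fun r r' : R => tc (ord r) (FF (pt r) (e.symm r'))).submatrix e e
        = Matrix.fromBlocks
          (Matrix.of fun c c' : S.Col => tc (ord (x c)) (S.fn (pt (x c)) c'))
          0 (Matrix.of fun (s : Ex) (c' : S.Col) => tc (ord s.1) (S.fn (pt s.1) c'))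
          (1 : Matrix Ex Ex ℂ) := by
      ext c c'
      rw [Matrix.submatrix_apply, Matrix.of_apply, Equiv.symm_apply_apply]
      rcases c with c | s <;> rcases c' with c' | s'
      · rfl
      · rw [Matrix.fromBlocks_apply₁₂, Matrix.zero_apply]
        show tc (ord (x c)) (unitCol (pt (x c)) (pt s'.1) (ord s'.1)) = 0
        rw [tc_unitCol, if_neg]
        rintro ⟨h1, h2⟩
        exact s'.2 ⟨c, hinj _ _ h1 h2⟩
      · rfl
      · rw [Matrix.fromBlocks_apply₂₂]
        show tc (ord s.1) (unitCol (pt s.1) (pt s'.1) (ord s'.1)) = _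
        rw [tc_unitCol, Matrix.one_apply]
        by_cases hss : s = s'
        · subst hss; simp
        · rw [if_neg hss, if_neg]
          rintro ⟨h1, h2⟩
          exact hss (Subtype.ext (hinj _ _ h1 h2))
    rw [hb, Matrix.det_fromBlocks_zero₁₂, Matrix.det_one, mul_one]
  let WB : Matrix (S.Col ⊕ Ex) (S.Col ⊕ Ex) ℂ :=
    Matrix.fromBlocks (S.W w wE (∏ k, κ k)) 0 0 ((lam : ℂ) • (1 : Matrix Ex Ex ℂ))
  set WW : Matrix R R ℂ := WB.submatrix e.symm e.symm with hWW
  have hcardEx : Fintype.card Ex = Fintype.card R - Fintype.card S.Col := by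
    have h1 : Fintype.card R = Fintype.card S.Col + Fintype.card Ex := by
      rw [← Fintype.card_sum]; exact (Fintype.card_congr e).symm
    omega
  have hdet : ‖WW.det‖ = ((∏ i, ∏ j ∈ Ioi i, ‖conj (w i) - w j‖) ^ 2 *
      (((∏ k, κ k)⁻¹) ^ S.nE * ∏ i, ∏ j ∈ Ioi i, ‖conj (wE i) - wE j‖) ^ S.k) *
      lam ^ (Fintype.card R - Fintype.card S.Col) := by
    rw [hWW, Matrix.det_submatrix_equiv_self]
    show ‖(Matrix.fromBlocks (S.W w wE (∏ k, κ k)) 0 0
      ((lam : ℂ) • (1 : Matrix Ex Ex ℂ))).det‖ = _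
    rw [Matrix.det_fromBlocks_zero₁₂, Matrix.det_smul, Matrix.det_one, mul_one, S.det_W, hcardEx]
    simp only [norm_mul, norm_pow, norm_prod, norm_inv, Complex.norm_real]
    have hk : ∏ k, ‖κ k‖ = ∏ k, κ k :=
      Finset.prod_congr rfl fun k _ => Real.norm_of_nonneg (hκ0 k).le
    rw [hk, Real.norm_of_nonneg hlam0.le]
  have key := det_disc_le' pt ord hinj hfull (fun l r' => FF l (e.symm r'))
    (fun l r' => hFFa l (e.symm r')) WW
    (fun r => unitU (μ r) (ρ r) (t r)) (fun r => psi (μ r) (ρ r))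
    (fun r => analyticAt_unitU _ _ fun i => (ht r i).lt) (fun r => analyticAt_psi _ _)
    (fun r => psi_zero _ _)
    (fun r => A * (C * ∏ j, (‖bnode (S.b (pt r)) (w j)‖ / ‖t r j‖))) ?_
  · rw [hdet, hfulldet] at key
    have h1 : ∏ r, (‖unitU (μ r) (ρ r) (t r) 0‖ * ‖deriv (psi (μ r) (ρ r)) 0‖ ^ ord r)
        = ∏ r, (ρ r)⁻¹ ^ ord r := by
      refine Finset.prod_congr rfl fun r _ => ?_
      rw [unitU_zero, norm_one, one_mul, deriv_psi (hρ r)]
    rw [h1, ← mul_assoc] at key
    exact key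
  · intro r r'
    have hsumc : ∀ τ, ∑ d, FF (pt r) (e.symm d) (psi (μ r) (ρ r) τ) * WW d r'
        = ∑ d, FF (pt r) d (psi (μ r) (ρ r) τ) * WB d (e.symm r') := by
      intro τ
      rw [← Equiv.sum_comp e]
      refine Finset.sum_congr rfl fun d _ => ?_
      rw [Equiv.symm_apply_apply, hWW, Matrix.submatrix_apply, Equiv.symm_apply_apply]
    have hCp : 0 ≤ C * ∏ j, (‖bnode (S.b (pt r)) (w j)‖ / ‖t r j‖) :=
      mul_nonneg hC0 (Finset.prod_nonneg fun j _ => by positivity)
    have hA0 : 0 ≤ A := (abs_nonneg _).trans (hAb r 0)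
    rcases hc : e.symm r' with c | s
    · have hsumc2 : ∀ τ, ∑ d, FF (pt r) (e.symm d) (psi (μ r) (ρ r) τ) * WW d r'
          = ∑ d, S.fn (pt r) d (psi (μ r) (ρ r) τ) * S.W w wE (∏ k, κ k) d c := by
        intro τ
        rw [hsumc τ, hc, Fintype.sum_sum_type]
        have h2 : ∑ s : Ex, FF (pt r) (Sum.inr s) (psi (μ r) (ρ r) τ) *
            WB (Sum.inr s) (Sum.inl c) = 0 :=
          Finset.sum_eq_zero fun s _ => by
            show _ * (Matrix.fromBlocks (S.W w wE (∏ k, κ k)) 0 0
              ((lam : ℂ) • (1 : Matrix Ex Ex ℂ))) (Sum.inr s) (Sum.inl c) = 0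
            rw [Matrix.fromBlocks_apply₂₁, Matrix.zero_apply, mul_zero]
        rw [h2, add_zero]
        rfl
      rcases c with ⟨i, ε⟩ | ⟨i, u⟩
      · obtain ⟨G, hG1, hG2, hG3⟩ := row_T (hρ r) (S.b (pt r)) (S.T (pt r)) w (t r) (ht r) (hC r)
          (S.b (pt r) ε : ℂ) i
        refine ⟨G, hG1, ?_, fun τ hτ => (hG3 τ hτ).trans ?_⟩
        · rw [tc_congr hG2]
          congr 1
          funext τ
          rw [hsumc2 τ, S.new_T]
        · rw [Complex.norm_real, Real.norm_eq_abs]
          exact mul_le_mul_of_nonneg_right (hAb r ε) hCp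
      · have hfun : (fun τ => unitU (μ r) (ρ r) (t r) τ *
            ∑ d, FF (pt r) (e.symm d) (psi (μ r) (ρ r) τ) * WW d r')
            = fun τ => unitU (μ r) (ρ r) (t r) τ * ((((∏ k, κ k : ℝ)) : ℂ)⁻¹ *
          hom S.nE (mb (fun j => conj (wE j)) wE i)
          (S.b (pt r) 0 + psi (μ r) (ρ r) τ * S.T (pt r) 0)
          (S.b (pt r) 1 + psi (μ r) (ρ r) τ * S.T (pt r) 1) * S.fF (pt r) (psi (μ r) (ρ r) τ) *
            S.eg u (pt r) (psi (μ r) (ρ r) τ)) := by
          funext τ
          rw [hsumc2 τ, S.new_E]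
        rcases hrow r with hr | hr
        · have hsum : ∀ u, ∑ a, S.co u a * br2 (S.b (pt r)) (S.a a) = 0 := by
            intro u
            unfold br2
            have h2 : ∀ a, S.co u a * (S.b (pt r) 0 * S.a a 1 - S.b (pt r) 1 * S.a a 0)
                = S.b (pt r) 0 * (S.co u a * S.a a 1) - S.b (pt r) 1 * (S.co u a * S.a a 0) := by
              intro a; ring
            rw [Finset.sum_congr rfl fun a _ => h2 a, Finset.sum_sub_distrib, ← Finset.mul_sum,
              ← Finset.mul_sum, hco, hco]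
            ring
          obtain ⟨G, hG1, hG2, hG3⟩ := row_E S (pt r) (hρ r) wE wF (t r) (ht r) (hC r) κ hκ0 him
            hκ hsum hr (ord r) (hAE r) i u
          refine ⟨G, hG1, ?_, hG3⟩
          rw [hG2, hfun]
        · refine ⟨fun _ => 0, ?_, ?_, fun τ _ => ?_⟩
          · exact diffContOnCl_const
          · have h3 : tc (ord r) (fun _ : ℂ => (0 : ℂ)) = 0 := by
              have := tc_const_mul (i := ord r) (g := fun _ : ℂ => (0 : ℂ)) 0
              simpa using this
            rw [hfun, h3]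
            symm
            have hg : AnalyticAt ℂ (fun τ => (((∏ k, κ k : ℝ)) : ℂ)⁻¹ *
                hom S.nE (mb (fun j => conj (wE j)) wE i)
                (S.b (pt r) 0 + psi (μ r) (ρ r) τ * S.T (pt r) 0)
                (S.b (pt r) 1 + psi (μ r) (ρ r) τ * S.T (pt r) 1)) 0 := by
              have hpsi := analyticAt_psi (μ r) (ρ r)
              unfold hom
              refine analyticAt_const.fun_mul (Finset.analyticAt_fun_sum _ fun k _ => ?_)
              exact analyticAt_const.fun_mul (((analyticAt_const.fun_add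
                (hpsi.fun_mul analyticAt_const)).fun_pow _).fun_mul ((analyticAt_const.fun_add
                (hpsi.fun_mul analyticAt_const)).fun_pow _))
            exact row_E0 S (pt r) (t r) (fun i => (ht r i).lt) (ord r) hr _ hg u
          · rw [norm_zero]
            exact mul_nonneg hA0 hCp
    · -- a unit column
      have hsum3 : ∀ τ, ∑ d, FF (pt r) (e.symm d) (psi (μ r) (ρ r) τ) * WW d r'
          = lam * unitCol (pt r) (pt s.1) (ord s.1) (psi (μ r) (ρ r) τ) := by
        intro τ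
        rw [hsumc τ, hc, Fintype.sum_sum_type]
        have h2 : ∑ c : S.Col, FF (pt r) (Sum.inl c) (psi (μ r) (ρ r) τ) *
            WB (Sum.inl c) (Sum.inr s) = 0 :=
          Finset.sum_eq_zero fun c _ => by
            show _ * (Matrix.fromBlocks (S.W w wE (∏ k, κ k)) 0 0
              ((lam : ℂ) • (1 : Matrix Ex Ex ℂ))) (Sum.inl c) (Sum.inr s) = 0
            rw [Matrix.fromBlocks_apply₁₂, Matrix.zero_apply, mul_zero]
        rw [h2, zero_add, Finset.sum_eq_single s]
        · show unitCol (pt r) (pt s.1) (ord s.1) (psi (μ r) (ρ r) τ) *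
            (Matrix.fromBlocks (S.W w wE (∏ k, κ k)) 0 0
              ((lam : ℂ) • (1 : Matrix Ex Ex ℂ))) (Sum.inr s) (Sum.inr s) = _
          rw [Matrix.fromBlocks_apply₂₂, Matrix.smul_apply, Matrix.one_apply_eq, smul_eq_mul,
            mul_one, mul_comm]
        · intro s' _ hs'
          show _ * (Matrix.fromBlocks (S.W w wE (∏ k, κ k)) 0 0
              ((lam : ℂ) • (1 : Matrix Ex Ex ℂ))) (Sum.inr s') (Sum.inr s) = 0
          rw [Matrix.fromBlocks_apply₂₂, Matrix.smul_apply, Matrix.one_apply_ne hs', smul_zero,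
            mul_zero]
        · intro h; exact absurd (Finset.mem_univ _) h
      by_cases hps : pt r = pt s.1
      · set o := ord s.1 with ho
        have hon : o ≤ S.nE + S.nF - 1 := hord s.1
        refine ⟨fun τ => ((lam : ℂ) * ((τ * (ρ r : ℂ)⁻¹) ^ o *
          sl (μ r) (ρ r) τ ^ (S.nE + S.nF - 1 - o))) / ∏ i, den (t r i) τ, ?_, ?_, ?_⟩
        · refine diffCont_div (fun i => (ht r i).lt) fun τ => ?_
          refine analyticAt_const.fun_mul (AnalyticAt.fun_mul ?_ ((analyticAt_sl _ _ _).fun_pow _))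
          fun_prop
        · refine tc_congr ?_
          filter_upwards [eventually_sl (μ r) (ρ r)] with τ hs
          rw [hsum3 τ]
          unfold unitCol unitU psi
          rw [if_pos hps, div_pow]
          have h4 : sl (μ r) (ρ r) τ ^ (S.nE + S.nF - 1)
              = sl (μ r) (ρ r) τ ^ (S.nE + S.nF - 1 - o) * sl (μ r) (ρ r) τ ^ o := by
            rw [← pow_add]; congr 1; omega
          rw [h4]
          have h5 : sl (μ r) (ρ r) τ ^ o ≠ 0 := pow_ne_zero _ hs
          rw [div_eq_mul_inv τ]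
          field_simp
        · intro τ hτ
          refine le_trans ?_ (hlam r s.1 hps.symm)
          rw [norm_div, norm_mul, norm_mul, norm_pow, norm_pow, norm_mul, hτ, one_mul,
            Complex.norm_real, norm_inv, Complex.norm_real, Real.norm_of_nonneg hlam0.le,
            Real.norm_of_nonneg (hρ r).le, norm_prod, mul_div_assoc]
          refine mul_le_mul_of_nonneg_left ?_ hlam0.le
          have hsl : ‖sl (μ r) (ρ r) τ‖ ≤ 2 + |μ r| / ρ r := by
            unfold sl
            refine (norm_add₃_le).trans ?_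
            rw [norm_one, norm_mul, norm_pow, hτ, one_pow, mul_one, Complex.norm_real,
              Real.norm_eq_abs, abs_div, abs_of_pos (hρ r)]
            linarith
          have hden : ∏ i, (1 - ‖t r i‖) ^ 2 ≤ ∏ i, ‖den (t r i) τ‖ :=
            Finset.prod_le_prod (fun i _ => sq_nonneg _) fun i _ =>
              den_ge (ht r i).lt hτ.le
          have hden0 : 0 < ∏ i, (1 - ‖t r i‖) ^ 2 :=
            Finset.prod_pos fun i _ => by
              have : 0 < 1 - ‖t r i‖ := by linarith [(ht r i).lt]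
              positivity
          have hρi := hρ r
          refine div_le_div₀ (by positivity) ?_ hden0 hden
          exact mul_le_mul_of_nonneg_left (pow_le_pow_left₀ (norm_nonneg _) hsl _) (by positivity)
      · refine ⟨fun _ => 0, diffContOnCl_const, ?_, fun τ _ => ?_⟩
        · congr 1
          funext τ
          rw [hsum3 τ]
          unfold unitCol
          rw [if_neg hps, mul_zero, mul_zero]
        · rw [norm_zero]
          exact mul_nonneg hA0 hCp

end B10
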