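import Pool.Agent.Lib.B10.ArchDefs
import Pool.Agent.Lib.B10.ArchBar

/-!
# The archimedean bound: the sums over the nodes and the levels
-/

namespace B10.As

open Finset ComplexConjugate Ar

/-! ### Small terms -/

/-- terms of order `n log n` -/
def Sm (f : ℕ → ℝ) : Prop := ∃ K : ℝ, ∀ n : ℕ, 1 ≤ n → |f n| ≤ K * (n * Real.log (n + 2))

theorem log_ge_one (n : ℕ) (hn : 1 ≤ n) : 1 ≤ Real.log ((n : ℝ) + 2) := by
  have h1 : (1 : ℝ) ≤ n := by exact_mod_cast hn
  have h2 : Real.exp 1 ≤ (n : ℝ) + 2 := by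
    have := Real.exp_one_lt_d9
    linarith
  calc (1 : ℝ) = Real.log (Real.exp 1) := (Real.log_exp 1).symm
    _ ≤ _ := Real.log_le_log (Real.exp_pos 1) h2

theorem Sm.add {f g : ℕ → ℝ} (hf : Sm f) (hg : Sm g) : Sm fun n => f n + g n := by
  obtain ⟨K, hK⟩ := hf
  obtain ⟨L, hL⟩ := hg
  refine ⟨K + L, fun n hn => ?_⟩
  calc |f n + g n| ≤ |f n| + |g n| := abs_add_le _ _
    _ ≤ K * (n * Real.log (n + 2)) + L * (n * Real.log (n + 2)) := add_le_add (hK n hn) (hL n hn)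
    _ = _ := by ring

theorem Sm.mul {f : ℕ → ℝ} (hf : Sm f) (a : ℝ) : Sm fun n => a * f n := by
  obtain ⟨K, hK⟩ := hf
  refine ⟨|a| * K, fun n hn => ?_⟩
  rw [abs_mul, mul_assoc]
  exact mul_le_mul_of_nonneg_left (hK n hn) (abs_nonneg a)

theorem Sm.sub {f g : ℕ → ℝ} (hf : Sm f) (hg : Sm g) : Sm fun n => f n - g n := by
  have h := hf.add (hg.mul (-1))
  have e : (fun n => f n + -1 * g n) = fun n => f n - g n := by funext n; ring
  rwa [e] at h

theorem Sm.sum {α : Type*} (s : Finset α) {f : α → ℕ → ℝ} (hf : ∀ a ∈ s, Sm (f a)) :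
    Sm fun n => ∑ a ∈ s, f a n := by
  classical
  induction s using Finset.induction_on with
  | empty => exact ⟨0, fun n hn => by simp⟩
  | insert a s ha ih =>
    have h := (hf a (Finset.mem_insert_self a s)).add
      (ih fun b hb => hf b (Finset.mem_insert_of_mem hb))
    have e : (fun n => ∑ b ∈ insert a s, f b n) = fun n => f a n + ∑ b ∈ s, f b n := by
      funext n; rw [Finset.sum_insert ha]
    rw [e]; exact h

theorem Sm.lin (a : ℝ) : Sm fun n => a * n := by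
  refine ⟨|a|, fun n hn => ?_⟩
  have h1 := log_ge_one n hn
  have h2 : (0 : ℝ) ≤ n := Nat.cast_nonneg n
  rw [abs_mul, abs_of_nonneg h2]
  exact mul_le_mul_of_nonneg_left (le_mul_of_one_le_right h2 h1) (abs_nonneg a)

theorem Sm.const (a : ℝ) : Sm fun _ => a := by
  refine ⟨|a|, fun n hn => ?_⟩
  have h1 := log_ge_one n hn
  have h2 : (1 : ℝ) ≤ n := by exact_mod_cast hn
  have h3 : 1 ≤ (n : ℝ) * Real.log (n + 2) := by nlinarith
  exact le_mul_of_one_le_right (abs_nonneg a) h3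

theorem Sm.nlog (a b e : ℕ) : Sm fun n => ((a : ℝ) * n + b) * Real.log ((a : ℝ) * n + b + e) := by
  have hK : ∀ n : ℕ, 1 ≤ n → |((a : ℝ) * n + b) * Real.log ((a : ℝ) * n + b + e)|
      ≤ ((a : ℝ) + b) * (((a : ℝ) + b + e) + 1) * (n * Real.log (n + 2)) := by
    intro n hn
    have h1 := log_ge_one n hn
    have h2 : (1 : ℝ) ≤ n := by exact_mod_cast hn
    have ha : (0 : ℝ) ≤ a := Nat.cast_nonneg a
    have hb : (0 : ℝ) ≤ b := Nat.cast_nonneg b
    have he : (0 : ℝ) ≤ e := Nat.cast_nonneg e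
    have h3 : (a : ℝ) * n + b ≤ (a + b) * n := by nlinarith
    have h30 : 0 ≤ (a : ℝ) * n + b := by positivity
    have h4 : |Real.log ((a : ℝ) * n + b + e)| ≤ ((a : ℝ) + b + e + 1) * Real.log (n + 2) := by
      by_cases h0 : (a : ℝ) * n + b + e = 0
      · rw [h0, Real.log_zero, abs_zero]
        positivity
      · have hcast : (a : ℝ) * n + b + e = ((a * n + b + e : ℕ) : ℝ) := by push_cast; ring
        have h5 : 1 ≤ (a : ℝ) * n + b + e := by
          rw [hcast] at h0 ⊢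
          have : a * n + b + e ≠ 0 := by exact_mod_cast h0
          exact_mod_cast Nat.one_le_iff_ne_zero.mpr this
        rw [abs_of_nonneg (Real.log_nonneg h5)]
        have h6 : (a : ℝ) * n + b + e ≤ (a + b + e + 1) * (n + 2) := by nlinarith
        calc Real.log ((a : ℝ) * n + b + e) ≤ Real.log (((a : ℝ) + b + e + 1) * (n + 2)) :=
              Real.log_le_log (by linarith) h6
          _ = Real.log ((a : ℝ) + b + e + 1) + Real.log (n + 2) :=
              Real.log_mul (by positivity) (by positivity)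
          _ ≤ ((a : ℝ) + b + e) + Real.log (n + 2) := by
              have := Real.log_le_sub_one_of_pos (show 0 < (a : ℝ) + b + e + 1 by positivity)
              linarith
          _ ≤ _ := by nlinarith
    rw [abs_mul, abs_of_nonneg h30]
    calc ((a : ℝ) * n + b) * |Real.log ((a : ℝ) * n + b + e)|
        ≤ ((a + b) * n) * (((a : ℝ) + b + e + 1) * Real.log (n + 2)) :=
          mul_le_mul h3 h4 (abs_nonneg _) (by positivity)
      _ = _ := by ring
  exact ⟨_, hK⟩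

/-! ### The nodes -/

noncomputable def V (k : Fin 18) : ℝ := Real.log ‖W1 k‖

theorem W1_ne (k : Fin 18) : W1 k ≠ 0 := by
  intro h
  have h1 := congrArg Complex.re h
  have h2 := congrArg Complex.im h
  unfold W1 at h1 h2
  simp at h1 h2
  have h3 := im_pos k
  unfold im at h3
  rw [h1, h2] at h3
  simp at h3

theorem log_norm (z : ℂ) : Real.log ‖z‖ = Real.log (Complex.normSq z) / 2 := by
  rw [Complex.normSq_eq_norm_sq, Real.log_pow]
  push_cast
  ring

theorem lt_b (c : Fin 12) : B10.lt c = b c := by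
  revert c; decide

theorem tv_T (c : Fin 12) : tv c = T c := by
  revert c; decide

theorem bnode_eq (x : Fin 2 → ℤ) (k : Fin 18) : bnode (fun e => (x e : ℝ)) (nd k)
    = ((bz x (wr k) : ℂ) + (bz x (wi k) : ℂ) * Complex.I) / W1 k := by
  rw [eq_div_iff (W1_ne k)]
  have h : nd k * W1 k = W0 k := div_mul_cancel₀ _ (W1_ne k)
  unfold bnode
  calc (((x 0 : ℝ) : ℂ) - ((x 1 : ℝ) : ℂ) * nd k) * W1 k
      = (x 0 : ℂ) * W1 k - (x 1 : ℂ) * (nd k * W1 k) := by push_cast; ring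
    _ = _ := by
      rw [h]
      unfold W0 W1 bz
      push_cast
      ring

theorem log_bnode (c : Fin 12) (k : Fin 18) :
    Real.log ‖bnode (fun e => (B10.lt c e : ℝ)) (nd k)‖ = Real.log (nb c k) / 2 - V k := by
  have h0 := nb_pos c k
  have h1 : Complex.normSq ((bz (b c) (wr k) : ℂ) + (bz (b c) (wi k) : ℂ) * Complex.I)
      = (nb c k : ℝ) := by
    rw [Complex.normSq_apply]
    unfold nb
    simp
    ring
  rw [lt_b, bnode_eq, norm_div, Real.log_div, log_norm, h1]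
  · rfl
  · rw [Ne, norm_eq_zero]
    intro h
    rw [h, map_zero] at h1
    have : (0 : ℝ) < nb c k := by exact_mod_cast h0
    linarith
  · exact norm_ne_zero_iff.mpr (W1_ne k)

theorem bnode_pos (c : Fin 12) (k : Fin 18) :
    0 < ‖bnode (fun e => (B10.lt c e : ℝ)) (nd k)‖ := by
  have h0 := nb_pos c k
  have h1 : Complex.normSq ((bz (b c) (wr k) : ℂ) + (bz (b c) (wi k) : ℂ) * Complex.I)
      = (nb c k : ℝ) := by
    rw [Complex.normSq_apply]
    unfold nb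
    simp
    ring
  rw [lt_b, bnode_eq, norm_div]
  refine div_pos ?_ (norm_pos_iff.mpr (W1_ne k))
  rw [norm_pos_iff]
  intro h
  rw [h, map_zero] at h1
  have : (0 : ℝ) < nb c k := by exact_mod_cast h0
  linarith

theorem pair_eq (k l : Fin 18) : conj (nd k) - nd l
    = (((bz (wr k) (wr l) + bz (wi k) (wi l) : ℤ) : ℂ)
      - ((bz (wi k) (wr l) - bz (wr k) (wi l) : ℤ) : ℂ) * Complex.I) / (conj (W1 k) * W1 l) := by
  have hk : conj (W1 k) ≠ 0 := by
    rw [Ne, map_eq_zero]; exact W1_ne k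
  rw [eq_div_iff (mul_ne_zero hk (W1_ne l))]
  have h : nd l * W1 l = W0 l := div_mul_cancel₀ _ (W1_ne l)
  have h' : conj (nd k) * conj (W1 k) = conj (W0 k) := by
    rw [← map_mul]; exact congrArg _ (div_mul_cancel₀ _ (W1_ne k))
  calc (conj (nd k) - nd l) * (conj (W1 k) * W1 l)
      = (conj (nd k) * conj (W1 k)) * W1 l - conj (W1 k) * (nd l * W1 l) := by ring
    _ = _ := by
      rw [h, h']
      unfold W0 W1 bz
      simp only [map_add, map_mul, Complex.conj_I, map_intCast]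
      push_cast
      linear_combination (wi k 1 * wi l 0 - wi k 0 * wi l 1 : ℂ) * Complex.I_mul_I

theorem log_pair (k l : Fin 18) :
    Real.log ‖conj (nd k) - nd l‖ = Real.log (dd k l) / 2 - V k - V l := by
  have h0 := dd_pos k l
  have h1 : Complex.normSq (((bz (wr k) (wr l) + bz (wi k) (wi l) : ℤ) : ℂ)
      - ((bz (wi k) (wr l) - bz (wr k) (wi l) : ℤ) : ℂ) * Complex.I) = (dd k l : ℝ) := by
    rw [Complex.normSq_apply]
    unfold dd
    simp
    ring
  have h2 : (0 : ℝ) < dd k l := by exact_mod_cast h0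
  have hne : (((bz (wr k) (wr l) + bz (wi k) (wi l) : ℤ) : ℂ)
      - ((bz (wi k) (wr l) - bz (wr k) (wi l) : ℤ) : ℂ) * Complex.I) ≠ 0 := by
    intro h
    rw [h, map_zero] at h1
    linarith
  rw [pair_eq, norm_div, norm_mul, Complex.norm_conj, Real.log_div (norm_ne_zero_iff.mpr hne)
    (mul_ne_zero (norm_ne_zero_iff.mpr (W1_ne k)) (norm_ne_zero_iff.mpr (W1_ne l))),
    Real.log_mul (norm_ne_zero_iff.mpr (W1_ne k)) (norm_ne_zero_iff.mpr (W1_ne l)), log_norm, h1]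
  unfold V
  ring

theorem pair_pos (k l : Fin 18) : 0 < ‖conj (nd k) - nd l‖ := by
  have h0 := dd_pos k l
  have h1 : Complex.normSq (((bz (wr k) (wr l) + bz (wi k) (wi l) : ℤ) : ℂ)
      - ((bz (wi k) (wr l) - bz (wr k) (wi l) : ℤ) : ℂ) * Complex.I) = (dd k l : ℝ) := by
    rw [Complex.normSq_apply]
    unfold dd
    simp
    ring
  have h2 : (0 : ℝ) < dd k l := by exact_mod_cast h0
  rw [pair_eq, norm_pos_iff]
  refine div_ne_zero ?_ (mul_ne_zero ?_ (W1_ne l))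
  · intro h
    rw [h, map_zero] at h1
    linarith
  · rw [Ne, map_eq_zero]; exact W1_ne k

theorem nd_im (k : Fin 18) : (nd k).im = im k / ‖W1 k‖ ^ 2 := by
  unfold nd
  rw [Complex.div_im, Complex.normSq_eq_norm_sq]
  have h : (im k : ℝ) = (W0 k).im * (W1 k).re - (W0 k).re * (W1 k).im := by
    unfold im W0 W1
    simp
  rw [h]
  ring

theorem log_im (k : Fin 18) : Real.log |(nd k).im| = Real.log (im k) - 2 * V k := by
  have h0 : (0 : ℝ) < im k := by exact_mod_cast im_pos k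
  have h1 : 0 < ‖W1 k‖ := norm_pos_iff.mpr (W1_ne k)
  rw [nd_im, Real.log_abs, Real.log_div h0.ne' (by positivity), Real.log_pow]
  unfold V
  push_cast
  ring

theorem im_ne (k : Fin 18) : (nd k).im ≠ 0 := by
  have h0 : (0 : ℝ) < im k := by exact_mod_cast im_pos k
  have h1 : 0 < ‖W1 k‖ := norm_pos_iff.mpr (W1_ne k)
  rw [nd_im]
  positivity

/-! ### The list of the nodes -/

theorem cardE (n : ℕ) : Fintype.card (Σ _ : Fin 6, Fin (7 * n)) = 21 * (2 * n) := by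
  rw [Fintype.card_sigma]
  simp only [Fintype.card_fin, Finset.sum_const, Finset.card_univ, smul_eq_mul]
  ring

/-- the E nodes -/
noncomputable def kE (n : ℕ) (i : Fin (21 * (2 * n))) : Fin 18 :=
  Fin.castAdd 12 ((Fintype.equivFinOfCardEq (cardE n)).symm i).1

/-- the beta nodes -/
noncomputable def kF (n : ℕ) (i : Fin (36 * (2 * n))) : Fin 18 := Fin.natAdd 6 (cFm (2 * n) i)

/-- all nodes -/
noncomputable def ix (n : ℕ) : Fin (21 * (2 * n) + 36 * (2 * n)) → Fin 18 :=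
  Fin.append (kE n) (kF n)

theorem al_cast (a : Fin 6) : al (Fin.castAdd 12 a) = 7 := by
  revert a; decide

theorem al_nat (a : Fin 12) : al (Fin.natAdd 6 a) = FF a * 2 := by
  revert a; decide

theorem sumE0 (n : ℕ) (g : Fin 18 → ℝ) :
    ∑ i, g (kE n i) = n * ∑ a : Fin 6, (al (Fin.castAdd 12 a) : ℝ) * g (Fin.castAdd 12 a) := by
  unfold kE
  rw [Equiv.sum_comp (Fintype.equivFinOfCardEq (cardE n)).symm
    (fun s : Σ _ : Fin 6, Fin (7 * n) => g (Fin.castAdd 12 s.1)), Fintype.sum_sigma,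
    Finset.mul_sum]
  refine Finset.sum_congr rfl fun a _ => ?_
  show ∑ _y : Fin (7 * n), g (Fin.castAdd 12 a) = _
  rw [Finset.sum_const, Finset.card_univ, Fintype.card_fin, al_cast, nsmul_eq_mul]
  push_cast
  ring

theorem sum_cFm (m : ℕ) (g : Fin 12 → ℝ) : ∑ k, g (cFm m k) = ∑ a, (FF a * m : ℕ) * g a := by
  unfold cFm
  rw [Equiv.sum_comp (Fintype.equivFinOfCardEq (sum_FF m)).symm
    (fun s : Σ a : Fin 12, Fin (FF a * m) => g s.1), Fintype.sum_sigma]
  refine Finset.sum_congr rfl fun a _ => ?_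
  show ∑ _y : Fin (FF a * m), g a = _
  rw [Finset.sum_const, Finset.card_univ, Fintype.card_fin, nsmul_eq_mul]

theorem sumF0 (n : ℕ) (g : Fin 18 → ℝ) :
    ∑ i, g (kF n i) = n * ∑ a : Fin 12, (al (Fin.natAdd 6 a) : ℝ) * g (Fin.natAdd 6 a) := by
  unfold kF
  rw [sum_cFm (2 * n) (fun a => g (Fin.natAdd 6 a)), Finset.mul_sum]
  refine Finset.sum_congr rfl fun a _ => ?_
  rw [al_nat]
  push_cast
  ring

theorem sum18 (g : Fin 18 → ℝ) : ∑ k, g k
    = ∑ a : Fin 6, g (Fin.castAdd 12 a) + ∑ a : Fin 12, g (Fin.natAdd 6 a) :=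
  Fin.sum_univ_add (a := 6) (b := 12) g

theorem sumE (n : ℕ) (g : Fin 18 → ℝ) : ∑ i, g (kE n i) = n * ∑ k, (alE k : ℝ) * g k := by
  rw [sumE0, sum18 (fun k => (alE k : ℝ) * g k)]
  congr 1
  have h1 : ∀ a : Fin 12, alE (Fin.natAdd 6 a) = 0 := by decide
  have h2 : ∀ a : Fin 6, alE (Fin.castAdd 12 a) = al (Fin.castAdd 12 a) := by decide
  simp only [h1, h2]
  simp

theorem sumF (n : ℕ) (g : Fin 18 → ℝ) : ∑ i, g (kF n i) = n * ∑ k, (alF k : ℝ) * g k := by
  rw [sumF0, sum18 (fun k => (alF k : ℝ) * g k)]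
  congr 1
  have h1 : ∀ a : Fin 12, alF (Fin.natAdd 6 a) = al (Fin.natAdd 6 a) := by decide
  have h2 : ∀ a : Fin 6, alF (Fin.castAdd 12 a) = 0 := by decide
  simp only [h1, h2]
  simp

theorem sumA (n : ℕ) (g : Fin 18 → ℝ) : ∑ i, g (ix n i) = n * ∑ k, (al k : ℝ) * g k := by
  rw [Fin.sum_univ_add]
  have h1 : ∀ i, ix n (Fin.castAdd _ i) = kE n i := fun i => Fin.append_left _ _ i
  have h2 : ∀ i, ix n (Fin.natAdd _ i) = kF n i := fun i => Fin.append_right _ _ i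
  simp only [h1, h2]
  rw [sumE0, sumF0, sum18 (fun k => (al k : ℝ) * g k)]
  ring

theorem append_nd (n : ℕ) (i : Fin (21 * (2 * n) + 36 * (2 * n))) :
    Fin.append (fun i => nd (kE n i)) (fun i => nd (kF n i)) i = nd (ix n i) := by
  unfold ix
  refine Fin.addCases (fun i => ?_) (fun i => ?_) i
  · rw [Fin.append_left, Fin.append_left]
  · rw [Fin.append_right, Fin.append_right]

/-- sums over pairs -/
theorem sum_pairs {N : ℕ} (f : Fin N → Fin N → ℝ) (hf : ∀ i j, f i j = f j i) :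
    2 * (∑ i, ∑ j ∈ Ioi i, f i j) = ∑ i, ∑ j, f i j - ∑ i, f i i := by
  have h1 : ∀ i, ∑ j, f i j = ∑ j ∈ Ioi i, f i j + ∑ j ∈ Iio i, f i j + f i i := by
    intro i
    have e : (univ : Finset (Fin N)) = (Ioi i ∪ Iio i) ∪ {i} := by
      ext j
      simp only [mem_univ, mem_union, mem_Ioi, mem_Iio, mem_singleton, true_iff]
      rcases lt_trichotomy i j with h | h | h
      · exact Or.inl (Or.inl h)
      · exact Or.inr h.symm
      · exact Or.inl (Or.inr h)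
    rw [e, Finset.sum_union, Finset.sum_union, Finset.sum_singleton]
    · rw [Finset.disjoint_left]
      intro j h1 h2
      simp only [mem_Ioi, mem_Iio] at h1 h2
      exact absurd h1 (not_lt.mpr h2.le)
    · rw [Finset.disjoint_singleton_right]
      simp
  have h2 : ∑ i, ∑ j ∈ Iio i, f i j = ∑ i, ∑ j ∈ Ioi i, f i j := by
    rw [Finset.sum_comm' (t' := univ) (s' := fun i => Ioi i)]
    · refine Finset.sum_congr rfl fun i _ => Finset.sum_congr rfl fun j _ => hf _ _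
    · intro x y
      simp
  have h3 : ∑ i, ∑ j, f i j = ∑ i, ∑ j ∈ Ioi i, f i j + ∑ i, ∑ j ∈ Iio i, f i j + ∑ i, f i i := by
    rw [← Finset.sum_add_distrib, ← Finset.sum_add_distrib]
    exact Finset.sum_congr rfl fun i _ => h1 i
  rw [h3, h2]
  ring

/-- the logarithm of the product over the pairs -/
theorem log_pairs {N : ℕ} (h : Fin N → Fin 18) :
    2 * Real.log (∏ i, ∏ j ∈ Ioi i, ‖conj (nd (h i)) - nd (h j)‖)
      = ∑ i, ∑ j, Real.log ‖conj (nd (h i)) - nd (h j)‖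
        - ∑ i, Real.log ‖conj (nd (h i)) - nd (h i)‖ := by
  rw [Real.log_prod fun i _ => (Finset.prod_pos fun j _ => pair_pos _ _).ne']
  have h1 : ∀ i, Real.log (∏ j ∈ Ioi i, ‖conj (nd (h i)) - nd (h j)‖)
      = ∑ j ∈ Ioi i, Real.log ‖conj (nd (h i)) - nd (h j)‖ := fun i =>
    Real.log_prod fun j _ => (pair_pos _ _).ne'
  simp only [h1]
  rw [sum_pairs (fun i j => Real.log ‖conj (nd (h i)) - nd (h j)‖)]
  intro i j
  have : ‖conj (nd (h i)) - nd (h j)‖ = ‖conj (nd (h j)) - nd (h i)‖ := by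
    rw [← Complex.norm_conj, map_sub, Complex.conj_conj, norm_sub_rev]
  rw [this]

/-! ### The levels -/

/-- the level of a row -/
def lev (z : Fin 12) (n i : ℕ) : Fin 4 :=
  if i < thr (ty z) 0 * n then 0 else if i < thr (ty z) 1 * n then 1 else
    if i < thr (ty z) 2 * n then 2 else 3

theorem sum_lev (z : Fin 12) (n c : ℕ) (F : Fin 4 → ℕ → ℝ) :
    ∑ i ∈ range (thr (ty z) 3 * n + c), F (lev z n i) i
      = ∑ v, ∑ i ∈ Ico (thr0 (ty z) v * n) (thr (ty z) v * n), F v i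
        + ∑ i ∈ Ico (thr (ty z) 3 * n) (thr (ty z) 3 * n + c), F 3 i := by
  have g : ∀ t : Fin 3, thr0 t 0 = 0 ∧ thr0 t 1 = thr t 0 ∧ thr0 t 2 = thr t 1 ∧
      thr0 t 3 = thr t 2 ∧ thr t 0 ≤ thr t 1 ∧ thr t 1 ≤ thr t 2 ∧ thr t 2 ≤ thr t 3 := by
    decide
  obtain ⟨g0, g1, g2, g3, l1, l2, l3⟩ := g (ty z)
  have m1 := Nat.mul_le_mul_right n l1
  have m2 := Nat.mul_le_mul_right n l2
  have m3 := Nat.mul_le_mul_right n l3
  rw [Fin.sum_univ_four, g0, g1, g2, g3, zero_mul, Finset.range_eq_Ico]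
  rw [← Finset.sum_Ico_consecutive _ (Nat.zero_le (thr (ty z) 0 * n)) (by omega),
    ← Finset.sum_Ico_consecutive _ m1 (by omega : thr (ty z) 1 * n ≤ thr (ty z) 3 * n + c),
    ← Finset.sum_Ico_consecutive _ m2 (by omega : thr (ty z) 2 * n ≤ thr (ty z) 3 * n + c),
    ← Finset.sum_Ico_consecutive _ m3 (by omega : thr (ty z) 3 * n ≤ thr (ty z) 3 * n + c)]
  have e0 : ∑ i ∈ Ico 0 (thr (ty z) 0 * n), F (lev z n i) i
      = ∑ i ∈ Ico 0 (thr (ty z) 0 * n), F 0 i := by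
    refine Finset.sum_congr rfl fun i hi => ?_
    rw [Finset.mem_Ico] at hi
    unfold lev
    rw [if_pos hi.2]
  have e1 : ∑ i ∈ Ico (thr (ty z) 0 * n) (thr (ty z) 1 * n), F (lev z n i) i
      = ∑ i ∈ Ico (thr (ty z) 0 * n) (thr (ty z) 1 * n), F 1 i := by
    refine Finset.sum_congr rfl fun i hi => ?_
    rw [Finset.mem_Ico] at hi
    unfold lev
    rw [if_neg (not_lt.mpr hi.1), if_pos hi.2]
  have e2 : ∑ i ∈ Ico (thr (ty z) 1 * n) (thr (ty z) 2 * n), F (lev z n i) i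
      = ∑ i ∈ Ico (thr (ty z) 1 * n) (thr (ty z) 2 * n), F 2 i := by
    refine Finset.sum_congr rfl fun i hi => ?_
    rw [Finset.mem_Ico] at hi
    unfold lev
    rw [if_neg (by omega), if_neg (by omega), if_pos hi.2]
  have e3 : ∀ a b : ℕ, thr (ty z) 2 * n ≤ a → ∑ i ∈ Ico a b, F (lev z n i) i
      = ∑ i ∈ Ico a b, F 3 i := by
    intro a b hab
    refine Finset.sum_congr rfl fun i hi => ?_
    rw [Finset.mem_Ico] at hi
    unfold lev
    rw [if_neg (by omega), if_neg (by omega), if_neg (by omega)]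
  rw [e0, e1, e2, e3 _ _ le_rfl, e3 _ _ m3]
  ring

theorem LL_thr (z : Fin 12) (n : ℕ) : LL z * (2 * n) = thr (ty z) 3 * n := by
  have h : ∀ z, LL z * 2 = thr (ty z) 3 := by decide
  rw [← h z]
  ring

/-- sums over the rows -/
theorem sum_rows (n c : ℕ) (F : Fin 12 → Fin 4 → ℕ → ℝ) :
    ∑ r : Row (2 * n) c, F r.1 (lev r.1 n r.2) r.2
      = ∑ z, (∑ v, ∑ i ∈ Ico (thr0 (ty z) v * n) (thr (ty z) v * n), F z v i
        + ∑ i ∈ Ico (thr (ty z) 3 * n) (thr (ty z) 3 * n + c), F z 3 i) := by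
  rw [Fintype.sum_sigma]
  refine Finset.sum_congr rfl fun z _ => ?_
  rw [← sum_lev z n c (F z), ← LL_thr]
  exact Fin.sum_univ_eq_sum_range (fun i => F z (lev z n i) i) (LL z * (2 * n) + c)

theorem sum_Ico_id (a b : ℕ) (hab : a ≤ b) :
    ∑ i ∈ Ico a b, (i : ℝ) = ((b : ℝ) ^ 2 - (a : ℝ) ^ 2) / 2 - ((b : ℝ) - a) / 2 := by
  induction b, hab using Nat.le_induction with
  | base => simp
  | succ b hb ih =>
    rw [Finset.sum_Ico_succ_top hb, ih]
    push_cast
    ring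

/-! ### The logarithm of the inequality -/

theorem log_le {D P κ PE lam ρ F RR : ℝ} {nE e : ℕ} (hD : 0 < D) (hP : 0 < P) (hκ : 0 < κ)
    (hPE : 0 < PE) (hlam : 0 < lam) (hρ : 0 < ρ) (hF : 0 < F) (hRR : 0 < RR)
    (h : D * (P ^ 2 * ((κ⁻¹) ^ nE * PE) ^ 3) * lam ^ e * ρ ≤ F * RR) :
    Real.log D ≤ Real.log F + Real.log RR - Real.log ρ - e * Real.log lam - 2 * Real.log P
      - 3 * Real.log PE + 3 * (nE * Real.log κ) := by
  have h1 := Real.log_le_log (by positivity) h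
  rw [Real.log_mul hF.ne' hRR.ne', Real.log_mul (by positivity) hρ.ne',
    Real.log_mul (by positivity) (by positivity), Real.log_mul hD.ne' (by positivity),
    Real.log_mul (by positivity) (by positivity), Real.log_pow, Real.log_pow, Real.log_pow,
    Real.log_mul (by positivity) hPE.ne', Real.log_pow, Real.log_inv] at h1
  push_cast at h1
  linarith

theorem le_sum3 {α β γ : Type} [Fintype α] [Fintype β] [Fintype γ] (f : α → β → γ → ℝ)
    (hf : ∀ a b c, 0 ≤ f a b c) (a : α) (b : β) (c : γ) : f a b c ≤ ∑ a, ∑ b, ∑ c, f a b c := by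
  calc f a b c ≤ ∑ c, f a b c :=
        Finset.single_le_sum (fun c _ => hf a b c) (Finset.mem_univ c)
    _ ≤ ∑ b, ∑ c, f a b c := Finset.single_le_sum (f := fun b => ∑ c, f a b c)
        (fun b _ => Finset.sum_nonneg fun c _ => hf a b c) (Finset.mem_univ b)
    _ ≤ _ := Finset.single_le_sum (f := fun a => ∑ b, ∑ c, f a b c)
        (fun a _ => Finset.sum_nonneg fun b _ => Finset.sum_nonneg fun c _ => hf a b c)
        (Finset.mem_univ a)

theorem card_Row (n c : ℕ) : Fintype.card (Row (2 * n) c) = 177 * (2 * n) + 12 * c := by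
  rw [Fintype.card_sigma]
  simp only [Fintype.card_fin]
  rw [Finset.sum_add_distrib, ← Finset.sum_mul]
  have h : ∑ i, LL i = 177 := by decide
  rw [h]
  simp

/-- the product over the pairs of a list -/
noncomputable def PP {N : ℕ} (h : Fin N → Fin 18) : ℝ :=
  ∏ i, ∏ j ∈ Ioi i, ‖conj (nd (h i)) - nd (h j)‖

theorem PP_pos {N : ℕ} (h : Fin N → Fin 18) : 0 < PP h :=
  Finset.prod_pos fun _ _ => Finset.prod_pos fun _ _ => pair_pos _ _

/-- the `kappa` of a beta node -/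
noncomputable def kap (k : Fin 18) : ℝ :=
  ‖bnode (fun e => (B10.lt (Ar.lt k) e : ℝ)) (nd k)‖ / |(nd k).im|

theorem kap_pos (k : Fin 18) : 0 < kap k :=
  div_pos (bnode_pos _ _) (abs_pos.mpr (im_ne k))

theorem lt_kF (n : ℕ) (i : Fin (36 * (2 * n))) : Ar.lt (kF n i) = cFm (2 * n) i := by
  have h : ∀ a : Fin 12, Ar.lt (Fin.natAdd 6 a) = a := by decide
  exact h _

theorem arch_log (t : Fin 12 → Fin 4 → Fin 18 → ℂ)
    (ht : ∀ c v k, Root (mu c : ℝ) (rho (ty c) v : ℝ) (bnode (fun e => (b c e : ℝ)) (nd k))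
      (bnode (fun e => (T c e : ℝ)) (nd k)) (t c v k)) :
    ∃ C K : ℝ, 1 ≤ C ∧ 1 ≤ K ∧ ∀ (n c0 : ℕ), 1 ≤ n → c0 < 54 * n →
      ∀ x : Col (2 * n) → Row (2 * n) c0, Function.Injective x → Dx x ≠ 0 →
      Real.log |((Dx x : ℚ) : ℝ)| ≤
        Real.log ((Fintype.card (Row (2 * n) c0)).factorial : ℝ)
        + ∑ r : Row (2 * n) c0, (Real.log (40000 * ((2 * n : ℕ) : ℝ)) + (Real.log C
          + ∑ i, (Real.log ‖bnode (fun e => (B10.lt r.1 e : ℝ)) (nd (ix n i))‖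
            - Real.log ‖t r.1 (lev r.1 n r.2) (ix n i)‖)))
        + ∑ r : Row (2 * n) c0, (r.2 : ℝ) * Real.log (rho (ty r.1) (lev r.1 n r.2))
        + ((12 * c0 : ℕ) : ℝ) * (((3 * (57 * (2 * n)) : ℕ) : ℝ) * Real.log K)
        - 2 * Real.log (PP (ix n)) - 3 * Real.log (PP (kE n))
        + 3 * (((21 * (2 * n) : ℕ) : ℝ) * ∑ i, Real.log (kap (kF n i))) := by
  have htpos : ∀ c v k, 0 < ‖t c v k‖ := fun c v k => norm_pos_iff.mpr (ht c v k).ne
  have htlt : ∀ c v k, 0 < 1 - ‖t c v k‖ := fun c v k => by have := (ht c v k).lt; linarith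
  have hbp : ∀ c k, 0 < ‖bnode (fun e => (B10.lt c e : ℝ)) (nd k)‖ := bnode_pos
  have hrp : ∀ c v, (0 : ℝ) < (rho (ty c) v : ℝ) := fun c v => by
    exact_mod_cast rho_pos (ty c) v
  obtain ⟨C, hC1, hC⟩ : ∃ C : ℝ, 1 ≤ C ∧ ∀ c v k, ‖t c v k‖ ≤
      C * ‖bnode (fun e => (B10.lt c e : ℝ)) (nd k)‖ * (1 - ‖t c v k‖) ^ 2 := by
    have h0 : ∀ c v k, 0 ≤ ‖t c v k‖ /
        (‖bnode (fun e => (B10.lt c e : ℝ)) (nd k)‖ * (1 - ‖t c v k‖) ^ 2) := fun c v k => by
      have := htlt c v k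
      positivity
    refine ⟨1 + ∑ c, ∑ v, ∑ k, ‖t c v k‖ /
        (‖bnode (fun e => (B10.lt c e : ℝ)) (nd k)‖ * (1 - ‖t c v k‖) ^ 2), ?_, ?_⟩
    · have : 0 ≤ ∑ c, ∑ v, ∑ k, ‖t c v k‖ /
        (‖bnode (fun e => (B10.lt c e : ℝ)) (nd k)‖ * (1 - ‖t c v k‖) ^ 2) :=
        Finset.sum_nonneg fun c _ => Finset.sum_nonneg fun v _ =>
          Finset.sum_nonneg fun k _ => h0 c v k
      linarith
    · intro c v k
      have h1 := le_sum3 _ h0 c v k
      have h2 : 0 < ‖bnode (fun e => (B10.lt c e : ℝ)) (nd k)‖ * (1 - ‖t c v k‖) ^ 2 := by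
        have := htlt c v k
        have := hbp c k
        positivity
      rw [mul_assoc, ← div_le_iff₀ h2]
      linarith
  obtain ⟨K, hK1, hK2⟩ : ∃ K : ℝ, 1 ≤ K ∧ ∀ c v k, (rho (ty c) v : ℝ)⁻¹ ≤ K ∧
      2 + |(mu c : ℝ)| / (rho (ty c) v : ℝ) ≤ K ∧ ((1 - ‖t c v k‖) ^ 2)⁻¹ ≤ K ∧
      ‖t c v k‖ / ‖bnode (fun e => (B10.lt c e : ℝ)) (nd k)‖ ≤ K := by
    have h0 : ∀ (c : Fin 12) (v : Fin 4) (k : Fin 18), 0 ≤ (rho (ty c) v : ℝ)⁻¹ +
        (2 + |(mu c : ℝ)| / (rho (ty c) v : ℝ)) + ((1 - ‖t c v k‖) ^ 2)⁻¹ +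
        ‖t c v k‖ / ‖bnode (fun e => (B10.lt c e : ℝ)) (nd k)‖ := fun c v k => by
      have h1 := htlt c v k
      have h2 := hrp c v
      positivity
    refine ⟨1 + ∑ c, ∑ v, ∑ k, ((rho (ty c) v : ℝ)⁻¹ +
        (2 + |(mu c : ℝ)| / (rho (ty c) v : ℝ)) + ((1 - ‖t c v k‖) ^ 2)⁻¹ +
        ‖t c v k‖ / ‖bnode (fun e => (B10.lt c e : ℝ)) (nd k)‖), ?_, ?_⟩
    · have : 0 ≤ ∑ c, ∑ v, ∑ k, ((rho (ty c) v : ℝ)⁻¹ +
        (2 + |(mu c : ℝ)| / (rho (ty c) v : ℝ)) + ((1 - ‖t c v k‖) ^ 2)⁻¹ +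
        ‖t c v k‖ / ‖bnode (fun e => (B10.lt c e : ℝ)) (nd k)‖) :=
        Finset.sum_nonneg fun c _ => Finset.sum_nonneg fun v _ =>
          Finset.sum_nonneg fun k _ => h0 c v k
      linarith
    · intro c v k
      have h1 := le_sum3 _ h0 c v k
      have h2 := hrp c v
      have a1 : 0 < (rho (ty c) v : ℝ)⁻¹ := inv_pos.mpr h2
      have a2 : 0 ≤ |(mu c : ℝ)| / (rho (ty c) v : ℝ) := by positivity
      have a3 : 0 < ((1 - ‖t c v k‖) ^ 2)⁻¹ := by
        have := htlt c v k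
        positivity
      have a4 : 0 ≤ ‖t c v k‖ / ‖bnode (fun e => (B10.lt c e : ℝ)) (nd k)‖ := by positivity
      refine ⟨by linarith, by linarith, by linarith, by linarith⟩
  refine ⟨C, K, hC1, hK1, fun n c0 hn hc0 x hx hD => ?_⟩
  have hKp : 0 < K := by linarith
  have hap : Fin.append (fun i => nd (kE n i)) (fun i => nd (kF n i)) = fun i => nd (ix n i) :=
    funext (append_nd n)
  have hnr : (1 : ℝ) ≤ ((2 * n : ℕ) : ℝ) := by
    have : (1 : ℝ) ≤ n := by exact_mod_cast hn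
    push_cast
    linarith
  have key := arch_Dx (m := 2 * n) (c := c0) (by omega) x hx (fun i => nd (kE n i))
    (fun i => nd (kF n i)) (fun k => im_ne _) (fun k => kap (kF n k)) (fun k => kap_pos _)
    (fun k => by
      unfold kap
      rw [lt_kF])
    (fun r => (mu r.1 : ℝ)) (fun r => (rho (ty r.1) (lev r.1 n r.2) : ℝ))
    (fun r => hrp _ _) (fun r i => t r.1 (lev r.1 n r.2) (ix n i))
    (fun r i => by
      rw [hap, lt_b, tv_T]
      exact ht _ _ _)
    (fun r a ha => by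
      have h1 := slit r.1 (lev r.1 n r.2) a ha
      have h2 := bz_ne r.1 a ha
      have e1 : (br (tv r.1) (B10.lt a) : ℝ) = (bz (T r.1) (b a) : ℝ) := by
        rw [tv_T, lt_b]; rfl
      have e2 : (br (B10.lt r.1) (B10.lt a) : ℝ) = (bz (b r.1) (b a) : ℝ) := by
        rw [lt_b, lt_b]; rfl
      rw [e1, e2]
      have h3 : ((bz (b r.1) (b a) : ℤ) : ℝ) ≠ 0 := by exact_mod_cast h2
      have h4 : |(mu r.1 : ℝ) * (bz (b r.1) (b a) : ℝ) + (bz (T r.1) (b a) : ℝ)|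
          ≤ 2 * (rho (ty r.1) (lev r.1 n r.2) : ℝ) * |((bz (b r.1) (b a) : ℤ) : ℝ)| := by
        exact_mod_cast h1
      have h5 : (mu r.1 : ℝ) + (bz (T r.1) (b a) : ℝ) / (bz (b r.1) (b a) : ℝ)
          = ((mu r.1 : ℝ) * (bz (b r.1) (b a) : ℝ) + (bz (T r.1) (b a) : ℝ)) /
            (bz (b r.1) (b a) : ℝ) := by
        field_simp
      rw [h5, abs_div, div_le_iff₀ (abs_pos.mpr h3)]
      exact h4)
    C (by linarith)
    (fun r i => by
      rw [hap]
      exact hC _ _ _)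
    ((K ^ (3 * (57 * (2 * n))))⁻¹) (by positivity)
    (fun r j hj => by
      have hj1 : j ≤ 57 * (2 * n) - 1 := by
        have h1 : ∀ z, LL z ≤ 30 := by decide
        have h2 : LL r.1 * (2 * n) ≤ 30 * (2 * n) := Nat.mul_le_mul_right _ (h1 r.1)
        omega
      have hNn : 21 * (2 * n) + 36 * (2 * n) = 57 * (2 * n) := by ring
      have hrr := hrp r.1 (lev r.1 n r.2)
      have b1 : ((rho (ty r.1) (lev r.1 n r.2) : ℝ)⁻¹) ^ j ≤ K ^ j :=
        pow_le_pow_left₀ (inv_nonneg.mpr hrr.le) (hK2 r.1 (lev r.1 n r.2) 0).1 j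
      have b2 : (2 + |(mu r.1 : ℝ)| / (rho (ty r.1) (lev r.1 n r.2) : ℝ)) ^ (57 * (2 * n) - 1 - j)
          ≤ K ^ (57 * (2 * n) - 1 - j) :=
        pow_le_pow_left₀ (by positivity) (hK2 r.1 (lev r.1 n r.2) 0).2.1 _
      have b3 : (∏ i : Fin (21 * (2 * n) + 36 * (2 * n)),
          (1 - ‖t r.1 (lev r.1 n r.2) (ix n i)‖) ^ 2)⁻¹ ≤ K ^ (57 * (2 * n)) := by
        rw [← Finset.prod_inv_distrib]
        calc ∏ i : Fin (21 * (2 * n) + 36 * (2 * n)),
            ((1 - ‖t r.1 (lev r.1 n r.2) (ix n i)‖) ^ 2)⁻¹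
            ≤ ∏ _i : Fin (21 * (2 * n) + 36 * (2 * n)), K := by
              refine Finset.prod_le_prod (fun i _ => by positivity) fun i _ => ?_
              exact (hK2 r.1 (lev r.1 n r.2) (ix n i)).2.2.1
          _ = K ^ (57 * (2 * n)) := by
              rw [Finset.prod_const, Finset.card_univ, Fintype.card_fin, hNn]
      have b4 : (K ^ (57 * (2 * n)))⁻¹ ≤ ∏ i : Fin (21 * (2 * n) + 36 * (2 * n)),
          (‖bnode (fun e => (B10.lt r.1 e : ℝ)) (nd (ix n i))‖ /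
            ‖t r.1 (lev r.1 n r.2) (ix n i)‖) := by
        rw [← inv_pow]
        calc (K⁻¹) ^ (57 * (2 * n)) = ∏ _i : Fin (21 * (2 * n) + 36 * (2 * n)), K⁻¹ := by
              rw [Finset.prod_const, Finset.card_univ, Fintype.card_fin, hNn]
          _ ≤ _ := by
              refine Finset.prod_le_prod (fun i _ => by positivity) fun i _ => ?_
              have h1 := (hK2 r.1 (lev r.1 n r.2) (ix n i)).2.2.2
              have h2 := htpos r.1 (lev r.1 n r.2) (ix n i)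
              have h3 := hbp r.1 (ix n i)
              rw [← inv_div]
              exact inv_anti₀ (by positivity) h1
      have b4' : (K ^ (57 * (2 * n)))⁻¹ ≤ ∏ i : Fin (21 * (2 * n) + 36 * (2 * n)),
          (‖bnode (fun e => (B10.lt r.1 e : ℝ))
            (Fin.append (fun i => nd (kE n i)) (fun i => nd (kF n i)) i)‖ /
            ‖t r.1 (lev r.1 n r.2) (ix n i)‖) := by
        rw [hap]
        exact b4
      have b5 : K ^ j * K ^ (57 * (2 * n) - 1 - j) ≤ K ^ (57 * (2 * n)) := by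
        rw [← pow_add]
        exact pow_le_pow_right₀ hK1 (by omega)
      have b6 : ((rho (ty r.1) (lev r.1 n r.2) : ℝ)⁻¹) ^ j *
          (2 + |(mu r.1 : ℝ)| / (rho (ty r.1) (lev r.1 n r.2) : ℝ)) ^ (57 * (2 * n) - 1 - j) /
          (∏ i : Fin (21 * (2 * n) + 36 * (2 * n)),
            (1 - ‖t r.1 (lev r.1 n r.2) (ix n i)‖) ^ 2)
          ≤ K ^ (57 * (2 * n)) * K ^ (57 * (2 * n)) := by
        rw [div_eq_mul_inv]
        refine mul_le_mul (le_trans (mul_le_mul b1 b2 (by positivity) (by positivity)) b5) b3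
          (inv_nonneg.mpr (Finset.prod_nonneg fun i _ => sq_nonneg _)) (by positivity)
      have b7 : (K ^ (3 * (57 * (2 * n))))⁻¹ * (K ^ (57 * (2 * n)) * K ^ (57 * (2 * n)))
          = (K ^ (57 * (2 * n)))⁻¹ := by
        rw [pow_mul' K 3]
        have : K ^ (57 * (2 * n)) ≠ 0 := by positivity
        field_simp
      have hone : 1 ≤ 40000 * ((2 * n : ℕ) : ℝ) * C := by nlinarith
      calc (K ^ (3 * (57 * (2 * n))))⁻¹ * (((rho (ty r.1) (lev r.1 n r.2) : ℝ)⁻¹) ^ j *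
          (2 + |(mu r.1 : ℝ)| / (rho (ty r.1) (lev r.1 n r.2) : ℝ)) ^ (57 * (2 * n) - 1 - j) /
          (∏ i : Fin (21 * (2 * n) + 36 * (2 * n)),
            (1 - ‖t r.1 (lev r.1 n r.2) (ix n i)‖) ^ 2))
          ≤ (K ^ (3 * (57 * (2 * n))))⁻¹ * (K ^ (57 * (2 * n)) * K ^ (57 * (2 * n))) :=
            mul_le_mul_of_nonneg_left b6 (by positivity)
        _ = (K ^ (57 * (2 * n)))⁻¹ := b7
        _ ≤ _ := b4'
        _ ≤ 40000 * ((2 * n : ℕ) : ℝ) * C * _ :=
            le_mul_of_one_le_left (le_trans (by positivity) b4') hone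
        _ = _ := by ring)
  rw [hap] at key
  have hDp : 0 < |((Dx x : ℚ) : ℝ)| := abs_pos.mpr (by exact_mod_cast hD)
  have hprod : ∀ r : Row (2 * n) c0, 0 < ∏ j, (‖bnode (fun e => (B10.lt r.1 e : ℝ)) (nd (ix n j))‖ /
      ‖t r.1 (lev r.1 n r.2) (ix n j)‖) := fun r =>
    Finset.prod_pos fun j _ => div_pos (hbp _ _) (htpos _ _ _)
  have h40 : 0 < 40000 * ((2 * n : ℕ) : ℝ) := by linarith
  have h1 := log_le hDp (PP_pos (ix n)) (Finset.prod_pos fun k _ => kap_pos (kF n k))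
    (PP_pos (kE n)) (inv_pos.mpr (pow_pos hKp (3 * (57 * (2 * n)))))
    (Finset.prod_pos fun r _ => pow_pos (inv_pos.mpr (hrp r.1 (lev r.1 n r.2))) _)
    (Nat.cast_pos.mpr (Nat.factorial_pos _))
    (Finset.prod_pos fun r _ => mul_pos h40 (mul_pos (by linarith) (hprod r))) key
  rw [Real.log_prod (fun r _ => (mul_pos h40 (mul_pos (by linarith) (hprod r))).ne'),
    Real.log_prod (fun r _ => (pow_pos (inv_pos.mpr (hrp r.1 (lev r.1 n r.2))) _).ne'),
    Real.log_prod (fun k _ => (kap_pos (kF n k)).ne'), Real.log_inv, Real.log_pow] at h1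
  have h2 : ∀ r : Row (2 * n) c0, Real.log (40000 * ((2 * n : ℕ) : ℝ) * (C *
      ∏ j, (‖bnode (fun e => (B10.lt r.1 e : ℝ)) (nd (ix n j))‖ /
        ‖t r.1 (lev r.1 n r.2) (ix n j)‖))) =
      Real.log (40000 * ((2 * n : ℕ) : ℝ)) + (Real.log C
        + ∑ i, (Real.log ‖bnode (fun e => (B10.lt r.1 e : ℝ)) (nd (ix n i))‖
            - Real.log ‖t r.1 (lev r.1 n r.2) (ix n i)‖)) := by
    intro r
    rw [Real.log_mul h40.ne' (mul_pos (by linarith) (hprod r)).ne',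
      Real.log_mul (by linarith : C ≠ 0) (hprod r).ne',
      Real.log_prod (fun j _ => (div_pos (hbp _ _) (htpos _ _ _)).ne')]
    congr 2
    exact Finset.sum_congr rfl fun j _ => Real.log_div (hbp _ _).ne' (htpos _ _ _).ne'
  have h3 : ∀ r : Row (2 * n) c0, Real.log ((rho (ty r.1) (lev r.1 n r.2) : ℝ)⁻¹ ^ (r.2 : ℕ))
      = -((r.2 : ℝ) * Real.log (rho (ty r.1) (lev r.1 n r.2))) := by
    intro r
    rw [Real.log_pow, Real.log_inv]
    ring
  have h4 : Fintype.card (Row (2 * n) c0) - 177 * (2 * n) = 12 * c0 := by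
    rw [card_Row]; omega
  simp only [h2, h3, Finset.sum_neg_distrib] at h1
  rw [h4] at h1
  linarith

/-! ### The asymptotics -/

theorem sum_thr : ∑ c : Fin 12, ∑ v : Fin 4, ((thr (ty c) v : ℝ) - (thr0 (ty c) v : ℝ)) = 354 := by
  have h : ∑ c : Fin 12, ∑ v : Fin 4, ((thr (ty c) v : ℤ) - (thr0 (ty c) v : ℤ)) = 354 := by
    decide
  exact_mod_cast h

theorem thr_le (c : Fin 12) (v : Fin 4) : thr0 (ty c) v ≤ thr (ty c) v := by
  revert c v; decide

theorem sum_al : ∑ k, (al k : ℝ) = 114 := by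
  have h : ∑ k, al k = 114 := by decide
  exact_mod_cast h

theorem sum_alE : ∑ k, (alE k : ℝ) = 42 := by
  have h : ∑ k, alE k = 42 := by decide
  exact_mod_cast h

theorem al_split (k : Fin 18) : (al k : ℝ) = alE k + alF k := by
  have h : ∀ k, al k = alE k + alF k := by decide
  exact_mod_cast h k

theorem sum_ld (w : Fin 18 → ℝ) : ∑ k, ∑ l, w k * (w l * (Real.log (dd k l) / 2 - V k - V l))
    = 1 / 2 * (∑ k, ∑ l, w k * w l * Real.log (dd k l)) - 2 * ((∑ k, w k) * ∑ k, w k * V k) := by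
  have h1 : (∑ k, w k) * ∑ k, w k * V k = ∑ k, ∑ l, w k * (w l * V l) :=
    Finset.sum_mul_sum _ _ _ _
  have h2 : (∑ k, w k) * ∑ k, w k * V k = ∑ k, ∑ l, (w k * V k) * w l := by
    rw [mul_comm]; exact Finset.sum_mul_sum _ _ _ _
  have h3 : 2 * ((∑ k, w k) * ∑ k, w k * V k)
      = ∑ k, ∑ l, w k * (w l * V l) + ∑ k, ∑ l, (w k * V k) * w l := by
    rw [← h1, ← h2]; ring
  rw [h3, Finset.mul_sum, ← Finset.sum_add_distrib, ← Finset.sum_sub_distrib]
  refine Finset.sum_congr rfl fun k _ => ?_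
  rw [Finset.mul_sum, ← Finset.sum_add_distrib, ← Finset.sum_sub_distrib]
  exact Finset.sum_congr rfl fun l _ => by ring

theorem log_PP {N : ℕ} (h : Fin N → Fin 18) (w : Fin 18 → ℝ) (n : ℕ)
    (hs : ∀ g : Fin 18 → ℝ, ∑ i, g (h i) = n * ∑ k, w k * g k) :
    2 * Real.log (PP h) = n ^ 2 * (∑ k, ∑ l, w k * (w l * (Real.log (dd k l) / 2 - V k - V l)))
      - n * ∑ k, w k * (Real.log (dd k k) / 2 - V k - V k) := by
  unfold PP
  rw [log_pairs h]
  simp only [log_pair]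
  rw [hs (fun k => Real.log (dd k k) / 2 - V k - V k)]
  congr 1
  have h1 : ∀ i, ∑ j, (Real.log (dd (h i) (h j)) / 2 - V (h i) - V (h j))
      = n * ∑ l, w l * (Real.log (dd (h i) l) / 2 - V (h i) - V l) := fun i =>
    hs (fun l => Real.log (dd (h i) l) / 2 - V (h i) - V l)
  simp only [h1]
  rw [hs (fun k => n * ∑ l, w l * (Real.log (dd k l) / 2 - V k - V l)), sq, mul_assoc]
  congr 1
  rw [Finset.mul_sum]
  refine Finset.sum_congr rfl fun k _ => ?_
  rw [mul_left_comm, Finset.mul_sum]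

theorem log_kap (k : Fin 18) :
    Real.log (kap k) = (Real.log (nb (Ar.lt k) k) / 2 - Real.log (im k)) + V k := by
  unfold kap
  rw [Real.log_div (bnode_pos _ _).ne' (abs_pos.mpr (im_ne k)).ne', log_bnode, log_im]
  ring

/-- the main term -/
noncomputable def Bt (t : Fin 12 → Fin 4 → Fin 18 → ℂ) : ℝ :=
  (∑ c, ∑ v, (((thr (ty c) v : ℝ) - (thr0 (ty c) v : ℝ)) *
      (∑ k, (al k : ℝ) * ((Real.log (nb c k) / 2 - V k) - Real.log ‖t c v k‖))
    + ((thr (ty c) v : ℝ) ^ 2 - (thr0 (ty c) v : ℝ) ^ 2) / 2 * Real.log (rho (ty c) v)))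
  - (∑ k, ∑ l, (al k : ℝ) * (al l * (Real.log (dd k l) / 2 - V k - V l)))
  - 3 / 2 * (∑ k, ∑ l, (alE k : ℝ) * (alE l * (Real.log (dd k l) / 2 - V k - V l)))
  + 126 * (∑ k, (alF k : ℝ) * Real.log (kap k))

theorem Bt_le (t : Fin 12 → Fin 4 → Fin 18 → ℂ)
    (htau : ∀ c v k, (tau c v k : ℝ) / 10 ^ 6 ≤ ‖t c v k‖) : Bt t ≤ Bar := by
  unfold Bt Bar
  rw [sum_ld (fun k => (al k : ℝ)), sum_ld (fun k => (alE k : ℝ)), sum_al, sum_alE]
  have hk : ∑ k, (alF k : ℝ) * Real.log (kap k)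
      = ∑ k, (alF k : ℝ) * (Real.log (nb (Ar.lt k) k) / 2 - Real.log (im k))
        + ∑ k, (alF k : ℝ) * V k := by
    rw [← Finset.sum_add_distrib]
    exact Finset.sum_congr rfl fun k _ => by rw [log_kap]; ring
  have hV : ∑ k, (al k : ℝ) * V k = ∑ k, (alE k : ℝ) * V k + ∑ k, (alF k : ℝ) * V k := by
    rw [← Finset.sum_add_distrib]
    exact Finset.sum_congr rfl fun k _ => by rw [al_split]; ring
  have hR : ∑ c, ∑ v, (((thr (ty c) v : ℝ) - (thr0 (ty c) v : ℝ)) *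
      (∑ k, (al k : ℝ) * ((Real.log (nb c k) / 2 - V k) - Real.log ‖t c v k‖))
      + ((thr (ty c) v : ℝ) ^ 2 - (thr0 (ty c) v : ℝ) ^ 2) / 2 * Real.log (rho (ty c) v))
      ≤ BarR - 354 * ∑ k, (al k : ℝ) * V k := by
    unfold BarR
    rw [← sum_thr, Finset.sum_mul, ← Finset.sum_sub_distrib]
    refine Finset.sum_le_sum fun c _ => ?_
    rw [Finset.sum_mul, ← Finset.sum_sub_distrib]
    refine Finset.sum_le_sum fun v _ => ?_
    have h1 : (0 : ℝ) ≤ (thr (ty c) v : ℝ) - (thr0 (ty c) v : ℝ) := by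
      have : (thr0 (ty c) v : ℝ) ≤ (thr (ty c) v : ℝ) := by exact_mod_cast thr_le c v
      linarith
    have h2 : ∑ k, (al k : ℝ) * ((Real.log (nb c k) / 2 - V k) - Real.log ‖t c v k‖)
        ≤ ∑ k, (al k : ℝ) * (Real.log (nb c k) / 2 - Real.log ((tau c v k : ℝ) / 10 ^ 6))
          - ∑ k, (al k : ℝ) * V k := by
      rw [← Finset.sum_sub_distrib]
      refine Finset.sum_le_sum fun k _ => ?_
      have h3 : Real.log ((tau c v k : ℝ) / 10 ^ 6) ≤ Real.log ‖t c v k‖ := by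
        refine Real.log_le_log ?_ (htau c v k)
        have : (0 : ℝ) < tau c v k := by exact_mod_cast tau_pos c v k
        positivity
      have h4 : (0 : ℝ) ≤ al k := Nat.cast_nonneg _
      nlinarith
    have h5 := mul_le_mul_of_nonneg_left h2 h1
    nlinarith
  rw [hk]
  linarith

theorem rows_c' (S : Fin 12 → Fin 4 → ℝ) (n c0 : ℕ) :
    ∑ r : Row (2 * n) c0, (n : ℝ) * S r.1 (lev r.1 n r.2)
      = (n : ℝ) ^ 2 * (∑ c, ∑ v, ((thr (ty c) v : ℝ) - (thr0 (ty c) v : ℝ)) * S c v)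
        + (c0 * ∑ c, S c 3) * n := by
  rw [sum_rows n c0 (fun z v _ => (n : ℝ) * S z v), Finset.mul_sum, Finset.mul_sum,
    Finset.sum_mul, ← Finset.sum_add_distrib]
  refine Finset.sum_congr rfl fun z _ => ?_
  rw [Finset.mul_sum, Finset.sum_const, Nat.card_Ico, Nat.add_sub_cancel_left, nsmul_eq_mul]
  congr 1
  · refine Finset.sum_congr rfl fun v _ => ?_
    rw [Finset.sum_const, Nat.card_Ico, nsmul_eq_mul,
      Nat.cast_sub (Nat.mul_le_mul_right n (thr_le z v))]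
    push_cast
    ring
  · ring

theorem rows_c (t : Fin 12 → Fin 4 → Fin 18 → ℂ) (n c0 : ℕ) :
    ∑ r : Row (2 * n) c0, ∑ i, (Real.log ‖bnode (fun e => (B10.lt r.1 e : ℝ)) (nd (ix n i))‖
        - Real.log ‖t r.1 (lev r.1 n r.2) (ix n i)‖)
      = (n : ℝ) ^ 2 * (∑ c, ∑ v, ((thr (ty c) v : ℝ) - (thr0 (ty c) v : ℝ)) *
          (∑ k, (al k : ℝ) * ((Real.log (nb c k) / 2 - V k) - Real.log ‖t c v k‖)))
        + (c0 * ∑ c, ∑ k, (al k : ℝ) * ((Real.log (nb c k) / 2 - V k) - Real.log ‖t c 3 k‖)) *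
          n := by
  rw [← rows_c' (fun c v => ∑ k, (al k : ℝ) * ((Real.log (nb c k) / 2 - V k)
    - Real.log ‖t c v k‖))]
  refine Finset.sum_congr rfl fun r _ => ?_
  have h := sumA n (fun k => Real.log ‖bnode (fun e => (B10.lt r.1 e : ℝ)) (nd k)‖
      - Real.log ‖t r.1 (lev r.1 n r.2) k‖)
  rw [h]
  simp only [log_bnode]

theorem rows_d (n c0 : ℕ) :
    ∑ r : Row (2 * n) c0, (r.2 : ℝ) * Real.log (rho (ty r.1) (lev r.1 n r.2))
      = (n : ℝ) ^ 2 * (∑ c, ∑ v, ((thr (ty c) v : ℝ) ^ 2 - (thr0 (ty c) v : ℝ) ^ 2) / 2 *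
          Real.log (rho (ty c) v))
        + ((∑ c, ∑ v, (-((thr (ty c) v : ℝ) - (thr0 (ty c) v : ℝ)) / 2) *
            Real.log (rho (ty c) v)) * n
          + ((∑ c, ((thr (ty c) 3 : ℝ) * c0) * Real.log (rho (ty c) 3)) * n
          + (∑ c, (((c0 : ℝ) ^ 2 - c0) / 2) * Real.log (rho (ty c) 3)))) := by
  rw [sum_rows n c0 (fun z v i => (i : ℝ) * Real.log (rho (ty z) v)), Finset.mul_sum,
    Finset.sum_mul, Finset.sum_mul, ← Finset.sum_add_distrib, ← Finset.sum_add_distrib,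
    ← Finset.sum_add_distrib]
  refine Finset.sum_congr rfl fun z _ => ?_
  rw [Finset.mul_sum, Finset.sum_mul, ← add_assoc, ← Finset.sum_add_distrib]
  congr 1
  · refine Finset.sum_congr rfl fun v _ => ?_
    rw [← Finset.sum_mul, sum_Ico_id _ _ (Nat.mul_le_mul_right n (thr_le z v))]
    push_cast
    ring
  · rw [← Finset.sum_mul, sum_Ico_id _ _ (Nat.le_add_right _ _)]
    push_cast
    ring

theorem Sm.nlog2 (a b : ℕ) : Sm fun n => ((a : ℝ) * n + b) *
    Real.log (40000 * ((2 * n : ℕ) : ℝ)) := by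
  refine ⟨((a : ℝ) + b) * (80000 + 1), fun n hn => ?_⟩
  have h1 := log_ge_one n hn
  have h2 : (1 : ℝ) ≤ n := by exact_mod_cast hn
  have ha : (0 : ℝ) ≤ a := Nat.cast_nonneg a
  have hb : (0 : ℝ) ≤ b := Nat.cast_nonneg b
  have h3 : (a : ℝ) * n + b ≤ (a + b) * n := by nlinarith
  have h30 : 0 ≤ (a : ℝ) * n + b := by positivity
  have h4 : (1 : ℝ) ≤ 40000 * ((2 * n : ℕ) : ℝ) := by push_cast; linarith
  have h5 : |Real.log (40000 * ((2 * n : ℕ) : ℝ))| ≤ (80000 + 1) * Real.log (n + 2) := by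
    rw [abs_of_nonneg (Real.log_nonneg h4)]
    calc Real.log (40000 * ((2 * n : ℕ) : ℝ)) ≤ Real.log (80000 * ((n : ℝ) + 2)) := by
          refine Real.log_le_log (by linarith) ?_
          push_cast
          linarith
      _ = Real.log 80000 + Real.log (n + 2) := Real.log_mul (by norm_num) (by positivity)
      _ ≤ 80000 + Real.log (n + 2) := by
          have := Real.log_le_sub_one_of_pos (show (0 : ℝ) < 80000 by norm_num)
          linarith
      _ ≤ _ := by linarith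
  rw [abs_mul, abs_of_nonneg h30]
  calc ((a : ℝ) * n + b) * |Real.log (40000 * ((2 * n : ℕ) : ℝ))|
      ≤ ((a + b) * n) * ((80000 + 1) * Real.log (n + 2)) :=
        mul_le_mul h3 h5 (abs_nonneg _) (by positivity)
    _ = _ := by ring

theorem log_fact_le (N : ℕ) : Real.log (N.factorial : ℝ) ≤ N * Real.log N := by
  rw [← Real.log_pow]
  refine Real.log_le_log (Nat.cast_pos.mpr (Nat.factorial_pos N)) ?_
  exact_mod_cast Nat.factorial_le_pow N

/-- **The archimedean bound of the minors.** -/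
theorem arch_sum (t : Fin 12 → Fin 4 → Fin 18 → ℂ)
    (ht : ∀ c v k, Root (mu c : ℝ) (rho (ty c) v : ℝ) (bnode (fun e => (b c e : ℝ)) (nd k))
      (bnode (fun e => (T c e : ℝ)) (nd k)) (t c v k))
    (htau : ∀ c v k, (tau c v k : ℝ) / 10 ^ 6 ≤ ‖t c v k‖) (c0 : ℕ) :
    ∃ C : ℝ, 0 ≤ C ∧ ∀ n : ℕ, 1 ≤ n → c0 < 54 * n → ∀ x : Col (2 * n) → Row (2 * n) c0,
      Function.Injective x → Dx x ≠ 0 →
      Real.log |((Dx x : ℚ) : ℝ)| ≤ Bar * (n : ℝ) ^ 2 + C * (n * Real.log (n + 2)) := by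
  obtain ⟨C, K, hC1, hK1, hlog⟩ := arch_log t ht
  -- the remainder terms
  have hsm : ∃ E : ℕ → ℝ, Sm E ∧ ∀ n : ℕ, 1 ≤ n →
      Real.log ((Fintype.card (Row (2 * n) c0)).factorial : ℝ)
        + ∑ r : Row (2 * n) c0, (Real.log (40000 * ((2 * n : ℕ) : ℝ)) + (Real.log C
          + ∑ i, (Real.log ‖bnode (fun e => (B10.lt r.1 e : ℝ)) (nd (ix n i))‖
            - Real.log ‖t r.1 (lev r.1 n r.2) (ix n i)‖)))
        + ∑ r : Row (2 * n) c0, (r.2 : ℝ) * Real.log (rho (ty r.1) (lev r.1 n r.2))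
        + ((12 * c0 : ℕ) : ℝ) * (((3 * (57 * (2 * n)) : ℕ) : ℝ) * Real.log K)
        - 2 * Real.log (PP (ix n)) - 3 * Real.log (PP (kE n))
        + 3 * (((21 * (2 * n) : ℕ) : ℝ) * ∑ i, Real.log (kap (kF n i)))
      ≤ Bt t * (n : ℝ) ^ 2 + E n := by
    refine ⟨fun n => (((354 : ℕ) : ℝ) * n + ((12 * c0 : ℕ) : ℝ)) *
          Real.log (((354 : ℕ) : ℝ) * n + ((12 * c0 : ℕ) : ℝ) + ((0 : ℕ) : ℝ))
        + ((((354 : ℕ) : ℝ) * n + ((12 * c0 : ℕ) : ℝ)) * Real.log (40000 * ((2 * n : ℕ) : ℝ))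
        + ((354 * Real.log C) * n + ((12 * c0 : ℕ) : ℝ) * Real.log C
        + ((c0 * ∑ c, ∑ k, (al k : ℝ) * ((Real.log (nb c k) / 2 - V k)
            - Real.log ‖t c 3 k‖)) * n
        + (((∑ c, ∑ v, (-((thr (ty c) v : ℝ) - (thr0 (ty c) v : ℝ)) / 2) *
              Real.log (rho (ty c) v)) * n
            + ((∑ c, ((thr (ty c) 3 : ℝ) * c0) * Real.log (rho (ty c) 3)) * n
            + (∑ c, (((c0 : ℝ) ^ 2 - c0) / 2) * Real.log (rho (ty c) 3))))
        + ((12 * c0 * 342 * Real.log K) * n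
        + ((∑ k, (al k : ℝ) * (Real.log (dd k k) / 2 - V k - V k)) * n
        + (3 / 2 * ∑ k, (alE k : ℝ) * (Real.log (dd k k) / 2 - V k - V k)) * n)))))), ?_, ?_⟩
    · refine (Sm.nlog _ _ _).add ((Sm.nlog2 _ _).add (((Sm.lin _).add (Sm.const _)).add
        ((Sm.lin _).add (((Sm.lin _).add ((Sm.lin _).add (Sm.const _))).add
        ((Sm.lin _).add ((Sm.lin _).add (Sm.lin _)))))))
    · intro n hn
      have hcard : ((Fintype.card (Row (2 * n) c0) : ℕ) : ℝ)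
          = ((354 : ℕ) : ℝ) * n + ((12 * c0 : ℕ) : ℝ) := by
        rw [card_Row]; push_cast; ring
      have e1 := log_fact_le (Fintype.card (Row (2 * n) c0))
      rw [hcard] at e1
      have e2 : ∑ r : Row (2 * n) c0, (Real.log (40000 * ((2 * n : ℕ) : ℝ)) + (Real.log C
          + ∑ i, (Real.log ‖bnode (fun e => (B10.lt r.1 e : ℝ)) (nd (ix n i))‖
            - Real.log ‖t r.1 (lev r.1 n r.2) (ix n i)‖)))
          = (((354 : ℕ) : ℝ) * n + ((12 * c0 : ℕ) : ℝ)) * Real.log (40000 * ((2 * n : ℕ) : ℝ))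
            + ((((354 : ℕ) : ℝ) * n + ((12 * c0 : ℕ) : ℝ)) * Real.log C
            + ∑ r : Row (2 * n) c0,
              ∑ i, (Real.log ‖bnode (fun e => (B10.lt r.1 e : ℝ)) (nd (ix n i))‖
              - Real.log ‖t r.1 (lev r.1 n r.2) (ix n i)‖)) := by
        rw [Finset.sum_add_distrib, Finset.sum_add_distrib, Finset.sum_const, Finset.sum_const,
          Finset.card_univ, nsmul_eq_mul, nsmul_eq_mul, hcard]
      have e5 := log_PP (ix n) (fun k => (al k : ℝ)) n (sumA n)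
      have e6 := log_PP (kE n) (fun k => (alE k : ℝ)) n (sumE n)
      have e7 := sumF n (fun k => Real.log (kap k))
      rw [e2, rows_c, rows_d, e5, e7]
      have e8 : 3 * Real.log (PP (kE n)) = 3 / 2 * (2 * Real.log (PP (kE n))) := by ring
      rw [e8, e6]
      have e9 : Bt t = (∑ c, ∑ v, ((thr (ty c) v : ℝ) - (thr0 (ty c) v : ℝ)) *
            (∑ k, (al k : ℝ) * ((Real.log (nb c k) / 2 - V k) - Real.log ‖t c v k‖)))
          + (∑ c, ∑ v, ((thr (ty c) v : ℝ) ^ 2 - (thr0 (ty c) v : ℝ) ^ 2) / 2 *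
            Real.log (rho (ty c) v))
          - (∑ k, ∑ l, (al k : ℝ) * (al l * (Real.log (dd k l) / 2 - V k - V l)))
          - 3 / 2 * (∑ k, ∑ l, (alE k : ℝ) * (alE l * (Real.log (dd k l) / 2 - V k - V l)))
          + 126 * (∑ k, (alF k : ℝ) * Real.log (kap k)) := by
        unfold Bt
        rw [← Finset.sum_add_distrib]
        congr 3
        exact Finset.sum_congr rfl fun c _ => Finset.sum_add_distrib
      rw [e9]
      simp only [Nat.cast_zero, add_zero]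
      push_cast at e1 ⊢
      linarith
  obtain ⟨E, ⟨K', hE⟩, hle⟩ := hsm
  refine ⟨|K'|, abs_nonneg _, fun n hn hc x hx hD => ?_⟩
  have h1 := hlog n c0 hn hc x hx hD
  have h2 := hle n hn
  have h3 := hE n hn
  have h4 : Bt t * (n : ℝ) ^ 2 ≤ Bar * (n : ℝ) ^ 2 :=
    mul_le_mul_of_nonneg_right (Bt_le t htau) (sq_nonneg _)
  have h5 : (0 : ℝ) ≤ n * Real.log (n + 2) := by
    have := log_ge_one n hn
    have h6 : (0 : ℝ) ≤ n := Nat.cast_nonneg n
    nlinarith
  have h7 : K' * (n * Real.log (n + 2)) ≤ |K'| * (n * Real.log (n + 2)) :=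
    mul_le_mul_of_nonneg_right (le_abs_self K') h5
  have h8 := le_abs_self (E n)
  linarith

end B10.As
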