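import Pool.Agent.Lib.B10.Final

/-!
# Base 10: the assembly from the block theorems

`main10`: nonvanishing, the archimedean bound and the bounds at `2, 3, 5, 7` for the minors `Dx x` of
the matrix of `Defs` (with `c = 60` extra rows at every letter) imply that a positive proportion of
the primes `q` does not have `q ^ 2 ∣ 10 ^ (q - 1) - 1`.
-/

set_option autoImplicit false

open Finset
open scoped Classical

namespace B10

/-- The bound at the prime `l`: `‖Dx x‖_l ≤ l ^ (S m ^ 2 + O (m log m))`. -/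
def SadB (l : ℕ) [Fact l.Prime] (S : ℝ) (c : ℕ) : Prop :=
  ∃ C : ℝ, 0 ≤ C ∧ ∀ (m : ℕ) (x : Col m → Row m c), Function.Injective x →
    ‖((Dx x : ℚ) : ℚ_[l])‖ ≤ Real.exp ((S * m ^ 2 + C * m * Real.log (m + 2)) * Real.log l)

private theorem Asm_five : Fact (Nat.Prime 5) := ⟨by norm_num⟩

private theorem Asm_seven : Fact (Nat.Prime 7) := ⟨by norm_num⟩

attribute [local instance] Asm_five Asm_seven

private theorem Asm_val {l : ℕ} [hl : Fact l.Prime] {D : ℚ} (hD : D ≠ 0) {s : ℝ}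
    (h : ‖((D : ℚ) : ℚ_[l])‖ ≤ Real.exp (s * Real.log l)) : -s ≤ (padicValRat l D : ℝ) := by
  have hl1 : (1 : ℝ) < l := by exact_mod_cast hl.out.one_lt
  have hl0 : (0 : ℝ) < l := by linarith
  have hlog : 0 < Real.log l := Real.log_pos hl1
  have h1 : ‖((D : ℚ) : ℚ_[l])‖ = (l : ℝ) ^ (-padicValRat l D) := by
    rw [Padic.norm_eq_zpow_neg_valuation (by exact_mod_cast hD), Padic.valuation_ratCast]
  rw [h1] at h
  have h2 := Real.log_le_log (by positivity) h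
  rw [Real.log_exp, Real.log_zpow] at h2
  have h3 := le_of_mul_le_mul_right h2 hlog
  push_cast at h3
  linarith

private theorem Asm_world {p : ℕ} (h : p ^ 2 ∣ 10 ^ (p - 1) - 1) :
    (p : ℤ) ^ 2 ∣ 10 ^ (p - 1) - 1 := by
  have h1 := Int.natCast_dvd_natCast.2 h
  rw [Nat.cast_sub (Nat.one_le_pow _ _ (by norm_num))] at h1
  push_cast at h1
  exact h1

theorem main10
    (hnv : ∀ m P : ℕ, P.Prime → P ^ 2 ∣ 10 ^ (P - 1) - 1 → 120 * m + 69 ≤ P → P ≤ 120 * m + 360 →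
      ∃ x : Col m → Row m 60, Function.Injective x ∧ Dx x ≠ 0)
    (harch : ∃ C : ℝ, 0 ≤ C ∧ ∃ n0 : ℕ, ∀ n : ℕ, n0 ≤ n → ∀ x : Col (2 * n) → Row (2 * n) 60,
      Function.Injective x →
        |((Dx x : ℚ) : ℝ)| ≤ Real.exp (14541 * (n : ℝ) ^ 2 + C * n * Real.log (n + 2)))
    (h2 : SadB 2 (-1566 / 11) 60) (h3 : SadB 3 (2057 / 5) 60) (h5 : SadB 5 73 60)
    (h7 : SadB 7 (-24) 60) :
    ∃ c : ℝ, 0 < c ∧ ∃ X₀ : ℝ, ∀ X : ℝ, X₀ ≤ X → c * X / Real.log X ≤
      (((Icc 1 ⌊X⌋₊).filter fun q : ℕ => q.Prime ∧ ¬ q ^ 2 ∣ 10 ^ (q - 1) - 1).card : ℝ) := by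
  obtain ⟨Ca, hCa, n0, ha⟩ := harch
  obtain ⟨C2, hC2, h2⟩ := h2
  obtain ⟨C3, hC3, h3⟩ := h3
  obtain ⟨C5, hC5, h5⟩ := h5
  obtain ⟨C7, hC7, h7⟩ := h7
  refine final (C := Ca + C2 + C3 + C5 + C7 + 24 * 60) (by positivity) (m0 := 2 * n0 + 118)
    fun m hm he P hP1 hP2 hP3 hP4 => ?_
  obtain ⟨x, hx, hD⟩ := hnv m P hP1 hP2 hP3 (by omega)
  have hm0 : (0 : ℝ) ≤ m := Nat.cast_nonneg m
  have hL : 0 ≤ (m : ℝ) * Real.log (m + 2) := mul_nonneg hm0 (Real.log_nonneg (by linarith))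
  have key : ∀ (l : ℕ) [Fact l.Prime] (S C : ℝ), 0 ≤ C →
      C ≤ Ca + C2 + C3 + C5 + C7 + 24 * 60 →
      ‖((Dx x : ℚ) : ℚ_[l])‖ ≤
        Real.exp ((S * m ^ 2 + C * m * Real.log (m + 2)) * Real.log l) →
      -(S * (m : ℝ) ^ 2 + (Ca + C2 + C3 + C5 + C7 + 24 * 60) * m * Real.log (m + 2)) ≤
        (padicValRat l (Dx x) : ℝ) := by
    intro l _ S C hC hCle h
    have h1 := Asm_val hD h
    have h4 : C * ((m : ℝ) * Real.log (m + 2)) ≤
        (Ca + C2 + C3 + C5 + C7 + 24 * 60) * ((m : ℝ) * Real.log (m + 2)) :=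
      mul_le_mul_of_nonneg_right hCle hL
    rw [mul_assoc C] at h1
    rw [mul_assoc (Ca + C2 + C3 + C5 + C7 + 24 * 60)]
    linarith
  refine ⟨Dx x, hD, ?_, ?_, ?_, ?_, ?_, ?_, ?_⟩
  · obtain ⟨n, hn⟩ := he
    have hn' : m = 2 * n := by omega
    subst hn'
    have h4 := ha n (by omega) x hx
    have h6 := Real.log_le_log (abs_pos.2 (by exact_mod_cast hD)) h4
    rw [Real.log_exp] at h6
    refine h6.trans ?_
    have hn0 : (0 : ℝ) ≤ n := Nat.cast_nonneg n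
    have h8 : Real.log ((n : ℝ) + 2) ≤ Real.log (((2 * n : ℕ) : ℝ) + 2) := by
      refine Real.log_le_log (by linarith) ?_
      push_cast
      linarith
    have h9 : 0 ≤ Real.log ((n : ℝ) + 2) := Real.log_nonneg (by linarith)
    have h10 : Ca * ((n : ℝ) * Real.log (n + 2)) ≤
        (Ca + C2 + C3 + C5 + C7 + 24 * 60) * (((2 * n : ℕ) : ℝ) * Real.log (((2 * n : ℕ) : ℝ) + 2)) := by
      refine mul_le_mul (by linarith) (mul_le_mul ?_ h8 h9 (Nat.cast_nonneg _))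
        (mul_nonneg hn0 h9) (by positivity)
      push_cast
      linarith
    have h11 : 14541 * (n : ℝ) ^ 2 = 14541 / 4 * (((2 * n : ℕ) : ℝ)) ^ 2 := by
      push_cast
      ring
    rw [h11, mul_assoc Ca, mul_assoc (Ca + C2 + C3 + C5 + C7 + 24 * 60)]
    linarith
  · exact key 2 _ C2 hC2 (by linarith) (h2 m x hx)
  · exact key 3 _ C3 hC3 (by linarith) (h3 m x hx)
  · exact key 5 _ C5 hC5 (by linarith) (h5 m x hx)
  · exact key 7 _ C7 hC7 (by linarith) (h7 m x hx)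
  · intro p hp hp7
    have := Fact.mk hp
    have h4 := gen_val (c := 60) hp7 hD
    have h6 : ((-((63 * m * Nat.log p (30 * m + 60) : ℕ) : ℤ) : ℤ) : ℝ) ≤
        (padicValRat p (Dx x) : ℝ) := Int.cast_le.2 h4
    push_cast at h6
    exact h6
  · intro p hp hp7 hw hp2
    have := Fact.mk hp
    have hp60 : 60 < p := by
      by_contra hcon
      have h4 : p ^ 2 ≤ 60 ^ 2 := Nat.pow_le_pow_left (by omega) 2
      omega
    have h4 := world_val (c := 60) hp7 hp60 hp2 (by omega) (Asm_world hw) hx hD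
    push_cast at h4
    linarith

end B10
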