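import Mathlib

/-!
# The determinant of a basis of polynomials of Malmquist type

`f i = ∏ j < i, (X - a j) * ∏ j > i, (X - b j)`, `i < n`, against the monomials: the determinant
is `∏ i < j, (a i - b j)`. The case `a = b` is the Lagrange basis (any multiplicities).
-/

namespace B10

open Finset Matrix Polynomial

variable {K : Type*} [CommRing K]

/-- the matrix of coefficients -/
noncomputable def cm {n : ℕ} (f : Fin n → K[X]) : Matrix (Fin n) (Fin n) K :=
  Matrix.of fun k i => (f i).coeff k

/-- the synthetic division matrix -/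
def syn (n : ℕ) (a : K) : Matrix (Fin n) (Fin n) K :=
  Matrix.of fun m k => if m ≤ k then a ^ ((k : ℕ) - m) else 0

theorem det_syn (n : ℕ) (a : K) : (syn n a).det = 1 := by
  have h : (syn n a).BlockTriangular id := by
    intro i j hij
    have hij' : ¬ i ≤ j := not_le.mpr hij
    unfold syn
    rw [Matrix.of_apply, if_neg hij']
  rw [Matrix.det_of_isUpperTriangular h]
  refine Finset.prod_eq_one fun i _ => ?_
  unfold syn
  simp

theorem syn_zero {n : ℕ} (a : K) (F : Fin (n + 1) → K[X]) (i : Fin (n + 1))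
    (hF : (F i).natDegree < n + 1) : (syn (n + 1) a * cm F) 0 i = (F i).eval a := by
  rw [Matrix.mul_apply, Polynomial.eval_eq_sum_range' hF, ← Fin.sum_univ_eq_sum_range
    (fun k => (F i).coeff k * a ^ k) (n + 1)]
  refine Finset.sum_congr rfl fun k _ => ?_
  unfold syn cm
  rw [Matrix.of_apply, Matrix.of_apply, if_pos (Fin.zero_le k), Fin.val_zero, Nat.sub_zero,
    mul_comm]

theorem syn_tel (a : K) (g : K[X]) (m N : ℕ) (h : m ≤ N) :
    ∑ k ∈ range N, (if m ≤ k then a ^ (k - m) else 0) * ((X - C a) * g).coeff (k + 1)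
      = g.coeff m - a ^ (N - m) * g.coeff N := by
  induction N, h using Nat.le_induction with
  | base =>
    rw [Nat.sub_self, pow_zero, one_mul, sub_self]
    refine Finset.sum_eq_zero fun k hk => ?_
    rw [if_neg (by rw [Finset.mem_range] at hk; omega), zero_mul]
  | succ N hN ih =>
    rw [Finset.sum_range_succ, ih, if_pos hN, sub_mul, Polynomial.coeff_sub,
      Polynomial.coeff_X_mul, Polynomial.coeff_C_mul, show N + 1 - m = (N - m) + 1 by omega,
      pow_succ]
    ring

theorem syn_succ {n : ℕ} (a : K) (F : Fin (n + 1) → K[X]) (i : Fin (n + 1)) (g : K[X])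
    (hF : F i = (X - C a) * g) (hg : g.coeff n = 0) (m : Fin n) :
    (syn (n + 1) a * cm F) m.succ i = g.coeff m := by
  rw [Matrix.mul_apply, Fin.sum_univ_succ]
  have h0 : syn (n + 1) a m.succ 0 * cm F 0 i = 0 := by
    unfold syn
    rw [Matrix.of_apply, if_neg (by simp), zero_mul]
  rw [h0, zero_add]
  have h1 : ∀ k : Fin n, syn (n + 1) a m.succ k.succ * cm F k.succ i
      = (fun k : ℕ => (if (m : ℕ) ≤ k then a ^ (k - (m : ℕ)) else 0) *
        ((X - C a) * g).coeff (k + 1)) k := by
    intro k
    unfold syn cm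
    rw [Matrix.of_apply, Matrix.of_apply, hF]
    simp only [Fin.succ_le_succ_iff, Fin.val_succ, Nat.add_sub_add_right, Fin.val_fin_le]
  rw [Finset.sum_congr rfl fun k _ => h1 k]
  refine (Fin.sum_univ_eq_sum_range
    (fun k : ℕ => (if (m : ℕ) ≤ k then a ^ (k - (m : ℕ)) else 0) *
        ((X - C a) * g).coeff (k + 1)) n).trans ?_
  rw [syn_tel a g m n m.isLt.le, hg]
  ring

/-- one step: `F 0` arbitrary, the other ones divisible by `X - a` -/
theorem det_cm_cons {n : ℕ} (a : K) (F : Fin (n + 1) → K[X]) (g : Fin n → K[X])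
    (hF0 : (F 0).natDegree < n + 1) (hg : ∀ i, (g i).natDegree < n)
    (hF : ∀ i : Fin n, F i.succ = (X - C a) * g i) :
    (cm F).det = (F 0).eval a * (cm g).det := by
  have h1 : (syn (n + 1) a * cm F).det = (cm F).det := by
    rw [Matrix.det_mul, det_syn, one_mul]
  have hgn : ∀ i, (g i).coeff n = 0 := fun i =>
    Polynomial.coeff_eq_zero_of_natDegree_lt (hg i)
  have hdeg : ∀ i : Fin n, (F i.succ).natDegree < n + 1 := by
    intro i
    rw [hF i]
    refine lt_of_le_of_lt (Polynomial.natDegree_mul_le) ?_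
    have h2 : (X - C a : K[X]).natDegree ≤ 1 := Polynomial.natDegree_X_sub_C_le a
    have h3 := hg i
    omega
  rw [← h1, Matrix.det_succ_row_zero, Fin.sum_univ_succ]
  have h2 : ∑ i : Fin n, (-1 : K) ^ ((i.succ : Fin (n + 1)) : ℕ) *
      (syn (n + 1) a * cm F) 0 i.succ *
      ((syn (n + 1) a * cm F).submatrix Fin.succ (i.succ).succAbove).det = 0 := by
    refine Finset.sum_eq_zero fun i _ => ?_
    rw [syn_zero a F i.succ (hdeg i), hF i]
    simp
  rw [h2, add_zero, syn_zero a F 0 hF0, Fin.val_zero, pow_zero, one_mul]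
  congr 2
  ext m i
  rw [Matrix.submatrix_apply, Fin.zero_succAbove, syn_succ a F i.succ (g i) (hF i) (hgn i) m]
  rfl

/-- the basis of Malmquist type -/
noncomputable def mb {n : ℕ} (a b : Fin n → K) (i : Fin n) : K[X] :=
  (∏ j ∈ Iio i, (X - C (a j))) * ∏ j ∈ Ioi i, (X - C (b j))

theorem natDegree_mb_lt {n : ℕ} (a b : Fin n → K) (i : Fin n) : (mb a b i).natDegree < n := by
  unfold mb
  have h1 : (∏ j ∈ Iio i, (X - C (a j))).natDegree ≤ (i : ℕ) := by
    refine (Polynomial.natDegree_prod_le _ _).trans ?_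
    refine (Finset.sum_le_card_nsmul _ _ 1 fun j _ => Polynomial.natDegree_X_sub_C_le _).trans ?_
    simp
  have h2 : (∏ j ∈ Ioi i, (X - C (b j))).natDegree ≤ n - 1 - (i : ℕ) := by
    refine (Polynomial.natDegree_prod_le _ _).trans ?_
    refine (Finset.sum_le_card_nsmul _ _ 1 fun j _ => Polynomial.natDegree_X_sub_C_le _).trans ?_
    simp
  have h3 := Polynomial.natDegree_mul_le (p := ∏ j ∈ Iio i, (X - C (a j)))
    (q := ∏ j ∈ Ioi i, (X - C (b j)))
  have h4 := i.isLt
  omega

/-- **the determinant of the basis** -/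
theorem det_mb {n : ℕ} (a b : Fin n → K) :
    (cm (mb a b)).det = ∏ i, ∏ j ∈ Ioi i, (a i - b j) := by
  induction n with
  | zero => simp
  | succ n ih =>
    have hF : ∀ i : Fin n, mb a b i.succ
        = (X - C (a 0)) * mb (fun j => a j.succ) (fun j => b j.succ) i := by
      intro i
      unfold mb
      have e1 : (Iio i.succ : Finset (Fin (n + 1))) = insert 0 ((Iio i).map (Fin.succEmb n)) := by
        ext j
        refine Fin.cases ?_ (fun j => ?_) j
        · simp
        · simp
      have e2 : (Ioi i.succ : Finset (Fin (n + 1))) = (Ioi i).map (Fin.succEmb n) := by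
        ext j
        refine Fin.cases ?_ (fun j => ?_) j
        · simp
        · simp
      rw [e1, e2, Finset.prod_insert (by simp), Finset.prod_map,
        Finset.prod_map]
      simp only [Fin.coe_succEmb]
      ring
    rw [det_cm_cons (a 0) (mb a b) (mb (fun j => a j.succ) (fun j => b j.succ))
      (natDegree_mb_lt a b 0) (natDegree_mb_lt _ _) hF, ih, Fin.prod_univ_succ]
    congr 1
    · unfold mb
      rw [Polynomial.eval_mul, Polynomial.eval_prod, Polynomial.eval_prod]
      have e0 : (Iio (0 : Fin (n + 1))) = ∅ := by ext j; simp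
      rw [e0, Finset.prod_empty, one_mul]
      simp
    · refine Finset.prod_congr rfl fun i _ => ?_
      have e2 : (Ioi i.succ : Finset (Fin (n + 1))) = (Ioi i).map (Fin.succEmb n) := by
        ext j
        refine Fin.cases ?_ (fun j => ?_) j
        · simp
        · simp
      rw [e2, Finset.prod_map]
      simp only [Fin.coe_succEmb]

/-- the determinant of a family of blocks -/
theorem det_families {Φ ι : Type*} [Fintype Φ] [LinearOrder Φ] [Fintype ι] [DecidableEq ι]
    (n : Φ → ℕ) (e : ι ≃ Σ φ, Fin (n φ)) (W : ∀ φ, Matrix (Fin (n φ)) (Fin (n φ)) K) :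
    ((Matrix.blockDiagonal' W).submatrix e e).det = ∏ φ, (W φ).det := by
  rw [Matrix.det_submatrix_equiv_self, (Matrix.blockTriangular_blockDiagonal' W).det_fintype]
  refine Finset.prod_congr rfl fun φ _ => ?_
  rw [← Matrix.det_submatrix_equiv_self (Equiv.sigmaSubtype φ).symm]
  congr 1
  ext i j
  rw [Matrix.submatrix_apply, Matrix.toSquareBlock_def, Matrix.of_apply]
  exact Matrix.blockDiagonal'_apply_eq W φ i j

end B10
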