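import Pool.Agent.Lib.B10.World10

/-!
# The entries of the matrix through integral polynomials (base 10)

`entry_inl`, `entry_inr`: the entries. `Ff_coeff`: the fixed factor vanishes to the order
`FF z * m` at the letter `z`. `lg_pint`: the denominators of the coefficients of the logarithms.
-/

set_option autoImplicit false

open Finset PWief

namespace B10

/-- an integral polynomial as a power series -/
noncomputable def psh : Polynomial ℤ →+* PowerSeries ℚ :=
  Polynomial.coeToPowerSeries.ringHom.comp (Polynomial.mapRingHom (Int.castRingHom ℚ))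

theorem coeff_psh (f : Polynomial ℤ) (i : ℕ) :
    PowerSeries.coeff i (psh f) = ((f.coeff i : ℤ) : ℚ) := by
  rw [psh, RingHom.comp_apply, Polynomial.coeToPowerSeries.ringHom_apply, Polynomial.coeff_coe,
    Polynomial.coe_mapRingHom, Polynomial.coeff_map, eq_intCast]

theorem psh_lin (c d : ℤ) : psh (Polynomial.C c + Polynomial.C d * Polynomial.X) =
    PowerSeries.C (c : ℚ) + PowerSeries.C (d : ℚ) * PowerSeries.X := by
  rw [psh, RingHom.comp_apply, Polynomial.coeToPowerSeries.ringHom_apply,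
    Polynomial.coe_mapRingHom, Polynomial.map_add, Polynomial.map_mul, Polynomial.map_C,
    Polynomial.map_C, Polynomial.map_X, Polynomial.coe_add, Polynomial.coe_mul, Polynomial.coe_C,
    Polynomial.coe_C, Polynomial.coe_X, eq_intCast, eq_intCast]

/-- the fixed factor of the logarithm columns -/
noncomputable def Ff (m : ℕ) : MvPolynomial (Fin 2) ℤ := ∏ a, lin (lt a) ^ (FF a * m)

/-- the monomials of degree `n - 1` -/
noncomputable def mo (n j : ℕ) : MvPolynomial (Fin 2) ℤ :=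
  MvPolynomial.X 0 ^ j * MvPolynomial.X 1 ^ (n - 1 - j)

theorem mo_hom {n j : ℕ} (h : j < n) : (mo n j).IsHomogeneous (n - 1) := by
  have h1 := ((MvPolynomial.isHomogeneous_X ℤ (0 : Fin 2)).pow j).mul
    ((MvPolynomial.isHomogeneous_X ℤ (1 : Fin 2)).pow (n - 1 - j))
  have h2 : 1 * j + 1 * (n - 1 - j) = n - 1 := by omega
  rw [h2] at h1
  exact h1

theorem Ff_hom (m : ℕ) : (Ff m).IsHomogeneous (36 * m) := by
  have h1 : (Ff m).IsHomogeneous (∑ a : Fin 12, 1 * (FF a * m)) :=
    MvPolynomial.IsHomogeneous.prod _ _ _ fun a _ => (lin_hom (lt a)).pow (FF a * m)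
  have h2 : ∑ a : Fin 12, 1 * (FF a * m) = 36 * m := by
    simp only [one_mul]
    rw [← Finset.sum_mul]
    congr 1
  rw [h2] at h1
  exact h1

theorem xz_eq (z : Fin 12) (e : Fin 2) : xz z e = psh (sb (lt z) (tv z) (MvPolynomial.X e)) := by
  rw [sb_X, psh_lin, xz]

theorem lf_eq (z a : Fin 12) : lf z a = psh (sb (lt z) (tv z) (lin (lt a))) := by
  rw [sb_lin, psh_lin, lf]

theorem Fs_eq (m : ℕ) (z : Fin 12) : Fs m z = psh (sb (lt z) (tv z) (Ff m)) := by
  rw [Fs, Ff, map_prod, map_prod]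
  refine Finset.prod_congr rfl fun a _ => ?_
  rw [map_pow, map_pow, lf_eq]

theorem br_eq_zero_iff (z a : Fin 12) : br (lt z) (lt a) = 0 ↔ a = z := by
  constructor
  · intro h
    by_contra h1
    exact br_lt_ne h1 h
  · rintro rfl
    rw [br]
    ring

theorem Es_coeff (u : Fin 3) (z : Fin 12) (j : ℕ) :
    PowerSeries.coeff j (Es u z) = lg lt (co u) (lt z) (tv z) j := by
  rw [Es, map_sum, lg, ← Finset.add_sum_erase _ _ (Finset.mem_univ z),
    if_pos ((br_eq_zero_iff z z).2 rfl), zero_add]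
  refine Finset.sum_congr rfl fun a ha => ?_
  rw [if_neg fun h => (Finset.mem_erase.1 ha).1 ((br_eq_zero_iff z a).1 h),
    PowerSeries.coeff_C_mul, Log1, PowerSeries.coeff_mk]
  ring

/-- the fixed factor vanishes at the letters -/
theorem Ff_coeff {m : ℕ} (z : Fin 12) (T : Fin 2 → ℤ) (g : MvPolynomial (Fin 2) ℤ) {i : ℕ}
    (h : i < FF z * m) : (sb (lt z) T (Ff m * g)).coeff i = 0 := by
  have h1 : Ff m * g = lin (lt z) ^ (FF z * m) *
      ((∏ a ∈ Finset.univ.erase z, lin (lt a) ^ (FF a * m)) * g) := by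
    rw [Ff, ← Finset.mul_prod_erase _ _ (Finset.mem_univ z), mul_assoc]
  rw [h1, map_mul, map_pow, sb_lin, (br_eq_zero_iff z z).2 rfl, map_zero, zero_add, mul_pow,
    mul_comm (Polynomial.C _ ^ _), mul_assoc, Polynomial.coeff_X_pow_mul', if_neg (by omega)]

theorem entry_inl {m c : ℕ} (r : Row m c) (e : Fin 2) (j : Fin (57 * m)) :
    Mx m c r (Sum.inl (e, j)) = (lt r.1 e : ℚ) *
      (((sb (lt r.1) (tv r.1) (mo (57 * m) j)).coeff r.2 : ℤ) : ℚ) := by
  rw [Mx, Matrix.of_apply, gm, PowerSeries.coeff_C_mul, xz_eq, xz_eq, ← map_pow, ← map_pow,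
    ← map_pow, ← map_pow, ← map_mul, ← map_mul, coeff_psh, mo]

theorem entry_inr {m c : ℕ} (r : Row m c) (u : Fin 3) (j : Fin (21 * m)) :
    Mx m c r (Sum.inr (u, j)) = ∑ k ∈ HasAntidiagonal.antidiagonal (r.2 : ℕ),
      (((sb (lt r.1) (tv r.1) (Ff m * mo (21 * m) j)).coeff k.1 : ℤ) : ℚ) *
        lg lt (co u) (lt r.1) (tv r.1) k.2 := by
  rw [Mx, Matrix.of_apply, gm, PowerSeries.coeff_mul]
  refine Finset.sum_congr rfl fun k _ => ?_
  rw [Es_coeff, xz_eq, xz_eq, Fs_eq, ← map_pow, ← map_pow, ← map_pow, ← map_pow, ← map_mul,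
    ← map_mul, ← map_mul, ← map_mul, coeff_psh, mo]

variable {p : ℕ} [hp : Fact p.Prime]

/-- the denominators of the coefficients of the logarithms -/
theorem lg_pint (h11 : 11 ≤ p) (u : Fin 3) (z : Fin 12) (T : Fin 2 → ℤ) {k j : ℕ}
    (hj : j < p ^ (k + 1)) : PInt p ((p : ℚ) ^ k * lg lt (co u) (lt z) T j) := by
  rw [lg, Finset.mul_sum]
  refine pint_sum _ _ fun s _ => ?_
  split_ifs with hs
  · rw [mul_zero]
    exact_mod_cast pint_int (p := p) 0
  · have h8 := br_le' z s
    have hd : ¬ (p : ℤ) ∣ br (lt z) (lt s) := by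
      intro hd
      have h2 := Int.le_of_dvd (abs_pos.mpr hs) ((dvd_abs _ _).mpr hd)
      omega
    have e1 : (p : ℚ) ^ k * ((co u s : ℚ) * ((-1) ^ (j + 1) / (j : ℚ) *
        ((br (lt z) (lt s) : ℚ) * ((br T (lt s) : ℚ) / (br (lt z) (lt s) : ℚ)) ^ j))) =
        ((p : ℚ) ^ k / (j : ℚ)) * (((co u s * (-1) ^ (j + 1) * br (lt z) (lt s) *
          br T (lt s) ^ j : ℤ) : ℚ) * (1 / ((br (lt z) (lt s) : ℤ) : ℚ)) ^ j) := by
      push_cast
      rw [div_pow, div_pow, one_pow]
      ring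
    rw [e1]
    refine PInt.mul ?_ (PInt.mul (pint_int _) ((pint_inv hd).pow j))
    -- the factor `p ^ k / j`
    rcases Nat.eq_zero_or_pos j with rfl | h0
    · rw [Nat.cast_zero, div_zero]
      exact_mod_cast pint_int (p := p) 0
    · obtain ⟨e, m, hm, hjm⟩ := Nat.exists_eq_pow_mul_and_not_dvd (n := j) h0.ne' p
        hp.out.ne_one
      have he : e ≤ k := by
        by_contra h
        have h1 : p ^ (k + 1) ≤ p ^ e := Nat.pow_le_pow_right hp.out.pos (by omega)
        have h2 : p ^ e ≤ j := by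
          rw [hjm]
          refine Nat.le_mul_of_pos_right _ (Nat.pos_of_ne_zero ?_)
          rintro rfl
          exact hm (dvd_zero _)
        omega
      have hm0 : (m : ℚ) ≠ 0 := by
        have : m ≠ 0 := by
          rintro rfl
          exact hm (dvd_zero _)
        exact_mod_cast this
      have hp0 : (p : ℚ) ≠ 0 := by exact_mod_cast hp.out.ne_zero
      have e2 : (p : ℚ) ^ k / (j : ℚ) = ((p ^ (k - e) : ℕ) : ℚ) * (1 / (((m : ℕ) : ℤ) : ℚ)) := by
        rw [hjm]
        push_cast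
        obtain ⟨d, rfl⟩ := Nat.exists_eq_add_of_le he
        rw [Nat.add_sub_cancel_left, pow_add]
        field_simp
      rw [e2]
      refine (pint_nat _).mul (pint_inv ?_)
      intro h
      exact hm (Int.natCast_dvd_natCast.mp h)

theorem entry_inl_pint {m c : ℕ} (r : Row m c) (e : Fin 2) (j : Fin (57 * m)) :
    PInt p (Mx m c r (Sum.inl (e, j))) := by
  rw [entry_inl]
  exact (pint_int _).mul (pint_int _)

/-- the denominators of the entries of the logarithm columns -/
theorem entry_inr_pint (h11 : 11 ≤ p) {m c k : ℕ} (r : Row m c) (u : Fin 3) (j : Fin (21 * m))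
    (h : (r.2 : ℕ) < p ^ (k + 1) + FF r.1 * m) :
    PInt p ((p : ℚ) ^ k * Mx m c r (Sum.inr (u, j))) := by
  rw [entry_inr, Finset.mul_sum]
  refine pint_sum _ _ fun kl hkl => ?_
  rw [HasAntidiagonal.mem_antidiagonal] at hkl
  by_cases h1 : kl.1 < FF r.1 * m
  · rw [Ff_coeff _ _ _ h1, Int.cast_zero, zero_mul, mul_zero]
    exact_mod_cast pint_int (p := p) 0
  · rw [mul_left_comm]
    refine (pint_int _).mul (lg_pint h11 _ _ _ ?_)
    omega

theorem LL_le (z : Fin 12) : LL z ≤ 30 := by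
  revert z
  decide

theorem FF_eq_LL {z : Fin 12} (h : ¬ z < 6) : FF z = 4 ∧ LL z = 4 := by
  revert z
  decide

theorem FF_eq_two {z : Fin 12} (h : z < 6) : FF z = 2 := by
  revert z
  decide

/-- the integral forms of the columns, given the forms `E` of the logarithms -/
noncomputable def Phi (m p : ℕ) (E : Fin 3 → MvPolynomial (Fin 2) ℤ) :
    Col m → MvPolynomial (Fin 2) ℤ :=
  Sum.elim (fun ej => MvPolynomial.X ej.1 ^ p * mo (57 * m) ej.2)
    (fun uj => Ff m * mo (21 * m) uj.2 * E uj.1)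

theorem Phi_inl (m p : ℕ) (E : Fin 3 → MvPolynomial (Fin 2) ℤ) (e : Fin 2) (j : Fin (57 * m)) :
    Phi m p E (Sum.inl (e, j)) = MvPolynomial.X e ^ p * mo (57 * m) j := rfl

theorem Phi_inr (m p : ℕ) (E : Fin 3 → MvPolynomial (Fin 2) ℤ) (u : Fin 3) (j : Fin (21 * m)) :
    Phi m p E (Sum.inr (u, j)) = Ff m * mo (21 * m) j * E u := rfl

theorem Phi_hom {m p : ℕ} {E : Fin 3 → MvPolynomial (Fin 2) ℤ}
    (hE : ∀ u, (E u).IsHomogeneous p) (c' : Col m) :
    (Phi m p E c').IsHomogeneous (p + 57 * m - 1) := by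
  rcases c' with ⟨e, j⟩ | ⟨u, j⟩
  · have h1 := ((MvPolynomial.isHomogeneous_X ℤ e).pow p).mul (mo_hom j.isLt)
    have h2 : 1 * p + (57 * m - 1) = p + 57 * m - 1 := by
      have := j.isLt
      omega
    rw [h2] at h1
    exact h1
  · have h1 := ((Ff_hom m).mul (mo_hom j.isLt)).mul (hE u)
    have h2 : 36 * m + (21 * m - 1) + p = p + 57 * m - 1 := by
      have := j.isLt
      omega
    rw [h2] at h1
    exact h1

/-- **The columns are congruent to integral forms** on the rows of order `< p` at the six germs and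
`< 4 m` at the outer letters. -/
theorem Phi_cg (h11 : 11 ≤ p) {m c : ℕ} {E : Fin 3 → MvPolynomial (Fin 2) ℤ}
    (hE : ∀ u, ∀ z : Fin 12, z < 6 → ∀ (T : Fin 2 → ℤ) (j : ℕ), j < p →
      Cg p (lg lt (co u) (lt z) T j) (((sb (lt z) T (E u)).coeff j : ℤ) : ℚ))
    (r : Row m c) (hi : (r.2 : ℕ) < p) (hz : r.1 < 6 ∨ (r.2 : ℕ) < 4 * m) (c' : Col m) :
    Cg p (Mx m c r c') (((sb (lt r.1) (tv r.1) (Phi m p E c')).coeff r.2 : ℤ) : ℚ) := by
  rcases c' with ⟨e, j⟩ | ⟨u, j⟩
  · rw [entry_inl, Phi_inl]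
    exact colT_cg _ _ _ _ hi
  · rw [entry_inr, Phi_inr]
    by_cases hz6 : r.1 < 6
    · rw [map_mul (sb _ _) (Ff m * mo (21 * m) j) (E u), Polynomial.coeff_mul, Int.cast_sum]
      refine cg_sum _ _ _ fun kl hkl => ?_
      rw [HasAntidiagonal.mem_antidiagonal] at hkl
      rw [Int.cast_mul]
      have hl : kl.2 < p := by omega
      refine (cg_refl _).mul (hE u _ hz6 _ _ hl) (pint_int _) ?_
      have h1 := lg_pint (p := p) (k := 0) h11 u r.1 (tv r.1) (j := kl.2)
        (by rw [zero_add, pow_one]; exact hl)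
      rw [pow_zero, one_mul] at h1
      exact h1
    · have h4 := hz.resolve_left hz6
      have h5 : (r.2 : ℕ) < FF r.1 * m := by
        rw [(FF_eq_LL hz6).1]
        exact h4
      rw [mul_assoc, Ff_coeff _ _ _ h5, Finset.sum_eq_zero, Int.cast_zero]
      · exact cg_refl _
      · intro kl hkl
        rw [HasAntidiagonal.mem_antidiagonal] at hkl
        rw [Ff_coeff _ _ _ (by omega), Int.cast_zero, zero_mul]

end B10
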