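import Pool.Agent.Lib.B10.GaussN
import Pool.Agent.Lib.B10.Defs

/-!
# Base 10, S-adic block: the rows in the coordinate of a centre letter

For a centre letter `b` and a letter `z`, `lt z = α lt b + β tv b`, `tv z = α' lt b + β' tv b`.
If `α ≠ 0`, the germ at `z` of every column is `(α + α' X) ^ (57 m - 1)` times
`α G(t) + β H(t) + F(t) ∑ u, E_u q_u(t)`, `t = (β + β' X) / (α + α' X)`, where the polynomials
`G, H, F, q_u` depend on the column and on `b` only.
-/

set_option autoImplicit false

namespace B10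

open Finset

section coeffs

/-- the coefficients of `lt z`, `tv z` in the basis `lt b, tv b` -/
def cα (b z : Fin 12) : ℤ := br (lt z) (tv b)
def cα' (b z : Fin 12) : ℤ := br (tv z) (tv b)
def cβ (b z : Fin 12) : ℤ := br (lt b) (lt z)
def cβ' (b z : Fin 12) : ℤ := br (lt b) (tv z)

theorem lt_eq (b z : Fin 12) (e : Fin 2) : lt z e = cα b z * lt b e + cβ b z * tv b e := by
  revert b z e
  decide

theorem tv_eq (b z : Fin 12) (e : Fin 2) : tv z e = cα' b z * lt b e + cβ' b z * tv b e := by
  revert b z e
  decide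

theorem coef_det (b z : Fin 12) : cα b z * cβ' b z - cβ b z * cα' b z = 1 := by
  revert b z
  decide

theorem br_lt_eq (b z a : Fin 12) :
    br (lt z) (lt a) = cα b z * br (lt b) (lt a) + cβ b z * br (tv b) (lt a) := by
  rw [br, br, br, lt_eq b z 0, lt_eq b z 1]
  ring

theorem br_tv_eq (b z a : Fin 12) :
    br (tv z) (lt a) = cα' b z * br (lt b) (lt a) + cβ' b z * br (tv b) (lt a) := by
  rw [br, br, br, tv_eq b z 0, tv_eq b z 1]
  ring

end coeffs

variable (K : Type*) [NormedField K]

/-- the monomial form `X0 ^ j * X1 ^ k` at `lt b + X tv b` -/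
noncomputable def monoK (b : Fin 12) (j k : ℕ) : Polynomial K :=
  (Polynomial.C (lt b 0 : K) + Polynomial.C (tv b 0 : K) * Polynomial.X) ^ j *
    (Polynomial.C (lt b 1 : K) + Polynomial.C (tv b 1 : K) * Polynomial.X) ^ k

/-- the fixed factor of the logarithm columns at `lt b + X tv b` -/
noncomputable def FK (m : ℕ) (b : Fin 12) : Polynomial K :=
  ∏ a, (Polynomial.C (br (lt b) (lt a) : K) +
    Polynomial.C (br (tv b) (lt a) : K) * Polynomial.X) ^ (FF a * m)

/-- the column data: the value of the T part in the direction `lt b` -/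
noncomputable def GK (m : ℕ) (b : Fin 12) : Col m → Polynomial K
  | Sum.inl (e, j) => Polynomial.C (lt b e : K) * monoK K b j (57 * m - 1 - j)
  | Sum.inr _ => 0

/-- the column data: the value of the T part in the direction `tv b` -/
noncomputable def HK (m : ℕ) (b : Fin 12) : Col m → Polynomial K
  | Sum.inl (e, j) => Polynomial.C (tv b e : K) * monoK K b j (57 * m - 1 - j)
  | Sum.inr _ => 0

/-- the column data: the coefficients of the three logarithms -/
noncomputable def qK (m : ℕ) (b : Fin 12) (u : Fin 3) : Col m → Polynomial K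
  | Sum.inl _ => 0
  | Sum.inr (u', j) => if u' = u then monoK K b j (21 * m - 1 - j) else 0

/-- the germ at `z` of the logarithm `u` over `K` -/
noncomputable def EK (u : Fin 3) (z : Fin 12) : PowerSeries K :=
  ∑ a ∈ univ.erase z, PowerSeries.C ((co u a : K) * (br (lt z) (lt a) : K)) *
    Lg ((br (tv z) (lt a) : K) / (br (lt z) (lt a) : K))

/-- the local series -/
noncomputable def xK (b z : Fin 12) : PowerSeries K := sx (cα b z : K) (cα' b z : K)
noncomputable def tK (b z : Fin 12) : PowerSeries K :=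
  st (cα b z : K) (cα' b z : K) (cβ b z : K) (cβ' b z : K)

/-- the row of the letter `z` in the coordinate of `b` -/
noncomputable def rowK (m : ℕ) (b z : Fin 12) (j : Col m) : PowerSeries K :=
  xK K b z ^ (57 * m - 1) *
    (PowerSeries.C (cα b z : K) * Polynomial.aeval (tK K b z) (GK K m b j) +
      PowerSeries.C (cβ b z : K) * Polynomial.aeval (tK K b z) (HK K m b j) +
      Polynomial.aeval (tK K b z) (FK K m b) *
        ∑ u, EK K u z * Polynomial.aeval (tK K b z) (qK K m b u j))

variable {K} [CharZero K]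

private theorem Coord_xz (z : Fin 12) (e : Fin 2) :
    PowerSeries.map (algebraMap ℚ K) (xz z e) = sx (lt z e : K) (tv z e : K) := by
  rw [xz, sx]
  simp

private theorem Coord_lz (z a : Fin 12) :
    PowerSeries.map (algebraMap ℚ K) (lf z a) =
      sx (br (lt z) (lt a) : K) (br (tv z) (lt a) : K) := by
  rw [lf, sx]
  simp

private theorem Coord_Lg (w : ℚ) :
    PowerSeries.map (algebraMap ℚ K) (Log1 w) = Lg (algebraMap ℚ K w) := by
  ext n
  rw [PowerSeries.coeff_map, Log1, Lg, PowerSeries.coeff_mk, PowerSeries.coeff_mk]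
  simp

private theorem Coord_E (u : Fin 3) (z : Fin 12) :
    PowerSeries.map (algebraMap ℚ K) (Es u z) = EK K u z := by
  rw [Es, EK, map_sum]
  refine sum_congr rfl fun a _ => ?_
  rw [map_mul, Coord_Lg]
  simp

omit [CharZero K] in
private theorem Coord_mono {b z : Fin 12} (h : (cα b z : K) ≠ 0) (j k : ℕ) :
    sx (lt z 0 : K) (tv z 0 : K) ^ j * sx (lt z 1 : K) (tv z 1 : K) ^ k =
      xK K b z ^ (j + k) * Polynomial.aeval (tK K b z) (monoK K b j k) := by
  have hz : ∀ e : Fin 2, (lt z e : K) = cα b z * lt b e + cβ b z * tv b e := fun e => by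
    rw [lt_eq b z e]
    push_cast
    rfl
  have hT : ∀ e : Fin 2, (tv z e : K) = cα' b z * lt b e + cβ' b z * tv b e := fun e => by
    rw [tv_eq b z e]
    push_cast
    rfl
  have h1 := reexp (n := j + k) (j := j) h (hz 0) (hz 1) (hT 0) (hT 1) (Nat.le_add_right j k)
  rw [Nat.add_sub_cancel_left] at h1
  exact h1

omit [CharZero K] in
private theorem Coord_F {b z : Fin 12} (h : (cα b z : K) ≠ 0) (m : ℕ) :
    ∏ a, sx (br (lt z) (lt a) : K) (br (tv z) (lt a) : K) ^ (FF a * m) =
      xK K b z ^ (36 * m) * Polynomial.aeval (tK K b z) (FK K m b) := by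
  have h1 : ∀ a : Fin 12, sx (br (lt z) (lt a) : K) (br (tv z) (lt a) : K) =
      xK K b z * (PowerSeries.C (br (lt b) (lt a) : K) +
        PowerSeries.C (br (tv b) (lt a) : K) * tK K b z) := by
    intro a
    refine sx_eq h ?_ ?_
    · rw [br_lt_eq b z a]
      push_cast
      rfl
    · rw [br_tv_eq b z a]
      push_cast
      rfl
  have h2 : (36 * m) = ∑ a, FF a * m := by
    rw [← Finset.sum_mul]
    congr 1
  rw [h2, ← prod_pow_eq_pow_sum, FK, map_prod, ← prod_mul_distrib]
  refine prod_congr rfl fun a _ => ?_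
  rw [h1 a, mul_pow]
  congr 1
  rw [map_pow, map_add, map_mul, Polynomial.aeval_C, Polynomial.aeval_C, Polynomial.aeval_X]
  rfl

/-- THE COORDINATE THEOREM: the germ at `z` of the column `j` over `K` -/
theorem coord (m : ℕ) {b z : Fin 12} (h : cα b z ≠ 0) (j : Col m) :
    PowerSeries.map (algebraMap ℚ K) (gm m z j) = rowK K m b z j := by
  have hα : (cα b z : K) ≠ 0 := Int.cast_ne_zero.mpr h
  rcases j with ⟨e, j⟩ | ⟨u, j⟩
  · have hj := j.2
    have h3 : (lt z e : K) = cα b z * lt b e + cβ b z * tv b e := by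
      rw [lt_eq b z e]
      push_cast
      rfl
    have h4 : (j : ℕ) + (57 * m - 1 - j) = 57 * m - 1 := by omega
    rw [gm, rowK, map_mul, map_mul, map_pow, map_pow, Coord_xz, Coord_xz, Coord_mono hα, h4,
      PowerSeries.map_C]
    simp only [GK, HK, qK, map_mul, map_zero, mul_zero, sum_const_zero, add_zero,
      Polynomial.aeval_C]
    rw [map_intCast, h3, map_add, map_mul, map_mul]
    change _ = xK K b z ^ (57 * m - 1) * (PowerSeries.C (cα b z : K) *
      (PowerSeries.C (lt b e : K) * _) + PowerSeries.C (cβ b z : K) *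
      (PowerSeries.C (tv b e : K) * _))
    ring
  · have hj := j.2
    have h4 : (j : ℕ) + (21 * m - 1 - j) = 21 * m - 1 := by omega
    have h5 : 36 * m + (21 * m - 1) = 57 * m - 1 := by omega
    rw [gm, rowK, Fs, map_mul, map_mul, map_mul, map_prod, map_pow, map_pow, Coord_xz, Coord_xz,
      Coord_mono hα, h4, Coord_E]
    simp only [map_pow, Coord_lz]
    rw [Coord_F hα, ← h5, pow_add]
    simp only [GK, HK, map_zero, mul_zero, zero_add]
    rw [sum_eq_single u (fun v _ hv => by rw [qK, if_neg hv.symm, map_zero, mul_zero])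
      (fun hu => absurd (mem_univ u) hu), qK, if_pos rfl]
    ring

/-- the entries of the matrix over `K` -/
theorem coord_entry (m c : ℕ) {b : Fin 12} (r : Row m c) (h : cα b r.1 ≠ 0) (j : Col m) :
    algebraMap ℚ K (Mx m c r j) = PowerSeries.coeff (r.2 : ℕ) (rowK K m b r.1 j) := by
  rw [← coord m h j, PowerSeries.coeff_map]
  rfl

end B10
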