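import Pool.Agent.Lib.B10.SBase

/-!
# Base 10, S-adic block: `Red B` gives `Red 1`
-/

set_option autoImplicit false

namespace B10

open Finset Matrix

variable {ι : Type*} [Fintype ι] [DecidableEq ι]

/-- Scaling of the rows. -/
theorem Red.to_one {K : Type*} [NormedField K] {M : Matrix ι ι K} {R : Finset ι} {B c : ℝ}
    (h : Red B M R c) {pi : K} (hpi : pi ≠ 0) {k : ℕ} (hB : B * ‖pi‖ ^ k ≤ 1) :
    Red 1 M R (c + R.card * (k * Real.log ‖pi‖⁻¹)) := by
  intro D hD H
  have hp : 0 < ‖pi‖ := norm_pos_iff.mpr hpi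
  have hv : ∏ r : ι, (if r ∈ R then pi ^ k else 1) = (pi ^ k) ^ R.card := by
    rw [← prod_filter, filter_mem_eq_inter, univ_inter, prod_const]
  have h1 := h (D * (‖pi‖⁻¹ ^ k) ^ R.card) (by positivity) (fun M' hM' hB' => by
    have h2 := H (of fun r j => (if r ∈ R then pi ^ k else 1) * M' r j)
      (fun r hr => by
        funext j
        rw [of_apply, if_neg hr, one_mul, hM' r hr])
      (fun r hr j => by
        rw [of_apply, if_pos hr, norm_mul, norm_pow, mul_comm]
        exact (mul_le_mul_of_nonneg_right (hB' r hr j) (by positivity)).trans hB)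
    rw [det_mul_column, hv, norm_mul, norm_pow, norm_pow] at h2
    rw [inv_pow, inv_pow, ← div_eq_mul_inv, le_div_iff₀ (by positivity), mul_comm]
    exact h2)
  refine h1.trans (le_of_eq ?_)
  have h3 : (‖pi‖⁻¹ ^ k) ^ R.card = Real.exp (R.card * (k * Real.log ‖pi‖⁻¹)) := by
    rw [Real.exp_nat_mul, Real.exp_nat_mul, Real.exp_log (by positivity)]
  rw [h3, mul_assoc, ← Real.exp_add, add_comm c]

/-- The form over `ℚ_[p]`. -/
theorem Red.to_one_padic {p : ℕ} [Fact p.Prime] {M : Matrix ι ι ℚ_[p]} {R : Finset ι} {B c : ℝ}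
    (h : Red B M R c) (hB : 1 ≤ B) : Red 1 M R (c + R.card * (Real.log B + Real.log p)) := by
  have hp1 : (1 : ℝ) < p := by exact_mod_cast (Fact.out : p.Prime).one_lt
  have hlp : 0 < Real.log p := Real.log_pos hp1
  have hlB : 0 ≤ Real.log B := Real.log_nonneg hB
  have hpi : (p : ℚ_[p]) ≠ 0 := by exact_mod_cast (Fact.out : p.Prime).ne_zero
  set k : ℕ := ⌈Real.log B / Real.log p⌉₊ with hk
  have h1 : Real.log B / Real.log p ≤ k := Nat.le_ceil _
  have h2 : (k : ℝ) < Real.log B / Real.log p + 1 := Nat.ceil_lt_add_one (by positivity)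
  have h3 : Real.log B ≤ k * Real.log p := by rwa [div_le_iff₀ hlp] at h1
  have h4 : k * Real.log p ≤ Real.log B + Real.log p := by
    have := mul_le_mul_of_nonneg_right h2.le hlp.le
    rwa [add_mul, one_mul, div_mul_cancel₀ _ hlp.ne'] at this
  have h5 := h.to_one hpi (k := k) (by
    rw [Padic.norm_p, inv_pow, ← div_eq_mul_inv, div_le_one (by positivity)]
    calc B = Real.exp (Real.log B) := (Real.exp_log (by linarith)).symm
      _ ≤ Real.exp (k * Real.log p) := Real.exp_le_exp.mpr h3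
      _ = (p : ℝ) ^ k := by rw [Real.exp_nat_mul, Real.exp_log (by linarith)])
  refine h5.mono ?_
  rw [Padic.norm_p, inv_inv]
  have := mul_le_mul_of_nonneg_left h4 (Nat.cast_nonneg R.card : (0 : ℝ) ≤ R.card)
  linarith

end B10
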