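import Pool.Agent.Lib.B10.SBase

/-!
# Base 10, S-adic block: toolbox for `Bd` (truncated Gauss norms of power series)

Algebra of `Bd`; `sx`, `xinv`, `st` for a letter in the disc (`‖α‖ = 1`, `‖β‖ ≤ exp (-x)`,
`‖α'‖, ‖β'‖ ≤ 1`); polynomials in `st`; the logarithm; re-expansion of the monomial forms.
-/

set_option autoImplicit false

namespace B10

open PowerSeries Finset

section basic

variable {K : Type*} [NormedField K] {L : ℕ} {x A B : ℝ} {f g : K⟦X⟧}

theorem Bd.nonneg (h : Bd x A L f) (hL : 0 < L) : 0 ≤ A := by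
  have h1 := h 0 hL
  rw [Nat.cast_zero, mul_zero, Real.exp_zero, mul_one] at h1
  exact (norm_nonneg _).trans h1

theorem Bd.mono (h : Bd x A L f) (hAB : A ≤ B) : Bd x B L f := fun i hi =>
  (h i hi).trans (mul_le_mul_of_nonneg_right hAB (Real.exp_pos _).le)

theorem Bd.mono_L {L' : ℕ} (h : Bd x A L f) (hL : L' ≤ L) : Bd x A L' f := fun i hi =>
  h i (hi.trans_le hL)

/-- A smaller disc. -/
theorem Bd.mono_x {y : ℝ} (h : Bd x A L f) (hxy : x ≤ y) : Bd y A L f := fun i hi => by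
  have hA : 0 ≤ A := h.nonneg (Nat.pos_of_ne_zero fun h0 => by omega)
  refine (h i hi).trans (mul_le_mul_of_nonneg_left (Real.exp_le_exp.mpr ?_) hA)
  exact mul_le_mul_of_nonneg_right hxy (Nat.cast_nonneg _)

theorem Bd.zero (hA : 0 ≤ A) : Bd x A L (0 : K⟦X⟧) := fun i _ => by
  rw [map_zero, norm_zero]
  positivity

theorem Bd.neg (hf : Bd x A L f) : Bd x A L (-f) := fun i hi => by
  rw [map_neg, norm_neg]
  exact hf i hi

theorem Bd.C {a : K} (ha : ‖a‖ ≤ A) : Bd x A L (C a : K⟦X⟧) := fun i _ => by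
  have hA : 0 ≤ A := (norm_nonneg _).trans ha
  rw [coeff_C]
  split_ifs with h
  · rw [h, Nat.cast_zero, mul_zero, Real.exp_zero, mul_one]
    exact ha
  · rw [norm_zero]
    positivity

theorem Bd.one : Bd x 1 L (1 : K⟦X⟧) := by
  have h := Bd.C (K := K) (L := L) (x := x) (A := 1) (a := 1) (by rw [norm_one])
  rwa [map_one] at h

/-- Congruent modulo `X ^ L`. -/
theorem Bd.congr (hf : Bd x A L f) (h : ∀ i < L, coeff i g = coeff i f) : Bd x A L g :=
  fun i hi => by
    rw [h i hi]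
    exact hf i hi

/-- Linear factors. -/
theorem Bd.sx {a b : K} (ha : ‖a‖ ≤ A) (hb : ‖b‖ ≤ A * Real.exp x) : Bd x A L (sx a b) :=
  fun i _ => by
    have hA : 0 ≤ A := (norm_nonneg _).trans ha
    rw [B10.sx, map_add, coeff_C]
    rcases i with _ | _ | i
    · rw [coeff_zero_mul_X, add_zero, if_pos rfl, Nat.cast_zero, mul_zero, Real.exp_zero, mul_one]
      exact ha
    · rw [if_neg (by omega), zero_add, coeff_succ_mul_X, coeff_C, if_pos rfl]
      simpa using hb
    · rw [if_neg (by omega), zero_add, coeff_succ_mul_X, coeff_C, if_neg (by omega), norm_zero]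
      positivity

variable [IsUltrametricDist K]

theorem Bd.add (hf : Bd x A L f) (hg : Bd x A L g) : Bd x A L (f + g) := fun i hi => by
  rw [map_add]
  exact (IsUltrametricDist.norm_add_le_max _ _).trans (max_le (hf i hi) (hg i hi))

theorem Bd.sub (hf : Bd x A L f) (hg : Bd x A L g) : Bd x A L (f - g) := by
  rw [sub_eq_add_neg]
  exact hf.add hg.neg

theorem Bd.sum {ι : Type*} (s : Finset ι) (F : ι → K⟦X⟧) (hA : 0 ≤ A)
    (h : ∀ i ∈ s, Bd x A L (F i)) : Bd x A L (∑ i ∈ s, F i) := by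
  classical
  induction s using Finset.induction_on with
  | empty => exact Bd.zero hA
  | insert i s hi ih =>
    rw [sum_insert hi]
    exact (h i (mem_insert_self _ _)).add (ih fun j hj => h j (mem_insert_of_mem hj))

theorem Bd.mul (hf : Bd x A L f) (hg : Bd x B L g) : Bd x (A * B) L (f * g) := fun i hi => by
  have hL : 0 < L := Nat.pos_of_ne_zero fun h0 => by omega
  have hA := hf.nonneg hL
  have hB := hg.nonneg hL
  rw [coeff_mul]
  refine IsUltrametricDist.norm_sum_le_of_forall_le_of_nonneg (by positivity) fun p hp => ?_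
  have hp' : p.1 + p.2 = i := mem_antidiagonal.mp hp
  rw [norm_mul]
  calc ‖coeff p.1 f‖ * ‖coeff p.2 g‖ ≤ (A * Real.exp (x * p.1)) * (B * Real.exp (x * p.2)) :=
        mul_le_mul (hf _ (by omega)) (hg _ (by omega)) (norm_nonneg _) (by positivity)
    _ = A * B * (Real.exp (x * p.1) * Real.exp (x * p.2)) := by ring
    _ = A * B * Real.exp (x * i) := by
        rw [← Real.exp_add, ← hp']
        push_cast
        ring_nf

theorem Bd.C_mul {a : K} (ha : ‖a‖ ≤ B) (hf : Bd x A L f) :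
    Bd x (B * A) L (PowerSeries.C a * f) :=
  (Bd.C ha).mul hf

theorem Bd.smul {a : K} (ha : ‖a‖ ≤ B) (hf : Bd x A L f) : Bd x (B * A) L (a • f) := by
  rw [smul_eq_C_mul]
  exact hf.C_mul ha

theorem Bd.pow (hf : Bd x A L f) (n : ℕ) : Bd x (A ^ n) L (f ^ n) := by
  induction n with
  | zero =>
    rw [pow_zero, pow_zero]
    exact Bd.one
  | succ n ih =>
    rw [pow_succ, pow_succ]
    exact ih.mul hf

theorem Bd.prod {ι : Type*} (s : Finset ι) (F : ι → K⟦X⟧) (a : ι → ℝ)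
    (h : ∀ i ∈ s, Bd x (a i) L (F i)) : Bd x (∏ i ∈ s, a i) L (∏ i ∈ s, F i) := by
  classical
  induction s using Finset.induction_on with
  | empty =>
    rw [prod_empty, prod_empty]
    exact Bd.one
  | insert i s hi ih =>
    rw [prod_insert hi, prod_insert hi]
    exact (h i (mem_insert_self _ _)).mul (ih fun j hj => h j (mem_insert_of_mem hj))

/-- The inverse of a series with unit constant term. -/
theorem Bd.inv (hf : Bd x 1 L f) (h0 : ‖constantCoeff f‖ = 1) : Bd x 1 L f⁻¹ := by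
  intro i
  induction i using Nat.strong_induction_on with
  | _ i ih =>
    intro hi
    rw [coeff_inv]
    split_ifs with h
    · subst h
      rw [norm_inv, h0, Nat.cast_zero, mul_zero, Real.exp_zero, mul_one, inv_one]
    · rw [norm_mul, norm_neg, norm_inv, h0, inv_one, one_mul]
      refine IsUltrametricDist.norm_sum_le_of_forall_le_of_nonneg (by positivity) fun p hp => ?_
      have hp' : p.1 + p.2 = i := mem_antidiagonal.mp hp
      split_ifs with h2
      · rw [norm_mul]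
        calc ‖coeff p.1 f‖ * ‖coeff p.2 f⁻¹‖ ≤ (1 * Real.exp (x * p.1)) * (1 * Real.exp (x * p.2)) :=
              mul_le_mul (hf _ (by omega)) (ih _ h2 (by omega)) (norm_nonneg _) (by positivity)
          _ = 1 * (Real.exp (x * p.1) * Real.exp (x * p.2)) := by ring
          _ = 1 * Real.exp (x * i) := by
              rw [← Real.exp_add, ← hp']
              push_cast
              ring_nf
      · rw [norm_zero]
        positivity

/-- Polynomials in a series of weight one. -/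
theorem Bd.aeval (P : Polynomial K) (hP : ∀ k, ‖P.coeff k‖ ≤ B) (hf : Bd x A L f) (hA : 0 ≤ A)
    (hA1 : A ≤ 1) : Bd x B L (Polynomial.aeval f P) := by
  have hB : 0 ≤ B := (norm_nonneg _).trans (hP 0)
  rw [Polynomial.aeval_eq_sum_range]
  refine Bd.sum _ _ hB fun k _ => ?_
  have h1 := (hf.pow k).smul (hP k)
  refine h1.mono ?_
  have h2 : A ^ k ≤ 1 := pow_le_one₀ hA hA1
  nlinarith

end basic

section letter

variable {K : Type*} [NormedField K] {L : ℕ} {x : ℝ} {α α' β β' : K}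

theorem coeff_xinv (j : ℕ) : coeff j (xinv α α') = (-α') ^ j / α ^ (j + 1) := coeff_mk _ _

theorem constantCoeff_sx : constantCoeff (sx α α') = α := by
  rw [sx, map_add, constantCoeff_C, map_mul, constantCoeff_X, mul_zero, add_zero]

theorem sx_mul_xinv (h : α ≠ 0) : sx α α' * xinv α α' = 1 := by
  ext i
  rw [sx, add_mul, map_add, coeff_C_mul, coeff_xinv, mul_assoc, coeff_C_mul]
  rcases i with _ | i
  · rw [coeff_zero_X_mul, coeff_one, if_pos rfl]
    field_simp
    ring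
  · rw [coeff_succ_X_mul, coeff_xinv, coeff_one, if_neg (Nat.succ_ne_zero i)]
    field_simp
    ring

theorem sx_mul_st (h : α ≠ 0) : sx α α' * st α α' β β' = sx β β' := by
  rw [st, mul_left_comm, sx_mul_xinv h, mul_one]

theorem xinv_eq_inv (h : α ≠ 0) : xinv α α' = (sx α α')⁻¹ := by
  have hc : constantCoeff (sx α α') ≠ 0 := by
    rw [constantCoeff_sx]
    exact h
  have h1 := sx_mul_xinv (α' := α') h
  calc xinv α α' = ((sx α α')⁻¹ * sx α α') * xinv α α' := by
        rw [mul_comm _ (sx α α'), PowerSeries.mul_inv_cancel _ hc, one_mul]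
    _ = (sx α α')⁻¹ := by rw [mul_assoc, h1, mul_one]

/-- `sx` and its powers are bounded by one on every disc in the unit disc. -/
theorem bd_sx (hx : 0 ≤ x) (h1 : ‖α‖ ≤ 1) (h2 : ‖α'‖ ≤ 1) : Bd x 1 L (sx α α') := by
  have h : Bd 0 1 L (sx α α') := Bd.sx h1 (by rw [Real.exp_zero, mul_one]; exact h2)
  exact h.mono_x hx

theorem bd_xinv (hx : 0 ≤ x) (h1 : ‖α‖ = 1) (h2 : ‖α'‖ ≤ 1) : Bd x 1 L (xinv α α') := by
  intro i _
  rw [coeff_xinv, norm_div, norm_pow, norm_pow, norm_neg, h1, one_pow, div_one, one_mul]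
  have h3 : (1 : ℝ) ≤ Real.exp (x * i) := by
    rw [← Real.exp_zero]
    exact Real.exp_le_exp.mpr (by positivity)
  exact (pow_le_one₀ (norm_nonneg _) h2).trans h3

/-- `β + β' X` on the disc of radius `exp (-x)`. -/
theorem bd_sx_exp (h1 : ‖β‖ ≤ Real.exp (-x)) (h2 : ‖β'‖ ≤ 1) : Bd x (Real.exp (-x)) L (sx β β') :=
  Bd.sx h1 (by rw [← Real.exp_add, neg_add_cancel, Real.exp_zero]; exact h2)

variable [IsUltrametricDist K]

theorem bd_sx_pow (hx : 0 ≤ x) (h1 : ‖α‖ ≤ 1) (h2 : ‖α'‖ ≤ 1) (n : ℕ) :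
    Bd x 1 L (sx α α' ^ n) := by
  have h := (bd_sx (L := L) hx h1 h2).pow n
  rwa [one_pow] at h

theorem bd_sx_exp_pow (h1 : ‖β‖ ≤ Real.exp (-x)) (h2 : ‖β'‖ ≤ 1) (n : ℕ) :
    Bd x (Real.exp (-(x * n))) L (sx β β' ^ n) := by
  have h := (bd_sx_exp (L := L) h1 h2).pow n
  rwa [← Real.exp_nat_mul, mul_neg, mul_comm (n : ℝ) x] at h

/-- The local coordinate. -/
theorem bd_st (hx : 0 ≤ x) (h1 : ‖α‖ = 1) (h2 : ‖α'‖ ≤ 1) (h3 : ‖β‖ ≤ Real.exp (-x))
    (h4 : ‖β'‖ ≤ 1) : Bd x (Real.exp (-x)) L (st α α' β β') := by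
  have h := (bd_sx_exp (L := L) h3 h4).mul (bd_xinv hx h1 h2)
  rwa [mul_one] at h

/-- Powers of the local coordinate: weight `j`. -/
theorem bd_st_pow (hx : 0 ≤ x) (h1 : ‖α‖ = 1) (h2 : ‖α'‖ ≤ 1) (h3 : ‖β‖ ≤ Real.exp (-x))
    (h4 : ‖β'‖ ≤ 1) (j : ℕ) : Bd x (Real.exp (-(x * j))) L (st α α' β β' ^ j) := by
  have h := (bd_st (L := L) hx h1 h2 h3 h4).pow j
  rwa [← Real.exp_nat_mul, mul_neg, mul_comm (j : ℝ) x] at h

theorem bd_aeval_st (hx : 0 ≤ x) (h1 : ‖α‖ = 1) (h2 : ‖α'‖ ≤ 1) (h3 : ‖β‖ ≤ Real.exp (-x))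
    (h4 : ‖β'‖ ≤ 1) {B : ℝ} (P : Polynomial K) (hP : ∀ k, ‖P.coeff k‖ ≤ B) :
    Bd x B L (Polynomial.aeval (st α α' β β') P) :=
  Bd.aeval P hP (bd_st hx h1 h2 h3 h4) (Real.exp_pos _).le (by
    rw [← Real.exp_zero]
    exact Real.exp_le_exp.mpr (by linarith))

omit [IsUltrametricDist K] in
/-- A polynomial in `st` as a sum over the coefficients. -/
theorem aeval_st_eq (P : Polynomial K) {n : ℕ} (hn : P.natDegree < n) (f : K⟦X⟧) :
    Polynomial.aeval f P = ∑ k ∈ range n, PowerSeries.C (P.coeff k) * f ^ k := by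
  rw [Polynomial.aeval_eq_sum_range' hn]
  exact sum_congr rfl fun k _ => smul_eq_C_mul _ _

end letter

section reexp

variable {K : Type*} [NormedField K] {α α' β β' e₀ e₁ t₀ t₁ z₀ z₁ s₀ s₁ : K}

theorem sx_eq (hα : α ≠ 0) {e t z s : K} (hz : z = α * e + β * t) (hs : s = α' * e + β' * t) :
    sx z s = sx α α' * (C e + C t * st α α' β β') := by
  rw [mul_add, mul_left_comm (sx α α'), sx_mul_st hα, sx, sx, sx, hz, hs]
  simp only [map_add, map_mul]
  ring

/-- `z + X s` in the coordinates `e, t`: `z = α e + β t`, `s = α' e + β' t`. The monomial forms of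
degree `n` at `z + X s` are `sx ^ n` times polynomials in `st`, the same for all letters. -/
theorem reexp (hα : α ≠ 0) (hz₀ : z₀ = α * e₀ + β * t₀) (hz₁ : z₁ = α * e₁ + β * t₁)
    (hs₀ : s₀ = α' * e₀ + β' * t₀) (hs₁ : s₁ = α' * e₁ + β' * t₁) {n j : ℕ} (hj : j ≤ n) :
    sx z₀ s₀ ^ j * sx z₁ s₁ ^ (n - j) = sx α α' ^ n * Polynomial.aeval (st α α' β β')
      ((Polynomial.C e₀ + Polynomial.C t₀ * Polynomial.X) ^ j *
        (Polynomial.C e₁ + Polynomial.C t₁ * Polynomial.X) ^ (n - j)) := by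
  rw [sx_eq hα hz₀ hs₀, sx_eq hα hz₁ hs₁, mul_pow, mul_pow, mul_mul_mul_comm, ← pow_add,
    Nat.add_sub_cancel' hj]
  congr 1
  simp only [map_mul, map_pow, map_add, Polynomial.aeval_X, Polynomial.aeval_C]
  rfl

theorem natDegree_lin_le (e t : K) :
    (Polynomial.C e + Polynomial.C t * Polynomial.X).natDegree ≤ 1 := by
  rw [add_comm]
  exact Polynomial.natDegree_linear_le

theorem natDegree_forms_le {n j : ℕ} (hj : j ≤ n) :
    ((Polynomial.C e₀ + Polynomial.C t₀ * Polynomial.X) ^ j *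
      (Polynomial.C e₁ + Polynomial.C t₁ * Polynomial.X) ^ (n - j)).natDegree ≤ n := by
  have h2 := Polynomial.natDegree_mul_le (p := (Polynomial.C e₀ + Polynomial.C t₀ *
    Polynomial.X) ^ j) (q := (Polynomial.C e₁ + Polynomial.C t₁ * Polynomial.X) ^ (n - j))
  have h3 := Polynomial.natDegree_pow_le_of_le j (natDegree_lin_le e₀ t₀)
  have h4 := Polynomial.natDegree_pow_le_of_le (n - j) (natDegree_lin_le e₁ t₁)
  omega

end reexp

section log

theorem coeff_Lg {K : Type*} [NormedField K] (w : K) (j : ℕ) :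
    coeff j (Lg w) = (-1) ^ (j + 1) * w ^ j / j := coeff_mk _ _

theorem constantCoeff_Lg {K : Type*} [NormedField K] (w : K) : constantCoeff (Lg w) = 0 := by
  rw [← coeff_zero_eq_constantCoeff_apply, coeff_Lg, Nat.cast_zero, div_zero]

variable {p : ℕ} [Fact p.Prime]

theorem norm_intCast_le_exp {k : ℕ} {b : ℤ} (h : (p : ℤ) ^ k ∣ b) :
    ‖(b : ℚ_[p])‖ ≤ Real.exp (-(k * Real.log p)) := by
  have hp : (0 : ℝ) < p := by exact_mod_cast (Fact.out : p.Prime).pos
  have h1 := (Padic.norm_int_le_pow_iff_dvd b k).mpr (by exact_mod_cast h)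
  rwa [neg_mul_eq_mul_neg, mul_comm, Real.exp_mul, Real.exp_neg, Real.exp_log hp, Real.rpow_natCast,
    inv_pow, ← zpow_natCast, ← zpow_neg]

theorem norm_intCast_eq_one {b : ℤ} (h : ¬ (p : ℤ) ∣ b) : ‖(b : ℚ_[p])‖ = 1 := by
  have h1 : ¬ ‖(b : ℚ_[p])‖ < 1 := fun h2 => h (Padic.norm_intCast_lt_one_iff.mp h2)
  exact le_antisymm (Padic.norm_int_le_one b) (not_lt.mp h1)

/-- `‖1 / j‖ ≤ j` in `ℚ_p`. -/
theorem norm_natCast_inv_le (j : ℕ) : ‖((j : ℚ_[p]))⁻¹‖ ≤ j := by
  rcases Nat.eq_zero_or_pos j with rfl | hj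
  · simp
  · have hj0 : (j : ℚ_[p]) ≠ 0 := Nat.cast_ne_zero.mpr hj.ne'
    have h1 : ‖(j : ℚ_[p])‖ = (p : ℝ) ^ (-(padicValNat p j : ℤ)) := by
      rw [Padic.norm_eq_zpow_neg_valuation hj0, Padic.valuation_natCast]
    have hp : (0 : ℝ) < p := by exact_mod_cast (Fact.out : p.Prime).pos
    rw [norm_inv, h1, zpow_neg, inv_inv, zpow_natCast]
    exact_mod_cast Nat.le_of_dvd hj pow_padicValNat_dvd

/-- The logarithm: bounded by `L` modulo `X ^ L` on the disc of convergence. -/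
theorem bd_Lg {L : ℕ} {x : ℝ} {w : ℚ_[p]} (hw : ‖w‖ ≤ Real.exp x) : Bd x L L (Lg w) := by
  intro i hi
  rw [coeff_Lg, div_eq_mul_inv, norm_mul, norm_mul, norm_pow, norm_pow, norm_neg, norm_one, one_pow,
    one_mul]
  have h1 : ‖w‖ ^ i ≤ Real.exp (x * i) := by
    rw [mul_comm, Real.exp_nat_mul]
    exact pow_le_pow_left₀ (norm_nonneg _) hw i
  have h2 : ‖((i : ℚ_[p]))⁻¹‖ ≤ L := (norm_natCast_inv_le i).trans (by exact_mod_cast hi.le)
  calc ‖w‖ ^ i * ‖((i : ℚ_[p]))⁻¹‖ ≤ Real.exp (x * i) * L :=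
        mul_le_mul h1 h2 (norm_nonneg _) (Real.exp_pos _).le
    _ = L * Real.exp (x * i) := mul_comm _ _

end log

end B10
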