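import Pool.Agent.Lib.B10.SBase

/-!
# Base 10, S-adic block, type B: one disc, all families honest

Rows = coefficients of `P (α G(t) + β H(t) + ∑ E_u q_u(t))`; every row pays `lam` (in the units of
the orders), the constant is `(2 lam ^ 2 + #U (lam - fc) ^ 2) / 2`.
-/

set_option autoImplicit false

namespace B10

open Finset Matrix Polynomial

section bd

variable {K : Type*} [NormedField K] [IsUltrametricDist K]

theorem STypeB_bd_mul {x A B : ℝ} {L : ℕ} {P Q : PowerSeries K} (hA : 0 ≤ A) (hB : 0 ≤ B)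
    (hP : Bd x A L P) (hQ : Bd x B L Q) : Bd x (A * B) L (P * Q) := by
  intro i hi
  rw [PowerSeries.coeff_mul]
  refine norm_sum_le_of_forall _ _ _ (by positivity) fun p hp => ?_
  have h1 : p.1 + p.2 = i := Finset.HasAntidiagonal.mem_antidiagonal.mp hp
  rw [norm_mul]
  calc ‖PowerSeries.coeff p.1 P‖ * ‖PowerSeries.coeff p.2 Q‖
      ≤ (A * Real.exp (x * p.1)) * (B * Real.exp (x * p.2)) :=
        mul_le_mul (hP _ (by omega)) (hQ _ (by omega)) (norm_nonneg _) (by positivity)
    _ = A * B * Real.exp (x * i) := by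
        rw [mul_mul_mul_comm, ← Real.exp_add]
        congr 2
        rw [← h1]; push_cast; ring

omit [IsUltrametricDist K] in
theorem STypeB_bd_C {x : ℝ} {L : ℕ} (hx : 0 ≤ x) (a : K) : Bd x ‖a‖ L (PowerSeries.C a) := by
  intro i _
  rw [PowerSeries.coeff_C]
  split_ifs with h
  · subst h; simp
  · rw [norm_zero]; positivity

theorem STypeB_bd_one {x : ℝ} {L : ℕ} (hx : 0 ≤ x) : Bd x 1 L (1 : PowerSeries K) := by
  have := STypeB_bd_C (L := L) hx (1 : K)
  simpa using this

theorem STypeB_bd_mono {x A B : ℝ} {L : ℕ} {P : PowerSeries K} (h : A ≤ B) (hP : Bd x A L P) :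
    Bd x B L P := fun i hi => (hP i hi).trans (mul_le_mul_of_nonneg_right h (Real.exp_pos _).le)

theorem STypeB_bd_pow {x y : ℝ} {L : ℕ} (hx : 0 ≤ x) {t : PowerSeries K}
    (ht : Bd x (Real.exp (-y)) L t) (m : ℕ) : Bd x (Real.exp (-(y * m))) L (t ^ m) := by
  induction m with
  | zero =>
    simpa using STypeB_bd_one (K := K) (L := L) hx
  | succ m ih =>
    rw [pow_succ]
    have := STypeB_bd_mul (Real.exp_pos _).le (Real.exp_pos _).le ih ht
    refine STypeB_bd_mono (le_of_eq ?_) this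
    rw [← Real.exp_add]
    congr 1; push_cast; ring

theorem STypeB_aeval (t : PowerSeries K) (p : K[X]) {D : ℕ} (hD : p.natDegree < D) :
    aeval t p = ∑ m : Fin D, PowerSeries.C (p.coeff m) * t ^ (m : ℕ) := by
  rw [aeval_eq_sum_range' hD, Finset.sum_range]
  refine Finset.sum_congr rfl fun m _ => ?_
  rw [PowerSeries.smul_eq_C_mul]

end bd

variable {ι : Type*} [Fintype ι] [DecidableEq ι]

/-- **Type B**: one disc, all families honest. -/
theorem red_typeB {K : Type*} [NormedField K] [IsUltrametricDist K] {U : Type} [Fintype U]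
    [DecidableEq U] (M : Matrix ι ι K) (R : Finset ι) (ord : ι → ℕ) (L D : ℕ) [NeZero D]
    (x B : ℝ) (hx : 0 ≤ x) (hB : 1 ≤ B) (G H : ι → K[X]) (q : U → ι → K[X])
    (hG : ∀ j k, ‖(G j).coeff k‖ ≤ 1) (hH : ∀ j k, ‖(H j).coeff k‖ ≤ 1)
    (hq : ∀ u j k, ‖(q u j).coeff k‖ ≤ 1)
    (hGD : ∀ j, (G j).natDegree < D) (hHD : ∀ j, (H j).natDegree < D)
    (hqD : ∀ u j, (q u j).natDegree < D)
    (P : ι → PowerSeries K) (al be : ι → K) (t : ι → PowerSeries K) (E : ι → U → PowerSeries K)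
    (hrow : ∀ r ∈ R, ∀ j, M r j = PowerSeries.coeff (ord r) (P r *
      (PowerSeries.C (al r) * aeval (t r) (G j) + PowerSeries.C (be r) * aeval (t r) (H j) +
        ∑ u, E r u * aeval (t r) (q u j))))
    (hord : ∀ r ∈ R, ord r < L) (hP : ∀ r ∈ R, Bd x 1 L (P r)) (hal : ∀ r ∈ R, ‖al r‖ ≤ 1)
    (hbe : ∀ r ∈ R, ‖be r‖ ≤ 1) (ht : ∀ r ∈ R, Bd x (Real.exp (-x)) L (t r)) (fc : ℝ)
    (hE : ∀ r ∈ R, ∀ u, Bd x (B * Real.exp (-(x * fc))) L (E r u)) (lam : ℝ) :
    Red 1 M R (x * ∑ r ∈ R, ((ord r : ℝ) - lam) +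
      x * ((2 * lam ^ 2 + Fintype.card U * (lam - fc) ^ 2) / 2 + (R.card : ℝ) / 2) +
      R.card * Real.log B) := by
  classical
  have hB0 : 0 ≤ B := by linarith
  -- the slots
  set V : (Bool ⊕ U) × Fin D → ι → K := fun s j =>
    match s.1 with
    | Sum.inl false => (G j).coeff s.2
    | Sum.inl true => (H j).coeff s.2
    | Sum.inr u => (q u j).coeff s.2 with hVdef
  set a : ι → (Bool ⊕ U) × Fin D → K := fun r s =>
    match s.1 with
    | Sum.inl false =>
      PowerSeries.coeff (ord r) (P r * (PowerSeries.C (al r) * t r ^ (s.2 : ℕ)))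
    | Sum.inl true =>
      PowerSeries.coeff (ord r) (P r * (PowerSeries.C (be r) * t r ^ (s.2 : ℕ)))
    | Sum.inr u => PowerSeries.coeff (ord r) (P r * (E r u * t r ^ (s.2 : ℕ))) with hadef
  have hM : ∀ r ∈ R, M r = ∑ s, a r s • V s := by
    intro r hr
    funext j
    rw [hrow r hr j, Finset.sum_apply, Fintype.sum_prod_type, Fintype.sum_sum_type,
      Fintype.sum_bool]
    have e1 : ∀ (c : PowerSeries K) (p : K[X]), p.natDegree < D →
        PowerSeries.coeff (ord r) (P r * (c * aeval (t r) p)) =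
          ∑ m : Fin D, PowerSeries.coeff (ord r) (P r * (c * t r ^ (m : ℕ))) * p.coeff m := by
      intro c p hp
      rw [STypeB_aeval (t r) p hp, Finset.mul_sum, Finset.mul_sum, map_sum]
      refine Finset.sum_congr rfl fun m _ => ?_
      have : P r * (c * (PowerSeries.C (p.coeff m) * t r ^ (m : ℕ))) =
          PowerSeries.C (p.coeff m) * (P r * (c * t r ^ (m : ℕ))) := by ring
      rw [this, PowerSeries.coeff_C_mul, mul_comm]
    rw [mul_add, mul_add, map_add, map_add, e1 _ _ (hGD j), e1 _ _ (hHD j), Finset.mul_sum,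
      map_sum]
    simp only [hadef, hVdef, Pi.smul_apply, smul_eq_mul]
    rw [Finset.sum_congr rfl fun u _ => e1 (E r u) (q u j) (hqD u j)]
    ring
  have hV : ∀ s j, ‖V s j‖ ≤ 1 := by
    rintro ⟨f, m⟩ j
    rcases f with (_ | _) | u
    · exact hG j m
    · exact hH j m
    · exact hq u j m
  have ha : ∀ r ∈ R, ∀ s : (Bool ⊕ U) × Fin D, ‖a r s‖ ≤ B * Real.exp (x * ((ord r : ℝ) - lam) +
      x * ((fun f : Bool ⊕ U => Sum.elim (fun _ => lam) (fun _ => lam - fc) f) s.1
        - ((s.2 : ℕ) : ℝ))) := by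
    rintro r hr ⟨f, m⟩
    have hT : ∀ c : K, ‖c‖ ≤ 1 →
        ‖PowerSeries.coeff (ord r) (P r * (PowerSeries.C c * t r ^ (m : ℕ)))‖ ≤
          Real.exp (x * ((ord r : ℝ) - (m : ℕ))) := by
      intro c hc
      have h1 := STypeB_bd_mul zero_le_one (by positivity) (hP r hr)
        (STypeB_bd_mul zero_le_one (Real.exp_pos _).le
          (STypeB_bd_mono hc (STypeB_bd_C (L := L) hx c)) (STypeB_bd_pow hx (ht r hr) (m : ℕ)))
        (ord r) (hord r hr)
      refine h1.trans (le_of_eq ?_)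
      rw [one_mul, one_mul, ← Real.exp_add]
      congr 1; ring
    rcases f with (_ | _) | u
    · refine (hT _ (hal r hr)).trans ?_
      have : x * ((ord r : ℝ) - lam) + x * (lam - ((m : ℕ) : ℝ)) = x * ((ord r : ℝ) - (m : ℕ)) := by
        ring
      simp only [Sum.elim_inl, this]
      exact le_mul_of_one_le_left (Real.exp_pos _).le hB
    · refine (hT _ (hbe r hr)).trans ?_
      have : x * ((ord r : ℝ) - lam) + x * (lam - ((m : ℕ) : ℝ)) = x * ((ord r : ℝ) - (m : ℕ)) := by
        ring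
      simp only [Sum.elim_inl, this]
      exact le_mul_of_one_le_left (Real.exp_pos _).le hB
    · have h1 := STypeB_bd_mul zero_le_one (by positivity) (hP r hr)
        (STypeB_bd_mul (by positivity) (Real.exp_pos _).le (hE r hr u)
          (STypeB_bd_pow hx (ht r hr) (m : ℕ))) (ord r) (hord r hr)
      refine h1.trans (le_of_eq ?_)
      simp only [Sum.elim_inr]
      rw [one_mul, mul_assoc, mul_assoc, ← Real.exp_add, ← Real.exp_add]
      congr 2; ring
  have h := Red.of_step 1 M R a V hM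
    (fun f : Bool ⊕ U => Sum.elim (fun _ => lam) (fun _ => lam - fc) f) x B hx hB
    (fun r => x * ((ord r : ℝ) - lam)) ha hV
  refine h.mono (le_of_eq ?_)
  rw [Fintype.sum_sum_type, Fintype.sum_bool]
  simp only [Sum.elim_inl, Sum.elim_inr, Finset.sum_const, Finset.card_univ, nsmul_eq_mul]
  rw [Finset.mul_sum]
  ring

end B10
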