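import Pool.Agent.Lib.B10.Defs
import Pool.Agent.Lib.B10.STypeB
import Pool.Agent.Lib.B10.GaussN

/-!
# Base 10, S-adic block: the rows

Tools for all primes `p`: combination of the reductions (`Red.union`, `Red.det_le`), the number of the
omitted rows and of the extra rows (`sum_rows_le`), the entries of the matrix in `ℚ_[p]` (`entry_le`),
the assembly (`final_le`).
-/

set_option autoImplicit false

namespace B10

open Finset Matrix

section red

variable {ι : Type*} [Fintype ι] [DecidableEq ι] {K : Type*} [NormedField K]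

theorem Red.union {M : Matrix ι ι K} {R R' : Finset ι} {B c c' : ℝ} (h : Red B M R c)
    (h' : ∀ M' : Matrix ι ι K, (∀ r ∉ R, M' r = M r) → Red B M' R' c') :
    Red B M (R ∪ R') (c + c') := by
  intro D hD H
  have h1 := h (D * Real.exp c') (by positivity) (fun M' hM' hB' =>
    h' M' hM' D hD (fun M'' hM'' hB'' => H M'' (fun r hr => by
      rw [Finset.mem_union, not_or] at hr
      rw [hM'' r hr.2, hM' r hr.1]) (fun r hr j => by
      by_cases h2 : r ∈ R'
      · exact hB'' r h2 j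
      · rw [hM'' r h2]
        exact hB' r ((Finset.mem_union.mp hr).resolve_right h2) j)))
  rw [Real.exp_add, mul_comm (Real.exp c), ← mul_assoc]
  exact h1

theorem Red.det_le [IsUltrametricDist K] {M : Matrix ι ι K} {R : Finset ι} {c : ℝ}
    (h : Red 1 M R c) (B : ι → ℝ) (hB : ∀ r ∉ R, ∀ j, ‖M r j‖ ≤ B r) :
    ‖M.det‖ ≤ (∏ r ∈ univ \ R, B r) * Real.exp c := by
  have hB0 : ∀ r ∉ R, 0 ≤ B r := fun r hr => (norm_nonneg _).trans (hB r hr r)
  refine h _ (prod_nonneg fun r hr => hB0 r (mem_sdiff.mp hr).2) fun M' hM' hM1 => ?_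
  have h1 := det_le_of_rows M' (fun r => if r ∈ R then 1 else B r) (fun r j => by
    split_ifs with h2
    · exact hM1 r h2 j
    · rw [hM' r h2]
      exact hB r h2 j)
  refine h1.trans (le_of_eq ?_)
  rw [← prod_sdiff (subset_univ R), prod_congr rfl (fun r hr => if_neg (mem_sdiff.mp hr).2),
    prod_congr (s₁ := R) rfl (fun r hr => if_pos hr), prod_const_one, mul_one]

theorem Red.empty {M : Matrix ι ι K} {B : ℝ} : Red B M ∅ 0 := by
  intro D _ H
  rw [Real.exp_zero, mul_one]
  exact H M (fun _ _ => rfl) (fun r hr => absurd hr (notMem_empty r))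

end red

section rows

variable {m c : ℕ}

private theorem SRows_sum_LL : ∑ z, LL z = 177 := by decide

theorem card_Row : Fintype.card (Row m c) = 177 * m + 12 * c := by
  rw [Fintype.card_sigma]
  simp only [Fintype.card_fin]
  rw [sum_add_distrib, ← sum_mul, SRows_sum_LL, sum_const, card_univ, Fintype.card_fin, smul_eq_mul]

/-- An injective choice of the rows omits at most `12 c` rows. -/
theorem sum_rows_le (x : Col m → Row m c) (hx : Function.Injective x) (S : Finset (Row m c))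
    (f : Row m c → ℝ) (B : ℝ) (hB : 0 ≤ B) (hf : ∀ s ∈ S, -B ≤ f s) :
    ∑ r ∈ univ.filter (fun r => x r ∈ S), f (x r) ≤ ∑ s ∈ S, f s + 12 * c * B := by
  classical
  have h1 : ∑ r ∈ univ.filter (fun r => x r ∈ S), f (x r) =
      ∑ s ∈ (univ.filter (fun r => x r ∈ S)).image x, f s :=
    (sum_image fun a _ b _ h => hx h).symm
  have hsub : (univ.filter (fun r => x r ∈ S)).image x ⊆ S := by
    intro s hs
    obtain ⟨r, hr, rfl⟩ := mem_image.mp hs
    exact (mem_filter.mp hr).2
  rw [h1, ← sum_sdiff hsub]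
  have h2 : (S \ (univ.filter (fun r => x r ∈ S)).image x).card ≤ 12 * c := by
    have h3 : S \ (univ.filter (fun r => x r ∈ S)).image x ⊆ univ \ univ.image x := by
      intro s hs
      rw [mem_sdiff] at hs ⊢
      refine ⟨mem_univ s, fun h4 => hs.2 ?_⟩
      obtain ⟨r, -, rfl⟩ := mem_image.mp h4
      exact mem_image.mpr ⟨r, mem_filter.mpr ⟨mem_univ r, hs.1⟩, rfl⟩
    refine (card_le_card h3).trans ?_
    rw [card_sdiff_of_subset (subset_univ _), card_image_of_injective _ hx, card_univ, card_univ,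
      card_Row, card_Col]
    omega
  have h5 : -(12 * c * B) ≤
      ∑ s ∈ S \ (univ.filter (fun r => x r ∈ S)).image x, f s := by
    have h6 : ∑ s ∈ S \ (univ.filter (fun r => x r ∈ S)).image x, -B ≤
        ∑ s ∈ S \ (univ.filter (fun r => x r ∈ S)).image x, f s :=
      sum_le_sum fun s hs => hf s (mem_sdiff.mp hs).1
    rw [sum_const, nsmul_eq_mul] at h6
    have h7 : ((S \ (univ.filter (fun r => x r ∈ S)).image x).card : ℝ) ≤ 12 * c := by
      exact_mod_cast h2
    nlinarith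
  linarith

/-- the rows `(z, i)`, `z ∈ Cs`, `i < LL z * m` -/
def RS (m c : ℕ) (Cs : Finset (Fin 12)) : Finset (Row m c) :=
  univ.filter fun s => s.1 ∈ Cs ∧ (s.2 : ℕ) < LL s.1 * m

theorem mem_RS {Cs : Finset (Fin 12)} {s : Row m c} :
    s ∈ RS m c Cs ↔ s.1 ∈ Cs ∧ (s.2 : ℕ) < LL s.1 * m := by
  rw [RS, mem_filter, and_iff_right (mem_univ s)]

theorem sum_RS (Cs : Finset (Fin 12)) (f : Fin 12 → ℕ → ℝ) :
    ∑ s ∈ RS m c Cs, f s.1 s.2 = ∑ z ∈ Cs, ∑ i ∈ range (LL z * m), f z i := by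
  rw [RS, sum_filter, Fintype.sum_sigma]
  have h1 : ∀ z : Fin 12, (∑ i : Fin (LL z * m + c),
      if (⟨z, i⟩ : Row m c).1 ∈ Cs ∧ ((⟨z, i⟩ : Row m c).2 : ℕ) < LL (⟨z, i⟩ : Row m c).1 * m then
        f (⟨z, i⟩ : Row m c).1 (⟨z, i⟩ : Row m c).2 else 0) =
      if z ∈ Cs then ∑ i ∈ range (LL z * m), f z i else 0 := by
    intro z
    by_cases hz : z ∈ Cs
    · rw [if_pos hz]
      have h2 := Finset.sum_range (n := LL z * m + c)
        (fun i => if z ∈ Cs ∧ i < LL z * m then f z i else 0)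
      refine h2.symm.trans ?_
      rw [← sum_filter]
      refine sum_congr ?_ fun _ _ => rfl
      ext i
      rw [mem_filter, mem_range, mem_range]
      constructor
      · exact fun h => h.2.2
      · exact fun h => ⟨by omega, hz, h⟩
    · rw [if_neg hz]
      exact sum_eq_zero fun i _ => if_neg fun h => hz h.1
  rw [sum_congr rfl fun z _ => h1 z, ← sum_filter]
  refine sum_congr ?_ fun _ _ => rfl
  ext z
  rw [mem_filter, and_iff_right (mem_univ z)]

/-- the chosen rows in `RS` -/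
def RC {m c : ℕ} (x : Col m → Row m c) (Cs : Finset (Fin 12)) : Finset (Col m) :=
  univ.filter fun r => x r ∈ RS m c Cs

theorem mem_RC {x : Col m → Row m c} {Cs : Finset (Fin 12)} {r : Col m} :
    r ∈ RC x Cs ↔ (x r).1 ∈ Cs ∧ ((x r).2 : ℕ) < LL (x r).1 * m := by
  rw [RC, mem_filter, and_iff_right (mem_univ r), mem_RS]

/-- The sum over the chosen rows of some letters. -/
theorem sum_RC_le (x : Col m → Row m c) (hx : Function.Injective x) (Cs : Finset (Fin 12))
    (f : Fin 12 → ℕ → ℝ) (B : ℝ) (hB : 0 ≤ B)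
    (hf : ∀ z ∈ Cs, ∀ i < LL z * m, -B ≤ f z i) :
    ∑ r ∈ RC x Cs, f (x r).1 (x r).2 ≤
      ∑ z ∈ Cs, ∑ i ∈ range (LL z * m), f z i + 12 * c * B := by
  rw [← sum_RS (c := c)]
  exact sum_rows_le x hx (RS m c Cs) (fun s => f s.1 s.2) B hB fun s hs => by
    rw [mem_RS] at hs
    exact hf s.1 hs.1 s.2 hs.2

theorem card_RC_le (x : Col m → Row m c) (hx : Function.Injective x) (Cs : Finset (Fin 12)) :
    (RC x Cs).card ≤ (∑ z ∈ Cs, LL z) * m := by
  have h1 : (RC x Cs).card = ((RC x Cs).image x).card := (card_image_of_injective _ hx).symm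
  have h2 : (RC x Cs).image x ⊆ RS m c Cs := by
    intro s hs
    obtain ⟨r, hr, rfl⟩ := mem_image.mp hs
    exact (mem_filter.mp hr).2
  have h3 : ((RS m c Cs).card : ℝ) = ((∑ z ∈ Cs, LL z) * m : ℕ) := by
    have h4 := sum_RS (m := m) (c := c) Cs (fun _ _ => (1 : ℝ))
    simp only [sum_const, card_range, nsmul_eq_mul, mul_one] at h4
    rw [h4]
    push_cast
    rw [sum_mul]
  rw [h1]
  refine (card_le_card h2).trans ?_
  exact_mod_cast h3.le

/-- The number of the extra rows. -/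
theorem card_extra_le (x : Col m → Row m c) (hx : Function.Injective x) :
    (univ.filter fun r => LL (x r).1 * m ≤ ((x r).2 : ℕ)).card ≤ 12 * c := by
  classical
  have h1 : ((univ.filter fun r => LL (x r).1 * m ≤ ((x r).2 : ℕ)).image x) ⊆
      univ \ RS m c univ := by
    intro s hs
    obtain ⟨r, hr, rfl⟩ := mem_image.mp hs
    rw [mem_sdiff, mem_RS]
    exact ⟨mem_univ _, fun h => absurd (mem_filter.mp hr).2 (not_le.mpr h.2)⟩
  have h2 := card_le_card h1
  rw [card_image_of_injective _ hx] at h2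
  refine h2.trans ?_
  rw [card_sdiff_of_subset (subset_univ _), card_univ, card_Row]
  have h3 : ((RS m c univ).card : ℝ) = ((∑ z, LL z) * m : ℕ) := by
    have h4 := sum_RS (m := m) (c := c) univ (fun _ _ => (1 : ℝ))
    simp only [sum_const, card_range, nsmul_eq_mul, mul_one] at h4
    rw [h4]
    push_cast
    rw [sum_mul]
  have h5 : (RS m c univ).card = 177 * m := by
    have : (RS m c univ).card = (∑ z, LL z) * m := by exact_mod_cast h3
    rw [this, SRows_sum_LL]
  omega

end rows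

section entries

variable {p : ℕ} [Fact p.Prime] {m c : ℕ}

/-- the matrix of the minor in `ℚ_[p]` -/
noncomputable def Mp (p : ℕ) [Fact p.Prime] {m c : ℕ} (x : Col m → Row m c) :
    Matrix (Col m) (Col m) ℚ_[p] :=
  Matrix.of fun r j => algebraMap ℚ ℚ_[p] (Mx m c (x r) j)

theorem det_Mp (x : Col m → Row m c) : (Mp p x).det = ((Dx x : ℚ) : ℚ_[p]) := by
  rw [Dx, ← eq_ratCast (algebraMap ℚ ℚ_[p]), RingHom.map_det]
  rfl

private theorem SRows_xz (z : Fin 12) (e : Fin 2) :
    PowerSeries.map (algebraMap ℚ ℚ_[p]) (xz z e) =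
      sx (lt z e : ℚ_[p]) (tv z e : ℚ_[p]) := by
  rw [xz, sx]
  simp

private theorem SRows_lf (z a : Fin 12) :
    PowerSeries.map (algebraMap ℚ ℚ_[p]) (lf z a) =
      sx (br (lt z) (lt a) : ℚ_[p]) (br (tv z) (lt a) : ℚ_[p]) := by
  rw [lf, sx]
  simp

private theorem SRows_Lg (w : ℚ) :
    PowerSeries.map (algebraMap ℚ ℚ_[p]) (Log1 w) = Lg (algebraMap ℚ ℚ_[p] w) := by
  ext n
  rw [PowerSeries.coeff_map, Log1, Lg, PowerSeries.coeff_mk, PowerSeries.coeff_mk]
  simp

/-- The germs at a letter: Gauss norm. -/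
theorem gm_bd (z : Fin 12) (y : ℝ) (hy : 0 ≤ y)
    (hz : ∀ a, a ≠ z → ‖((br (lt z) (lt a) : ℚ_[p]))⁻¹‖ ≤ Real.exp y) (L : ℕ) (hL : 1 ≤ L)
    (j : Col m) : Bd y L L (PowerSeries.map (algebraMap ℚ ℚ_[p]) (gm m z j)) := by
  have hL1 : (1 : ℝ) ≤ L := by exact_mod_cast hL
  have hxs : ∀ e, Bd y 1 L (PowerSeries.map (algebraMap ℚ ℚ_[p]) (xz z e)) := fun e => by
    rw [SRows_xz]
    exact bd_sx hy (Padic.norm_int_le_one _) (Padic.norm_int_le_one _)
  have hlf : ∀ a, Bd y 1 L (PowerSeries.map (algebraMap ℚ ℚ_[p]) (lf z a)) := fun a => by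
    rw [SRows_lf]
    exact bd_sx hy (Padic.norm_int_le_one _) (Padic.norm_int_le_one _)
  have hpow : ∀ (f : PowerSeries ℚ_[p]) (n : ℕ), Bd y 1 L f → Bd y 1 L (f ^ n) :=
    fun f n hf => by
      have := hf.pow n
      rwa [one_pow] at this
  rcases j with ⟨e, j⟩ | ⟨u, j⟩
  · have h1 : Bd y 1 L (PowerSeries.map (algebraMap ℚ ℚ_[p]) (gm m z (Sum.inl (e, j)))) := by
      rw [gm, map_mul, map_mul, map_pow, map_pow, PowerSeries.map_C, map_intCast]
      have := (Bd.C (x := y) (L := L) (Padic.norm_int_le_one (p := p) (lt z e))).mul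
        ((hpow _ (j : ℕ) (hxs 0)).mul (hpow _ (57 * m - 1 - j) (hxs 1)))
      rwa [one_mul, one_mul] at this
    exact h1.mono hL1
  · have hF : Bd y 1 L (PowerSeries.map (algebraMap ℚ ℚ_[p]) (Fs m z)) := by
      rw [Fs, map_prod]
      have := Bd.prod (x := y) (L := L) univ
        (fun a => PowerSeries.map (algebraMap ℚ ℚ_[p]) (lf z a ^ (FF a * m))) (fun _ => (1 : ℝ))
        (fun a _ => by
          rw [map_pow]
          exact hpow _ _ (hlf a))
      rwa [prod_const_one] at this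
    have hE : Bd y L L (PowerSeries.map (algebraMap ℚ ℚ_[p]) (Es u z)) := by
      rw [Es, map_sum]
      refine Bd.sum _ _ (Nat.cast_nonneg _) fun a ha => ?_
      rw [map_mul, PowerSeries.map_C, SRows_Lg]
      have hne : a ≠ z := (mem_erase.mp ha).1
      have hc : ‖algebraMap ℚ ℚ_[p] ((co u a : ℚ) * (br (lt z) (lt a) : ℚ))‖ ≤ 1 := by
        rw [map_mul, map_intCast, map_intCast, norm_mul]
        exact mul_le_one₀ (Padic.norm_int_le_one _) (norm_nonneg _) (Padic.norm_int_le_one _)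
      have hw : ‖algebraMap ℚ ℚ_[p] ((br (tv z) (lt a) : ℚ) / (br (lt z) (lt a) : ℚ))‖ ≤
          Real.exp y := by
        rw [map_div₀, map_intCast, map_intCast, div_eq_mul_inv, norm_mul]
        have h1 := mul_le_mul (Padic.norm_int_le_one (p := p) (br (tv z) (lt a))) (hz a hne)
          (norm_nonneg _) zero_le_one
        rwa [one_mul] at h1
      have h2 := (Bd.C (x := y) (L := L) hc).mul (bd_Lg (L := L) hw)
      rwa [one_mul] at h2
    rw [gm, map_mul, map_mul, map_mul, map_pow, map_pow]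
    have := (hF.mul ((hpow _ (j : ℕ) (hxs 0)).mul (hpow _ (21 * m - 1 - j) (hxs 1)))).mul hE
    rwa [one_mul, one_mul, one_mul] at this

/-- The entries of a row. -/
theorem entry_le (r : Row m c) (y : ℝ) (hy : 0 ≤ y)
    (hz : ∀ a, a ≠ r.1 → ‖((br (lt r.1) (lt a) : ℚ_[p]))⁻¹‖ ≤ Real.exp y) (j : Col m) :
    ‖algebraMap ℚ ℚ_[p] (Mx m c r j)‖ ≤ ((r.2 : ℕ) + 1) * Real.exp (y * (r.2 : ℕ)) := by
  have h := gm_bd r.1 y hy hz ((r.2 : ℕ) + 1) (by omega) j (r.2 : ℕ) (Nat.lt_succ_self _)
  rw [PowerSeries.coeff_map] at h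
  push_cast at h
  exact h

end entries

section final

variable {p : ℕ} [Fact p.Prime]

/-- **Assembly.** If all rows `(z, i)`, `i < LL z * m`, of the letters `z` with a neighbour modulo `p`
are in `R`, then up to `exp (C m log (m + 2))` the minor is bounded by the reduction of `R`. -/
theorem final_le (c : ℕ) : ∃ C : ℝ, 0 ≤ C ∧ ∀ (m : ℕ) (x : Col m → Row m c),
    Function.Injective x → ∀ (R : Finset (Col m)) (c₀ : ℝ), Red 1 (Mp p x) R c₀ →
      (∀ r ∉ R, (∀ a, a ≠ (x r).1 → ¬ (p : ℤ) ∣ br (lt (x r).1) (lt a)) ∨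
        LL (x r).1 * m ≤ ((x r).2 : ℕ)) →
      ‖((Dx x : ℚ) : ℚ_[p])‖ ≤ Real.exp (c₀ + C * m * Real.log (m + 2)) := by
  classical
  -- the constant `y₀`
  obtain ⟨y₀, hy₀, hy⟩ : ∃ y₀ : ℝ, 0 ≤ y₀ ∧ ∀ z a : Fin 12,
      ‖((br (lt z) (lt a) : ℚ_[p]))⁻¹‖ ≤ Real.exp y₀ := by
    refine ⟨∑ z : Fin 12, ∑ a : Fin 12, ‖((br (lt z) (lt a) : ℚ_[p]))⁻¹‖,
      sum_nonneg fun z _ => sum_nonneg fun a _ => norm_nonneg _, fun z a => ?_⟩
    have h1 : ‖((br (lt z) (lt a) : ℚ_[p]))⁻¹‖ ≤
        ∑ a : Fin 12, ‖((br (lt z) (lt a) : ℚ_[p]))⁻¹‖ :=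
      single_le_sum (f := fun a => ‖((br (lt z) (lt a) : ℚ_[p]))⁻¹‖)
        (fun a _ => norm_nonneg _) (mem_univ a)
    have h2 : ∑ a : Fin 12, ‖((br (lt z) (lt a) : ℚ_[p]))⁻¹‖ ≤
        ∑ z : Fin 12, ∑ a : Fin 12, ‖((br (lt z) (lt a) : ℚ_[p]))⁻¹‖ :=
      single_le_sum (f := fun z => ∑ a : Fin 12, ‖((br (lt z) (lt a) : ℚ_[p]))⁻¹‖)
        (fun z _ => sum_nonneg fun a _ => norm_nonneg _) (mem_univ z)
    have h3 := Real.add_one_le_exp
      (∑ z : Fin 12, ∑ a : Fin 12, ‖((br (lt z) (lt a) : ℚ_[p]))⁻¹‖)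
    linarith
  refine ⟨177 * (1 + 2 * (31 + c)) + 24 * c * y₀ * (30 + c), by positivity,
    fun m x hx R c₀ hR hrow => ?_⟩
  rcases Nat.eq_zero_or_pos m with rfl | hm
  · -- no rows
    have h1 : IsEmpty (Col 0) := by
      refine ⟨fun j => ?_⟩
      rcases j with ⟨_, j⟩ | ⟨_, j⟩
      · exact absurd j.2 (by omega)
      · exact absurd j.2 (by omega)
    have h2 := hR.det_le (fun _ => 1) (fun r => (h1.false r).elim)
    rw [det_Mp, prod_const_one, one_mul] at h2
    simpa using h2
  · have hm1 : (1 : ℝ) ≤ m := by exact_mod_cast hm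
    have hc0 : (0 : ℝ) ≤ c := Nat.cast_nonneg c
    have hlog2 : 1 ≤ 2 * Real.log (m + 2) := by
      have h1 : Real.log 2 ≤ Real.log (m + 2) :=
        Real.log_le_log (by norm_num) (by linarith)
      have h2 := Real.log_two_gt_d9
      linarith
    have hlogm : 0 ≤ Real.log (m + 2) := by linarith
    set N : ℝ := 30 * m + c with hN
    have hN0 : 0 ≤ N := by positivity
    have hi : ∀ r, (((x r).2 : ℕ) : ℝ) + 1 ≤ N + 1 := by
      intro r
      have h1 := (x r).2.2
      have h2 : LL (x r).1 ≤ 30 := by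
        generalize (x r).1 = z
        revert z
        decide
      have h3 : ((x r).2 : ℕ) ≤ 30 * m + c := by nlinarith
      have h4 : (((x r).2 : ℕ) : ℝ) ≤ 30 * m + c := by exact_mod_cast h3
      linarith
    -- the bounds of the rows
    set B : Col m → ℝ := fun r => (N + 1) *
      Real.exp (if LL (x r).1 * m ≤ ((x r).2 : ℕ) then y₀ * N else 0) with hBdef
    have hB : ∀ r ∉ R, ∀ j, ‖Mp p x r j‖ ≤ B r := by
      intro r hr j
      rw [Mp, Matrix.of_apply, hBdef]
      dsimp only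
      split_ifs with h1
      · refine (entry_le (x r) y₀ hy₀ (fun a _ => hy _ a) j).trans ?_
        refine mul_le_mul (hi r) (Real.exp_le_exp.mpr ?_) (Real.exp_pos _).le (by linarith)
        exact mul_le_mul_of_nonneg_left (by linarith [hi r]) hy₀
      · have h2 := (hrow r hr).resolve_right h1
        refine (entry_le (x r) 0 le_rfl (fun a ha => ?_) j).trans ?_
        · rw [Real.exp_zero, norm_inv, norm_intCast_eq_one (h2 a ha), inv_one]
        · rw [zero_mul, Real.exp_zero, mul_one, mul_one]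
          exact hi r
    have h1 := hR.det_le B hB
    rw [det_Mp] at h1
    refine h1.trans ?_
    rw [Real.exp_add, mul_comm (Real.exp c₀)]
    refine mul_le_mul_of_nonneg_right ?_ (Real.exp_pos _).le
    have h2 : ∏ r ∈ univ \ R, B r ≤ ∏ r, B r := by
      rw [← prod_sdiff (subset_univ R)]
      refine le_mul_of_one_le_right (prod_nonneg fun r _ => ?_) ?_
      · positivity
      · have hB1 : ∀ r ∈ R, (1 : ℝ) ≤ B r := fun r _ => by
          rw [hBdef]
          refine one_le_mul_of_one_le_of_one_le (by linarith) (Real.one_le_exp ?_)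
          split_ifs
          · positivity
          · exact le_rfl
        have h3 := prod_le_prod (s := R) (f := fun _ => (1 : ℝ)) (g := B)
          (fun _ _ => zero_le_one) hB1
        rwa [prod_const_one] at h3
    refine h2.trans ?_
    rw [hBdef, prod_mul_distrib, prod_const, ← Real.exp_sum, card_univ, card_Col]
    have h3 : ∑ r, (if LL (x r).1 * m ≤ ((x r).2 : ℕ) then y₀ * N else 0) ≤
        12 * c * (y₀ * N) := by
      rw [← sum_filter, sum_const, nsmul_eq_mul]
      refine mul_le_mul_of_nonneg_right ?_ (by positivity)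
      exact_mod_cast card_extra_le x hx
    have h4 : (N + 1) ^ (177 * m) = Real.exp (177 * m * Real.log (N + 1)) := by
      rw [← Real.exp_log (show 0 < (N + 1) ^ (177 * m) by positivity), Real.log_pow]
      push_cast
      rfl
    rw [h4, ← Real.exp_add]
    refine Real.exp_le_exp.mpr ?_
    have h5 : Real.log (N + 1) ≤ (1 + 2 * (31 + c)) * Real.log (m + 2) := by
      have h6 : N + 1 ≤ (m + 2) * (31 + c) := by
        rw [hN]
        nlinarith
      have h7 : Real.log (N + 1) ≤ Real.log (m + 2) + Real.log (31 + c) := by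
        rw [← Real.log_mul (by positivity) (by positivity)]
        exact Real.log_le_log (by positivity) h6
      have h8 : Real.log (31 + c) ≤ 31 + c := by
        have := Real.log_le_sub_one_of_pos (show (0 : ℝ) < 31 + c by positivity)
        linarith
      have h9 : (31 + c : ℝ) * 1 ≤ (31 + c) * (2 * Real.log (m + 2)) :=
        mul_le_mul_of_nonneg_left hlog2 (by positivity)
      linarith
    have h10 : 177 * m * Real.log (N + 1) ≤
        177 * m * ((1 + 2 * (31 + c)) * Real.log (m + 2)) :=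
      mul_le_mul_of_nonneg_left h5 (by positivity)
    have h11 : 12 * c * (y₀ * N) ≤ 12 * c * y₀ * (30 + c) * m := by
      have h12 : N ≤ (30 + c) * m := by
        rw [hN]
        nlinarith
      calc 12 * c * (y₀ * N) = 12 * c * y₀ * N := by ring
        _ ≤ 12 * c * y₀ * ((30 + c) * m) := mul_le_mul_of_nonneg_left h12 (by positivity)
        _ = _ := by ring
    have h13 : 12 * c * y₀ * (30 + c) * m * 1 ≤
        12 * c * y₀ * (30 + c) * m * (2 * Real.log (m + 2)) :=
      mul_le_mul_of_nonneg_left hlog2 (by positivity)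
    calc 177 * m * Real.log (N + 1) +
          ∑ r, (if LL (x r).1 * m ≤ ((x r).2 : ℕ) then y₀ * N else 0) ≤
        177 * m * ((1 + 2 * (31 + c)) * Real.log (m + 2)) +
          12 * c * y₀ * (30 + c) * m * (2 * Real.log (m + 2)) := by linarith
      _ = _ := by ring

end final

end B10
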