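import Pool.Agent.Lib.B10.STypeB

/-!
# Base 10, S-adic block, type A: one germ letter `b` (the centre) and outer letters

Rows at `b` (`r ∈ Rb`): the analytic part `∑ A_u q_u` of the logs goes into slot `1`, the local
logs `La_w` are honest families with `Q_w`.  Outer rows (`r ∈ Ro`): they see `G` and `H` only, and
`Fh * (anything)` vanishes on them.  Prices: `lam` at `b`, `mu ≤ lam` at the outer rows, `lam - fc`
for the local logs.
-/

set_option autoImplicit false

namespace B10

open Finset Matrix Polynomial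

section coe

variable {K : Type*} [NormedField K] [IsUltrametricDist K]

theorem STypeA_aeval_X (p : K[X]) : aeval (PowerSeries.X : PowerSeries K) p = (p : PowerSeries K) := by
  induction p using Polynomial.induction_on' with
  | add p q hp hq => rw [map_add, hp, hq, Polynomial.coe_add]
  | monomial n a =>
    rw [aeval_monomial, Polynomial.coe_monomial, PowerSeries.algebraMap_apply]
    ext i
    rw [Algebra.algebraMap_self, RingHom.id_apply, PowerSeries.coeff_C_mul,
      PowerSeries.coeff_X_pow, PowerSeries.coeff_monomial]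
    split_ifs <;> simp

theorem STypeA_coeff_mul_norm {A B : ℝ} (p q : K[X]) (hA : 0 ≤ A) (hB : 0 ≤ B)
    (hp : ∀ k, ‖p.coeff k‖ ≤ A) (hq : ∀ k, ‖q.coeff k‖ ≤ B) (k : ℕ) :
    ‖(p * q).coeff k‖ ≤ A * B := by
  rw [Polynomial.coeff_mul]
  refine norm_sum_le_of_forall _ _ _ (by positivity) fun i _ => ?_
  rw [norm_mul]
  exact mul_le_mul (hp _) (hq _) (norm_nonneg _) hA

theorem STypeA_coeff_add_norm {A : ℝ} (p q : K[X])
    (hp : ∀ k, ‖p.coeff k‖ ≤ A) (hq : ∀ k, ‖q.coeff k‖ ≤ A) (k : ℕ) :
    ‖(p + q).coeff k‖ ≤ A := by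
  rw [Polynomial.coeff_add]
  exact (IsUltrametricDist.norm_add_le_max _ _).trans (max_le (hp k) (hq k))

theorem STypeA_coeff_sum_norm {A : ℝ} {U : Type*} (s : Finset U) (p : U → K[X]) (hA : 0 ≤ A)
    (hp : ∀ u ∈ s, ∀ k, ‖(p u).coeff k‖ ≤ A) (k : ℕ) : ‖(∑ u ∈ s, p u).coeff k‖ ≤ A := by
  rw [Polynomial.finsetSum_coeff]
  exact norm_sum_le_of_forall _ _ _ hA fun u hu => hp u hu k

omit [IsUltrametricDist K] in
theorem STypeA_trunc_norm {B : ℝ} {L : ℕ} (A : PowerSeries K) (hB : 0 ≤ B) (hA : Bd 0 B L A)
    (k : ℕ) : ‖(PowerSeries.trunc L A).coeff k‖ ≤ B := by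
  rw [PowerSeries.coeff_trunc]
  split_ifs with h
  · simpa using hA k h
  · rw [norm_zero]; exact hB

/-- low coefficients of a product only see the truncation -/
theorem STypeA_coeff_trunc_mul (L : ℕ) (A P : PowerSeries K) {i : ℕ} (hi : i < L) :
    PowerSeries.coeff i (P * A) =
      PowerSeries.coeff i (P * (PowerSeries.trunc L A : PowerSeries K)) := by
  rw [PowerSeries.coeff_mul, PowerSeries.coeff_mul]
  refine Finset.sum_congr rfl fun p hp => ?_
  have h1 : p.1 + p.2 = i := Finset.HasAntidiagonal.mem_antidiagonal.mp hp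
  rw [Polynomial.coeff_coe, PowerSeries.coeff_trunc, if_pos (by omega)]

end coe

variable {ι : Type*} [Fintype ι] [DecidableEq ι]

/-- **Type A.** -/
theorem red_typeA {K : Type*} [NormedField K] [IsUltrametricDist K] {U W : Type} [Fintype U]
    [Fintype W] [DecidableEq W] (M : Matrix ι ι K) (Rb Ro : Finset ι) (hdis : Disjoint Rb Ro)
    (ord : ι → ℕ) (L D : ℕ) [NeZero D]
    (x B : ℝ) (hx : 0 ≤ x) (hB : 1 ≤ B) (G H : ι → K[X]) (q : U → ι → K[X]) (Q : W → ι → K[X])
    (Fh : K[X]) (hF1 : ∀ k, ‖Fh.coeff k‖ ≤ 1)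
    (hG : ∀ j k, ‖(G j).coeff k‖ ≤ 1) (hH : ∀ j k, ‖(H j).coeff k‖ ≤ 1)
    (hq : ∀ u j k, ‖(q u j).coeff k‖ ≤ 1) (hQ : ∀ w j k, ‖(Q w j).coeff k‖ ≤ 1)
    (hGD : ∀ j, (G j).natDegree < D) (hHD : ∀ j, (H j).natDegree < D)
    (hQD : ∀ w j, (Q w j).natDegree < D)
    (hqD : ∀ u j, Fh.natDegree + L + (q u j).natDegree < D)
    (A : U → PowerSeries K) (La : W → PowerSeries K)
    (hA : ∀ u, Bd 0 B L (A u)) (hLa : ∀ w, Bd x B L (La w)) (fc : ℝ)
    (hFx : Bd x (Real.exp (-(x * fc))) L (Fh : PowerSeries K))
    (hrowb : ∀ r ∈ Rb, ∀ j, M r j = PowerSeries.coeff (ord r) ((G j : PowerSeries K) +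
      (Fh : PowerSeries K) * ∑ u, A u * (q u j : PowerSeries K) +
      (Fh : PowerSeries K) * ∑ w, La w * (Q w j : PowerSeries K)))
    (P : ι → PowerSeries K) (al be : ι → K) (t : ι → PowerSeries K)
    (hrowo : ∀ r ∈ Ro, ∀ j, M r j = PowerSeries.coeff (ord r) (P r *
      (PowerSeries.C (al r) * aeval (t r) (G j) + PowerSeries.C (be r) * aeval (t r) (H j))))
    (hker : ∀ r ∈ Ro, ∀ p : K[X],
      PowerSeries.coeff (ord r) (P r * (PowerSeries.C (al r) * aeval (t r) (Fh * p))) = 0)
    (hord : ∀ r ∈ Rb ∪ Ro, ord r < L) (hP : ∀ r ∈ Ro, Bd x 1 L (P r)) (hal : ∀ r ∈ Ro, ‖al r‖ ≤ 1)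
    (hbe : ∀ r ∈ Ro, ‖be r‖ ≤ 1) (ht : ∀ r ∈ Ro, Bd x (Real.exp (-x)) L (t r))
    (lam mu : ℝ) (hmu : mu ≤ lam) :
    Red B M (Rb ∪ Ro) (x * (∑ r ∈ Rb, ((ord r : ℝ) - lam) + ∑ r ∈ Ro, ((ord r : ℝ) - mu)) +
      x * ((lam ^ 2 + mu ^ 2 + Fintype.card W * (lam - fc) ^ 2) / 2 + ((Rb ∪ Ro).card : ℝ) / 2) +
      (Rb ∪ Ro).card * Real.log B) := by
  classical
  have hB0 : 0 ≤ B := by linarith
  -- the merged slot
  set G1 : ι → K[X] := fun j => G j + Fh * ∑ u, PowerSeries.trunc L (A u) * q u j with hG1def
  have hG1 : ∀ j k, ‖(G1 j).coeff k‖ ≤ B := by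
    intro j k
    refine STypeA_coeff_add_norm _ _ (fun k => (hG j k).trans hB) (fun k => ?_) k
    have h1 := STypeA_coeff_mul_norm Fh (∑ u, PowerSeries.trunc L (A u) * q u j) zero_le_one hB0
      hF1 (fun k => STypeA_coeff_sum_norm _ _ hB0 (fun u _ k => by
        have := STypeA_coeff_mul_norm (PowerSeries.trunc L (A u)) (q u j) hB0 zero_le_one
          (STypeA_trunc_norm (A u) hB0 (hA u)) (hq u j) k
        simpa using this) k) k
    simpa using h1
  have hG1D : ∀ j, (G1 j).natDegree < D := by
    intro j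
    refine lt_of_le_of_lt (Polynomial.natDegree_add_le _ _) (max_lt (hGD j) ?_)
    by_cases hU : Nonempty U
    · have hsum : (∑ u, PowerSeries.trunc L (A u) * q u j).natDegree + Fh.natDegree < D := by
        obtain ⟨u0⟩ := hU
        have h3 : (∑ u, PowerSeries.trunc L (A u) * q u j).natDegree ≤
            D - 1 - Fh.natDegree := by
          refine Polynomial.natDegree_sum_le_of_forall_le _ _ fun u _ => ?_
          have h4 := Polynomial.natDegree_mul_le (p := PowerSeries.trunc L (A u)) (q := q u j)
          have h5 : (PowerSeries.trunc L (A u)).natDegree ≤ L := by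
            rcases Nat.eq_zero_or_pos L with h0 | h0
            · subst h0
              simp
            · exact (PowerSeries.natDegree_trunc_lt (A u) (L - 1) |> fun h => by
                rw [Nat.sub_add_cancel h0] at h; exact h.le)
          have := hqD u j
          omega
        have := hqD u0 j
        omega
      have := Polynomial.natDegree_mul_le (p := Fh)
        (q := ∑ u, PowerSeries.trunc L (A u) * q u j)
      omega
    · rw [not_nonempty_iff] at hU
      simp only [Finset.univ_eq_empty, Finset.sum_empty, mul_zero, natDegree_zero]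
      exact Nat.pos_of_ne_zero (NeZero.ne D)
  set V : (Bool ⊕ W) × Fin D → ι → K := fun s j =>
    match s.1 with
    | Sum.inl false => (G1 j).coeff s.2
    | Sum.inl true => (H j).coeff s.2
    | Sum.inr w => (Q w j).coeff s.2 with hVdef
  set a : ι → (Bool ⊕ W) × Fin D → K := fun r s =>
    if r ∈ Rb then
      match s.1 with
      | Sum.inl false => if (s.2 : ℕ) = ord r then 1 else 0
      | Sum.inl true => 0
      | Sum.inr w => PowerSeries.coeff (ord r) ((Fh : PowerSeries K) * La w *
          PowerSeries.X ^ (s.2 : ℕ))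
    else
      match s.1 with
      | Sum.inl false =>
        PowerSeries.coeff (ord r) (P r * (PowerSeries.C (al r) * t r ^ (s.2 : ℕ)))
      | Sum.inl true =>
        PowerSeries.coeff (ord r) (P r * (PowerSeries.C (be r) * t r ^ (s.2 : ℕ)))
      | Sum.inr _ => 0 with hadef
  have hM : ∀ r ∈ Rb ∪ Ro, M r = ∑ s, a r s • V s := by
    intro r hr
    funext j
    rw [Finset.sum_apply, Fintype.sum_prod_type, Fintype.sum_sum_type, Fintype.sum_bool]
    have hordr := hord r hr
    by_cases hb : r ∈ Rb
    · rw [hrowb r hb j]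
      simp only [hadef, hVdef, if_pos hb, Pi.smul_apply, smul_eq_mul, zero_mul,
        Finset.sum_const_zero, zero_add, ite_mul, one_mul]
      have e0 : ∑ m : Fin D, (if (m : ℕ) = ord r then (G1 j).coeff m else 0) =
          (G1 j).coeff (ord r) := by
        rw [← Finset.sum_range (fun m => if m = ord r then (G1 j).coeff m else 0),
          Finset.sum_ite_eq']
        split_ifs with h
        · rfl
        · rw [Polynomial.coeff_eq_zero_of_natDegree_lt]
          have h2 := hG1D j
          rw [Finset.mem_range, not_lt] at h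
          omega
      rw [e0]
      have e1 : (G1 j).coeff (ord r) = PowerSeries.coeff (ord r) ((G j : PowerSeries K) +
          (Fh : PowerSeries K) * ∑ u, A u * (q u j : PowerSeries K)) := by
        have h1 : ∀ u, PowerSeries.coeff (ord r) ((Fh : PowerSeries K) *
            (A u * (q u j : PowerSeries K))) = PowerSeries.coeff (ord r)
            ((Fh : PowerSeries K) * (((PowerSeries.trunc L (A u) : K[X]) : PowerSeries K) *
              (q u j : PowerSeries K))) := by
          intro u
          have e2 : (Fh : PowerSeries K) * (A u * (q u j : PowerSeries K)) =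
            ((Fh : PowerSeries K) * (q u j : PowerSeries K)) * A u := by ring
          have e3 : (Fh : PowerSeries K) * (((PowerSeries.trunc L (A u) : K[X]) : PowerSeries K) *
              (q u j : PowerSeries K)) = ((Fh : PowerSeries K) * (q u j : PowerSeries K)) *
              ((PowerSeries.trunc L (A u) : K[X]) : PowerSeries K) := by ring
          rw [e2, e3]
          exact STypeA_coeff_trunc_mul L (A u) _ hordr
        rw [map_add, Finset.mul_sum, map_sum, Finset.sum_congr rfl fun u _ => h1 u,
          ← map_sum, ← Finset.mul_sum, ← map_add, ← Polynomial.coeff_coe]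
        congr 1
        rw [hG1def]
        simp only [Polynomial.coe_add, Polynomial.coe_mul]
        congr 2
        rw [← Polynomial.coeToPowerSeries.ringHom_apply, map_sum]
        refine Finset.sum_congr rfl fun u _ => ?_
        rw [Polynomial.coeToPowerSeries.ringHom_apply, Polynomial.coe_mul]
      rw [e1, map_add _ ((G j : PowerSeries K) +
          (Fh : PowerSeries K) * ∑ u, A u * (q u j : PowerSeries K))]
      congr 1
      rw [Finset.mul_sum, map_sum]
      refine Finset.sum_congr rfl fun w _ => ?_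
      have e4 : (Fh : PowerSeries K) * (La w * (Q w j : PowerSeries K)) =
          ∑ m : Fin D, PowerSeries.C ((Q w j).coeff m) *
            ((Fh : PowerSeries K) * La w * PowerSeries.X ^ (m : ℕ)) := by
        rw [← STypeA_aeval_X (Q w j), STypeB_aeval _ _ (hQD w j), Finset.mul_sum, Finset.mul_sum]
        refine Finset.sum_congr rfl fun m _ => ?_
        ring
      rw [e4, map_sum]
      refine Finset.sum_congr rfl fun m _ => ?_
      rw [PowerSeries.coeff_C_mul, mul_comm]
    · have ho : r ∈ Ro := (Finset.mem_union.mp hr).resolve_left hb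
      rw [hrowo r ho j]
      simp only [hadef, hVdef, if_neg hb, Pi.smul_apply, smul_eq_mul, zero_mul,
        Finset.sum_const_zero, add_zero]
      have e1 : ∀ (c : PowerSeries K) (p : K[X]), p.natDegree < D →
          PowerSeries.coeff (ord r) (P r * (c * aeval (t r) p)) =
            ∑ m : Fin D, PowerSeries.coeff (ord r) (P r * (c * t r ^ (m : ℕ))) * p.coeff m := by
        intro c p hp
        rw [STypeB_aeval (t r) p hp, Finset.mul_sum, Finset.mul_sum, map_sum]
        refine Finset.sum_congr rfl fun m _ => ?_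
        have : P r * (c * (PowerSeries.C (p.coeff m) * t r ^ (m : ℕ))) =
            PowerSeries.C (p.coeff m) * (P r * (c * t r ^ (m : ℕ))) := by ring
        rw [this, PowerSeries.coeff_C_mul, mul_comm]
      have e2 : PowerSeries.coeff (ord r) (P r * (PowerSeries.C (al r) * aeval (t r) (G j))) =
          PowerSeries.coeff (ord r) (P r * (PowerSeries.C (al r) * aeval (t r) (G1 j))) := by
        rw [hG1def]
        simp only [map_add (aeval (t r))]
        rw [mul_add, mul_add, map_add (PowerSeries.coeff (ord r)), hker r ho, add_zero]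
      rw [mul_add, map_add, e2, e1 _ _ (hG1D j), e1 _ _ (hHD j), add_comm]
  have hV : ∀ s j, ‖V s j‖ ≤ B := by
    rintro ⟨f, m⟩ j
    rcases f with (_ | _) | w
    · exact hG1 j m
    · exact (hH j m).trans hB
    · exact (hQ w j m).trans hB
  set lamv : Bool ⊕ W → ℝ := fun f =>
    match f with
    | Sum.inl false => lam
    | Sum.inl true => mu
    | Sum.inr _ => lam - fc with hlam
  have ha : ∀ r ∈ Rb ∪ Ro, ∀ s : (Bool ⊕ W) × Fin D, ‖a r s‖ ≤
      B * Real.exp ((if r ∈ Rb then x * ((ord r : ℝ) - lam) else x * ((ord r : ℝ) - mu)) +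
      x * (lamv s.1 - ((s.2 : ℕ) : ℝ))) := by
    rintro r hr ⟨f, m⟩
    have hordr := hord r hr
    by_cases hb : r ∈ Rb
    · simp only [if_pos hb]
      rcases f with (_ | _) | w
      · simp only [hadef, hlam, if_pos hb]
        split_ifs with h
        · rw [norm_one, h]
          have : x * ((ord r : ℝ) - lam) + x * (lam - (ord r : ℝ)) = 0 := by ring
          rw [this, Real.exp_zero, mul_one]
          exact hB
        · rw [norm_zero]; positivity
      · simp only [hadef, if_pos hb]
        rw [norm_zero]; positivity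
      · simp only [hadef, hlam, if_pos hb]
        have hX : Bd x (Real.exp (-(x * (m : ℕ)))) L ((PowerSeries.X : PowerSeries K) ^ (m : ℕ)) := by
          intro i _
          rw [PowerSeries.coeff_X_pow]
          split_ifs with h
          · rw [norm_one, ← Real.exp_add, h]
            have : -(x * ((m : ℕ) : ℝ)) + x * ((m : ℕ) : ℝ) = 0 := by ring
            rw [this, Real.exp_zero]
          · rw [norm_zero]; positivity
        have h1 := STypeB_bd_mul (by positivity) (Real.exp_pos _).le
          (STypeB_bd_mul (Real.exp_pos _).le hB0 hFx (hLa w)) hX (ord r) hordr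
        refine h1.trans (le_of_eq ?_)
        rw [mul_comm (Real.exp _) B, mul_assoc, mul_assoc, ← Real.exp_add, ← Real.exp_add]
        congr 2; ring
    · simp only [if_neg hb]
      have ho : r ∈ Ro := (Finset.mem_union.mp hr).resolve_left hb
      have hT : ∀ c : K, ‖c‖ ≤ 1 →
          ‖PowerSeries.coeff (ord r) (P r * (PowerSeries.C c * t r ^ (m : ℕ)))‖ ≤
            Real.exp (x * ((ord r : ℝ) - (m : ℕ))) := by
        intro c hc
        have h1 := STypeB_bd_mul zero_le_one (by positivity) (hP r ho)
          (STypeB_bd_mul zero_le_one (Real.exp_pos _).le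
            (STypeB_bd_mono hc (STypeB_bd_C (L := L) hx c)) (STypeB_bd_pow hx (ht r ho) (m : ℕ)))
          (ord r) hordr
        refine h1.trans (le_of_eq ?_)
        rw [one_mul, one_mul, ← Real.exp_add]
        congr 1; ring
      rcases f with (_ | _) | w
      · simp only [hadef, hlam, if_neg hb]
        refine (hT _ (hal r ho)).trans ?_
        refine le_trans (Real.exp_le_exp.mpr ?_) (le_mul_of_one_le_left (Real.exp_pos _).le hB)
        nlinarith [mul_le_mul_of_nonneg_left hmu hx]
      · simp only [hadef, hlam, if_neg hb]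
        refine (hT _ (hbe r ho)).trans ?_
        refine le_trans (Real.exp_le_exp.mpr ?_) (le_mul_of_one_le_left (Real.exp_pos _).le hB)
        apply le_of_eq; ring
      · simp only [hadef, if_neg hb]
        rw [norm_zero]; positivity
  have h := Red.of_step B M (Rb ∪ Ro) a V hM lamv x B hx hB
    (fun r => if r ∈ Rb then x * ((ord r : ℝ) - lam) else x * ((ord r : ℝ) - mu)) ha hV
  refine h.mono (le_of_eq ?_)
  have e5 : ∑ r ∈ Rb ∪ Ro, (if r ∈ Rb then x * ((ord r : ℝ) - lam) else x * ((ord r : ℝ) - mu)) =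
      x * (∑ r ∈ Rb, ((ord r : ℝ) - lam) + ∑ r ∈ Ro, ((ord r : ℝ) - mu)) := by
    rw [Finset.sum_union hdis, mul_add, Finset.mul_sum, Finset.mul_sum]
    congr 1
    · exact Finset.sum_congr rfl fun r hr => if_pos hr
    · exact Finset.sum_congr rfl fun r hr => if_neg (Finset.disjoint_right.mp hdis hr)
  rw [e5, Fintype.sum_sum_type, Fintype.sum_bool]
  simp only [hlam, Finset.sum_const, Finset.card_univ, nsmul_eq_mul]
  ring

end B10
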