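import Pool.Agent.Lib.B10.Coord
import Pool.Agent.Lib.B10.STypeA
import Pool.Agent.Lib.B10.SRows
import Pool.Agent.Lib.B10.RedOne

/-!
# Base 10, S-adic block: the concrete discs with one germ letter and two outer letters

`DiscAOk p b a a'`: modulo `p` the letters `b, a, a'` agree (exactly once) and the other letters
are different from `b`. `red_discA`: the rows of `b` and the rows of order `< 4 m` of `a`, `a'`.
-/

set_option autoImplicit false

namespace B10

open Finset Matrix

/-- the letters of the disc of centre `b` are `b, a, a'` -/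
structure DiscAOk (p : ℕ) (b a a' : Fin 12) : Prop where
  ne : a ≠ a'
  ab : a ≠ b
  ab' : a' ≠ b
  fb : FF b = 2
  fa : FF a = 4
  fa' : FF a' = 4
  ha : (p : ℤ) ∣ br (lt b) (lt a)
  ha' : (p : ℤ) ∣ br (lt b) (lt a')
  ha2 : ¬ (p : ℤ) ^ 2 ∣ br (lt b) (lt a)
  ha2' : ¬ (p : ℤ) ^ 2 ∣ br (lt b) (lt a')
  out : ∀ z, z ≠ b → z ≠ a → z ≠ a' → ¬ (p : ℤ) ∣ br (lt b) (lt z)

/-- `log (a m + b) ≤ C log (m + 2)` -/
theorem log_lin_le (a b : ℝ) (ha : 0 ≤ a) (hb : 1 ≤ b) (m : ℕ) :
    Real.log (a * m + b) ≤ (1 + 2 * Real.log (a + b)) * Real.log (m + 2) := by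
  have hm : (0 : ℝ) ≤ m := Nat.cast_nonneg m
  have h2 : (1 : ℝ) ≤ 2 * Real.log (m + 2) := by
    have h1 : Real.log 2 ≤ Real.log (m + 2) := Real.log_le_log (by norm_num) (by linarith)
    have h2 := Real.log_two_gt_d9
    linarith
  have h3 : a * m + b ≤ (a + b) * (m + 2) := by nlinarith
  have h4 : 0 ≤ Real.log (a + b) := Real.log_nonneg (by linarith)
  calc Real.log (a * m + b) ≤ Real.log ((a + b) * (m + 2)) :=
        Real.log_le_log (by positivity) h3
    _ = Real.log (a + b) + Real.log (m + 2) :=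
        Real.log_mul (by positivity) (by positivity)
    _ ≤ Real.log (a + b) * (2 * Real.log (m + 2)) + Real.log (m + 2) := by
        have := le_mul_of_one_le_right h4 h2
        linarith
    _ = (1 + 2 * Real.log (a + b)) * Real.log (m + 2) := by ring

theorem sum_range_id_le (n : ℕ) : ∑ i ∈ Finset.range n, (i : ℝ) ≤ (n : ℝ) ^ 2 / 2 := by
  induction n with
  | zero => simp
  | succ n ih =>
    rw [Finset.sum_range_succ]
    push_cast
    nlinarith [(Nat.cast_nonneg n : (0 : ℝ) ≤ n)]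

variable {p : ℕ} [Fact p.Prime]

theorem norm_inv_intCast_le {k : ℕ} {n : ℤ} (h : ¬ (p : ℤ) ^ (k + 1) ∣ n) :
    ‖((n : ℚ_[p]))⁻¹‖ ≤ Real.exp (k * Real.log p) := by
  have hp : (0 : ℝ) < p := by exact_mod_cast (Fact.out : p.Prime).pos
  have hp1 : (1 : ℝ) < p := by exact_mod_cast (Fact.out : p.Prime).one_lt
  have hn : n ≠ 0 := by
    rintro rfl
    exact h (dvd_zero _)
  have hn0 : (n : ℚ_[p]) ≠ 0 := Int.cast_ne_zero.mpr hn
  have h1 : ¬ ‖(n : ℚ_[p])‖ ≤ (p : ℝ) ^ (-((k + 1 : ℕ) : ℤ)) := fun h2 =>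
    h (by exact_mod_cast (Padic.norm_int_le_pow_iff_dvd n (k + 1)).mp h2)
  rw [Padic.norm_eq_zpow_neg_valuation hn0] at h1
  have h2 : (-((k + 1 : ℕ) : ℤ)) < -(n : ℚ_[p]).valuation := by
    rw [not_le] at h1
    exact (zpow_lt_zpow_iff_right₀ hp1).mp h1
  have h3 : (n : ℚ_[p]).valuation ≤ k := by
    push_cast at h2
    omega
  rw [norm_inv, Padic.norm_eq_zpow_neg_valuation hn0, _root_.zpow_neg, inv_inv, Real.exp_nat_mul,
    Real.exp_log hp, ← zpow_natCast]
  exact zpow_le_zpow_right₀ hp1.le h3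

theorem norm_le_one_of_int (n : ℤ) : ‖(n : ℚ_[p])‖ ≤ 1 := Padic.norm_int_le_one n

/-! ### The column data is integral -/

private theorem DiscA_lin (u v : ℤ) (k : ℕ) :
    ‖((Polynomial.C (u : ℚ_[p]) + Polynomial.C (v : ℚ_[p]) * Polynomial.X : Polynomial ℚ_[p])).coeff
      k‖ ≤ 1 := by
  rw [Polynomial.coeff_add, Polynomial.coeff_C_mul, Polynomial.coeff_C, Polynomial.coeff_X]
  refine (IsUltrametricDist.norm_add_le_max _ _).trans (max_le ?_ ?_)
  · split_ifs
    · exact norm_le_one_of_int u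
    · simp
  · split_ifs
    · rw [mul_one]
      exact norm_le_one_of_int v
    · simp

private theorem DiscA_pow {P : Polynomial ℚ_[p]} (h : ∀ k, ‖P.coeff k‖ ≤ 1) (n : ℕ) :
    ∀ k, ‖(P ^ n).coeff k‖ ≤ 1 := by
  induction n with
  | zero =>
    intro k
    rw [pow_zero, Polynomial.coeff_one]
    split_ifs <;> simp
  | succ n ih =>
    intro k
    rw [pow_succ]
    simpa using STypeA_coeff_mul_norm _ _ zero_le_one zero_le_one ih h k

private theorem DiscA_mul {P Q : Polynomial ℚ_[p]} (h : ∀ k, ‖P.coeff k‖ ≤ 1)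
    (h' : ∀ k, ‖Q.coeff k‖ ≤ 1) : ∀ k, ‖(P * Q).coeff k‖ ≤ 1 := by
  intro k
  simpa using STypeA_coeff_mul_norm _ _ zero_le_one zero_le_one h h' k

theorem norm_coeff_monoK (b : Fin 12) (j k i : ℕ) : ‖(monoK ℚ_[p] b j k).coeff i‖ ≤ 1 :=
  DiscA_mul (DiscA_pow (DiscA_lin _ _) j) (DiscA_pow (DiscA_lin _ _) k) i

theorem norm_coeff_FK (m : ℕ) (b : Fin 12) (i : ℕ) : ‖(FK ℚ_[p] m b).coeff i‖ ≤ 1 := by
  have h : ∀ s : Finset (Fin 12), ∀ i, ‖(∏ a ∈ s, (Polynomial.C (br (lt b) (lt a) : ℚ_[p]) +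
      Polynomial.C (br (tv b) (lt a) : ℚ_[p]) * Polynomial.X) ^ (FF a * m)).coeff i‖ ≤ 1 := by
    intro s
    induction s using Finset.induction_on with
    | empty =>
      intro i
      rw [Finset.prod_empty, Polynomial.coeff_one]
      split_ifs <;> simp
    | insert a s ha ih =>
      rw [Finset.prod_insert ha]
      exact DiscA_mul (DiscA_pow (DiscA_lin _ _) _) ih
  exact h univ i

theorem norm_coeff_GK (m : ℕ) (b : Fin 12) (j : Col m) (i : ℕ) :
    ‖(GK ℚ_[p] m b j).coeff i‖ ≤ 1 := by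
  rcases j with ⟨e, j⟩ | j
  · rw [GK, Polynomial.coeff_C_mul, norm_mul]
    exact mul_le_one₀ (norm_le_one_of_int _) (norm_nonneg _) (norm_coeff_monoK _ _ _ _)
  · simp [GK]

theorem norm_coeff_HK (m : ℕ) (b : Fin 12) (j : Col m) (i : ℕ) :
    ‖(HK ℚ_[p] m b j).coeff i‖ ≤ 1 := by
  rcases j with ⟨e, j⟩ | j
  · rw [HK, Polynomial.coeff_C_mul, norm_mul]
    exact mul_le_one₀ (norm_le_one_of_int _) (norm_nonneg _) (norm_coeff_monoK _ _ _ _)
  · simp [HK]

theorem norm_coeff_qK (m : ℕ) (b : Fin 12) (u : Fin 3) (j : Col m) (i : ℕ) :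
    ‖(qK ℚ_[p] m b u j).coeff i‖ ≤ 1 := by
  rcases j with j | ⟨u', j⟩
  · simp [qK]
  · rw [qK]
    split_ifs
    · exact norm_coeff_monoK _ _ _ _
    · simp

section degrees

variable (K : Type*) [NormedField K]

private theorem DiscA_deg (u v : ℤ) (n : ℕ) : ((Polynomial.C (u : K) +
    Polynomial.C (v : K) * Polynomial.X : Polynomial K) ^ n).natDegree ≤ n := by
  have h1 : ((Polynomial.C (u : K) + Polynomial.C (v : K) * Polynomial.X : Polynomial K)).natDegree
      ≤ 1 := by
    rw [add_comm]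
    exact Polynomial.natDegree_linear_le
  have h := Polynomial.natDegree_pow_le_of_le n h1
  rwa [mul_one] at h

theorem natDegree_monoK_le (b : Fin 12) (j k : ℕ) : (monoK K b j k).natDegree ≤ j + k :=
  (Polynomial.natDegree_mul_le).trans (Nat.add_le_add (DiscA_deg K _ _ j) (DiscA_deg K _ _ k))

theorem natDegree_GK_le (m : ℕ) (b : Fin 12) (j : Col m) : (GK K m b j).natDegree ≤ 57 * m := by
  rcases j with ⟨e, j⟩ | j
  · have hj := j.2
    refine (Polynomial.natDegree_C_mul_le _ _).trans ((natDegree_monoK_le K b _ _).trans ?_)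
    omega
  · simp [GK]

theorem natDegree_HK_le (m : ℕ) (b : Fin 12) (j : Col m) : (HK K m b j).natDegree ≤ 57 * m := by
  rcases j with ⟨e, j⟩ | j
  · have hj := j.2
    refine (Polynomial.natDegree_C_mul_le _ _).trans ((natDegree_monoK_le K b _ _).trans ?_)
    omega
  · simp [HK]

theorem natDegree_qK_le (m : ℕ) (b : Fin 12) (u : Fin 3) (j : Col m) :
    (qK K m b u j).natDegree ≤ 21 * m := by
  rcases j with j | ⟨u', j⟩
  · simp [qK]
  · rw [qK]
    split_ifs
    · have hj := j.2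
      refine (natDegree_monoK_le K b _ _).trans ?_
      omega
    · simp

theorem natDegree_FK_le (m : ℕ) (b : Fin 12) : (FK K m b).natDegree ≤ 36 * m := by
  have h := Polynomial.natDegree_prod_le (univ : Finset (Fin 12)) (fun a =>
    (Polynomial.C (br (lt b) (lt a) : K) + Polynomial.C (br (tv b) (lt a) : K) *
      Polynomial.X) ^ (FF a * m))
  refine h.trans ((Finset.sum_le_sum fun a _ => DiscA_deg K _ _ (FF a * m)).trans (le_of_eq ?_))
  rw [← Finset.sum_mul]
  congr 1

end degrees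

/-! ### The centre and the outer letters -/

section germs

variable (K : Type*) [NormedField K]

private theorem DiscA_coe (p : Polynomial K) :
    (p : PowerSeries K) = Polynomial.aeval PowerSeries.X p := by
  induction p using Polynomial.induction_on' with
  | add p q hp hq => rw [map_add, ← hp, ← hq, Polynomial.coe_add]
  | monomial n a =>
    rw [Polynomial.aeval_monomial, Polynomial.coe_monomial, PowerSeries.algebraMap_apply]
    ext i
    rw [Algebra.algebraMap_self, RingHom.id_apply, PowerSeries.coeff_C_mul,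
      PowerSeries.coeff_X_pow, PowerSeries.coeff_monomial]
    split_ifs <;> simp

private theorem DiscA_cc (b : Fin 12) : cα b b = 1 ∧ cα' b b = 0 ∧ cβ b b = 0 ∧ cβ' b b = 1 := by
  revert b
  decide

theorem sx_one_zero : (sx 1 0 : PowerSeries K) = 1 := by
  rw [sx, map_one, map_zero, zero_mul, add_zero]

theorem xinv_one_zero : (xinv 1 0 : PowerSeries K) = 1 := by
  have h : (sx 1 0 : PowerSeries K) * xinv 1 0 = 1 := sx_mul_xinv one_ne_zero
  rwa [sx_one_zero, one_mul] at h

/-- the row of the centre -/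
theorem rowK_self (m : ℕ) (b : Fin 12) (j : Col m) : rowK K m b b j =
    (GK K m b j : PowerSeries K) + (FK K m b : PowerSeries K) *
      ∑ u, EK K u b * (qK K m b u j : PowerSeries K) := by
  obtain ⟨h1, h2, h3, h4⟩ := DiscA_cc b
  have hx : xK K b b = 1 := by
    rw [xK, h1, h2, Int.cast_one, Int.cast_zero, sx_one_zero]
  have ht : tK K b b = PowerSeries.X := by
    rw [tK, h1, h2, h3, h4, Int.cast_one, Int.cast_zero, st, xinv_one_zero, mul_one, sx, map_zero,
      map_one, one_mul, zero_add]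
  rw [rowK, hx, ht, one_pow, one_mul, h1, h3, Int.cast_one, Int.cast_zero, map_one, map_zero,
    one_mul, zero_mul, add_zero]
  simp only [← DiscA_coe]

theorem tK_lin (b z a : Fin 12) (h : (cα b z : K) ≠ 0) :
    xK K b z * (PowerSeries.C (br (lt b) (lt a) : K) +
      PowerSeries.C (br (tv b) (lt a) : K) * tK K b z) =
      sx (br (lt z) (lt a) : K) (br (tv z) (lt a) : K) := by
  symm
  refine sx_eq h ?_ ?_
  · rw [br_lt_eq b z a]
    push_cast
    rfl
  · rw [br_tv_eq b z a]
    push_cast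
    rfl

/-- the letter `z` is a zero of order `FF z * m` of the fixed factor at `z` -/
theorem aeval_FK_dvd (m : ℕ) {b z : Fin 12} (h : (cα b z : K) ≠ 0) :
    (PowerSeries.X : PowerSeries K) ^ (FF z * m) ∣ Polynomial.aeval (tK K b z) (FK K m b) := by
  have hx : sx (cα b z : K) (cα' b z : K) * xinv (cα b z : K) (cα' b z : K) = 1 := sx_mul_xinv h
  have h1 : Polynomial.aeval (tK K b z) (Polynomial.C (br (lt b) (lt z) : K) +
      Polynomial.C (br (tv b) (lt z) : K) * Polynomial.X) =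
      PowerSeries.X * (-xinv (cα b z : K) (cα' b z : K)) := by
    have h2 := tK_lin K b z z h
    have h3 : br (lt z) (lt z) = 0 := by rw [br]; ring
    have h4 : br (tv z) (lt z) = -1 := by
      have := br_lt_tv z
      rw [br] at this ⊢
      linear_combination -this
    rw [h3, h4, Int.cast_zero, sx, map_zero, zero_add, xK] at h2
    have h5 : Polynomial.aeval (tK K b z) (Polynomial.C (br (lt b) (lt z) : K) +
        Polynomial.C (br (tv b) (lt z) : K) * Polynomial.X) =
        PowerSeries.C (br (lt b) (lt z) : K) + PowerSeries.C (br (tv b) (lt z) : K) * tK K b z := by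
      rw [map_add, map_mul, Polynomial.aeval_C, Polynomial.aeval_C, Polynomial.aeval_X]
      rfl
    rw [h5]
    have h6 : (PowerSeries.C ((((-1 : ℤ)) : K)) : PowerSeries K) = -1 := by
      rw [Int.cast_neg, Int.cast_one, map_neg, map_one]
    rw [h6] at h2
    linear_combination xinv (cα b z : K) (cα' b z : K) * h2 -
      (PowerSeries.C (br (lt b) (lt z) : K) + PowerSeries.C (br (tv b) (lt z) : K) * tK K b z) * hx
  rw [FK, map_prod]
  refine Dvd.dvd.trans ?_ (Finset.dvd_prod_of_mem _ (Finset.mem_univ z))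
  rw [map_pow, h1, mul_pow]
  exact dvd_mul_right _ _

theorem coeff_eq_zero_of_dvd {P : PowerSeries K} {n i : ℕ} (h : (PowerSeries.X) ^ n ∣ P)
    (hi : i < n) : PowerSeries.coeff i P = 0 := PowerSeries.X_pow_dvd_iff.mp h i hi

end germs

/-! ### The theorem -/

theorem mem_RCb {m c : ℕ} {x : Col m → Row m c} {b : Fin 12} {r : Col m} :
    r ∈ RC x {b} ↔ (x r).1 = b ∧ ((x r).2 : ℕ) < LL b * m := by
  rw [mem_RC, Finset.mem_singleton]
  constructor
  · rintro ⟨h1, h2⟩
    have e : LL (x r).1 * m = LL b * m := by rw [h1]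
    exact ⟨h1, lt_of_lt_of_eq h2 e⟩
  · rintro ⟨h1, h2⟩
    have e : LL (x r).1 * m = LL b * m := by rw [h1]
    exact ⟨h1, lt_of_lt_of_eq h2 e.symm⟩

theorem LL_of_FF {z : Fin 12} (h : FF z = 4) : LL z = 4 := by
  revert z
  decide

theorem LL_ge (z : Fin 12) : 4 ≤ LL z := by
  revert z
  decide

/-- the coefficient `α` is a unit if `β` is divisible by `p` -/
theorem norm_cα {b z : Fin 12} (h : (p : ℤ) ∣ br (lt b) (lt z)) : ‖(cα b z : ℚ_[p])‖ = 1 := by
  refine norm_intCast_eq_one fun h1 => ?_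
  have h2 : (p : ℤ) ∣ 1 := by
    rw [← coef_det b z]
    exact dvd_sub (h1.mul_right _) ((show (p : ℤ) ∣ cβ b z from h).mul_right _)
  have h3 := Int.natCast_dvd_natCast.mp (by exact_mod_cast h2 : ((p : ℕ) : ℤ) ∣ ((1 : ℕ) : ℤ))
  exact (Fact.out : p.Prime).one_lt.ne' (Nat.dvd_one.mp h3)

/-- `‖<b, z>‖ ≤ exp (-log p)` -/
theorem norm_br_le {n : ℤ} (h : (p : ℤ) ∣ n) : ‖(n : ℚ_[p])‖ ≤ Real.exp (-Real.log p) := by
  have h1 := norm_intCast_le_exp (p := p) (k := 1) (b := n) (by rwa [pow_one])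
  simpa using h1

/-- the fixed factor on the disc -/
theorem Bd_FK {b a a' : Fin 12} (hd : DiscAOk p b a a') (m L : ℕ) :
    Bd (Real.log p) (Real.exp (-(Real.log p * (10 * m)))) L (FK ℚ_[p] m b : PowerSeries ℚ_[p]) := by
  classical
  have hp1 : (1 : ℝ) < p := by exact_mod_cast (Fact.out : p.Prime).one_lt
  have hx : 0 ≤ Real.log p := Real.log_nonneg hp1.le
  have h0 : br (lt b) (lt b) = 0 := by rw [br]; ring
  set e : Fin 12 → ℝ := fun z => if z = b ∨ z = a ∨ z = a' then ((FF z * m : ℕ) : ℝ) else 0 with he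
  have h1 : (FK ℚ_[p] m b : PowerSeries ℚ_[p]) =
      ∏ z, sx (br (lt b) (lt z) : ℚ_[p]) (br (tv b) (lt z) : ℚ_[p]) ^ (FF z * m) := by
    rw [DiscA_coe, FK, map_prod]
    refine Finset.prod_congr rfl fun z _ => ?_
    rw [map_pow, map_add, map_mul, Polynomial.aeval_C, Polynomial.aeval_C, Polynomial.aeval_X]
    rfl
  have h2 : Bd (Real.log p) (∏ z, Real.exp (-(Real.log p * e z))) L
      (∏ z, sx (br (lt b) (lt z) : ℚ_[p]) (br (tv b) (lt z) : ℚ_[p]) ^ (FF z * m)) := by
    refine Bd.prod _ _ _ fun z _ => ?_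
    by_cases hz : z = b ∨ z = a ∨ z = a'
    · simp only [he, if_pos hz]
      refine bd_sx_exp_pow (norm_br_le ?_) (norm_le_one_of_int _) _
      rcases hz with rfl | rfl | rfl
      · rw [h0]
        exact dvd_zero _
      · exact hd.ha
      · exact hd.ha'
    · simp only [he, if_neg hz, mul_zero, neg_zero, Real.exp_zero]
      exact bd_sx_pow hx (norm_le_one_of_int _) (norm_le_one_of_int _) _
  rw [h1]
  refine h2.mono (le_of_eq ?_)
  rw [← Real.exp_sum, Finset.sum_neg_distrib, ← Finset.mul_sum]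
  congr 3
  have h3 : ∑ z, e z = ∑ z ∈ ({b, a, a'} : Finset (Fin 12)), ((FF z * m : ℕ) : ℝ) := by
    rw [← Finset.sum_filter_add_sum_filter_not univ (fun z => z = b ∨ z = a ∨ z = a') e]
    have h4 : ∑ z ∈ univ.filter (fun z => ¬ (z = b ∨ z = a ∨ z = a')), e z = 0 :=
      Finset.sum_eq_zero fun z hz => by
        simp only [he, if_neg (Finset.mem_filter.mp hz).2]
    rw [h4, add_zero]
    refine Finset.sum_congr ?_ fun z hz => ?_
    · ext z
      simp
    · simp only [Finset.mem_insert, Finset.mem_singleton] at hz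
      simp only [he, if_pos hz]
  rw [h3, Finset.sum_insert (by
      simp only [Finset.mem_insert, Finset.mem_singleton, not_or]
      exact ⟨hd.ab.symm, hd.ab'.symm⟩),
    Finset.sum_insert (by simpa using hd.ne), Finset.sum_singleton, hd.fb, hd.fa, hd.fa']
  push_cast
  ring

theorem red_discA {b a a' : Fin 12} (hd : DiscAOk p b a a') {m c : ℕ} (x : Col m → Row m c)
    (M : Matrix (Col m) (Col m) ℚ_[p])
    (hM : ∀ r ∈ RC x {b} ∪ RC x {a, a'}, ∀ j, M r j = algebraMap ℚ ℚ_[p] (Mx m c (x r) j))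
    (lam mu B : ℝ) (hmu : mu ≤ lam) (hB : ((LL b * m + c : ℕ) : ℝ) + 1 ≤ B) :
    Red B M (RC x {b} ∪ RC x {a, a'})
      (Real.log p * (∑ r ∈ RC x {b}, ((((x r).2 : ℕ) : ℝ) - lam) +
        ∑ r ∈ RC x {a, a'}, ((((x r).2 : ℕ) : ℝ) - mu)) +
      Real.log p * ((lam ^ 2 + mu ^ 2 + 2 * (lam - 10 * m) ^ 2) / 2 +
        ((RC x {b} ∪ RC x {a, a'}).card : ℝ) / 2) +
      (RC x {b} ∪ RC x {a, a'}).card * Real.log B) := by
  classical
  have hp1 : (1 : ℝ) < p := by exact_mod_cast (Fact.out : p.Prime).one_lt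
  have hx : 0 ≤ Real.log p := Real.log_nonneg hp1.le
  set L : ℕ := LL b * m + c with hL
  have hL0 : (0 : ℝ) ≤ L := Nat.cast_nonneg L
  have hLB : (L : ℝ) ≤ B := by linarith
  have hB1 : 1 ≤ B := by linarith
  set wl : Bool → Fin 12 := fun w => if w then a' else a with hwl
  set A : Fin 3 → PowerSeries ℚ_[p] := fun u => ∑ z ∈ ((univ.erase b).erase a).erase a',
    PowerSeries.C ((co u z : ℚ_[p]) * (br (lt b) (lt z) : ℚ_[p])) *
      Lg ((br (tv b) (lt z) : ℚ_[p]) / (br (lt b) (lt z) : ℚ_[p])) with hA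
  set La : Bool → PowerSeries ℚ_[p] := fun w => PowerSeries.C (br (lt b) (lt (wl w)) : ℚ_[p]) *
      Lg ((br (tv b) (lt (wl w)) : ℚ_[p]) / (br (lt b) (lt (wl w)) : ℚ_[p])) with hLa
  set Q : Bool → Col m → Polynomial ℚ_[p] := fun w j =>
    ∑ u, Polynomial.C (co u (wl w) : ℚ_[p]) * qK ℚ_[p] m b u j with hQ
  have hEK : ∀ u, EK ℚ_[p] u b = A u + ∑ w, PowerSeries.C (co u (wl w) : ℚ_[p]) * La w := by
    intro u
    have e1 : a ∈ (univ : Finset (Fin 12)).erase b := Finset.mem_erase.mpr ⟨hd.ab, mem_univ _⟩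
    have e2 : a' ∈ ((univ : Finset (Fin 12)).erase b).erase a :=
      Finset.mem_erase.mpr ⟨hd.ne.symm, Finset.mem_erase.mpr ⟨hd.ab', mem_univ _⟩⟩
    rw [EK, ← Finset.add_sum_erase _ _ e1, ← Finset.add_sum_erase _ _ e2, Fintype.sum_bool]
    simp only [hA, hLa, hwl, if_true, Bool.false_eq_true, if_false, map_mul]
    ring
  have hbra : ∀ w, (p : ℤ) ∣ br (lt b) (lt (wl w)) ∧ ¬ (p : ℤ) ^ 2 ∣ br (lt b) (lt (wl w)) := by
    intro w
    cases w
    · exact ⟨hd.ha, hd.ha2⟩
    · exact ⟨hd.ha', hd.ha2'⟩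
  have hor : ∀ r ∈ RC x {a, a'}, (x r).1 = a ∨ (x r).1 = a' := by
    intro r hr
    have h1 := (mem_RC.mp hr).1
    rwa [Finset.mem_insert, Finset.mem_singleton] at h1
  have hlow : ∀ r ∈ RC x {a, a'}, ((x r).2 : ℕ) < 4 * m := by
    intro r hr
    have h1 := (mem_RC.mp hr).2
    have h2 : LL (x r).1 = 4 := by
      rcases hor r hr with h4 | h4
      · rw [h4]
        exact LL_of_FF hd.fa
      · rw [h4]
        exact LL_of_FF hd.fa'
    have e : LL (x r).1 * m = 4 * m := by rw [h2]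
    exact lt_of_lt_of_eq h1 e
  have hbrr : ∀ r ∈ RC x {a, a'}, (p : ℤ) ∣ br (lt b) (lt (x r).1) := by
    intro r hr
    rcases hor r hr with h4 | h4
    · rw [h4]
      exact hd.ha
    · rw [h4]
      exact hd.ha'
  have hcα : ∀ r ∈ RC x {a, a'}, cα b (x r).1 ≠ 0 := by
    intro r hr h0
    have h1 := norm_cα (hbrr r hr)
    rw [h0, Int.cast_zero, norm_zero] at h1
    exact zero_ne_one h1
  have hdvd : ∀ r ∈ RC x {a, a'}, (PowerSeries.X : PowerSeries ℚ_[p]) ^ (4 * m) ∣
      Polynomial.aeval (tK ℚ_[p] b (x r).1) (FK ℚ_[p] m b) := by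
    intro r hr
    have h1 := aeval_FK_dvd ℚ_[p] m (b := b) (z := (x r).1) (Int.cast_ne_zero.mpr (hcα r hr))
    have h2 : FF (x r).1 = 4 := by
      rcases hor r hr with h4 | h4
      · rw [h4, hd.fa]
      · rw [h4, hd.fa']
    rwa [h2] at h1
  have hrow := red_typeA (K := ℚ_[p]) (U := Fin 3) (W := Bool) M (RC x {b}) (RC x {a, a'})
    (by
      rw [Finset.disjoint_left]
      intro r h1 h2
      have h3 := (mem_RCb.mp h1).1
      rcases hor r h2 with h4 | h4
      · exact hd.ab (h4.symm.trans h3)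
      · exact hd.ab' (h4.symm.trans h3))
    (fun r => ((x r).2 : ℕ)) L (57 * m + L + 1) (Real.log p) B hx hB1
    (GK ℚ_[p] m b) (HK ℚ_[p] m b) (qK ℚ_[p] m b) Q (FK ℚ_[p] m b)
    (norm_coeff_FK m b) (norm_coeff_GK m b) (norm_coeff_HK m b) (norm_coeff_qK m b)
    (by
      intro w j k
      refine STypeA_coeff_sum_norm _ _ zero_le_one (fun u _ k => ?_) k
      rw [Polynomial.coeff_C_mul, norm_mul]
      exact mul_le_one₀ (norm_le_one_of_int _) (norm_nonneg _) (norm_coeff_qK m b u j k))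
    (fun j => by have := natDegree_GK_le ℚ_[p] m b j; omega)
    (fun j => by have := natDegree_HK_le ℚ_[p] m b j; omega)
    (by
      intro w j
      have h1 : (Q w j).natDegree ≤ 21 * m :=
        Polynomial.natDegree_sum_le_of_forall_le _ _ fun u _ =>
          (Polynomial.natDegree_C_mul_le _ _).trans (natDegree_qK_le ℚ_[p] m b u j)
      omega)
    (fun u j => by
      have h1 := natDegree_qK_le ℚ_[p] m b u j
      have h2 := natDegree_FK_le ℚ_[p] m b
      omega)
    A La
    (by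
      intro u
      refine Bd.sum _ _ (by linarith) fun z hz => ?_
      have hz' := Finset.mem_erase.mp hz
      have hz2 := Finset.mem_erase.mp hz'.2
      have hz3 := Finset.mem_erase.mp hz2.2
      have h1 : ‖(br (lt b) (lt z) : ℚ_[p])‖ = 1 :=
        norm_intCast_eq_one (hd.out z hz3.1 hz2.1 hz'.1)
      have h2 : Bd 0 (L : ℝ) L (Lg ((br (tv b) (lt z) : ℚ_[p]) / (br (lt b) (lt z) : ℚ_[p]))) :=
        bd_Lg (by
          rw [norm_div, h1, div_one, Real.exp_zero]
          exact norm_le_one_of_int _)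
      refine (Bd.C_mul (B := 1) ?_ h2).mono (by linarith)
      rw [norm_mul]
      exact mul_le_one₀ (norm_le_one_of_int _) (norm_nonneg _) (norm_le_one_of_int _))
    (by
      intro w
      have h2 : Bd (Real.log p) (L : ℝ) L
          (Lg ((br (tv b) (lt (wl w)) : ℚ_[p]) / (br (lt b) (lt (wl w)) : ℚ_[p]))) :=
        bd_Lg (by
          have h3 := norm_inv_intCast_le (k := 1) (hbra w).2
          rw [Nat.cast_one, one_mul] at h3
          rw [div_eq_mul_inv, norm_mul]
          calc _ ≤ 1 * Real.exp (Real.log p) :=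
                mul_le_mul (norm_le_one_of_int _) h3 (norm_nonneg _) zero_le_one
            _ = Real.exp (Real.log p) := one_mul _)
      exact (Bd.C_mul (B := 1) (norm_le_one_of_int _) h2).mono (by linarith))
    (10 * m) (Bd_FK hd m L)
    (by
      intro r hr j
      have hz : (x r).1 = b := (mem_RCb.mp hr).1
      have hcc : cα b b ≠ 0 := by
        rw [(DiscA_cc b).1]
        exact one_ne_zero
      have hrk : rowK ℚ_[p] m b (x r).1 j = rowK ℚ_[p] m b b j := by rw [hz]
      rw [hM r (Finset.mem_union_left _ hr) j, coord_entry m c (b := b) (x r) (by rw [hz]; exact hcc),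
        hrk, rowK_self]
      congr 1
      rw [add_assoc, ← mul_add]
      congr 2
      simp only [hEK, add_mul, Finset.sum_add_distrib, hQ, Finset.sum_mul]
      congr 1
      rw [Finset.sum_comm]
      refine Finset.sum_congr rfl fun w _ => ?_
      have e1 : ((∑ u, Polynomial.C (co u (wl w) : ℚ_[p]) * qK ℚ_[p] m b u j : Polynomial ℚ_[p]) :
          PowerSeries ℚ_[p]) = ∑ u, PowerSeries.C (co u (wl w) : ℚ_[p]) *
            (qK ℚ_[p] m b u j : PowerSeries ℚ_[p]) := by
        rw [← Polynomial.coeToPowerSeries.ringHom_apply, map_sum]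
        refine Finset.sum_congr rfl fun u _ => ?_
        rw [Polynomial.coeToPowerSeries.ringHom_apply, Polynomial.coe_mul, Polynomial.coe_C]
      rw [e1, Finset.mul_sum]
      refine Finset.sum_congr rfl fun u _ => ?_
      ring)
    (fun r => xK ℚ_[p] b (x r).1 ^ (57 * m - 1)) (fun r => (cα b (x r).1 : ℚ_[p]))
    (fun r => (cβ b (x r).1 : ℚ_[p])) (fun r => tK ℚ_[p] b (x r).1)
    (by
      intro r hr j
      rw [hM r (Finset.mem_union_right _ hr) j, coord_entry m c (b := b) (x r) (hcα r hr), rowK,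
        mul_add, map_add]
      have h1 : PowerSeries.coeff ((x r).2 : ℕ) (xK ℚ_[p] b (x r).1 ^ (57 * m - 1) *
          (Polynomial.aeval (tK ℚ_[p] b (x r).1) (FK ℚ_[p] m b) *
            ∑ u, EK ℚ_[p] u (x r).1 * Polynomial.aeval (tK ℚ_[p] b (x r).1)
              (qK ℚ_[p] m b u j))) = 0 :=
        coeff_eq_zero_of_dvd _ (((hdvd r hr).mul_right _).mul_left _)
          (hlow r hr)
      rw [h1, add_zero])
    (by
      intro r hr P
      refine coeff_eq_zero_of_dvd _ ?_ (hlow r hr)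
      rw [map_mul]
      exact ((hdvd r hr).mul_right _).mul_left _ |>.mul_left _)
    (by
      intro r hr
      rcases Finset.mem_union.mp hr with hr | hr
      · have hz : (x r).1 = b := (mem_RCb.mp hr).1
        have h1 := (x r).2.2
        rw [hL, ← hz]
        exact h1
      · have h1 := hlow r hr
        have h2 : 4 * m ≤ LL b * m := Nat.mul_le_mul_right m (LL_ge b)
        show ((x r).2 : ℕ) < L
        omega)
    (by
      intro r hr
      exact bd_sx_pow hx (norm_le_one_of_int _) (norm_le_one_of_int _) _)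
    (fun r _ => norm_le_one_of_int _) (fun r _ => norm_le_one_of_int _)
    (by
      intro r hr
      exact bd_st hx (norm_cα (hbrr r hr)) (norm_le_one_of_int _) (norm_br_le (hbrr r hr))
        (norm_le_one_of_int _))
    lam mu hmu
  refine hrow.mono (le_of_eq ?_)
  rw [Fintype.card_bool]
  push_cast
  ring

/-- **The disc of one germ letter and two outer letters**, with the sums of the orders. -/
theorem red_discA_le {b a a' : Fin 12} (hd : DiscAOk p b a a') (c : ℕ) {lam mu : ℝ} (hmu0 : 0 ≤ mu)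
    (hmu : mu ≤ lam) : ∃ C : ℝ, 0 ≤ C ∧ ∀ (m : ℕ) (x : Col m → Row m c), Function.Injective x →
      ∀ M : Matrix (Col m) (Col m) ℚ_[p],
      (∀ r ∈ RC x {b, a, a'}, ∀ j, M r j = algebraMap ℚ ℚ_[p] (Mx m c (x r) j)) →
      Red 1 M (RC x {b, a, a'}) (Real.log p * (((LL b : ℝ) ^ 2 / 2 - LL b * lam + 16 - 8 * mu +
        (lam ^ 2 + mu ^ 2 + 2 * (lam - 10) ^ 2) / 2) * (m : ℝ) ^ 2) + C * m * Real.log (m + 2)) := by
  classical
  have hp1 : (1 : ℝ) < p := by exact_mod_cast (Fact.out : p.Prime).one_lt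
  have hx : 0 ≤ Real.log p := Real.log_nonneg hp1.le
  have hlam : 0 ≤ lam := hmu0.trans hmu
  set s : ℝ := LL b + 8 with hs
  have hs0 : 0 ≤ s := by positivity
  have hlg : 0 ≤ Real.log ((LL b : ℝ) + (c + 1)) :=
    Real.log_nonneg (by
      have h1 : (0 : ℝ) ≤ LL b := Nat.cast_nonneg _
      have h2 : (0 : ℝ) ≤ c := Nat.cast_nonneg _
      linarith)
  refine ⟨2 * (Real.log p * (12 * c * lam) + Real.log p * (s / 2) + s * Real.log p) +
    2 * (s * (1 + 2 * Real.log ((LL b : ℝ) + (c + 1)))), by positivity, fun m x hx' M hM => ?_⟩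
  have hRC : RC x {b, a, a'} = RC x {b} ∪ RC x {a, a'} := by
    ext r
    simp only [mem_RC, Finset.mem_union, Finset.mem_insert, Finset.mem_singleton]
    tauto
  rw [hRC] at hM ⊢
  have hm : (0 : ℝ) ≤ m := Nat.cast_nonneg m
  set B : ℝ := ((LL b * m + c : ℕ) : ℝ) + 1 with hB
  have hB1 : 1 ≤ B := by
    have : (0 : ℝ) ≤ ((LL b * m + c : ℕ) : ℝ) := Nat.cast_nonneg _
    linarith
  have h1 := (red_discA hd x M hM (lam * m) (mu * m) B
    (mul_le_mul_of_nonneg_right hmu hm) le_rfl).to_one_padic hB1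
  refine h1.mono ?_
  have hcard : ((RC x {b} ∪ RC x {a, a'}).card : ℝ) ≤ s * m := by
    have h2 := card_RC_le x hx' {b, a, a'}
    rw [hRC, Finset.sum_insert (by
      simp only [Finset.mem_insert, Finset.mem_singleton, not_or]
      exact ⟨hd.ab.symm, hd.ab'.symm⟩), Finset.sum_insert (by simpa using hd.ne),
      Finset.sum_singleton, LL_of_FF hd.fa, LL_of_FF hd.fa'] at h2
    calc ((RC x {b} ∪ RC x {a, a'}).card : ℝ) ≤ (((LL b + (4 + 4)) * m : ℕ) : ℝ) := by
          exact_mod_cast h2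
      _ = s * m := by
          rw [hs]
          push_cast
          ring
  -- the orders
  have hsum : ∑ r ∈ RC x {b}, ((((x r).2 : ℕ) : ℝ) - lam * m) +
      ∑ r ∈ RC x {a, a'}, ((((x r).2 : ℕ) : ℝ) - mu * m) ≤
      ((LL b : ℝ) ^ 2 / 2 - LL b * lam + 16 - 8 * mu) * (m : ℝ) ^ 2 + 12 * c * (lam * m) := by
    set f : Fin 12 → ℕ → ℝ := fun z i => (i : ℝ) - (if z = b then lam * m else mu * m) with hf
    have h2 := sum_RC_le x hx' {b, a, a'} f (lam * m) (by positivity) (by
      intro z _ i _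
      have h3 : (0 : ℝ) ≤ i := Nat.cast_nonneg i
      have h4 : mu * m ≤ lam * m := mul_le_mul_of_nonneg_right hmu hm
      simp only [hf]
      split_ifs <;> linarith)
    have h3 : ∑ r ∈ RC x {b, a, a'}, f (x r).1 (x r).2 =
        ∑ r ∈ RC x {b}, ((((x r).2 : ℕ) : ℝ) - lam * m) +
        ∑ r ∈ RC x {a, a'}, ((((x r).2 : ℕ) : ℝ) - mu * m) := by
      rw [hRC, Finset.sum_union (by
        rw [Finset.disjoint_left]
        intro r h5 h6
        have h7 := (mem_RCb.mp h5).1
        have h8 := (mem_RC.mp h6).1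
        rw [Finset.mem_insert, Finset.mem_singleton] at h8
        rcases h8 with h9 | h9
        · exact hd.ab (h9.symm.trans h7)
        · exact hd.ab' (h9.symm.trans h7))]
      congr 1
      · refine Finset.sum_congr rfl fun r hr => ?_
        simp only [hf, if_pos (mem_RCb.mp hr).1]
      · refine Finset.sum_congr rfl fun r hr => ?_
        have h8 := (mem_RC.mp hr).1
        rw [Finset.mem_insert, Finset.mem_singleton] at h8
        have h9 : (x r).1 ≠ b := by
          rcases h8 with h9 | h9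
          · rw [h9]
            exact hd.ab
          · rw [h9]
            exact hd.ab'
        simp only [hf, if_neg h9]
    have h4 : ∀ (n : ℕ) (t : ℝ), ∑ i ∈ Finset.range n, ((i : ℝ) - t) ≤ (n : ℝ) ^ 2 / 2 - n * t := by
      intro n t
      rw [Finset.sum_sub_distrib, Finset.sum_const, Finset.card_range, nsmul_eq_mul]
      have := sum_range_id_le n
      linarith
    rw [h3, Finset.sum_insert (by
      simp only [Finset.mem_insert, Finset.mem_singleton, not_or]
      exact ⟨hd.ab.symm, hd.ab'.symm⟩), Finset.sum_insert (by simpa using hd.ne),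
      Finset.sum_singleton, LL_of_FF hd.fa, LL_of_FF hd.fa'] at h2
    simp only [hf, if_true, if_neg hd.ab, if_neg hd.ab'] at h2
    have h5 := h4 (LL b * m) (lam * m)
    have h6 := h4 (4 * m) (mu * m)
    refine h2.trans ?_
    push_cast at h5 h6 ⊢
    nlinarith [h5, h6]
  have hlog : Real.log B ≤ (1 + 2 * Real.log ((LL b : ℝ) + (c + 1))) * Real.log (m + 2) := by
    have h2 := log_lin_le (LL b : ℝ) ((c : ℝ) + 1) (Nat.cast_nonneg _) (by
      have : (0 : ℝ) ≤ c := Nat.cast_nonneg _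
      linarith) m
    have h3 : B = (LL b : ℝ) * m + ((c : ℝ) + 1) := by
      rw [hB]
      push_cast
      ring
    rwa [h3]
  have hlB : 0 ≤ Real.log B := Real.log_nonneg hB1
  have hl2 : (1 : ℝ) ≤ 2 * Real.log (m + 2) := by
    have h1 : Real.log 2 ≤ Real.log (m + 2) := Real.log_le_log (by norm_num) (by linarith)
    have h2 := Real.log_two_gt_d9
    linarith
  have h5 : (((RC x {b} ∪ RC x {a, a'}).card : ℝ)) * Real.log B ≤
      s * m * ((1 + 2 * Real.log ((LL b : ℝ) + (c + 1))) * Real.log (m + 2)) :=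
    mul_le_mul hcard hlog hlB (by positivity)
  have h6 : (((RC x {b} ∪ RC x {a, a'}).card : ℝ)) * Real.log p ≤ s * m * Real.log p :=
    mul_le_mul_of_nonneg_right hcard hx
  have h7 : Real.log p * (∑ r ∈ RC x {b}, ((((x r).2 : ℕ) : ℝ) - lam * m) +
      ∑ r ∈ RC x {a, a'}, ((((x r).2 : ℕ) : ℝ) - mu * m)) ≤ Real.log p *
      (((LL b : ℝ) ^ 2 / 2 - LL b * lam + 16 - 8 * mu) * (m : ℝ) ^ 2 + 12 * c * (lam * m)) :=
    mul_le_mul_of_nonneg_left hsum hx
  have h8 : Real.log p * (12 * c * (lam * m)) + Real.log p * (s * m / 2) + s * m * Real.log p ≤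
      (Real.log p * (12 * c * lam) + Real.log p * (s / 2) + s * Real.log p) * m *
        (2 * Real.log (m + 2)) := by
    refine le_trans (le_of_eq ?_) (le_mul_of_one_le_right (by positivity) hl2)
    ring
  have h9 : Real.log p * (((RC x {b} ∪ RC x {a, a'}).card : ℝ) / 2) ≤ Real.log p * (s * m / 2) :=
    mul_le_mul_of_nonneg_left (by linarith) hx
  have h10 : 0 ≤ s * m * ((1 + 2 * Real.log ((LL b : ℝ) + (c + 1))) * Real.log (m + 2)) := by
    have : 0 ≤ Real.log ((m : ℝ) + 2) := by linarith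
    positivity
  nlinarith [h5, h6, h7, h8, h9, h10]

end B10
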