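import Mathlib

/-!
# Cauchy-Binet on a disc, multilinear form

If the rows `r ∈ R` of a square matrix over an ultrametric field are combinations
`∑ s, a r s • V s` of common row vectors `V s`, then the norm of the determinant is at most
the maximum, over the maps `σ` injective on `R`, of
`‖∏ r ∈ R, a r (σ r)‖ * ‖det (rows r ∈ R replaced by V (σ r))‖`.
The lemma can be applied again to the new matrices (nested discs, other discs).
Second part: `∑ m ≥ L (L - v) / (2 v)` for `L` distinct pairs `(f, m)` with `v` values of `f`.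
-/

namespace B10

open Finset Matrix

variable {ι : Type*} [Fintype ι] [DecidableEq ι]

/-- the matrix `M` with the rows `r ∈ R` replaced by `V (σ r)` -/
def repl {K S : Type*} (M : Matrix ι ι K) (R : Finset ι) (V : S → ι → K) (σ : ι → S) :
    Matrix ι ι K := fun r => if r ∈ R then V (σ r) else M r

omit [Fintype ι] in
theorem repl_mem {K S : Type*} (M : Matrix ι ι K) (R : Finset ι) (V : S → ι → K) (σ : ι → S)
    {r : ι} (hr : r ∈ R) : repl M R V σ r = V (σ r) := by
  unfold repl; rw [if_pos hr]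

omit [Fintype ι] in
theorem repl_not_mem {K S : Type*} (M : Matrix ι ι K) (R : Finset ι) (V : S → ι → K)
    (σ : ι → S) {r : ι} (hr : r ∉ R) : repl M R V σ r = M r := by
  unfold repl; rw [if_neg hr]

/-- ultrametric bound of a finite sum -/
theorem norm_sum_le_of_forall {K : Type*} [SeminormedAddCommGroup K] [IsUltrametricDist K]
    {α : Type*} (s : Finset α) (f : α → K) (C : ℝ) (hC : 0 ≤ C) (h : ∀ i ∈ s, ‖f i‖ ≤ C) :
    ‖∑ i ∈ s, f i‖ ≤ C :=
  IsUltrametricDist.norm_sum_le_of_forall_le_of_nonneg hC h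

/-- the determinant as a sum over one expanded row -/
theorem det_row_sum {K : Type*} [CommRing K] {S : Type*} (M : Matrix ι ι K) (r0 : ι)
    (t : Finset S) (a : S → K) (V : S → ι → K) :
    (M.updateRow r0 (∑ s ∈ t, a s • V s)).det
      = ∑ s ∈ t, a s * (M.updateRow r0 (V s)).det := by
  classical
  induction t using Finset.induction_on with
  | empty =>
    rw [Finset.sum_empty, Finset.sum_empty]
    exact Matrix.det_eq_zero_of_row_eq_zero r0 (fun j => by simp)
  | insert s t hs ih =>
    rw [Finset.sum_insert hs, Finset.sum_insert hs, Matrix.det_updateRow_add,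
      Matrix.det_updateRow_smul, ih]

theorem det_expand_aux {K : Type*} [NormedField K] [IsUltrametricDist K]
    {S : Type*} [Fintype S] (a : ι → S → K) (V : S → ι → K) (R : Finset ι) :
    ∀ (M : Matrix ι ι K) (_ : ∀ r ∈ R, M r = ∑ s, a r s • V s) (C : ℝ) (_ : 0 ≤ C)
      (_ : ∀ σ : ι → S, ‖∏ r ∈ R, a r (σ r)‖ * ‖(repl M R V σ).det‖ ≤ C)
      (_ : Nonempty S), ‖M.det‖ ≤ C := by
  induction R using Finset.induction_on with
  | empty =>
    intro M _ C _ h hS
    obtain ⟨s0⟩ := hS
    have h1 := h (fun _ => s0)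
    have h2 : repl M ∅ V (fun _ => s0) = M := by
      funext r; exact repl_not_mem M ∅ V _ (Finset.notMem_empty r)
    rw [h2] at h1
    simpa using h1
  | insert r0 R hr0 ih =>
    intro M hM C hC h hS
    have e0 : M = M.updateRow r0 (∑ s, a r0 s • V s) := by
      rw [← hM r0 (Finset.mem_insert_self _ _), Matrix.updateRow_eq_self]
    have e1 : M.det = ∑ s, a r0 s * (M.updateRow r0 (V s)).det := by
      conv_lhs => rw [e0]
      exact det_row_sum M r0 Finset.univ (a r0) V
    rw [e1]
    refine norm_sum_le_of_forall _ _ C hC fun s _ => ?_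
    rw [norm_mul]
    rcases eq_or_ne (a r0 s) 0 with h0 | h0
    · rw [h0, norm_zero, zero_mul]; exact hC
    · have hp : 0 < ‖a r0 s‖ := norm_pos_iff.mpr h0
      have key : ‖(M.updateRow r0 (V s)).det‖ ≤ C / ‖a r0 s‖ := by
        refine ih (M.updateRow r0 (V s)) ?_ (C / ‖a r0 s‖) (div_nonneg hC hp.le) ?_ hS
        · intro r hr
          have hne : r ≠ r0 := fun hh => hr0 (hh ▸ hr)
          have e5 : (M.updateRow r0 (V s)) r = M r := by
            funext j; exact Matrix.updateRow_ne hne ▸ rfl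
          rw [e5]
          exact hM r (Finset.mem_insert_of_mem hr)
        · intro σ
          rw [le_div_iff₀ hp]
          have h1 := h (Function.update σ r0 s)
          have e3 : repl M (insert r0 R) V (Function.update σ r0 s)
              = repl (M.updateRow r0 (V s)) R V σ := by
            funext r
            by_cases hr : r = r0
            · subst hr
              rw [repl_mem _ _ _ _ (Finset.mem_insert_self _ _), Function.update_self,
                repl_not_mem _ _ _ _ hr0, Matrix.updateRow_self]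
            · by_cases hrR : r ∈ R
              · rw [repl_mem _ _ _ _ (Finset.mem_insert_of_mem hrR), repl_mem _ _ _ _ hrR,
                  Function.update_of_ne hr]
              · rw [repl_not_mem _ _ _ _ (by
                    rw [Finset.mem_insert]; push Not; exact ⟨hr, hrR⟩),
                  repl_not_mem _ _ _ _ hrR, Matrix.updateRow_ne hr]
          rw [e3, Finset.prod_insert hr0, Function.update_self] at h1
          have e4 : ∏ x ∈ R, a x (Function.update σ r0 s x) = ∏ x ∈ R, a x (σ x) := by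
            refine Finset.prod_congr rfl fun x hx => ?_
            have hne : x ≠ r0 := fun hh => hr0 (hh ▸ hx)
            rw [Function.update_of_ne hne]
          rw [e4, norm_mul] at h1
          calc _ = ‖a r0 s‖ * ‖∏ x ∈ R, a x (σ x)‖ *
                ‖(repl (M.updateRow r0 (V s)) R V σ).det‖ := by ring
            _ ≤ C := h1
      calc ‖a r0 s‖ * ‖(M.updateRow r0 (V s)).det‖
          ≤ ‖a r0 s‖ * (C / ‖a r0 s‖) := mul_le_mul_of_nonneg_left key hp.le
        _ = C := by field_simp

/-- **Cauchy-Binet on a disc.** -/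
theorem det_expand_le {K : Type*} [NormedField K] [IsUltrametricDist K]
    {S : Type*} [Fintype S] [Nonempty S]
    (M : Matrix ι ι K) (R : Finset ι) (a : ι → S → K) (V : S → ι → K)
    (hM : ∀ r ∈ R, M r = ∑ s, a r s • V s) (C : ℝ) (hC : 0 ≤ C)
    (h : ∀ σ : ι → S, Set.InjOn σ R →
      ‖∏ r ∈ R, a r (σ r)‖ * ‖(repl M R V σ).det‖ ≤ C) :
    ‖M.det‖ ≤ C := by
  refine det_expand_aux a V R M hM C hC (fun σ => ?_) inferInstance
  by_cases hi : Set.InjOn σ R
  · exact h σ hi
  · have h1 : ∃ x ∈ R, ∃ y ∈ R, σ x = σ y ∧ x ≠ y := by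
      unfold Set.InjOn at hi
      push Not at hi
      obtain ⟨x, hx, y, hy, hxy, hne⟩ := hi
      exact ⟨x, hx, y, hy, hxy, hne⟩
    obtain ⟨x, hx, y, hy, hxy, hne⟩ := h1
    have h2 : (repl M R V σ).det = 0 := by
      refine Matrix.det_zero_of_row_eq hne ?_
      rw [repl_mem _ _ _ _ hx, repl_mem _ _ _ _ hy, hxy]
    rw [h2, norm_zero, mul_zero]; exact hC

/-- the sum of a finite set of naturals -/
theorem nat_sum_ge (T : Finset ℕ) : ((T.card : ℝ) ^ 2 - T.card) / 2 ≤ ∑ m ∈ T, (m : ℝ) := by
  have key : ∀ n : ℕ, ∀ T : Finset ℕ, T.card = n →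
      ((n : ℝ) ^ 2 - n) / 2 ≤ ∑ m ∈ T, (m : ℝ) := by
    intro n
    induction n with
    | zero =>
      intro T hT
      rw [Finset.card_eq_zero] at hT
      subst hT; simp
    | succ n ih =>
      intro T hT
      have hex : ∃ m ∈ T, n ≤ m := by
        by_contra hcon
        push Not at hcon
        have hsub : T ⊆ Finset.range n := fun x hx => Finset.mem_range.mpr (hcon x hx)
        have := Finset.card_le_card hsub
        rw [hT, Finset.card_range] at this
        omega
      obtain ⟨m, hm, hnm⟩ := hex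
      have hc : (T.erase m).card = n := by
        rw [Finset.card_erase_of_mem hm, hT]; rfl
      have h1 := ih (T.erase m) hc
      rw [← Finset.add_sum_erase T (fun x => (x : ℝ)) hm]
      have h2 : (n : ℝ) ≤ m := by exact_mod_cast hnm
      push_cast
      nlinarith [h1, h2]
  exact key T.card T rfl

/-- distinct pairs `(f, m)`: the sum of the `m` is large -/
theorem pairs_sum {F : Type*} [Fintype F] [DecidableEq F] (T : Finset (F × ℕ)) :
    (T.card : ℝ) ^ 2 / (2 * Fintype.card F) - T.card / 2 ≤ ∑ s ∈ T, (s.2 : ℝ) := by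
  classical
  set c : F → Finset ℕ := fun f => (T.filter (fun s => s.1 = f)).image Prod.snd with hc
  have hinj : ∀ f, Set.InjOn Prod.snd (T.filter (fun s => s.1 = f) : Set (F × ℕ)) := by
    intro f x hx y hy hxy
    have h1 := (Finset.mem_filter.mp (Finset.mem_coe.mp hx)).2
    have h2 := (Finset.mem_filter.mp (Finset.mem_coe.mp hy)).2
    exact Prod.ext (h1.trans h2.symm) hxy
  have hcard : ∀ f, (c f).card = (T.filter (fun s => s.1 = f)).card := fun f =>
    Finset.card_image_of_injOn (hinj f)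
  have hsum : ∀ f, ∑ m ∈ c f, (m : ℝ) = ∑ s ∈ T.filter (fun s => s.1 = f), (s.2 : ℝ) := by
    intro f
    rw [hc]
    exact Finset.sum_image (fun x hx y hy h => hinj f hx hy h)
  have htot : ∑ f, ∑ m ∈ c f, (m : ℝ) = ∑ s ∈ T, (s.2 : ℝ) := by
    rw [Finset.sum_congr rfl (fun f _ => hsum f)]
    exact Finset.sum_fiberwise T (fun s => s.1) (fun s => (s.2 : ℝ))
  have hctot : ∑ f, ((c f).card : ℝ) = T.card := by
    rw [Finset.sum_congr rfl (fun f _ => by rw [hcard f])]
    have := Finset.card_eq_sum_card_fiberwise (s := T) (t := (Finset.univ : Finset F))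
      (f := fun s => s.1) (fun _ _ => Finset.mem_coe.mpr (Finset.mem_univ _))
    rw [this]; push_cast; rfl
  have hlow : ∑ f, ((((c f).card : ℝ)) ^ 2 - (c f).card) / 2 ≤ ∑ s ∈ T, (s.2 : ℝ) := by
    rw [← htot]
    exact Finset.sum_le_sum fun f _ => nat_sum_ge (c f)
  have hsq : (T.card : ℝ) ^ 2 ≤ Fintype.card F * ∑ f, ((c f).card : ℝ) ^ 2 := by
    have := sq_sum_le_card_mul_sum_sq (s := (Finset.univ : Finset F))
      (f := fun f => ((c f).card : ℝ))
    rw [hctot] at this
    simpa using this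
  have hdiv : (T.card : ℝ) ^ 2 / (2 * Fintype.card F)
      ≤ (∑ f, ((c f).card : ℝ) ^ 2) / 2 := by
    rcases Nat.eq_zero_or_pos (Fintype.card F) with h0 | hpos
    · have : (2 * (Fintype.card F : ℝ)) = 0 := by rw [h0]; simp
      rw [this, div_zero]
      exact div_nonneg (Finset.sum_nonneg fun f _ => sq_nonneg _) (by norm_num)
    · have hp : (0 : ℝ) < Fintype.card F := by exact_mod_cast hpos
      rw [div_le_div_iff₀ (by positivity) (by norm_num)]
      nlinarith [hsq]
  have e1 : ∑ f, ((((c f).card : ℝ)) ^ 2 - (c f).card) / 2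
      = (∑ f, ((c f).card : ℝ) ^ 2) / 2 - (T.card : ℝ) / 2 := by
    rw [← Finset.sum_div, Finset.sum_sub_distrib, hctot]; ring
  linarith [hlow, hdiv, e1.symm.le, e1.le]

/-- an injective choice of pairs: the sum of the second components is large -/
theorem inj_pairs_sum {F : Type*} [Fintype F] [DecidableEq F] {α : Type*} (R : Finset α)
    (σ : α → F × ℕ) (hσ : Set.InjOn σ R) :
    (R.card : ℝ) ^ 2 / (2 * Fintype.card F) - R.card / 2 ≤ ∑ r ∈ R, ((σ r).2 : ℝ) := by
  classical
  have h1 := pairs_sum (R.image σ)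
  rw [Finset.card_image_of_injOn hσ, Finset.sum_image (fun x hx y hy h => hσ hx hy h)] at h1
  exact h1

/-- **One disc.**  `R` = the rows in the disc, `F` = the families visible in the disc,
`ord r` = the order of the row `r`; `exp x` = (radius of the disc) `⁻¹`.
The bound of the new determinants may grow like `exp (y * ∑ m)` (`y ≤ x`, outer discs). -/
theorem disc_step {K : Type*} [NormedField K] [IsUltrametricDist K]
    {F : Type*} [Fintype F] [DecidableEq F] {N : ℕ} [Nonempty (F × Fin N)]
    (M : Matrix ι ι K) (R : Finset ι) (a : ι → F × Fin N → K) (V : F × Fin N → ι → K)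
    (hM : ∀ r ∈ R, M r = ∑ s, a r s • V s) (ord : ι → ℕ) (x y A D : ℝ)
    (hy : y ≤ x) (hA : 0 ≤ A) (hD : 0 ≤ D)
    (ha : ∀ r ∈ R, ∀ s, ‖a r s‖ ≤ A * Real.exp (x * ((ord r : ℝ) - (s.2 : ℕ))))
    (hdet : ∀ σ : ι → F × Fin N, Set.InjOn σ R →
      ‖(repl M R V σ).det‖ ≤ D * Real.exp (y * ∑ r ∈ R, ((σ r).2 : ℕ))) :
    ‖M.det‖ ≤ A ^ R.card * D * Real.exp (x * ∑ r ∈ R, (ord r : ℝ)
      - (x - y) * ((R.card : ℝ) ^ 2 / (2 * Fintype.card F) - R.card / 2)) := by
  refine det_expand_le M R a V hM _ (by positivity) (fun σ hσ => ?_)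
  have h1 : ‖∏ r ∈ R, a r (σ r)‖
      ≤ A ^ R.card * Real.exp (x * ∑ r ∈ R, ((ord r : ℝ) - ((σ r).2 : ℕ))) := by
    rw [norm_prod]
    calc ∏ r ∈ R, ‖a r (σ r)‖
        ≤ ∏ r ∈ R, (A * Real.exp (x * ((ord r : ℝ) - ((σ r).2 : ℕ)))) :=
          Finset.prod_le_prod (fun r _ => norm_nonneg _) (fun r hr => ha r hr (σ r))
      _ = _ := by
          rw [Finset.prod_mul_distrib, Finset.prod_const, ← Real.exp_sum, Finset.mul_sum]
  have h2 := hdet σ hσ
  have hinj : (R.card : ℝ) ^ 2 / (2 * Fintype.card F) - R.card / 2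
      ≤ ∑ r ∈ R, (((σ r).2 : ℕ) : ℝ) := by
    have := inj_pairs_sum R (fun r => ((σ r).1, ((σ r).2 : ℕ))) (by
      intro u hu w hw h
      apply hσ hu hw
      have e1 := congrArg Prod.fst h
      have e2 := congrArg Prod.snd h
      exact Prod.ext e1 (Fin.ext e2))
    simpa using this
  calc ‖∏ r ∈ R, a r (σ r)‖ * ‖(repl M R V σ).det‖
      ≤ (A ^ R.card * Real.exp (x * ∑ r ∈ R, ((ord r : ℝ) - ((σ r).2 : ℕ))))
        * (D * Real.exp (y * ∑ r ∈ R, (((σ r).2 : ℕ) : ℝ))) :=
        mul_le_mul h1 (by simpa using h2) (norm_nonneg _) (by positivity)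
    _ = A ^ R.card * D * Real.exp (x * ∑ r ∈ R, (ord r : ℝ)
          - (x - y) * ∑ r ∈ R, (((σ r).2 : ℕ) : ℝ)) := by
        rw [mul_mul_mul_comm, ← Real.exp_add, Finset.sum_sub_distrib]
        congr 2; ring
    _ ≤ _ := by
        apply mul_le_mul_of_nonneg_left _ (by positivity)
        apply Real.exp_le_exp.mpr
        have := mul_le_mul_of_nonneg_left hinj (sub_nonneg.mpr hy)
        linarith

/-- the last step: rows of norm at most `B r` -/
theorem det_norm_le_prod {K : Type*} [NormedField K] [IsUltrametricDist K]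
    (M : Matrix ι ι K) (B : ι → ℝ) (hB : ∀ r j, ‖M r j‖ ≤ B r) :
    ‖M.det‖ ≤ ∏ r, B r := by
  have hB0 : ∀ r, 0 ≤ B r := fun r => (norm_nonneg (M r r)).trans (hB r r)
  rw [Matrix.det_apply]
  refine norm_sum_le_of_forall _ _ _ (Finset.prod_nonneg fun r _ => hB0 r) fun τ _ => ?_
  have h1 : ‖Equiv.Perm.sign τ • ∏ i, M (τ i) i‖ = ‖∏ i, M (τ i) i‖ := by
    rcases Int.units_eq_one_or (Equiv.Perm.sign τ) with h | h <;> rw [h] <;> simp
  rw [h1, norm_prod]
  calc ∏ i, ‖M (τ i) i‖ ≤ ∏ i, B (τ i) :=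
        Finset.prod_le_prod (fun i _ => norm_nonneg _) (fun i _ => hB (τ i) i)
    _ = ∏ r, B r := Equiv.prod_comp τ B

end B10
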