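import Pool.Agent.Lib.B10.LogDec
import Pool.Agent.Lib.B10.STypeA

/-!
# Base 10, S-adic block: the polynomial `F * (log (1 - t / τ₁) - log (1 - t / τ₂))`

For `F = (t - τ₂) ^ n * F₀` the product of `F` and the truncated series
`∑_(1 ≤ j ≤ n) d_j (t - τ₂) ^ (-j) + κ` is a polynomial `FLp`. It is as small as `F` on every disc of
radius `exp (-y)` which contains `τ₁` and `τ₂`.
-/

set_option autoImplicit false

namespace B10

open Finset Polynomial

variable {K : Type*} [NormedField K]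

/-- the value of `∑ d_j (t - τ₂) ^ (-j)` at `t = 0` -/
noncomputable def kap0 (c τ₂ : K) (n : ℕ) : K :=
  ∑ j ∈ Finset.range n, dsub c (j + 1) * ((-τ₂)⁻¹) ^ (j + 1)

/-- the polynomial `F * (∑_(1 ≤ j ≤ n) d_j (t - τ₂) ^ (-j) - κ)` for `F = (t - τ₂) ^ n * F₀` -/
noncomputable def FLp (c τ₂ : K) (n : ℕ) (F₀ : K[X]) : K[X] :=
  (∑ j ∈ Finset.range n, Polynomial.C (dsub c (j + 1)) * (X - Polynomial.C τ₂) ^ (n - (j + 1))) * F₀ -
    Polynomial.C (kap0 c τ₂ n) * ((X - Polynomial.C τ₂) ^ n * F₀)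

theorem constantCoeff_Psub (c τ₂ : K) (n : ℕ) :
    PowerSeries.constantCoeff (Psub c τ₂ n) = kap0 c τ₂ n := by
  have h : PowerSeries.constantCoeff (xinv (-τ₂) 1) = (-τ₂)⁻¹ := by
    rw [← PowerSeries.coeff_zero_eq_constantCoeff_apply, coeff_xinv]
    simp
  simp only [Psub, kap0, map_sum, map_mul, map_pow, PowerSeries.constantCoeff_C, h]

private theorem FLog_coe (p : K[X]) : (p : PowerSeries K) = aeval PowerSeries.X p := by
  induction p using Polynomial.induction_on' with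
  | add p q hp hq => rw [map_add, ← hp, ← hq, Polynomial.coe_add]
  | monomial n a =>
    rw [aeval_monomial, Polynomial.coe_monomial, PowerSeries.algebraMap_apply]
    ext i
    rw [Algebra.algebraMap_self, RingHom.id_apply, PowerSeries.coeff_C_mul,
      PowerSeries.coeff_X_pow, PowerSeries.coeff_monomial]
    split_ifs <;> simp

/-- `FLp` as a power series at `0`. -/
theorem coe_FLp (c : K) {τ₂ : K} (h2 : τ₂ ≠ 0) (n : ℕ) (F₀ : K[X]) :
    (FLp c τ₂ n F₀ : PowerSeries K) = (((X - Polynomial.C τ₂) ^ n * F₀ : K[X]) : PowerSeries K) *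
      (Psub c τ₂ n - PowerSeries.C (PowerSeries.constantCoeff (Psub c τ₂ n))) := by
  have hx : (aeval PowerSeries.X (X - Polynomial.C τ₂) : PowerSeries K) = sx (-τ₂) 1 := by
    rw [map_sub, aeval_X, aeval_C, sx, PowerSeries.algebraMap_apply, Algebra.algebraMap_self,
      RingHom.id_apply, map_neg, map_one]
    ring
  have hC : ∀ a : K, (aeval PowerSeries.X (Polynomial.C a) : PowerSeries K) = PowerSeries.C a := by
    intro a
    rw [aeval_C, PowerSeries.algebraMap_apply, Algebra.algebraMap_self, RingHom.id_apply]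
  have hxv : sx (-τ₂) 1 * xinv (-τ₂) 1 = 1 := sx_mul_xinv (neg_ne_zero.mpr h2)
  rw [constantCoeff_Psub, FLog_coe, FLog_coe, FLp]
  simp only [map_sub, map_mul, map_sum, map_pow, hx, hC]
  rw [Psub, mul_sub, Finset.sum_mul, Finset.mul_sum]
  congr 1
  · refine Finset.sum_congr rfl fun j hj => ?_
    have h4 : n - (j + 1) + (j + 1) = n := by
      have := Finset.mem_range.mp hj
      omega
    have h5 : (sx (-τ₂) 1 : PowerSeries K) ^ n * xinv (-τ₂) 1 ^ (j + 1) =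
        sx (-τ₂) 1 ^ (n - (j + 1)) := by
      conv_lhs => rw [← h4]
      rw [pow_add, mul_assoc, ← mul_pow, hxv, one_pow, mul_one]
    rw [← h5]
    ring
  · ring

variable [IsUltrametricDist K]

private theorem FLog_sub {a b : K} {B : ℝ} (ha : ‖a‖ ≤ B) (hb : ‖b‖ ≤ B) : ‖a - b‖ ≤ B := by
  rw [sub_eq_add_neg]
  exact (IsUltrametricDist.norm_add_le_max _ _).trans (max_le ha (by rwa [norm_neg]))

omit [IsUltrametricDist K] in
theorem norm_dsub_le (hK : ∀ j : ℕ, 0 < j → 1 ≤ j * ‖(j : K)‖) {c : K} {ρ : ℝ}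
    (hc : ‖c‖ ≤ ρ) {n j : ℕ} (hj : j < n) : ‖dsub c (j + 1)‖ ≤ n * ρ ^ (j + 1) := by
  have h1 := hK (j + 1) (by omega)
  have h2 : (((j + 1 : ℕ)) : ℝ) ≤ n := by exact_mod_cast hj
  have h3 : 0 < ‖((j + 1 : ℕ) : K)‖ := by
    by_contra hc
    have h0 : ‖((j + 1 : ℕ) : K)‖ = 0 := le_antisymm (not_lt.mp hc) (norm_nonneg _)
    rw [h0, mul_zero] at h1
    exact absurd h1 (by norm_num)
  have hρ : 0 ≤ ρ := (norm_nonneg _).trans hc
  rw [dsub, norm_div, norm_mul, norm_pow, norm_neg, norm_one, one_pow, one_mul, norm_pow,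
    div_le_iff₀ h3]
  calc ‖c‖ ^ (j + 1) ≤ ρ ^ (j + 1) := pow_le_pow_left₀ (norm_nonneg _) hc _
    _ ≤ ρ ^ (j + 1) * (((j + 1 : ℕ) : ℝ) * ‖((j + 1 : ℕ) : K)‖) :=
        le_mul_of_one_le_right (by positivity) h1
    _ ≤ ρ ^ (j + 1) * (n * ‖((j + 1 : ℕ) : K)‖) := by gcongr
    _ = n * ρ ^ (j + 1) * ‖((j + 1 : ℕ) : K)‖ := by ring

theorem norm_kap0_le (hK : ∀ j : ℕ, 0 < j → 1 ≤ j * ‖(j : K)‖) {c τ₂ : K} (h2 : τ₂ ≠ 0)
    (hc : ‖c‖ ≤ ‖τ₂‖) (n : ℕ) : ‖kap0 c τ₂ n‖ ≤ n := by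
  refine norm_sum_le_of_forall _ _ _ (Nat.cast_nonneg n) fun j hj => ?_
  have h3 : 0 < ‖τ₂‖ := norm_pos_iff.mpr h2
  rw [norm_mul, norm_pow, norm_inv, norm_neg]
  calc ‖dsub c (j + 1)‖ * ‖τ₂‖⁻¹ ^ (j + 1) ≤ n * ‖τ₂‖ ^ (j + 1) * ‖τ₂‖⁻¹ ^ (j + 1) :=
        mul_le_mul_of_nonneg_right (norm_dsub_le hK hc (Finset.mem_range.mp hj)) (by positivity)
    _ = n := by rw [mul_assoc, ← mul_pow, mul_inv_cancel₀ h3.ne', one_pow, mul_one]

/-- `FLp` on the disc of centre `τ` and radius `exp (-y)`. -/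
theorem Bd_FLp (hK : ∀ j : ℕ, 0 < j → 1 ≤ j * ‖(j : K)‖) {c τ₂ τ : K} (h2 : τ₂ ≠ 0)
    (hc2 : ‖c‖ ≤ ‖τ₂‖) {y : ℝ} (hc : ‖c‖ ≤ Real.exp (-y)) (hτ : ‖τ - τ₂‖ ≤ Real.exp (-y))
    {n L : ℕ} (hn : 1 ≤ n) {F₀ : K[X]} {A : ℝ} (hA : Bd y A L (aeval (sx τ 1) F₀)) :
    Bd y (n * Real.exp (-(y * n)) * A) L (aeval (sx τ 1) (FLp c τ₂ n F₀)) := by
  have hx : (aeval (sx τ 1) (X - Polynomial.C τ₂) : PowerSeries K) = sx (τ - τ₂) 1 := by
    rw [map_sub, aeval_X, aeval_C, sx, sx, PowerSeries.algebraMap_apply, Algebra.algebraMap_self,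
      RingHom.id_apply, map_sub]
    ring
  have hC : ∀ a : K, (aeval (sx τ 1) (Polynomial.C a) : PowerSeries K) = PowerSeries.C a := by
    intro a
    rw [aeval_C, PowerSeries.algebraMap_apply, Algebra.algebraMap_self, RingHom.id_apply]
  have hpow : ∀ k, Bd y (Real.exp (-y) ^ k) L (sx (τ - τ₂) 1 ^ k) := fun k =>
    Bd.pow (bd_sx_exp hτ (by simp)) k
  have hen : Real.exp (-(y * n)) = Real.exp (-y) ^ n := by
    rw [← Real.exp_nat_mul]
    congr 1
    ring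
  have hn0 : (1 : ℝ) ≤ n := by exact_mod_cast hn
  rw [FLp, map_sub]
  refine Bd.sub ?_ ?_
  · rw [map_mul, map_sum]
    refine Bd.mul ?_ hA
    refine Bd.sum _ _ (by positivity) fun j hj => ?_
    rw [map_mul, map_pow, hx, hC]
    have hj' := Finset.mem_range.mp hj
    refine Bd.mono (Bd.C_mul (norm_dsub_le hK hc hj') (hpow (n - (j + 1)))) (le_of_eq ?_)
    rw [hen, mul_assoc, ← pow_add]
    congr 2
    omega
  · rw [map_mul, map_mul, map_pow, hx, hC]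
    refine Bd.mono (Bd.C_mul (norm_kap0_le hK h2 hc2 n) (Bd.mul (hpow n) hA)) (le_of_eq ?_)
    rw [hen]
    ring

/-- the coefficients of `FLp` -/
theorem norm_coeff_FLp_le (hK : ∀ j : ℕ, 0 < j → 1 ≤ j * ‖(j : K)‖) {c τ₂ : K} (h2 : τ₂ ≠ 0)
    (h21 : ‖τ₂‖ ≤ 1) (hc2 : ‖c‖ ≤ ‖τ₂‖) {n : ℕ} {F₀ : K[X]} (hF : ∀ k, ‖F₀.coeff k‖ ≤ 1) (k : ℕ) :
    ‖(FLp c τ₂ n F₀).coeff k‖ ≤ n := by
  have hlin : ∀ k, ‖((X - Polynomial.C τ₂ : K[X])).coeff k‖ ≤ 1 := by
    intro k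
    rw [Polynomial.coeff_sub]
    refine FLog_sub ?_ ?_
    · rw [Polynomial.coeff_X]
      split_ifs <;> simp
    · rw [Polynomial.coeff_C]
      split_ifs
      · exact h21
      · simp
  have hpow : ∀ e k, ‖((X - Polynomial.C τ₂ : K[X]) ^ e).coeff k‖ ≤ 1 := by
    intro e
    induction e with
    | zero =>
      intro k
      rw [pow_zero, Polynomial.coeff_one]
      split_ifs <;> simp
    | succ e ih =>
      intro k
      rw [pow_succ]
      simpa using STypeA_coeff_mul_norm _ _ zero_le_one zero_le_one ih hlin k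
  have hn : (0 : ℝ) ≤ n := Nat.cast_nonneg n
  rw [FLp, Polynomial.coeff_sub]
  refine FLog_sub ?_ ?_
  · have h := STypeA_coeff_mul_norm (∑ j ∈ Finset.range n, Polynomial.C (dsub c (j + 1)) *
      (X - Polynomial.C τ₂) ^ (n - (j + 1))) F₀ hn zero_le_one
      (fun k => STypeA_coeff_sum_norm _ _ hn (fun j hj k => by
        rw [Polynomial.coeff_C_mul, norm_mul]
        have h3 := norm_dsub_le hK (hc2.trans h21) (Finset.mem_range.mp hj)
        rw [one_pow, mul_one] at h3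
        calc _ ≤ (n : ℝ) * 1 := mul_le_mul h3 (hpow _ _) (norm_nonneg _) hn
          _ = n := mul_one _) k) hF k
    simpa using h
  · rw [Polynomial.coeff_C_mul, norm_mul]
    have h := STypeA_coeff_mul_norm _ _ zero_le_one zero_le_one (hpow n) hF k
    calc _ ≤ (n : ℝ) * (1 * 1) := mul_le_mul (norm_kap0_le hK h2 hc2 n) h (norm_nonneg _) hn
      _ = n := by ring

omit [IsUltrametricDist K] in
theorem natDegree_FLp_le (c τ₂ : K) (n : ℕ) (F₀ : K[X]) :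
    (FLp c τ₂ n F₀).natDegree ≤ n + F₀.natDegree := by
  have h1 : ∀ e, ((X - Polynomial.C τ₂ : K[X]) ^ e).natDegree ≤ e := by
    intro e
    have h := Polynomial.natDegree_pow_le_of_le e (Polynomial.natDegree_X_sub_C_le τ₂)
    rwa [mul_one] at h
  rw [FLp]
  refine (Polynomial.natDegree_sub_le _ _).trans (max_le ?_ ?_)
  · refine (Polynomial.natDegree_mul_le).trans (Nat.add_le_add_right ?_ _)
    refine Polynomial.natDegree_sum_le_of_forall_le _ _ fun j _ => ?_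
    refine (Polynomial.natDegree_C_mul_le _ _).trans ((h1 _).trans (Nat.sub_le _ _))
  · refine (Polynomial.natDegree_C_mul_le _ _).trans ((Polynomial.natDegree_mul_le).trans
      (Nat.add_le_add_right (h1 n) _))

omit [IsUltrametricDist K] in
/-- The row at the centre: `F (log (1 - t / τ₁) - log (1 - t / τ₂)) = FLp + F * errSub`. -/
theorem F_Lg_sub {τ₁ τ₂ : K} (h2 : τ₂ ≠ 0) (n : ℕ) (F₀ : K[X]) :
    (((X - Polynomial.C τ₂) ^ n * F₀ : K[X]) : PowerSeries K) * (Lg (-1 / τ₁) - Lg (-1 / τ₂)) =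
      (FLp (τ₂ - τ₁) τ₂ n F₀ : PowerSeries K) +
        (((X - Polynomial.C τ₂) ^ n * F₀ : K[X]) : PowerSeries K) * errSub τ₁ τ₂ n := by
  rw [coe_FLp _ h2, errSub]
  ring

end B10
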