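import Pool.Agent.Lib.B10.ForcedM

/-!
# Base 10: the integral of the forced profile `wp` of the design h36 (`wp` is defined in `ForcedM`)

`wp (p / m)` is the forced valuation (divided by `m`) of the minors at a prime `p` with
`p ^ 2 ∣ 10 ^ (p - 1) - 1`: rows of order `< p` of the twelve letters (orders `30, 21, 4`), rank
`p + 57 m`, and `1 / p` in the rows of order `≥ p + 2 m` of the six germ letters, at most `63 m` columns.
-/

set_option autoImplicit false

namespace B10

open MeasureTheory intervalIntegral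

theorem wp_continuous : Continuous wp := by
  unfold wp
  fun_prop

theorem wp_le (x : ℝ) : wp x ≤ 90 := by
  unfold wp
  rcases le_total x 30 with h | h
  · have h1 : min 30 x = x := min_eq_right h
    have h2 : min 21 x ≤ 21 := min_le_left _ _
    have h3 : min 4 x ≤ 4 := min_le_left _ _
    have h4 : 0 ≤ min (3 * max (28 - x) 0 + 3 * max (19 - x) 0) 63 :=
      le_min (by positivity) (by norm_num)
    have h5 : max (3 * min 30 x + 3 * min 21 x + 6 * min 4 x - x - 57) 0 ≤ 90 :=
      max_le (by rw [h1]; linarith) (by norm_num)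
    linarith
  · have h1 : min 30 x = 30 := min_eq_left h
    have h2 : min 21 x ≤ 21 := min_le_left _ _
    have h3 : min 4 x ≤ 4 := min_le_left _ _
    have h4 : 0 ≤ min (3 * max (28 - x) 0 + 3 * max (19 - x) 0) 63 :=
      le_min (by positivity) (by norm_num)
    have h5 : max (3 * min 30 x + 3 * min 21 x + 6 * min 4 x - x - 57) 0 ≤ 90 :=
      max_le (by rw [h1]; linarith) (by norm_num)
    linarith

theorem le_wp (x : ℝ) : -63 ≤ wp x := by
  unfold wp
  have h1 := le_max_right (3 * min 30 x + 3 * min 21 x + 6 * min 4 x - x - 57) 0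
  have h2 := min_le_right (3 * max (28 - x) 0 + 3 * max (19 - x) 0) 63
  linarith

/-- The integral of a function which is linear on `[a, b]`. -/
private theorem GProf_lin {f : ℝ → ℝ} {a b c d : ℝ} (hab : a ≤ b)
    (h : ∀ x, a ≤ x → x ≤ b → f x = c * x + d) :
    ∫ x in a..b, f x = c * (b ^ 2 - a ^ 2) / 2 + d * (b - a) := by
  have h1 : ∫ x in a..b, f x = ∫ x in a..b, (c * x + d) := by
    refine integral_congr fun x hx => ?_
    rw [Set.uIcc_of_le hab] at hx
    exact h x hx.1 hx.2
  have i1 : IntervalIntegrable (fun x : ℝ => c * x) volume a b :=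
    (Continuous.intervalIntegrable (by fun_prop) _ _)
  have i2 : IntervalIntegrable (fun _ : ℝ => d) volume a b :=
    (Continuous.intervalIntegrable (by fun_prop) _ _)
  rw [h1, intervalIntegral.integral_add i1 i2,
    intervalIntegral.integral_const_mul, integral_id, intervalIntegral.integral_const, smul_eq_mul]
  ring

private theorem GProf_split (a b c : ℝ) :
    ∫ x in a..c, wp x = (∫ x in a..b, wp x) + ∫ x in b..c, wp x :=
  (integral_add_adjacent_intervals (wp_continuous.intervalIntegrable _ _)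
    (wp_continuous.intervalIntegrable _ _)).symm

/-- `G = 4086.9`. -/
theorem wp_integral : ∫ x in (0 : ℝ)..120, wp x = 40869 / 10 := by
  rw [GProf_split 0 4 120, GProf_split 4 (33 / 5) 120, GProf_split (33 / 5) 13 120,
    GProf_split 13 19 120, GProf_split 19 21 120, GProf_split 21 28 120, GProf_split 28 30 120]
  have e1 : ∫ x in (0 : ℝ)..4, wp x = 0 * (4 ^ 2 - 0 ^ 2) / 2 + (-63) * (4 - 0) := by
    refine GProf_lin (by norm_num) fun x h1 h2 => ?_
    unfold wp
    rw [min_eq_right (by linarith : x ≤ 30), min_eq_right (by linarith : x ≤ 21),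
      min_eq_right (by linarith : x ≤ 4), max_eq_left (by linarith : (0 : ℝ) ≤ 28 - x),
      max_eq_left (by linarith : (0 : ℝ) ≤ 19 - x), max_eq_right (by linarith),
      min_eq_right (by linarith)]
    ring
  have e2 : ∫ x in (4 : ℝ)..(33 / 5), wp x =
      0 * ((33 / 5) ^ 2 - 4 ^ 2) / 2 + (-63) * (33 / 5 - 4) := by
    refine GProf_lin (by norm_num) fun x h1 h2 => ?_
    unfold wp
    rw [min_eq_right (by linarith : x ≤ 30), min_eq_right (by linarith : x ≤ 21),
      min_eq_left (by linarith : (4 : ℝ) ≤ x), max_eq_left (by linarith : (0 : ℝ) ≤ 28 - x),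
      max_eq_left (by linarith : (0 : ℝ) ≤ 19 - x), max_eq_right (by linarith),
      min_eq_right (by linarith)]
    ring
  have e3 : ∫ x in (33 / 5 : ℝ)..13, wp x = 5 * (13 ^ 2 - (33 / 5) ^ 2) / 2 + (-96) * (13 - 33 / 5) := by
    refine GProf_lin (by norm_num) fun x h1 h2 => ?_
    unfold wp
    rw [min_eq_right (by linarith : x ≤ 30), min_eq_right (by linarith : x ≤ 21),
      min_eq_left (by linarith : (4 : ℝ) ≤ x), max_eq_left (by linarith : (0 : ℝ) ≤ 28 - x),
      max_eq_left (by linarith : (0 : ℝ) ≤ 19 - x), max_eq_left (by linarith),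
      min_eq_right (by linarith)]
    ring
  have e4 : ∫ x in (13 : ℝ)..19, wp x = 11 * (19 ^ 2 - 13 ^ 2) / 2 + (-174) * (19 - 13) := by
    refine GProf_lin (by norm_num) fun x h1 h2 => ?_
    unfold wp
    rw [min_eq_right (by linarith : x ≤ 30), min_eq_right (by linarith : x ≤ 21),
      min_eq_left (by linarith : (4 : ℝ) ≤ x), max_eq_left (by linarith : (0 : ℝ) ≤ 28 - x),
      max_eq_left (by linarith : (0 : ℝ) ≤ 19 - x), max_eq_left (by linarith),
      min_eq_left (by linarith)]
    ring
  have e5 : ∫ x in (19 : ℝ)..21, wp x = 8 * (21 ^ 2 - 19 ^ 2) / 2 + (-117) * (21 - 19) := by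
    refine GProf_lin (by norm_num) fun x h1 h2 => ?_
    unfold wp
    rw [min_eq_right (by linarith : x ≤ 30), min_eq_right (by linarith : x ≤ 21),
      min_eq_left (by linarith : (4 : ℝ) ≤ x), max_eq_left (by linarith : (0 : ℝ) ≤ 28 - x),
      max_eq_right (by linarith : 19 - x ≤ (0 : ℝ)), max_eq_left (by linarith),
      min_eq_left (by linarith)]
    ring
  have e6 : ∫ x in (21 : ℝ)..28, wp x = 5 * (28 ^ 2 - 21 ^ 2) / 2 + (-54) * (28 - 21) := by
    refine GProf_lin (by norm_num) fun x h1 h2 => ?_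
    unfold wp
    rw [min_eq_right (by linarith : x ≤ 30), min_eq_left (by linarith : (21 : ℝ) ≤ x),
      min_eq_left (by linarith : (4 : ℝ) ≤ x), max_eq_left (by linarith : (0 : ℝ) ≤ 28 - x),
      max_eq_right (by linarith : 19 - x ≤ (0 : ℝ)), max_eq_left (by linarith),
      min_eq_left (by linarith)]
    ring
  have e7 : ∫ x in (28 : ℝ)..30, wp x = 2 * (30 ^ 2 - 28 ^ 2) / 2 + 30 * (30 - 28) := by
    refine GProf_lin (by norm_num) fun x h1 h2 => ?_
    unfold wp
    rw [min_eq_right (by linarith : x ≤ 30), min_eq_left (by linarith : (21 : ℝ) ≤ x),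
      min_eq_left (by linarith : (4 : ℝ) ≤ x), max_eq_right (by linarith : 28 - x ≤ (0 : ℝ)),
      max_eq_right (by linarith : 19 - x ≤ (0 : ℝ)), max_eq_left (by linarith),
      min_eq_left (by linarith)]
    ring
  have e8 : ∫ x in (30 : ℝ)..120, wp x = (-1) * (120 ^ 2 - 30 ^ 2) / 2 + 120 * (120 - 30) := by
    refine GProf_lin (by norm_num) fun x h1 h2 => ?_
    unfold wp
    rw [min_eq_left (by linarith : (30 : ℝ) ≤ x), min_eq_left (by linarith : (21 : ℝ) ≤ x),
      min_eq_left (by linarith : (4 : ℝ) ≤ x), max_eq_right (by linarith : 28 - x ≤ (0 : ℝ)),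
      max_eq_right (by linarith : 19 - x ≤ (0 : ℝ)), max_eq_left (by linarith),
      min_eq_left (by linarith)]
    ring
  rw [e1, e2, e3, e4, e5, e6, e7, e8]
  norm_num

end B10
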