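import Pool.Agent.Lib.B10.GainInt
import Pool.Agent.Lib.B10.GProf
import Pool.Agent.Lib.PWief.PF

/-!
# Base 10: the assembly

`Bounds C m D`: the bounds of the four blocks for a minor `D` of the matrix of level `m` (design h36:
orders `(30, 21, 4) m + 60`). `final`: if for all large even `m` and all primes `P` in
`[120 m + 69, 120 m + 308]` with `P ^ 2 ∣ 10 ^ (P - 1) - 1` there is such a minor, then a positive
proportion of the primes `q` does not have `q ^ 2 ∣ 10 ^ (q - 1) - 1`.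
-/

set_option autoImplicit false

open Finset Filter Topology
open scoped Classical

namespace B10

/-- The number of primes `q ≤ n` with `q ^ 2` not dividing `10 ^ (q - 1) - 1`. -/
noncomputable def nw (n : ℕ) : ℕ :=
  ((Icc 1 n).filter fun q : ℕ => q.Prime ∧ ¬ q ^ 2 ∣ 10 ^ (q - 1) - 1).card

/-- The bounds of the blocks for a minor `D` of level `m`. -/
structure Bounds (C : ℝ) (m : ℕ) (D : ℚ) : Prop where
  ne : D ≠ 0
  arch : Real.log |(D : ℝ)| ≤ 14541 / 4 * (m : ℝ) ^ 2 + C * m * Real.log (m + 2)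
  v2 : -(-1566 / 11 * (m : ℝ) ^ 2 + C * m * Real.log (m + 2)) ≤ padicValRat 2 D
  v3 : -(2057 / 5 * (m : ℝ) ^ 2 + C * m * Real.log (m + 2)) ≤ padicValRat 3 D
  v5 : -(73 * (m : ℝ) ^ 2 + C * m * Real.log (m + 2)) ≤ padicValRat 5 D
  v7 : -(-24 * (m : ℝ) ^ 2 + C * m * Real.log (m + 2)) ≤ padicValRat 7 D
  all : ∀ p : ℕ, p.Prime → 7 < p →
    -(63 * (m : ℝ) * Nat.log p (30 * m + 60)) ≤ padicValRat p D
  world : ∀ p : ℕ, p.Prime → 7 < p → p ^ 2 ∣ 10 ^ (p - 1) - 1 → 30 * m + 60 < p ^ 2 →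
    m * wp (p / m) - C ≤ padicValRat p D

private theorem Final_growth {C : ℝ} (hC : 0 ≤ C) : ∃ m1 : ℕ, ∀ m : ℕ, m1 ≤ m →
    7 * (C * m * Real.log (m + 2)) + C * (Real.log 4 * (120 * m)) +
      ((Nat.sqrt (30 * m + 60) : ℝ) + 1) *
        ((90 * m + 63 * m * Nat.log 2 (30 * m + 60)) * Real.log (120 * m)) ≤ (m : ℝ) ^ 2 := by
  have h1 : Tendsto (fun m : ℕ => (120 * (m : ℝ)) ^ (1 / 8 : ℝ)) atTop atTop :=
    (tendsto_rpow_atTop (by norm_num : (0 : ℝ) < 1 / 8)).comp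
      (tendsto_natCast_atTop_atTop.const_mul_atTop (by norm_num))
  obtain ⟨m1, hm1⟩ := eventually_atTop.1
    (h1.eventually_ge_atTop (120 * (296 * C + 17568) + 1))
  refine ⟨m1 + 60, fun m hm => ?_⟩
  have h2 := hm1 m (by omega)
  have hm60 : (60 : ℝ) ≤ m := by exact_mod_cast (by omega : 60 ≤ m)
  set y : ℝ := 120 * (m : ℝ) with hy
  set s : ℝ := y ^ (1 / 8 : ℝ) with hs
  have hy0 : 0 < y := by positivity
  have hs1 : 1 ≤ s := by nlinarith
  have hs8 : s ^ 8 = y := by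
    rw [hs, ← Real.rpow_natCast, ← Real.rpow_mul hy0.le]
    norm_num
  have hlogy : Real.log y ≤ 8 * s := by
    have h3 := Real.log_le_rpow_div hy0.le (by norm_num : (0 : ℝ) < 1 / 8)
    rw [← hs] at h3
    linarith
  have hlogy0 : 0 ≤ Real.log y := Real.log_nonneg (by linarith)
  have hlog1 : Real.log (m + 2) ≤ 8 * s :=
    (Real.log_le_log (by linarith) (by linarith)).trans hlogy
  have hlog10 : 0 ≤ Real.log ((m : ℝ) + 2) := Real.log_nonneg (by linarith)
  have hlog4 : Real.log 4 ≤ 2 := by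
    have h3 : Real.log 4 = 2 * Real.log 2 := by
      rw [show (4 : ℝ) = 2 ^ 2 by norm_num, Real.log_pow]
      norm_num
    have := Real.log_two_lt_d9
    linarith
  have hn : ((30 * m + 60 : ℕ) : ℝ) ≤ y := by
    push_cast
    linarith
  have hn0 : (0 : ℝ) < ((30 * m + 60 : ℕ) : ℝ) := by
    push_cast
    linarith
  have hL : (Nat.log 2 (30 * m + 60) : ℝ) ≤ 16 * s := by
    have h3 := Real.natLog_le_logb (30 * m + 60) 2
    have h4 : Real.logb 2 ((30 * m + 60 : ℕ) : ℝ) ≤ 2 * Real.log y := by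
      rw [Real.logb, div_le_iff₀ (Real.log_pos (by norm_num))]
      have h5 := Real.log_le_log hn0 hn
      have h6 : 1 / 2 ≤ Real.log 2 := by
        have := Real.log_two_gt_d9
        linarith
      nlinarith
    have h5 : (Nat.log 2 (30 * m + 60) : ℝ) ≤ Real.logb 2 ((30 * m + 60 : ℕ) : ℝ) := by
      exact_mod_cast h3
    linarith
  have hq : (Nat.sqrt (30 * m + 60) : ℝ) + 1 ≤ 2 * s ^ 4 := by
    have h3 : (Nat.sqrt (30 * m + 60) : ℝ) ≤ s ^ 4 := by
      have h4 : ((Nat.sqrt (30 * m + 60) : ℕ) : ℝ) ^ 2 ≤ (s ^ 4) ^ 2 := by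
        have h5 : ((Nat.sqrt (30 * m + 60) ^ 2 : ℕ) : ℝ) ≤ ((30 * m + 60 : ℕ) : ℝ) :=
          Nat.cast_le.mpr (Nat.sqrt_le' _)
        push_cast at h5 hn
        rw [← pow_mul, show 4 * 2 = 8 from rfl, hs8]
        linarith
      exact le_of_sq_le_sq h4 (by positivity)
    have h4 : 1 ≤ s ^ 4 := one_le_pow₀ hs1
    linarith
  have hm0 : (0 : ℝ) ≤ m := by linarith
  have hs0 : 0 ≤ s := by linarith
  have a1 : 7 * (C * m * Real.log (m + 2)) ≤ m * (56 * C * s) := by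
    have : C * m * Real.log (m + 2) ≤ C * m * (8 * s) :=
      mul_le_mul_of_nonneg_left hlog1 (by positivity)
    nlinarith
  have a2 : C * (Real.log 4 * (120 * m)) ≤ m * (240 * C) := by
    have : C * (Real.log 4 * (120 * m)) ≤ C * (2 * (120 * m)) :=
      mul_le_mul_of_nonneg_left (mul_le_mul_of_nonneg_right hlog4 (by positivity)) hC
    nlinarith
  have a3 : ((Nat.sqrt (30 * m + 60) : ℝ) + 1) *
      ((90 * m + 63 * m * Nat.log 2 (30 * m + 60)) * Real.log y) ≤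
      m * (16 * s ^ 5 * (90 + 1008 * s)) := by
    have b1 : (90 * (m : ℝ) + 63 * m * Nat.log 2 (30 * m + 60)) * Real.log y ≤
        (90 * m + 63 * m * (16 * s)) * (8 * s) := by
      refine mul_le_mul ?_ hlogy hlogy0 (by positivity)
      have : 63 * (m : ℝ) * Nat.log 2 (30 * m + 60) ≤ 63 * m * (16 * s) :=
        mul_le_mul_of_nonneg_left hL (by positivity)
      linarith
    calc _ ≤ 2 * s ^ 4 * ((90 * m + 63 * m * (16 * s)) * (8 * s)) :=
          mul_le_mul hq b1 (by positivity) (by positivity)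
      _ = m * (16 * s ^ 5 * (90 + 1008 * s)) := by ring
  have a4 : 56 * C * s + 240 * C + 16 * s ^ 5 * (90 + 1008 * s) ≤ (296 * C + 17568) * s ^ 6 := by
    have c1 : s ≤ s ^ 6 := by
      calc s = s ^ 1 := (pow_one s).symm
        _ ≤ s ^ 6 := pow_le_pow_right₀ hs1 (by norm_num)
    have c2 : 1 ≤ s ^ 6 := one_le_pow₀ hs1
    have c3 : s ^ 5 ≤ s ^ 6 := pow_le_pow_right₀ hs1 (by norm_num)
    have c4 : C * s ≤ C * s ^ 6 := mul_le_mul_of_nonneg_left c1 hC
    have c5 : C * 1 ≤ C * s ^ 6 := mul_le_mul_of_nonneg_left c2 hC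
    have c6 : 16 * s ^ 5 * (90 + 1008 * s) = 1440 * s ^ 5 + 16128 * s ^ 6 := by ring
    rw [c6]
    nlinarith
  have a5 : 120 * ((296 * C + 17568) * s ^ 6) ≤ y := by
    have d1 : 120 * (296 * C + 17568) ≤ s ^ 2 := by nlinarith
    calc 120 * ((296 * C + 17568) * s ^ 6) = (120 * (296 * C + 17568)) * s ^ 6 := by ring
      _ ≤ s ^ 2 * s ^ 6 := mul_le_mul_of_nonneg_right d1 (by positivity)
      _ = y := by rw [← pow_add, ← hs8]
  have a6 : m * ((296 * C + 17568) * s ^ 6) ≤ m * m := by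
    refine mul_le_mul_of_nonneg_left ?_ hm0
    rw [hy] at a5
    linarith
  have a7 := mul_le_mul_of_nonneg_left a4 hm0
  nlinarith

private theorem Final_small {p : ℕ} (hp : p.Prime) (h : p ∉ ({2, 3, 5, 7} : Finset ℕ)) : 7 < p := by
  by_contra hcon
  push Not at hcon
  interval_cases p <;> first | (simp at h; done) | exact absurd hp (by norm_num)

/-- The lower bounds of the valuations. -/
private noncomputable def Final_w (C : ℝ) (m p : ℕ) : ℝ :=
  if p = 2 then -(-1566 / 11 * (m : ℝ) ^ 2 + C * m * Real.log (m + 2))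
  else if p = 3 then -(2057 / 5 * (m : ℝ) ^ 2 + C * m * Real.log (m + 2))
  else if p = 5 then -(73 * (m : ℝ) ^ 2 + C * m * Real.log (m + 2))
  else if p = 7 then -(-24 * (m : ℝ) ^ 2 + C * m * Real.log (m + 2))
  else if p ^ 2 ≤ 30 * m + 60 then -(63 * (m : ℝ) * Nat.log p (30 * m + 60))
  else if p ^ 2 ∣ 10 ^ (p - 1) - 1 then m * wp (p / m) - C
  else -(63 * (m : ℝ))

private theorem Final_w_le {C : ℝ} {m : ℕ} {D : ℚ} (h : Bounds C m D) {p : ℕ} (hp : p.Prime) :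
    Final_w C m p ≤ padicValRat p D := by
  unfold Final_w
  split_ifs with h2 h3 h5 h7 hs hw
  · subst h2
    exact h.v2
  · subst h3
    exact h.v3
  · subst h5
    exact h.v5
  · subst h7
    exact h.v7
  · exact h.all p hp (Final_small hp (by simp [h2, h3, h5, h7]))
  · exact h.world p hp (Final_small hp (by simp [h2, h3, h5, h7])) hw (by omega)
  · refine le_trans ?_ (h.all p hp (Final_small hp (by simp [h2, h3, h5, h7])))
    have h8 : Nat.log p (30 * m + 60) ≤ 1 := by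
      have := Nat.log_lt_of_lt_pow (b := p) (x := 2) (y := 30 * m + 60) (by omega) (by omega)
      omega
    have h9 : (Nat.log p (30 * m + 60) : ℝ) ≤ 1 := by exact_mod_cast h8
    have hm : (0 : ℝ) ≤ m := Nat.cast_nonneg m
    nlinarith

private theorem Final_logs : Real.log 3 ≤ 27 / 17 * Real.log 2 ∧ Real.log 5 ≤ 7 / 3 * Real.log 2 ∧
    14 / 5 * Real.log 2 ≤ Real.log 7 ∧ Real.log 7 ≤ 3 * Real.log 2 := by
  have key : ∀ a b c d : ℕ, 0 < a → 0 < b → a ^ c ≤ b ^ d →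
      (c : ℝ) * Real.log a ≤ d * Real.log b := by
    intro a b c d ha hb h
    rw [← Real.log_pow, ← Real.log_pow]
    refine Real.log_le_log (by positivity) ?_
    exact_mod_cast h
  have h1 := key 3 2 17 27 (by norm_num) (by norm_num) (by norm_num)
  have h2 := key 5 2 3 7 (by norm_num) (by norm_num) (by norm_num)
  have h3 := key 2 7 14 5 (by norm_num) (by norm_num) (by norm_num)
  have h4 := key 7 2 1 3 (by norm_num) (by norm_num) (by norm_num)
  push_cast at h1 h2 h3 h4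
  refine ⟨by linarith, by linarith, by linarith, by linarith⟩

private theorem Final_S {C : ℝ} (hC : 0 ≤ C) (m : ℕ) :
    -(4258 / 10) * (m : ℝ) ^ 2 - 6 * (C * m * Real.log (m + 2)) ≤
    ∑ p ∈ ({2, 3, 5, 7} : Finset ℕ), Final_w C m p * Real.log p := by
  obtain ⟨l3, l5, l7, l7'⟩ := Final_logs
  have l2 := Real.log_two_gt_d9
  have l2' := Real.log_two_lt_d9
  have hA : 0 ≤ C * m * Real.log (m + 2) :=
    mul_nonneg (by positivity) (Real.log_nonneg (by
      have : (0 : ℝ) ≤ m := Nat.cast_nonneg m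
      linarith))
  have e : ∑ p ∈ ({2, 3, 5, 7} : Finset ℕ), Final_w C m p * Real.log p =
      -(-1566 / 11 * (m : ℝ) ^ 2 + C * m * Real.log (m + 2)) * Real.log 2 +
      (-(2057 / 5 * (m : ℝ) ^ 2 + C * m * Real.log (m + 2)) * Real.log 3 +
      (-(73 * (m : ℝ) ^ 2 + C * m * Real.log (m + 2)) * Real.log 5 +
      -(-24 * (m : ℝ) ^ 2 + C * m * Real.log (m + 2)) * Real.log 7)) := by
    rw [sum_insert (by decide), sum_insert (by decide), sum_insert (by decide), sum_singleton]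
    unfold Final_w
    norm_num
  rw [e]
  set A : ℝ := C * m * Real.log (m + 2) with hAdef
  set q : ℝ := (m : ℝ) ^ 2 with hq
  have hq0 : 0 ≤ q := by positivity
  have h1 : -(4258 / 10) * q ≤ q * (1566 / 11 * Real.log 2 - 2057 / 5 * Real.log 3 -
      73 * Real.log 5 + 24 * Real.log 7) := by
    have h2 : -(4258 / 10) ≤ 1566 / 11 * Real.log 2 - 2057 / 5 * Real.log 3 -
      73 * Real.log 5 + 24 * Real.log 7 := by linarith
    nlinarith
  have h3 : A * (Real.log 2 + Real.log 3 + Real.log 5 + Real.log 7) ≤ A * 6 :=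
    mul_le_mul_of_nonneg_left (by linarith) hA
  nlinarith

/-- The main inequality at one level. -/
private theorem Final_main {C : ℝ} (hC : 0 ≤ C) : ∃ m1 : ℕ, ∀ m : ℕ, m1 ≤ m → ∀ D : ℚ,
    Bounds C m D → 20 * (m : ℝ) ≤ 153 * Real.log (120 * m) * nw (120 * m) := by
  obtain ⟨m1, hm1⟩ := Final_growth hC
  obtain ⟨X0, hX0⟩ := gain (f := wp) (B := 120) (C := 0) (K := 0) (ε := 1) (by norm_num) le_rfl le_rfl
    wp_continuous.continuousOn one_pos {2, 3, 5, 7} 0
  refine ⟨m1 + ⌈X0⌉₊ + 10, fun m hm D hD => ?_⟩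
  have hmX : X0 ≤ m := (Nat.le_ceil X0).trans (by exact_mod_cast (by omega : ⌈X0⌉₊ ≤ m))
  have hm10 : (10 : ℝ) ≤ m := by exact_mod_cast (by omega : 10 ≤ m)
  have hm0 : (0 : ℝ) < m := by linarith
  have g1 := hm1 m (by omega)
  -- the gain
  have g2 := hX0 m hmX (fun p => m * wp (p / m)) (fun p _ _ _ _ => by
    rw [sub_zero]) (fun p hp _ h0 => absurd hp.pos (by omega))
  rw [wp_integral] at g2
  have hfl : ⌊(120 : ℝ) * m⌋₊ = 120 * m := by
    have : (120 : ℝ) * m = ((120 * m : ℕ) : ℝ) := by push_cast; ring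
    rw [this, Nat.floor_natCast]
  rw [hfl] at g2
  -- the product formula
  have g3 := PWief.log_ge hD.ne (120 * m) (Final_w C m) (fun p hp _ => Final_w_le hD hp)
    (fun p hp hlt => by
      have h7 : 7 < p := by omega
      have h1 := hD.all p hp h7
      rw [Nat.log_of_lt (by omega : 30 * m + 60 < p)] at h1
      have h2 : (0 : ℝ) ≤ (padicValRat p D : ℝ) := by simpa using h1
      exact_mod_cast h2)
  set T : Finset ℕ := (Ioc 0 (120 * m)).filter (fun p => p.Prime ∧ p ∉ ({2, 3, 5, 7} : Finset ℕ))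
    with hT
  have hsplit : (range (120 * m + 1)).filter Nat.Prime = ({2, 3, 5, 7} : Finset ℕ) ∪ T := by
    ext p
    simp only [mem_filter, mem_range, mem_union, hT, mem_Ioc]
    constructor
    · rintro ⟨h1, h2⟩
      by_cases h3 : p ∈ ({2, 3, 5, 7} : Finset ℕ)
      · exact Or.inl h3
      · exact Or.inr ⟨⟨h2.pos, by omega⟩, h2, h3⟩
    · rintro (h | ⟨h1, h2, h3⟩)
      · simp only [mem_insert, mem_singleton] at h
        rcases h with rfl | rfl | rfl | rfl <;> exact ⟨by omega, by norm_num⟩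
      · exact ⟨by omega, h2⟩
  have hdisj : Disjoint ({2, 3, 5, 7} : Finset ℕ) T := by
    rw [disjoint_left]
    intro p hp hp'
    exact (mem_filter.1 hp').2.2 hp
  rw [hsplit, sum_union hdisj] at g3
  have g4 := Final_S hC m
  set Λ : ℝ := (Nat.log 2 (30 * m + 60) : ℝ) with hΛ
  set Y : ℝ := Real.log (120 * m) with hY
  have hY0 : 0 ≤ Y := Real.log_nonneg (by linarith)
  -- termwise
  have hpt : ∀ p ∈ T, (m * wp (p / m)) * Real.log p - C * Real.log p -
      (if p ^ 2 ≤ 30 * m + 60 then (90 * m + 63 * m * Λ) * Y else 0) -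
      (if p ^ 2 ∣ 10 ^ (p - 1) - 1 then 0 else 153 * m * Y) ≤ Final_w C m p * Real.log p := by
    intro p hp
    obtain ⟨h1, h2, h3⟩ := mem_filter.1 hp
    rw [mem_Ioc] at h1
    have hlog : 0 ≤ Real.log (p : ℝ) := Real.log_natCast_nonneg p
    have hlogY : Real.log (p : ℝ) ≤ Y := by
      refine Real.log_le_log (by exact_mod_cast h2.pos) ?_
      exact_mod_cast h1.2
    have h2' : p ≠ 2 := fun h => h3 (by rw [h]; decide)
    have h3' : p ≠ 3 := fun h => h3 (by rw [h]; decide)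
    have h5' : p ≠ 5 := fun h => h3 (by rw [h]; decide)
    have h7' : p ≠ 7 := fun h => h3 (by rw [h]; decide)
    have hw1 := wp_le ((p : ℝ) / m)
    have hw2 := le_wp ((p : ℝ) / m)
    have hC1 : 0 ≤ C * Real.log p := mul_nonneg hC hlog
    have hmw : m * wp (p / m) * Real.log p ≤ 90 * m * Real.log p := by
      refine mul_le_mul_of_nonneg_right ?_ hlog
      nlinarith
    have hΛ0 : 0 ≤ Λ := Nat.cast_nonneg _
    unfold Final_w
    rw [if_neg h2', if_neg h3', if_neg h5', if_neg h7']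
    by_cases hs : p ^ 2 ≤ 30 * m + 60
    · rw [if_pos hs, if_pos hs]
      have h8 : (Nat.log p (30 * m + 60) : ℝ) ≤ Λ := by
        rw [hΛ]
        exact_mod_cast Nat.log_anti_left (by norm_num) h2.two_le
      have h9 : 63 * (m : ℝ) * Nat.log p (30 * m + 60) * Real.log p ≤ 63 * m * Λ * Real.log p := by
        refine mul_le_mul_of_nonneg_right ?_ hlog
        exact mul_le_mul_of_nonneg_left h8 (by positivity)
      have h10 : (90 * m + 63 * m * Λ) * Real.log p ≤ (90 * m + 63 * m * Λ) * Y :=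
        mul_le_mul_of_nonneg_left hlogY (by positivity)
      have h11 : 0 ≤ (if p ^ 2 ∣ 10 ^ (p - 1) - 1 then (0 : ℝ) else 153 * m * Y) := by
        split_ifs
        · exact le_rfl
        · positivity
      linarith
    · rw [if_neg hs, if_neg hs]
      by_cases hw : p ^ 2 ∣ 10 ^ (p - 1) - 1
      · rw [if_pos hw, if_pos hw]
        linarith
      · rw [if_neg hw, if_neg hw]
        have h10 : 153 * m * Real.log p ≤ 153 * m * Y :=
          mul_le_mul_of_nonneg_left hlogY (by positivity)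
        linarith
  have hsum := sum_le_sum hpt
  rw [sum_sub_distrib, sum_sub_distrib, sum_sub_distrib, ← mul_sum] at hsum
  -- theta
  have hTn : ∀ p ∈ T, 0 < p ∧ p ≤ 120 * m ∧ p.Prime := fun p hp => by
    obtain ⟨h1, h2, _⟩ := mem_filter.1 hp
    rw [mem_Ioc] at h1
    exact ⟨h1.1, h1.2, h2⟩
  have k1 : ∑ p ∈ T, Real.log (p : ℝ) ≤ Real.log 4 * (120 * m) := by
    have h1 : ∑ p ∈ T, Real.log (p : ℝ) ≤ Chebyshev.theta (120 * (m : ℝ)) := by
      unfold Chebyshev.theta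
      rw [hfl]
      refine sum_le_sum_of_subset_of_nonneg (fun p hp => ?_) fun p _ _ => Real.log_natCast_nonneg p
      obtain ⟨h1, h2, h3⟩ := hTn p hp
      exact mem_filter.2 ⟨mem_Ioc.2 ⟨h1, h2⟩, h3⟩
    exact h1.trans (Chebyshev.theta_le_log4_mul_x (by positivity))
  have k2 : ∑ p ∈ T, (if p ^ 2 ≤ 30 * m + 60 then (90 * m + 63 * m * Λ) * Y else 0) ≤
      ((Nat.sqrt (30 * m + 60) : ℝ) + 1) * ((90 * m + 63 * m * Λ) * Y) := by
    have hΛ0 : 0 ≤ Λ := Nat.cast_nonneg _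
    have hZ : 0 ≤ (90 * m + 63 * m * Λ) * Y := by positivity
    generalize (90 * m + 63 * m * Λ) * Y = Z at hZ ⊢
    have h1 : (T.filter fun p => p ^ 2 ≤ 30 * m + 60) ⊆ range (Nat.sqrt (30 * m + 60) + 1) := by
      intro p hp
      have h2 := (mem_filter.1 hp).2
      rw [mem_range, Nat.lt_succ_iff, Nat.le_sqrt']
      exact h2
    have h2 := card_le_card h1
    rw [card_range] at h2
    have h3 : ((T.filter fun p => p ^ 2 ≤ 30 * m + 60).card : ℝ) ≤
        (Nat.sqrt (30 * m + 60) : ℝ) + 1 := by exact_mod_cast h2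
    calc ∑ p ∈ T, (if p ^ 2 ≤ 30 * m + 60 then Z else 0) =
        ((T.filter fun p => p ^ 2 ≤ 30 * m + 60).card : ℝ) * Z := by
          rw [← sum_filter, sum_const, nsmul_eq_mul]
      _ ≤ ((Nat.sqrt (30 * m + 60) : ℝ) + 1) * Z := mul_le_mul_of_nonneg_right h3 hZ
  have k3 : ∑ p ∈ T, (if p ^ 2 ∣ 10 ^ (p - 1) - 1 then (0 : ℝ) else 153 * m * Y) ≤
      nw (120 * m) * (153 * m * Y) := by
    have h1 : ∑ p ∈ T, (if p ^ 2 ∣ 10 ^ (p - 1) - 1 then (0 : ℝ) else 153 * m * Y) =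
        ∑ p ∈ T.filter (fun p => ¬ p ^ 2 ∣ 10 ^ (p - 1) - 1), 153 * m * Y := by
      refine Eq.trans (sum_congr rfl fun p _ => ?_)
        (sum_filter (s := T) (fun p => ¬ p ^ 2 ∣ 10 ^ (p - 1) - 1) (fun _ => 153 * m * Y)).symm
      by_cases h : p ^ 2 ∣ 10 ^ (p - 1) - 1 <;> simp [h]
    rw [h1, sum_const, nsmul_eq_mul]
    refine mul_le_mul_of_nonneg_right ?_ (by positivity)
    refine Nat.cast_le.2 (card_le_card fun p hp => ?_)
    obtain ⟨h2, h3⟩ := mem_filter.1 hp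
    obtain ⟨h4, h5, h6⟩ := hTn p h2
    exact mem_filter.2 ⟨mem_Icc.2 ⟨h4, h5⟩, h6, h3⟩
  have k4 := mul_le_mul_of_nonneg_left k1 hC
  have harch := hD.arch
  -- the end
  have hend : 20 * (m : ℝ) ^ 2 ≤ nw (120 * m) * (153 * m * Y) := by
    have e1 : (m : ℝ) ^ 2 * (40869 / 10 - 1) ≤ ∑ p ∈ T, m * wp (p / m) * Real.log p := g2
    have hm2 : 0 ≤ (m : ℝ) ^ 2 := by positivity
    linarith [e1, g1, g3, g4, hsum, k2, k3, k4, harch]
  have h5 : (m : ℝ) * (20 * m) ≤ m * (153 * Y * nw (120 * m)) := by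
    calc (m : ℝ) * (20 * m) = 20 * (m : ℝ) ^ 2 := by ring
      _ ≤ nw (120 * m) * (153 * m * Y) := hend
      _ = m * (153 * Y * nw (120 * m)) := by ring
  exact le_of_mul_le_mul_left h5 hm0

theorem nw_mono {a b : ℕ} (h : a ≤ b) : nw a ≤ nw b :=
  card_le_card (filter_subset_filter _ (Icc_subset_Icc le_rfl h))

/-- **The assembly.** -/
theorem final {C : ℝ} (hC : 0 ≤ C) {m0 : ℕ}
    (h : ∀ m : ℕ, m0 ≤ m → Even m → ∀ P : ℕ, P.Prime → P ^ 2 ∣ 10 ^ (P - 1) - 1 →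
      120 * m + 69 ≤ P → P ≤ 120 * m + 308 → ∃ D : ℚ, Bounds C m D) :
    ∃ c : ℝ, 0 < c ∧ ∃ X₀ : ℝ, ∀ X : ℝ, X₀ ≤ X → c * X / Real.log X ≤
      (((Icc 1 ⌊X⌋₊).filter fun q : ℕ => q.Prime ∧ ¬ q ^ 2 ∣ 10 ^ (q - 1) - 1).card : ℝ) := by
  obtain ⟨m1, hm1⟩ := Final_main hC
  -- `theta`
  have hth : ∀ᶠ X : ℝ in atTop, (9 / 10 : ℝ) * X ≤ Chebyshev.theta X ∧
      Chebyshev.theta (X / 2) ≤ 11 / 20 * X := by
    have h1 : ∀ᶠ x : ℝ in atTop, 9 / 10 < Chebyshev.theta x / x ∧ Chebyshev.theta x / x < 11 / 10 :=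
      (PNT.theta_tendsto.eventually (Ioo_mem_nhds (by norm_num) (by norm_num)))
    have h2 : Tendsto (fun x : ℝ => x / 2) atTop atTop :=
      tendsto_id.atTop_div_const (by norm_num)
    filter_upwards [h1, h2.eventually h1, eventually_gt_atTop 0] with x h3 h4 h0
    have h5 : 0 < x / 2 := by linarith
    constructor
    · have := (lt_div_iff₀ h0).1 h3.1
      exact this.le
    · have := (div_lt_iff₀ h5).1 h4.2
      linarith
  obtain ⟨X1, hX1⟩ := eventually_atTop.1 hth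
  refine ⟨1 / 4000, by norm_num, max (max X1 2) (240 * (m0 + m1) + 2000), fun X hX => ?_⟩
  have hXX1 : X1 ≤ X := ((le_max_left _ _).trans (le_max_left _ _)).trans hX
  have hX2 : 240 * ((m0 : ℝ) + m1) + 2000 ≤ X := (le_max_right _ _).trans hX
  have hm00 : (0 : ℝ) ≤ m0 := Nat.cast_nonneg _
  have hm10 : (0 : ℝ) ≤ m1 := Nat.cast_nonneg _
  have hX0 : 0 < X := by linarith
  have hlX : 0 < Real.log X := Real.log_pos (by linarith)
  change 1 / 4000 * X / Real.log X ≤ (nw ⌊X⌋₊ : ℝ)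
  by_cases hW : ∃ P : ℕ, X / 2 < P ∧ (P : ℝ) ≤ X ∧ P.Prime ∧ P ^ 2 ∣ 10 ^ (P - 1) - 1
  · obtain ⟨P, hP1, hP2, hP3, hP4⟩ := hW
    set m : ℕ := 2 * ((P - 69) / 240) with hm
    have hPn : 120 * (m0 + m1) + 1000 ≤ P := by
      have h1 : (120 * ((m0 : ℝ) + m1) + 1000) < P := by linarith
      exact_mod_cast h1.le
    have hmP1 : 120 * m + 69 ≤ P := by omega
    have hmP2 : P ≤ 120 * m + 308 := by omega
    have hmm : m0 + m1 ≤ m := by omega
    obtain ⟨D, hD⟩ := h m (by omega) ⟨(P - 69) / 240, by omega⟩ P hP3 hP4 hmP1 hmP2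
    have h1 := hm1 m (by omega) D hD
    have h2 : 120 * m ≤ ⌊X⌋₊ := by
      refine Nat.le_floor ?_
      have h3 : ((120 * m : ℕ) : ℝ) ≤ P := by exact_mod_cast (by omega : 120 * m ≤ P)
      exact h3.trans hP2
    have h3 : (nw (120 * m) : ℝ) ≤ nw ⌊X⌋₊ := by exact_mod_cast nw_mono h2
    have h4 : (P : ℝ) ≤ 120 * m + 308 := by exact_mod_cast hmP2
    have h5 : 120 * (m : ℝ) ≤ X := by
      have h6 : ((120 * m : ℕ) : ℝ) ≤ P := by exact_mod_cast (by omega : 120 * m ≤ P)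
      push_cast at h6
      linarith
    have h6 : 0 < 120 * (m : ℝ) := by linarith
    have h7 : Real.log (120 * m) ≤ Real.log X := Real.log_le_log h6 h5
    have h8 : 153 * Real.log (120 * m) * nw (120 * m) ≤ 153 * Real.log X * nw ⌊X⌋₊ := by
      have h9 : (0 : ℝ) ≤ nw (120 * m) := Nat.cast_nonneg _
      exact mul_le_mul (by linarith) h3 h9 (by positivity)
    rw [div_le_iff₀ hlX]
    have h10 : X / 2 ≤ 120 * m + 308 := by linarith
    nlinarith
  · obtain ⟨t1, t2⟩ := hX1 X hXX1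
    have hsub : ((Ioc ⌊X / 2⌋₊ ⌊X⌋₊).filter Nat.Prime).card ≤ nw ⌊X⌋₊ := by
      refine card_le_card fun q hq => ?_
      obtain ⟨h1, h2⟩ := mem_filter.1 hq
      rw [mem_Ioc] at h1
      refine mem_filter.2 ⟨mem_Icc.2 ⟨h2.pos, h1.2⟩, h2, fun h3 => hW ⟨q, ?_, ?_, h2, h3⟩⟩
      · exact (Nat.floor_lt (by linarith)).1 h1.1
      · exact (Nat.le_floor_iff hX0.le).1 h1.2
    have h1 : Chebyshev.theta X - Chebyshev.theta (X / 2) =
        ∑ q ∈ (Ioc ⌊X / 2⌋₊ ⌊X⌋₊).filter Nat.Prime, Real.log q := by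
      have h2 : ⌊X / 2⌋₊ ≤ ⌊X⌋₊ := Nat.floor_mono (by linarith)
      unfold Chebyshev.theta
      have hu : (Ioc 0 ⌊X⌋₊).filter Nat.Prime = (Ioc 0 ⌊X / 2⌋₊).filter Nat.Prime ∪
          (Ioc ⌊X / 2⌋₊ ⌊X⌋₊).filter Nat.Prime := by
        rw [← filter_union, Ioc_union_Ioc_eq_Ioc (Nat.zero_le _) h2]
      have hd : Disjoint ((Ioc 0 ⌊X / 2⌋₊).filter Nat.Prime)
          ((Ioc ⌊X / 2⌋₊ ⌊X⌋₊).filter Nat.Prime) := by
        rw [disjoint_left]
        intro q hq hq'
        rw [mem_filter, mem_Ioc] at hq hq'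
        omega
      rw [hu, sum_union hd]
      ring
    have h4 : ∑ q ∈ (Ioc ⌊X / 2⌋₊ ⌊X⌋₊).filter Nat.Prime, Real.log (q : ℝ) ≤
        (((Ioc ⌊X / 2⌋₊ ⌊X⌋₊).filter Nat.Prime).card : ℝ) * Real.log X := by
      rw [← nsmul_eq_mul]
      apply sum_le_card_nsmul
      intro q hq
      obtain ⟨h5, h6⟩ := mem_filter.1 hq
      rw [mem_Ioc] at h5
      exact Real.log_le_log (by exact_mod_cast h6.pos) ((Nat.le_floor_iff hX0.le).1 h5.2)
    have h5 : (((Ioc ⌊X / 2⌋₊ ⌊X⌋₊).filter Nat.Prime).card : ℝ) ≤ nw ⌊X⌋₊ := by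
      exact_mod_cast hsub
    rw [div_le_iff₀ hlX]
    have h6 := mul_le_mul_of_nonneg_right h5 hlX.le
    linarith

end B10
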