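import Mathlib
import Pool.Agent.Lib.PWief.RankDet
import Pool.Agent.Lib.B10.Defs

/-!
# Forced valuations of determinants of jets of forms (base 10)

The rows of the matrix are Taylor coefficients at integral points `b` in directions `T`, the
columns are congruent modulo `p` to integral binary forms `Φ` of degree `d` on the rows of a set
`A`. On the other rows the columns of a set `E` may have one `p` in the denominator. Then the
determinant is divisible by `p ^ (#A - (d + 1))` up to `p ^ min (#Aᶜ) (#E)` in the denominator.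
-/

set_option autoImplicit false

open Finset PWief

namespace B10

/-- the germ `f (b + t T)` of an integral form at `b` -/
noncomputable def sb (b T : Fin 2 → ℤ) : MvPolynomial (Fin 2) ℤ →+* Polynomial ℤ :=
  MvPolynomial.eval₂Hom Polynomial.C
    (fun e => Polynomial.C (b e) + Polynomial.C (T e) * Polynomial.X)

theorem sb_X (b T : Fin 2 → ℤ) (e : Fin 2) :
    sb b T (MvPolynomial.X e) = Polynomial.C (b e) + Polynomial.C (T e) * Polynomial.X := by
  rw [sb, MvPolynomial.coe_eval₂Hom, MvPolynomial.eval₂_X]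

theorem sb_C (b T : Fin 2 → ℤ) (z : ℤ) : sb b T (MvPolynomial.C z) = Polynomial.C z := by
  rw [sb, MvPolynomial.coe_eval₂Hom, MvPolynomial.eval₂_C]

/-- the exponent `(k, d - k)` -/
noncomputable def ex (d k : ℕ) : Fin 2 →₀ ℕ := Finsupp.single 0 k + Finsupp.single 1 (d - k)

/-- Expansion of the germ of a form in the monomials. -/
theorem sb_coeff_form (b T : Fin 2 → ℤ) {d : ℕ} {f : MvPolynomial (Fin 2) ℤ}
    (hf : f.IsHomogeneous d) (i : ℕ) :
    (sb b T f).coeff i = ∑ k : Fin (d + 1),
      (sb b T (MvPolynomial.monomial (ex d k) 1)).coeff i * f.coeff (ex d k) := by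
  classical
  have h1 : f = ∑ k : Fin (d + 1), MvPolynomial.C (f.coeff (ex d k)) *
      MvPolynomial.monomial (ex d k) 1 := by
    ext m
    rw [MvPolynomial.coeff_sum]
    simp only [MvPolynomial.coeff_C_mul, MvPolynomial.coeff_monomial]
    by_cases hm : m.degree = d
    · have hm2 : m 0 + m 1 = d := by
        rw [← hm, Finsupp.degree_eq_sum, Fin.sum_univ_two]
      have hme : ex d (m 0) = m := by
        ext e
        fin_cases e
        · simp [ex]
        · simp [ex]
          omega
      rw [Finset.sum_eq_single (⟨m 0, by omega⟩ : Fin (d + 1))]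
      · rw [hme, if_pos rfl, mul_one]
      · intro k _ hk
        rw [if_neg, mul_zero]
        intro h
        apply hk
        ext
        have := DFunLike.congr_fun h 0
        simp [ex] at this
        simpa using this
      · intro h
        exact absurd (Finset.mem_univ _) h
    · rw [hf.coeff_eq_zero hm]
      symm
      refine Finset.sum_eq_zero fun k _ => ?_
      rw [if_neg, mul_zero]
      intro h
      apply hm
      rw [← h, ex, Finsupp.degree_eq_sum, Fin.sum_univ_two]
      simp
      omega
  conv_lhs => rw [h1]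
  rw [map_sum, Polynomial.finsetSum_coeff]
  refine Finset.sum_congr rfl fun k _ => ?_
  rw [map_mul, sb_C, Polynomial.coeff_C_mul, mul_comm]

/-- **The forced valuation**, rows numbered. On the rows of `A` the columns are congruent to forms of degree
`d`; on the other rows only the columns of `Ec` on the rows of `B` may have one `p` in the denominator. -/
theorem forced_fin {N : ℕ} {p : ℕ} [hp : Fact p.Prime] (M : Matrix (Fin N) (Fin N) ℚ) (d : ℕ)
    (A B Ec : Finset (Fin N)) (hAB : ∀ r ∈ A, r ∉ B) (Φ : Fin N → MvPolynomial (Fin 2) ℤ)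
    (hΦ : ∀ c, (Φ c).IsHomogeneous d) (b T : Fin N → Fin 2 → ℤ) (i : Fin N → ℕ)
    (hA : ∀ r ∈ A, ∀ c, Cg p (M r c) (((sb (b r) (T r) (Φ c)).coeff (i r) : ℤ) : ℚ))
    (hT : ∀ r, r ∉ A → ∀ c, c ∉ Ec → PInt p (M r c))
    (hN : ∀ r, r ∉ A → r ∉ B → ∀ c, PInt p (M r c))
    (hE : ∀ r ∈ B, ∀ c ∈ Ec, PInt p ((p : ℚ) * M r c)) :
    padicNorm p M.det * (p : ℚ) ^ (A.card - (d + 1)) ≤ (p : ℚ) ^ min B.card Ec.card := by
  classical
  have hp0 : (0 : ℚ) < p := by exact_mod_cast hp.out.pos
  have hpn : (p : ℚ) ≠ 0 := hp0.ne'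
  have hpi : PInt p (p : ℚ) := pint_nat p
  have hMA : ∀ r ∈ A, ∀ c, PInt p (M r c) := fun r hr c => (hA r hr c).pint (pint_int _)
  let F : Fin N → Fin (d + 1) → ℚ := fun r k =>
    ((sb (b r) (T r) (MvPolynomial.monomial (ex d k) 1)).coeff (i r) : ℤ)
  let H : Fin (d + 1) → Fin N → ℚ := fun k c => ((Φ c).coeff (ex d k) : ℤ)
  have hFH : ∀ r ∈ A, ∀ c, Cg p (M r c) (∑ k, F r k * H k c) := by
    intro r hr c
    have h1 := hA r hr c
    rw [sb_coeff_form _ _ (hΦ c)] at h1
    push_cast at h1
    exact h1
  have hF : ∀ r k, PInt p (F r k) := fun r k => pint_int _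
  have hH : ∀ k c, PInt p (H k c) := fun k c => pint_int _
  -- the norm of a product of `p`
  have hnp : ∀ s : ℕ, padicNorm p ((p : ℚ) ^ s) = ((p : ℚ) ^ s)⁻¹ := by
    intro s
    induction s with
    | zero => rw [pow_zero, padicNorm.one, inv_one]
    | succ s ih =>
      rw [pow_succ, padicNorm.mul, ih, padicNorm.padicNorm_p_of_prime, mul_inv]
  rcases le_total B.card Ec.card with hmin | hmin
  · rw [min_eq_left hmin]
    let M' : Matrix (Fin N) (Fin N) ℚ :=
      Matrix.of fun r c => (if r ∈ B then (p : ℚ) else 1) * M r c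
    have hM' : ∀ r c, PInt p (M' r c) := by
      intro r c
      simp only [M', Matrix.of_apply]
      by_cases hr : r ∈ A
      · rw [if_neg (hAB r hr), one_mul]; exact hMA r hr c
      · by_cases hb : r ∈ B
        · rw [if_pos hb]
          by_cases hc : c ∈ Ec
          · exact hE r hb c hc
          · exact hpi.mul (hT r hr c hc)
        · rw [if_neg hb, one_mul]
          exact hN r hr hb c
    have hcg : ∀ r ∈ A, ∀ c, Cg p (M' r c) (∑ k, F r k * H k c) := by
      intro r hr c
      simp only [M', Matrix.of_apply, if_neg (hAB r hr), one_mul]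
      exact hFH r hr c
    have h1 := det_rank M' hM' A F H hF hH hcg
    rw [Fintype.card_fin] at h1
    have h2 : M'.det = (p : ℚ) ^ B.card * M.det := by
      have h3 : M'.det = (∏ r, (if r ∈ B then (p : ℚ) else 1)) * M.det :=
        Matrix.det_mul_column _ _
      rw [h3, Finset.prod_ite, Finset.prod_const_one, mul_one, Finset.prod_const]
      congr 2
      have h4 : (univ.filter fun r => r ∈ B) = B := by
        ext r; simp
      rw [h4]
    rw [h2, padicNorm.mul, hnp, mul_assoc, inv_mul_le_iff₀ (by positivity), mul_one] at h1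
    exact h1
  · rw [min_eq_right hmin]
    let M' : Matrix (Fin N) (Fin N) ℚ :=
      Matrix.of fun r c => (if c ∈ Ec then (p : ℚ) else 1) * M r c
    have hM' : ∀ r c, PInt p (M' r c) := by
      intro r c
      simp only [M', Matrix.of_apply]
      by_cases hc : c ∈ Ec
      · rw [if_pos hc]
        by_cases hr : r ∈ A
        · exact hpi.mul (hMA r hr c)
        · by_cases hb : r ∈ B
          · exact hE r hb c hc
          · exact hpi.mul (hN r hr hb c)
      · rw [if_neg hc, one_mul]
        by_cases hr : r ∈ A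
        · exact hMA r hr c
        · exact hT r hr c hc
    let H' : Fin (d + 1) → Fin N → ℚ := fun k c => (if c ∈ Ec then (p : ℚ) else 1) * H k c
    have hH' : ∀ k c, PInt p (H' k c) := by
      intro k c
      simp only [H']
      split_ifs
      · exact hpi.mul (hH k c)
      · rw [one_mul]; exact hH k c
    have hcg : ∀ r ∈ A, ∀ c, Cg p (M' r c) (∑ k, F r k * H' k c) := by
      intro r hr c
      have e1 : ∑ k, F r k * H' k c = (if c ∈ Ec then (p : ℚ) else 1) * ∑ k, F r k * H k c := by
        rw [Finset.mul_sum]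
        refine Finset.sum_congr rfl fun k _ => ?_
        simp only [H']
        ring
      rw [e1]
      simp only [M', Matrix.of_apply]
      split_ifs
      · exact (cg_refl _).mul (hFH r hr c) hpi (hMA r hr c)
      · rw [one_mul, one_mul]; exact hFH r hr c
    have h1 := det_rank M' hM' A F H' hF hH' hcg
    rw [Fintype.card_fin] at h1
    have h2 : M'.det = (p : ℚ) ^ Ec.card * M.det := by
      have h3 : M'.det = (∏ c, (if c ∈ Ec then (p : ℚ) else 1)) * M.det :=
        Matrix.det_mul_row _ _
      rw [h3, Finset.prod_ite, Finset.prod_const_one, mul_one, Finset.prod_const]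
      congr 2
      have h4 : (univ.filter fun r => r ∈ Ec) = Ec := by
        ext r; simp
      rw [h4]
    rw [h2, padicNorm.mul, hnp, mul_assoc, inv_mul_le_iff₀ (by positivity), mul_one] at h1
    exact h1

/-- **The forced valuation.** -/
theorem forced {n : Type*} [Fintype n] [DecidableEq n] {p : ℕ} [hp : Fact p.Prime]
    (M : Matrix n n ℚ) (d : ℕ) (A B Ec : Finset n) (hAB : ∀ r ∈ A, r ∉ B)
    (Φ : n → MvPolynomial (Fin 2) ℤ) (hΦ : ∀ c, (Φ c).IsHomogeneous d) (b T : n → Fin 2 → ℤ)
    (i : n → ℕ)
    (hA : ∀ r ∈ A, ∀ c, Cg p (M r c) (((sb (b r) (T r) (Φ c)).coeff (i r) : ℤ) : ℚ))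
    (hT : ∀ r, r ∉ A → ∀ c, c ∉ Ec → PInt p (M r c))
    (hN : ∀ r, r ∉ A → r ∉ B → ∀ c, PInt p (M r c))
    (hE : ∀ r ∈ B, ∀ c ∈ Ec, PInt p ((p : ℚ) * M r c)) :
    padicNorm p M.det * (p : ℚ) ^ (A.card - (d + 1)) ≤ (p : ℚ) ^ min B.card Ec.card := by
  classical
  let e : Fin (Fintype.card n) ≃ n := (Fintype.equivFin n).symm
  have hm : ∀ (S : Finset n) (r : Fin (Fintype.card n)), r ∈ S.map e.symm.toEmbedding ↔ e r ∈ S := by
    intro S r
    rw [Finset.mem_map_equiv, Equiv.symm_symm]
  have h1 := forced_fin (p := p) (M.submatrix e e) d (A.map e.symm.toEmbedding)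
    (B.map e.symm.toEmbedding) (Ec.map e.symm.toEmbedding)
    (fun r hr => by rw [hm] at hr ⊢; exact hAB _ hr) (fun c => Φ (e c)) (fun c => hΦ _)
    (fun r => b (e r)) (fun r => T (e r)) (fun r => i (e r))
    (fun r hr c => by rw [hm] at hr; exact hA _ hr _)
    (fun r hr c hc => by rw [hm] at hr hc; exact hT _ hr _ hc)
    (fun r hr hb c => by rw [hm] at hr hb; exact hN _ hr hb _)
    (fun r hr c hc => by rw [hm] at hr hc; exact hE _ hr _ hc)
  rw [Matrix.det_submatrix_equiv_self, Finset.card_map, Finset.card_map, Finset.card_map] at h1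
  exact h1

end B10
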