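import Pool.Agent.Lib.B10.Cols

/-!
# The forced valuations of the minors (base 10)

`gen_prime`: for `p ≥ 11` the minor has at most `p ^ (63 m log_p (30 m + c))` in the denominator.
`world_prime`: for a prime `p` of the base 10 world with `30 m + c < p ^ 2`, `c < p`, the minor is
divisible by `p ^ (#rows of order < p - p - 57 m)` up to `p ^ min (#rows of order ≥ p + 2 m, 63 m)`.
`gen_val`, `world_val`: the same for `padicValRat`.
-/

set_option autoImplicit false

open Finset PWief

namespace B10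

/-- the forced gain at a world prime -/
def gainN (m c p : ℕ) : ℕ := (∑ z, min (LL z * m) p) - (p + 57 * m + 18 * c)

/-- the loss at a world prime -/
def lossN (m c p : ℕ) : ℕ :=
  min (∑ z : Fin 12, if z < 6 then LL z * m + c - (p + 2 * m) else 0) (63 * m)

/-- the exponent of a world prime `x m`, divided by `m` -/
noncomputable def wp (x : ℝ) : ℝ :=
  max (3 * min 30 x + 3 * min 21 x + 6 * min 4 x - x - 57) 0 -
    min (3 * max (28 - x) 0 + 3 * max (19 - x) 0) 63

theorem sum12 {M : Type*} [AddCommMonoid M] (g : Fin 12 → M) : ∑ z, g z =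
    g 0 + (g 1 + (g 2 + (g 3 + (g 4 + (g 5 + (g 6 + (g 7 + (g 8 + (g 9 + (g 10 + g 11)))))))))) := by
  simp only [Fin.sum_univ_succ, Fin.sum_univ_zero, add_zero]
  rfl

/-- the sum of the bounds of the orders -/
theorem sum_LL (m c : ℕ) : ∑ z : Fin 12, (LL z * m + c) = 177 * m + 12 * c := by
  rw [Finset.sum_add_distrib, ← Finset.sum_mul, Finset.sum_const, Finset.card_univ,
    Fintype.card_fin, smul_eq_mul]
  congr 2

theorem row_lt {m c : ℕ} (r : Row m c) : (r.2 : ℕ) < 30 * m + c :=
  lt_of_lt_of_le r.2.isLt (Nat.add_le_add_right (Nat.mul_le_mul_right _ (LL_le r.1)) _)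

section

variable {p : ℕ} [hp : Fact p.Prime]

theorem norm_p_pow (s : ℕ) : padicNorm p ((p : ℚ) ^ s) = ((p : ℚ) ^ s)⁻¹ := by
  induction s with
  | zero => rw [pow_zero, padicNorm.one, inv_one]
  | succ s ih =>
    rw [pow_succ, padicNorm.mul, ih, padicNorm.padicNorm_p_of_prime, mul_inv]

theorem det_pint' {n : Type*} [Fintype n] [DecidableEq n] (M : Matrix n n ℚ)
    (h : ∀ r c, PInt p (M r c)) : PInt p M.det := by
  rw [Matrix.det_apply']
  refine pint_sum _ _ fun σ _ => ?_
  exact (pint_int _).mul (pint_prod _ _ fun i _ => h _ _)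

end

/-- **All primes.** -/
theorem gen_prime {m c p : ℕ} [hp : Fact p.Prime] (h11 : 11 ≤ p) (x : Col m → Row m c) :
    padicNorm p (Dx x) ≤ (p : ℚ) ^ (63 * m * Nat.log p (30 * m + c)) := by
  set k := Nat.log p (30 * m + c) with hk
  have hp0 : (0 : ℚ) < p := by exact_mod_cast hp.out.pos
  let s : Col m → ℚ := Sum.elim (fun _ => 1) (fun _ => (p : ℚ) ^ k)
  let M' : Matrix (Col m) (Col m) ℚ := Matrix.of fun r c' => s c' * (Mx m c).submatrix x id r c'
  have h1 : ∀ r c', PInt p (M' r c') := by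
    intro r c'
    simp only [M', Matrix.of_apply, Matrix.submatrix_apply, id]
    rcases c' with ⟨e, j⟩ | ⟨u, j⟩
    · simp only [s, Sum.elim_inl, one_mul]
      exact entry_inl_pint _ _ _
    · simp only [s, Sum.elim_inr]
      refine entry_inr_pint h11 _ _ _ ?_
      have h2 := row_lt (x r)
      have h3 : 30 * m + c < p ^ (k + 1) := Nat.lt_pow_succ_log_self hp.out.one_lt _
      omega
  have h2 := det_pint' M' h1
  have h3 : M'.det = (∏ c', s c') * Dx x := Matrix.det_mul_row _ _
  have h4 : ∏ c', s c' = (p : ℚ) ^ (63 * m * k) := by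
    rw [Fintype.prod_sum_type]
    simp only [s, Sum.elim_inl, Sum.elim_inr, Finset.prod_const, Finset.card_univ,
      Fintype.card_prod, Fintype.card_fin, one_pow, one_mul]
    rw [← pow_mul]
    congr 1
    ring
  unfold PInt at h2
  rw [h3, h4, padicNorm.mul, norm_p_pow, inv_mul_le_iff₀ (by positivity), mul_one] at h2
  exact h2

/-- the number of rows of order `< p` which are congruent to forms -/
theorem card_A {m c p : ℕ} {x : Col m → Row m c} (hx : Function.Injective x) :
    (∑ z, min (LL z * m) p) ≤ (univ.filter fun r : Col m => ((x r).2 : ℕ) < p ∧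
      ((x r).1 < 6 ∨ ((x r).2 : ℕ) < 4 * m)).card + 12 * c := by
  classical
  let A' : Finset (Row m c) := univ.filter fun r => (r.2 : ℕ) < p ∧ (r.1 < 6 ∨ (r.2 : ℕ) < 4 * m)
  have h1 : (∑ z, min (LL z * m) p) ≤ A'.card := by
    have h2 : ((univ : Finset (Fin 12)).sigma fun z =>
        (univ.filter fun i : Fin (LL z * m + c) => (i : ℕ) < min (LL z * m) p)) ⊆ A' := by
      rintro ⟨z, i⟩ h
      rw [Finset.mem_sigma, Finset.mem_filter] at h
      rw [Finset.mem_filter]
      have h3 := h.2.2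
      rw [lt_min_iff] at h3
      refine ⟨mem_univ _, h3.2, ?_⟩
      by_cases hz : z < 6
      · exact Or.inl hz
      · right
        have h4 : LL z * m = 4 * m := by rw [(FF_eq_LL hz).2]
        have h5 : ((i : Fin (LL z * m + c)) : ℕ) < LL z * m := h3.1
        exact lt_of_lt_of_eq h5 h4
    refine le_trans (le_of_eq ?_) (Finset.card_le_card h2)
    rw [Finset.card_sigma]
    refine Finset.sum_congr rfl fun z _ => ?_
    rw [Fin.card_filter_val_lt]
    have := min_le_left (LL z * m) p
    omega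
  have h2 : A'.card ≤ (univ.filter fun r : Col m => ((x r).2 : ℕ) < p ∧
      ((x r).1 < 6 ∨ ((x r).2 : ℕ) < 4 * m)).card + 12 * c := by
    have h3 : A' ⊆ ((univ.filter fun r : Col m => ((x r).2 : ℕ) < p ∧
        ((x r).1 < 6 ∨ ((x r).2 : ℕ) < 4 * m)).image x) ∪ (univ.image x)ᶜ := by
      intro r hr
      rw [Finset.mem_union]
      by_cases h : r ∈ univ.image x
      · left
        rw [Finset.mem_image] at h ⊢
        obtain ⟨r', -, rfl⟩ := h
        refine ⟨r', ?_, rfl⟩
        rw [Finset.mem_filter] at hr ⊢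
        exact ⟨mem_univ _, hr.2⟩
      · right
        rw [Finset.mem_compl]
        exact h
    refine (Finset.card_le_card h3).trans ((Finset.card_union_le _ _).trans ?_)
    rw [Finset.card_image_of_injective _ hx, Finset.card_compl,
      Finset.card_image_of_injective _ hx, Finset.card_univ, card_Col]
    have h4 : Fintype.card (Row m c) = 177 * m + 12 * c := by
      rw [Fintype.card_sigma]
      simp only [Fintype.card_fin]
      exact sum_LL m c
    rw [h4]
    omega
  exact h1.trans h2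

/-- the number of rows of order `≥ q` at the germs -/
theorem card_B {m c q : ℕ} {x : Col m → Row m c} (hx : Function.Injective x) :
    (univ.filter fun r : Col m => (x r).1 < 6 ∧ q ≤ ((x r).2 : ℕ)).card ≤
      ∑ z : Fin 12, if z < 6 then LL z * m + c - q else 0 := by
  classical
  have h1 : (univ.filter fun r : Col m => (x r).1 < 6 ∧ q ≤ ((x r).2 : ℕ)).image x ⊆
      ((univ : Finset (Fin 12)).sigma fun z =>
        (univ.filter fun i : Fin (LL z * m + c) => z < 6 ∧ q ≤ (i : ℕ))) := by
    intro r hr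
    rw [Finset.mem_image] at hr
    obtain ⟨r', h, rfl⟩ := hr
    rw [Finset.mem_filter] at h
    rw [Finset.mem_sigma, Finset.mem_filter]
    exact ⟨mem_univ _, mem_univ _, h.2⟩
  have h2 := Finset.card_le_card h1
  rw [Finset.card_image_of_injective _ hx, Finset.card_sigma] at h2
  refine h2.trans (Finset.sum_le_sum fun z _ => ?_)
  by_cases hz : z < 6
  · rw [if_pos hz]
    have h3 : (univ.filter fun i : Fin (LL z * m + c) => z < 6 ∧ q ≤ (i : ℕ)) =
        (univ.filter fun i : Fin (LL z * m + c) => (i : ℕ) < q)ᶜ := by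
      ext i
      simp only [Finset.mem_filter, Finset.mem_compl, Finset.mem_univ, true_and, not_lt]
      exact ⟨fun h => h.2, fun h => ⟨hz, h⟩⟩
    rw [h3, Finset.card_compl, Fin.card_filter_val_lt, Fintype.card_fin]
    omega
  · rw [if_neg hz, Finset.filter_false_of_mem (fun i _ h => hz h.1), Finset.card_empty]

/-- **The primes of the base 10 world.** -/
theorem world_prime {m c p : ℕ} [hp : Fact p.Prime] (h11 : 11 ≤ p) (hc : c < p)
    (hp2 : 30 * m + c < p ^ 2) (hw : (p : ℤ) ^ 2 ∣ 10 ^ (p - 1) - 1) {x : Col m → Row m c}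
    (hx : Function.Injective x) :
    padicNorm p (Dx x) * (p : ℚ) ^ gainN m c p ≤ (p : ℚ) ^ lossN m c p := by
  classical
  have hp1 : (1 : ℚ) ≤ p := by exact_mod_cast hp.out.one_lt.le
  have hw10 := fun u => world10 (p := p) (by omega) hw u
  choose G E lam hG1 hG2 hE1 hE2 hE3 using hw10
  let A : Finset (Col m) := univ.filter fun r => ((x r).2 : ℕ) < p ∧
    ((x r).1 < 6 ∨ ((x r).2 : ℕ) < 4 * m)
  let B : Finset (Col m) := univ.filter fun r => (x r).1 < 6 ∧ p + 2 * m ≤ ((x r).2 : ℕ)
  let Ec : Finset (Col m) := univ.filter fun c' => c'.isRight = true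
  have hint : ∀ r, r ∉ B → ∀ c', PInt p ((Mx m c).submatrix x id r c') := by
    intro r hr c'
    rw [Matrix.submatrix_apply, id]
    rcases c' with ⟨e, j⟩ | ⟨u, j⟩
    · exact entry_inl_pint _ _ _
    · have h1 := entry_inr_pint (p := p) (k := 0) h11 (x r) u j (by
        rw [zero_add, pow_one]
        by_cases hz : (x r).1 < 6
        · rw [FF_eq_two hz]
          by_contra h2
          apply hr
          simp only [B, Finset.mem_filter, Finset.mem_univ, true_and]
          exact ⟨hz, by omega⟩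
        · have h2 := (x r).2.isLt
          have h3 : LL (x r).1 * m = 4 * m := by rw [(FF_eq_LL hz).2]
          rw [(FF_eq_LL hz).1]
          omega)
      rw [pow_zero, one_mul] at h1
      exact h1
  have key := forced (p := p) ((Mx m c).submatrix x id) (p + 57 * m - 1) A B Ec
    (fun r hr hb => by
      simp only [A, B, Finset.mem_filter, Finset.mem_univ, true_and] at hr hb
      omega)
    (Phi m p E) (Phi_hom hE2) (fun r => lt (x r).1) (fun r => tv (x r).1) (fun r => ((x r).2 : ℕ)) ?_ ?_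
    (fun r _ hb c' => hint r hb c') ?_
  · -- the counting
    have h1 : p + 57 * m - 1 + 1 = p + 57 * m := by
      have := hp.out.pos
      omega
    rw [h1] at key
    have h2 : gainN m c p ≤ A.card - (p + 57 * m) := by
      have h3 := card_A (p := p) hx
      unfold gainN
      change _ ≤ A.card + 12 * c at h3
      omega
    have h3 : min B.card Ec.card ≤ lossN m c p := by
      unfold lossN
      refine min_le_min (card_B hx) (le_of_eq ?_)
      have h4 : Ec = (univ : Finset (Fin 3 × Fin (21 * m))).map Function.Embedding.inr := by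
        ext c'
        simp only [Ec, Finset.mem_filter, Finset.mem_univ, true_and, Finset.mem_map,
          Function.Embedding.inr_apply]
        rcases c' with y | y
        · simp
        · simp
      rw [h4, Finset.card_map, Finset.card_univ, Fintype.card_prod, Fintype.card_fin,
        Fintype.card_fin]
      ring
    calc padicNorm p (Dx x) * (p : ℚ) ^ gainN m c p
        ≤ padicNorm p (Dx x) * (p : ℚ) ^ (A.card - (p + 57 * m)) :=
          mul_le_mul_of_nonneg_left (pow_le_pow_right₀ hp1 h2) (padicNorm.nonneg _)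
      _ ≤ (p : ℚ) ^ min B.card Ec.card := key
      _ ≤ (p : ℚ) ^ lossN m c p := pow_le_pow_right₀ hp1 h3
  · -- the congruences
    intro r hr c'
    simp only [A, Finset.mem_filter, Finset.mem_univ, true_and] at hr
    exact Phi_cg h11 hE3 (x r) hr.1 hr.2 c'
  · -- the other rows, columns of the constants
    intro r _ c' hc'
    rw [Matrix.submatrix_apply, id]
    rcases c' with ⟨e, j⟩ | ⟨u, j⟩
    · exact entry_inl_pint _ _ _
    · exact absurd (by simp [Ec]) hc'
  · -- the bad rows
    intro r _ c' hc'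
    rw [Matrix.submatrix_apply, id]
    rcases c' with ⟨e, j⟩ | ⟨u, j⟩
    · exact absurd hc' (by simp [Ec])
    · have h1 := entry_inr_pint (p := p) (k := 1) h11 (x r) u j (by
        have h2 := row_lt (x r)
        rw [show 1 + 1 = 2 from rfl]
        omega)
      rw [pow_one] at h1
      exact h1

/-- the norm and the valuation -/
theorem val_of_norm {p : ℕ} [hp : Fact p.Prime] {q : ℚ} (hq : q ≠ 0) {a b : ℕ}
    (h : padicNorm p q * (p : ℚ) ^ a ≤ (p : ℚ) ^ b) : (a : ℤ) - b ≤ padicValRat p q := by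
  have hp1 : (1 : ℚ) < p := by exact_mod_cast hp.out.one_lt
  have hp0 : (p : ℚ) ≠ 0 := by positivity
  rw [padicNorm.eq_zpow_of_nonzero hq, ← zpow_natCast, ← zpow_natCast, ← zpow_add₀ hp0] at h
  have h1 := (zpow_le_zpow_iff_right₀ hp1).1 h
  omega

/-- all primes, valuations -/
theorem gen_val {m c p : ℕ} [hp : Fact p.Prime] (h7 : 7 < p) {x : Col m → Row m c}
    (hD : Dx x ≠ 0) :
    -((63 * m * Nat.log p (30 * m + c) : ℕ) : ℤ) ≤ padicValRat p (Dx x) := by
  have h11 : 11 ≤ p := by
    have h1 := hp.out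
    by_contra h
    interval_cases p <;> revert h1 <;> decide
  have h1 := gen_prime h11 x
  have h2 := val_of_norm (p := p) (a := 0) (b := 63 * m * Nat.log p (30 * m + c)) hD
    (by rw [pow_zero, mul_one]; exact h1)
  push_cast at h2 ⊢
  linarith

/-- the gain over the reals -/
theorem le_gainN {m c p : ℕ} (hm : 0 < m) {y : ℝ} (hyp : (p : ℝ) = m * y) :
    m * max (3 * min 30 y + 3 * min 21 y + 6 * min 4 y - y - 57) 0 - 18 * c ≤
      (gainN m c p : ℝ) := by
  have hm0 : (0 : ℝ) < m := by exact_mod_cast hm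
  have hc0 : (0 : ℝ) ≤ c := Nat.cast_nonneg c
  have hS : ((∑ z, min (LL z * m) p : ℕ) : ℝ) =
      m * (3 * min 30 y + 3 * min 21 y + 6 * min 4 y) := by
    have e1 : ∀ k : ℕ, ((min (k * m) p : ℕ) : ℝ) = m * min (k : ℝ) y := by
      intro k
      rw [Nat.cast_min, Nat.cast_mul, hyp, mul_comm (k : ℝ), ← mul_min_of_nonneg _ _ hm0.le]
    have h30 := e1 30
    have h21 := e1 21
    have h4 := e1 4
    push_cast at h30 h21 h4
    rw [Nat.cast_sum, sum12]
    change ((min (30 * m) p : ℕ) : ℝ) + (((min (30 * m) p : ℕ) : ℝ) + (((min (30 * m) p : ℕ) : ℝ) +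
      (((min (21 * m) p : ℕ) : ℝ) + (((min (21 * m) p : ℕ) : ℝ) + (((min (21 * m) p : ℕ) : ℝ) +
      (((min (4 * m) p : ℕ) : ℝ) + (((min (4 * m) p : ℕ) : ℝ) + (((min (4 * m) p : ℕ) : ℝ) +
      (((min (4 * m) p : ℕ) : ℝ) + (((min (4 * m) p : ℕ) : ℝ) +
      ((min (4 * m) p : ℕ) : ℝ))))))))))) = _
    push_cast
    rw [h30, h21, h4]
    ring
  have h3 : (∑ z, min (LL z * m) p) ≤ gainN m c p + (p + 57 * m + 18 * c) := by
    unfold gainN
    omega
  have h4 : ((∑ z, min (LL z * m) p : ℕ) : ℝ) ≤ (gainN m c p : ℝ) + (p + 57 * m + 18 * c) := by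
    exact_mod_cast h3
  rw [hS, hyp] at h4
  have h5 : (0 : ℝ) ≤ (gainN m c p : ℝ) := Nat.cast_nonneg _
  rw [mul_max_of_nonneg _ _ hm0.le, mul_zero]
  rcases max_cases ((m : ℝ) * (3 * min 30 y + 3 * min 21 y + 6 * min 4 y - y - 57)) 0 with
    ⟨h6, -⟩ | ⟨h6, -⟩
  · rw [h6]
    linarith
  · rw [h6]
    linarith

/-- the loss over the reals -/
theorem lossN_le {m c p : ℕ} (hm : 0 < m) {y : ℝ} (hyp : (p : ℝ) = m * y) :
    (lossN m c p : ℝ) ≤ m * min (3 * max (28 - y) 0 + 3 * max (19 - y) 0) 63 + 6 * c := by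
  have hm0 : (0 : ℝ) < m := by exact_mod_cast hm
  have hc0 : (0 : ℝ) ≤ c := Nat.cast_nonneg c
  have e1 : ∀ k : ℕ, ((k * m + c - (p + 2 * m) : ℕ) : ℝ) ≤ m * max ((k : ℝ) - 2 - y) 0 + c := by
    intro k
    rcases le_total (p + 2 * m) (k * m + c) with h3 | h3
    · rw [Nat.cast_sub h3]
      push_cast
      rw [hyp]
      have h4 := mul_le_mul_of_nonneg_left (le_max_left ((k : ℝ) - 2 - y) 0) hm0.le
      rw [mul_sub, mul_sub] at h4
      linarith
    · rw [Nat.sub_eq_zero_of_le h3, Nat.cast_zero]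
      have h4 := mul_nonneg hm0.le (le_max_right ((k : ℝ) - 2 - y) 0)
      linarith
  have e2 : ((∑ z : Fin 12, if z < 6 then LL z * m + c - (p + 2 * m) else 0 : ℕ) : ℝ) ≤
      m * (3 * max (28 - y) 0 + 3 * max (19 - y) 0) + 6 * c := by
    have h30 := e1 30
    have h21 := e1 21
    have e3 : (∑ z : Fin 12, if z < 6 then LL z * m + c - (p + 2 * m) else 0) =
        3 * (30 * m + c - (p + 2 * m)) + 3 * (21 * m + c - (p + 2 * m)) := by
      rw [sum12]
      change (30 * m + c - (p + 2 * m)) + ((30 * m + c - (p + 2 * m)) +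
        ((30 * m + c - (p + 2 * m)) + ((21 * m + c - (p + 2 * m)) +
        ((21 * m + c - (p + 2 * m)) + ((21 * m + c - (p + 2 * m)) +
        (0 + (0 + (0 + (0 + (0 + 0)))))))))) = _
      omega
    rw [e3, Nat.cast_add, Nat.cast_mul, Nat.cast_mul]
    have e4 : ((30 : ℕ) : ℝ) - 2 - y = 28 - y := by push_cast; ring
    have e5 : ((21 : ℕ) : ℝ) - 2 - y = 19 - y := by push_cast; ring
    rw [e4] at h30
    rw [e5] at h21
    have e6 : m * (3 * max (28 - y) 0 + 3 * max (19 - y) 0) =
        3 * (m * max (28 - y) 0) + 3 * (m * max (19 - y) 0) := by ring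
    have e7 : ((3 : ℕ) : ℝ) = 3 := by norm_num
    rw [e6, e7]
    linarith
  have e8 : ((63 * m : ℕ) : ℝ) = m * 63 := by
    push_cast
    ring
  unfold lossN
  rw [Nat.cast_min, mul_min_of_nonneg _ _ hm0.le, e8]
  refine le_trans (min_le_min e2 le_rfl) ?_
  rcases min_cases (m * (3 * max (28 - y) 0 + 3 * max (19 - y) 0)) ((m : ℝ) * 63) with
    ⟨h6, -⟩ | ⟨h6, -⟩
  · rw [h6]
    exact min_le_left _ _
  · rw [h6]
    exact (min_le_right _ _).trans (by linarith)

/-- primes of the base 10 world, valuations -/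
theorem world_val {m c p : ℕ} [hp : Fact p.Prime] (h7 : 7 < p) (hc : c < p)
    (hp2 : 30 * m + c < p ^ 2) (hm : 0 < m) (hw : (p : ℤ) ^ 2 ∣ 10 ^ (p - 1) - 1)
    {x : Col m → Row m c} (hx : Function.Injective x) (hD : Dx x ≠ 0) :
    (m : ℝ) * wp ((p : ℝ) / m) - 24 * c ≤ (padicValRat p (Dx x) : ℝ) := by
  have h11 : 11 ≤ p := by
    have h1 := hp.out
    by_contra h
    interval_cases p <;> revert h1 <;> decide
  have h1 := val_of_norm hD (world_prime h11 hc hp2 hw hx)
  have h2 : ((gainN m c p : ℝ) - (lossN m c p : ℝ)) ≤ (padicValRat p (Dx x) : ℝ) := by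
    have h3 : (((gainN m c p : ℤ) - (lossN m c p : ℤ) : ℤ) : ℝ) ≤ (padicValRat p (Dx x) : ℝ) := by
      exact_mod_cast h1
    push_cast at h3
    exact h3
  have hm0 : (0 : ℝ) < m := by exact_mod_cast hm
  have hyp : (p : ℝ) = m * ((p : ℝ) / m) := by
    field_simp
  have hg := le_gainN (c := c) hm hyp
  have hl := lossN_le (c := c) hm hyp
  unfold wp
  rw [mul_sub]
  linarith

end B10
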