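import Pool.Agent.Lib.PNT.Theta

/-!
# The prime number theorem in integral form

For a function `f` continuous on `[a, b]`, `0 ≤ a ≤ b`, the sum of `f (p / x) * log p` over the primes
`a x < p ≤ b x` is `x * (∫ t in a..b, f t + o(1))`.
-/

set_option autoImplicit false

open Finset Filter Topology

namespace B10

/-- The weighted prime sum of `f` over `(a x, b x]`. -/
noncomputable def PS (f : ℝ → ℝ) (a b x : ℝ) : ℝ :=
  ∑ p ∈ (Ioc ⌊a * x⌋₊ ⌊b * x⌋₊).filter Nat.Prime, f (p / x) * Real.log p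

private theorem theta_diff {a k : ℕ} (h : a ≤ k) :
    ∑ q ∈ (Ioc a k).filter Nat.Prime, Real.log q = Chebyshev.theta k - Chebyshev.theta a := by
  have h0 : ∀ n : ℕ, Chebyshev.theta (n : ℝ) =
      ∑ q ∈ (Ioc 0 n).filter Nat.Prime, Real.log q := fun n => by
    unfold Chebyshev.theta
    rw [Nat.floor_natCast]
  have h1 : (Ioc 0 k).filter Nat.Prime =
      (Ioc 0 a).filter Nat.Prime ∪ (Ioc a k).filter Nat.Prime := by
    rw [← filter_union, Ioc_union_Ioc_eq_Ioc (Nat.zero_le _) h]
  rw [h0, h0, h1, sum_union]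
  · ring
  · refine disjoint_left.2 fun q hq hq' => ?_
    simp only [mem_filter, mem_Ioc] at hq hq'
    omega

private theorem theta_floor (y : ℝ) : Chebyshev.theta (⌊y⌋₊ : ℝ) = Chebyshev.theta y := by
  unfold Chebyshev.theta
  rw [Nat.floor_natCast]

theorem PS_one {a b x : ℝ} (hab : a ≤ b) (hx : 0 ≤ x) :
    PS (fun _ => 1) a b x = Chebyshev.theta (b * x) - Chebyshev.theta (a * x) := by
  unfold PS
  simp only [one_mul]
  rw [theta_diff (Nat.floor_mono (mul_le_mul_of_nonneg_right hab hx)), theta_floor, theta_floor]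

theorem theta_scale {a : ℝ} (ha : 0 ≤ a) :
    Tendsto (fun x : ℝ => Chebyshev.theta (a * x) / x) atTop (𝓝 a) := by
  rcases ha.eq_or_lt with rfl | ha
  · simp [Chebyshev.theta]
  · have h1 : Tendsto (fun x : ℝ => a * x) atTop atTop := tendsto_id.const_mul_atTop ha
    have h2 := (PNT.theta_tendsto.comp h1).const_mul a
    rw [mul_one] at h2
    refine h2.congr' ?_
    filter_upwards [eventually_gt_atTop 0] with x hx
    simp only [Function.comp_apply]
    field_simp

theorem PS_one_tendsto {a b : ℝ} (ha : 0 ≤ a) (hab : a ≤ b) :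
    Tendsto (fun x : ℝ => PS (fun _ => 1) a b x / x) atTop (𝓝 (b - a)) := by
  have h := (theta_scale (ha.trans hab)).sub (theta_scale ha)
  refine h.congr' ?_
  filter_upwards [eventually_gt_atTop 0] with x hx
  rw [PS_one hab hx.le, sub_div]

theorem PS_add {f : ℝ → ℝ} {a b c x : ℝ} (hab : a ≤ b) (hbc : b ≤ c) (hx : 0 ≤ x) :
    PS f a b x + PS f b c x = PS f a c x := by
  unfold PS
  have h1 : (Ioc ⌊a * x⌋₊ ⌊c * x⌋₊).filter Nat.Prime =
      (Ioc ⌊a * x⌋₊ ⌊b * x⌋₊).filter Nat.Prime ∪ (Ioc ⌊b * x⌋₊ ⌊c * x⌋₊).filter Nat.Prime := by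
    rw [← filter_union, Ioc_union_Ioc_eq_Ioc (Nat.floor_mono (mul_le_mul_of_nonneg_right hab hx))
      (Nat.floor_mono (mul_le_mul_of_nonneg_right hbc hx))]
  rw [h1, sum_union]
  refine disjoint_left.2 fun q hq hq' => ?_
  simp only [mem_filter, mem_Ioc] at hq hq'
  omega

theorem PS_close {f : ℝ → ℝ} {c e a b x : ℝ} (hx : 0 < x)
    (h : ∀ t, a < t → t ≤ b → |f t - c| ≤ e) :
    |PS f a b x - c * PS (fun _ => 1) a b x| ≤ e * PS (fun _ => 1) a b x := by
  unfold PS
  rw [mul_sum, mul_sum, ← sum_sub_distrib]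
  refine (abs_sum_le_sum_abs _ _).trans (sum_le_sum fun p hp => ?_)
  obtain ⟨hp1, hp2⟩ := mem_filter.1 hp
  rw [mem_Ioc] at hp1
  have hlog : 0 ≤ Real.log (p : ℝ) := Real.log_natCast_nonneg p
  have h1 : a < p / x := by
    rw [lt_div_iff₀ hx]
    by_cases hax : 0 ≤ a * x
    · exact (Nat.floor_lt hax).1 hp1.1
    · exact (not_le.1 hax).trans (by exact_mod_cast hp2.pos)
  have h2 : (p : ℝ) / x ≤ b := by
    rw [div_le_iff₀ hx]
    exact (Nat.le_floor_iff' hp2.ne_zero).1 hp1.2
  have h3 := h _ h1 h2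
  rw [show f (p / x) * Real.log p - c * (1 * Real.log p) = (f (p / x) - c) * Real.log p by ring,
    abs_mul, abs_of_nonneg hlog, one_mul]
  exact mul_le_mul_of_nonneg_right h3 hlog

theorem PS_nonneg {a b x : ℝ} : 0 ≤ PS (fun _ => 1) a b x :=
  sum_nonneg fun p _ => by
    rw [one_mul]
    exact Real.log_natCast_nonneg p

/-- The prime number theorem in integral form. -/
theorem PS_tendsto {f : ℝ → ℝ} {a b : ℝ} (ha : 0 ≤ a) (hab : a ≤ b)
    (hf : ContinuousOn f (Set.Icc a b)) :
    Tendsto (fun x : ℝ => PS f a b x / x) atTop (𝓝 (∫ t in a..b, f t)) := by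
  rcases hab.eq_or_lt with rfl | hab
  · have : (fun x : ℝ => PS f a a x / x) = fun _ => 0 := by
      funext x
      simp [PS]
    rw [this, intervalIntegral.integral_same]
    exact tendsto_const_nhds
  rw [Metric.tendsto_atTop]
  intro ε hε
  set e : ℝ := ε / (4 * (b - a + 1)) with he
  have hba : 0 < b - a := sub_pos.2 hab
  have he0 : 0 < e := by positivity
  have huc := isCompact_Icc.uniformContinuousOn_of_continuous hf
  rw [Metric.uniformContinuousOn_iff] at huc
  obtain ⟨δ, hδ, huc⟩ := huc e he0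
  obtain ⟨m, hm⟩ := exists_nat_gt ((b - a) / δ)
  have hm0 : (0 : ℝ) < m := (div_pos hba hδ).trans hm
  have hm1 : (b - a) / m < δ := by
    rw [div_lt_iff₀ hm0]
    rw [div_lt_iff₀ hδ] at hm
    linarith
  set t : ℕ → ℝ := fun i => a + (b - a) * i / m with ht
  have ht0 : t 0 = a := by simp [ht]
  have htm : t m = b := by
    simp only [ht]
    field_simp
    ring
  have htd : ∀ i, t (i + 1) - t i = (b - a) / m := fun i => by
    simp only [ht]
    push_cast
    ring
  have htmono : Monotone t := monotone_nat_of_le_succ fun i => by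
    have := htd i
    have h2 : 0 < (b - a) / m := div_pos hba hm0
    linarith
  have hta : ∀ i, a ≤ t i := fun i => ht0 ▸ htmono (Nat.zero_le i)
  have htb : ∀ i, i ≤ m → t i ≤ b := fun i hi => htm ▸ htmono hi
  -- oscillation on the blocks
  have hosc : ∀ i, i < m → ∀ s, t i ≤ s → s ≤ t (i + 1) → |f s - f (t i)| ≤ e := by
    intro i hi s h1 h2
    have h3 := huc s ⟨(hta i).trans h1, h2.trans (htb _ hi)⟩ (t i) ⟨hta i, htb _ hi.le⟩ (by
      rw [Real.dist_eq, abs_of_nonneg (by linarith)]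
      have := htd i
      linarith)
    rw [Real.dist_eq] at h3
    exact h3.le
  -- the integral
  have hint : ∀ i, i ≤ m → IntervalIntegrable f MeasureTheory.volume a (t i) := fun i hi =>
    (hf.mono (Set.Icc_subset_Icc le_rfl (htb i hi))).intervalIntegrable_of_Icc (hta i)
  have hintb : ∀ i, i < m → IntervalIntegrable f MeasureTheory.volume (t i) (t (i + 1)) :=
    fun i hi => (hf.mono (Set.Icc_subset_Icc (hta i) (htb _ hi))).intervalIntegrable_of_Icc
      (htmono (Nat.le_succ i))
  have hI : |(∫ s in a..b, f s) - ∑ i ∈ range m, f (t i) * (t (i + 1) - t i)| ≤ e * (b - a) := by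
    have h1 : (∫ s in a..b, f s) = ∑ i ∈ range m, ∫ s in t i..t (i + 1), f s := by
      rw [intervalIntegral.sum_integral_adjacent_intervals (fun i hi => hintb i hi), ht0, htm]
    rw [h1, ← sum_sub_distrib]
    refine (abs_sum_le_sum_abs _ _).trans ?_
    have h2 : ∀ i ∈ range m, |(∫ s in t i..t (i + 1), f s) - f (t i) * (t (i + 1) - t i)| ≤
        e * (t (i + 1) - t i) := by
      intro i hi
      have hi' := mem_range.1 hi
      have h3 : (∫ s in t i..t (i + 1), f s) - f (t i) * (t (i + 1) - t i) =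
          ∫ s in t i..t (i + 1), (f s - f (t i)) := by
        rw [intervalIntegral.integral_sub (hintb i hi') intervalIntegrable_const,
          intervalIntegral.integral_const, smul_eq_mul]
        ring
      rw [h3]
      have h4 := intervalIntegral.norm_integral_le_of_norm_le_const (a := t i) (b := t (i + 1))
        (f := fun s => f s - f (t i)) (C := e) (fun s hs => by
          rw [Set.uIoc_of_le (htmono (Nat.le_succ i))] at hs
          exact hosc i hi' s hs.1.le hs.2)
      rw [Real.norm_eq_abs, abs_of_nonneg (sub_nonneg.2 (htmono (Nat.le_succ i)))] at h4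
      exact h4
    refine (sum_le_sum h2).trans ?_
    rw [← mul_sum, sum_range_sub, ht0, htm]
  -- the limits on the blocks
  have hlim : Tendsto (fun x : ℝ => ∑ i ∈ range m, |f (t i)| *
      |PS (fun _ => 1) (t i) (t (i + 1)) x / x - (t (i + 1) - t i)|) atTop (𝓝 0) := by
    have h1 : ∀ i ∈ range m, Tendsto (fun x : ℝ => |f (t i)| *
        |PS (fun _ => 1) (t i) (t (i + 1)) x / x - (t (i + 1) - t i)|) atTop (𝓝 0) := by
      intro i _
      have h2 := (PS_one_tendsto (ha.trans (hta i)) (htmono (Nat.le_succ i))).sub_const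
        (t (i + 1) - t i)
      rw [sub_self] at h2
      have h3 := (h2.abs).const_mul |f (t i)|
      simpa using h3
    have h4 := tendsto_finsetSum (range m) h1
    simpa using h4
  have hlim2 := PS_one_tendsto ha hab.le
  obtain ⟨X1, hX1⟩ := Metric.tendsto_atTop.1 hlim (ε / 4) (by positivity)
  obtain ⟨X2, hX2⟩ := Metric.tendsto_atTop.1 hlim2 1 one_pos
  refine ⟨max (max X1 X2) 1, fun x hx => ?_⟩
  have hx1 : X1 ≤ x := ((le_max_left _ _).trans (le_max_left _ _)).trans hx
  have hx2 : X2 ≤ x := ((le_max_right _ _).trans (le_max_left _ _)).trans hx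
  have hx0 : 0 < x := one_pos.trans_le ((le_max_right _ _).trans hx)
  have h1 := hX1 x hx1
  have h2 := hX2 x hx2
  rw [Real.dist_eq, sub_zero, abs_of_nonneg (sum_nonneg fun i _ => by positivity)] at h1
  rw [Real.dist_eq, abs_lt] at h2
  -- decomposition of the prime sum
  have hdec : ∀ g : ℝ → ℝ, PS g a b x = ∑ i ∈ range m, PS g (t i) (t (i + 1)) x := by
    intro g
    have h3 : ∀ k, PS g a (t k) x = ∑ i ∈ range k, PS g (t i) (t (i + 1)) x := by
      intro k
      induction k with
      | zero => simp [PS, ht0]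
      | succ k ih =>
        rw [sum_range_succ, ← ih, PS_add (hta k) (htmono (Nat.le_succ k)) hx0.le]
    rw [← h3, htm]
  have hA : |PS f a b x - ∑ i ∈ range m, f (t i) * PS (fun _ => 1) (t i) (t (i + 1)) x| ≤
      e * PS (fun _ => 1) a b x := by
    rw [hdec f, hdec (fun _ => 1), ← sum_sub_distrib, mul_sum]
    refine (abs_sum_le_sum_abs _ _).trans (sum_le_sum fun i hi => ?_)
    exact PS_close hx0 fun s hs1 hs2 => hosc i (mem_range.1 hi) s hs1.le hs2
  have hA' : |PS f a b x / x - ∑ i ∈ range m, f (t i) *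
      (PS (fun _ => 1) (t i) (t (i + 1)) x / x)| ≤ e * (b - a + 1) := by
    have h3 : PS f a b x / x - ∑ i ∈ range m, f (t i) *
        (PS (fun _ => 1) (t i) (t (i + 1)) x / x) =
        (PS f a b x - ∑ i ∈ range m, f (t i) * PS (fun _ => 1) (t i) (t (i + 1)) x) / x := by
      rw [sub_div, sum_div]
      congr 1
      exact sum_congr rfl fun i _ => by ring
    rw [h3, abs_div, abs_of_pos hx0, div_le_iff₀ hx0]
    refine hA.trans ?_
    have h4 : PS (fun _ => 1) a b x ≤ (b - a + 1) * x := by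
      rw [← div_le_iff₀ hx0]
      linarith
    calc e * PS (fun _ => 1) a b x ≤ e * ((b - a + 1) * x) :=
          mul_le_mul_of_nonneg_left h4 he0.le
      _ = e * (b - a + 1) * x := by ring
  have hB : |∑ i ∈ range m, f (t i) * (PS (fun _ => 1) (t i) (t (i + 1)) x / x) -
      ∑ i ∈ range m, f (t i) * (t (i + 1) - t i)| < ε / 4 := by
    rw [← sum_sub_distrib]
    refine (abs_sum_le_sum_abs _ _).trans_lt (lt_of_le_of_lt (sum_le_sum fun i _ => ?_) h1)
    rw [← mul_sub, abs_mul]
  have he1 : e * (b - a + 1) = ε / 4 := by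
    rw [he]
    field_simp
  have he2 : e * (b - a) ≤ ε / 4 := by
    rw [← he1]
    exact mul_le_mul_of_nonneg_left (by linarith) he0.le
  rw [Real.dist_eq]
  rw [abs_le] at hA' hI
  rw [abs_lt] at hB ⊢
  constructor <;> linarith [hA'.1, hA'.2, hI.1, hI.2, hB.1, hB.2]

/-- Lower bound for a weighted sum of valuations: `v p` is at least `x * f (p / x) - C` for all primes
`p0 < p ≤ B x` outside the finite set `S`, and not very negative for the primes up to `p0`. -/
theorem gain {f : ℝ → ℝ} {B C K ε : ℝ} (hB : 0 ≤ B) (hC : 0 ≤ C) (hK : 0 ≤ K)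
    (hf : ContinuousOn f (Set.Icc 0 B)) (hε : 0 < ε) (S : Finset ℕ) (p0 : ℕ) :
    ∃ X0 : ℝ, ∀ x : ℝ, X0 ≤ x → ∀ v : ℕ → ℝ,
      (∀ p : ℕ, p.Prime → p ∉ S → p0 < p → (p : ℝ) ≤ B * x → x * f (p / x) - C ≤ v p) →
      (∀ p : ℕ, p.Prime → p ∉ S → p ≤ p0 → -(K * x * Real.log x) ≤ v p) →
      x ^ 2 * ((∫ t in (0 : ℝ)..B, f t) - ε) ≤
        ∑ p ∈ (Ioc 0 ⌊B * x⌋₊).filter (fun p => p.Prime ∧ p ∉ S), v p * Real.log p := by
  obtain ⟨M, hM⟩ := (isCompact_Icc.image_of_continuousOn hf).isBounded.exists_norm_le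
  have hM' : ∀ t, 0 ≤ t → t ≤ B → |f t| ≤ M := fun t h1 h2 =>
    hM _ (Set.mem_image_of_mem f ⟨h1, h2⟩)
  have hM0 : 0 ≤ M := (abs_nonneg _).trans (hM' 0 le_rfl hB)
  set T : Finset ℕ := S ∪ range (p0 + 1) with hT
  set A : ℝ := ∑ p ∈ T, Real.log p with hA
  have hlog : ∀ p : ℕ, 0 ≤ Real.log (p : ℝ) := fun p => Real.log_natCast_nonneg p
  have hA0 : 0 ≤ A := sum_nonneg fun p _ => hlog p
  -- the limits
  have h1 := PS_tendsto le_rfl hB hf
  have h2 : Tendsto (fun x : ℝ => PS f 0 B x / x - C * (Chebyshev.theta (B * x) / x) * x⁻¹ -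
      (M * x⁻¹ + K * (Real.log x / x)) * A) atTop (𝓝 ((∫ t in (0 : ℝ)..B, f t) -
        C * B * 0 - (M * 0 + K * 0) * A)) := by
    have hl : Tendsto (fun x : ℝ => Real.log x / x) atTop (𝓝 0) :=
      Real.isLittleO_log_id_atTop.tendsto_div_nhds_zero
    exact (h1.sub (((theta_scale hB).const_mul C).mul tendsto_inv_atTop_zero)).sub
      (((tendsto_inv_atTop_zero.const_mul M).add (hl.const_mul K)).mul_const A)
  rw [mul_zero, sub_zero, mul_zero, mul_zero, add_zero, zero_mul, sub_zero] at h2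
  have h3 := h2.eventually_const_lt (show (∫ t in (0 : ℝ)..B, f t) - ε < ∫ t in (0 : ℝ)..B, f t by
    linarith)
  obtain ⟨X0, hX0⟩ := eventually_atTop.1 (h3.and (eventually_ge_atTop 1))
  refine ⟨X0, fun x hx v hv1 hv2 => ?_⟩
  obtain ⟨h4, hx1⟩ := hX0 x hx
  have hx0 : (0 : ℝ) < x := one_pos.trans_le hx1
  have hlx : 0 ≤ Real.log x := Real.log_nonneg hx1
  set I : Finset ℕ := Ioc 0 ⌊B * x⌋₊ with hI
  have hpB : ∀ p ∈ I, (p : ℝ) ≤ B * x := fun p hp =>
    (Nat.le_floor_iff (mul_nonneg hB hx0.le)).1 (mem_Ioc.1 hp).2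
  have hPS : ∀ g : ℝ → ℝ, PS g 0 B x = ∑ p ∈ I.filter Nat.Prime, g (p / x) * Real.log p := by
    intro g
    unfold PS
    rw [zero_mul, Nat.floor_zero]
  have hth : Chebyshev.theta (B * x) = ∑ p ∈ I.filter Nat.Prime, Real.log p := by
    have := PS_one (a := 0) hB hx0.le
    rw [hPS, zero_mul] at this
    simp only [one_mul] at this
    rw [this]
    simp [Chebyshev.theta]
  -- pointwise bound
  have hpt : ∀ p ∈ I.filter Nat.Prime,
      x * (f (p / x) * Real.log p) - C * Real.log p -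
        (if p ∈ T then (x * M + K * x * Real.log x) * Real.log p else 0) ≤
      (if p ∉ S then v p * Real.log p else 0) := by
    intro p hp
    obtain ⟨hpI, hpp⟩ := mem_filter.1 hp
    have hfp : |f (p / x)| ≤ M := hM' _ (by positivity) (by
      rw [div_le_iff₀ hx0]
      exact hpB p hpI)
    have hfp2 : f (p / x) * Real.log p ≤ M * Real.log p :=
      mul_le_mul_of_nonneg_right ((abs_le.1 hfp).2) (hlog p)
    have hfp3 : x * (f (p / x) * Real.log p) ≤ x * (M * Real.log p) :=
      mul_le_mul_of_nonneg_left hfp2 hx0.le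
    have hCl : 0 ≤ C * Real.log p := mul_nonneg hC (hlog p)
    have hKl : 0 ≤ K * x * Real.log x * Real.log p :=
      mul_nonneg (mul_nonneg (mul_nonneg hK hx0.le) hlx) (hlog p)
    by_cases hpS : p ∈ S
    · have hpT : p ∈ T := mem_union_left _ hpS
      rw [if_pos hpT, if_neg (not_not.2 hpS)]
      nlinarith
    · rw [if_pos hpS]
      by_cases hpT : p ∈ T
      · rw [if_pos hpT]
        have hp0 : p ≤ p0 := by
          rcases mem_union.1 hpT with h | h
          · exact absurd h hpS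
          · exact Nat.lt_succ_iff.1 (mem_range.1 h)
        have h5 := mul_le_mul_of_nonneg_right (hv2 p hpp hpS hp0) (hlog p)
        nlinarith
      · rw [if_neg hpT]
        have hp0 : p0 < p := by
          by_contra h
          exact hpT (mem_union_right _ (mem_range.2 (by omega)))
        have h5 := mul_le_mul_of_nonneg_right (hv1 p hpp hpS hp0 (hpB p hpI)) (hlog p)
        nlinarith
  have hsum := sum_le_sum hpt
  rw [sum_sub_distrib, sum_sub_distrib, ← mul_sum, ← hPS, ← mul_sum, ← hth] at hsum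
  have hT2 : ∑ p ∈ I.filter Nat.Prime,
      (if p ∈ T then (x * M + K * x * Real.log x) * Real.log p else 0) ≤
      (x * M + K * x * Real.log x) * A := by
    rw [← sum_filter, hA, mul_sum]
    refine sum_le_sum_of_subset_of_nonneg (fun p hp => (mem_filter.1 hp).2) fun p _ _ => ?_
    have : 0 ≤ x * M + K * x * Real.log x := by positivity
    exact mul_nonneg this (hlog p)
  have hR : ∑ p ∈ I.filter Nat.Prime, (if p ∉ S then v p * Real.log p else 0) =
      ∑ p ∈ I.filter (fun p => p.Prime ∧ p ∉ S), v p * Real.log p := by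
    rw [← sum_filter, filter_filter]
  rw [hR] at hsum
  have h6 : x ^ 2 * ((∫ t in (0 : ℝ)..B, f t) - ε) ≤ x ^ 2 * (PS f 0 B x / x -
      C * (Chebyshev.theta (B * x) / x) * x⁻¹ - (M * x⁻¹ + K * (Real.log x / x)) * A) :=
    mul_le_mul_of_nonneg_left h4.le (by positivity)
  have h7 : x ^ 2 * (PS f 0 B x / x - C * (Chebyshev.theta (B * x) / x) * x⁻¹ -
      (M * x⁻¹ + K * (Real.log x / x)) * A) =
      x * PS f 0 B x - C * Chebyshev.theta (B * x) - (x * M + K * x * Real.log x) * A := by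
    field_simp
  linarith

end B10
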