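import Pool.Agent.Lib.B10.Z2Bd
import Pool.Agent.Lib.B10.RedOne

/-!
# Base 10: the prime 2
-/

set_option autoImplicit false

namespace B10.Z2

open Finset

/-- the letters of a chain -/
def Cl (κ : Fin 3) : Finset (Fin 12) := {bL κ, cL κ, o1 κ, o2 κ}

/-! ### the prices -/

noncomputable def la (m : ℕ) : Fam → ℝ
  | Sum.inl false => 270 / 11 * m
  | Sum.inl true => 160 / 11 * m
  | Sum.inr 0 => 28 / 11 * m
  | Sum.inr 1 => 53 / 11 * m
  | Sum.inr 2 => 138 / 11 * m

noncomputable def la' (m : ℕ) : Fam → ℝ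
  | Sum.inl false => 78 / 11 * m
  | Sum.inl true => 188 / 11 * m
  | Sum.inr 0 => 0
  | Sum.inr 1 => 53 / 11 * m
  | Sum.inr 2 => 0

noncomputable def la'' (m : ℕ) : Fam → ℝ
  | Sum.inl _ => 4 * m
  | Sum.inr _ => 0

theorem all_fam {P : Fam → Prop} (h0 : P (Sum.inl false)) (h1 : P (Sum.inl true))
    (h2 : P (Sum.inr 0)) (h3 : P (Sum.inr 1)) (h4 : P (Sum.inr 2)) : ∀ s, P s := by
  rintro ((_ | _) | s)
  · exact h0
  · exact h1
  · fin_cases s
    · exact h2
    · exact h3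
    · exact h4

theorem sum_fam_real (g : Fam → ℝ) : ∑ s, g s =
    g (Sum.inl false) + g (Sum.inl true) + (g (Sum.inr 0) + g (Sum.inr 1) + g (Sum.inr 2)) := by
  rw [Fintype.sum_sum_type, Fintype.sum_bool, Fin.sum_univ_three]
  ring

theorem sum_range_real (n : ℕ) : ∑ i ∈ range n, (i : ℝ) = n * (n - 1) / 2 := by
  induction n with
  | zero => simp
  | succ n ih =>
    rw [sum_range_succ, ih]
    push_cast
    ring

theorem sum_lin (n : ℕ) (a b : ℝ) : ∑ i ∈ range n, (a * (i : ℝ) - b) =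
    a * (n * (n - 1) / 2) - n * b := by
  rw [sum_sub_distrib, ← mul_sum, sum_range_real, sum_const, card_range, nsmul_eq_mul]

theorem LL_eq (κ : Fin 3) : LL (bL κ) = 30 ∧ LL (cL κ) = 21 ∧ LL (o1 κ) = 4 ∧ LL (o2 κ) = 4 := by
  revert κ
  decide

theorem RC_Cl {m c : ℕ} (x : Col m → Row m c) (κ : Fin 3) :
    RC x (Cl κ) = RC x {bL κ} ∪ (RC x {cL κ} ∪ RC x {o1 κ, o2 κ}) := by
  ext r
  simp only [mem_union, mem_RC, Cl, mem_insert, mem_singleton]
  tauto

/-- **One chain.** -/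
theorem red_chain {m c : ℕ} (x : Col m → Row m c) (κ : Fin 3)
    (M : Matrix (Col m) (Col m) ℚ_[2]) (hM : ∀ r ∈ RC x (Cl κ), M r = Mp 2 x r) :
    Red (2 * ((30 * m + 1 : ℕ) : ℝ)) M (RC x (Cl κ))
      (x2 * (∑ r ∈ RC x {bL κ}, ((((x r).2 : ℕ) : ℝ) - 270 / 11 * m) +
        ∑ r ∈ RC x {cL κ}, (2 * (((x r).2 : ℕ) : ℝ) - 348 / 11 * m) +
        ∑ r ∈ RC x {o1 κ, o2 κ}, (3 * (((x r).2 : ℕ) : ℝ) - 392 / 11 * m)) +
      x2 * (7693 / 11 * m ^ 2 + 3 * ((RC x (Cl κ)).card : ℝ) / 2) +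
      3 * (RC x (Cl κ)).card * Real.log (2 * ((30 * m + 1 : ℕ) : ℝ))) := by
  classical
  set L : ℕ := 30 * m + 1 with hL
  have hL4 : 4 * m ≤ L := by omega
  have hL1 : 1 ≤ L := by omega
  have hLr : (1 : ℝ) ≤ L := by exact_mod_cast hL1
  have hm0 : (0 : ℝ) ≤ m := Nat.cast_nonneg m
  obtain ⟨d1, d2, d3, d4, d5, d6⟩ := distinct κ
  obtain ⟨l1, l2, l3, l4⟩ := LL_eq κ
  -- the rows
  have hb : ∀ r ∈ RC x {bL κ}, (x r).1 = bL κ := fun r hr => by
    have := (mem_RC.mp hr).1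
    rwa [mem_singleton] at this
  have hc : ∀ r ∈ RC x {cL κ}, (x r).1 = cL κ := fun r hr => by
    have := (mem_RC.mp hr).1
    rwa [mem_singleton] at this
  have ho : ∀ r ∈ RC x {o1 κ, o2 κ}, (x r).1 = o1 κ ∨ (x r).1 = o2 κ := fun r hr => by
    have := (mem_RC.mp hr).1
    rwa [mem_insert, mem_singleton] at this
  have hob : ∀ r ∈ RC x {o1 κ, o2 κ}, (x r).1 ≠ bL κ ∧ (x r).1 ≠ cL κ := fun r hr => by
    rcases ho r hr with h | h <;> rw [h]
    · exact ⟨d2.symm, d4.symm⟩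
    · exact ⟨d3.symm, d5.symm⟩
  -- the matrix
  have hMe : ∀ r ∈ RC x (Cl κ), ∀ j, M r j = PowerSeries.coeff ((x r).2 : ℕ)
      (rowK ℚ_[2] m (bL κ) (x r).1 j) := by
    intro r hr j
    rw [hM r hr, Mp, Matrix.of_apply]
    refine coord_entry m c (x r) ?_ j
    have h1 : mem κ (x r).1 := by
      have := (mem_RC.mp hr).1
      simp only [Cl, mem_insert, mem_singleton] at this
      exact this
    intro h0
    exact al_odd κ _ h1 (h0 ▸ dvd_zero _)
  have hsub : RC x (Cl κ) = RC x {bL κ} ∪ (RC x {cL κ} ∪ RC x {o1 κ, o2 κ}) := RC_Cl x κ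
  -- the degree
  set D : ℕ := (∑ s : Fam, ∑ j, ((ee m L κ s j).natDegree + (ff m L κ s j).natDegree)) + 1
    with hD
  have : NeZero D := ⟨by omega⟩
  have hdeg : ∀ s j, (ee m L κ s j).natDegree + (ff m L κ s j).natDegree < D := by
    intro s j
    have h1 : (ee m L κ s j).natDegree + (ff m L κ s j).natDegree ≤
        ∑ j, ((ee m L κ s j).natDegree + (ff m L κ s j).natDegree) :=
      single_le_sum (f := fun j => (ee m L κ s j).natDegree + (ff m L κ s j).natDegree)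
        (fun j _ => Nat.zero_le _) (mem_univ j)
    have h2 : ∑ j, ((ee m L κ s j).natDegree + (ff m L κ s j).natDegree) ≤
        ∑ s : Fam, ∑ j, ((ee m L κ s j).natDegree + (ff m L κ s j).natDegree) :=
      single_le_sum (f := fun s : Fam => ∑ j, ((ee m L κ s j).natDegree +
        (ff m L κ s j).natDegree)) (fun j _ => Nat.zero_le _) (mem_univ s)
    omega
  have h := red_typeZ M (RC x {bL κ}) (RC x {cL κ}) (RC x {o1 κ, o2 κ})
    (disjoint_left.mpr fun r h1 h2 => d1 ((hb r h1).symm.trans (hc r h2)))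
    (disjoint_left.mpr fun r h1 h2 => (hob r h2).1 (hb r h1))
    (disjoint_left.mpr fun r h1 h2 => (hob r h2).2 (hc r h1))
    (fun r => ((x r).2 : ℕ)) L D x2 (2 * L) x2_pos.le (by linarith) (ee m L κ) (ff m L κ)
    (norm_ee_le hL4 hL1) (fun s j => lt_of_le_of_lt (Nat.le_add_right _ _) (hdeg s j))
    (fun s j => lt_of_le_of_lt (Nat.le_add_left _ _) (hdeg s j)) (Psi m L κ)
    (fun s hs => by
      rcases s with (_ | _) | s
      · rfl
      · exact absurd rfl hs
      · rfl)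
    (fun j => rfl) 2 (ta κ : ℚ_[2]) norm_two (norm_ta κ).le (12 * m) (norm_Psi_le hL4)
    (fun r => if (x r).1 = bL κ then cb m L κ else if (x r).1 = cL κ then cc m L κ
      else co' m κ (x r).1)
    (fun r => if (x r).1 = cL κ then th κ 1 (cL κ) else th κ 2 (x r).1) (wb m) (wc m) (wo m)
    (fun r hr j => by
      rw [hMe r (by rw [hsub]; exact mem_union_left _ hr) j, if_pos (hb r hr)]
      have h1 : ∀ z, z = bL κ → rowK ℚ_[2] m (bL κ) z j = ∑ s, cb m L κ s *
          Polynomial.aeval (PowerSeries.X : PowerSeries ℚ_[2]) (ee m L κ s j) := by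
        rintro _ rfl
        exact row_b j
      rw [h1 _ (hb r hr)])
    (fun r hr s => by
      simp only [if_pos (hb r hr)]
      exact bd_cb hL4 hL1 s)
    (fun r hr j => by
      have hne : (x r).1 ≠ bL κ := by
        rw [hc r hr]
        exact d1.symm
      rw [hMe r (by rw [hsub]; exact mem_union_right _ (mem_union_left _ hr)) j, if_neg hne,
        if_pos (hc r hr), if_pos (hc r hr)]
      have h1 : ∀ z, z = cL κ → rowK ℚ_[2] m (bL κ) z j = ∑ s, cc m L κ s *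
          Polynomial.aeval (th κ 1 (cL κ)) ((ff m L κ s j).comp
            (Polynomial.C (ta κ : ℚ_[2]) + Polynomial.C (2 : ℚ_[2]) * Polynomial.X)) := by
        rintro _ rfl
        exact row_c j
      rw [h1 _ (hc r hr)])
    (fun r hr s => by
      simp only [hc r hr, if_neg d1.symm, if_true]
      exact bd_cc hL4 hL1 s)
    (fun r hr => by
      simp only [hc r hr, if_true]
      have := bd_th (mem_c κ) (k := 1) L (dvd_c κ)
      norm_num at this
      exact this)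
    (fun r hr j => by
      have hlt : ((x r).2 : ℕ) < 4 * m := by
        have h1 := (mem_RC.mp hr).2
        have h2 : ∀ z, z = o1 κ ∨ z = o2 κ → LL z = 4 := by
          rintro z (rfl | rfl)
          · exact l3
          · exact l4
        exact h1.trans_eq (by rw [h2 _ (ho r hr)])
      rw [hMe r (by rw [hsub]; exact mem_union_right _ (mem_union_right _ hr)) j,
        row_o (L := L) (ho r hr) j hlt]
      rw [if_neg (hob r hr).1, if_neg (hob r hr).2, if_neg (hob r hr).2])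
    (fun r hr s => by
      simp only [if_neg (hob r hr).1, if_neg (hob r hr).2]
      exact bd_co hL4 hL1 (ho r hr) s)
    (fun r hr => by
      simp only [if_neg (hob r hr).2]
      have := bd_th (mem_o (ho r hr)) (k := 2) L (dvd_o (ho r hr))
      norm_num at this
      exact this)
    (fun r hr => by
      rw [← hsub] at hr
      have h1 := mem_RC.mp hr
      have h2 : LL (x r).1 ≤ 30 := by
        generalize (x r).1 = z
        revert z
        decide
      nlinarith [h1.2])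
    (la m) (la' m) (la'' m) (la m) (270 / 11 * m) (348 / 11 * m) (392 / 11 * m)
    (fun s _ => le_rfl) le_rfl (by simp only [la]; linarith)
    (all_fam (by simp only [wb, la]; linarith) (by simp only [wb, la]; linarith)
      (by simp only [wb, la]; linarith) (by simp only [wb, la]; linarith)
      (by simp only [wb, la]; linarith))
    (all_fam (by simp only [wc, la, la']; linarith) (by simp only [wc, la, la']; linarith)
      (by simp only [wc, la, la']; linarith) (by simp only [wc, la, la']; linarith)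
      (by simp only [wc, la, la']; linarith))
    (all_fam (by simp only [wo, la, la', la'']; linarith) (by simp only [wo, la, la', la'']; linarith)
      (by simp only [wo, la, la', la'']; linarith) (by simp only [wo, la, la', la'']; linarith)
      (by simp only [wo, la, la', la'']; linarith))
  rw [← hsub] at h
  refine h.mono (le_of_eq ?_)
  rw [sum_fam_real, sum_fam_real, sum_fam_real]
  simp only [la, la', la'']
  ring

/-- **One chain**, with the sums. -/
theorem chain_cost (c : ℕ) : ∃ K : ℝ, 0 ≤ K ∧ ∀ (m : ℕ) (x : Col m → Row m c),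
    Function.Injective x → ∀ (κ : Fin 3) (M : Matrix (Col m) (Col m) ℚ_[2]),
      (∀ r ∈ RC x (Cl κ), M r = Mp 2 x r) →
      Red 1 M (RC x (Cl κ)) (x2 * (-522 / 11 * m ^ 2 + K * m * Real.log (m + 2))) := by
  refine ⟨2400 * c + 60000, by positivity, fun m x hx κ M hM => ?_⟩
  obtain ⟨d1, d2, d3, d4, d5, d6⟩ := distinct κ
  obtain ⟨l1, l2, l3, l4⟩ := LL_eq κ
  have hm0 : (0 : ℝ) ≤ m := Nat.cast_nonneg m
  have hc0 : (0 : ℝ) ≤ c := Nat.cast_nonneg c
  have hx0 := x2_pos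
  have hx1 : (1 / 2 : ℝ) ≤ x2 := by
    have := Real.log_two_gt_d9
    rw [x2]
    linarith
  set lg : ℝ := Real.log (m + 2) with hlg
  have hlg1 : x2 ≤ lg := by
    rw [x2, hlg]
    exact Real.log_le_log (by norm_num) (by linarith)
  have hlg2 : (1 / 2 : ℝ) ≤ lg := hx1.trans hlg1
  -- the sums
  have s1 : ∑ r ∈ RC x {bL κ}, ((((x r).2 : ℕ) : ℝ) - 270 / 11 * m) ≤
      450 * m ^ 2 - 8100 / 11 * m ^ 2 + 12 * c * (25 * m) := by
    have h := sum_RC_le x hx {bL κ} (fun _ i => 1 * (i : ℝ) - 270 / 11 * m) (25 * m)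
      (by positivity) (fun z _ i _ => by
        have : (0 : ℝ) ≤ i := Nat.cast_nonneg i
        linarith)
    rw [sum_singleton, sum_lin, l1] at h
    simp only [one_mul] at h
    push_cast at h
    nlinarith
  have s2 : ∑ r ∈ RC x {cL κ}, (2 * (((x r).2 : ℕ) : ℝ) - 348 / 11 * m) ≤
      441 * m ^ 2 - 7308 / 11 * m ^ 2 + 12 * c * (36 * m) := by
    have h := sum_RC_le x hx {cL κ} (fun _ i => 2 * (i : ℝ) - 348 / 11 * m) (36 * m)
      (by positivity) (fun z _ i _ => by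
        have : (0 : ℝ) ≤ i := Nat.cast_nonneg i
        linarith)
    rw [sum_singleton, sum_lin, l2] at h
    push_cast at h
    nlinarith
  have s3 : ∑ r ∈ RC x {o1 κ, o2 κ}, (3 * (((x r).2 : ℕ) : ℝ) - 392 / 11 * m) ≤
      48 * m ^ 2 - 3136 / 11 * m ^ 2 + 12 * c * (36 * m) := by
    have h := sum_RC_le x hx {o1 κ, o2 κ} (fun _ i => 3 * (i : ℝ) - 392 / 11 * m) (36 * m)
      (by positivity) (fun z _ i _ => by
        have : (0 : ℝ) ≤ i := Nat.cast_nonneg i
        linarith)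
    rw [sum_insert (by simpa using d6), sum_singleton, sum_lin, sum_lin, l3, l4] at h
    push_cast at h
    nlinarith
  -- the number of the rows
  have hcard : ((RC x (Cl κ)).card : ℝ) ≤ 59 * m := by
    have h1 := card_RC_le x hx (Cl κ)
    have h2 : ∑ z ∈ Cl κ, LL z = 59 := by
      clear h1 s1 s2 s3 hM M l1 l2 l3 l4 d1 d2 d3 d4 d5 d6
      revert κ
      decide
    rw [h2] at h1
    exact_mod_cast h1
  have hcard0 : (0 : ℝ) ≤ ((RC x (Cl κ)).card : ℝ) := Nat.cast_nonneg _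
  -- the logarithm of the bound
  set lB : ℝ := Real.log (2 * ((30 * m + 1 : ℕ) : ℝ)) with hlB
  have hB1 : (1 : ℝ) ≤ 2 * ((30 * m + 1 : ℕ) : ℝ) := by
    push_cast
    linarith
  have hlB0 : 0 ≤ lB := Real.log_nonneg hB1
  have hlB1 : lB ≤ 121 * lg := by
    have h1 : 2 * ((30 * m + 1 : ℕ) : ℝ) ≤ 60 * (m + 2) := by
      push_cast
      linarith
    have h2 : lB ≤ Real.log 60 + lg := by
      rw [hlB, hlg, ← Real.log_mul (by norm_num) (by positivity)]
      exact Real.log_le_log (by linarith) h1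
    have h3 : Real.log 60 ≤ 60 - 1 := Real.log_le_sub_one_of_pos (by norm_num)
    linarith
  have hred := (red_chain x κ M hM).to_one_padic hB1
  refine hred.mono ?_
  rw [← hlB]
  have hl2 : Real.log ((2 : ℕ) : ℝ) = x2 := by
    rw [x2]
    norm_num
  rw [hl2]
  have hmlg : (m : ℝ) ≤ 2 * (m * lg) := by nlinarith
  have hmlg0 : (0 : ℝ) ≤ m * lg := by positivity
  -- the terms with the number of rows
  have t1 : ((RC x (Cl κ)).card : ℝ) * lB ≤ 59 * m * (121 * lg) :=
    mul_le_mul hcard hlB1 hlB0 (by positivity)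
  have t2 : ((RC x (Cl κ)).card : ℝ) * x2 ≤ 59 * m * x2 :=
    mul_le_mul_of_nonneg_right hcard hx0.le
  have t3 : x2 * (∑ r ∈ RC x {bL κ}, ((((x r).2 : ℕ) : ℝ) - 270 / 11 * m) +
      ∑ r ∈ RC x {cL κ}, (2 * (((x r).2 : ℕ) : ℝ) - 348 / 11 * m) +
      ∑ r ∈ RC x {o1 κ, o2 κ}, (3 * (((x r).2 : ℕ) : ℝ) - 392 / 11 * m)) ≤
      x2 * ((450 * m ^ 2 - 8100 / 11 * m ^ 2 + 12 * c * (25 * m)) +
        (441 * m ^ 2 - 7308 / 11 * m ^ 2 + 12 * c * (36 * m)) +
        (48 * m ^ 2 - 3136 / 11 * m ^ 2 + 12 * c * (36 * m))) :=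
    mul_le_mul_of_nonneg_left (by linarith) hx0.le
  have t4 : x2 * (7693 / 11 * m ^ 2 + 3 * ((RC x (Cl κ)).card : ℝ) / 2) ≤
      x2 * (7693 / 11 * m ^ 2 + 3 * (59 * m) / 2) :=
    mul_le_mul_of_nonneg_left (by linarith) hx0.le
  have t5 : 4 * (59 * m * (121 * lg)) ≤ x2 * (8 * (59 * m * (121 * lg))) := by
    have : (0 : ℝ) ≤ 59 * m * (121 * lg) := by positivity
    nlinarith
  have t6 : x2 * (12 * c * (97 * m) + 3 * (59 * m) / 2 + 59 * m + 8 * (59 * m * (121 * lg))) ≤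
      x2 * ((2400 * c + 60000) * (m * lg)) := by
    refine mul_le_mul_of_nonneg_left ?_ hx0.le
    have h1 : (12 * c * 97 + 3 * 59 / 2 + 59) * (m : ℝ) ≤
        (12 * c * 97 + 3 * 59 / 2 + 59) * (2 * (m * lg)) :=
      mul_le_mul_of_nonneg_left hmlg (by positivity)
    have h2 : (0 : ℝ) ≤ c * (m * lg) := by positivity
    nlinarith
  calc _ = x2 * (∑ r ∈ RC x {bL κ}, ((((x r).2 : ℕ) : ℝ) - 270 / 11 * m) +
      ∑ r ∈ RC x {cL κ}, (2 * (((x r).2 : ℕ) : ℝ) - 348 / 11 * m) +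
      ∑ r ∈ RC x {o1 κ, o2 κ}, (3 * (((x r).2 : ℕ) : ℝ) - 392 / 11 * m)) +
      x2 * (7693 / 11 * m ^ 2 + 3 * ((RC x (Cl κ)).card : ℝ) / 2) +
      4 * (((RC x (Cl κ)).card : ℝ) * lB) + ((RC x (Cl κ)).card : ℝ) * x2 := by ring
    _ ≤ x2 * ((450 * m ^ 2 - 8100 / 11 * m ^ 2 + 12 * c * (25 * m)) +
        (441 * m ^ 2 - 7308 / 11 * m ^ 2 + 12 * c * (36 * m)) +
        (48 * m ^ 2 - 3136 / 11 * m ^ 2 + 12 * c * (36 * m))) +
      x2 * (7693 / 11 * m ^ 2 + 3 * (59 * m) / 2) + x2 * (8 * (59 * m * (121 * lg))) +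
      59 * m * x2 := by linarith
    _ = x2 * (-522 / 11 * m ^ 2) + x2 * (12 * c * (97 * m) + 3 * (59 * m) / 2 + 59 * m +
        8 * (59 * m * (121 * lg))) := by ring
    _ ≤ x2 * (-522 / 11 * m ^ 2) + x2 * ((2400 * c + 60000) * (m * lg)) := by linarith
    _ = _ := by ring

theorem Cl_disj {κ κ' : Fin 3} (h : κ ≠ κ') : Disjoint (Cl κ) (Cl κ') := by
  revert κ κ'
  decide

theorem Cl_cover (z : Fin 12) : z ∈ Cl 0 ∨ z ∈ Cl 1 ∨ z ∈ Cl 2 := by
  revert z
  decide

end B10.Z2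

namespace B10

open Finset Z2

/-- **THE PRIME 2.** -/
theorem final2 (c : ℕ) : ∃ C : ℝ, 0 ≤ C ∧ ∀ (m : ℕ) (x : Col m → Row m c),
    Function.Injective x → ‖((Dx x : ℚ) : ℚ_[2])‖ ≤
      Real.exp ((-1566 / 11 * m ^ 2 + C * m * Real.log (m + 2)) * Real.log 2) := by
  obtain ⟨K, hK, hch⟩ := chain_cost c
  obtain ⟨C, hC, hfin⟩ := final_le (p := 2) c
  have hl2 : (1 / 2 : ℝ) ≤ Real.log 2 := by
    have := Real.log_two_gt_d9
    linarith
  refine ⟨3 * K + 2 * C, by positivity, fun m x hx => ?_⟩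
  have hdis : ∀ κ κ' : Fin 3, κ ≠ κ' → ∀ r ∈ RC x (Cl κ), r ∉ RC x (Cl κ') := by
    intro κ κ' h r h1 h2
    exact disjoint_left.mp (Cl_disj h) (mem_RC.mp h1).1 (mem_RC.mp h2).1
  have r0 := hch m x hx 0 (Mp 2 x) (fun r _ => rfl)
  have r1 : Red 1 (Mp 2 x) (RC x (Cl 0) ∪ RC x (Cl 1)) _ := r0.union (fun M' h' =>
    hch m x hx 1 M' (fun r hr => h' r (hdis 1 0 (by decide) r hr)))
  have r2 : Red 1 (Mp 2 x) (RC x (Cl 0) ∪ RC x (Cl 1) ∪ RC x (Cl 2)) _ := r1.union (fun M' h' =>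
    hch m x hx 2 M' (fun r hr => h' r (fun h => by
      rcases mem_union.mp h with h | h
      · exact hdis 2 0 (by decide) r hr h
      · exact hdis 2 1 (by decide) r hr h)))
  refine (hfin m x hx _ _ r2 (fun r hr => Or.inr ?_)).trans (Real.exp_le_exp.mpr ?_)
  · by_contra hlt
    rw [not_le] at hlt
    apply hr
    rcases Cl_cover (x r).1 with h | h | h
    · exact mem_union_left _ (mem_union_left _ (mem_RC.mpr ⟨h, hlt⟩))
    · exact mem_union_left _ (mem_union_right _ (mem_RC.mpr ⟨h, hlt⟩))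
    · exact mem_union_right _ (mem_RC.mpr ⟨h, hlt⟩)
  · have hm0 : (0 : ℝ) ≤ m := Nat.cast_nonneg m
    have hlg : 0 ≤ Real.log ((m : ℝ) + 2) := Real.log_nonneg (by linarith)
    have h1 : C * m * Real.log (m + 2) ≤ 2 * C * m * Real.log (m + 2) * Real.log 2 := by
      have : (0 : ℝ) ≤ C * m * Real.log (m + 2) := by positivity
      nlinarith
    rw [x2]
    nlinarith

end B10
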