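import Pool.Agent.Lib.B10.DiscA

/-!
# Base 10, S-adic block: the prime 3

`red_discB`: a disc of germ letters, all families honest. `final3`: the bound at `3`,
`411.4 = 3 * 352 / 3 + 59.4`.
-/

set_option autoImplicit false

namespace B10

open Finset Matrix

section discB

variable {p : ℕ} [Fact p.Prime]

/-- the letters of the disc `Cs` -/
structure DiscBOk (p : ℕ) (b : Fin 12) (Cs : Finset (Fin 12)) : Prop where
  mem : b ∈ Cs
  dv : ∀ z ∈ Cs, ∀ a ∈ Cs, (p : ℤ) ∣ br (lt z) (lt a)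
  sq : ∀ z ∈ Cs, ∀ a, a ≠ z → ¬ (p : ℤ) ^ 2 ∣ br (lt z) (lt a)

/-- the fixed factor at a letter of the disc -/
theorem Bd_aeval_FK {b : Fin 12} {Cs : Finset (Fin 12)} (hd : DiscBOk p b Cs) {z : Fin 12}
    (hz : z ∈ Cs) (m L : ℕ) :
    Bd (Real.log p) (Real.exp (-(Real.log p * ((∑ a ∈ Cs, FF a : ℕ) * m)))) L
      (Polynomial.aeval (tK ℚ_[p] b z) (FK ℚ_[p] m b)) := by
  classical
  have hp1 : (1 : ℝ) < p := by exact_mod_cast (Fact.out : p.Prime).one_lt
  have hx : 0 ≤ Real.log p := Real.log_nonneg hp1.le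
  have hα1 : ‖(cα b z : ℚ_[p])‖ = 1 := norm_cα (hd.dv b hd.mem z hz)
  have hα : (cα b z : ℚ_[p]) ≠ 0 := by
    intro h
    rw [h, norm_zero] at hα1
    exact zero_ne_one hα1
  set xi : PowerSeries ℚ_[p] := xinv (cα b z : ℚ_[p]) (cα' b z : ℚ_[p]) with hxi
  have hxx : xK ℚ_[p] b z * xi = 1 := sx_mul_xinv hα
  have hxib : Bd (Real.log p) 1 L xi := bd_xinv hx hα1 (norm_le_one_of_int _)
  have h1 : Polynomial.aeval (tK ℚ_[p] b z) (FK ℚ_[p] m b) =
      ∏ a, (sx (br (lt z) (lt a) : ℚ_[p]) (br (tv z) (lt a) : ℚ_[p]) * xi) ^ (FF a * m) := by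
    rw [FK, map_prod]
    refine Finset.prod_congr rfl fun a _ => ?_
    rw [map_pow, map_add, map_mul, Polynomial.aeval_C, Polynomial.aeval_C, Polynomial.aeval_X]
    congr 1
    rw [← tK_lin ℚ_[p] b z a hα, mul_comm (xK ℚ_[p] b z), mul_assoc, hxx, mul_one]
    rfl
  set e : Fin 12 → ℝ := fun a => if a ∈ Cs then ((FF a * m : ℕ) : ℝ) else 0 with he
  have h2 : Bd (Real.log p) (∏ a, Real.exp (-(Real.log p * e a))) L
      (∏ a, (sx (br (lt z) (lt a) : ℚ_[p]) (br (tv z) (lt a) : ℚ_[p]) * xi) ^ (FF a * m)) := by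
    refine Bd.prod _ _ _ fun a _ => ?_
    have h0 : Bd (Real.log p) 1 L (xi ^ (FF a * m)) := by
      have := hxib.pow (FF a * m)
      rwa [one_pow] at this
    rw [mul_pow]
    by_cases ha : a ∈ Cs
    · simp only [he, if_pos ha]
      have h3 := (bd_sx_exp_pow (x := Real.log p) (L := L) (norm_br_le (hd.dv z hz a ha))
        (norm_le_one_of_int (p := p) (br (tv z) (lt a))) (FF a * m)).mul h0
      rwa [mul_one] at h3
    · simp only [he, if_neg ha, mul_zero, neg_zero, Real.exp_zero]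
      have h3 := (bd_sx_pow (x := Real.log p) (L := L) hx
        (norm_le_one_of_int (p := p) (br (lt z) (lt a)))
        (norm_le_one_of_int (p := p) (br (tv z) (lt a))) (FF a * m)).mul h0
      rwa [one_mul] at h3
  rw [h1]
  refine h2.mono (le_of_eq ?_)
  rw [← Real.exp_sum, Finset.sum_neg_distrib, ← Finset.mul_sum]
  congr 3
  rw [Finset.sum_ite_mem, Finset.univ_inter]
  push_cast
  rw [Finset.sum_mul]

theorem Bd_EK {z : Fin 12} (h : ∀ a, a ≠ z → ¬ (p : ℤ) ^ 2 ∣ br (lt z) (lt a)) (u : Fin 3) (L : ℕ) :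
    Bd (Real.log p) L L (EK ℚ_[p] u z) := by
  rw [EK]
  refine Bd.sum _ _ (Nat.cast_nonneg L) fun a ha => ?_
  have hne := (Finset.mem_erase.mp ha).1
  have h2 : Bd (Real.log p) (L : ℝ) L
      (Lg ((br (tv z) (lt a) : ℚ_[p]) / (br (lt z) (lt a) : ℚ_[p]))) :=
    bd_Lg (by
      have h3 := norm_inv_intCast_le (p := p) (k := 1) (h a hne)
      rw [Nat.cast_one, one_mul] at h3
      rw [div_eq_mul_inv, norm_mul]
      calc _ ≤ 1 * Real.exp (Real.log p) :=
            mul_le_mul (norm_le_one_of_int _) h3 (norm_nonneg _) zero_le_one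
        _ = Real.exp (Real.log p) := one_mul _)
  refine (Bd.C_mul (B := 1) ?_ h2).mono (by rw [one_mul])
  rw [norm_mul]
  exact mul_le_one₀ (norm_le_one_of_int _) (norm_nonneg _) (norm_le_one_of_int _)

theorem red_discB {b : Fin 12} {Cs : Finset (Fin 12)} (hd : DiscBOk p b Cs) {m c : ℕ}
    (x : Col m → Row m c) (M : Matrix (Col m) (Col m) ℚ_[p])
    (hM : ∀ r ∈ RC x Cs, ∀ j, M r j = algebraMap ℚ ℚ_[p] (Mx m c (x r) j))
    (lam B : ℝ) (hB : ((30 * m + c : ℕ) : ℝ) + 1 ≤ B) :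
    Red 1 M (RC x Cs) (Real.log p * ∑ r ∈ RC x Cs, ((((x r).2 : ℕ) : ℝ) - lam) +
      Real.log p * ((2 * lam ^ 2 + 3 * (lam - (∑ a ∈ Cs, FF a : ℕ) * m) ^ 2) / 2 +
        ((RC x Cs).card : ℝ) / 2) + (RC x Cs).card * Real.log B) := by
  classical
  have hp1 : (1 : ℝ) < p := by exact_mod_cast (Fact.out : p.Prime).one_lt
  have hx : 0 ≤ Real.log p := Real.log_nonneg hp1.le
  set L : ℕ := 30 * m + c with hL
  have hL0 : (0 : ℝ) ≤ L := Nat.cast_nonneg L
  have hLB : (L : ℝ) ≤ B := by linarith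
  have hB1 : 1 ≤ B := by linarith
  have hz : ∀ r ∈ RC x Cs, (x r).1 ∈ Cs := fun r hr => (mem_RC.mp hr).1
  have hβ : ∀ r ∈ RC x Cs, (p : ℤ) ∣ br (lt b) (lt (x r).1) := fun r hr =>
    hd.dv b hd.mem _ (hz r hr)
  have hcα : ∀ r ∈ RC x Cs, cα b (x r).1 ≠ 0 := by
    intro r hr h0
    have h1 := norm_cα (hβ r hr)
    rw [h0, Int.cast_zero, norm_zero] at h1
    exact zero_ne_one h1
  have h := red_typeB (K := ℚ_[p]) (U := Fin 3) M (RC x Cs) (fun r => ((x r).2 : ℕ)) L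
    (57 * m + 1) (Real.log p) B hx hB1 (GK ℚ_[p] m b) (HK ℚ_[p] m b) (qK ℚ_[p] m b)
    (norm_coeff_GK m b) (norm_coeff_HK m b) (norm_coeff_qK m b)
    (fun j => by have := natDegree_GK_le ℚ_[p] m b j; omega)
    (fun j => by have := natDegree_HK_le ℚ_[p] m b j; omega)
    (fun u j => by have := natDegree_qK_le ℚ_[p] m b u j; omega)
    (fun r => xK ℚ_[p] b (x r).1 ^ (57 * m - 1)) (fun r => (cα b (x r).1 : ℚ_[p]))
    (fun r => (cβ b (x r).1 : ℚ_[p])) (fun r => tK ℚ_[p] b (x r).1)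
    (fun r u => Polynomial.aeval (tK ℚ_[p] b (x r).1) (FK ℚ_[p] m b) * EK ℚ_[p] u (x r).1)
    (by
      intro r hr j
      have e : ∑ u, Polynomial.aeval (tK ℚ_[p] b (x r).1) (FK ℚ_[p] m b) * EK ℚ_[p] u (x r).1 *
          Polynomial.aeval (tK ℚ_[p] b (x r).1) (qK ℚ_[p] m b u j) =
          Polynomial.aeval (tK ℚ_[p] b (x r).1) (FK ℚ_[p] m b) * ∑ u, EK ℚ_[p] u (x r).1 *
          Polynomial.aeval (tK ℚ_[p] b (x r).1) (qK ℚ_[p] m b u j) := by
        rw [Finset.mul_sum]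
        exact Finset.sum_congr rfl fun u _ => mul_assoc _ _ _
      rw [hM r hr j, coord_entry m c (b := b) (x r) (hcα r hr), rowK, e])
    (by
      intro r hr
      have h1 := (mem_RC.mp hr).2
      have h2 : LL (x r).1 * m ≤ 30 * m := by
        refine Nat.mul_le_mul_right m ?_
        generalize (x r).1 = z
        revert z
        decide
      show ((x r).2 : ℕ) < L
      omega)
    (fun r _ => bd_sx_pow hx (norm_le_one_of_int _) (norm_le_one_of_int _) _)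
    (fun r _ => norm_le_one_of_int _) (fun r _ => norm_le_one_of_int _)
    (fun r hr => bd_st hx (norm_cα (hβ r hr)) (norm_le_one_of_int _) (norm_br_le (hβ r hr))
        (norm_le_one_of_int _))
    ((∑ a ∈ Cs, FF a : ℕ) * m)
    (by
      intro r hr u
      have h1 := (Bd_aeval_FK hd (hz r hr) m L).mul (Bd_EK (hd.sq _ (hz r hr)) u L)
      refine h1.mono ?_
      rw [mul_comm]
      exact mul_le_mul_of_nonneg_right hLB (Real.exp_pos _).le)
    lam
  refine h.mono (le_of_eq ?_)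
  rw [Fintype.card_fin]
  push_cast
  ring

/-- The disc `Cs` with the sum of the orders. -/
theorem red_discB_le {b : Fin 12} {Cs : Finset (Fin 12)} (hd : DiscBOk p b Cs) (c : ℕ) {lam : ℝ}
    (hlam : 0 ≤ lam) : ∃ C : ℝ, 0 ≤ C ∧ ∀ (m : ℕ) (x : Col m → Row m c), Function.Injective x →
      ∀ M : Matrix (Col m) (Col m) ℚ_[p],
      (∀ r ∈ RC x Cs, ∀ j, M r j = algebraMap ℚ ℚ_[p] (Mx m c (x r) j)) →
      Red 1 M (RC x Cs) (Real.log p * ((∑ z ∈ Cs, ((LL z : ℝ) ^ 2 / 2 - LL z * lam) +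
        (2 * lam ^ 2 + 3 * (lam - (∑ a ∈ Cs, FF a : ℕ)) ^ 2) / 2) * (m : ℝ) ^ 2) +
          C * m * Real.log (m + 2)) := by
  classical
  have hp1 : (1 : ℝ) < p := by exact_mod_cast (Fact.out : p.Prime).one_lt
  have hx : 0 ≤ Real.log p := Real.log_nonneg hp1.le
  set s : ℝ := ((∑ z ∈ Cs, LL z : ℕ) : ℝ) with hs
  have hs0 : 0 ≤ s := Nat.cast_nonneg _
  have hc0 : (0 : ℝ) ≤ c := Nat.cast_nonneg c
  have hlg : 0 ≤ Real.log ((30 : ℝ) + (c + 1)) := Real.log_nonneg (by linarith)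
  refine ⟨2 * (Real.log p * (12 * c * lam) + Real.log p * (s / 2)) +
    (s * (1 + 2 * Real.log ((30 : ℝ) + (c + 1)))), by positivity, fun m x hx' M hM => ?_⟩
  have hm : (0 : ℝ) ≤ m := Nat.cast_nonneg m
  set B : ℝ := ((30 * m + c : ℕ) : ℝ) + 1 with hB
  have hB1 : 1 ≤ B := by
    have : (0 : ℝ) ≤ ((30 * m + c : ℕ) : ℝ) := Nat.cast_nonneg _
    linarith
  have h1 := red_discB hd x M hM (lam * m) B le_rfl
  refine h1.mono ?_
  have hcard : ((RC x Cs).card : ℝ) ≤ s * m := by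
    have h2 := card_RC_le x hx' Cs
    calc ((RC x Cs).card : ℝ) ≤ (((∑ z ∈ Cs, LL z) * m : ℕ) : ℝ) := by exact_mod_cast h2
      _ = s * m := by rw [hs, Nat.cast_mul]
  have hsum : ∑ r ∈ RC x Cs, ((((x r).2 : ℕ) : ℝ) - lam * m) ≤
      (∑ z ∈ Cs, ((LL z : ℝ) ^ 2 / 2 - LL z * lam)) * (m : ℝ) ^ 2 + 12 * c * (lam * m) := by
    have h2 := sum_RC_le x hx' Cs (fun _ i => (i : ℝ) - lam * m) (lam * m) (by positivity) (by
      intro z _ i _
      have h3 : (0 : ℝ) ≤ i := Nat.cast_nonneg i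
      linarith)
    have h3 : ∑ z ∈ Cs, ∑ i ∈ Finset.range (LL z * m), ((i : ℝ) - lam * m) ≤
        (∑ z ∈ Cs, ((LL z : ℝ) ^ 2 / 2 - LL z * lam)) * (m : ℝ) ^ 2 := by
      rw [Finset.sum_mul]
      refine Finset.sum_le_sum fun z _ => ?_
      rw [Finset.sum_sub_distrib, Finset.sum_const, Finset.card_range, nsmul_eq_mul]
      have := sum_range_id_le (LL z * m)
      push_cast at this ⊢
      nlinarith
    linarith
  have hlog : Real.log B ≤ (1 + 2 * Real.log ((30 : ℝ) + (c + 1))) * Real.log (m + 2) := by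
    have h2 := log_lin_le (30 : ℝ) ((c : ℝ) + 1) (by norm_num) (by linarith) m
    have h3 : B = (30 : ℝ) * m + ((c : ℝ) + 1) := by
      rw [hB]
      push_cast
      ring
    rwa [h3]
  have hlB : 0 ≤ Real.log B := Real.log_nonneg hB1
  have hl2 : (1 : ℝ) ≤ 2 * Real.log (m + 2) := by
    have h1 : Real.log 2 ≤ Real.log (m + 2) := Real.log_le_log (by norm_num) (by linarith)
    have h2 := Real.log_two_gt_d9
    linarith
  have h5 : ((RC x Cs).card : ℝ) * Real.log B ≤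
      s * m * ((1 + 2 * Real.log ((30 : ℝ) + (c + 1))) * Real.log (m + 2)) :=
    mul_le_mul hcard hlog hlB (by positivity)
  have h7 : Real.log p * ∑ r ∈ RC x Cs, ((((x r).2 : ℕ) : ℝ) - lam * m) ≤ Real.log p *
      ((∑ z ∈ Cs, ((LL z : ℝ) ^ 2 / 2 - LL z * lam)) * (m : ℝ) ^ 2 + 12 * c * (lam * m)) :=
    mul_le_mul_of_nonneg_left hsum hx
  have h8 : Real.log p * (12 * c * (lam * m)) + Real.log p * (s * m / 2) ≤
      (Real.log p * (12 * c * lam) + Real.log p * (s / 2)) * m * (2 * Real.log (m + 2)) := by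
    refine le_trans (le_of_eq ?_) (le_mul_of_one_le_right (by positivity) hl2)
    ring
  have h9 : Real.log p * (((RC x Cs).card : ℝ) / 2) ≤ Real.log p * (s * m / 2) :=
    mul_le_mul_of_nonneg_left (by linarith) hx
  nlinarith [h5, h7, h8, h9]

end discB

instance fact3 : Fact (Nat.Prime 3) := ⟨Nat.prime_three⟩

private theorem Inst3_A0 : DiscAOk 3 0 10 11 := by
  constructor <;> decide

private theorem Inst3_A1 : DiscAOk 3 1 6 7 := by
  constructor <;> decide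

private theorem Inst3_A2 : DiscAOk 3 2 8 9 := by
  constructor <;> decide

private theorem Inst3_B : DiscBOk 3 3 {3, 4, 5} := by
  constructor <;> decide

/-- **The prime 3.** -/
theorem final3 (c : ℕ) : ∃ C : ℝ, 0 ≤ C ∧ ∀ (m : ℕ) (x : Col m → Row m c),
    Function.Injective x → ‖((Dx x : ℚ) : ℚ_[3])‖ ≤
      Real.exp ((2057 / 5 * m ^ 2 + C * m * Real.log (m + 2)) * Real.log 3) := by
  classical
  obtain ⟨C₀, hC₀, hfin⟩ := final_le (p := 3) c
  have hl3 : 0 < Real.log 3 := Real.log_pos (by norm_num)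
  obtain ⟨C1, hC1, h1⟩ := red_discA_le Inst3_A0 c (lam := 50 / 3) (mu := 8) (by norm_num)
    (by norm_num)
  obtain ⟨C2, hC2, h2⟩ := red_discA_le Inst3_A1 c (lam := 50 / 3) (mu := 8) (by norm_num)
    (by norm_num)
  obtain ⟨C3, hC3, h3⟩ := red_discA_le Inst3_A2 c (lam := 50 / 3) (mu := 8) (by norm_num)
    (by norm_num)
  obtain ⟨C4, hC4, h4⟩ := red_discB_le Inst3_B c (lam := 81 / 5) (by norm_num)
  refine ⟨(C₀ + (C1 + C2 + C3 + C4)) / Real.log 3, by positivity, fun m x hx => ?_⟩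
  set A0 : Finset (Fin 12) := {0, 10, 11} with hA0
  set A1 : Finset (Fin 12) := {1, 6, 7} with hA1
  set A2 : Finset (Fin 12) := {2, 8, 9} with hA2
  set B : Finset (Fin 12) := {3, 4, 5} with hB
  have hM : ∀ r j, Mp 3 x r j = algebraMap ℚ ℚ_[3] (Mx m c (x r) j) := fun _ _ => rfl
  have d01 : ∀ r ∈ RC x A1, r ∉ RC x A0 := by
    intro r hr hr'
    rw [mem_RC] at hr hr'
    exact (by decide : ∀ z ∈ ({1, 6, 7} : Finset (Fin 12)), z ∉ ({0, 10, 11} : Finset (Fin 12))) _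
      hr.1 hr'.1
  have d2 : ∀ r ∈ RC x A2, r ∉ RC x A0 ∪ RC x A1 := by
    intro r hr hr'
    rw [mem_union, mem_RC, mem_RC] at hr'
    rw [mem_RC] at hr
    rcases hr' with hr' | hr'
    · exact (by decide : ∀ z ∈ ({2, 8, 9} : Finset (Fin 12)),
        z ∉ ({0, 10, 11} : Finset (Fin 12))) _ hr.1 hr'.1
    · exact (by decide : ∀ z ∈ ({2, 8, 9} : Finset (Fin 12)),
        z ∉ ({1, 6, 7} : Finset (Fin 12))) _ hr.1 hr'.1
  have d3 : ∀ r ∈ RC x B, r ∉ RC x A0 ∪ RC x A1 ∪ RC x A2 := by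
    intro r hr hr'
    rw [mem_union, mem_union, mem_RC, mem_RC, mem_RC] at hr'
    rw [mem_RC] at hr
    rcases hr' with (hr' | hr') | hr'
    · exact (by decide : ∀ z ∈ ({3, 4, 5} : Finset (Fin 12)),
        z ∉ ({0, 10, 11} : Finset (Fin 12))) _ hr.1 hr'.1
    · exact (by decide : ∀ z ∈ ({3, 4, 5} : Finset (Fin 12)),
        z ∉ ({1, 6, 7} : Finset (Fin 12))) _ hr.1 hr'.1
    · exact (by decide : ∀ z ∈ ({3, 4, 5} : Finset (Fin 12)),
        z ∉ ({2, 8, 9} : Finset (Fin 12))) _ hr.1 hr'.1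
  have hR := ((((h1 m x hx (Mp 3 x) (fun r _ j => hM r j))).union (R' := RC x A1)
    (fun M' hM' => h2 m x hx M' (fun r hr j => by rw [hM' r (d01 r hr), hM]))).union
      (R' := RC x A2) (fun M' hM' => h3 m x hx M' (fun r hr j => by
        rw [hM' r (d2 r hr), hM]))).union (R' := RC x B)
      (fun M' hM' => h4 m x hx M' (fun r hr j => by rw [hM' r (d3 r hr), hM]))
  have hf := hfin m x hx _ _ hR (fun r hr => by
    right
    by_contra hcon
    rw [not_le] at hcon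
    apply hr
    simp only [mem_union, mem_RC]
    have h5 : ∀ z : Fin 12, ((z ∈ ({0, 10, 11} : Finset (Fin 12)) ∨
        z ∈ ({1, 6, 7} : Finset (Fin 12))) ∨ z ∈ ({2, 8, 9} : Finset (Fin 12))) ∨
        z ∈ ({3, 4, 5} : Finset (Fin 12)) := by decide
    rcases h5 (x r).1 with ((h6 | h6) | h6) | h6
    · exact Or.inl (Or.inl (Or.inl ⟨h6, hcon⟩))
    · exact Or.inl (Or.inl (Or.inr ⟨h6, hcon⟩))
    · exact Or.inl (Or.inr ⟨h6, hcon⟩)
    · exact Or.inr ⟨h6, hcon⟩)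
  refine hf.trans (Real.exp_le_exp.mpr (le_of_eq ?_))
  have l0 : LL 0 = 30 := by decide
  have l1 : LL 1 = 30 := by decide
  have l2 : LL 2 = 30 := by decide
  have e0 : ((LL 0 : ℕ) : ℝ) = 30 := by rw [l0]; norm_num
  have e1 : ((LL 1 : ℕ) : ℝ) = 30 := by rw [l1]; norm_num
  have e2 : ((LL 2 : ℕ) : ℝ) = 30 := by rw [l2]; norm_num
  have e3 : (∑ z ∈ ({3, 4, 5} : Finset (Fin 12)), ((LL z : ℝ) ^ 2 / 2 - LL z * (81 / 5))) =
      -3591 / 10 := by
    have l3 : LL 3 = 21 := by decide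
    have l4 : LL 4 = 21 := by decide
    have l5 : LL 5 = 21 := by decide
    rw [Finset.sum_insert (by decide), Finset.sum_insert (by decide), Finset.sum_singleton, l3, l4,
      l5]
    norm_num
  have e4 : ((∑ a ∈ ({3, 4, 5} : Finset (Fin 12)), FF a : ℕ) : ℝ) = 6 := by
    have : ∑ a ∈ ({3, 4, 5} : Finset (Fin 12)), FF a = 6 := by decide
    rw [this]
    norm_num
  rw [e0, e1, e2, e3, e4]
  push_cast
  field_simp
  ring

end B10
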