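import Pool.Agent.Lib.B10.DiscA

/-!
# Base 10, S-adic block: the prime `5`

Three discs with one germ letter and two outer letters: `{1/2, -2, 3}`, `{2, -1/2, 1/3}`,
`{-1, 2/3, 3/2}`. `final5`: the minors at the prime `5`.
-/

set_option autoImplicit false

namespace B10

open Finset Matrix

private local instance Inst5_fact : Fact (Nat.Prime 5) := ⟨by norm_num⟩

private theorem Inst5_d1 : DiscAOk 5 5 6 10 where
  ne := by decide
  ab := by decide
  ab' := by decide
  fb := by decide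
  fa := by decide
  fa' := by decide
  ha := by decide
  ha' := by decide
  ha2 := by decide
  ha2' := by decide
  out := by decide

private theorem Inst5_d2 : DiscAOk 5 4 7 8 where
  ne := by decide
  ab := by decide
  ab' := by decide
  fb := by decide
  fa := by decide
  fa' := by decide
  ha := by decide
  ha' := by decide
  ha2 := by decide
  ha2' := by decide
  out := by decide

private theorem Inst5_d3 : DiscAOk 5 3 9 11 where
  ne := by decide
  ab := by decide
  ab' := by decide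
  fb := by decide
  fa := by decide
  fa' := by decide
  ha := by decide
  ha' := by decide
  ha2 := by decide
  ha2' := by decide
  out := by decide

/-- **The prime 5.** -/
theorem final5 (c : ℕ) : ∃ C : ℝ, 0 ≤ C ∧ ∀ (m : ℕ) (x : Col m → Row m c),
    Function.Injective x → ‖((Dx x : ℚ) : ℚ_[5])‖ ≤
      Real.exp ((73 * m ^ 2 + C * m * Real.log (m + 2)) * Real.log 5) := by
  classical
  obtain ⟨C₀, hC₀, hfin⟩ := final_le (p := 5) c
  obtain ⟨C₁, hC₁, h1⟩ := red_discA_le Inst5_d1 c (lam := 41 / 3) (mu := 8) (by norm_num)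
    (by norm_num)
  obtain ⟨C₂, hC₂, h2⟩ := red_discA_le Inst5_d2 c (lam := 41 / 3) (mu := 8) (by norm_num)
    (by norm_num)
  obtain ⟨C₃, hC₃, h3⟩ := red_discA_le Inst5_d3 c (lam := 41 / 3) (mu := 8) (by norm_num)
    (by norm_num)
  have hl5 : 0 < Real.log 5 := Real.log_pos (by norm_num)
  have e1 : (LL 5 : ℝ) = 21 := by
    have : LL 5 = 21 := by decide
    rw [this]
    norm_num
  have e2 : (LL 4 : ℝ) = 21 := by
    have : LL 4 = 21 := by decide
    rw [this]
    norm_num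
  have e3 : (LL 3 : ℝ) = 21 := by
    have : LL 3 = 21 := by decide
    rw [this]
    norm_num
  rw [e1] at h1
  rw [e2] at h2
  rw [e3] at h3
  refine ⟨(C₁ + C₂ + C₃ + C₀) / Real.log 5, by positivity, fun m x hx => ?_⟩
  have hcov : ∀ z : Fin 12, z ∉ ({5, 6, 10} : Finset (Fin 12)) → z ∉ ({4, 7, 8} : Finset (Fin 12)) →
      z ∉ ({3, 9, 11} : Finset (Fin 12)) → ∀ a, a ≠ z → ¬ ((5 : ℕ) : ℤ) ∣ br (lt z) (lt a) := by
    decide
  have hd12 : ∀ z : Fin 12, z ∈ ({4, 7, 8} : Finset (Fin 12)) →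
      z ∉ ({5, 6, 10} : Finset (Fin 12)) := by decide
  have hd13 : ∀ z : Fin 12, z ∈ ({3, 9, 11} : Finset (Fin 12)) →
      z ∉ ({5, 6, 10} : Finset (Fin 12)) := by decide
  have hd23 : ∀ z : Fin 12, z ∈ ({3, 9, 11} : Finset (Fin 12)) →
      z ∉ ({4, 7, 8} : Finset (Fin 12)) := by decide
  have hRC : ∀ {A B : Finset (Fin 12)}, (∀ z ∈ B, z ∉ A) → ∀ r ∈ RC x B, r ∉ RC x A := by
    intro A B h r hr hr'
    exact h _ (mem_RC.mp hr).1 (mem_RC.mp hr').1
  have r1 := h1 m x hx (Mp 5 x) (fun r _ j => rfl)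
  have r2 := fun (M' : Matrix (Col m) (Col m) ℚ_[5])
      (hM' : ∀ r ∉ RC x {5, 6, 10}, M' r = Mp 5 x r) =>
    h2 m x hx M' (fun r hr j => by rw [hM' r (hRC hd12 r hr)]; rfl)
  have r3 := fun (M' : Matrix (Col m) (Col m) ℚ_[5])
      (hM' : ∀ r ∉ RC x {5, 6, 10} ∪ RC x {4, 7, 8}, M' r = Mp 5 x r) =>
    h3 m x hx M' (fun r hr j => by
      rw [hM' r (by
        rw [mem_union, not_or]
        exact ⟨hRC hd13 r hr, hRC hd23 r hr⟩)]
      rfl)
  have h4 := hfin m x hx _ _ ((r1.union r2).union r3) (fun r hr => by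
    rw [mem_union, mem_union, not_or, not_or, mem_RC, mem_RC, mem_RC] at hr
    by_cases h5 : LL (x r).1 * m ≤ ((x r).2 : ℕ)
    · exact Or.inr h5
    · exact Or.inl (hcov _ (fun h => hr.1.1 ⟨h, not_le.mp h5⟩)
        (fun h => hr.1.2 ⟨h, not_le.mp h5⟩) (fun h => hr.2 ⟨h, not_le.mp h5⟩)))
  refine h4.trans (Real.exp_le_exp.mpr (le_of_eq ?_))
  have e5 : (((5 : ℕ) : ℝ)) = 5 := by norm_num
  rw [e5]
  field_simp
  ring

end B10
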