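import Pool.Agent.Lib.B10.SRows
import Pool.Agent.Lib.B10.Coord

/-!
# Base 10, S-adic block: discs of outer letters, and the prime `7`

`inst_O`: discs without logarithms (the logarithm columns vanish in the rows `(z, i)`,
`i < FF z * m`). `final7`: the minors at the prime `7`.
-/

set_option autoImplicit false

namespace B10

open Finset Matrix

section coeffs

variable {K : Type*} [NormedField K]

private theorem Inst7_lf (z : Fin 12) : (PowerSeries.X : PowerSeries ℚ) ∣ lf z z := by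
  have h : br (lt z) (lt z) = 0 := by
    rw [br]
    ring
  rw [lf, h, Int.cast_zero, map_zero, zero_add]
  exact Dvd.intro_left _ rfl

/-- The logarithm columns vanish in the rows of order `< FF z * m`. -/
theorem gm_inr_coeff {m : ℕ} (z : Fin 12) (j : Fin 3 × Fin (21 * m)) {i : ℕ}
    (hi : i < FF z * m) : PowerSeries.coeff i (gm m z (Sum.inr j)) = 0 := by
  obtain ⟨u, j⟩ := j
  have h1 : (PowerSeries.X : PowerSeries ℚ) ^ (FF z * m) ∣ Fs m z :=
    (pow_dvd_pow_of_dvd (Inst7_lf z) _).trans (dvd_prod_of_mem _ (mem_univ z))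
  have h2 : (PowerSeries.X : PowerSeries ℚ) ^ (FF z * m) ∣ gm m z (Sum.inr (u, j)) := by
    rw [gm]
    exact (h1.mul_right _).mul_right _
  exact PowerSeries.X_pow_dvd_iff.mp h2 i hi

private noncomputable def Inst7_mz (b : Fin 12) (j k : ℕ) : Polynomial ℤ :=
  (Polynomial.C (lt b 0) + Polynomial.C (tv b 0) * Polynomial.X) ^ j *
    (Polynomial.C (lt b 1) + Polynomial.C (tv b 1) * Polynomial.X) ^ k

private theorem Inst7_mono (b : Fin 12) (j k : ℕ) :
    monoK K b j k = (Inst7_mz b j k).map (Int.castRingHom K) := by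
  rw [monoK, Inst7_mz]
  simp

private theorem Inst7_norm {p : ℕ} [Fact p.Prime] (P : Polynomial ℤ) (k : ℕ) :
    ‖(P.map (Int.castRingHom ℚ_[p])).coeff k‖ ≤ 1 := by
  rw [Polynomial.coeff_map]
  exact Padic.norm_int_le_one _

theorem norm_GK {p : ℕ} [Fact p.Prime] (m : ℕ) (b : Fin 12) (j : Col m) (k : ℕ) :
    ‖(GK ℚ_[p] m b j).coeff k‖ ≤ 1 := by
  rcases j with ⟨e, j⟩ | j
  · have h : GK ℚ_[p] m b (Sum.inl (e, j)) =
        (Polynomial.C (lt b e) * Inst7_mz b j (57 * m - 1 - j)).map (Int.castRingHom ℚ_[p]) := by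
      rw [GK, Inst7_mono]
      simp
    rw [h]
    exact Inst7_norm _ k
  · rw [GK, Polynomial.coeff_zero, norm_zero]
    exact zero_le_one

theorem norm_HK {p : ℕ} [Fact p.Prime] (m : ℕ) (b : Fin 12) (j : Col m) (k : ℕ) :
    ‖(HK ℚ_[p] m b j).coeff k‖ ≤ 1 := by
  rcases j with ⟨e, j⟩ | j
  · have h : HK ℚ_[p] m b (Sum.inl (e, j)) =
        (Polynomial.C (tv b e) * Inst7_mz b j (57 * m - 1 - j)).map (Int.castRingHom ℚ_[p]) := by
      rw [HK, Inst7_mono]
      simp
    rw [h]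
    exact Inst7_norm _ k
  · rw [HK, Polynomial.coeff_zero, norm_zero]
    exact zero_le_one

private theorem Inst7_deg (b : Fin 12) {n j : ℕ} (hj : j ≤ n) :
    (monoK K b j (n - j)).natDegree ≤ n := natDegree_forms_le hj

theorem natDegree_GK {m : ℕ} (hm : 0 < m) (b : Fin 12) (j : Col m) :
    (GK K m b j).natDegree < 57 * m := by
  rcases j with ⟨e, j⟩ | j
  · rw [GK]
    have h1 := Inst7_deg (K := K) b (n := 57 * m - 1) (j := j) (by omega)
    have h2 := Polynomial.natDegree_C_mul_le (lt b e : K) (monoK K b j (57 * m - 1 - j))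
    omega
  · rw [GK, Polynomial.natDegree_zero]
    omega

theorem natDegree_HK {m : ℕ} (hm : 0 < m) (b : Fin 12) (j : Col m) :
    (HK K m b j).natDegree < 57 * m := by
  rcases j with ⟨e, j⟩ | j
  · rw [HK]
    have h1 := Inst7_deg (K := K) b (n := 57 * m - 1) (j := j) (by omega)
    have h2 := Polynomial.natDegree_C_mul_le (tv b e : K) (monoK K b j (57 * m - 1 - j))
    omega
  · rw [HK, Polynomial.natDegree_zero]
    omega

end coeffs

/-- **A disc of outer letters** (no logarithms). -/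
theorem inst_O {p : ℕ} [Fact p.Prime] {m c : ℕ} (hm : 0 < m) (b : Fin 12)
    (Cs : Finset (Fin 12)) (h1 : ∀ z ∈ Cs, (p : ℤ) ∣ cβ b z)
    (h2 : ∀ z ∈ Cs, ¬ (p : ℤ) ∣ cα b z) (h3 : ∀ z ∈ Cs, LL z = FF z)
    (x : Col m → Row m c) (lam : ℝ) (M : Matrix (Col m) (Col m) ℚ_[p])
    (hM : ∀ r ∈ RC x Cs, M r = Mp p x r) :
    Red 1 M (RC x Cs) (Real.log p * ∑ r ∈ RC x Cs, (((x r).2 : ℕ) - lam) +
      Real.log p * (lam ^ 2 + ((RC x Cs).card : ℝ) / 2)) := by
  have hp1 : (1 : ℝ) ≤ p := by exact_mod_cast (Fact.out : p.Prime).one_le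
  have hx : 0 ≤ Real.log p := Real.log_nonneg hp1
  have hne : ∀ z ∈ Cs, cα b z ≠ 0 := fun z hz h => h2 z hz (by rw [h]; exact dvd_zero _)
  have : NeZero (57 * m) := ⟨by omega⟩
  have h := red_typeB (U := Empty) M (RC x Cs) (fun r => ((x r).2 : ℕ)) (57 * m + 30 * m + c)
    (57 * m) (Real.log p) 1 hx le_rfl (GK ℚ_[p] m b) (HK ℚ_[p] m b) (fun u => u.elim)
    (norm_GK m b) (norm_HK m b) (fun u => u.elim) (natDegree_GK hm b) (natDegree_HK hm b)
    (fun u => u.elim) (fun r => xK ℚ_[p] b (x r).1 ^ (57 * m - 1))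
    (fun r => (cα b (x r).1 : ℚ_[p])) (fun r => (cβ b (x r).1 : ℚ_[p]))
    (fun r => tK ℚ_[p] b (x r).1) (fun _ u => u.elim) ?_ ?_ ?_ ?_ ?_ ?_ 0 (fun _ _ u => u.elim)
    lam
  · refine h.mono (le_of_eq ?_)
    rw [Fintype.card_empty, Real.log_one]
    push_cast
    ring
  · intro r hr j
    have hr' := mem_RC.mp hr
    rw [hM r hr, Mp, Matrix.of_apply]
    simp only [univ_eq_empty, sum_empty, add_zero]
    rcases j with j | j
    · rw [coord_entry m c (x r) (hne _ hr'.1), rowK]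
      obtain ⟨e, j⟩ := j
      simp only [qK, map_zero, mul_zero, sum_const_zero, add_zero]
    · have h4 : Mx m c (x r) (Sum.inr j) = 0 := by
        rw [Mx, Matrix.of_apply]
        exact gm_inr_coeff _ _ (by rw [← h3 _ hr'.1]; exact hr'.2)
      rw [h4, map_zero]
      simp only [GK, HK, map_zero, mul_zero, add_zero]
  · intro r hr
    have h5 := (x r).2.2
    have h6 : LL (x r).1 ≤ 30 := by
      generalize (x r).1 = z
      revert z
      decide
    nlinarith
  · intro r hr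
    exact bd_sx_pow hx (Padic.norm_int_le_one _) (Padic.norm_int_le_one _) _
  · exact fun r _ => Padic.norm_int_le_one _
  · exact fun r _ => Padic.norm_int_le_one _
  · intro r hr
    have hr' := mem_RC.mp hr
    refine bd_st hx (norm_intCast_eq_one (h2 _ hr'.1)) (Padic.norm_int_le_one _) ?_
      (Padic.norm_int_le_one _)
    have h7 := norm_intCast_le_exp (p := p) (k := 1) (b := cβ b (x r).1) (by
      rw [pow_one]
      exact h1 _ hr'.1)
    rwa [Nat.cast_one, one_mul] at h7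

private theorem Inst7_gauss (m : ℕ) (lam : ℝ) :
    ∑ i ∈ range (4 * m), ((i : ℝ) - lam) = 4 * m * (4 * m - 1) / 2 - 4 * m * lam := by
  rw [sum_sub_distrib, sum_const, card_range, nsmul_eq_mul]
  have h : ∀ n : ℕ, ∑ i ∈ range n, (i : ℝ) = n * (n - 1) / 2 := by
    intro n
    induction n with
    | zero => simp
    | succ n ih =>
      rw [sum_range_succ, ih]
      push_cast
      ring
  rw [h]
  push_cast
  ring

/-- One triangle of outer letters: the constant. -/
private theorem Inst7_const {m c : ℕ} (Cs : Finset (Fin 12)) (hC : Cs.card = 3)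
    (h4 : ∀ z ∈ Cs, LL z = 4) (x : Col m → Row m c) (hx : Function.Injective x) :
    ∑ r ∈ RC x Cs, ((((x r).2 : ℕ) : ℝ) - 6 * m) + ((6 * m) ^ 2 + ((RC x Cs).card : ℝ) / 2) ≤
      -12 * m ^ 2 + 72 * c * m := by
  have hm0 : (0 : ℝ) ≤ m := Nat.cast_nonneg m
  have h1 := sum_RC_le x hx Cs (fun _ i => (i : ℝ) - 6 * m) (6 * m) (by positivity)
    (fun z _ i _ => by
      have : (0 : ℝ) ≤ i := Nat.cast_nonneg i
      linarith)
  have h2 : ∑ z ∈ Cs, ∑ i ∈ range (LL z * m), ((i : ℝ) - 6 * m) =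
      3 * (4 * m * (4 * m - 1) / 2 - 4 * m * (6 * m)) := by
    rw [sum_congr rfl fun z hz => by rw [h4 z hz, Inst7_gauss], sum_const, hC, nsmul_eq_mul]
    push_cast
    ring
  rw [h2] at h1
  have h3 := card_RC_le x hx Cs
  rw [sum_congr rfl h4, sum_const, hC] at h3
  have h5 : ((RC x Cs).card : ℝ) ≤ 12 * m := by
    have h6 : (RC x Cs).card ≤ 12 * m := by simpa using h3
    exact_mod_cast h6
  have h7 : (12 : ℝ) * c * (6 * m) = 72 * c * m := by ring
  nlinarith

private local instance Inst7_fact : Fact (Nat.Prime 7) := ⟨by norm_num⟩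

/-- **The prime 7.** -/
theorem final7 (c : ℕ) : ∃ C : ℝ, 0 ≤ C ∧ ∀ (m : ℕ) (x : Col m → Row m c),
    Function.Injective x → ‖((Dx x : ℚ) : ℚ_[7])‖ ≤
      Real.exp ((-24 * m ^ 2 + C * m * Real.log (m + 2)) * Real.log 7) := by
  obtain ⟨C₀, hC₀, hfin⟩ := final_le (p := 7) c
  have hl7 : 0 < Real.log 7 := Real.log_pos (by norm_num)
  refine ⟨288 * c + C₀ / Real.log 7, by positivity, fun m x hx => ?_⟩
  rcases Nat.eq_zero_or_pos m with rfl | hm
  · have h1 := hfin 0 x hx ∅ 0 Red.empty (fun r => by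
      rcases r with ⟨_, j⟩ | ⟨_, j⟩
      · exact absurd j.2 (by omega)
      · exact absurd j.2 (by omega))
    simpa using h1
  · have hm1 : (1 : ℝ) ≤ m := by exact_mod_cast hm
    have hlog2 : 1 ≤ 2 * Real.log (m + 2) := by
      have h1 : Real.log 2 ≤ Real.log (m + 2) :=
        Real.log_le_log (by norm_num) (by linarith)
      have h2 := Real.log_two_gt_d9
      linarith
    set A : Finset (Fin 12) := {6, 8, 11} with hA
    set B : Finset (Fin 12) := {10, 7, 9} with hB
    have hdisj : ∀ r ∈ RC x B, r ∉ RC x A := by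
      intro r hr hr'
      rw [mem_RC] at hr hr'
      have h3 : ∀ z : Fin 12, z ∈ B → z ∉ A := by
        rw [hA, hB]
        decide
      exact h3 _ hr.1 hr'.1
    have hRA := inst_O (p := 7) hm 6 A (by rw [hA]; decide) (by rw [hA]; decide)
      (by rw [hA]; decide) x (6 * m) (Mp 7 x) (fun _ _ => rfl)
    have hRB : ∀ M' : Matrix (Col m) (Col m) ℚ_[7], (∀ r ∉ RC x A, M' r = Mp 7 x r) →
        Red 1 M' (RC x B) (Real.log (7 : ℕ) * ∑ r ∈ RC x B, ((((x r).2 : ℕ) : ℝ) - 6 * m) +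
          Real.log (7 : ℕ) * ((6 * m) ^ 2 + ((RC x B).card : ℝ) / 2)) := fun M' hM' =>
      inst_O (p := 7) hm 10 B (by rw [hB]; decide) (by rw [hB]; decide) (by rw [hB]; decide)
        x (6 * m) M' (fun r hr => hM' r (hdisj r hr))
    have h1 := hfin m x hx _ _ (hRA.union hRB) (fun r hr => by
      rw [mem_union, not_or, mem_RC, mem_RC] at hr
      by_cases h4 : LL (x r).1 * m ≤ ((x r).2 : ℕ)
      · exact Or.inr h4
      · left
        have h5 : (x r).1 ∉ A := fun h => hr.1 ⟨h, not_le.mp h4⟩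
        have h6 : (x r).1 ∉ B := fun h => hr.2 ⟨h, not_le.mp h4⟩
        have h7 : ∀ z : Fin 12, z ∉ A → z ∉ B →
            ∀ a, a ≠ z → ¬ ((7 : ℕ) : ℤ) ∣ br (lt z) (lt a) := by
          rw [hA, hB]
          decide
        exact h7 _ h5 h6)
    refine h1.trans (Real.exp_le_exp.mpr ?_)
    have hcA := Inst7_const A (by rw [hA]; decide) (by rw [hA]; decide) x hx
    have hcB := Inst7_const B (by rw [hB]; decide) (by rw [hB]; decide) x hx
    have h8 : (Real.log (7 : ℕ) * ∑ r ∈ RC x A, ((((x r).2 : ℕ) : ℝ) - 6 * m) +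
        Real.log (7 : ℕ) * ((6 * m) ^ 2 + ((RC x A).card : ℝ) / 2)) +
        (Real.log (7 : ℕ) * ∑ r ∈ RC x B, ((((x r).2 : ℕ) : ℝ) - 6 * m) +
        Real.log (7 : ℕ) * ((6 * m) ^ 2 + ((RC x B).card : ℝ) / 2)) ≤
        Real.log 7 * (-24 * m ^ 2 + 144 * c * m) := by
      push_cast
      have h9 := add_le_add hcA hcB
      calc _ = Real.log 7 * ((∑ r ∈ RC x A, ((((x r).2 : ℕ) : ℝ) - 6 * m) +
            ((6 * m) ^ 2 + ((RC x A).card : ℝ) / 2)) +
            (∑ r ∈ RC x B, ((((x r).2 : ℕ) : ℝ) - 6 * m) +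
            ((6 * m) ^ 2 + ((RC x B).card : ℝ) / 2))) := by ring
        _ ≤ Real.log 7 * ((-12 * m ^ 2 + 72 * c * m) + (-12 * m ^ 2 + 72 * c * m)) :=
            mul_le_mul_of_nonneg_left h9 hl7.le
        _ = _ := by ring
    have h10 : (144 * c * m : ℝ) * 1 ≤ 144 * c * m * (2 * Real.log (m + 2)) :=
      mul_le_mul_of_nonneg_left hlog2 (by positivity)
    have h11 : Real.log 7 * (144 * c * m * 1) ≤
        Real.log 7 * (144 * c * m * (2 * Real.log (m + 2))) :=
      mul_le_mul_of_nonneg_left h10 hl7.le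
    have h12 : (-24 * (m : ℝ) ^ 2 + (288 * c + C₀ / Real.log 7) * m * Real.log (m + 2)) *
        Real.log 7 = Real.log 7 * (-24 * m ^ 2) +
          Real.log 7 * (144 * c * m * (2 * Real.log (m + 2))) + C₀ * m * Real.log (m + 2) := by
      field_simp
      ring
    rw [h12]
    linarith

end B10
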