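import Mathlib

/-!
# Certified upper bounds for logarithms of rational numbers, evaluated by the kernel

`lub n d` is a rational number which is at least `log (n / d)`. Only natural numbers and
integers are used in the evaluation (fixed point with denominator `q`, `q = 2 ^ 60`).
-/

namespace B10

/-- fixed point Horner evaluation of the truncated exponential, rounded down -/
def expLow (q a : ℕ) : ℕ → ℕ → ℕ
  | 0, h => h
  | j + 1, h => expLow q a j (q + a * h / ((j + 1) * q))

/-- an (unverified) approximation of `q * log (y)`, `y = n / d` in `[1, 2]` -/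
def logApp (q n d : ℕ) : ℕ :=
  let z := (n - d) * q / (n + d)
  let z2 := z * z / q
  let s := (List.range 16).foldr (fun j acc => q / (2 * j + 1) + z2 * acc / q) 0
  2 * (z * s / q) + 2 ^ 20

/-- the exact real value of the truncated exponential -/
noncomputable def expR (r : ℝ) : ℕ → ℝ → ℝ
  | 0, h => h
  | j + 1, h => expR r j (1 + r * h / (j + 1))

theorem expLow_le (q a : ℕ) (hq : 0 < q) (j : ℕ) : ∀ (h : ℕ) (x : ℝ), (h : ℝ) / q ≤ x →
    ((expLow q a j h : ℕ) : ℝ) / q ≤ expR ((a : ℝ) / q) j x := by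
  have hq' : (0:ℝ) < q := by exact_mod_cast hq
  induction j with
  | zero => intro h x e; exact e
  | succ j ih =>
    intro h x e
    unfold expLow expR
    apply ih
    have h2 : (0:ℝ) < (j:ℝ) + 1 := by positivity
    have h3 : ((a * h / ((j + 1) * q) : ℕ) : ℝ) ≤ (a : ℝ) * h / (((j:ℝ) + 1) * q) := by
      have := @Nat.cast_div_le ℝ _ _ _ (a * h) ((j + 1) * q)
      push_cast at this
      exact this
    push_cast
    have h4 : (a : ℝ) * h / (((j:ℝ) + 1) * q) / q ≤ (a : ℝ) / q * x / ((j : ℝ) + 1) := by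
      have h5 : (a : ℝ) * h / (((j:ℝ) + 1) * q) / q
          = (a : ℝ) / q * ((h : ℝ) / q) / ((j : ℝ) + 1) := by
        field_simp
      rw [h5]
      apply (div_le_div_iff_of_pos_right h2).mpr
      exact mul_le_mul_of_nonneg_left e (by positivity)
    have h6 : ((q:ℝ) + ((a * h / ((j + 1) * q) : ℕ) : ℝ)) / q
        = 1 + ((a * h / ((j + 1) * q) : ℕ) : ℝ) / q := by
      field_simp
    rw [h6]
    have h7 : ((a * h / ((j + 1) * q) : ℕ) : ℝ) / q
        ≤ (a : ℝ) * h / (((j:ℝ) + 1) * q) / q :=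
      (div_le_div_iff_of_pos_right hq').mpr h3
    linarith

theorem expR_le_exp {r : ℝ} (hr : 0 ≤ r) : expR r 15 1 ≤ Real.exp r := by
  have h := Real.sum_le_exp_of_nonneg hr 16
  refine le_trans (le_of_eq ?_) h
  simp only [expR, Finset.sum_range_succ, Finset.sum_range_zero, Nat.factorial]
  push_cast
  ring

/-- numerator and denominator divided by the power of two -/
def sn (n : ℕ) (k : ℤ) : ℕ := n * 2 ^ (-k).toNat
def sd (d : ℕ) (k : ℤ) : ℕ := d * 2 ^ k.toNat

/-- rational bound of `k * log 2` from above -/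
def l2 (k : ℤ) : ℚ := if 0 ≤ k then k * (6931471808 / 10 ^ 10) else k * (6931471803 / 10 ^ 10)

/-- a certified upper bound of `log (n / d)`, with a proposed exponent of two -/
def lubk (q n d : ℕ) (k : ℤ) : ℚ :=
  if sn n k * q ≤ sd d k * expLow q (logApp q (sn n k) (sd d k)) 15 q then
    l2 k + (logApp q (sn n k) (sd d k) : ℚ) / q else n / d

/-- a certified upper bound of `log (n / d)` -/
def lub (n d : ℕ) : ℚ :=
  lubk (2 ^ 60) n d (if sn n ((Nat.log2 n : ℤ) - Nat.log2 d) < sd d ((Nat.log2 n : ℤ) - Nat.log2 d)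
    then (Nat.log2 n : ℤ) - Nat.log2 d - 1 else (Nat.log2 n : ℤ) - Nat.log2 d)

theorem log_le_l2 (k : ℤ) : (k : ℝ) * Real.log 2 ≤ ((l2 k : ℚ) : ℝ) := by
  unfold l2
  have h1 := Real.log_two_gt_d9
  have h2 := Real.log_two_lt_d9
  split_ifs with h
  · have : (0:ℝ) ≤ k := by exact_mod_cast h
    push_cast
    nlinarith
  · have : (k:ℝ) ≤ 0 := by exact_mod_cast (le_of_lt (not_le.mp h))
    push_cast
    nlinarith

theorem zpow_toNat (k : ℤ) : (2:ℝ) ^ k = 2 ^ k.toNat / 2 ^ (-k).toNat := by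
  rcases le_total 0 k with h | h
  · obtain ⟨n, rfl⟩ := Int.eq_ofNat_of_zero_le h
    simp
  · obtain ⟨n, hn⟩ := Int.eq_ofNat_of_zero_le (neg_nonneg.mpr h)
    have : k = -(n:ℤ) := by rw [← hn]; simp
    subst this
    simp

theorem log_le_lubk (q n d : ℕ) (k : ℤ) (hq : 0 < q) (hn : 0 < n) (hd : 0 < d) :
    Real.log ((n : ℝ) / d) ≤ ((lubk q n d k : ℚ) : ℝ) := by
  have hq' : (0:ℝ) < q := by exact_mod_cast hq
  unfold lubk
  split_ifs with h
  · set a := logApp q (sn n k) (sd d k)
    have hd' : (0:ℝ) < sd d k := by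
      unfold sd; exact_mod_cast Nat.mul_pos hd (by positivity)
    have h1 : ((expLow q a 15 q : ℕ) : ℝ) / q ≤ Real.exp ((a:ℝ) / q) :=
      (expLow_le q a hq 15 q 1 (by rw [div_self hq'.ne'])).trans (expR_le_exp (by positivity))
    have h2 : ((sn n k : ℕ) : ℝ) * q ≤ (sd d k : ℕ) * (expLow q a 15 q : ℕ) := by
      exact_mod_cast h
    have h3 : ((sn n k : ℕ) : ℝ) / (sd d k : ℕ) ≤ Real.exp ((a:ℝ) / q) := by
      refine le_trans ?_ h1
      rw [div_le_div_iff₀ hd' hq']
      linarith
    have h4 : (n : ℝ) / d = (2:ℝ) ^ k * (((sn n k : ℕ) : ℝ) / (sd d k : ℕ)) := by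
      rw [zpow_toNat]
      unfold sn sd
      push_cast
      have : (d:ℝ) ≠ 0 := by exact_mod_cast hd.ne'
      field_simp
    have hn' : (0:ℝ) < (sn n k : ℕ) := by
      unfold sn; exact_mod_cast Nat.mul_pos hn (by positivity)
    rw [h4, Real.log_mul (by positivity) (by positivity), Real.log_zpow]
    have h5 : Real.log (((sn n k : ℕ) : ℝ) / (sd d k : ℕ)) ≤ (a:ℝ) / q := by
      rw [← Real.log_exp ((a:ℝ) / q)]
      exact Real.log_le_log (by positivity) h3
    have h6 := log_le_l2 k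
    push_cast
    linarith
  · push_cast
    have : (0:ℝ) < (n:ℝ) / d := by positivity
    linarith [Real.log_le_sub_one_of_pos this]

/-- the bound is correct -/
theorem log_le_lub (n d : ℕ) (hn : 0 < n) (hd : 0 < d) :
    Real.log ((n : ℝ) / d) ≤ ((lub n d : ℚ) : ℝ) :=
  log_le_lubk _ _ _ _ (by positivity) hn hd

example : lub 3 2 < 4054651082 / 10 ^ 10 := by decide +kernel
example : lub (3 ^ 1000) (7 ^ 500) < 125658 / 1000 := by decide +kernel

end B10
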