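import Pool.Agent.Lib.B10.GaussN

/-!
# Base 10, S-adic block: logarithms at two germs, and differences of two logarithms

`LgP w N` is the polynomial `log (1 + w t)` truncated at the degree `N`.
`Lg_shift`: at the germ `t = τ + X` the series `log (1 + w' X)`, `w' = w / (1 + w τ)`, is
`LgP w N (τ + X) - LgP w N τ` up to an error of size `L exp (-x N) exp (x i)` when
`‖w‖ ≤ 1`, `‖τ‖ ≤ exp (-x)`.
`Lg_sub`: `log (1 - t / τ₁) - log (1 - t / τ₂) = κ + ∑ d_j (t - τ₂) ^ (-j)` up to an error of size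
`L δ ^ (N + 1) exp (x i)` when `‖τ₁‖ = ‖τ₂‖ = exp (-x)`, `‖τ₂ - τ₁‖ ≤ δ exp (-x)`.
Both errors are controlled by their derivatives.
-/

set_option autoImplicit false

namespace B10

open Finset

variable {K : Type*} [NormedField K]

/-- the polynomial `log (1 + w t)` truncated at the degree `N` -/
noncomputable def LgP (w : K) (N : ℕ) : Polynomial K :=
  ∑ j ∈ Finset.range N, Polynomial.monomial (j + 1) ((-1) ^ j * w ^ (j + 1) / ((j : K) + 1))

/-- the error of `Lg_shift` -/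
noncomputable def errShift (w τ : K) (N : ℕ) : PowerSeries K :=
  Lg (w / (1 + w * τ)) - (Polynomial.aeval (sx τ 1) (LgP w N) -
    PowerSeries.C (Polynomial.eval τ (LgP w N)))

/-- the coefficients `d_j` -/
noncomputable def dsub (c : K) (j : ℕ) : K := (-1) ^ (j + 1) * c ^ j / j

/-- `∑_(1 ≤ j ≤ N) d_j (t - τ₂) ^ (-j)` -/
noncomputable def Psub (c τ₂ : K) (N : ℕ) : PowerSeries K :=
  ∑ j ∈ Finset.range N, PowerSeries.C (dsub c (j + 1)) * xinv (-τ₂) 1 ^ (j + 1)

/-- the error of `Lg_sub` -/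
noncomputable def errSub (τ₁ τ₂ : K) (N : ℕ) : PowerSeries K :=
  Lg (-1 / τ₁) - Lg (-1 / τ₂) - (Psub (τ₂ - τ₁) τ₂ N -
    PowerSeries.C (PowerSeries.constantCoeff (Psub (τ₂ - τ₁) τ₂ N)))

/-! ### Gauss norms -/

section bd

variable {x C D : ℝ} {L : ℕ} {P Q : PowerSeries K}

/-- a series is controlled by its constant coefficient and its derivative -/
theorem Bd_of_deriv (hK : ∀ j : ℕ, 0 < j → 1 ≤ j * ‖(j : K)‖) (hC : 0 ≤ C)
    (h0 : PowerSeries.constantCoeff P = 0)
    (h : Bd x (C * Real.exp x) L (PowerSeries.derivative K P)) : Bd x (C * L) L P := by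
  intro i hi
  rcases Nat.eq_zero_or_pos i with h1 | h1
  · subst h1
    rw [PowerSeries.coeff_zero_eq_constantCoeff_apply, h0, norm_zero]
    positivity
  · obtain ⟨n, rfl⟩ : ∃ n, i = n + 1 := ⟨i - 1, by omega⟩
    have h2 := h n (by omega)
    rw [PowerSeries.coeff_derivative, norm_mul] at h2
    have h3 := hK (n + 1) (by omega)
    push_cast at h3
    have h4 : 0 ≤ ‖PowerSeries.coeff (n + 1) P‖ := norm_nonneg _
    have h5 : ((n : ℝ) + 1) ≤ L := by exact_mod_cast (by omega : n + 1 ≤ L)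
    calc ‖PowerSeries.coeff (n + 1) P‖
        ≤ ‖PowerSeries.coeff (n + 1) P‖ * (((n : ℝ) + 1) * ‖(n : K) + 1‖) :=
          le_mul_of_one_le_right h4 h3
      _ = ((n : ℝ) + 1) * (‖PowerSeries.coeff (n + 1) P‖ * ‖(n : K) + 1‖) := by ring
      _ ≤ ((n : ℝ) + 1) * (C * Real.exp x * Real.exp (x * n)) :=
          mul_le_mul_of_nonneg_left h2 (by positivity)
      _ ≤ L * (C * Real.exp x * Real.exp (x * n)) :=
          mul_le_mul_of_nonneg_right h5 (by positivity)
      _ = C * L * Real.exp (x * ((n + 1 : ℕ) : ℝ)) := by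
          push_cast
          rw [mul_add, mul_one, Real.exp_add]
          ring

end bd

/-! ### Algebra of the series -/

theorem deriv_sx (α α' : K) : PowerSeries.derivative K (sx α α') = PowerSeries.C α' := by
  rw [sx, map_add, Derivation.leibniz, PowerSeries.derivative_C, PowerSeries.derivative_C,
    PowerSeries.derivative_X, zero_add, smul_eq_mul, smul_eq_mul, mul_one, mul_zero, add_zero]

theorem deriv_xinv {α : K} (hα : α ≠ 0) (α' : K) : PowerSeries.derivative K (xinv α α') =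
    -(PowerSeries.C α' * xinv α α' ^ 2) := by
  have h := congrArg (PowerSeries.derivative K) (sx_mul_xinv (α' := α') hα)
  rw [Derivation.leibniz, deriv_sx, PowerSeries.derivative_one, smul_eq_mul, smul_eq_mul] at h
  have h1 := congrArg (fun z => xinv α α' * z) h
  simp only [mul_add, mul_zero] at h1
  have h2 := sx_mul_xinv (α' := α') hα
  calc PowerSeries.derivative K (xinv α α')
      = (sx α α' * xinv α α') * PowerSeries.derivative K (xinv α α') := by rw [h2, one_mul]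
    _ = -(PowerSeries.C α' * xinv α α' ^ 2) := by linear_combination h1

variable [CharZero K]

theorem deriv_Lg (w : K) : PowerSeries.derivative K (Lg w) = PowerSeries.C w * xinv 1 w := by
  ext j
  rw [PowerSeries.coeff_derivative, PowerSeries.coeff_C_mul, coeff_xinv, Lg,
    PowerSeries.coeff_mk]
  have h : ((j : K) + 1) ≠ 0 := by exact_mod_cast Nat.succ_ne_zero j
  push_cast
  rw [one_pow, div_one, neg_pow, div_mul_cancel₀ _ h]
  ring

theorem LgP_deriv (w : K) (N : ℕ) : (LgP w N).derivative =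
    Polynomial.C w * ∑ j ∈ Finset.range N, (-(Polynomial.C w * Polynomial.X)) ^ j := by
  rw [LgP, Polynomial.derivative_sum, Finset.mul_sum]
  refine Finset.sum_congr rfl fun j _ => ?_
  have h : ((j : K) + 1) ≠ 0 := by exact_mod_cast Nat.succ_ne_zero j
  rw [Polynomial.derivative_monomial, Nat.add_sub_cancel]
  push_cast
  rw [div_mul_cancel₀ _ h, ← Polynomial.C_mul_X_pow_eq_monomial]
  simp only [map_mul, map_pow, map_neg, map_one]
  rw [neg_pow (Polynomial.C w * Polynomial.X), mul_pow]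
  ring

theorem LgP_deriv_mul (w : K) (N : ℕ) : (LgP w N).derivative * (1 + Polynomial.C w * Polynomial.X) =
    Polynomial.C w * (1 - (-(Polynomial.C w * Polynomial.X)) ^ N) := by
  rw [LgP_deriv, mul_assoc]
  congr 1
  have h := geom_sum_mul (-(Polynomial.C w * Polynomial.X) : Polynomial K) N
  linear_combination -h

theorem constCoeff_errShift (w τ : K) (N : ℕ) :
    PowerSeries.constantCoeff (errShift w τ N) = 0 := by
  have h1 : PowerSeries.constantCoeff (Lg (w / (1 + w * τ))) = 0 := by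
    rw [← PowerSeries.coeff_zero_eq_constantCoeff_apply, Lg, PowerSeries.coeff_mk]
    simp
  have h2 : PowerSeries.constantCoeff (Polynomial.aeval (sx τ 1) (LgP w N)) =
      Polynomial.eval τ (LgP w N) := by
    have h3 : PowerSeries.constantCoeff (sx τ 1 : PowerSeries K) = τ := by
      simp [sx]
    rw [Polynomial.aeval_def, Polynomial.hom_eval₂, h3, Polynomial.eval]
    congr 1
  rw [errShift, map_sub, map_sub, h1, h2, PowerSeries.constantCoeff_C, sub_self, sub_zero]

theorem deriv_errShift {w τ : K} (h : 1 + w * τ ≠ 0) (N : ℕ) :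
    PowerSeries.derivative K (errShift w τ N) =
      PowerSeries.C w * ((-(PowerSeries.C w * sx τ 1)) ^ N * xinv (1 + w * τ) w) := by
  have hx : sx (1 + w * τ) w * xinv (1 + w * τ) w = 1 := sx_mul_xinv h
  have hx1 : (sx (1 + w * τ) w : PowerSeries K) = 1 + PowerSeries.C w * sx τ 1 := by
    simp only [sx, map_add, map_mul, map_one]
    ring
  have h1 : PowerSeries.derivative K (Lg (w / (1 + w * τ))) =
      PowerSeries.C w * xinv (1 + w * τ) w := by
    rw [deriv_Lg]
    ext j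
    rw [PowerSeries.coeff_C_mul, PowerSeries.coeff_C_mul, coeff_xinv, coeff_xinv]
    rw [one_pow, div_one, ← neg_div, div_pow]
    field_simp
    ring
  have h2 : PowerSeries.derivative K (Polynomial.aeval (sx τ 1) (LgP w N)) =
      Polynomial.aeval (sx τ 1) (LgP w N).derivative := by
    rw [Derivation.map_aeval, deriv_sx, map_one, smul_eq_mul, mul_one]
  have h3 : Polynomial.aeval (sx τ 1) (LgP w N).derivative * (1 + PowerSeries.C w * sx τ 1) =
      PowerSeries.C w * (1 - (-(PowerSeries.C w * sx τ 1)) ^ N) := by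
    have h4 := congrArg (Polynomial.aeval (sx τ 1 : PowerSeries K)) (LgP_deriv_mul w N)
    simpa [PowerSeries.algebraMap_apply] using h4
  rw [errShift, map_sub, map_sub, h1, h2, PowerSeries.derivative_C, sub_zero]
  have h5 : Polynomial.aeval (sx τ 1) (LgP w N).derivative =
      PowerSeries.C w * (1 - (-(PowerSeries.C w * sx τ 1)) ^ N) * xinv (1 + w * τ) w := by
    rw [← h3, ← hx1, mul_assoc, hx, mul_one]
  rw [h5]
  ring

theorem constCoeff_errSub (τ₁ τ₂ : K) (N : ℕ) :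
    PowerSeries.constantCoeff (errSub τ₁ τ₂ N) = 0 := by
  have h1 : ∀ w : K, PowerSeries.constantCoeff (Lg w) = 0 := fun w => by
    rw [← PowerSeries.coeff_zero_eq_constantCoeff_apply, Lg, PowerSeries.coeff_mk]
    simp
  rw [errSub, map_sub, map_sub, map_sub, h1, h1, PowerSeries.constantCoeff_C, sub_self, sub_self,
    sub_zero]

theorem deriv_Lg_inv {τ : K} (hτ : τ ≠ 0) :
    PowerSeries.derivative K (Lg (-1 / τ)) = xinv (-τ) 1 := by
  rw [deriv_Lg]
  ext j
  rw [PowerSeries.coeff_C_mul, coeff_xinv, coeff_xinv, one_pow, div_one,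
    show -(-1 / τ) = 1 / τ by ring, one_div, inv_pow, neg_pow τ]
  have h3 : ((-1 : K)) ^ (j + 1) = -(-1) ^ j := by ring
  rw [h3, pow_succ τ]
  have h4 : ((-1 : K) ^ j) ≠ 0 := pow_ne_zero _ (by simp)
  field_simp

theorem deriv_Psub (c : K) {τ₂ : K} (h2 : τ₂ ≠ 0) (N : ℕ) :
    PowerSeries.derivative K (Psub c τ₂ N) =
      xinv (-τ₂) 1 * (∑ j ∈ Finset.range N, (-(PowerSeries.C c * xinv (-τ₂) 1)) ^ (j + 1)) := by
  rw [Psub, map_sum, Finset.mul_sum]
  refine Finset.sum_congr rfl fun j _ => ?_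
  have h : ((j : K) + 1) ≠ 0 := by exact_mod_cast Nat.succ_ne_zero j
  have h3 : (PowerSeries.C (dsub c (j + 1)) : PowerSeries K) * ((j : PowerSeries K) + 1) =
      PowerSeries.C ((-1) ^ j * c ^ (j + 1)) := by
    rw [dsub, show ((j : PowerSeries K) + 1) = PowerSeries.C ((j : K) + 1) by simp, ← map_mul]
    congr 1
    push_cast
    rw [div_mul_cancel₀ _ h]
    ring
  rw [Derivation.leibniz, PowerSeries.derivative_C, smul_zero, add_zero, smul_eq_mul,
    PowerSeries.derivative_pow, deriv_xinv (neg_ne_zero.mpr h2), Nat.add_sub_cancel]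
  rw [map_one, one_mul, neg_pow (PowerSeries.C c * xinv (-τ₂) 1), mul_pow, ← map_pow]
  rw [map_mul, map_pow, map_pow, map_neg, map_one] at h3
  push_cast
  rw [map_pow]
  linear_combination (-(xinv (-τ₂) 1) ^ (j + 2)) * h3

theorem deriv_errSub {τ₁ τ₂ : K} (h1 : τ₁ ≠ 0) (h2 : τ₂ ≠ 0) (N : ℕ) :
    PowerSeries.derivative K (errSub τ₁ τ₂ N) =
      (-(PowerSeries.C (τ₂ - τ₁) * xinv (-τ₂) 1)) ^ (N + 1) * xinv (-τ₁) 1 := by
  rw [errSub, map_sub, map_sub, map_sub, PowerSeries.derivative_C, sub_zero, deriv_Lg_inv h1,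
    deriv_Lg_inv h2, deriv_Psub _ h2]
  set u : PowerSeries K := xinv (-τ₂) 1 with hu
  set v : PowerSeries K := xinv (-τ₁) 1 with hv
  set c : PowerSeries K := PowerSeries.C (τ₂ - τ₁) with hc
  have hu1 : sx (-τ₂) 1 * u = 1 := sx_mul_xinv (neg_ne_zero.mpr h2)
  have hv1 : sx (-τ₁) 1 * v = 1 := sx_mul_xinv (neg_ne_zero.mpr h1)
  have hx : sx (-τ₁) 1 = sx (-τ₂) 1 + c := by
    rw [hc]
    simp only [sx, map_neg, map_sub]
    ring
  -- `u - v = c u v`
  have huv : u - v = c * u * v := by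
    rw [hx] at hv1
    linear_combination v * hu1 - u * hv1
  have hg : ∀ y : PowerSeries K, (1 - y) * ∑ j ∈ Finset.range N, y ^ (j + 1) = y - y ^ (N + 1) := by
    intro y
    have h := geom_sum_mul y N
    have e : ∑ j ∈ Finset.range N, y ^ (j + 1) = y * ∑ j ∈ Finset.range N, y ^ j := by
      rw [Finset.mul_sum]
      exact Finset.sum_congr rfl fun j _ => pow_succ' y j
    rw [e]
    linear_combination -y * h
  have h := hg (-(c * u))
  set S := ∑ j ∈ Finset.range N, (-(c * u)) ^ (j + 1) with hS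
  -- `u = v (1 + c u)`
  have h5 : u = v * (1 - -(c * u)) := by linear_combination huv
  have h6 : u * S = v * (-(c * u) - (-(c * u)) ^ (N + 1)) := by
    rw [← h]
    conv_lhs => rw [h5]
    ring
  rw [h6]
  linear_combination -huv

section bounds

variable [IsUltrametricDist K]

omit [CharZero K] [IsUltrametricDist K] in
theorem Bd_xinv_far {x : ℝ} {τ : K} (h : ‖τ‖ = Real.exp (-x)) (L : ℕ) :
    Bd x (Real.exp x) L (xinv (-τ) 1) := by
  intro i hi
  rw [coeff_xinv, norm_div, norm_pow, norm_pow, norm_neg, norm_neg, h, norm_one, one_pow,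
    ← Real.exp_nat_mul, one_div, ← Real.exp_neg, ← Real.exp_add]
  apply le_of_eq
  congr 1
  push_cast
  ring

theorem Bd_errShift (hK : ∀ j : ℕ, 0 < j → 1 ≤ j * ‖(j : K)‖) {w τ : K} {x : ℝ} (hx : 0 ≤ x)
    (hw : ‖w‖ ≤ 1) (hτ : ‖τ‖ ≤ Real.exp (-x)) (h1 : ‖1 + w * τ‖ = 1) (N L : ℕ) :
    Bd x (Real.exp (-(x * (N + 1))) * L) L (errShift w τ N) := by
  have h0 : 1 + w * τ ≠ 0 := by
    intro h
    rw [h, norm_zero] at h1
    exact zero_ne_one h1
  refine Bd_of_deriv hK (Real.exp_pos _).le (constCoeff_errShift w τ N) ?_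
  rw [deriv_errShift h0]
  have e1 : Bd x (Real.exp (-x)) L (PowerSeries.C w * sx τ 1) :=
    Bd.mono (Bd.C_mul (a := w) le_rfl (bd_sx_exp hτ (by simp))) (mul_le_of_le_one_left (Real.exp_pos _).le hw)
  have e2 := Bd.mul (Bd.pow (e1.neg) N) (bd_xinv hx h1 hw)
  refine Bd.mono (Bd.C_mul (a := w) le_rfl e2) ?_
  rw [mul_one, ← Real.exp_nat_mul, ← Real.exp_add]
  refine (mul_le_of_le_one_left (Real.exp_pos _).le hw).trans (le_of_eq ?_)
  congr 1
  ring

theorem Bd_errSub (hK : ∀ j : ℕ, 0 < j → 1 ≤ j * ‖(j : K)‖) {τ₁ τ₂ : K} {x δ : ℝ}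
    (h1 : ‖τ₁‖ = Real.exp (-x)) (h2 : ‖τ₂‖ = Real.exp (-x)) (hδ : 0 ≤ δ)
    (hc : ‖τ₂ - τ₁‖ ≤ δ * Real.exp (-x)) (N L : ℕ) :
    Bd x (δ ^ (N + 1) * L) L (errSub τ₁ τ₂ N) := by
  have hne : ∀ τ : K, ‖τ‖ = Real.exp (-x) → τ ≠ 0 := by
    intro τ h h0
    rw [h0, norm_zero] at h
    exact (Real.exp_pos _).ne h
  refine Bd_of_deriv hK (by positivity) (constCoeff_errSub τ₁ τ₂ N) ?_
  rw [deriv_errSub (hne _ h1) (hne _ h2)]
  have e1 : Bd x δ L (PowerSeries.C (τ₂ - τ₁) * xinv (-τ₂) 1) := by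
    refine Bd.mono (Bd.C_mul le_rfl (Bd_xinv_far h2 L)) ?_
    calc ‖τ₂ - τ₁‖ * Real.exp x ≤ δ * Real.exp (-x) * Real.exp x :=
          mul_le_mul_of_nonneg_right hc (Real.exp_pos _).le
      _ = δ := by rw [mul_assoc, ← Real.exp_add]; simp
  exact Bd.mul (Bd.pow (e1.neg) (N + 1)) (Bd_xinv_far h1 L)

omit [CharZero K] in
theorem hK_padic {p : ℕ} [Fact p.Prime] (j : ℕ) (hj : 0 < j) : 1 ≤ (j : ℝ) * ‖(j : ℚ_[p])‖ := by
  have h := norm_natCast_inv_le (p := p) j
  have h1 : (0 : ℝ) < ‖(j : ℚ_[p])‖ := norm_pos_iff.mpr (by exact_mod_cast hj.ne')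
  rw [norm_inv] at h
  calc (1 : ℝ) = ‖(j : ℚ_[p])‖⁻¹ * ‖(j : ℚ_[p])‖ := (inv_mul_cancel₀ h1.ne').symm
    _ ≤ j * ‖(j : ℚ_[p])‖ := mul_le_mul_of_nonneg_right h h1.le

end bounds

/-! ### The logarithms of several letters at the germ `t = τ + X` -/

section several

variable {S : Type*} [Fintype S]

/-- the polynomial `∑ φ log (1 + w t)` -/
noncomputable def LgPs (φ w : S → K) (N : ℕ) : Polynomial K :=
  ∑ s, Polynomial.C (φ s) * LgP (w s) N

omit [CharZero K] in
/-- The logarithms outside the disc at the germ `t = τ + X`. -/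
theorem Lg_sum_shift (φ φ' w : S → K) (τ : K) (N : ℕ) :
    ∑ s, PowerSeries.C (φ s + τ * φ' s) * Lg (w s / (1 + w s * τ)) =
      Polynomial.aeval (sx τ 1) (LgPs φ w N + Polynomial.C τ * LgPs φ' w N) -
        PowerSeries.C (Polynomial.eval τ (LgPs φ w N + Polynomial.C τ * LgPs φ' w N)) +
      ∑ s, PowerSeries.C (φ s + τ * φ' s) * errShift (w s) τ N := by
  have hA : ∀ c : K, algebraMap K (PowerSeries K) c = PowerSeries.C c := fun c => rfl
  simp only [LgPs, errShift, map_add, map_mul, map_sum, Polynomial.aeval_C, hA,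
    Polynomial.eval_add, Polynomial.eval_mul, Polynomial.eval_C, Polynomial.eval_finsetSum,
    Finset.mul_sum]
  rw [← Finset.sum_add_distrib, ← Finset.sum_add_distrib, ← Finset.sum_sub_distrib,
    ← Finset.sum_add_distrib]
  refine Finset.sum_congr rfl fun s _ => ?_
  ring

variable [IsUltrametricDist K]

omit [CharZero K] in
theorem norm_coeff_LgP_le (hK : ∀ j : ℕ, 0 < j → 1 ≤ j * ‖(j : K)‖) {w : K} (hw : ‖w‖ ≤ 1)
    (N k : ℕ) : ‖(LgP w N).coeff k‖ ≤ N := by
  rw [LgP, Polynomial.finsetSum_coeff]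
  refine norm_sum_le_of_forall _ _ _ (Nat.cast_nonneg N) fun j hj => ?_
  rw [Polynomial.coeff_monomial]
  split_ifs with h
  · have h1 := hK (j + 1) (by omega)
    push_cast at h1
    have h2 : ((j : ℝ) + 1) ≤ N := by
      have := Finset.mem_range.mp hj
      exact_mod_cast (by omega : j + 1 ≤ N)
    have h3 : 0 < ‖((j : K) + 1)‖ := by
      by_contra hc
      have h0 : ‖((j : K) + 1)‖ = 0 := le_antisymm (not_lt.mp hc) (norm_nonneg _)
      rw [h0, mul_zero] at h1
      exact absurd h1 (by norm_num)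
    rw [norm_div, norm_mul, norm_pow, norm_neg, norm_one, one_pow, one_mul, norm_pow,
      div_le_iff₀ h3]
    calc ‖w‖ ^ (j + 1) ≤ 1 := pow_le_one₀ (norm_nonneg _) hw
      _ ≤ ((j : ℝ) + 1) * ‖((j : K) + 1)‖ := h1
      _ ≤ N * ‖((j : K) + 1)‖ := mul_le_mul_of_nonneg_right h2 h3.le
  · rw [norm_zero]
    exact Nat.cast_nonneg N

omit [CharZero K] in
theorem norm_coeff_LgPs_le (hK : ∀ j : ℕ, 0 < j → 1 ≤ j * ‖(j : K)‖) {φ w : S → K}
    (hφ : ∀ s, ‖φ s‖ ≤ 1) (hw : ∀ s, ‖w s‖ ≤ 1) (N k : ℕ) : ‖(LgPs φ w N).coeff k‖ ≤ N := by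
  rw [LgPs, Polynomial.finsetSum_coeff]
  refine norm_sum_le_of_forall _ _ _ (Nat.cast_nonneg N) fun s _ => ?_
  rw [Polynomial.coeff_C_mul, norm_mul]
  exact (mul_le_of_le_one_left (norm_nonneg _) (hφ s)).trans (norm_coeff_LgP_le hK (hw s) N k)

theorem Bd_sum_errShift (hK : ∀ j : ℕ, 0 < j → 1 ≤ j * ‖(j : K)‖) {φ w : S → K} {τ : K} {x : ℝ}
    (hx : 0 ≤ x) (hφ : ∀ s, ‖φ s‖ ≤ 1) (hw : ∀ s, ‖w s‖ ≤ 1) (hτ : ‖τ‖ ≤ Real.exp (-x))
    (h1 : ∀ s, ‖1 + w s * τ‖ = 1) (N L : ℕ) :
    Bd x (Real.exp (-(x * (N + 1))) * L) L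
      (∑ s, PowerSeries.C (φ s) * errShift (w s) τ N) := by
  refine Bd.sum _ _ (by positivity) fun s _ => ?_
  refine Bd.mono (Bd.C_mul (hφ s) (Bd_errShift hK hx (hw s) hτ (h1 s) N L)) ?_
  rw [one_mul]

end several

/-- truncation: below the degree `N` the polynomial `LgP w N` is the series `Lg w` -/
theorem coeff_aeval_LgP (w : K) {N i : ℕ} (hi : i ≤ N) :
    PowerSeries.coeff i (Polynomial.aeval (sx 0 1 : PowerSeries K) (LgP w N)) =
      PowerSeries.coeff i (Lg w) := by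
  have hX : (sx 0 1 : PowerSeries K) = PowerSeries.X := by simp [sx]
  have hC : (LgP w N).coeff i = PowerSeries.coeff i (Lg w) := by
    rw [coeff_Lg, LgP, Polynomial.finsetSum_coeff]
    rcases i with _ | i
    · rw [Finset.sum_eq_zero]
      · simp
      · intro j _
        rw [Polynomial.coeff_monomial, if_neg (by omega)]
    · rw [Finset.sum_eq_single i]
      · rw [Polynomial.coeff_monomial, if_pos rfl]
        push_cast
        ring
      · intro j _ hj
        rw [Polynomial.coeff_monomial, if_neg (by omega)]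
      · intro h
        exact absurd (Finset.mem_range.mpr (by omega)) h
  rw [hX, ← hC, aeval_st_eq (LgP w N) (n := (LgP w N).natDegree + 1 + i) (by omega), map_sum,
    Finset.sum_eq_single i]
  · rw [PowerSeries.coeff_C_mul, PowerSeries.coeff_X_pow, if_pos rfl, mul_one]
  · intro j _ hj
    rw [PowerSeries.coeff_C_mul, PowerSeries.coeff_X_pow, if_neg (fun h => hj h.symm), mul_zero]
  · intro h
    exact absurd (Finset.mem_range.mpr (by omega)) h

end B10
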