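import Pool.Agent.Lib.B10.NvVan
import Pool.Agent.Lib.B10.Cols

/-!
# Base 10: a minor which is not zero

In the base 10 world (`p ^ 2 ∣ 10 ^ (p - 1) - 1`, `120 m + 69 ≤ p ≤ 120 m + 6 c`, `30 m + c ≤ p`)
the columns of the matrix, restricted to the rows of the six germs and to the first `4 m` rows of the
outer letters, are linearly independent modulo `p`. So a minor is not zero.
-/

set_option autoImplicit false

open Finset PWief Polynomial

namespace B10

/-! ### Selection of the rows -/

private theorem Nv_sel {K R C : Type*} [Field K] [Fintype R] [Fintype C] [DecidableEq C]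
    (Z : Matrix R C K) (hZ : ∀ y : C → K, Z.mulVec y = 0 → y = 0) :
    ∃ x : C → R, Function.Injective x ∧ (Z.submatrix x id).det ≠ 0 := by
  classical
  have hspan : Submodule.span K (Set.range fun r => Z r) = ⊤ := by
    by_contra h
    obtain ⟨f, hf0, hf⟩ := Submodule.exists_dual_map_eq_bot_of_lt_top
      (lt_top_iff_ne_top.2 h) inferInstance
    have h1 : (fun j => f (Pi.single j 1)) = (0 : C → K) := by
      refine hZ _ ?_
      funext r
      have h2 : f (Z r) = 0 := by
        have h3 : f (Z r) ∈ (Submodule.span K (Set.range fun r => Z r)).map f :=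
          Submodule.mem_map_of_mem (Submodule.subset_span ⟨r, rfl⟩)
        rw [hf] at h3
        exact (Submodule.mem_bot K).1 h3
      have h4 : Z r = ∑ j, Z r j • (Pi.single j 1 : C → K) := by
        funext k
        rw [Finset.sum_apply]
        simp only [Pi.smul_apply, smul_eq_mul, Pi.single_apply, mul_ite, mul_one, mul_zero,
          Finset.sum_ite_eq, Finset.mem_univ, if_true]
      rw [h4, map_sum] at h2
      simp only [map_smul, smul_eq_mul] at h2
      rw [Matrix.mulVec, Pi.zero_apply]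
      exact h2
    apply hf0
    refine LinearMap.pi_ext' fun j => LinearMap.ext_ring ?_
    exact congrFun h1 j
  obtain ⟨κ, a, ha, hsp, hli⟩ := exists_linearIndependent' K fun r => Z r
  rw [hspan] at hsp
  have hfinκ : Finite κ := Finite.of_injective a ha
  have hftκ : Fintype κ := Fintype.ofFinite κ
  let b : Module.Basis κ K (C → K) := Module.Basis.mk hli hsp.ge
  have hcard : Fintype.card κ = Fintype.card C := by
    rw [← Module.finrank_eq_card_basis b, Module.finrank_fintype_fun_eq_card]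
  let e : C ≃ κ := Fintype.equivOfCardEq hcard.symm
  refine ⟨fun j => a (e j), ha.comp e.injective, fun h0 => ?_⟩
  have h1 : LinearIndependent K (Z.submatrix (fun j => a (e j)) id).row := by
    have h2 := hli.comp e e.injective
    exact h2
  rw [Matrix.linearIndependent_rows_iff_isUnit, Matrix.isUnit_iff_isUnit_det] at h1
  rw [h0] at h1
  exact not_isUnit_zero h1

section

variable {p : ℕ} [hp : Fact p.Prime]

private theorem Nv_lift {R C : Type*} [Fintype C] [DecidableEq C] (M : Matrix R C ℚ)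
    (n : Matrix R C ℤ) (h : ∀ r c, Cg p (M r c) ((n r c : ℤ) : ℚ)) (x : C → R)
    (hx : ((n.map (Int.castRingHom (ZMod p))).submatrix x id).det ≠ 0) :
    (M.submatrix x id).det ≠ 0 := by
  intro h0
  apply hx
  have h1 : Cg p (M.submatrix x id).det (((n.submatrix x id).det : ℤ) : ℚ) := by
    have h2 : (((n.submatrix x id).det : ℤ) : ℚ) =
        ((n.submatrix x id).map (Int.castRingHom ℚ)).det := by
      have h6 := RingHom.map_det (Int.castRingHom ℚ) (n.submatrix x id)
      rw [eq_intCast] at h6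
      exact h6
    rw [h2, Matrix.det_apply', Matrix.det_apply']
    have hM : ∀ r c, PInt p (M r c) := fun r c => (h r c).pint (pint_int _)
    refine cg_sum _ _ _ fun σ _ => ?_
    refine (cg_refl _).mul (rd_cg_prod _ _ _ (fun i _ => hM _ _) fun i _ => ?_) (pint_int _)
      (pint_prod _ _ fun i _ => hM _ _)
    exact h _ _
  rw [h0] at h1
  have h3 : Cg p ((0 : ℤ) : ℚ) (((n.submatrix x id).det : ℤ) : ℚ) := by
    rw [Int.cast_zero]
    exact h1
  have h4 := cg_int.1 h3
  rw [Int.cast_zero] at h4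
  have h5 : (n.map (Int.castRingHom (ZMod p))).submatrix x id =
      (Int.castRingHom (ZMod p)).mapMatrix (n.submatrix x id) := rfl
  rw [h5, ← RingHom.map_det]
  exact h4.symm

/-! ### The letters modulo `p` -/

variable (p) in
/-- the letters modulo `p` -/
private def Nv_a (r : Fin 12) : ZMod p × ZMod p := ((lt r 0 : ZMod p), (lt r 1 : ZMod p))

private theorem Nv_br {x y : Fin 12} (h8 : 8 < p) (h : x ≠ y) :
    (Nv_a p x).1 * (Nv_a p y).2 ≠ (Nv_a p x).2 * (Nv_a p y).1 := by
  intro h0
  have h1 : ((br (lt x) (lt y) : ℤ) : ZMod p) = 0 := by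
    rw [br]
    push_cast
    exact sub_eq_zero.2 h0
  rw [ZMod.intCast_zmod_eq_zero_iff_dvd] at h1
  have h2 := Int.le_of_dvd (abs_pos.mpr (br_lt_ne (Ne.symm h))) ((dvd_abs _ _).mpr h1)
  have h3 := br_le' x y
  omega

private theorem Nv_hzT (r : Fin 12) : (lt r 0 : ZMod p) * (tv r 1 : ZMod p) -
    (lt r 1 : ZMod p) * (tv r 0 : ZMod p) = 1 := by
  have h := congrArg (fun z : ℤ => (z : ZMod p)) (br_lt_tv r)
  simp only [br] at h
  push_cast at h
  exact h

private theorem Nv_a_ne (r : Fin 12) : Nv_a p r ≠ 0 := by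
  intro h
  have h1 := Nv_hzT (p := p) r
  have h2 : (lt r 0 : ZMod p) = 0 := congrArg Prod.fst h
  have h3 : (lt r 1 : ZMod p) = 0 := congrArg Prod.snd h
  rw [h2, h3, zero_mul, zero_mul, sub_zero] at h1
  exact zero_ne_one h1

private theorem Nv_li (h8 : 8 < p) :
    LinearIndependent (ZMod p) fun (u : Fin 3) (a : Fin 12) => (co u a : ZMod p) := by
  rw [Fintype.linearIndependent_iff]
  intro g hg
  have h7 : (7 : ZMod p) ≠ 0 := by
    intro h
    have h1 : ((7 : ℕ) : ZMod p) = 0 := by exact_mod_cast h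
    rw [ZMod.natCast_eq_zero_iff] at h1
    have := Nat.le_of_dvd (by norm_num) h1
    omega
  have h5 := congrFun hg 5
  have h4 := congrFun hg 4
  have h6 := congrFun hg 6
  rw [Finset.sum_apply, Fin.sum_univ_three] at h4 h5 h6
  simp only [Pi.smul_apply, smul_eq_mul, Pi.zero_apply] at h4 h5 h6
  have e05 : co 0 5 = 0 := by decide
  have e15 : co 1 5 = 0 := by decide
  have e25 : co 2 5 = 7 := by decide
  have e04 : co 0 4 = 0 := by decide
  have e14 : co 1 4 = 7 := by decide
  have e24 : co 2 4 = 0 := by decide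
  have e06 : co 0 6 = 1 := by decide
  have e16 : co 1 6 = -1 := by decide
  have e26 : co 2 6 = 6 := by decide
  rw [e05, e15, e25] at h5
  rw [e04, e14, e24] at h4
  rw [e06, e16, e26] at h6
  push_cast at h4 h5 h6
  have g2 : g 2 = 0 := by
    have : g 2 * 7 = 0 := by linear_combination h5
    exact (mul_eq_zero.1 this).resolve_right h7
  have g1 : g 1 = 0 := by
    have : g 1 * 7 = 0 := by linear_combination h4
    exact (mul_eq_zero.1 this).resolve_right h7
  have g0 : g 0 = 0 := by
    rw [g1, g2] at h6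
    linear_combination h6
  intro i
  fin_cases i
  · exact g0
  · exact g1
  · exact g2

private theorem Nv_sum (s : Fin 3) : ∑ r, (co s r : ZMod p) * (Nv_a p r).1 = 0 := by
  have h := congrArg (fun z : ℤ => (z : ZMod p)) (co_sum s 0)
  push_cast at h
  exact h

/-! ### The forms modulo `p` -/

/-- the germ commutes with the reduction -/
private theorem Nv_map_sb (b T : Fin 2 → ℤ) (f : MvPolynomial (Fin 2) ℤ) :
    (sb b T f).map (Int.castRingHom (ZMod p)) =
      gK (fun e => (b e : ZMod p)) (fun e => (T e : ZMod p))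
        (MvPolynomial.map (Int.castRingHom (ZMod p)) f) := by
  have h : (Polynomial.mapRingHom (Int.castRingHom (ZMod p))).comp (sb b T) =
      (gK (fun e => (b e : ZMod p)) (fun e => (T e : ZMod p))).toRingHom.comp
        (MvPolynomial.map (Int.castRingHom (ZMod p))) := by
    refine MvPolynomial.ringHom_ext (fun z => ?_) fun e => ?_
    · rw [RingHom.comp_apply, RingHom.comp_apply, sb_C, MvPolynomial.map_C]
      change Polynomial.map _ (Polynomial.C z) = gK _ _ (MvPolynomial.C _)
      rw [Polynomial.map_C, gK, MvPolynomial.algHom_C]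
      rfl
    · rw [RingHom.comp_apply, RingHom.comp_apply, sb_X, MvPolynomial.map_X]
      change Polynomial.map _ (Polynomial.C (b e) + Polynomial.C (T e) * Polynomial.X) =
        gK _ _ (MvPolynomial.X e)
      rw [gK, MvPolynomial.aeval_X, Polynomial.map_add, Polynomial.map_mul, Polynomial.map_C,
        Polynomial.map_C, Polynomial.map_X, eq_intCast, eq_intCast]
  exact RingHom.congr_fun h f

/-- dehomogenisation of integral forms -/
private noncomputable def Nv_dz : MvPolynomial (Fin 2) ℤ →ₐ[ℤ] ℤ[X] :=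
  MvPolynomial.aeval ![Polynomial.X, 1]

private theorem Nv_map_dz (f : MvPolynomial (Fin 2) ℤ) :
    (Nv_dz f).map (Int.castRingHom (ZMod p)) =
      dh (MvPolynomial.map (Int.castRingHom (ZMod p)) f) := by
  have h : (Polynomial.mapRingHom (Int.castRingHom (ZMod p))).comp Nv_dz.toRingHom =
      (dh : MvPolynomial (Fin 2) (ZMod p) →ₐ[ZMod p] (ZMod p)[X]).toRingHom.comp
        (MvPolynomial.map (Int.castRingHom (ZMod p))) := by
    refine MvPolynomial.ringHom_ext (fun z => ?_) fun e => ?_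
    · rw [RingHom.comp_apply, RingHom.comp_apply, MvPolynomial.map_C]
      change Polynomial.map _ (Nv_dz (MvPolynomial.C z)) = dh (MvPolynomial.C _)
      rw [Nv_dz, dh, MvPolynomial.algHom_C, MvPolynomial.algHom_C, ← C_eq_algebraMap,
        ← C_eq_algebraMap, Polynomial.map_C]
    · rw [RingHom.comp_apply, RingHom.comp_apply, MvPolynomial.map_X]
      change Polynomial.map _ (Nv_dz (MvPolynomial.X e)) = dh (MvPolynomial.X e)
      rw [Nv_dz, dh, MvPolynomial.aeval_X, MvPolynomial.aeval_X]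
      fin_cases e
      · exact Polynomial.map_X _
      · exact Polynomial.map_one _
  exact RingHom.congr_fun h f

private theorem Nv_dz_lin (a : Fin 2 → ℤ) :
    Nv_dz (lin a) = Polynomial.C (a 1) * Polynomial.X - Polynomial.C (a 0) := by
  rw [lin, Nv_dz, map_sub, map_mul, map_mul, MvPolynomial.aeval_X, MvPolynomial.aeval_X,
    MvPolynomial.algHom_C, MvPolynomial.algHom_C, ← C_eq_algebraMap, ← C_eq_algebraMap]
  change Polynomial.C (a 1) * Polynomial.X - Polynomial.C (a 0) * 1 = _
  rw [mul_one]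

/-- the derivative of the dehomogenisation of `G` -/
private theorem Nv_der_G (u : Fin 3) (G : MvPolynomial (Fin 2) ℤ)
    (hG : MvPolynomial.C (p : ℤ) * G = ∑ s, MvPolynomial.C (co u s) * lin (lt s) ^ p) :
    derivative (dh (MvPolynomial.map (Int.castRingHom (ZMod p)) G)) =
      ∑ r, C ((co u r : ZMod p) * (Nv_a p r).2) * nvl (Nv_a p r) ^ (p - 1) := by
  have h1 : (Polynomial.C (p : ℤ)) * Nv_dz G = ∑ s, Polynomial.C (co u s) *
      (Polynomial.C (lt s 1) * Polynomial.X - Polynomial.C (lt s 0)) ^ p := by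
    have h2 := congrArg Nv_dz hG
    rw [map_mul, map_sum] at h2
    simp only [map_mul, map_pow, Nv_dz_lin] at h2
    have h3 : ∀ z : ℤ, Nv_dz (MvPolynomial.C z) = Polynomial.C z := fun z => by
      rw [Nv_dz, MvPolynomial.algHom_C, ← C_eq_algebraMap]
    simp only [h3] at h2
    exact h2
  have h2 : derivative (Nv_dz G) = ∑ s, Polynomial.C (co u s * lt s 1) *
      (Polynomial.C (lt s 1) * Polynomial.X - Polynomial.C (lt s 0)) ^ (p - 1) := by
    have h3 := congrArg derivative h1
    rw [derivative_C_mul, derivative_sum] at h3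
    have h4 : ∀ s, derivative (Polynomial.C (co u s) *
        (Polynomial.C (lt s 1) * Polynomial.X - Polynomial.C (lt s 0)) ^ p) =
        Polynomial.C (p : ℤ) * (Polynomial.C (co u s * lt s 1) *
          (Polynomial.C (lt s 1) * Polynomial.X - Polynomial.C (lt s 0)) ^ (p - 1)) := by
      intro s
      have h5 : derivative (Polynomial.C (lt s 1) * Polynomial.X - Polynomial.C (lt s 0)) =
          Polynomial.C (lt s 1) := by
        rw [derivative_sub, derivative_C_mul, derivative_X, mul_one, derivative_C, sub_zero]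
      rw [derivative_C_mul, derivative_pow, h5, C_mul]
      simp only [map_natCast]
      ring
    simp only [h4] at h3
    rw [← mul_sum] at h3
    have h6 : (Polynomial.C (p : ℤ)) ≠ 0 := by
      rw [Ne, C_eq_zero]
      exact_mod_cast hp.out.ne_zero
    exact mul_left_cancel₀ h6 h3
  rw [← Nv_map_dz, derivative_map, h2, Polynomial.map_sum]
  refine sum_congr rfl fun s _ => ?_
  rw [Polynomial.map_mul, Polynomial.map_pow, Polynomial.map_sub, Polynomial.map_mul,
    Polynomial.map_C, Polynomial.map_C, Polynomial.map_C, Polynomial.map_X, eq_intCast,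
    eq_intCast, eq_intCast, Int.cast_mul]
  rfl

/-- the fixed factor modulo `p` -/
private noncomputable def Nv_F (p m : ℕ) [Fact p.Prime] : (ZMod p)[X] :=
  ∏ a, nvl (Nv_a p a) ^ (FF a * m)

private theorem Nv_dh_F (m : ℕ) :
    dh (MvPolynomial.map (Int.castRingHom (ZMod p)) (Ff m)) = Nv_F p m := by
  rw [← Nv_map_dz, Ff, map_prod, Polynomial.map_prod, Nv_F]
  refine prod_congr rfl fun a _ => ?_
  rw [map_pow, Polynomial.map_pow, Nv_dz_lin, Polynomial.map_sub, Polynomial.map_mul,
    Polynomial.map_C, Polynomial.map_C, Polynomial.map_X, eq_intCast, eq_intCast]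
  rfl

private theorem Nv_nvl_ne (a : Fin 12) : nvl (Nv_a p a) ≠ 0 := by
  intro h
  have h1 := congrArg (fun f => f.coeff 1) h
  have h0 := congrArg (fun f => f.coeff 0) h
  simp only [nvl, coeff_sub, coeff_C_mul, coeff_X_one, mul_one, coeff_C_succ, sub_zero,
    coeff_zero, coeff_X_zero, mul_zero, coeff_C_zero, zero_sub, neg_eq_zero] at h1 h0
  exact Nv_a_ne a (Prod.ext h0 h1)

private theorem Nv_F_ne (m : ℕ) : Nv_F p m ≠ 0 :=
  prod_ne_zero_iff.2 fun a _ => pow_ne_zero _ (Nv_nvl_ne a)

private theorem Nv_nvl_deg (a : Fin 12) : (nvl (Nv_a p a)).natDegree ≤ 1 := by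
  refine (natDegree_sub_le _ _).trans (max_le ?_ ?_)
  · exact (natDegree_C_mul_le _ _).trans natDegree_X_le
  · rw [natDegree_C]
    exact Nat.zero_le _

private theorem Nv_F_deg (m : ℕ) : (Nv_F p m).natDegree ≤ 36 * m := by
  have h2 : ∑ a : Fin 12, FF a * m = 36 * m := by
    rw [← Finset.sum_mul]
    congr 1
  rw [← h2]
  refine (natDegree_prod_le _ _).trans (sum_le_sum fun a _ => natDegree_pow_le.trans ?_)
  calc FF a * m * (nvl (Nv_a p a)).natDegree ≤ FF a * m * 1 :=
        Nat.mul_le_mul_left _ (Nv_nvl_deg a)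
    _ = FF a * m := mul_one _

/-- the logarithmic derivative of the fixed factor -/
private noncomputable def Nv_phi (p m : ℕ) [Fact p.Prime] : (ZMod p)[X] :=
  ∑ r, C (((FF r * m : ℕ) : ZMod p) * (Nv_a p r).2) * nve (Nv_a p) r

private theorem Nv_phi_deg (m : ℕ) : (Nv_phi p m).natDegree ≤ Fintype.card (Fin 12) := by
  refine natDegree_sum_le_of_forall_le _ _ fun r _ => ?_
  refine (natDegree_C_mul_le _ _).trans ((natDegree_prod_le _ _).trans ?_)
  calc ∑ i ∈ univ.erase r, (nvl (Nv_a p i)).natDegree ≤ ∑ i ∈ (univ : Finset (Fin 12)), 1 := by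
        refine (sum_le_sum fun i _ => Nv_nvl_deg i).trans
          (sum_le_sum_of_subset (erase_subset r univ))
    _ = Fintype.card (Fin 12) := by rw [sum_const, smul_eq_mul, mul_one, card_univ]

private theorem Nv_F_der (m : ℕ) :
    nvq (Nv_a p) * derivative (Nv_F p m) = Nv_phi p m * Nv_F p m := by
  rw [Nv_F, derivative_prod_finset, mul_sum, Nv_phi, sum_mul]
  refine sum_congr rfl fun r _ => ?_
  have h1 : derivative (nvl (Nv_a p r)) = C (Nv_a p r).2 := by
    rw [nvl, derivative_sub, derivative_C_mul, derivative_X, mul_one, derivative_C, sub_zero]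
  have h2 : nvq (Nv_a p) = nvl (Nv_a p r) * nve (Nv_a p) r := by
    exact (mul_prod_erase univ (fun a => nvl (Nv_a p a)) (mem_univ r)).symm
  rw [derivative_pow, h1, h2, ← mul_prod_erase univ (fun a => nvl (Nv_a p a) ^ (FF a * m))
    (mem_univ r)]
  rcases Nat.eq_zero_or_pos (FF r * m) with h0 | h0
  · rw [h0]
    simp
  · have h3 : nvl (Nv_a p r) ^ (FF r * m) =
        nvl (Nv_a p r) * nvl (Nv_a p r) ^ (FF r * m - 1) := by
      rw [← pow_succ', Nat.sub_add_cancel h0]
    rw [h3, C_mul]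
    ring

/-! ### The kernel -/

/-- the polynomial of a block of coordinates -/
private theorem Nv_block {n : ℕ} (y : Fin n → ZMod p)
    (h : ∑ j, C (y j) * (X : (ZMod p)[X]) ^ (j : ℕ) = 0) : y = 0 := by
  funext i
  have h1 := congrArg (fun f => f.coeff (i : ℕ)) h
  simp only [finsetSum_coeff, coeff_C_mul_X_pow, coeff_zero] at h1
  rw [sum_eq_single i] at h1
  · rwa [if_pos rfl] at h1
  · intro j _ hj
    rw [if_neg]
    intro h2
    exact hj (Fin.ext h2.symm)
  · intro h2
    exact absurd (mem_univ i) h2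

private theorem Nv_block_deg {n : ℕ} (y : Fin n → ZMod p) :
    (∑ j, C (y j) * (X : (ZMod p)[X]) ^ (j : ℕ)).natDegree ≤ n - 1 := by
  refine natDegree_sum_le_of_forall_le _ _ fun j _ => ?_
  refine (natDegree_C_mul_X_pow_le _ _).trans ?_
  have := j.isLt
  omega

private theorem Nv_dh_mo (n j : ℕ) :
    dh (MvPolynomial.map (Int.castRingHom (ZMod p)) (mo n j)) = X ^ j := by
  rw [← Nv_map_dz, mo, map_mul, map_pow, map_pow, Nv_dz, MvPolynomial.aeval_X,
    MvPolynomial.aeval_X, Polynomial.map_mul, Polynomial.map_pow, Polynomial.map_pow]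
  change (Polynomial.X : ℤ[X]).map _ ^ j * (1 : ℤ[X]).map _ ^ (n - 1 - j) = _
  rw [Polynomial.map_X, Polynomial.map_one, one_pow, mul_one]

private theorem Nv_ker {m c : ℕ} (hm : 0 < m) (h1 : 120 * m + 69 ≤ p) (h2 : p ≤ 120 * m + 6 * c)
    (G E : Fin 3 → MvPolynomial (Fin 2) ℤ) (lam : Fin 3 → Fin 2 → ℤ)
    (hG : ∀ u, MvPolynomial.C (p : ℤ) * G u = ∑ s, MvPolynomial.C (co u s) * lin (lt s) ^ p)
    (hE : ∀ u, E u = G u - (MvPolynomial.X 0 ^ p * MvPolynomial.C (lam u 0) +
      MvPolynomial.X 1 ^ p * MvPolynomial.C (lam u 1)))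
    (hEh : ∀ u, (E u).IsHomogeneous p) (y : Col m → ZMod p)
    (hy : ∀ r : Row m c, (r.1 < 6 ∨ (r.2 : ℕ) < 4 * m) →
      ∑ j, (((sb (lt r.1) (tv r.1) (Phi m p E j)).coeff r.2 : ℤ) : ZMod p) * y j = 0) :
    y = 0 := by
  classical
  set ρ : ℤ →+* ZMod p := Int.castRingHom (ZMod p) with hρ
  -- the form
  let P : MvPolynomial (Fin 2) (ZMod p) :=
    ∑ j, MvPolynomial.C (y j) * MvPolynomial.map ρ (Phi m p E j)
  have hPh : P.IsHomogeneous (p + 57 * m - 1) := by
    refine MvPolynomial.IsHomogeneous.sum _ _ _ fun j _ => ?_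
    simpa using (MvPolynomial.isHomogeneous_C (Fin 2) (y j)).mul ((Phi_hom hEh j).map ρ)
  have hcoeff : ∀ (z : Fin 12) (i : ℕ), (gK (fun e => (lt z e : ZMod p))
      (fun e => (tv z e : ZMod p)) P).coeff i =
      ∑ j, (((sb (lt z) (tv z) (Phi m p E j)).coeff i : ℤ) : ZMod p) * y j := by
    intro z i
    rw [map_sum, finsetSum_coeff]
    refine sum_congr rfl fun j _ => ?_
    have e1 : gK (fun e => (lt z e : ZMod p)) (fun e => (tv z e : ZMod p))
        (MvPolynomial.C (y j)) = C (y j) := by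
      rw [gK, MvPolynomial.algHom_C]
      rfl
    rw [map_mul, e1, ← Nv_map_sb, coeff_C_mul, coeff_map, mul_comm]
    rfl
  have hP0 : dh P = 0 := by
    refine dh_eq_zero hPh (fun r e => (lt r e : ZMod p)) (fun r e => (tv r e : ZMod p))
      Nv_hzT (fun r r' hrr => Nv_br (by omega) hrr)
      (fun z => if z < 6 then LL z * m + c else 4 * m) (fun z i hi => ?_) ?_
    · rw [hcoeff]
      by_cases hz : z < 6
      · rw [if_pos hz] at hi
        exact hy ⟨z, ⟨i, hi⟩⟩ (Or.inl hz)
      · rw [if_neg hz] at hi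
        have h4 := (FF_eq_LL hz).2
        exact hy ⟨z, ⟨i, by rw [h4]; omega⟩⟩ (Or.inr hi)
    · have h3 : ∑ z : Fin 12, (if z < 6 then LL z * m + c else 4 * m) = 177 * m + 6 * c := by
        have e1 : ∀ z : Fin 12, (if z < 6 then LL z * m + c else 4 * m) =
            (LL z) * m + (if z < 6 then 1 else 0) * c := by
          intro z
          split_ifs with hz
          · rw [one_mul]
          · rw [(FF_eq_LL hz).2, zero_mul, add_zero]
        rw [sum_congr rfl fun z _ => e1 z, sum_add_distrib, ← sum_mul, ← sum_mul]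
        congr 1
      rw [h3]
      omega
  -- the dehomogenisation
  let f : Fin 2 → (ZMod p)[X] := fun e => ∑ j, C (y (Sum.inl (e, j))) * X ^ (j : ℕ)
  let g : Fin 3 → (ZMod p)[X] := fun u => ∑ j, C (y (Sum.inr (u, j))) * X ^ (j : ℕ)
  let G1 : Fin 3 → (ZMod p)[X] := fun u => dh (MvPolynomial.map ρ (G u))
  have hdC : ∀ a : ZMod p, dh (MvPolynomial.C a) = C a := fun a => by
    rw [dh, MvPolynomial.algHom_C]
    rfl
  have hdE : ∀ u, dh (MvPolynomial.map ρ (E u)) =
      G1 u - (X ^ p * C (lam u 0 : ZMod p) + C (lam u 1 : ZMod p)) := by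
    intro u
    rw [hE u]
    simp only [map_sub, map_add, map_mul, map_pow, MvPolynomial.map_C, MvPolynomial.map_X, hdC]
    have e0 : dh (MvPolynomial.X (0 : Fin 2) : MvPolynomial (Fin 2) (ZMod p)) = X := by
      rw [dh, MvPolynomial.aeval_X]
      rfl
    have e1 : dh (MvPolynomial.X (1 : Fin 2) : MvPolynomial (Fin 2) (ZMod p)) = 1 := by
      rw [dh, MvPolynomial.aeval_X]
      rfl
    rw [e0, e1, one_pow, one_mul]
    rfl
  have hdP : dh P = (f 1 - Nv_F p m * ∑ u, g u * C (lam u 1 : ZMod p)) +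
      X ^ p * (f 0 - Nv_F p m * ∑ u, g u * C (lam u 0 : ZMod p)) +
      Nv_F p m * ∑ u, G1 u * g u := by
    have e0 : dh P = (∑ e : Fin 2, ∑ j : Fin (57 * m), C (y (Sum.inl (e, j))) *
        dh (MvPolynomial.map ρ (Phi m p E (Sum.inl (e, j))))) +
        ∑ u : Fin 3, ∑ j : Fin (21 * m), C (y (Sum.inr (u, j))) *
        dh (MvPolynomial.map ρ (Phi m p E (Sum.inr (u, j)))) := by
      rw [map_sum, Fintype.sum_sum_type, Fintype.sum_prod_type, Fintype.sum_prod_type]
      simp only [map_mul, hdC]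
    have e1 : ∀ (u : Fin 3) (j : Fin (21 * m)), C (y (Sum.inr (u, j))) *
        dh (MvPolynomial.map ρ (Phi m p E (Sum.inr (u, j)))) =
        (Nv_F p m * (G1 u - (X ^ p * C (lam u 0 : ZMod p) + C (lam u 1 : ZMod p)))) *
          (C (y (Sum.inr (u, j))) * X ^ (j : ℕ)) := by
      intro u j
      rw [Phi_inr, map_mul, map_mul, map_mul, map_mul, hdE, Nv_dh_F, Nv_dh_mo]
      ring
    have e2 : ∀ (e : Fin 2) (j : Fin (57 * m)), C (y (Sum.inl (e, j))) *
        dh (MvPolynomial.map ρ (Phi m p E (Sum.inl (e, j)))) =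
        (![X ^ p, 1] e : (ZMod p)[X]) * (C (y (Sum.inl (e, j))) * X ^ (j : ℕ)) := by
      intro e j
      rw [Phi_inl, map_mul, map_mul, map_pow, map_pow, MvPolynomial.map_X, Nv_dh_mo, dh,
        MvPolynomial.aeval_X]
      fin_cases e
      · change C (y (Sum.inl (0, j))) * (X ^ p * X ^ (j : ℕ)) =
          X ^ p * (C (y (Sum.inl (0, j))) * X ^ (j : ℕ))
        ring
      · change C (y (Sum.inl (1, j))) * (1 ^ p * X ^ (j : ℕ)) =
          1 * (C (y (Sum.inl (1, j))) * X ^ (j : ℕ))
        ring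
    rw [e0]
    simp only [e1, e2, ← mul_sum]
    rw [Fin.sum_univ_two, Fin.sum_univ_three, Fin.sum_univ_three, Fin.sum_univ_three,
      Fin.sum_univ_three]
    change X ^ p * f 0 + 1 * f 1 +
      (Nv_F p m * (G1 0 - (X ^ p * C (lam 0 0 : ZMod p) + C (lam 0 1 : ZMod p))) * g 0 +
        Nv_F p m * (G1 1 - (X ^ p * C (lam 1 0 : ZMod p) + C (lam 1 1 : ZMod p))) * g 1 +
        Nv_F p m * (G1 2 - (X ^ p * C (lam 2 0 : ZMod p) + C (lam 2 1 : ZMod p))) * g 2) = _
    ring
  have hgd : ∀ u, (g u).natDegree ≤ 21 * m - 1 := fun u => Nv_block_deg _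
  have hf1 : (f 1 - Nv_F p m * ∑ u, g u * C (lam u 1 : ZMod p)).natDegree ≤ 57 * m - 1 := by
    refine (natDegree_sub_le _ _).trans (max_le (Nv_block_deg _) ?_)
    refine natDegree_mul_le.trans ?_
    have h3 : (∑ u, g u * C (lam u 1 : ZMod p)).natDegree ≤ 21 * m - 1 :=
      natDegree_sum_le_of_forall_le _ _ fun u _ => (natDegree_mul_C_le _ _).trans (hgd u)
    have h4 := Nv_F_deg (p := p) m
    omega
  rw [hdP] at hP0
  have hcard : Fintype.card (Fin 12) = 12 := Fintype.card_fin 12
  obtain ⟨k1, k0, kg⟩ := nv_core (n := 3) (Nv_a p) Nv_a_ne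
    (fun r r' hrr => Nv_br (by omega) hrr) (fun u a => (co u a : ZMod p)) (Nv_li (by omega))
    Nv_sum G1 (fun u => Nv_der_G u (G u) (hG u)) (Nv_F p m) (Nv_phi p m) (Nv_F_ne m)
    (Nv_F_der m) (Nv_phi_deg m) (57 * m - 1) (21 * m - 1)
    (by have := Nv_F_deg (p := p) m; omega) _ _ hf1 g hgd (by rw [hcard]; omega) hP0
  have hsum0 : ∀ e : Fin 2, ∑ u, g u * C (lam u e : ZMod p) = 0 := fun e =>
    sum_eq_zero fun u _ => by rw [kg u, zero_mul]
  rw [hsum0, mul_zero, sub_zero] at k1 k0
  have b0 := Nv_block (fun j => y (Sum.inl (0, j))) k0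
  have b1 := Nv_block (fun j => y (Sum.inl (1, j))) k1
  have bg := fun u => Nv_block (fun j => y (Sum.inr (u, j))) (kg u)
  funext j
  rcases j with ⟨e, j⟩ | ⟨u, j⟩
  · fin_cases e
    · exact congrFun b0 j
    · exact congrFun b1 j
  · exact congrFun (bg u) j

/-- **Non-vanishing.** In the base 10 world a minor is not zero. -/
theorem nv {m c : ℕ} (hm : 0 < m) (hw : (p : ℤ) ^ 2 ∣ 10 ^ (p - 1) - 1)
    (h1 : 120 * m + 69 ≤ p) (h2 : p ≤ 120 * m + 6 * c) (hc : 30 * m + c ≤ p) :
    ∃ x : Col m → Row m c, Function.Injective x ∧ Dx x ≠ 0 := by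
  classical
  choose G E lam hGh hG hE hEh hEc using fun u => world10 (p := p) (by omega) hw u
  let A : Type := {r : Row m c // r.1 < 6 ∨ (r.2 : ℕ) < 4 * m}
  let n : Matrix A (Col m) ℤ := fun r j =>
    (sb (lt r.1.1) (tv r.1.1) (Phi m p E j)).coeff (r.1.2 : ℕ)
  obtain ⟨x, hx, hdet⟩ := Nv_sel (n.map (Int.castRingHom (ZMod p))) fun y hy =>
    Nv_ker hm h1 h2 G E lam hG hE hEh y fun r hr => congrFun hy ⟨r, hr⟩
  refine ⟨fun j => (x j).1, Subtype.val_injective.comp hx, ?_⟩
  have hlt : ∀ r : Row m c, (r.2 : ℕ) < p := by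
    intro r
    have h3 := r.2.isLt
    have h4 : LL r.1 * m ≤ 30 * m := Nat.mul_le_mul_right _ (LL_le r.1)
    omega
  exact Nv_lift (R := A) (fun r j => Mx m c r.1 j) n
    (fun r j => Phi_cg (by omega) hEc r.1 (hlt r.1) r.2 j) x hdet

end

end B10
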