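import Pool.Agent.Lib.B10.Nv

/-!
# Base 10: non-vanishing, in the form of the assembly
-/

set_option autoImplicit false

namespace B10

/-- **Non-vanishing**, `c = 60`. -/
theorem nv10 (m P : ℕ) (hP : P.Prime) (hw : P ^ 2 ∣ 10 ^ (P - 1) - 1) (h1 : 120 * m + 69 ≤ P)
    (h2 : P ≤ 120 * m + 360) : ∃ x : Col m → Row m 60, Function.Injective x ∧ Dx x ≠ 0 := by
  have : Fact P.Prime := ⟨hP⟩
  rcases Nat.eq_zero_or_pos m with rfl | hm
  · have hE : IsEmpty (Col 0) := by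
      rw [← Fintype.card_eq_zero_iff, card_Col]
    refine ⟨fun j => (hE.false j).elim, fun j => (hE.false j).elim, ?_⟩
    rw [Dx, Matrix.det_isEmpty]
    exact one_ne_zero
  · have hwz : (P : ℤ) ^ 2 ∣ 10 ^ (P - 1) - 1 := by
      have h3 : ((P ^ 2 : ℕ) : ℤ) ∣ ((10 ^ (P - 1) - 1 : ℕ) : ℤ) := Int.natCast_dvd_natCast.2 hw
      rw [Nat.cast_sub (Nat.one_le_pow _ _ (by norm_num))] at h3
      push_cast at h3
      exact h3
    exact nv hm hwz h1 (by omega) (by omega)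

end B10
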