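import Mathlib

/-!
# Base 10: non-vanishing, the core (independent of the design)

`p` prime, letters `a r` in `F_p ^ 2` (pairwise not proportional), `l_r = (a r).2 X - (a r).1`,
`G s` with `G s ' = ∑ r, c s r (a r).2 l_r ^ (p - 1)`. If
`f1 + X ^ p f0 + F ∑ s, G s g s = 0` with the degrees `dT`, `dE` and `dT + n dE + O(1) < p` then
everything is `0`.
-/

set_option autoImplicit false

namespace B10

open Polynomial Finset

section annihilator

variable {R M : Type*} [CommRing R] [IsDomain R] [AddCommGroup M] [Module R M]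

private theorem NvCore_ann_aux (nab : M → M) (δ : R → R)
    (hadd : ∀ x y, nab (x + y) = nab x + nab y)
    (hnab : ∀ r x, nab (r • x) = δ r • x + r • nab x) (w : ℕ → M)
    (hw : ∀ j, w (j + 1) = nab (w j)) (E : M →ₗ[R] R) (n : ℕ) (v : ℕ → R) (hvn : v n ≠ 0)
    (hrel : ∑ j ∈ range (n + 1), v j • w j = 0) (hE : ∀ j < n, E (w j) = 0) :
    ∀ j, E (w j) = 0 := by
  let N : Submodule R M := Submodule.span R (w '' {i | i < n})
  have hsat_add : ∀ x y, (∃ d : R, d ≠ 0 ∧ d • x ∈ N) → (∃ d : R, d ≠ 0 ∧ d • y ∈ N) →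
      ∃ d : R, d ≠ 0 ∧ d • (x + y) ∈ N := by
    rintro x y ⟨d, hd, hx⟩ ⟨e, he, hy⟩
    refine ⟨d * e, mul_ne_zero hd he, ?_⟩
    have h1 : (d * e) • (x + y) = e • (d • x) + d • (e • y) := by
      rw [smul_add, smul_smul, smul_smul, mul_comm e d]
    rw [h1]
    exact N.add_mem (N.smul_mem _ hx) (N.smul_mem _ hy)
  have hsat_smul : ∀ (r : R) x, (∃ d : R, d ≠ 0 ∧ d • x ∈ N) →
      ∃ d : R, d ≠ 0 ∧ d • (r • x) ∈ N := by
    rintro r x ⟨d, hd, hx⟩
    exact ⟨d, hd, by rw [smul_comm]; exact N.smul_mem _ hx⟩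
  have hmem : ∀ i, i < n → w i ∈ N := fun i hi => Submodule.subset_span ⟨i, hi, rfl⟩
  have hn : ∃ d : R, d ≠ 0 ∧ d • w n ∈ N := by
    refine ⟨v n, hvn, ?_⟩
    rw [sum_range_succ] at hrel
    rw [eq_neg_of_add_eq_zero_right hrel]
    exact N.neg_mem (N.sum_mem fun i hi => N.smul_mem _ (hmem i (mem_range.1 hi)))
  have hgen : ∀ i, i < n → ∃ d : R, d ≠ 0 ∧ d • w (i + 1) ∈ N := by
    intro i hi
    rcases Nat.lt_or_ge (i + 1) n with h | h
    · exact ⟨1, one_ne_zero, by rw [one_smul]; exact hmem _ h⟩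
    · have h1 : i + 1 = n := by omega
      rw [h1]
      exact hn
  have h0 : nab 0 = 0 := by
    have h1 := hadd 0 0
    rw [add_zero] at h1
    exact left_eq_add.mp h1
  have hN : ∀ x ∈ N, ∃ d : R, d ≠ 0 ∧ d • nab x ∈ N := by
    intro x hx
    induction hx using Submodule.span_induction with
    | mem x hx =>
      obtain ⟨i, hi, rfl⟩ := hx
      rw [← hw]
      exact hgen i hi
    | zero =>
      exact ⟨1, one_ne_zero, by rw [h0, smul_zero]; exact N.zero_mem⟩
    | add x y _ _ hx hy =>
      rw [hadd]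
      exact hsat_add _ _ hx hy
    | smul r x hx h =>
      rw [hnab]
      exact hsat_add _ _ ⟨1, one_ne_zero, by rw [one_smul]; exact N.smul_mem _ hx⟩
        (hsat_smul _ _ h)
  have hS : ∀ x, (∃ d : R, d ≠ 0 ∧ d • x ∈ N) → ∃ d : R, d ≠ 0 ∧ d • nab x ∈ N := by
    rintro x ⟨d, hd, hx⟩
    obtain ⟨e, he, h1⟩ := hN _ hx
    rw [hnab, smul_add] at h1
    refine ⟨d * (e * d), mul_ne_zero hd (mul_ne_zero he hd), ?_⟩
    have h2 : (d * (e * d)) • nab x =
        d • (e • (δ d • x) + e • (d • nab x)) - (e * δ d) • (d • x) := by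
      rw [smul_add, smul_smul, smul_smul, smul_smul, smul_smul, smul_smul,
        show d * e * δ d = e * δ d * d by ring, mul_assoc d e d]
      abel
    rw [h2]
    exact N.sub_mem (N.smul_mem _ h1) (N.smul_mem _ hx)
  have hall : ∀ j, ∃ d : R, d ≠ 0 ∧ d • w j ∈ N := by
    intro j
    induction j with
    | zero =>
      rcases Nat.eq_zero_or_pos n with h | h
      · exact h ▸ hn
      · exact ⟨1, one_ne_zero, by rw [one_smul]; exact hmem 0 h⟩
    | succ j ih =>
      rw [hw]
      exact hS _ ih
  intro j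
  obtain ⟨d, hd, h1⟩ := hall j
  have h2 : N ≤ LinearMap.ker E := Submodule.span_le.2 (by
    rintro _ ⟨i, hi, rfl⟩
    exact hE i hi)
  have h3 : E (d • w j) = 0 := h2 h1
  rw [map_smul, smul_eq_mul] at h3
  exact (mul_eq_zero.1 h3).resolve_left hd

private theorem NvCore_ann (nab : M → M) (δ : R → R)
    (hadd : ∀ x y, nab (x + y) = nab x + nab y)
    (hnab : ∀ r x, nab (r • x) = δ r • x + r • nab x) (w : ℕ → M)
    (hw : ∀ j, w (j + 1) = nab (w j)) (E : M →ₗ[R] R) (n : ℕ) (v : ℕ → R)
    (hv : ∃ j ≤ n, v j ≠ 0)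
    (hrel : ∑ j ∈ range (n + 1), v j • w j = 0) (hE : ∀ j < n, E (w j) = 0) :
    ∀ j, E (w j) = 0 := by
  induction n with
  | zero =>
    obtain ⟨j, hj, h⟩ := hv
    have h0 : j = 0 := by omega
    subst h0
    exact NvCore_ann_aux nab δ hadd hnab w hw E 0 v h hrel hE
  | succ n ih =>
    by_cases h : v (n + 1) = 0
    · rw [sum_range_succ, h, zero_smul, add_zero] at hrel
      refine ih ?_ hrel fun j hj => hE j (by omega)
      obtain ⟨j, hj, h1⟩ := hv
      refine ⟨j, ?_, h1⟩
      have h2 : j ≠ n + 1 := by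
        rintro rfl
        exact h1 h
      omega
    · exact NvCore_ann_aux nab δ hadd hnab w hw E (n + 1) v h hrel hE

end annihilator

section charp

variable {p : ℕ} [hp : Fact p.Prime]

private theorem NvCore_pred : ((p - 1 : ℕ) : ZMod p) = -1 := by
  rw [Nat.cast_sub hp.out.one_le, Nat.cast_one, CharP.cast_eq_zero, zero_sub]

/-- the derivative of `f ^ (p - 1) * g` -/
private theorem NvCore_der (f g : (ZMod p)[X]) :
    derivative (f ^ (p - 1) * g) = f ^ (p - 2) * (f * derivative g - derivative f * g) := by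
  have h2 := hp.out.two_le
  rw [derivative_mul, derivative_pow, NvCore_pred, map_neg, map_one]
  have e1 : p - 1 = p - 2 + 1 := by omega
  rw [show p - 1 - 1 = p - 2 by omega, e1, pow_succ]
  ring

private theorem NvCore_derp (f g : (ZMod p)[X]) :
    derivative (f * g ^ p) = derivative f * g ^ p := by
  rw [derivative_mul, derivative_pow, CharP.cast_eq_zero, map_zero, zero_mul, zero_mul, mul_zero,
    add_zero]

private theorem NvCore_iterp (f g : (ZMod p)[X]) (k : ℕ) :
    derivative^[k] (f * g ^ p) = derivative^[k] f * g ^ p := by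
  induction k generalizing f with
  | zero => rfl
  | succ k ih => rw [Function.iterate_succ_apply, Function.iterate_succ_apply, NvCore_derp, ih]

private theorem NvCore_iterzero (f : (ZMod p)[X]) : derivative^[p] f = 0 := by
  ext m
  rw [coeff_iterate_derivative, coeff_zero, Nat.descFactorial_eq_factorial_mul_choose,
    nsmul_eq_mul, Nat.cast_mul]
  have h1 : ((p.factorial : ℕ) : ZMod p) = 0 :=
    (CharP.cast_eq_zero_iff (ZMod p) p _).2 (Nat.dvd_factorial hp.out.pos le_rfl)
  rw [h1, zero_mul, zero_mul]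

private theorem NvCore_iterlin (α β : ZMod p) (m : ℕ) :
    derivative^[m] ((C α * X - C β) ^ m) = C ((m.factorial : ZMod p) * α ^ m) := by
  induction m with
  | zero => simp
  | succ m ih =>
    rw [Function.iterate_succ_apply, derivative_pow]
    have h1 : derivative (C α * X - C β) = C α := by
      rw [derivative_sub, derivative_C_mul, derivative_X, mul_one, derivative_C, sub_zero]
    rw [h1, Nat.add_sub_cancel]
    have h2 : C (((m + 1 : ℕ) : ZMod p)) * (C α * X - C β) ^ m * C α =
        C (((m + 1 : ℕ) : ZMod p) * α) * (C α * X - C β) ^ m := by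
      rw [C_mul]
      ring
    rw [h2, iterate_derivative_C_mul, ih, ← C_mul]
    congr 1
    rw [Nat.factorial_succ, Nat.cast_mul]
    ring

private theorem NvCore_const {n : ℕ} (N : Submodule (ZMod p)[X] (Fin n → (ZMod p)[X]))
    (hD : ∀ z ∈ N, (fun s => derivative (z s)) ∈ N) (hne : ∃ z ∈ N, z ≠ 0) :
    ∃ z ∈ N, z ≠ 0 ∧ ∀ s, derivative (z s) = 0 := by
  classical
  let P : ℕ → Prop := fun m => ∃ z ∈ N, z ≠ 0 ∧ (univ.filter fun s => z s ≠ 0).card = m
  have hP : ∃ m, P m := by
    obtain ⟨z, hz, hz0⟩ := hne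
    exact ⟨_, z, hz, hz0, rfl⟩
  obtain ⟨z, hz, hz0, hcard⟩ := Nat.find_spec hP
  have hmin : ∀ y ∈ N, y ≠ 0 →
      (univ.filter fun s => z s ≠ 0).card ≤ (univ.filter fun s => y s ≠ 0).card := by
    intro y hy hy0
    rw [hcard]
    exact Nat.find_min' hP ⟨y, hy, hy0, rfl⟩
  obtain ⟨i, hi⟩ : ∃ i, z i ≠ 0 := by
    by_contra h
    push Not at h
    exact hz0 (funext h)
  set W : Fin n → (ZMod p)[X] := fun s => z i * derivative (z s) - derivative (z i) * z s with hW
  have hWN : W ∈ N := by
    have h1 := N.sub_mem (N.smul_mem (z i) (hD z hz)) (N.smul_mem (derivative (z i)) hz)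
    exact h1
  have hW0 : W = 0 := by
    by_contra h
    refine absurd (hmin W hWN h) (not_le.2 (card_lt_card ⟨?_, ?_⟩))
    · intro s hs
      rw [mem_filter] at hs ⊢
      refine ⟨mem_univ _, fun h0 => hs.2 ?_⟩
      change z i * derivative (z s) - derivative (z i) * z s = 0
      rw [h0, derivative_zero, mul_zero, mul_zero, sub_zero]
    · intro h1
      have h2 := h1 (mem_filter.2 ⟨mem_univ i, hi⟩)
      rw [mem_filter] at h2
      refine h2.2 ?_
      change z i * derivative (z i) - derivative (z i) * z i = 0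
      ring
  refine ⟨(z i ^ (p - 1)) • z, N.smul_mem _ hz, fun h => ?_, fun s => ?_⟩
  · have h1 := congrFun h i
    rw [Pi.smul_apply, smul_eq_mul, Pi.zero_apply] at h1
    exact mul_ne_zero (pow_ne_zero _ hi) hi h1
  · rw [Pi.smul_apply, smul_eq_mul, NvCore_der]
    have h1 : z i * derivative (z s) - derivative (z i) * z s = 0 := congrFun hW0 s
    rw [h1, mul_zero]

private theorem NvCore_coeff (γ ζ : (ZMod p)[X]) (hγ : γ.natDegree < p) (l i : ℕ) (hi : i < p) :
    (γ * expand (ZMod p) p ζ).coeff (p * l + i) = γ.coeff i * ζ.coeff l := by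
  have hp0 := hp.out.pos
  rw [coeff_mul, sum_eq_single (i, p * l)]
  · rw [coeff_expand hp0, if_pos (Dvd.intro _ rfl), Nat.mul_div_cancel_left _ hp0]
  · rintro ⟨u, v⟩ hx hne
    rw [HasAntidiagonal.mem_antidiagonal] at hx
    change γ.coeff u * (expand (ZMod p) p ζ).coeff v = 0
    rw [coeff_expand hp0]
    split_ifs with h
    · obtain ⟨w, rfl⟩ := h
      by_cases hu : p ≤ u
      · rw [coeff_eq_zero_of_natDegree_lt (lt_of_lt_of_le hγ hu), zero_mul]
      · exfalso
        apply hne
        have hx' : u + p * w = p * l + i := hx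
        have h1 : u = i := by
          have h2 := congrArg (· % p) hx'
          simp only [Nat.add_mul_mod_self_left, Nat.mul_add_mod_self_left] at h2
          rwa [Nat.mod_eq_of_lt (not_le.1 hu), Nat.mod_eq_of_lt hi] at h2
        have h3 : p * w = p * l := by omega
        rw [h1, h3]
    · rw [mul_zero]
  · intro h
    exact absurd (HasAntidiagonal.mem_antidiagonal.2 (by ring)) h

private theorem NvCore_dep {n : ℕ} (γ : Fin n → (ZMod p)[X]) (hγ : ∀ s, (γ s).natDegree < p)
    (hli : LinearIndependent (ZMod p) γ) (z : Fin n → (ZMod p)[X])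
    (hz : ∀ s, derivative (z s) = 0) (h : ∑ s, γ s * z s = 0) : z = 0 := by
  have hp0 := hp.out.ne_zero
  have he : ∀ s, expand (ZMod p) p (contract p (z s)) = z s := fun s =>
    expand_contract p (hz s) hp0
  have key : ∀ l s, (contract p (z s)).coeff l = 0 := by
    intro l
    refine Fintype.linearIndependent_iff.1 hli _ ?_
    ext i
    rw [finsetSum_coeff, coeff_zero]
    by_cases hi : i < p
    · have h1 := congrArg (fun f => f.coeff (p * l + i)) h
      simp only [finsetSum_coeff, coeff_zero] at h1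
      rw [← h1]
      refine sum_congr rfl fun s _ => ?_
      rw [← he s, NvCore_coeff _ _ (hγ s) l i hi, he s, coeff_smul, smul_eq_mul, mul_comm]
    · refine sum_eq_zero fun s _ => ?_
      rw [coeff_smul, coeff_eq_zero_of_natDegree_lt (lt_of_lt_of_le (hγ s) (not_lt.1 hi)),
        smul_zero]
  funext s
  rw [← he s]
  have h1 : contract p (z s) = 0 := ext fun l => by rw [key l s, coeff_zero]
  rw [h1, map_zero, Pi.zero_apply]

end charp

section letters

variable {p : ℕ} {ι : Type*} [Fintype ι] [DecidableEq ι]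

/-- The linear form of the letter `a` at `(X, 1)`. -/
noncomputable def nvl (a : ZMod p × ZMod p) : (ZMod p)[X] := C a.2 * X - C a.1

/-- The product of the linear forms. -/
noncomputable def nvq (a : ι → ZMod p × ZMod p) : (ZMod p)[X] := ∏ r, nvl (a r)

/-- The product of the linear forms of the other letters. -/
noncomputable def nve (a : ι → ZMod p × ZMod p) (r : ι) : (ZMod p)[X] :=
  ∏ r' ∈ univ.erase r, nvl (a r')

omit [Fintype ι] [DecidableEq ι] in
private theorem NvCore_nvl_ne {a : ZMod p × ZMod p} (h : a ≠ 0) : nvl a ≠ 0 := by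
  intro h0
  apply h
  have h1 := congrArg (fun f => f.coeff 1) h0
  have h2 := congrArg (fun f => f.coeff 0) h0
  simp only [nvl, coeff_sub, coeff_C_mul, coeff_X_one, mul_one, coeff_C_succ, sub_zero,
    coeff_zero] at h1
  simp only [nvl, coeff_sub, coeff_C_mul, coeff_X_zero, mul_zero, coeff_C_zero, zero_sub,
    coeff_zero, neg_eq_zero] at h2
  exact Prod.ext h2 h1

private theorem NvCore_q_eq (a : ι → ZMod p × ZMod p) (r : ι) : nvq a = nvl (a r) * nve a r :=
  (mul_prod_erase univ (fun r => nvl (a r)) (mem_univ r)).symm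

private theorem NvCore_exact [hp : Fact p.Prime] (a : ι → ZMod p × ZMod p)
    (hne : ∀ r r', r ≠ r' → (a r).1 * (a r').2 ≠ (a r).2 * (a r').1) (c : ι → ZMod p)
    (Y Z : (ZMod p)[X]) (hY : Y ≠ 0)
    (h : nvq a * (Y * derivative Z - derivative Y * Z) =
      (∑ r, C (c r * (a r).2 ^ 2) * nve a r) * Y ^ 2) (r : ι) (hr : (a r).2 ≠ 0) : c r = 0 := by
  have h2 := hp.out.two_le
  set V : (ZMod p)[X] := ∑ r, C (c r * (a r).2 ^ 2) * nve a r with hV
  set q := nvq a with hq
  set u : (ZMod p)[X] := Y ^ (p - 1) * Z with hu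
  have e1 : q * derivative u = V * Y ^ p := by
    rw [hu, NvCore_der, mul_left_comm, h, mul_left_comm, ← pow_add]
    congr 2
    omega
  have e2 : derivative (u * q ^ p) = (q ^ (p - 1) * V) * Y ^ p := by
    rw [NvCore_derp]
    have e3 : q ^ p = q ^ (p - 1) * q := by
      rw [← pow_succ]
      congr 1
      omega
    rw [e3, mul_comm (derivative u), mul_assoc, e1]
    ring
  have e4 : derivative^[p - 1] (q ^ (p - 1) * V) = 0 := by
    have h3 : derivative^[p - 1] (derivative (u * q ^ p)) = 0 := by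
      rw [← Function.iterate_succ_apply, show (p - 1).succ = p by omega]
      exact NvCore_iterzero _
    rw [e2, NvCore_iterp] at h3
    exact (mul_eq_zero.1 h3).resolve_right (pow_ne_zero _ hY)
  have e5 : q ^ (p - 1) * V = ∑ r, C (c r * (a r).2 ^ 2) * (nvl (a r) ^ (p - 1) *
      nve a r ^ p) := by
    rw [hV, mul_sum]
    refine sum_congr rfl fun r _ => ?_
    have e3 : nve a r ^ p = nve a r ^ (p - 1) * nve a r := by
      rw [← pow_succ]
      congr 1
      omega
    rw [hq, NvCore_q_eq a r, mul_pow, e3]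
    ring
  rw [e5, iterate_derivative_sum] at e4
  -- evaluate at the root
  set α : ZMod p := (a r).1 / (a r).2 with hα
  have h5 := congrArg (eval α) e4
  rw [eval_finsetSum, eval_zero, sum_eq_single r] at h5
  · rw [iterate_derivative_C_mul, NvCore_iterp, nvl, NvCore_iterlin, eval_mul, eval_C, eval_mul,
      eval_C, eval_pow] at h5
    have h6 : ((p - 1).factorial : ZMod p) ≠ 0 := by
      intro h0
      rw [CharP.cast_eq_zero_iff (ZMod p) p, hp.out.dvd_factorial] at h0
      omega
    have h7 : eval α (nve a r) ≠ 0 := by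
      rw [nve, eval_prod, prod_ne_zero_iff]
      intro r' hr'
      have hne' : r' ≠ r := (mem_erase.1 hr').1
      rw [nvl, eval_sub, eval_mul, eval_C, eval_X, eval_C, hα]
      intro h0
      rw [sub_eq_zero, mul_div_assoc', div_eq_iff hr] at h0
      exact hne r' r hne' (by rw [h0])
    have h8 := mul_eq_zero.1 h5
    rcases h8 with h8 | h8
    · exact (mul_eq_zero.1 h8).resolve_right (pow_ne_zero _ hr)
    · exact absurd h8 (mul_ne_zero (mul_ne_zero h6 (pow_ne_zero _ hr)) (pow_ne_zero _ h7))
  · intro r' _ hne'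
    rw [iterate_derivative_C_mul, NvCore_iterp, eval_mul, eval_mul, eval_pow]
    have h7 : eval α (nve a r') = 0 := by
      rw [nve, eval_prod]
      refine prod_eq_zero (mem_erase.2 ⟨hne'.symm, mem_univ r⟩) ?_
      rw [nvl, eval_sub, eval_mul, eval_C, eval_X, eval_C, hα, mul_div_cancel₀ _ hr, sub_self]
    rw [h7, zero_pow hp.out.ne_zero, mul_zero, mul_zero]
  · intro h0
    exact absurd (mem_univ r) h0

end letters

section iterates

variable {p : ℕ} {n : ℕ}

/-- one step of the operator -/
noncomputable def nvNext (q F φ : (ZMod p)[X]) (U V : Fin n → (ZMod p)[X])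
    (x : (ZMod p)[X] × (ZMod p)[X] × (Fin n → (ZMod p)[X])) :
    (ZMod p)[X] × (ZMod p)[X] × (Fin n → (ZMod p)[X]) :=
  (q * derivative x.1 + F * ∑ s, x.2.2 s * U s, q * derivative x.2.1 + F * ∑ s, x.2.2 s * V s,
    fun s => q * derivative (x.2.2 s) + φ * x.2.2 s)

variable {q F φ : (ZMod p)[X]} {U V : Fin n → (ZMod p)[X]}

/-- the relation is preserved -/
private theorem NvCore_rel {G : Fin n → (ZMod p)[X]} [hp : Fact p.Prime]
    (hF : q * derivative F = φ * F)
    (hG : ∀ s, q * derivative (G s) = U s + X ^ p * V s)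
    (x : (ZMod p)[X] × (ZMod p)[X] × (Fin n → (ZMod p)[X]))
    (hx : x.1 + X ^ p * x.2.1 + F * ∑ s, G s * x.2.2 s = 0) :
    (nvNext q F φ U V x).1 + X ^ p * (nvNext q F φ U V x).2.1 +
      F * ∑ s, G s * (nvNext q F φ U V x).2.2 s = 0 := by
  have h1 := congrArg (fun f => q * derivative f) hx
  simp only [derivative_add, derivative_mul, derivative_sum, mul_zero,
    derivative_X_pow, CharP.cast_eq_zero, map_zero, zero_mul, zero_add] at h1
  have e1 : ∑ s, G s * (q * derivative (x.2.2 s) + φ * x.2.2 s) =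
      q * ∑ s, G s * derivative (x.2.2 s) + φ * ∑ s, G s * x.2.2 s := by
    rw [mul_sum, mul_sum, ← sum_add_distrib]
    exact sum_congr rfl fun s _ => by ring
  have e2 : q * ∑ s, (derivative (G s) * x.2.2 s + G s * derivative (x.2.2 s)) =
      ∑ s, x.2.2 s * U s + X ^ p * ∑ s, x.2.2 s * V s +
        q * ∑ s, G s * derivative (x.2.2 s) := by
    rw [mul_sum, mul_sum, mul_sum, ← sum_add_distrib, ← sum_add_distrib]
    refine sum_congr rfl fun s _ => ?_
    linear_combination (x.2.2 s) * hG s
  change q * derivative x.1 + F * ∑ s, x.2.2 s * U s +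
    X ^ p * (q * derivative x.2.1 + F * ∑ s, x.2.2 s * V s) +
    F * ∑ s, G s * (q * derivative (x.2.2 s) + φ * x.2.2 s) = 0
  rw [e1]
  linear_combination h1 - F * e2 - (∑ s, G s * x.2.2 s) * hF

/-- the degrees grow by at most `Δ` -/
private theorem NvCore_deg {Δ dT dE : ℕ} (hq : q.natDegree ≤ Δ) (hφ : φ.natDegree ≤ Δ)
    (hU : ∀ s, (U s).natDegree ≤ Δ) (hFE : F.natDegree + dE ≤ dT)
    (x : (ZMod p)[X] × (ZMod p)[X] × (Fin n → (ZMod p)[X])) (k : ℕ)
    (h1 : x.1.natDegree ≤ dT + k * Δ) (h2 : ∀ s, (x.2.2 s).natDegree ≤ dE + k * Δ) :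
    (nvNext q F φ U V x).1.natDegree ≤ dT + (k + 1) * Δ ∧
      ∀ s, ((nvNext q F φ U V x).2.2 s).natDegree ≤ dE + (k + 1) * Δ := by
  have hk : (k + 1) * Δ = k * Δ + Δ := by ring
  constructor
  · change (q * derivative x.1 + F * ∑ s, x.2.2 s * U s).natDegree ≤ _
    refine natDegree_add_le_of_degree_le ?_ ?_
    · refine natDegree_mul_le.trans ?_
      have h3 := (natDegree_derivative_le x.1).trans (Nat.sub_le _ _)
      omega
    · refine natDegree_mul_le.trans ?_
      have h3 : (∑ s, x.2.2 s * U s).natDegree ≤ dE + k * Δ + Δ :=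
        natDegree_sum_le_of_forall_le _ _ fun s _ =>
          natDegree_mul_le.trans (Nat.add_le_add (h2 s) (hU s))
      omega
  · intro s
    change (q * derivative (x.2.2 s) + φ * x.2.2 s).natDegree ≤ _
    refine natDegree_add_le_of_degree_le ?_ ?_
    · refine natDegree_mul_le.trans ?_
      have h3 := (natDegree_derivative_le (x.2.2 s)).trans (Nat.sub_le _ _)
      have h4 := h2 s
      omega
    · refine natDegree_mul_le.trans ?_
      have h4 := h2 s
      omega

/-- the degree of a determinant -/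
private theorem NvCore_det {N : ℕ} (M : Matrix (Fin N) (Fin N) (ZMod p)[X]) (r d : Fin N → ℕ)
    (h : ∀ i j, (M i j).natDegree ≤ r i + d j) : M.det.natDegree ≤ ∑ i, r i + ∑ j, d j := by
  rw [Matrix.det_apply']
  refine natDegree_sum_le_of_forall_le _ _ fun σ _ => ?_
  refine natDegree_mul_le.trans ?_
  have h1 : (((Equiv.Perm.sign σ : ℤ) : (ZMod p)[X])).natDegree = 0 := natDegree_intCast _
  rw [h1, zero_add]
  refine (natDegree_prod_le _ _).trans ?_
  have h2 : ∑ i, r i = ∑ i, r (σ i) := (Equiv.sum_comp σ r).symm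
  rw [h2, ← sum_add_distrib]
  exact sum_le_sum fun i _ => h _ _

end iterates

section core

variable {p : ℕ} [hp : Fact p.Prime] {ι : Type*} [Fintype ι] [DecidableEq ι] {n : ℕ}

private theorem NvCore_core (hn : 0 < n) (a : ι → ZMod p × ZMod p) (ha0 : ∀ r, a r ≠ 0)
    (hne : ∀ r r', r ≠ r' → (a r).1 * (a r').2 ≠ (a r).2 * (a r').1) (c : Fin n → ι → ZMod p)
    (hc : ∀ s, c s ≠ 0) (hsum : ∀ s, ∑ r, c s r * (a r).1 = 0)
    (G : Fin n → (ZMod p)[X])
    (hG : ∀ s, nvq a * derivative (G s) =
      -(∑ r, C (c s r * (a r).2 * (a r).1) * nve a r) +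
        X ^ p * ∑ r, C (c s r * (a r).2 ^ 2) * nve a r)
    (F φ : (ZMod p)[X]) (hF0 : F ≠ 0) (hF : nvq a * derivative F = φ * F)
    (hφ : φ.natDegree ≤ Fintype.card ι)
    (dT dE : ℕ) (hdF : F.natDegree + dE ≤ dT) (f1 f0 : (ZMod p)[X]) (hf1 : f1.natDegree ≤ dT)
    (γ : Fin n → (ZMod p)[X]) (hγ : ∀ s, (γ s).natDegree ≤ dE) (hdE : dE < p)
    (hli : LinearIndependent (ZMod p) γ)
    (hpd : dT + n * dE + Fintype.card ι * ((n + 1) * n / 2) < p)
    (hrel : f1 + X ^ p * f0 + F * ∑ s, G s * γ s = 0) : False := by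
  classical
  set Δ := Fintype.card ι with hΔ
  set q := nvq a with hq
  set U : Fin n → (ZMod p)[X] := fun s => -(∑ r, C (c s r * (a r).2 * (a r).1) * nve a r) with hU
  set V : Fin n → (ZMod p)[X] := fun s => ∑ r, C (c s r * (a r).2 ^ 2) * nve a r with hV
  have hq0 : q ≠ 0 := prod_ne_zero_iff.2 fun r _ => NvCore_nvl_ne (ha0 r)
  have hl : ∀ r, (nvl (a r)).natDegree ≤ 1 := by
    intro r
    rw [nvl]
    refine (natDegree_sub_le _ _).trans (max_le ?_ ?_)
    · exact (natDegree_C_mul_le _ _).trans natDegree_X_le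
    · rw [natDegree_C]
      exact Nat.zero_le _
  have hqd : q.natDegree ≤ Δ := by
    rw [hq, nvq]
    refine (natDegree_prod_le _ _).trans ((sum_le_sum fun r _ => hl r).trans ?_)
    rw [sum_const, smul_eq_mul, mul_one, card_univ]
  have hed : ∀ r, (nve a r).natDegree ≤ Δ := by
    intro r
    rw [nve]
    refine (natDegree_prod_le _ _).trans ((sum_le_sum fun r _ => hl r).trans ?_)
    rw [sum_const, smul_eq_mul, mul_one]
    exact (card_le_card (erase_subset _ _)).trans (by rw [card_univ])
  have hUd : ∀ s, (U s).natDegree ≤ Δ := by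
    intro s
    rw [hU]
    change (-(∑ r, C (c s r * (a r).2 * (a r).1) * nve a r)).natDegree ≤ Δ
    rw [natDegree_neg]
    exact natDegree_sum_le_of_forall_le _ _ fun r _ => (natDegree_C_mul_le _ _).trans (hed r)
  -- the rows
  let st : ℕ → (ZMod p)[X] × (ZMod p)[X] × (Fin n → (ZMod p)[X]) := fun j =>
    (nvNext q F φ U V)^[j] (f1, f0, γ)
  have hst : ∀ j, st (j + 1) = nvNext q F φ U V (st j) := fun j =>
    Function.iterate_succ_apply' _ _ _
  have hR : ∀ j, (st j).1 + X ^ p * (st j).2.1 + F * ∑ s, G s * (st j).2.2 s = 0 := by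
    intro j
    induction j with
    | zero => exact hrel
    | succ j ih =>
      rw [hst]
      exact NvCore_rel hF hG _ ih
  have hD : ∀ j, (st j).1.natDegree ≤ dT + j * Δ ∧ ∀ s, ((st j).2.2 s).natDegree ≤ dE + j * Δ := by
    intro j
    induction j with
    | zero =>
      rw [zero_mul, add_zero, add_zero]
      exact ⟨hf1, hγ⟩
    | succ j ih =>
      rw [hst]
      exact NvCore_deg hqd hφ hUd hdF _ j ih.1 ih.2
  -- the two matrices
  let M1 : Matrix (Fin (n + 1)) (Fin (n + 1)) (ZMod p)[X] := fun j =>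
    Fin.cons (st j).1 (st j).2.2
  let M0 : Matrix (Fin (n + 1)) (Fin (n + 1)) (ZMod p)[X] := fun j =>
    Fin.cons (st j).2.1 (st j).2.2
  let E : Matrix (Fin (n + 1)) (Fin (n + 1)) (ZMod p)[X] := fun i =>
    Fin.cons ((Fin.cons (-X ^ p) (fun s => -(F * G s)) : Fin (n + 1) → (ZMod p)[X]) i)
      fun s => if i = s.succ then 1 else 0
  have hM : M1 = M0 * E := by
    ext1 i j
    rw [Matrix.mul_apply, Fin.sum_univ_succ]
    refine Fin.cases ?_ (fun s => ?_) j
    · change (st i).1 = (st i).2.1 * (-X ^ p) + ∑ s : Fin n, (st i).2.2 s * (-(F * G s))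
      have h1 := hR i
      have e1 : ∑ s : Fin n, (st i).2.2 s * (-(F * G s)) = -(F * ∑ s, G s * (st i).2.2 s) := by
        rw [mul_sum, ← sum_neg_distrib]
        exact sum_congr rfl fun s _ => by ring
      rw [e1]
      linear_combination h1
    · change (st i).2.2 s = (st i).2.1 * (if (0 : Fin (n + 1)) = s.succ then 1 else 0) +
        ∑ t : Fin n, (st i).2.2 t * (if t.succ = s.succ then 1 else 0)
      rw [if_neg (Fin.succ_ne_zero s).symm, mul_zero, zero_add, sum_eq_single s]
      · rw [if_pos rfl, mul_one]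
      · intro t _ hts
        rw [if_neg fun h => hts (Fin.succ_injective _ h), mul_zero]
      · intro h
        exact absurd (mem_univ s) h
  have hE : E.det = -X ^ p := by
    rw [Matrix.det_of_isLowerTriangular E, Fin.prod_univ_succ]
    · change -X ^ p * ∏ s : Fin n, (if s.succ = s.succ then (1 : (ZMod p)[X]) else 0) = _
      simp
    · intro i j hij
      have hij' : i < j := hij
      refine Fin.cases (motive := fun j => i < j → E i j = 0) (fun h => ?_) (fun s h => ?_) j hij'
      · exact absurd h (Fin.not_lt_zero i)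
      · change (if i = s.succ then (1 : (ZMod p)[X]) else 0) = 0
        rw [if_neg h.ne]
  have hdet0 : M0.det = 0 := by
    by_contra h0
    have h1 : M1.det = M0.det * (-X ^ p) := by rw [hM, Matrix.det_mul, hE]
    have h2 : M1.det.natDegree = M0.det.natDegree + p := by
      rw [h1, natDegree_mul h0 (neg_ne_zero.2 (pow_ne_zero _ X_ne_zero)), natDegree_neg,
        natDegree_X_pow]
    have h3 := NvCore_det M1 (fun i => (i : ℕ) * Δ) (Fin.cons dT fun _ => dE) (by
      intro i j
      refine Fin.cases ?_ (fun s => ?_) j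
      · have h4 := (hD i).1
        change (st i).1.natDegree ≤ i * Δ + dT
        omega
      · have h4 := (hD i).2 s
        change ((st i).2.2 s).natDegree ≤ i * Δ + dE
        omega)
    have h4 : ∑ j, (Fin.cons dT (fun _ => dE) : Fin (n + 1) → ℕ) j = dT + n * dE := by
      rw [Fin.sum_univ_succ]
      simp
    have h5 : ∑ i : Fin (n + 1), (i : ℕ) * Δ = Δ * ((n + 1) * n / 2) := by
      rw [← sum_mul, Fin.sum_univ_eq_sum_range (fun i => i) (n + 1), sum_range_id,
        Nat.add_sub_cancel, mul_comm]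
    rw [h4] at h3
    omega
  -- the annihilator
  obtain ⟨y, hy0, hy⟩ := Matrix.exists_mulVec_eq_zero_iff.2 hdet0
  obtain ⟨v, hv0, hv⟩ := Matrix.exists_vecMul_eq_zero_iff.2 hdet0
  let w : ℕ → (ZMod p)[X] × (Fin n → (ZMod p)[X]) := fun j => (st j).2
  let nab : (ZMod p)[X] × (Fin n → (ZMod p)[X]) → (ZMod p)[X] × (Fin n → (ZMod p)[X]) := fun x =>
    (q * derivative x.1 + F * ∑ s, x.2 s * V s, fun s => q * derivative (x.2 s) + φ * x.2 s)
  have hw : ∀ j, w (j + 1) = nab (w j) := fun j => congrArg Prod.snd (hst j)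
  let L : ((ZMod p)[X] × (Fin n → (ZMod p)[X])) →ₗ[(ZMod p)[X]] (ZMod p)[X] :=
    { toFun := fun x => x.1 * y 0 + ∑ s : Fin n, x.2 s * y s.succ
      map_add' := fun x x' => by
        simp only [Prod.fst_add, Prod.snd_add, Pi.add_apply, add_mul, sum_add_distrib]
        ring
      map_smul' := fun r x => by
        simp only [Prod.smul_fst, Prod.smul_snd, Pi.smul_apply, smul_eq_mul, RingHom.id_apply,
          mul_add, mul_sum, mul_assoc] }
  have hL : ∀ j, L (w j) = 0 := by
    refine NvCore_ann nab (fun r => q * derivative r) (fun x x' => ?_) (fun r x => ?_) w hw L n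
      (fun j => if h : j < n + 1 then v ⟨j, h⟩ else 0) ?_ ?_ fun j hj => ?_
    · refine Prod.ext ?_ (funext fun s => ?_)
      · change q * derivative (x.1 + x'.1) + F * ∑ s, (x.2 s + x'.2 s) * V s =
          (q * derivative x.1 + F * ∑ s, x.2 s * V s) +
            (q * derivative x'.1 + F * ∑ s, x'.2 s * V s)
        simp only [derivative_add, add_mul, sum_add_distrib]
        ring
      · change q * derivative (x.2 s + x'.2 s) + φ * (x.2 s + x'.2 s) =
          (q * derivative (x.2 s) + φ * x.2 s) + (q * derivative (x'.2 s) + φ * x'.2 s)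
        rw [derivative_add]
        ring
    · refine Prod.ext ?_ (funext fun s => ?_)
      · change q * derivative (r * x.1) + F * ∑ s, (r * x.2 s) * V s =
          (q * derivative r) * x.1 + r * (q * derivative x.1 + F * ∑ s, x.2 s * V s)
        rw [derivative_mul]
        have e1 : ∑ s, (r * x.2 s) * V s = r * ∑ s, x.2 s * V s := by
          rw [mul_sum]
          exact sum_congr rfl fun s _ => by ring
        rw [e1]
        ring
      · change q * derivative (r * x.2 s) + φ * (r * x.2 s) =
          (q * derivative r) * x.2 s + r * (q * derivative (x.2 s) + φ * x.2 s)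
        rw [derivative_mul]
        ring
    · obtain ⟨i, hi⟩ := Function.ne_iff.1 hv0
      refine ⟨i, Nat.lt_succ_iff.1 i.2, ?_⟩
      rw [dif_pos i.2]
      exact hi
    · rw [sum_range]
      have e1 : ∀ i : Fin (n + 1), (if h : (i : ℕ) < n + 1 then v ⟨i, h⟩ else 0) = v i :=
        fun i => dif_pos i.2
      simp only [e1]
      refine Prod.ext ?_ (funext fun s => ?_)
      · have h1 : ∑ i, v i * (st i).2.1 = 0 := congrFun hv 0
        rw [Prod.fst_sum]
        exact h1
      · have h1 : ∑ i, v i * (st i).2.2 s = 0 := congrFun hv s.succ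
        rw [Prod.snd_sum, Finset.sum_apply]
        exact h1
    · have h1 : ∑ i, M0 ⟨j, by omega⟩ i * y i = 0 := congrFun hy ⟨j, by omega⟩
      rw [Fin.sum_univ_succ] at h1
      exact h1
  -- the module `N'`
  have key : ∀ Y : (ZMod p)[X], ∀ Z : Fin n → (ZMod p)[X],
      (∀ j, (st j).2.1 * Y + F * ∑ s, (st j).2.2 s * Z s = 0) →
      ∀ j, (st j).2.1 * (q * derivative Y) +
        F * ∑ s, (st j).2.2 s * (q * derivative (Z s) - V s * Y) = 0 := by
    intro Y Z h j
    have h1 := congrArg (fun f => q * derivative f) (h j)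
    have h2 := h (j + 1)
    have e1 : (st (j + 1)).2.1 = q * derivative (st j).2.1 + F * ∑ s, (st j).2.2 s * V s := by
      rw [hst]
      rfl
    have e2 : ∀ s, (st (j + 1)).2.2 s = q * derivative ((st j).2.2 s) + φ * (st j).2.2 s := by
      intro s
      rw [hst]
      rfl
    rw [e1] at h2
    simp only [e2] at h2
    simp only [derivative_add, derivative_mul, derivative_sum, derivative_zero, mul_zero] at h1
    have e3 : ∑ s, (st j).2.2 s * (q * derivative (Z s) - V s * Y) =
        q * ∑ s, (st j).2.2 s * derivative (Z s) - Y * ∑ s, (st j).2.2 s * V s := by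
      rw [mul_sum, mul_sum, ← sum_sub_distrib]
      exact sum_congr rfl fun s _ => by ring
    have e4 : ∑ s, (q * derivative ((st j).2.2 s) + φ * (st j).2.2 s) * Z s =
        q * ∑ s, derivative ((st j).2.2 s) * Z s + φ * ∑ s, (st j).2.2 s * Z s := by
      rw [mul_sum, mul_sum, ← sum_add_distrib]
      exact sum_congr rfl fun s _ => by ring
    have e5 : ∑ s, (derivative ((st j).2.2 s) * Z s + (st j).2.2 s * derivative (Z s)) =
        ∑ s, derivative ((st j).2.2 s) * Z s + ∑ s, (st j).2.2 s * derivative (Z s) :=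
      sum_add_distrib
    rw [e3]
    rw [e4] at h2
    rw [e5] at h1
    linear_combination h1 - h2 - (∑ s, (st j).2.2 s * Z s) * hF
  -- no element with first component zero
  have stepA : ∀ Z : Fin n → (ZMod p)[X], (∀ j, ∑ s, (st j).2.2 s * Z s = 0) → Z = 0 := by
    intro Z hZ
    by_contra hZ0
    let N : Submodule (ZMod p)[X] (Fin n → (ZMod p)[X]) :=
      { carrier := {Z | ∀ j, ∑ s, (st j).2.2 s * Z s = 0}
        add_mem' := fun {z z'} h h' j => by
          simp only [Pi.add_apply, mul_add, sum_add_distrib]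
          rw [h j, h' j, add_zero]
        zero_mem' := fun j => by simp
        smul_mem' := fun r z h j => by
          simp only [Pi.smul_apply, smul_eq_mul, mul_left_comm _ r, ← mul_sum]
          rw [h j, mul_zero] }
    obtain ⟨z, hz, hz0, hder⟩ := NvCore_const N (fun z hz j => by
      have h1 := key 0 z (fun i => by rw [mul_zero, zero_add, hz i, mul_zero]) j
      rw [derivative_zero, mul_zero, mul_zero, zero_add] at h1
      have h2 := (mul_eq_zero.1 h1).resolve_left hF0
      have e1 : ∑ s, (st j).2.2 s * (q * derivative (z s) - V s * 0) =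
          q * ∑ s, (st j).2.2 s * derivative (z s) := by
        rw [mul_sum]
        exact sum_congr rfl fun s _ => by ring
      rw [e1] at h2
      exact (mul_eq_zero.1 h2).resolve_left hq0) ⟨Z, hZ, hZ0⟩
    exact hz0 (NvCore_dep γ (fun s => lt_of_le_of_lt (hγ s) hdE) hli z hder (hz 0))
  -- the contradiction
  have hN : ∀ j, (st j).2.1 * (F * y 0) + F * ∑ s : Fin n, (st j).2.2 s * y s.succ = 0 := by
    intro j
    have h1 : (st j).2.1 * y 0 + ∑ s : Fin n, (st j).2.2 s * y s.succ = 0 := hL j
    linear_combination F * h1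
  have hy00 : y 0 ≠ 0 := by
    intro h0
    apply hy0
    have h1 := stepA (fun s => y s.succ) fun j => by
      have h2 := hN j
      rw [h0, mul_zero, mul_zero, zero_add] at h2
      exact (mul_eq_zero.1 h2).resolve_left hF0
    funext i
    refine Fin.cases h0 (fun s => ?_) i
    exact congrFun h1 s
  have hYne : F * y 0 ≠ 0 := mul_ne_zero hF0 hy00
  have hN2 := key (F * y 0) (fun s => y s.succ) hN
  have h3 := stepA (fun s => (F * y 0) * (q * derivative (y s.succ) - V s * (F * y 0)) -
    (q * derivative (F * y 0)) * y s.succ) fun j => by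
      have h4 := hN j
      have h5 := hN2 j
      have e1 : ∑ s : Fin n, (st j).2.2 s * ((F * y 0) * (q * derivative (y s.succ) -
          V s * (F * y 0)) - (q * derivative (F * y 0)) * y s.succ) =
          (F * y 0) * ∑ s : Fin n, (st j).2.2 s * (q * derivative (y s.succ) - V s * (F * y 0)) -
          (q * derivative (F * y 0)) * ∑ s : Fin n, (st j).2.2 s * y s.succ := by
        rw [mul_sum, mul_sum, ← sum_sub_distrib]
        exact sum_congr rfl fun s _ => by ring
      rw [e1]
      have h6 : F * ((F * y 0) * ∑ s : Fin n, (st j).2.2 s * (q * derivative (y s.succ) -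
          V s * (F * y 0)) - (q * derivative (F * y 0)) *
            ∑ s : Fin n, (st j).2.2 s * y s.succ) = 0 := by
        linear_combination (F * y 0) * h5 - (q * derivative (F * y 0)) * h4
      exact (mul_eq_zero.1 h6).resolve_left hF0
  -- the exactness
  set s0 : Fin n := ⟨0, hn⟩ with hs0
  have h4 := congrFun h3 s0
  have h5 : ∀ r, (a r).2 ≠ 0 → c s0 r = 0 := by
    intro r hr
    refine NvCore_exact a hne (c s0) (F * y 0) (y s0.succ) hYne ?_ r hr
    have h6 : (F * y 0) * (q * derivative (y s0.succ) - V s0 * (F * y 0)) -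
      (q * derivative (F * y 0)) * y s0.succ = 0 := h4
    have h7 : V s0 = ∑ r, C (c s0 r * (a r).2 ^ 2) * nve a r := rfl
    rw [← h7]
    linear_combination h6
  apply hc s0
  funext r
  by_cases hr : (a r).2 = 0
  · have h6 := hsum s0
    rw [sum_eq_single r] at h6
    · refine (mul_eq_zero.1 h6).resolve_right fun h0 => ha0 r (Prod.ext h0 hr)
    · intro r' _ hr'
      have h7 : (a r').2 ≠ 0 := by
        intro h8
        apply hne r' r hr'
        rw [hr, h8, mul_zero, zero_mul]
      rw [h5 r' h7, zero_mul]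
    · intro h
      exact absurd (mem_univ r) h
  · exact h5 r hr

/-- **Linear independence modulo `p`.** -/
theorem nv_core (a : ι → ZMod p × ZMod p) (ha0 : ∀ r, a r ≠ 0)
    (hne : ∀ r r', r ≠ r' → (a r).1 * (a r').2 ≠ (a r).2 * (a r').1) (c : Fin n → ι → ZMod p)
    (hc : LinearIndependent (ZMod p) c) (hsum : ∀ s, ∑ r, c s r * (a r).1 = 0)
    (G : Fin n → (ZMod p)[X])
    (hG : ∀ s, derivative (G s) = ∑ r, C (c s r * (a r).2) * nvl (a r) ^ (p - 1))
    (F φ : (ZMod p)[X]) (hF0 : F ≠ 0) (hF : nvq a * derivative F = φ * F)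
    (hφ : φ.natDegree ≤ Fintype.card ι)
    (dT dE : ℕ) (hdF : F.natDegree + dE ≤ dT) (f1 f0 : (ZMod p)[X]) (hf1 : f1.natDegree ≤ dT)
    (g : Fin n → (ZMod p)[X]) (hg : ∀ s, (g s).natDegree ≤ dE)
    (hpd : dT + n * dE + Fintype.card ι * ((n + 1) * n / 2) < p)
    (hrel : f1 + X ^ p * f0 + F * ∑ s, G s * g s = 0) : f1 = 0 ∧ f0 = 0 ∧ ∀ s, g s = 0 := by
  classical
  -- the derivatives
  have hGq : ∀ s, nvq a * derivative (G s) =
      -(∑ r, C (c s r * (a r).2 * (a r).1) * nve a r) +
        X ^ p * ∑ r, C (c s r * (a r).2 ^ 2) * nve a r := by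
    intro s
    rw [hG s, mul_sum, mul_sum, ← sum_neg_distrib, ← sum_add_distrib]
    refine sum_congr rfl fun r _ => ?_
    have e1 : nvl (a r) ^ p = C (a r).2 * X ^ p - C (a r).1 := by
      rw [nvl, sub_pow_char, mul_pow, ← C_pow, ← C_pow, ZMod.pow_card, ZMod.pow_card]
    have e2 : nvq a * (C (c s r * (a r).2) * nvl (a r) ^ (p - 1)) =
        C (c s r * (a r).2) * nvl (a r) ^ p * nve a r := by
      have e3 : nvl (a r) ^ p = nvl (a r) ^ (p - 1) * nvl (a r) := by
        rw [← pow_succ, Nat.sub_add_cancel hp.out.one_le]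
      rw [NvCore_q_eq a r, e3]
      ring
    rw [e2, e1, C_mul, C_mul, C_mul, C_mul, C_pow]
    ring
  set V : Submodule (ZMod p) (ZMod p)[X] := Submodule.span (ZMod p) (Set.range g) with hV
  have hVd : ∀ x ∈ V, x.natDegree ≤ dE := by
    intro x hx
    have h1 : V ≤ degreeLE (ZMod p) dE := by
      rw [hV, Submodule.span_le]
      rintro _ ⟨s, rfl⟩
      rw [SetLike.mem_coe, mem_degreeLE]
      exact natDegree_le_iff_degree_le.1 (hg s)
    exact natDegree_le_iff_degree_le.2 (mem_degreeLE.1 (h1 hx))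
  have hfin : Module.Finite (ZMod p) V := Module.Finite.span_of_finite _ (Set.finite_range g)
  set n' := Module.finrank (ZMod p) V with hn'
  have hn'n : n' ≤ n := by
    have h1 := finrank_range_le_card (R := ZMod p) g
    rw [Fintype.card_fin] at h1
    exact h1
  rcases Nat.eq_zero_or_pos n' with h0 | h0
  · -- all `g s` vanish
    have hV0 : V = ⊥ := Submodule.finrank_eq_zero.1 h0
    have hg0 : ∀ s, g s = 0 := fun s => by
      have h1 : g s ∈ V := Submodule.subset_span ⟨s, rfl⟩
      rw [hV0] at h1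
      exact h1
    have h1 : ∑ s, G s * g s = 0 := sum_eq_zero fun s _ => by rw [hg0 s, mul_zero]
    rw [h1, mul_zero, add_zero] at hrel
    have hf0 : f0 = 0 := by
      by_contra h2
      have h3 : f1 = -(X ^ p * f0) := eq_neg_of_add_eq_zero_left hrel
      have h4 : f1.natDegree = p + f0.natDegree := by
        rw [h3, natDegree_neg, natDegree_mul (pow_ne_zero _ X_ne_zero) h2, natDegree_X_pow]
      have h5 : dT < p := lt_of_le_of_lt (by omega) hpd
      omega
    rw [hf0, mul_zero, add_zero] at hrel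
    exact ⟨hrel, hf0, hg0⟩
  · exfalso
    let b : Module.Basis (Fin n') (ZMod p) V := Module.finBasis (ZMod p) V
    have hmem : ∀ s, g s ∈ V := fun s => Submodule.subset_span ⟨s, rfl⟩
    let A : Fin n → Fin n' → ZMod p := fun s i => b.repr ⟨g s, hmem s⟩ i
    have hgs : ∀ s, g s = ∑ i, C (A s i) * (b i : (ZMod p)[X]) := by
      intro s
      have h1 := b.sum_repr ⟨g s, hmem s⟩
      have h2 := congrArg Subtype.val h1
      rw [AddSubmonoidClass.coe_finsetSum] at h2
      refine h2.symm.trans (sum_congr rfl fun i _ => ?_)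
      rw [← smul_eq_C_mul]
      rfl
    refine NvCore_core (n := n') h0 a ha0 hne (fun i => ∑ s, A s i • c s) (fun i hi => ?_)
      (fun i => ?_) (fun i => ∑ s, C (A s i) * G s) (fun i => ?_) F φ hF0 hF hφ dT dE hdF f1 f0
      hf1 (fun i => (b i : (ZMod p)[X])) (fun i => hVd _ (b i).2) ?_ ?_ ?_ ?_
    · -- the new relations are not zero
      have h1 : ∀ s, A s i = 0 := Fintype.linearIndependent_iff.1 hc (fun s => A s i) hi
      have h2 : ∀ x : V, b.coord i x = 0 := by
        rintro ⟨x, hx⟩
        induction hx using Submodule.span_induction with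
        | mem x hx =>
          obtain ⟨s, rfl⟩ := hx
          exact h1 s
        | zero => exact map_zero (b.coord i)
        | add x y hx hy h3 h4 =>
          have e : (⟨x + y, V.add_mem hx hy⟩ : V) = ⟨x, hx⟩ + ⟨y, hy⟩ := rfl
          rw [e, map_add, h3, h4, add_zero]
        | smul r x hx h3 =>
          have e : (⟨r • x, V.smul_mem r hx⟩ : V) = r • ⟨x, hx⟩ := rfl
          rw [e, map_smul, h3, smul_zero]
      have h3 := h2 (b i)
      rw [Module.Basis.coord_apply, Module.Basis.repr_self, Finsupp.single_eq_same] at h3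
      exact one_ne_zero h3
    · have e1 : ∀ r, (∑ s, A s i • c s) r * (a r).1 = ∑ s, A s i * (c s r * (a r).1) := by
        intro r
        rw [Finset.sum_apply, sum_mul]
        refine sum_congr rfl fun s _ => ?_
        rw [Pi.smul_apply, smul_eq_mul, mul_assoc]
      simp only [e1]
      rw [sum_comm]
      refine sum_eq_zero fun s _ => ?_
      rw [← mul_sum, hsum s, mul_zero]
    · have e1 : nvq a * derivative (∑ s, C (A s i) * G s) =
          ∑ s, C (A s i) * (nvq a * derivative (G s)) := by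
        rw [derivative_sum, mul_sum]
        refine sum_congr rfl fun s _ => ?_
        rw [derivative_C_mul]
        ring
      rw [e1]
      simp only [hGq, mul_add, mul_neg, sum_add_distrib, sum_neg_distrib]
      have e2 : ∀ (t : ι → ZMod p), ∑ r, C ((∑ s, A s i • c s) r * t r) * nve a r =
          ∑ s, C (A s i) * ∑ r, C (c s r * t r) * nve a r := by
        intro t
        simp only [mul_sum]
        rw [sum_comm]
        refine sum_congr rfl fun r _ => ?_
        rw [Finset.sum_apply, sum_mul, map_sum, sum_mul]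
        refine sum_congr rfl fun s _ => ?_
        rw [Pi.smul_apply, smul_eq_mul, ← mul_assoc, ← C_mul, mul_assoc (A s i)]
      have e3 := e2 fun r => (a r).2 * (a r).1
      have e4 := e2 fun r => (a r).2 ^ 2
      simp only [← mul_assoc] at e3
      rw [e3, e4, mul_sum]
      congr 1
      refine sum_congr rfl fun s _ => ?_
      ring
    · have h1 : n' * dE ≤ n * dE := Nat.mul_le_mul_right _ hn'n
      have h2 : dE ≤ n' * dE := Nat.le_mul_of_pos_left _ h0
      omega
    · exact b.linearIndependent.map' V.subtype (Submodule.ker_subtype V)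
    · have h1 : n' * dE ≤ n * dE := Nat.mul_le_mul_right _ hn'n
      have h2 : Fintype.card ι * ((n' + 1) * n' / 2) ≤ Fintype.card ι * ((n + 1) * n / 2) :=
        Nat.mul_le_mul_left _ (Nat.div_le_div_right (Nat.mul_le_mul (by omega) hn'n))
      omega
    · rw [← hrel]
      congr 2
      have e1 : ∀ s, G s * g s = ∑ i, G s * (C (A s i) * (b i : (ZMod p)[X])) := by
        intro s
        rw [hgs s, mul_sum]
      simp only [e1]
      rw [sum_comm]
      refine sum_congr rfl fun i _ => ?_
      rw [sum_mul]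
      exact sum_congr rfl fun s _ => by ring

end core

end B10
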