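import Pool.Agent.Lib.B10.NvCore
import Mathlib.Algebra.Polynomial.Homogenize

/-!
# Base 10: non-vanishing, forms with many zeros

A binary form of degree `d` over `F_p` with zeros of the orders `N r` at pairwise different points
`a r`, `∑ N r > d`, is zero.
-/

set_option autoImplicit false

namespace B10

open Polynomial Finset

section germ

variable {K : Type*} [Field K]

/-- the germ `P (z + t T)` -/
noncomputable def gK (z T : Fin 2 → K) : MvPolynomial (Fin 2) K →ₐ[K] K[X] :=
  MvPolynomial.aeval fun e => C (z e) + C (T e) * X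

/-- dehomogenisation -/
noncomputable def dh : MvPolynomial (Fin 2) K →ₐ[K] K[X] := MvPolynomial.aeval ![X, 1]

private theorem NvVan_deg {e : ℕ} {H : MvPolynomial (Fin 2) K} (hH : H.IsHomogeneous e)
    (w : Fin 2 → K[X]) (d : Fin 2 → ℕ) (hd : ∀ i, d i ≤ 1) (hw : ∀ i, (w i).natDegree ≤ d i) :
    (MvPolynomial.aeval w H).natDegree ≤ e := by
  rw [MvPolynomial.aeval_def, MvPolynomial.eval₂_eq']
  refine natDegree_sum_le_of_forall_le _ _ fun m hm => ?_
  have h1 : m.degree = e := by
    by_contra h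
    exact (MvPolynomial.mem_support_iff.1 hm) (hH.coeff_eq_zero h)
  rw [← C_eq_algebraMap]
  refine (natDegree_C_mul_le _ _).trans ((natDegree_prod_le _ _).trans ?_)
  rw [← h1, Finsupp.degree_eq_sum]
  refine sum_le_sum fun i _ => natDegree_pow_le.trans ?_
  calc m i * (w i).natDegree ≤ m i * 1 := Nat.mul_le_mul_left _ ((hw i).trans (hd i))
    _ = m i := mul_one _

/-- the degree of the dehomogenisation -/
theorem natDegree_dh_le {d : ℕ} {P : MvPolynomial (Fin 2) K} (hP : P.IsHomogeneous d) :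
    (dh P).natDegree ≤ d := by
  refine NvVan_deg hP _ (fun _ => 1) (fun _ => le_rfl) fun i => ?_
  fin_cases i
  · exact natDegree_X_le
  · change (1 : K[X]).natDegree ≤ 1
    rw [natDegree_one]
    exact Nat.zero_le _

/-- a homogeneous polynomial is determined by its germ -/
private theorem NvVan_eq {d : ℕ} {P : MvPolynomial (Fin 2) K} (hP : P.IsHomogeneous d)
    (z T : Fin 2 → K) (hzT : z 0 * T 1 - z 1 * T 0 = 1) :
    dh P = MvPolynomial.aeval ![C (z 0) - C (z 1) * X, C (T 1) * X - C (T 0)]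
      (homogenize (gK z T P) d) := by
  have h1 : homogenize (gK z T P) d =
      MvPolynomial.aeval (fun e => MvPolynomial.C (z e) * MvPolynomial.X 1 +
        MvPolynomial.C (T e) * MvPolynomial.X 0) P := by
    refine homogenize_eq_of_isHomogeneous ?_ ?_
    · have h2 := hP.aeval (n := 1) (g := fun e => MvPolynomial.C (z e) * MvPolynomial.X 1 +
        MvPolynomial.C (T e) * MvPolynomial.X (0 : Fin 2)) fun e => by
          refine MvPolynomial.IsHomogeneous.add ?_ ?_
          · simpa using (MvPolynomial.isHomogeneous_C (Fin 2) (z e)).mul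
              (MvPolynomial.isHomogeneous_X K (1 : Fin 2))
          · simpa using (MvPolynomial.isHomogeneous_C (Fin 2) (T e)).mul
              (MvPolynomial.isHomogeneous_X K (0 : Fin 2))
      rw [one_mul] at h2
      exact h2
    · have h3 : (MvPolynomial.aeval ![X, 1]).comp (MvPolynomial.aeval (fun e =>
          MvPolynomial.C (z e) * MvPolynomial.X 1 + MvPolynomial.C (T e) * MvPolynomial.X 0)) =
          (gK z T : MvPolynomial (Fin 2) K →ₐ[K] K[X]) := by
        refine MvPolynomial.algHom_ext fun e => ?_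
        rw [AlgHom.comp_apply, MvPolynomial.aeval_X, map_add, map_mul, map_mul,
          MvPolynomial.aeval_X, MvPolynomial.aeval_X, gK, MvPolynomial.aeval_X,
          MvPolynomial.algHom_C, MvPolynomial.algHom_C]
        simp [C_eq_algebraMap]
      exact DFunLike.congr_fun h3 P
  rw [h1]
  have h4 : (MvPolynomial.aeval ![C (z 0) - C (z 1) * X, C (T 1) * X - C (T 0)]).comp
      (MvPolynomial.aeval (fun e => MvPolynomial.C (z e) * MvPolynomial.X 1 +
        MvPolynomial.C (T e) * MvPolynomial.X 0)) =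
      (dh : MvPolynomial (Fin 2) K →ₐ[K] K[X]) := by
    refine MvPolynomial.algHom_ext fun e => ?_
    rw [AlgHom.comp_apply, MvPolynomial.aeval_X, map_add, map_mul, map_mul,
      MvPolynomial.aeval_X, MvPolynomial.aeval_X, dh, MvPolynomial.aeval_X,
      MvPolynomial.algHom_C, MvPolynomial.algHom_C, ← C_eq_algebraMap, ← C_eq_algebraMap]
    have h5 : (C (z 0) * C (T 1) - C (z 1) * C (T 0) : K[X]) = 1 := by
      rw [← C_mul, ← C_mul, ← C_sub, hzT, C_1]
    fin_cases e
    · change C (z 0) * (C (T 1) * X - C (T 0)) + C (T 0) * (C (z 0) - C (z 1) * X) = X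
      linear_combination X * h5
    · change C (z 1) * (C (T 1) * X - C (T 0)) + C (T 1) * (C (z 0) - C (z 1) * X) = 1
      linear_combination h5
  exact (DFunLike.congr_fun h4 P).symm

/-- zeros of a form -/
private theorem NvVan_dvd {d : ℕ} {P : MvPolynomial (Fin 2) K} (hP : P.IsHomogeneous d)
    (z T : Fin 2 → K) (hzT : z 0 * T 1 - z 1 * T 0 = 1) (N : ℕ)
    (hN : ∀ i < N, (gK z T P).coeff i = 0) (hP0 : dh P ≠ 0) :
    N ≤ d ∧ (C (z 1) * X - C (z 0)) ^ N ∣ dh P ∧
      (z 1 = 0 → (dh P).natDegree + N ≤ d) := by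
  have hf : (gK z T P).natDegree ≤ d := by
    refine NvVan_deg hP _ (fun _ => 1) (fun _ => le_rfl) fun i => ?_
    refine natDegree_add_le_of_degree_le ?_ ?_
    · rw [natDegree_C]
      exact Nat.zero_le _
    · exact (natDegree_C_mul_le _ _).trans natDegree_X_le
  obtain ⟨g, hg⟩ := X_pow_dvd_iff.2 hN
  have hNd : N ≤ d := by
    by_contra h
    have h1 : gK z T P = 0 := by
      ext i
      rw [coeff_zero]
      by_cases hi : i < N
      · exact hN i hi
      · exact coeff_eq_zero_of_natDegree_lt (by omega)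
    apply hP0
    rw [NvVan_eq hP z T hzT, h1, homogenize_zero, map_zero]
  have hgd : g.natDegree ≤ d - N := by
    by_cases hg0 : g = 0
    · rw [hg0, natDegree_zero]
      exact Nat.zero_le _
    · rw [hg, natDegree_mul (pow_ne_zero _ X_ne_zero) hg0, natDegree_X_pow] at hf
      omega
  have h2 : dh P = (C (z 0) - C (z 1) * X) ^ N *
      MvPolynomial.aeval ![C (z 0) - C (z 1) * X, C (T 1) * X - C (T 0)]
        (homogenize g (d - N)) := by
    rw [NvVan_eq hP z T hzT, hg]
    have h3 : homogenize (X ^ N * g) d = homogenize (X ^ N : K[X]) N * homogenize g (d - N) := by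
      have h4 := homogenize_mul (X ^ N : K[X]) g (m := N) (n := d - N)
        (by rw [natDegree_X_pow]) hgd
      rwa [Nat.add_sub_cancel' hNd] at h4
    rw [h3, map_mul, homogenize_X_pow le_rfl, Nat.sub_self, pow_zero, mul_one, map_pow,
      MvPolynomial.aeval_X]
    rfl
  refine ⟨hNd, ?_, fun hz => ?_⟩
  · rw [h2]
    have h3 : (C (z 0) - C (z 1) * X : K[X]) = -(C (z 1) * X - C (z 0)) := by ring
    rw [h3, neg_pow, mul_comm ((-1 : K[X]) ^ N), mul_assoc]
    exact dvd_mul_right _ _
  · have h3 : (dh P).natDegree ≤ d - N := by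
      rw [h2, hz, map_zero, zero_mul, sub_zero, ← C_pow]
      refine (natDegree_C_mul_le _ _).trans ?_
      refine NvVan_deg (isHomogeneous_homogenize g) _ (fun _ => 1) (fun _ => le_rfl) fun i => ?_
      fin_cases i
      · change (C (z 0)).natDegree ≤ 1
        rw [natDegree_C]
        exact Nat.zero_le _
      · change (C (T 1) * X - C (T 0)).natDegree ≤ 1
        refine (natDegree_sub_le _ _).trans (max_le ?_ ?_)
        · exact (natDegree_C_mul_le _ _).trans natDegree_X_le
        · rw [natDegree_C]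
          exact Nat.zero_le _
    omega

/-- **A form with too many zeros.** -/
theorem dh_eq_zero {ι : Type*} [Fintype ι] [DecidableEq ι] {d : ℕ} {P : MvPolynomial (Fin 2) K}
    (hP : P.IsHomogeneous d) (z T : ι → Fin 2 → K) (hzT : ∀ r, z r 0 * T r 1 - z r 1 * T r 0 = 1)
    (hne : ∀ r r', r ≠ r' → z r 0 * z r' 1 ≠ z r 1 * z r' 0) (N : ι → ℕ)
    (hN : ∀ r, ∀ i < N r, (gK (z r) (T r) P).coeff i = 0) (hd : d < ∑ r, N r) : dh P = 0 := by
  by_contra hP0
  have h1 := fun r => NvVan_dvd hP (z r) (T r) (hzT r) (N r) (hN r) hP0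
  have hcop : ∀ r r', r ≠ r' → IsCoprime (C (z r 1) * X - C (z r 0) : K[X])
      (C (z r' 1) * X - C (z r' 0)) := by
    intro r r' hrr
    have h2 : z r 1 * z r' 0 - z r 0 * z r' 1 ≠ 0 := sub_ne_zero.2 (hne r r' hrr).symm
    refine ⟨C ((z r 1 * z r' 0 - z r 0 * z r' 1)⁻¹ * z r' 1),
      -C ((z r 1 * z r' 0 - z r 0 * z r' 1)⁻¹ * z r 1), ?_⟩
    have h3 : C ((z r 1 * z r' 0 - z r 0 * z r' 1)⁻¹ * z r' 1) * (C (z r 1) * X - C (z r 0)) +
        -C ((z r 1 * z r' 0 - z r 0 * z r' 1)⁻¹ * z r 1) * (C (z r' 1) * X - C (z r' 0)) =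
        C ((z r 1 * z r' 0 - z r 0 * z r' 1)⁻¹ * (z r 1 * z r' 0 - z r 0 * z r' 1)) := by
      simp only [C_mul, C_sub]
      ring
    rw [h3, inv_mul_cancel₀ h2, C_1]
  have hdvd : ∏ r, (C (z r 1) * X - C (z r 0)) ^ N r ∣ dh P :=
    Finset.prod_dvd_of_coprime (fun r _ r' _ hrr => (hcop r r' hrr).pow) fun r _ => (h1 r).2.1
  have hdeg := natDegree_le_of_dvd hdvd hP0
  have hz0 : ∀ r, z r 1 = 0 → z r 0 ≠ 0 := by
    intro r h h'
    have h2 := hzT r
    rw [h, h', zero_mul, zero_mul, sub_zero] at h2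
    exact zero_ne_one h2
  have hfac : ∀ r, (C (z r 1) * X - C (z r 0) : K[X]) ≠ 0 := by
    intro r h
    by_cases h2 : z r 1 = 0
    · rw [h2, map_zero, zero_mul, zero_sub, neg_eq_zero, C_eq_zero] at h
      exact hz0 r h2 h
    · have h3 := congrArg (fun f => f.coeff 1) h
      simp only [coeff_sub, coeff_C_mul, coeff_X_one, mul_one, coeff_C_succ, sub_zero,
        coeff_zero] at h3
      exact h2 h3
  have hnd : ∀ r, z r 1 ≠ 0 → (C (z r 1) * X - C (z r 0) : K[X]).natDegree = 1 := by
    intro r h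
    rw [natDegree_sub_C, natDegree_C_mul h, natDegree_X]
  rw [natDegree_prod _ _ fun r _ => pow_ne_zero _ (hfac r)] at hdeg
  by_cases hinf : ∃ r0, z r0 1 = 0
  · obtain ⟨r0, hr0⟩ := hinf
    have h2 := (h1 r0).2.2 hr0
    have h3 : ∑ r ∈ univ.erase r0, N r ≤
        ∑ r, ((C (z r 1) * X - C (z r 0) : K[X]) ^ N r).natDegree := by
      refine (sum_le_sum fun r hr => ?_).trans (sum_le_sum_of_subset (erase_subset r0 univ))
      have h4 : z r 1 ≠ 0 := by
        intro h
        apply hne r r0 (mem_erase.1 hr).1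
        rw [h, hr0, mul_zero, zero_mul]
      rw [natDegree_pow, hnd r h4, mul_one]
    have h5 : ∑ r, N r = N r0 + ∑ r ∈ univ.erase r0, N r :=
      (add_sum_erase univ N (mem_univ r0)).symm
    omega
  · push Not at hinf
    have h3 : ∑ r, N r ≤ ∑ r, ((C (z r 1) * X - C (z r 0) : K[X]) ^ N r).natDegree := by
      refine sum_le_sum fun r _ => ?_
      rw [natDegree_pow, hnd r (hinf r), mul_one]
    have h4 := natDegree_dh_le hP
    omega

end germ

end B10
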