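import Pool.Agent.Lib.B10.DiscExp

/-!
# Cauchy-Binet on a disc with prices

`F` = families of row vectors, `V (f, m)`, `m = 0, 1, ..`, with the weight `exp (-x m)`.
Price certificate (linear programming dual of the choice of the slots): for distinct slots
`∑ m ≥ ∑ lam f - (∑ lam f ^ 2) / 2 - (number) / 2`.  Hence every row `r ∈ R` pays the smallest
price `x * lam f + shift r f + P f` of a family it can use, where `P f` is the price which the
new row `V (f, m)` pays in the later steps; the constant is `x (∑ lam f ^ 2) / 2`.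
-/

namespace B10

open Finset Matrix

variable {ι : Type*} [Fintype ι] [DecidableEq ι]

/-- the price form of the bound for distinct pairs -/
theorem pairs_price {F : Type*} [Fintype F] [DecidableEq F] (T : Finset (F × ℕ)) (lam : F → ℝ) :
    ∑ s ∈ T, lam s.1 - (∑ f, lam f ^ 2) / 2 - T.card / 2 ≤ ∑ s ∈ T, (s.2 : ℝ) := by
  classical
  set c : F → Finset ℕ := fun f => (T.filter (fun s => s.1 = f)).image Prod.snd with hc
  have hinj : ∀ f, Set.InjOn Prod.snd (T.filter (fun s => s.1 = f) : Set (F × ℕ)) := by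
    intro f x hx y hy hxy
    have h1 := (Finset.mem_filter.mp (Finset.mem_coe.mp hx)).2
    have h2 := (Finset.mem_filter.mp (Finset.mem_coe.mp hy)).2
    exact Prod.ext (h1.trans h2.symm) hxy
  have hcard : ∀ f, (c f).card = (T.filter (fun s => s.1 = f)).card := fun f =>
    Finset.card_image_of_injOn (hinj f)
  have hsum : ∀ f, ∑ m ∈ c f, (m : ℝ) = ∑ s ∈ T.filter (fun s => s.1 = f), (s.2 : ℝ) := by
    intro f
    rw [hc]
    exact Finset.sum_image (fun x hx y hy h => hinj f hx hy h)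
  have htot : ∑ f, ∑ m ∈ c f, (m : ℝ) = ∑ s ∈ T, (s.2 : ℝ) := by
    rw [Finset.sum_congr rfl (fun f _ => hsum f)]
    exact Finset.sum_fiberwise T (fun s => s.1) (fun s => (s.2 : ℝ))
  have hlam : ∑ f, lam f * ((c f).card : ℝ) = ∑ s ∈ T, lam s.1 := by
    rw [← Finset.sum_fiberwise T (fun s => s.1) (fun s => lam s.1)]
    refine Finset.sum_congr rfl fun f _ => ?_
    rw [hcard f, Finset.sum_congr rfl (fun s hs => by
      rw [(Finset.mem_filter.mp hs).2] : ∀ s ∈ T.filter (fun s => s.1 = f), lam s.1 = lam f),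
      Finset.sum_const, nsmul_eq_mul, mul_comm]
  have hctot : ∑ f, ((c f).card : ℝ) = T.card := by
    rw [Finset.sum_congr rfl (fun f _ => by rw [hcard f])]
    have := Finset.card_eq_sum_card_fiberwise (s := T) (t := (Finset.univ : Finset F))
      (f := fun s => s.1) (fun _ _ => Finset.mem_coe.mpr (Finset.mem_univ _))
    rw [this]; push_cast; rfl
  have hlow : ∑ f, (lam f * ((c f).card : ℝ) - lam f ^ 2 / 2 - ((c f).card : ℝ) / 2)
      ≤ ∑ s ∈ T, (s.2 : ℝ) := by
    rw [← htot]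
    refine Finset.sum_le_sum fun f _ => (?_ : _ ≤ _).trans (nat_sum_ge (c f))
    nlinarith [sq_nonneg (((c f).card : ℝ) - lam f)]
  rw [Finset.sum_sub_distrib, Finset.sum_sub_distrib, hlam, ← Finset.sum_div, ← Finset.sum_div,
    hctot] at hlow
  exact hlow

/-- an injective choice of pairs, price form -/
theorem inj_pairs_price {F : Type*} [Fintype F] [DecidableEq F] {α : Type*} (R : Finset α)
    (σ : α → F × ℕ) (hσ : Set.InjOn σ R) (lam : F → ℝ) :
    ∑ r ∈ R, lam (σ r).1 - (∑ f, lam f ^ 2) / 2 - R.card / 2 ≤ ∑ r ∈ R, ((σ r).2 : ℝ) := by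
  classical
  have h1 := pairs_price (R.image σ) lam
  rw [Finset.card_image_of_injOn hσ, Finset.sum_image (fun x hx y hy h => hσ hx hy h),
    Finset.sum_image (fun x hx y hy h => hσ hx hy h)] at h1
  exact h1

/-- **One disc with prices.**  `‖a r (f, m)‖ ≤ A exp (c r + x (lam f - m) + P f)`: `c r` is the
cost of the row `r` after the prices; the new row `V (f, m)` has paid `P f` in `hdet`. -/
theorem price_step {K : Type*} [NormedField K] [IsUltrametricDist K]
    {F : Type*} [Fintype F] [DecidableEq F] {N : ℕ} [Nonempty (F × Fin N)]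
    (M : Matrix ι ι K) (R : Finset ι) (a : ι → F × Fin N → K) (V : F × Fin N → ι → K)
    (hM : ∀ r ∈ R, M r = ∑ s, a r s • V s) (lam : F → ℝ) (x A D : ℝ) (hx : 0 ≤ x)
    (hA : 0 ≤ A) (hD : 0 ≤ D) (c : ι → ℝ) (P : F → ℝ)
    (ha : ∀ r ∈ R, ∀ s : F × Fin N,
      ‖a r s‖ ≤ A * Real.exp (c r + x * (lam s.1 - ((s.2 : ℕ) : ℝ)) + P s.1))
    (hdet : ∀ σ : ι → F × Fin N, Set.InjOn σ R →
      ‖(repl M R V σ).det‖ ≤ D * Real.exp (-∑ r ∈ R, P (σ r).1)) :
    ‖M.det‖ ≤ A ^ R.card * D *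
      Real.exp (∑ r ∈ R, c r + x * ((∑ f, lam f ^ 2) / 2 + (R.card : ℝ) / 2)) := by
  refine det_expand_le M R a V hM _ (by positivity) (fun σ hσ => ?_)
  have h1 : ‖∏ r ∈ R, a r (σ r)‖ ≤ A ^ R.card * Real.exp (∑ r ∈ R, c r +
      x * (∑ r ∈ R, lam (σ r).1 - ∑ r ∈ R, (((σ r).2 : ℕ) : ℝ)) + ∑ r ∈ R, P (σ r).1) := by
    rw [norm_prod]
    calc ∏ r ∈ R, ‖a r (σ r)‖
        ≤ ∏ r ∈ R, (A * Real.exp (c r + x * (lam (σ r).1 - (((σ r).2 : ℕ) : ℝ)) + P (σ r).1)) :=
          Finset.prod_le_prod (fun r _ => norm_nonneg _) (fun r hr => ha r hr (σ r))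
      _ = _ := by
          rw [Finset.prod_mul_distrib, Finset.prod_const, ← Real.exp_sum,
            Finset.sum_add_distrib, Finset.sum_add_distrib, ← Finset.mul_sum,
            Finset.sum_sub_distrib]
  have h2 := hdet σ hσ
  have hinj : ∑ r ∈ R, lam (σ r).1 - (∑ f, lam f ^ 2) / 2 - R.card / 2
      ≤ ∑ r ∈ R, (((σ r).2 : ℕ) : ℝ) := by
    have := inj_pairs_price R (fun r => ((σ r).1, ((σ r).2 : ℕ))) (by
      intro u hu w hw h
      apply hσ hu hw
      have e1 := congrArg Prod.fst h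
      have e2 := congrArg Prod.snd h
      exact Prod.ext e1 (Fin.ext e2)) lam
    simpa using this
  calc ‖∏ r ∈ R, a r (σ r)‖ * ‖(repl M R V σ).det‖
      ≤ (A ^ R.card * Real.exp (∑ r ∈ R, c r +
          x * (∑ r ∈ R, lam (σ r).1 - ∑ r ∈ R, (((σ r).2 : ℕ) : ℝ)) + ∑ r ∈ R, P (σ r).1))
        * (D * Real.exp (-∑ r ∈ R, P (σ r).1)) :=
        mul_le_mul h1 h2 (norm_nonneg _) (by positivity)
    _ = A ^ R.card * D * Real.exp (∑ r ∈ R, c r +
          x * (∑ r ∈ R, lam (σ r).1 - ∑ r ∈ R, (((σ r).2 : ℕ) : ℝ))) := by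
        rw [mul_mul_mul_comm, ← Real.exp_add]
        congr 2; ring
    _ ≤ _ := by
        apply mul_le_mul_of_nonneg_left _ (by positivity)
        apply Real.exp_le_exp.mpr
        have := mul_le_mul_of_nonneg_left hinj hx
        nlinarith [this]

end B10
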