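import Mathlib

/-!
# Base 10: from the Fermat quotient form to repunits
-/

open Finset
open scoped Classical

namespace B10

/-- If `q` is a prime with `q ^ 2 ∤ 10 ^ (q - 1) - 1`, then `q ^ 2` divides no repunit of length
prime to `q`. -/
theorem not_sq_dvd_rep {q k : ℕ} (hq : q.Prime) (h : ¬ q ^ 2 ∣ 10 ^ (q - 1) - 1) (hk : ¬ q ∣ k) :
    ¬ q ^ 2 ∣ ∑ i ∈ range k, 10 ^ i := by
  intro h1
  apply h
  have h2 : (10 : ZMod (q ^ 2)) ^ k = 1 := by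
    have h3 : (∑ i ∈ range k, (10 : ZMod (q ^ 2)) ^ i) = 0 := by
      have h4 := (ZMod.natCast_eq_zero_iff (∑ i ∈ range k, 10 ^ i) (q ^ 2)).2 h1
      push_cast at h4
      exact h4
    have h4 := geom_sum_mul (10 : ZMod (q ^ 2)) k
    rw [h3, zero_mul] at h4
    exact (sub_eq_zero.1 h4.symm)
  have hk0 : k ≠ 0 := by
    rintro rfl
    exact hk (dvd_zero q)
  have hu : IsUnit (10 : ZMod (q ^ 2)) := IsUnit.of_pow_eq_one h2 hk0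
  obtain ⟨u, hu⟩ := hu
  have h5 : u ^ k = 1 := by
    ext
    push_cast
    rw [hu, h2]
  have h6 : u ^ (q * (q - 1)) = 1 := by
    have h7 := ZMod.pow_totient u
    rwa [Nat.totient_prime_pow_succ hq, pow_one] at h7
  have h8 : orderOf u ∣ k := orderOf_dvd_of_pow_eq_one h5
  have h9 : orderOf u ∣ q * (q - 1) := orderOf_dvd_of_pow_eq_one h6
  have h10 : Nat.Coprime (orderOf u) q := by
    rw [Nat.coprime_comm, hq.coprime_iff_not_dvd]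
    exact fun h11 => hk (h11.trans h8)
  have h12 : orderOf u ∣ q - 1 := h10.dvd_of_dvd_mul_left h9
  have h13 : u ^ (q - 1) = 1 := orderOf_dvd_iff_pow_eq_one.1 h12
  have h14 : ((10 ^ (q - 1) - 1 : ℕ) : ZMod (q ^ 2)) = 0 := by
    rw [Nat.cast_sub (Nat.one_le_pow _ _ (by norm_num))]
    push_cast
    rw [← hu, sub_eq_zero, ← Units.val_pow_eq_pow_val, h13, Units.val_one]
  exact (ZMod.natCast_eq_zero_iff _ _).1 h14

/-- the counting form for repunits, from the counting form for `10 ^ (q - 1) - 1`. -/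
theorem rep_of_fermat (h : ∃ c : ℝ, 0 < c ∧ ∃ X₀ : ℝ, ∀ X : ℝ, X₀ ≤ X →
      c * X / Real.log X ≤ (((Icc 1 ⌊X⌋₊).filter fun q : ℕ => q.Prime ∧
        ¬ q ^ 2 ∣ 10 ^ (q - 1) - 1).card : ℝ)) :
    ∃ c : ℝ, 0 < c ∧ ∃ X₀ : ℝ, ∀ X : ℝ, X₀ ≤ X →
      c * X / Real.log X ≤ (((Icc 1 ⌊X⌋₊).filter fun q : ℕ => q.Prime ∧
        ∀ k : ℕ, ¬ q ∣ k → ¬ q ^ 2 ∣ ∑ i ∈ range k, 10 ^ i).card : ℝ) := by
  obtain ⟨c, hc, X₀, h1⟩ := h
  refine ⟨c, hc, X₀, fun X hX => (h1 X hX).trans (Nat.cast_le.2 ?_)⟩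
  have h2 : ((Icc 1 ⌊X⌋₊).filter fun q : ℕ => q.Prime ∧ ¬ q ^ 2 ∣ 10 ^ (q - 1) - 1) ⊆
      ((Icc 1 ⌊X⌋₊).filter fun q : ℕ => q.Prime ∧
        ∀ k : ℕ, ¬ q ∣ k → ¬ q ^ 2 ∣ ∑ i ∈ range k, 10 ^ i) := by
    intro q hq
    rw [mem_filter] at hq ⊢
    exact ⟨hq.1, hq.2.1, fun k hk => not_sq_dvd_rep hq.2.1 hq.2.2 hk⟩
  exact card_le_card h2

end B10
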