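import Mathlib

/-!
# Determinants of jets: every row with its own disc

`M` is a square matrix whose rows are `(point, order)`, the entry of row `(b, i)` and column `c`
being the `i`-th Taylor coefficient at `0` of a function `F b c`. Each row may be replaced by
the `i`-th Taylor coefficient of `U * (F b c ∘ Ψ)`, with `U` and `Ψ` (`Ψ 0 = 0`) depending on
the row; this multiplies the determinant by the product of the `U 0 * (Ψ' 0) ^ i`.
-/

namespace B10

open Finset Matrix Filter Topology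

/-! ### The algebraic part -/

/-- a lower triangular change of the rows of a matrix with rows `(pt, ord)` -/
theorem det_lower {ι P K : Type*} [Fintype ι] [DecidableEq ι] [DecidableEq P] [CommRing K]
    (pt : ι → P) (ord : ι → ℕ)
    (hinj : ∀ r s, pt r = pt s → ord r = ord s → r = s) (T : ι → ℕ → K) :
    (Matrix.of fun r s : ι => if pt s = pt r ∧ ord s ≤ ord r then T r (ord s) else 0).det
      = ∏ r, T r (ord r) := by
  classical
  rw [Matrix.det_apply, Finset.sum_eq_single (1 : Equiv.Perm ι)]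
  · simp
  · intro σ _ hσ
    by_contra hne
    have hall : ∀ i, pt i = pt (σ i) ∧ ord i ≤ ord (σ i) := by
      intro i
      by_contra hi
      apply hne
      have h0 : ∏ i, (Matrix.of fun r s : ι =>
          if pt s = pt r ∧ ord s ≤ ord r then T r (ord s) else 0) (σ i) i = 0 := by
        refine Finset.prod_eq_zero (Finset.mem_univ i) ?_
        rw [Matrix.of_apply, if_neg hi]
      rw [h0, smul_zero]
    have hsum : ∑ i, ord (σ i) = ∑ i, ord i := Equiv.sum_comp σ ord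
    have heq : ∀ i, ord i = ord (σ i) := by
      intro i
      by_contra hi
      have hlt : ord i < ord (σ i) := lt_of_le_of_ne (hall i).2 hi
      have : ∑ i, ord i < ∑ i, ord (σ i) :=
        Finset.sum_lt_sum (fun j _ => (hall j).2) ⟨i, Finset.mem_univ i, hlt⟩
      omega
    apply hσ
    ext i
    exact (hinj i (σ i) (hall i).1 (heq i)).symm
  · intro h
    exact absurd (Finset.mem_univ _) h

/-- the change of rows of a matrix of jets -/
theorem det_rows {ι P K : Type*} [Fintype ι] [DecidableEq ι] [CommRing K]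
    (pt : ι → P) (ord : ι → ℕ)
    (hinj : ∀ r s, pt r = pt s → ord r = ord s → r = s)
    (hfull : ∀ r, ∀ j < ord r, ∃ s, pt s = pt r ∧ ord s = j)
    (f : P → ι → ℕ → K) (T : ι → ℕ → K) :
    (Matrix.of fun r c : ι => ∑ j ∈ range (ord r + 1), T r j * f (pt r) c j).det
      = (∏ r, T r (ord r)) * (Matrix.of fun r c : ι => f (pt r) c (ord r)).det := by
  classical
  rw [← det_lower pt ord hinj T, ← Matrix.det_mul]
  congr 1
  ext r c
  rw [Matrix.mul_apply, Matrix.of_apply]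
  have h1 : ∀ s : ι, (Matrix.of fun r s : ι =>
      if pt s = pt r ∧ ord s ≤ ord r then T r (ord s) else 0) r s *
      (Matrix.of fun r c : ι => f (pt r) c (ord r)) s c
      = if pt s = pt r ∧ ord s ≤ ord r then T r (ord s) * f (pt r) c (ord s) else 0 := by
    intro s
    rw [Matrix.of_apply, Matrix.of_apply]
    split_ifs with h
    · rw [h.1]
    · rw [zero_mul]
  rw [Finset.sum_congr rfl fun s _ => h1 s, ← Finset.sum_filter]
  symm
  refine Finset.sum_bij (fun s _ => ord s) ?_ ?_ ?_ ?_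
  · intro s hs
    rw [Finset.mem_filter] at hs
    rw [Finset.mem_range]
    exact Nat.lt_succ_of_le hs.2.2
  · intro s hs s' hs' h
    rw [Finset.mem_filter] at hs hs'
    exact hinj s s' (hs.2.1.trans hs'.2.1.symm) h
  · intro j hj
    rw [Finset.mem_range] at hj
    rcases Nat.lt_or_ge j (ord r) with hlt | hge
    · obtain ⟨s, hs1, hs2⟩ := hfull r j hlt
      exact ⟨s, Finset.mem_filter.mpr ⟨Finset.mem_univ _, hs1, by omega⟩, hs2⟩
    · exact ⟨r, Finset.mem_filter.mpr ⟨Finset.mem_univ _, rfl, le_rfl⟩, by omega⟩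
  · intro s _
    rfl

/-- bound of a determinant by the product of the row bounds -/
theorem norm_det_le {ι K : Type*} [Fintype ι] [DecidableEq ι] [NormedField K]
    (M : Matrix ι ι K) (B : ι → ℝ) (h : ∀ r c, ‖M r c‖ ≤ B r) :
    ‖M.det‖ ≤ (Fintype.card ι).factorial * ∏ r, B r := by
  classical
  rw [Matrix.det_apply]
  refine (norm_sum_le _ _).trans ?_
  have h1 : ∀ σ ∈ (Finset.univ : Finset (Equiv.Perm ι)),
      ‖Equiv.Perm.sign σ • ∏ i, M (σ i) i‖ ≤ ∏ r, B r := by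
    intro σ _
    have h2 : ‖Equiv.Perm.sign σ • ∏ i, M (σ i) i‖ = ∏ i, ‖M (σ i) i‖ := by
      rw [← norm_prod]
      rcases Int.units_eq_one_or (Equiv.Perm.sign σ) with hs | hs
      · rw [hs, one_smul]
      · rw [hs, Units.neg_smul, one_smul, norm_neg]
    rw [h2]
    calc ∏ i, ‖M (σ i) i‖ ≤ ∏ i, B (σ i) :=
          Finset.prod_le_prod (fun i _ => norm_nonneg _) fun i _ => h _ _
      _ = ∏ r, B r := Equiv.prod_comp σ B
  refine (Finset.sum_le_sum h1).trans ?_
  rw [Finset.sum_const, Finset.card_univ, Fintype.card_perm, nsmul_eq_mul]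

/-- the same bound over an ultrametric field -/
theorem norm_det_le_ultra {ι K : Type*} [Fintype ι] [DecidableEq ι] [NormedField K]
    [IsUltrametricDist K] (M : Matrix ι ι K) (B : ι → ℝ) (hB : ∀ r, 0 ≤ B r)
    (h : ∀ r c, ‖M r c‖ ≤ B r) : ‖M.det‖ ≤ ∏ r, B r := by
  classical
  rw [Matrix.det_apply]
  refine IsUltrametricDist.norm_sum_le_of_forall_le_of_nonneg
    (Finset.prod_nonneg fun r _ => hB r) fun σ _ => ?_
  have h2 : ‖Equiv.Perm.sign σ • ∏ i, M (σ i) i‖ = ∏ i, ‖M (σ i) i‖ := by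
    rw [← norm_prod]
    rcases Int.units_eq_one_or (Equiv.Perm.sign σ) with hs | hs
    · rw [hs, one_smul]
    · rw [hs, Units.neg_smul, one_smul, norm_neg]
  rw [h2]
  calc ∏ i, ‖M (σ i) i‖ ≤ ∏ i, B (σ i) :=
        Finset.prod_le_prod (fun i _ => norm_nonneg _) fun i _ => h _ _
    _ = ∏ r, B r := Equiv.prod_comp σ B

/-- **Rows with their own weights**, any normed field: `M` is the matrix of jets, `W` a change
of the columns, `T r` the coefficients of the new row `r`. -/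
theorem det_jets_le {ι P K : Type*} [Fintype ι] [DecidableEq ι] [NormedField K]
    (pt : ι → P) (ord : ι → ℕ)
    (hinj : ∀ r s, pt r = pt s → ord r = ord s → r = s)
    (hfull : ∀ r, ∀ j < ord r, ∃ s, pt s = pt r ∧ ord s = j)
    (f : P → ι → ℕ → K) (T : ι → ℕ → K) (W : Matrix ι ι K) (B : ι → ℝ)
    (hB : ∀ r c, ‖∑ j ∈ range (ord r + 1), T r j * ∑ d, f (pt r) d j * W d c‖ ≤ B r) :
    ‖(Matrix.of fun r c : ι => f (pt r) c (ord r)).det‖ * ‖W.det‖ * ∏ r, ‖T r (ord r)‖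
      ≤ (Fintype.card ι).factorial * ∏ r, B r := by
  have h1 := det_rows pt ord hinj hfull (fun b c j => ∑ d, f b d j * W d c) T
  have h2 : (Matrix.of fun r c : ι => ∑ d, f (pt r) d (ord r) * W d c)
      = (Matrix.of fun r c : ι => f (pt r) c (ord r)) * W := by
    ext r c
    rw [Matrix.mul_apply]; rfl
  rw [h2, Matrix.det_mul] at h1
  have h3 := norm_det_le (Matrix.of fun r c : ι => ∑ j ∈ range (ord r + 1),
    T r j * ∑ d, f (pt r) d j * W d c) B (fun r c => hB r c)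
  rw [h1, norm_mul, norm_mul, norm_prod] at h3
  calc _ = (∏ r, ‖T r (ord r)‖) *
        (‖(Matrix.of fun r c : ι => f (pt r) c (ord r)).det‖ * ‖W.det‖) := by ring
    _ ≤ _ := h3

/-- **Rows with their own weights**, ultrametric field. -/
theorem det_jets_le_ultra {ι P K : Type*} [Fintype ι] [DecidableEq ι] [NormedField K]
    [IsUltrametricDist K] (pt : ι → P) (ord : ι → ℕ)
    (hinj : ∀ r s, pt r = pt s → ord r = ord s → r = s)
    (hfull : ∀ r, ∀ j < ord r, ∃ s, pt s = pt r ∧ ord s = j)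
    (f : P → ι → ℕ → K) (T : ι → ℕ → K) (W : Matrix ι ι K) (B : ι → ℝ) (hB0 : ∀ r, 0 ≤ B r)
    (hB : ∀ r c, ‖∑ j ∈ range (ord r + 1), T r j * ∑ d, f (pt r) d j * W d c‖ ≤ B r) :
    ‖(Matrix.of fun r c : ι => f (pt r) c (ord r)).det‖ * ‖W.det‖ * ∏ r, ‖T r (ord r)‖
      ≤ ∏ r, B r := by
  have h1 := det_rows pt ord hinj hfull (fun b c j => ∑ d, f b d j * W d c) T
  have h2 : (Matrix.of fun r c : ι => ∑ d, f (pt r) d (ord r) * W d c)
      = (Matrix.of fun r c : ι => f (pt r) c (ord r)) * W := by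
    ext r c
    rw [Matrix.mul_apply]; rfl
  rw [h2, Matrix.det_mul] at h1
  have h3 := norm_det_le_ultra (Matrix.of fun r c : ι => ∑ j ∈ range (ord r + 1),
    T r j * ∑ d, f (pt r) d j * W d c) B hB0 (fun r c => hB r c)
  rw [h1, norm_mul, norm_mul, norm_prod] at h3
  calc _ = (∏ r, ‖T r (ord r)‖) *
        (‖(Matrix.of fun r c : ι => f (pt r) c (ord r)).det‖ * ‖W.det‖) := by ring
    _ ≤ _ := h3

/-! ### Taylor coefficients -/

/-- the `i`-th Taylor coefficient at `0` -/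
noncomputable def tc (i : ℕ) (g : ℂ → ℂ) : ℂ := iteratedDeriv i g 0 / i.factorial

theorem tc_congr {i : ℕ} {g h : ℂ → ℂ} (e : g =ᶠ[𝓝 0] h) : tc i g = tc i h := by
  unfold tc; rw [e.iteratedDeriv_eq]

theorem tc_add {i : ℕ} {g h : ℂ → ℂ} (hg : AnalyticAt ℂ g 0) (hh : AnalyticAt ℂ h 0) :
    tc i (fun t => g t + h t) = tc i g + tc i h := by
  unfold tc
  rw [iteratedDeriv_fun_add hg.contDiffAt hh.contDiffAt, add_div]

theorem tc_sum {i : ℕ} {α : Type*} (s : Finset α) (g : α → ℂ → ℂ)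
    (hg : ∀ a ∈ s, AnalyticAt ℂ (g a) 0) :
    tc i (fun t => ∑ a ∈ s, g a t) = ∑ a ∈ s, tc i (g a) := by
  unfold tc
  rw [iteratedDeriv_fun_sum fun a ha => (hg a ha).contDiffAt, Finset.sum_div]

theorem tc_const_mul {i : ℕ} {g : ℂ → ℂ} (c : ℂ) :
    tc i (fun t => c * g t) = c * tc i g := by
  unfold tc
  rw [iteratedDeriv_const_mul_field, mul_div_assoc]

theorem tc_mul_const {i : ℕ} {g : ℂ → ℂ} (c : ℂ) :
    tc i (fun t => g t * c) = tc i g * c := by
  have h : (fun t => g t * c) = fun t => c * g t := by funext t; ring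
  rw [h, tc_const_mul, mul_comm]

theorem tc_eq_zero_of_order {i n : ℕ} (hin : i < n) {g : ℂ → ℂ} (hg : AnalyticAt ℂ g 0) :
    tc i (fun t => t ^ n * g t) = 0 := by
  unfold tc
  have han : AnalyticAt ℂ (fun t : ℂ => t ^ n * g t) 0 := by fun_prop
  have hord : (n : ℕ∞) ≤ analyticOrderAt (fun t : ℂ => t ^ n * g t) 0 := by
    refine (natCast_le_analyticOrderAt han).mpr ⟨g, hg, ?_⟩
    filter_upwards with z
    simp
  rw [(natCast_le_analyticOrderAt_iff_iteratedDeriv_eq_zero han).mp hord i hin, zero_div]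

theorem tc_zero_eq {g : ℂ → ℂ} : tc 0 g = g 0 := by
  unfold tc; simp

theorem tc_pow_mul {i : ℕ} {g : ℂ → ℂ} (hg : AnalyticAt ℂ g 0) :
    tc i (fun t => t ^ i * g t) = g 0 := by
  obtain ⟨H, hH, hE⟩ := hg.exists_eventuallyEq_sum_add_pow_mul 1
  have e : (fun t => t ^ i * g t) =ᶠ[𝓝 0] fun t => g 0 * t ^ i + t ^ (i + 1) * H t := by
    filter_upwards [hE] with t ht
    rw [ht]
    simp
    ring
  rw [tc_congr e, tc_add (by fun_prop) (by fun_prop), tc_eq_zero_of_order (Nat.lt_succ_self i) hH,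
    add_zero, tc_const_mul]
  unfold tc
  rw [iteratedDeriv_fun_pow_zero]
  simp [Nat.factorial_ne_zero]

/-- the coefficients of `U * (F ∘ Ψ)` -/
theorem tc_comp {U Ψ F : ℂ → ℂ} (hU : AnalyticAt ℂ U 0) (hΨ : AnalyticAt ℂ Ψ 0)
    (hF : AnalyticAt ℂ F 0) (h0 : Ψ 0 = 0) (i : ℕ) :
    tc i (fun t => U t * F (Ψ t))
      = ∑ j ∈ range (i + 1), tc i (fun t => U t * Ψ t ^ j) * tc j F := by
  obtain ⟨H, hH, hE⟩ := hF.exists_eventuallyEq_sum_add_pow_mul (i + 1)
  obtain ⟨Ψ1, hΨ1, hE1⟩ := hΨ.exists_eventuallyEq_sum_add_pow_mul 1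
  have hE1' : ∀ᶠ t in 𝓝 0, Ψ t = t * Ψ1 t := by
    filter_upwards [hE1] with t ht
    rw [ht]
    simp [h0]
  have hcont : Tendsto Ψ (𝓝 0) (𝓝 0) := by
    have := hΨ.continuousAt.tendsto
    rwa [h0] at this
  have hEt : ∀ᶠ t in 𝓝 0, F (Ψ t) = (∑ j ∈ range (i + 1), (Ψ t ^ j / j.factorial) •
      iteratedDeriv j F 0) + Ψ t ^ (i + 1) • H (Ψ t) := hcont.eventually hE
  have hHΨ : AnalyticAt ℂ (fun t => H (Ψ t)) 0 := by
    have h1 : AnalyticAt ℂ H (Ψ 0) := by rw [h0]; exact hH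
    exact h1.fun_comp hΨ
  have hrem : AnalyticAt ℂ (fun t => U t * Ψ1 t ^ (i + 1) * H (Ψ t)) 0 :=
    (hU.fun_mul (hΨ1.fun_pow (i + 1))).fun_mul hHΨ
  have hrem' : AnalyticAt ℂ (fun t => t ^ (i + 1) * (U t * Ψ1 t ^ (i + 1) * H (Ψ t))) 0 :=
    (analyticAt_id.fun_pow (i + 1)).fun_mul hrem
  have e : (fun t => U t * F (Ψ t)) =ᶠ[𝓝 0] fun t =>
      (∑ j ∈ range (i + 1), (U t * Ψ t ^ j) * tc j F)
        + t ^ (i + 1) * (U t * Ψ1 t ^ (i + 1) * H (Ψ t)) := by
    filter_upwards [hEt, hE1'] with t ht ht1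
    rw [ht, mul_add]
    congr 1
    · rw [Finset.mul_sum]
      refine Finset.sum_congr rfl fun j _ => ?_
      rw [smul_eq_mul]
      unfold tc
      ring
    · rw [smul_eq_mul]
      rw [show Ψ t ^ (i + 1) = (t * Ψ1 t) ^ (i + 1) by rw [← ht1]]
      rw [mul_pow]
      ring
  rw [tc_congr e, tc_add (Finset.analyticAt_fun_sum _ fun j _ => by fun_prop) hrem',
    tc_eq_zero_of_order (Nat.lt_succ_self i) hrem, add_zero,
    tc_sum _ _ fun j _ => by fun_prop]
  exact Finset.sum_congr rfl fun j _ => tc_mul_const _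

/-- the leading coefficient -/
theorem tc_diag {U Ψ : ℂ → ℂ} (hU : AnalyticAt ℂ U 0) (hΨ : AnalyticAt ℂ Ψ 0)
    (h0 : Ψ 0 = 0) (i : ℕ) :
    tc i (fun t => U t * Ψ t ^ i) = U 0 * deriv Ψ 0 ^ i := by
  obtain ⟨Ψ1, hΨ1, hE1⟩ := hΨ.exists_eventuallyEq_sum_add_pow_mul 1
  have hE1' : ∀ᶠ t in 𝓝 0, Ψ t = t * Ψ1 t := by
    filter_upwards [hE1] with t ht
    rw [ht]
    simp [h0]
  have hd : deriv Ψ 0 = Ψ1 0 := by
    have h1 : deriv Ψ 0 = deriv (fun t => t * Ψ1 t) 0 :=
      Filter.EventuallyEq.deriv_eq hE1'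
    rw [h1]
    have h2 := (hasDerivAt_id' (0 : ℂ)).fun_mul hΨ1.differentiableAt.hasDerivAt
    have h3 := h2.deriv
    rw [h3]
    ring
  have e : (fun t => U t * Ψ t ^ i) =ᶠ[𝓝 0] fun t => t ^ i * (U t * Ψ1 t ^ i) := by
    filter_upwards [hE1'] with t ht
    rw [ht, mul_pow]
    ring
  rw [tc_congr e, tc_pow_mul (by fun_prop), hd]

/-- Cauchy's estimate on the unit disc -/
theorem norm_tc_le {G : ℂ → ℂ} {C : ℝ} (hG : DiffContOnCl ℂ G (Metric.ball 0 1))
    (hC : ∀ t : ℂ, ‖t‖ = 1 → ‖G t‖ ≤ C) (i : ℕ) : ‖tc i G‖ ≤ C := by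
  have h := Complex.norm_iteratedDeriv_le_of_forall_mem_sphere_norm_le i one_pos hG
    (fun z hz => hC z (by simpa using hz))
  unfold tc
  rw [norm_div, Complex.norm_natCast, div_le_iff₀ (by exact_mod_cast Nat.factorial_pos i)]
  simpa [mul_comm] using h

/-- **Rows with their own disc and unit.** The entry of row `r` and column `c` is the Taylor
coefficient of order `ord r` of `F (pt r) c` at `0`; `W` is a change of the columns; for the row
`r`, `U r * (new function ∘ Ψ r)` continues to a function `G r c` on the unit disc which is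
at most `B r` on the unit circle. -/
theorem det_disc_le {ι P : Type*} [Fintype ι] [DecidableEq ι]
    (pt : ι → P) (ord : ι → ℕ)
    (hinj : ∀ r s, pt r = pt s → ord r = ord s → r = s)
    (hfull : ∀ r, ∀ j < ord r, ∃ s, pt s = pt r ∧ ord s = j)
    (F : P → ι → ℂ → ℂ) (hF : ∀ b c, AnalyticAt ℂ (F b c) 0)
    (W : Matrix ι ι ℂ) (U Ψ : ι → ℂ → ℂ) (hU : ∀ r, AnalyticAt ℂ (U r) 0)
    (hΨ : ∀ r, AnalyticAt ℂ (Ψ r) 0) (h0 : ∀ r, Ψ r 0 = 0)
    (G : ι → ι → ℂ → ℂ) (hG : ∀ r c, DiffContOnCl ℂ (G r c) (Metric.ball 0 1))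
    (hGe : ∀ r c, G r c =ᶠ[𝓝 0] fun t => U r t * ∑ d, F (pt r) d (Ψ r t) * W d c)
    (B : ι → ℝ) (hB : ∀ r c (t : ℂ), ‖t‖ = 1 → ‖G r c t‖ ≤ B r) :
    ‖(Matrix.of fun r c : ι => tc (ord r) (F (pt r) c)).det‖ * ‖W.det‖
        * ∏ r, (‖U r 0‖ * ‖deriv (Ψ r) 0‖ ^ ord r)
      ≤ (Fintype.card ι).factorial * ∏ r, B r := by
  have hT : ∀ r, ‖tc (ord r) (fun t => U r t * Ψ r t ^ ord r)‖
      = ‖U r 0‖ * ‖deriv (Ψ r) 0‖ ^ ord r := by
    intro r
    rw [tc_diag (hU r) (hΨ r) (h0 r), norm_mul, norm_pow]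
  have key := det_jets_le pt ord hinj hfull (fun b c j => tc j (F b c))
    (fun r j => tc (ord r) (fun t => U r t * Ψ r t ^ j)) W B ?_
  · rw [← Finset.prod_congr rfl fun r _ => hT r]
    exact key
  · intro r c
    have hsumF : AnalyticAt ℂ (fun x => ∑ d, F (pt r) d x * W d c) 0 :=
      Finset.analyticAt_fun_sum _ fun d _ => (hF _ _).fun_mul analyticAt_const
    have h1 : ∀ j, ∑ d, tc j (F (pt r) d) * W d c
        = tc j (fun x => ∑ d, F (pt r) d x * W d c) := by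
      intro j
      rw [tc_sum Finset.univ (fun d x => F (pt r) d x * W d c)
        fun d _ => (hF _ _).fun_mul analyticAt_const]
      exact Finset.sum_congr rfl fun d _ => (tc_mul_const _).symm
    have h2 : ∑ j ∈ range (ord r + 1), tc (ord r) (fun t => U r t * Ψ r t ^ j) *
        ∑ d, tc j (F (pt r) d) * W d c = tc (ord r) (G r c) := by
      rw [tc_congr (hGe r c), tc_comp (hU r) (hΨ r) hsumF (h0 r)]
      exact Finset.sum_congr rfl fun j _ => by rw [h1 j]
    rw [h2]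
    exact norm_tc_le (hG r c) (fun t ht => hB r c t ht) _

end B10
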