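import Pool.Agent.Lib.B10.PriceStep

/-!
# Base 10, S-adic block: definitions

`Bd x C L P`: the coefficients of index `i < L` of the power series `P` are at most
`C exp (x i)` (Gauss norm on the disc of radius `exp (-x)`, truncated).
`Red B M R c`: up to the factor `exp c` the rows `r ∈ R` of `M` may be replaced by rows with
entries of norm at most `B`.
-/

set_option autoImplicit false

namespace B10

open Finset Matrix

/-- coefficients of index `< L` at most `C exp (x i)` -/
def Bd {K : Type*} [NormedField K] (x C : ℝ) (L : ℕ) (P : PowerSeries K) : Prop :=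
  ∀ i < L, ‖PowerSeries.coeff i P‖ ≤ C * Real.exp (x * i)

/-- `(α + α' X)⁻¹` -/
noncomputable def xinv {K : Type*} [NormedField K] (α α' : K) : PowerSeries K :=
  PowerSeries.mk fun j => (-α') ^ j / α ^ (j + 1)

/-- `α + α' X` -/
noncomputable def sx {K : Type*} [NormedField K] (α α' : K) : PowerSeries K :=
  PowerSeries.C α + PowerSeries.C α' * PowerSeries.X

/-- `(β + β' X) / (α + α' X)` -/
noncomputable def st {K : Type*} [NormedField K] (α α' β β' : K) : PowerSeries K :=
  sx β β' * xinv α α'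

/-- `log (1 + w X)` -/
noncomputable def Lg {K : Type*} [NormedField K] (w : K) : PowerSeries K :=
  PowerSeries.mk fun j => (-1) ^ (j + 1) * w ^ j / j

variable {ι : Type*} [Fintype ι] [DecidableEq ι]

/-- up to the factor `exp c` the rows in `R` may be replaced by rows of norm at most `B` -/
def Red {K : Type*} [NormedField K] (B : ℝ) (M : Matrix ι ι K) (R : Finset ι) (c : ℝ) : Prop :=
  ∀ D : ℝ, 0 ≤ D → (∀ M' : Matrix ι ι K, (∀ r ∉ R, M' r = M r) →
    (∀ r ∈ R, ∀ j, ‖M' r j‖ ≤ B) → ‖M'.det‖ ≤ D) → ‖M.det‖ ≤ D * Real.exp c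

theorem Red.mono {K : Type*} [NormedField K] {B : ℝ} {M : Matrix ι ι K} {R : Finset ι} {c c' : ℝ}
    (h : Red B M R c) (hc : c ≤ c') : Red B M R c' := fun D hD H =>
  (h D hD H).trans (mul_le_mul_of_nonneg_left (Real.exp_le_exp.mpr hc) hD)

/-- one step, then a statement for the replaced rows -/
theorem Red.of_step {K : Type*} [NormedField K] [IsUltrametricDist K]
    {F : Type*} [Fintype F] [DecidableEq F] {N : ℕ} [Nonempty (F × Fin N)]
    (B : ℝ) (M : Matrix ι ι K) (R : Finset ι) (a : ι → F × Fin N → K) (V : F × Fin N → ι → K)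
    (hM : ∀ r ∈ R, M r = ∑ s, a r s • V s) (lam : F → ℝ) (x A : ℝ) (hx : 0 ≤ x)
    (hA : 1 ≤ A) (c : ι → ℝ)
    (ha : ∀ r ∈ R, ∀ s : F × Fin N,
      ‖a r s‖ ≤ A * Real.exp (c r + x * (lam s.1 - ((s.2 : ℕ) : ℝ))))
    (hV : ∀ s j, ‖V s j‖ ≤ B) :
    Red B M R (∑ r ∈ R, c r + x * ((∑ f, lam f ^ 2) / 2 + (R.card : ℝ) / 2)
      + R.card * Real.log A) := by
  intro D hD H
  have hA0 : (0 : ℝ) < A := by linarith
  have h := price_step M R a V hM lam x A D hx hA0.le hD c (fun _ => 0)
    (fun r hr s => by simpa using ha r hr s) (fun σ _ => by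
      have : ‖(repl M R V σ).det‖ ≤ D := by
        refine H _ (fun r hr => repl_not_mem M R V σ hr) (fun r hr j => ?_)
        rw [repl_mem M R V σ hr]
        exact hV _ j
      simpa using this)
  refine h.trans (le_of_eq ?_)
  have e : A ^ R.card = Real.exp (R.card * Real.log A) := by
    rw [Real.exp_nat_mul, Real.exp_log hA0]
  rw [e, Real.exp_add _ (R.card * Real.log A)]
  ring

/-- the last step: all rows have norm at most `B r` -/
theorem det_le_of_rows {K : Type*} [NormedField K] [IsUltrametricDist K]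
    (M : Matrix ι ι K) (B : ι → ℝ) (hB : ∀ r j, ‖M r j‖ ≤ B r) : ‖M.det‖ ≤ ∏ r, B r :=
  det_norm_le_prod M B hB

end B10
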