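import Pool.Agent.Lib.B10.STypeA

/-!
# Base 10, S-adic block, type Z: three nested discs (the 2-adic chain)

Families `s : Bool ⊕ Fin 3`: `inl false` = slot `1` (merged), `inl true` = slot `Y` / `h`,
`inr u` = the three logs.  `e s j` = the polynomials of the outer disc, `f s j` = the polynomials
in the two inner discs (`f = e` except `f h = e Y + Psi * e (inr 0)`).  Prices `lam`, `lam'`,
`lam''` of the three discs, `P' s` = what the row of the family `s` pays in the outer disc.
-/

set_option autoImplicit false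

namespace B10

open Finset Matrix Polynomial

/-- the families -/
abbrev Fam : Type := Bool ⊕ Fin 3

variable {ι : Type*} [Fintype ι] [DecidableEq ι]

section aux

variable {K : Type*} [NormedField K] [IsUltrametricDist K]

/-- a row in slot form -/
theorem STypeZ_row {D : ℕ} (i : ℕ) (c : Fam → PowerSeries K) (th : PowerSeries K)
    (f : Fam → K[X]) (hf : ∀ s, (f s).natDegree < D) :
    PowerSeries.coeff i (∑ s, c s * aeval th (f s)) =
      ∑ s : Fam × Fin D, PowerSeries.coeff i (c s.1 * th ^ (s.2 : ℕ)) * (f s.1).coeff s.2 := by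
  rw [map_sum, Fintype.sum_prod_type]
  refine Finset.sum_congr rfl fun s _ => ?_
  rw [STypeB_aeval th (f s) (hf s), Finset.mul_sum, map_sum]
  refine Finset.sum_congr rfl fun m _ => ?_
  have : c s * (PowerSeries.C ((f s).coeff m) * th ^ (m : ℕ)) =
      PowerSeries.C ((f s).coeff m) * (c s * th ^ (m : ℕ)) := by ring
  rw [this, PowerSeries.coeff_C_mul, mul_comm]

theorem STypeZ_slot {y x B w : ℝ} {L : ℕ} {i : ℕ} (hi : i < L) (hy : 0 ≤ y) (hB : 0 ≤ B)
    {c th : PowerSeries K} (hc : Bd y (B * Real.exp (-(x * w))) L c)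
    (hth : Bd y (Real.exp (-x)) L th) (m : ℕ) :
    ‖PowerSeries.coeff i (c * th ^ m)‖ ≤ B * Real.exp (y * i - x * w - x * m) := by
  have h1 := STypeB_bd_mul (by positivity) (Real.exp_pos _).le hc (STypeB_bd_pow hy hth m) i hi
  refine h1.trans (le_of_eq ?_)
  rw [mul_assoc, mul_assoc, ← Real.exp_add, ← Real.exp_add]
  congr 2; ring

/-- coefficients of `(a + b X) ^ n` -/
theorem STypeZ_lin_pow {a b : K} {y : ℝ} (ha : ‖a‖ ≤ Real.exp (-y)) (hb : ‖b‖ ≤ Real.exp (-y))
    (n k : ℕ) : ‖((C a + C b * X) ^ n : K[X]).coeff k‖ ≤ Real.exp (-(y * n)) := by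
  induction n generalizing k with
  | zero =>
    rw [pow_zero, Polynomial.coeff_one]
    split_ifs
    · simp
    · simp
  | succ n ih =>
    rw [pow_succ]
    have h1 : ∀ k, ‖((C a + C b * X : K[X])).coeff k‖ ≤ Real.exp (-y) := by
      intro k
      refine STypeA_coeff_add_norm _ _ (fun k => ?_) (fun k => ?_) k
      · rw [Polynomial.coeff_C]
        split_ifs
        · exact ha
        · rw [norm_zero]; positivity
      · rw [Polynomial.coeff_C_mul, Polynomial.coeff_X]
        split_ifs
        · rw [mul_one]; exact hb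
        · rw [mul_zero, norm_zero]; positivity
    refine (STypeA_coeff_mul_norm _ _ (Real.exp_pos _).le (Real.exp_pos _).le
      (fun k => ih k) h1 k).trans (le_of_eq ?_)
    rw [← Real.exp_add]
    congr 1; push_cast; ring

omit [IsUltrametricDist K] in
theorem STypeZ_comp_eq {D : ℕ} (p r : K[X]) (hp : p.natDegree < D) :
    p.comp r = ∑ n : Fin D, C (p.coeff n) * r ^ (n : ℕ) := by
  rw [Polynomial.comp_eq_sum_left, Polynomial.sum_over_range' p (by simp) D hp, Finset.sum_range]

omit [IsUltrametricDist K] in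
theorem STypeZ_comp_coeff {D : ℕ} (p r : K[X]) (hp : p.natDegree < D) (k : ℕ) :
    (p.comp r).coeff k = ∑ n : Fin D, (r ^ (n : ℕ)).coeff k * p.coeff n := by
  rw [Polynomial.comp_eq_sum_left, Polynomial.sum_over_range' p (by simp) D hp,
    Polynomial.finsetSum_coeff, Finset.sum_range]
  refine Finset.sum_congr rfl fun n _ => ?_
  rw [Polynomial.coeff_C_mul, mul_comm]

end aux

/-- **Type Z**: three nested discs with the same centre `tau` for the two inner ones. -/
theorem red_typeZ {K : Type*} [NormedField K] [IsUltrametricDist K]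
    (M : Matrix ι ι K) (Rb Rc Ro : Finset ι) (hbc : Disjoint Rb Rc) (hbo : Disjoint Rb Ro)
    (hco : Disjoint Rc Ro) (ord : ι → ℕ) (L D : ℕ) [NeZero D]
    (x B : ℝ) (hx : 0 ≤ x) (hB : 1 ≤ B) (e f : Fam → ι → K[X])
    (he : ∀ s j k, ‖(e s j).coeff k‖ ≤ B) (heD : ∀ s j, (e s j).natDegree < D)
    (hfD : ∀ s j, (f s j).natDegree < D)
    (Psi : K[X]) (hf1 : ∀ s, s ≠ Sum.inl true → f s = e s)
    (hf2 : ∀ j, f (Sum.inl true) j = e (Sum.inl true) j + Psi * e (Sum.inr 0) j)
    (pi tau : K) (hpi : ‖pi‖ = Real.exp (-x)) (htau : ‖tau‖ ≤ Real.exp (-x)) (fC : ℝ)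
    (hPsi : ∀ k, ‖(Psi.comp (C tau + C pi * X)).coeff k‖ ≤ B * Real.exp (-(x * fC)))
    -- the rows
    (c : ι → Fam → PowerSeries K) (th : ι → PowerSeries K) (wb wc wo : Fam → ℝ)
    (hrowb : ∀ r ∈ Rb, ∀ j, M r j = PowerSeries.coeff (ord r)
      (∑ s, c r s * aeval (PowerSeries.X : PowerSeries K) (e s j)))
    (hcb : ∀ r ∈ Rb, ∀ s, Bd x (B * Real.exp (-(x * wb s))) L (c r s))
    (hrowc : ∀ r ∈ Rc, ∀ j, M r j = PowerSeries.coeff (ord r)
      (∑ s, c r s * aeval (th r) ((f s j).comp (C tau + C pi * X))))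
    (hcc : ∀ r ∈ Rc, ∀ s, Bd (2 * x) (B * Real.exp (-(x * wc s))) L (c r s))
    (hthc : ∀ r ∈ Rc, Bd (2 * x) (Real.exp (-x)) L (th r))
    (hrowo : ∀ r ∈ Ro, ∀ j, M r j = PowerSeries.coeff (ord r)
      (∑ s, c r s * aeval (th r) ((f s j).comp (C tau + C (pi ^ 2) * X))))
    (hcoo : ∀ r ∈ Ro, ∀ s, Bd (3 * x) (B * Real.exp (-(x * wo s))) L (c r s))
    (htho : ∀ r ∈ Ro, Bd (3 * x) (Real.exp (-x)) L (th r))
    (hord : ∀ r ∈ Rb ∪ (Rc ∪ Ro), ord r < L)
    -- the prices
    (lam lam' lam'' P' : Fam → ℝ) (P0 P1 P2 : ℝ)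
    (hP'1 : ∀ s, s ≠ Sum.inl true → P' s ≤ lam s) (hP'2 : P' (Sum.inl true) ≤ lam (Sum.inl true))
    (hP'3 : P' (Sum.inl true) ≤ fC + lam (Sum.inr 0))
    (hP0 : ∀ s, P0 ≤ wb s + lam s) (hP1 : ∀ s, P1 ≤ wc s + lam' s + P' s)
    (hP2 : ∀ s, P2 ≤ wo s + lam'' s + (lam' s + P' s)) :
    Red B M (Rb ∪ (Rc ∪ Ro)) (x * (∑ r ∈ Rb, ((ord r : ℝ) - P0) +
      ∑ r ∈ Rc, (2 * (ord r : ℝ) - P1) + ∑ r ∈ Ro, (3 * (ord r : ℝ) - P2)) +
      x * ((∑ s, lam s ^ 2) / 2 + (∑ s, lam' s ^ 2) / 2 + (∑ s, lam'' s ^ 2) / 2 +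
        3 * ((Rb ∪ (Rc ∪ Ro)).card : ℝ) / 2) +
      3 * (Rb ∪ (Rc ∪ Ro)).card * Real.log B) := by
  classical
  have hB0 : 0 ≤ B := by linarith
  have hBp : 0 < B := by linarith
  have hlogB : 0 ≤ Real.log B := Real.log_nonneg hB
  -- disjointness
  have hb_co : Disjoint Rb (Rc ∪ Ro) := Finset.disjoint_union_right.mpr ⟨hbc, hbo⟩
  set f' : Fam → ι → K[X] := fun s j => (f s j).comp (C tau + C pi * X) with hf'
  set f'' : Fam → ι → K[X] := fun s j => (f s j).comp (C tau + C (pi ^ 2) * X) with hf''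
  have hlin : ∀ a b : K, (C a + C b * X : K[X]).natDegree ≤ 1 := fun a b => by
    refine (Polynomial.natDegree_add_le _ _).trans (max_le (by simp) ?_)
    exact (Polynomial.natDegree_C_mul_le _ _).trans (by simp)
  have hcompD : ∀ (a b : K) (p : K[X]), p.natDegree < D → (p.comp (C a + C b * X)).natDegree < D :=
    fun a b p hp => lt_of_le_of_lt (Polynomial.natDegree_comp_le.trans
      (Nat.mul_le_mul_left _ (hlin a b))) (by omega)
  have hf'D : ∀ s j, (f' s j).natDegree < D := fun s j => hcompD _ _ _ (hfD s j)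
  have hf''D : ∀ s j, (f'' s j).natDegree < D := fun s j => hcompD _ _ _ (hfD s j)
  -- the vectors
  set V : Fam × Fin D → ι → K := fun s j => (e s.1 j).coeff s.2 with hV
  set V' : Fam × Fin D → ι → K := fun s j => (f' s.1 j).coeff s.2 with hV'
  set V'' : Fam × Fin D → ι → K := fun s j => (f'' s.1 j).coeff s.2 with hV''
  -- `V''` from `V'`
  have hV''V' : ∀ s : Fam × Fin D, V'' s = pi ^ (s.2 : ℕ) • V' s := by
    intro s
    funext j
    simp only [hV'', hV', hf'', hf', Pi.smul_apply, smul_eq_mul]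
    have h1 : (C tau + C (pi ^ 2) * X : K[X]) = (C tau + C pi * X).comp (C pi * X) := by
      simp only [add_comp, C_comp, mul_comp, X_comp, map_pow]
      ring
    rw [h1, ← Polynomial.comp_assoc, Polynomial.comp_C_mul_X_coeff, mul_comm]
  -- `V'` from `V`
  have hV'V : ∀ s : Fam × Fin D, ∃ a : Fam × Fin D → K, V' s = ∑ t, a t • V t ∧
      ∀ t, ‖a t‖ ≤ B * Real.exp (x * (lam t.1 - P' s.1) - x * (t.2 : ℕ)) := by
    rintro ⟨s, k⟩
    have hpi' : ‖pi‖ ≤ Real.exp (-x) := hpi.le
    by_cases hs : s = Sum.inl true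
    · subst hs
      refine ⟨fun t => match t.1 with
        | Sum.inl true => ((C tau + C pi * X : K[X]) ^ (t.2 : ℕ)).coeff k
        | Sum.inl false => 0
        | Sum.inr 0 => (Psi.comp (C tau + C pi * X) * (C tau + C pi * X : K[X]) ^ (t.2 : ℕ)).coeff k
        | Sum.inr 1 => 0
        | Sum.inr 2 => 0, ?_, ?_⟩
      · funext j
        rw [Finset.sum_apply, Fintype.sum_prod_type, Fintype.sum_sum_type, Fintype.sum_bool,
          Fin.sum_univ_three]
        simp only [hV', hf', hV, Pi.smul_apply, smul_eq_mul, zero_mul, Finset.sum_const_zero,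
          add_zero]
        rw [hf2 j, add_comp, coeff_add, STypeZ_comp_coeff _ _ (heD _ j), mul_comp]
        congr 1
        rw [STypeZ_comp_eq (e (Sum.inr 0) j) _ (heD _ j), Finset.mul_sum,
          Polynomial.finsetSum_coeff]
        refine Finset.sum_congr rfl fun n _ => ?_
        have : Psi.comp (C tau + C pi * X) * (C ((e (Sum.inr 0) j).coeff n) *
            (C tau + C pi * X) ^ (n : ℕ)) = C ((e (Sum.inr 0) j).coeff n) *
            (Psi.comp (C tau + C pi * X) * (C tau + C pi * X) ^ (n : ℕ)) := by ring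
        rw [this, Polynomial.coeff_C_mul, mul_comm]
      · rintro ⟨t, n⟩
        have hlp := STypeZ_lin_pow (K := K) htau hpi' (n : ℕ)
        have hz : (0 : ℝ) ≤ B * Real.exp (x * (lam t - P' (Sum.inl true)) - x * (n : ℕ)) := by
          positivity
        rcases t with (_ | _) | u
        · simpa using hz
        · refine (hlp k).trans ?_
          refine le_trans (Real.exp_le_exp.mpr ?_) (le_mul_of_one_le_left (Real.exp_pos _).le hB)
          nlinarith [mul_le_mul_of_nonneg_left hP'2 hx]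
        · fin_cases u
          · refine (STypeA_coeff_mul_norm _ _ (by positivity) (Real.exp_pos _).le hPsi hlp
              k).trans ?_
            rw [mul_assoc, ← Real.exp_add]
            refine mul_le_mul_of_nonneg_left (Real.exp_le_exp.mpr ?_) hB0
            have := mul_le_mul_of_nonneg_left hP'3 hx
            simp only [Fin.zero_eta, Fin.isValue]
            nlinarith [this]
          · simpa using hz
          · simpa using hz
    · refine ⟨fun t => if t.1 = s then ((C tau + C pi * X : K[X]) ^ (t.2 : ℕ)).coeff k else 0,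
        ?_, ?_⟩
      · funext j
        rw [Finset.sum_apply, Fintype.sum_prod_type, Finset.sum_eq_single s]
        · simp only [hV', hf', hV, Pi.smul_apply, smul_eq_mul, if_true]
          rw [hf1 s hs, STypeZ_comp_coeff _ _ (heD _ j)]
        · intro t _ ht
          simp [ht]
        · intro h
          exact absurd (Finset.mem_univ _) h
      · rintro ⟨t, n⟩
        have hlp := STypeZ_lin_pow (K := K) htau hpi' (n : ℕ)
        simp only
        split_ifs with h
        · subst h
          refine (hlp k).trans ?_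
          refine le_trans (Real.exp_le_exp.mpr ?_) (le_mul_of_one_le_left (Real.exp_pos _).le hB)
          nlinarith [mul_le_mul_of_nonneg_left (hP'1 t hs) hx]
        · rw [norm_zero]; positivity
  choose aV haV1 haV2 using hV'V
  intro Dd hDd H
  -- step 1: the outer disc
  have step1 : ∀ (M2 : Matrix ι ι K) (sg : ι → Fam × Fin D),
      (∀ r ∉ Rc ∪ Ro, M2 r = M r) → (∀ r ∈ Rc ∪ Ro, M2 r = V' (sg r)) →
      ‖M2.det‖ ≤ Dd * Real.exp (x * ∑ r ∈ Rb, ((ord r : ℝ) - P0) -
        ∑ r ∈ Rc ∪ Ro, x * P' (sg r).1 +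
        x * ((∑ s, lam s ^ 2) / 2 + ((Rb ∪ (Rc ∪ Ro)).card : ℝ) / 2) +
        (Rb ∪ (Rc ∪ Ro)).card * Real.log B) := by
    intro M2 sg h1 h2
    set a : ι → Fam × Fin D → K := fun r s =>
      if r ∈ Rb then PowerSeries.coeff (ord r)
        (c r s.1 * (PowerSeries.X : PowerSeries K) ^ (s.2 : ℕ)) else aV (sg r) s with ha_def
    have hX : Bd x (Real.exp (-x)) L (PowerSeries.X : PowerSeries K) := by
      intro i _
      rw [PowerSeries.coeff_X]
      split_ifs with h
      · rw [norm_one, ← Real.exp_add, h]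
        have : -x + x * ((1 : ℕ) : ℝ) = 0 := by push_cast; ring
        rw [this, Real.exp_zero]
      · rw [norm_zero]; positivity
    have hstep := Red.of_step B M2 (Rb ∪ (Rc ∪ Ro)) a V (by
        intro r hr
        by_cases hb : r ∈ Rb
        · have hr2 : r ∉ Rc ∪ Ro := Finset.disjoint_left.mp hb_co hb
          rw [h1 r hr2]
          funext j
          rw [hrowb r hb j, STypeZ_row (ord r) (c r) _ (fun s => e s j) (fun s => heD s j),
            Finset.sum_apply]
          refine Finset.sum_congr rfl fun s _ => ?_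
          simp only [ha_def, if_pos hb, hV, Pi.smul_apply, smul_eq_mul]
        · have hr2 : r ∈ Rc ∪ Ro := (Finset.mem_union.mp hr).resolve_left hb
          rw [h2 r hr2, haV1 (sg r)]
          refine Finset.sum_congr rfl fun s _ => ?_
          simp only [ha_def, if_neg hb])
      lam x B hx hB (fun r => if r ∈ Rb then x * ((ord r : ℝ) - P0) else -(x * P' (sg r).1)) (by
        rintro r hr ⟨s, n⟩
        by_cases hb : r ∈ Rb
        · simp only [ha_def, if_pos hb]
          refine (STypeZ_slot (hord r hr) hx hB0 (hcb r hb s) hX n).trans ?_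
          refine mul_le_mul_of_nonneg_left (Real.exp_le_exp.mpr ?_) hB0
          nlinarith [mul_le_mul_of_nonneg_left (hP0 s) hx]
        · simp only [ha_def, if_neg hb]
          refine (haV2 (sg r) (s, n)).trans ?_
          refine mul_le_mul_of_nonneg_left (Real.exp_le_exp.mpr (le_of_eq ?_)) hB0
          ring) (fun s j => he _ _ _)
    refine (hstep Dd hDd fun M' hM1 hM2 => H M' (fun r hr => ?_) hM2).trans (le_of_eq ?_)
    · rw [hM1 r hr]
      exact h1 r fun h => hr (Finset.mem_union_right _ h)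
    · congr 2
      rw [Finset.sum_union hb_co]
      have e1 : ∑ r ∈ Rb, (if r ∈ Rb then x * ((ord r : ℝ) - P0) else -(x * P' (sg r).1)) =
          x * ∑ r ∈ Rb, ((ord r : ℝ) - P0) := by
        rw [Finset.mul_sum]
        exact Finset.sum_congr rfl fun r hr => if_pos hr
      have e2 : ∑ r ∈ Rc ∪ Ro, (if r ∈ Rb then x * ((ord r : ℝ) - P0) else -(x * P' (sg r).1)) =
          -∑ r ∈ Rc ∪ Ro, x * P' (sg r).1 := by
        rw [← Finset.sum_neg_distrib]
        exact Finset.sum_congr rfl fun r hr => if_neg (Finset.disjoint_right.mp hb_co hr)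
      rw [e1, e2]
      ring
  -- step 2: the middle disc
  set N2 : ℝ := x * ((∑ s, lam s ^ 2) / 2 + ((Rb ∪ (Rc ∪ Ro)).card : ℝ) / 2) +
    (Rb ∪ (Rc ∪ Ro)).card * Real.log B with hN2
  have step2 : ∀ (M1 : Matrix ι ι K) (sg : ι → Fam × Fin D),
      (∀ r ∉ Ro, M1 r = M r) → (∀ r ∈ Ro, M1 r = V'' (sg r)) →
      ‖M1.det‖ ≤ Dd * Real.exp (x * ∑ r ∈ Rb, ((ord r : ℝ) - P0) +
        ∑ r ∈ Rc, x * (2 * (ord r : ℝ) - P1) - ∑ r ∈ Ro, x * (lam' (sg r).1 + P' (sg r).1) + N2 +
        (x * ((∑ s, lam' s ^ 2) / 2 + ((Rc ∪ Ro).card : ℝ) / 2) +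
          (Rc ∪ Ro).card * Real.log B)) := by
    intro M1 sg h1 h2
    set a : ι → Fam × Fin D → K := fun r s =>
      if r ∈ Rc then PowerSeries.coeff (ord r) (c r s.1 * th r ^ (s.2 : ℕ))
      else if s = sg r then pi ^ (s.2 : ℕ) else 0 with ha_def
    have hNe : Nonempty (Fam × Fin D) := ⟨(Sum.inl true, ⟨0, Nat.pos_of_ne_zero (NeZero.ne D)⟩)⟩
    have h := price_step M1 (Rc ∪ Ro) a V' (by
        intro r hr
        by_cases hc : r ∈ Rc
        · have hr2 : r ∉ Ro := Finset.disjoint_left.mp hco hc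
          rw [h1 r hr2]
          funext j
          rw [hrowc r hc j, STypeZ_row (ord r) (c r) _ (fun s => f' s j) (fun s => hf'D s j),
            Finset.sum_apply]
          refine Finset.sum_congr rfl fun s _ => ?_
          simp only [ha_def, if_pos hc, hV', Pi.smul_apply, smul_eq_mul]
        · have hr2 : r ∈ Ro := (Finset.mem_union.mp hr).resolve_left hc
          rw [h2 r hr2, hV''V', Finset.sum_eq_single (sg r)]
          · simp only [ha_def, if_neg hc, if_true]
          · intro t _ ht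
            simp [ha_def, if_neg hc, ht]
          · intro h
            exact absurd (Finset.mem_univ _) h)
      lam' x B (Dd * Real.exp (x * ∑ r ∈ Rb, ((ord r : ℝ) - P0) + N2)) hx hB0 (by positivity)
      (fun r => if r ∈ Rc then x * (2 * (ord r : ℝ) - P1)
        else -(x * (lam' (sg r).1 + P' (sg r).1))) (fun s => x * P' s) (by
        rintro r hr ⟨s, n⟩
        by_cases hc : r ∈ Rc
        · simp only [ha_def, if_pos hc]
          refine (STypeZ_slot (hord r (Finset.mem_union_right _ hr)) (by positivity) hB0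
            (hcc r hc s) (hthc r hc) n).trans ?_
          refine mul_le_mul_of_nonneg_left (Real.exp_le_exp.mpr ?_) hB0
          nlinarith [mul_le_mul_of_nonneg_left (hP1 s) hx]
        · simp only [ha_def, if_neg hc]
          split_ifs with h
          · rw [norm_pow, hpi, ← h]
            rw [← Real.exp_nat_mul]
            refine le_trans (Real.exp_le_exp.mpr (le_of_eq ?_))
              (le_mul_of_one_le_left (Real.exp_pos _).le hB)
            simp only
            ring
          · rw [norm_zero]; positivity) (by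
        intro σ hσ
        refine (step1 (repl M1 (Rc ∪ Ro) V' σ) σ (fun r hr => ?_) (fun r hr => ?_)).trans
          (le_of_eq ?_)
        · rw [repl_not_mem _ _ _ _ hr]
          exact h1 r fun h => hr (Finset.mem_union_right _ h)
        · exact repl_mem _ _ _ _ hr
        · rw [mul_assoc, ← Real.exp_add]
          congr 2
          rw [hN2]
          ring)
    refine h.trans (le_of_eq ?_)
    have e0 : B ^ (Rc ∪ Ro).card = Real.exp ((Rc ∪ Ro).card * Real.log B) := by
      rw [Real.exp_nat_mul, Real.exp_log hBp]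
    rw [e0, Finset.sum_union hco]
    have e1 : ∑ r ∈ Rc, (if r ∈ Rc then x * (2 * (ord r : ℝ) - P1)
        else -(x * (lam' (sg r).1 + P' (sg r).1))) = ∑ r ∈ Rc, x * (2 * (ord r : ℝ) - P1) :=
      Finset.sum_congr rfl fun r hr => if_pos hr
    have e2 : ∑ r ∈ Ro, (if r ∈ Rc then x * (2 * (ord r : ℝ) - P1)
        else -(x * (lam' (sg r).1 + P' (sg r).1))) =
        -∑ r ∈ Ro, x * (lam' (sg r).1 + P' (sg r).1) := by
      rw [← Finset.sum_neg_distrib]
      exact Finset.sum_congr rfl fun r hr => if_neg (Finset.disjoint_right.mp hco hr)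
    rw [e1, e2]
    have : ∀ a b c d u v w : ℝ, Real.exp a * (Dd * Real.exp (b + c)) * Real.exp (d + -u + v) =
        Dd * Real.exp (b + d - u + c + (v + a)) := by
      intro a b c d u v w
      rw [show b + d - u + c + (v + a) = a + ((b + c) + (d + -u + v)) by ring, Real.exp_add a,
        Real.exp_add (b + c)]
      ring
    exact this _ _ _ _ _ _ 0
  -- step 3: the inner disc
  have hNe : Nonempty (Fam × Fin D) := ⟨(Sum.inl true, ⟨0, Nat.pos_of_ne_zero (NeZero.ne D)⟩)⟩
  set N1 : ℝ := x * ((∑ s, lam' s ^ 2) / 2 + ((Rc ∪ Ro).card : ℝ) / 2) +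
    (Rc ∪ Ro).card * Real.log B with hN1
  have h := price_step M Ro (fun r s => PowerSeries.coeff (ord r) (c r s.1 * th r ^ (s.2 : ℕ)))
    V'' (by
      intro r hr
      funext j
      rw [hrowo r hr j, STypeZ_row (ord r) (c r) _ (fun s => f'' s j) (fun s => hf''D s j),
        Finset.sum_apply]
      refine Finset.sum_congr rfl fun s _ => ?_
      simp only [hV'', Pi.smul_apply, smul_eq_mul])
    lam'' x B (Dd * Real.exp (x * ∑ r ∈ Rb, ((ord r : ℝ) - P0) +
      ∑ r ∈ Rc, x * (2 * (ord r : ℝ) - P1) + N2 + N1)) hx hB0 (by positivity)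
    (fun r => x * (3 * (ord r : ℝ) - P2)) (fun s => x * (lam' s + P' s)) (by
      rintro r hr ⟨s, n⟩
      refine (STypeZ_slot (hord r (Finset.mem_union_right _ (Finset.mem_union_right _ hr)))
        (by positivity) hB0 (hcoo r hr s) (htho r hr) n).trans ?_
      refine mul_le_mul_of_nonneg_left (Real.exp_le_exp.mpr ?_) hB0
      simp only
      nlinarith [mul_le_mul_of_nonneg_left (hP2 s) hx]) (by
      intro σ hσ
      refine (step2 (repl M Ro V'' σ) σ (fun r hr => repl_not_mem _ _ _ _ hr)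
        (fun r hr => repl_mem _ _ _ _ hr)).trans (le_of_eq ?_)
      rw [mul_assoc, ← Real.exp_add]
      congr 2
      ring)
  refine h.trans ?_
  have e0 : B ^ Ro.card = Real.exp (Ro.card * Real.log B) := by
    rw [Real.exp_nat_mul, Real.exp_log hBp]
  rw [e0, show ∀ a b c : ℝ, Real.exp a * (Dd * Real.exp b) * Real.exp c =
    Dd * Real.exp (a + b + c) by
      intro a b c
      rw [Real.exp_add, Real.exp_add]
      ring]
  refine mul_le_mul_of_nonneg_left (Real.exp_le_exp.mpr ?_) hDd
  -- the numbers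
  have k1 : ((Rc ∪ Ro).card : ℝ) ≤ ((Rb ∪ (Rc ∪ Ro)).card : ℝ) := by
    exact_mod_cast Finset.card_le_card Finset.subset_union_right
  have k2 : (Ro.card : ℝ) ≤ ((Rb ∪ (Rc ∪ Ro)).card : ℝ) := by
    exact_mod_cast Finset.card_le_card
      (Finset.subset_union_right.trans Finset.subset_union_right)
  have k3 := mul_le_mul_of_nonneg_right k1 hlogB
  have k4 := mul_le_mul_of_nonneg_right k2 hlogB
  have k5 := mul_le_mul_of_nonneg_left k1 hx
  have k6 := mul_le_mul_of_nonneg_left k2 hx
  rw [hN2, hN1, ← Finset.mul_sum, ← Finset.mul_sum]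
  nlinarith [k3, k4, k5, k6]

end B10
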