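import Pool.Agent.Lib.B10.Taylor
import Pool.Agent.Lib.B10.BasisDet

/-!
# Slit discs: entries are Blaschke products times truncated logarithms
-/

namespace B10

open Finset Matrix Filter Topology Polynomial ComplexConjugate

/-! ### Homogeneous values of the Malmquist basis -/

/-- the homogenised value of a polynomial of degree `< n` -/
noncomputable def hom (n : ℕ) (p : ℂ[X]) (x y : ℂ) : ℂ :=
  ∑ k ∈ range n, p.coeff k * (x ^ k * y ^ (n - 1 - k))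

theorem hom_mul (n : ℕ) (a : ℂ) (p : ℂ[X]) (hp : p.coeff n = 0) (x y : ℂ) :
    hom (n + 1) ((X - C a) * p) x y = (x - a * y) * hom n p x y := by
  unfold hom
  have h1 : ∀ k, ((X - C a) * p).coeff k = (X * p).coeff k - a * p.coeff k := by
    intro k
    rw [sub_mul, Polynomial.coeff_sub, Polynomial.coeff_C_mul]
  have h2 : ∑ k ∈ range (n + 1), (X * p).coeff k * (x ^ k * y ^ (n + 1 - 1 - k))
      = x * ∑ k ∈ range n, p.coeff k * (x ^ k * y ^ (n - 1 - k)) := by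
    rw [Finset.sum_range_succ', Polynomial.coeff_X_mul_zero, zero_mul, add_zero, Finset.mul_sum]
    refine Finset.sum_congr rfl fun k _ => ?_
    rw [Polynomial.coeff_X_mul, show n + 1 - 1 - (k + 1) = n - 1 - k by omega, pow_succ]
    ring
  have h3 : ∑ k ∈ range (n + 1), p.coeff k * (x ^ k * y ^ (n + 1 - 1 - k))
      = y * ∑ k ∈ range n, p.coeff k * (x ^ k * y ^ (n - 1 - k)) := by
    rw [Finset.sum_range_succ, hp, zero_mul, add_zero, Finset.mul_sum]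
    refine Finset.sum_congr rfl fun k hk => ?_
    rw [Finset.mem_range] at hk
    rw [show n + 1 - 1 - k = (n - 1 - k) + 1 by omega, pow_succ]
    ring
  have h4 : (x - a * y) * ∑ k ∈ range n, p.coeff k * (x ^ k * y ^ (n - 1 - k))
      = x * (∑ k ∈ range n, p.coeff k * (x ^ k * y ^ (n - 1 - k)))
        - a * (y * ∑ k ∈ range n, p.coeff k * (x ^ k * y ^ (n - 1 - k))) := by ring
  rw [h4, ← h2, ← h3, Finset.mul_sum, ← Finset.sum_sub_distrib]
  refine Finset.sum_congr rfl fun k _ => ?_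
  rw [h1 k]
  ring

theorem hom_prod {α : Type*} [DecidableEq α] (J : Finset α) (a : α → ℂ) (x y : ℂ) :
    hom (J.card + 1) (∏ j ∈ J, (X - C (a j))) x y = ∏ j ∈ J, (x - a j * y) := by
  induction J using Finset.induction_on with
  | empty => simp [hom]
  | insert j J hj ih =>
    rw [Finset.prod_insert hj, Finset.prod_insert hj, Finset.card_insert_of_notMem hj,
      hom_mul, ih]
    refine Polynomial.coeff_eq_zero_of_natDegree_lt ?_
    have h1 : (∏ j ∈ J, (X - C (a j))).natDegree ≤ J.card := by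
      refine (Polynomial.natDegree_prod_le _ _).trans ?_
      refine (Finset.sum_le_card_nsmul _ _ 1 fun j _ =>
        Polynomial.natDegree_X_sub_C_le _).trans ?_
      simp
    omega

theorem mb_eq {n : ℕ} (a b : Fin n → ℂ) (i : Fin n) :
    mb a b i = ∏ j ∈ univ.erase i, (X - C (if j < i then a j else b j)) := by
  have e : (univ : Finset (Fin n)).erase i = Iio i ∪ Ioi i := by
    ext j
    simp only [Finset.mem_erase, Finset.mem_univ, and_true, Finset.mem_union, Finset.mem_Iio,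
      Finset.mem_Ioi]
    exact ne_iff_lt_or_gt
  have hd : Disjoint (Iio i) (Ioi i) := by
    rw [Finset.disjoint_left]
    intro j h1 h2
    rw [Finset.mem_Iio] at h1
    rw [Finset.mem_Ioi] at h2
    exact absurd h1 (not_lt.mpr h2.le)
  rw [e, Finset.prod_union hd]
  unfold mb
  congr 1
  · refine Finset.prod_congr rfl fun j hj => ?_
    rw [if_pos (Finset.mem_Iio.mp hj)]
  · refine Finset.prod_congr rfl fun j hj => ?_
    rw [if_neg (not_lt.mpr (Finset.mem_Ioi.mp hj).le)]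

theorem hom_mb {n : ℕ} (a b : Fin n → ℂ) (i : Fin n) (x y : ℂ) :
    hom n (mb a b i) x y
      = ∏ j ∈ univ.erase i, (x - (if j < i then a j else b j) * y) := by
  have hc : ((univ : Finset (Fin n)).erase i).card + 1 = n := by
    rw [Finset.card_erase_of_mem (Finset.mem_univ i), Finset.card_univ, Fintype.card_fin]
    have := i.isLt
    omega
  rw [mb_eq]
  have h := hom_prod ((univ : Finset (Fin n)).erase i) (fun j => if j < i then a j else b j) x y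
  rw [hc] at h
  exact h

/-! ### The slit disc -/

/-- `⟨X(τ), y⟩` for `X(τ) = (1 + (μ/ρ) τ + τ²) b + (τ/ρ) T`, `β = ⟨b, y⟩`, `θ = ⟨T, y⟩` -/
noncomputable def lx (μ ρ : ℝ) (β θ τ : ℂ) : ℂ :=
  (1 + (μ / ρ : ℝ) * τ + τ ^ 2) * β + (τ / ρ) * θ

/-- `t` is the root in the unit disc belonging to the node with brackets `β`, `θ` -/
structure Root (μ ρ : ℝ) (β θ t : ℂ) : Prop where
  ne : t ≠ 0
  lt : ‖t‖ < 1
  eq : β * (t ^ 2 + 1) * ρ + t * (μ * β + θ) = 0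

/-- the denominator -/
noncomputable def den (t τ : ℂ) : ℂ := (1 - τ * t) * (1 - τ * conj t)

theorem Root.conj {μ ρ : ℝ} {β θ t : ℂ} (h : Root μ ρ β θ t) :
    Root μ ρ (conj β) (conj θ) (conj t) := by
  refine ⟨?_, ?_, ?_⟩
  · exact (_root_.map_ne_zero _).mpr h.ne
  · rw [RCLike.norm_conj]; exact h.lt
  · have := congrArg (fun z => (starRingEnd ℂ) z) h.eq
    simpa using this

theorem den_conj (t τ : ℂ) : den (conj t) τ = den t τ := by
  unfold den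
  rw [Complex.conj_conj]
  ring

theorem lx_fac {μ ρ : ℝ} {β θ t : ℂ} (hρ : ρ ≠ 0) (h : Root μ ρ β θ t) (τ : ℂ) :
    lx μ ρ β θ τ = β * (1 - τ * t) * (1 - τ / t) := by
  have hρ' : (ρ : ℂ) ≠ 0 := by exact_mod_cast hρ
  have ht := h.ne
  have he := h.eq
  unfold lx
  push_cast
  field_simp
  linear_combination τ * he

theorem one_sub_ne {t τ : ℂ} (ht : ‖t‖ < 1) (hτ : ‖τ‖ ≤ 1) : 1 - τ * t ≠ 0 := by
  intro h
  have h1 : τ * t = 1 := (sub_eq_zero.mp h).symm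
  have h2 : ‖τ * t‖ = 1 := by rw [h1, norm_one]
  rw [norm_mul] at h2
  have h3 : ‖τ‖ * ‖t‖ ≤ 1 * ‖t‖ := mul_le_mul_of_nonneg_right hτ (norm_nonneg _)
  linarith

theorem den_ne {t τ : ℂ} (ht : ‖t‖ < 1) (hτ : ‖τ‖ ≤ 1) : den t τ ≠ 0 := by
  unfold den
  exact mul_ne_zero (one_sub_ne ht hτ) (one_sub_ne (by rwa [RCLike.norm_conj]) hτ)

theorem blaschke_le {t τ : ℂ} (ht : ‖t‖ ≤ 1) (hτ : ‖τ‖ ≤ 1) :
    ‖t - τ‖ ≤ ‖1 - τ * conj t‖ := by
  have h1 : ‖t - τ‖ ^ 2 ≤ ‖1 - τ * conj t‖ ^ 2 := by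
    rw [← Complex.normSq_eq_norm_sq, ← Complex.normSq_eq_norm_sq]
    have h2 : Complex.normSq t ≤ 1 := by
      rw [Complex.normSq_eq_norm_sq]; exact pow_le_one₀ (norm_nonneg _) ht
    have h3 : Complex.normSq τ ≤ 1 := by
      rw [Complex.normSq_eq_norm_sq]; exact pow_le_one₀ (norm_nonneg _) hτ
    rw [Complex.normSq_apply] at h2 h3
    simp only [Complex.sub_re, Complex.sub_im, Complex.mul_re, Complex.mul_im, Complex.one_re,
      Complex.one_im, Complex.conj_re, Complex.conj_im, Complex.normSq_apply]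
    nlinarith [mul_nonneg (sub_nonneg.mpr h2) (sub_nonneg.mpr h3)]
  exact (sq_le_sq₀ (norm_nonneg _) (norm_nonneg _)).mp h1

theorem lx_le {μ ρ : ℝ} {β θ t : ℂ} (hρ : ρ ≠ 0) (h : Root μ ρ β θ t) {τ : ℂ} (hτ : ‖τ‖ ≤ 1) :
    ‖lx μ ρ β θ τ‖ ≤ ‖β‖ / ‖t‖ * ‖den t τ‖ := by
  rw [lx_fac hρ h τ]
  have ht : 0 < ‖t‖ := norm_pos_iff.mpr h.ne
  have e : β * (1 - τ * t) * (1 - τ / t) = (β / t) * ((1 - τ * t) * (t - τ)) := by
    have := h.ne
    field_simp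
  rw [e, norm_mul, norm_div, norm_mul]
  unfold den
  rw [norm_mul]
  have := blaschke_le h.lt.le hτ
  gcongr

theorem den_ge {t τ : ℂ} (ht : ‖t‖ < 1) (hτ : ‖τ‖ ≤ 1) : (1 - ‖t‖) ^ 2 ≤ ‖den t τ‖ := by
  have h1 : 1 - ‖t‖ ≤ ‖1 - τ * t‖ := by
    have h2 := norm_sub_norm_le (1 : ℂ) (τ * t)
    rw [norm_one, norm_mul] at h2
    have h3 : ‖τ‖ * ‖t‖ ≤ 1 * ‖t‖ := mul_le_mul_of_nonneg_right hτ (norm_nonneg _)
    linarith
  have h1' : 1 - ‖t‖ ≤ ‖1 - τ * conj t‖ := by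
    have h2 := norm_sub_norm_le (1 : ℂ) (τ * conj t)
    rw [norm_one, norm_mul, RCLike.norm_conj] at h2
    have h3 : ‖τ‖ * ‖t‖ ≤ 1 * ‖t‖ := mul_le_mul_of_nonneg_right hτ (norm_nonneg _)
    linarith
  unfold den
  rw [norm_mul, sq]
  exact mul_le_mul h1 h1' (by linarith) (norm_nonneg _)

/-- on the circle `X(τ)` is `τ` times a real vector -/
theorem lx_circle {μ ρ : ℝ} (β θ : ℂ) {τ : ℂ} (hτ : ‖τ‖ = 1) :
    lx μ ρ β θ τ = τ * (((2 * τ.re + μ / ρ : ℝ) : ℂ) * β + ((1 / ρ : ℝ) : ℂ) * θ) := by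
  have h1 : τ * conj τ = 1 := by
    rw [Complex.mul_conj, Complex.normSq_eq_norm_sq, hτ]; simp
  have h2 : ((2 * τ.re : ℝ) : ℂ) = τ + conj τ := by
    rw [Complex.add_conj]
  unfold lx
  have h3 : ((2 * τ.re + μ / ρ : ℝ) : ℂ) = τ + conj τ + ((μ / ρ : ℝ) : ℂ) := by
    rw [← h2]; push_cast; ring
  rw [h3]
  have h4 : ((1 / ρ : ℝ) : ℂ) = 1 / (ρ : ℂ) := by push_cast; ring
  rw [h4]
  linear_combination (-β) * h1

/-- a real letter against a node -/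
theorem kappa (c0 c1 x0 x1 : ℝ) (w : ℂ) (hw : w.im ≠ 0) :
    |x0 * c1 - x1 * c0| ≤ ‖(c0 : ℂ) - c1 * w‖ / |w.im| * ‖(x0 : ℂ) - x1 * w‖ := by
  have hpos : 0 < |w.im| := abs_pos.mpr hw
  rw [div_mul_eq_mul_div, le_div_iff₀ hpos, ← norm_mul]
  have h1 : |x0 * c1 - x1 * c0| * |w.im|
      = |(((c0 : ℂ) - c1 * w) * conj ((x0 : ℂ) - x1 * w)).im| := by
    have h3 : (((c0 : ℂ) - c1 * w) * conj ((x0 : ℂ) - x1 * w)).im
        = -((x0 * c1 - x1 * c0) * w.im) := by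
      simp [Complex.mul_im, Complex.sub_re, Complex.sub_im]
      ring
    rw [← abs_mul, h3, abs_neg]
  have h2 : ‖((c0 : ℂ) - c1 * w) * ((x0 : ℂ) - x1 * w)‖
      = ‖((c0 : ℂ) - c1 * w) * conj ((x0 : ℂ) - x1 * w)‖ := by
    rw [norm_mul, norm_mul, RCLike.norm_conj]
  rw [h1, h2]
  exact Complex.abs_im_le_norm _

theorem lx_letter {μ ρ : ℝ} (b0 b1 T0 T1 c0 c1 : ℝ) (w : ℂ) (hw : w.im ≠ 0) {τ : ℂ}
    (hτ : ‖τ‖ = 1) :
    ‖lx μ ρ ((b0 * c1 - b1 * c0 : ℝ) : ℂ) ((T0 * c1 - T1 * c0 : ℝ) : ℂ) τ‖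
      ≤ ‖(c0 : ℂ) - c1 * w‖ / |w.im| * ‖lx μ ρ (b0 - b1 * w) (T0 - T1 * w) τ‖ := by
  rw [lx_circle _ _ hτ, lx_circle _ _ hτ, norm_mul, norm_mul, hτ, one_mul, one_mul]
  set g : ℝ := 2 * τ.re + μ / ρ with hg
  set k : ℝ := 1 / ρ with hk
  have e1 : (g : ℂ) * ((b0 * c1 - b1 * c0 : ℝ) : ℂ) + (k : ℂ) * ((T0 * c1 - T1 * c0 : ℝ) : ℂ)
      = (((g * b0 + k * T0) * c1 - (g * b1 + k * T1) * c0 : ℝ) : ℂ) := by
    push_cast; ring
  have e2 : (g : ℂ) * (b0 - b1 * w) + (k : ℂ) * (T0 - T1 * w)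
      = ((g * b0 + k * T0 : ℝ) : ℂ) - ((g * b1 + k * T1 : ℝ) : ℂ) * w := by
    push_cast; ring
  rw [e1, e2, Complex.norm_real, Real.norm_eq_abs]
  exact kappa c0 c1 _ _ w hw

end B10
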