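import Pool.Agent.Lib.B10.RowDisc

/-!
# Taylor series of analytic germs at `0`, as formal power series
-/

namespace B10

open Finset Filter Topology

/-- the Taylor series at `0` -/
noncomputable def tsr (g : ℂ → ℂ) : PowerSeries ℂ := PowerSeries.mk fun i => tc i g

theorem coeff_tsr (i : ℕ) (g : ℂ → ℂ) : PowerSeries.coeff i (tsr g) = tc i g := by
  unfold tsr; rw [PowerSeries.coeff_mk]

theorem tsr_congr {g h : ℂ → ℂ} (e : g =ᶠ[𝓝 0] h) : tsr g = tsr h := by
  ext i; rw [coeff_tsr, coeff_tsr, tc_congr e]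

theorem tsr_add {g h : ℂ → ℂ} (hg : AnalyticAt ℂ g 0) (hh : AnalyticAt ℂ h 0) :
    tsr (fun t => g t + h t) = tsr g + tsr h := by
  ext i; rw [map_add, coeff_tsr, coeff_tsr, coeff_tsr, tc_add hg hh]

theorem tsr_sum {α : Type*} (s : Finset α) (g : α → ℂ → ℂ)
    (hg : ∀ a ∈ s, AnalyticAt ℂ (g a) 0) :
    tsr (fun t => ∑ a ∈ s, g a t) = ∑ a ∈ s, tsr (g a) := by
  ext i; rw [map_sum, coeff_tsr, tc_sum s g hg]
  exact Finset.sum_congr rfl fun a _ => (coeff_tsr i _).symm

theorem tsr_const_mul {g : ℂ → ℂ} (c : ℂ) :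
    tsr (fun t => c * g t) = PowerSeries.C c * tsr g := by
  ext i; rw [PowerSeries.coeff_C_mul, coeff_tsr, coeff_tsr, tc_const_mul]

/-- the coefficient of a power -/
theorem tc_pow (i j : ℕ) : tc i (fun t : ℂ => t ^ j) = if i = j then 1 else 0 := by
  unfold tc
  rw [iteratedDeriv_fun_pow_zero]
  by_cases h : i = j
  · subst h; simp [Nat.factorial_ne_zero]
  · rw [if_neg h, if_neg (by omega)]; simp

/-- a Taylor expansion with remainder -/
theorem taylor_exp {g : ℂ → ℂ} (hg : AnalyticAt ℂ g 0) (n : ℕ) :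
    ∃ H : ℂ → ℂ, AnalyticAt ℂ H 0 ∧
      g =ᶠ[𝓝 0] fun t => ∑ j ∈ range n, tc j g * t ^ j + t ^ n * H t := by
  obtain ⟨H, hH, hE⟩ := hg.exists_eventuallyEq_sum_add_pow_mul n
  refine ⟨H, hH, ?_⟩
  filter_upwards [hE] with t ht
  rw [ht]
  congr 1
  refine Finset.sum_congr rfl fun j _ => ?_
  rw [smul_eq_mul]
  unfold tc
  ring

/-- the coefficient of a polynomial plus a remainder of high order -/
theorem tc_of_exp {g H : ℂ → ℂ} (hH : AnalyticAt ℂ H 0) (n : ℕ) (a : ℕ → ℂ)
    (e : g =ᶠ[𝓝 0] fun t => ∑ j ∈ range n, a j * t ^ j + t ^ n * H t) (i : ℕ) (hi : i < n) :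
    tc i g = a i := by
  have hr : AnalyticAt ℂ (fun t => t ^ n * H t) 0 :=
    (analyticAt_id.fun_pow n).fun_mul hH
  rw [tc_congr e, tc_add (Finset.analyticAt_fun_sum _ fun j _ => by fun_prop) hr,
    tc_eq_zero_of_order hi hH, add_zero, tc_sum _ _ fun j _ => by fun_prop]
  rw [Finset.sum_eq_single i]
  · rw [tc_const_mul, tc_pow, if_pos rfl, mul_one]
  · intro j _ hj
    rw [tc_const_mul, tc_pow, if_neg (Ne.symm hj), mul_zero]
  · intro h
    exact absurd (Finset.mem_range.mpr hi) h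

theorem tc_mul {g h : ℂ → ℂ} (hg : AnalyticAt ℂ g 0) (hh : AnalyticAt ℂ h 0) (i : ℕ) :
    tc i (fun t => g t * h t)
      = ∑ p ∈ antidiagonal i, tc p.1 g * tc p.2 h := by
  obtain ⟨G1, hG1, e1⟩ := taylor_exp hg (i + 1)
  obtain ⟨H1, hH1, e2⟩ := taylor_exp hh (i + 1)
  -- the product, through `tc_comp`-like linearity in the first factor
  have step : tc i (fun t => g t * h t)
      = ∑ j ∈ range (i + 1), tc j g * tc i (fun t => t ^ j * h t) := by
    have e : (fun t => g t * h t) =ᶠ[𝓝 0] fun t =>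
        (∑ j ∈ range (i + 1), tc j g * (t ^ j * h t)) + t ^ (i + 1) * (G1 t * h t) := by
      filter_upwards [e1] with t ht
      rw [ht, add_mul, Finset.sum_mul]
      congr 1
      · exact Finset.sum_congr rfl fun j _ => by ring
      · ring
    have hr : AnalyticAt ℂ (fun t => t ^ (i + 1) * (G1 t * h t)) 0 :=
      (analyticAt_id.fun_pow (i + 1)).fun_mul (hG1.fun_mul hh)
    rw [tc_congr e, tc_add (Finset.analyticAt_fun_sum _ fun j _ => by fun_prop) hr,
      tc_eq_zero_of_order (Nat.lt_succ_self i) (hG1.fun_mul hh), add_zero,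
      tc_sum _ _ fun j _ => by fun_prop]
    exact Finset.sum_congr rfl fun j _ => tc_const_mul _
  have shift : ∀ j ∈ range (i + 1), tc i (fun t => t ^ j * h t) = tc (i - j) h := by
    intro j hj
    rw [Finset.mem_range] at hj
    obtain ⟨H2, hH2, e3⟩ := taylor_exp hh (i - j + 1)
    have e4 : (fun t => t ^ j * h t) =ᶠ[𝓝 0] fun t =>
        ∑ k ∈ range (i + 1), (if j ≤ k then tc (k - j) h else 0) * t ^ k
          + t ^ (i + 1) * H2 t := by
      filter_upwards [e3] with t ht
      rw [ht, mul_add, Finset.mul_sum]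
      congr 1
      · have e5 : i + 1 = j + (i - j + 1) := by omega
        have e6 : ∑ k ∈ range (i + 1), (if j ≤ k then tc (k - j) h else 0) * t ^ k
            = ∑ k ∈ range j, (if j ≤ k then tc (k - j) h else 0) * t ^ k
              + ∑ k ∈ range (i - j + 1),
                (if j ≤ j + k then tc (j + k - j) h else 0) * t ^ (j + k) := by
          conv_lhs => rw [e5]
          exact Finset.sum_range_add _ _ _
        rw [e6, Finset.sum_eq_zero (s := range j), zero_add]
        · refine Finset.sum_congr rfl fun k _ => ?_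
          rw [if_pos (Nat.le_add_right j k), Nat.add_sub_cancel_left, pow_add]
          ring
        · intro k hk
          rw [Finset.mem_range] at hk
          rw [if_neg (by omega), zero_mul]
      · rw [← mul_assoc, ← pow_add, show j + (i - j + 1) = i + 1 by omega]
    rw [tc_of_exp hH2 (i + 1) _ e4 i (Nat.lt_succ_self i), if_pos (by omega)]
  rw [step, Finset.Nat.sum_antidiagonal_eq_sum_range_succ (fun a b => tc a g * tc b h) i]
  refine Finset.sum_congr rfl fun j hj => ?_
  rw [shift j hj]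

theorem tsr_mul {g h : ℂ → ℂ} (hg : AnalyticAt ℂ g 0) (hh : AnalyticAt ℂ h 0) :
    tsr (fun t => g t * h t) = tsr g * tsr h := by
  ext i
  rw [PowerSeries.coeff_mul, coeff_tsr, tc_mul hg hh]
  exact Finset.sum_congr rfl fun p _ => by rw [coeff_tsr, coeff_tsr]

theorem tsr_poly (p : Polynomial ℂ) : tsr (fun t => p.eval t) = (p : PowerSeries ℂ) := by
  ext i
  rw [coeff_tsr, Polynomial.coeff_coe]
  have e : (fun t : ℂ => p.eval t) =ᶠ[𝓝 0] fun t =>
      ∑ j ∈ range (i + p.natDegree + 1), p.coeff j * t ^ j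
        + t ^ (i + p.natDegree + 1) * (fun _ => (0 : ℂ)) t := by
    filter_upwards with t
    rw [Polynomial.eval_eq_sum_range' (show p.natDegree < i + p.natDegree + 1 by omega)]
    simp
  exact tc_of_exp analyticAt_const _ (fun j => p.coeff j) e i (by omega)

theorem tsr_prod {α : Type*} (s : Finset α) (g : α → ℂ → ℂ)
    (hg : ∀ a ∈ s, AnalyticAt ℂ (g a) 0) :
    tsr (fun t => ∏ a ∈ s, g a t) = ∏ a ∈ s, tsr (g a) := by
  classical
  induction s using Finset.induction_on with
  | empty =>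
    simp only [Finset.prod_empty]
    have := tsr_poly (1 : Polynomial ℂ)
    simpa using this
  | insert a s ha ih =>
    rw [Finset.prod_insert ha, ← ih fun b hb => hg b (Finset.mem_insert_of_mem hb),
      ← tsr_mul (hg a (Finset.mem_insert_self _ _))
        (Finset.analyticAt_fun_prod _ fun b hb => hg b (Finset.mem_insert_of_mem hb))]
    congr 1
    funext t
    rw [Finset.prod_insert ha]

theorem tc_of_series {g : ℂ → ℂ} {c : ℕ → ℂ}
    (h : HasFPowerSeriesAt g (.ofScalars ℂ c) 0) (i : ℕ) : tc i g = c i := by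
  have h1 := h.analyticAt.hasFPowerSeriesAt
  have h2 := h1.eq_formalMultilinearSeries h
  have h3 := congrArg (fun p : FormalMultilinearSeries ℂ ℂ ℂ => p.coeff i) h2
  simp only [FormalMultilinearSeries.coeff_ofScalars] at h3
  unfold tc
  exact h3

theorem tc_comp_mul {g : ℂ → ℂ} (hg : AnalyticAt ℂ g 0) (z : ℂ) (i : ℕ) :
    tc i (fun x => g (x * z)) = z ^ i * tc i g := by
  obtain ⟨H, hH, e⟩ := taylor_exp hg (i + 1)
  have hcont : Tendsto (fun x : ℂ => x * z) (𝓝 0) (𝓝 0) := by
    have : Continuous fun x : ℂ => x * z := by fun_prop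
    have h := this.tendsto 0
    rwa [zero_mul] at h
  have e' : ∀ᶠ x in 𝓝 (0 : ℂ), g (x * z) =
      ∑ j ∈ range (i + 1), tc j g * (x * z) ^ j + (x * z) ^ (i + 1) * H (x * z) :=
    hcont.eventually e
  have hH' : AnalyticAt ℂ (fun x : ℂ => z ^ (i + 1) * H (x * z)) 0 := by
    have h2 : AnalyticAt ℂ (fun x : ℂ => x * z) 0 := by fun_prop
    have h1 : AnalyticAt ℂ H ((fun x : ℂ => x * z) 0) := by
      show AnalyticAt ℂ H ((0 : ℂ) * z)
      rw [zero_mul]; exact hH
    exact analyticAt_const.fun_mul (AnalyticAt.fun_comp (f := fun x : ℂ => x * z) h1 h2)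
  have e2 : (fun x => g (x * z)) =ᶠ[𝓝 0] fun x =>
      ∑ j ∈ range (i + 1), (z ^ j * tc j g) * x ^ j + x ^ (i + 1) * (z ^ (i + 1) * H (x * z)) := by
    filter_upwards [e'] with x hx
    rw [hx]
    congr 1
    · exact Finset.sum_congr rfl fun j _ => by rw [mul_pow]; ring
    · rw [mul_pow]; ring
  exact tc_of_exp hH' (i + 1) (fun j => z ^ j * tc j g) e2 i (Nat.lt_succ_self i)

/-- the Taylor coefficients of `log (1 + z x)` -/
theorem tc_log (z : ℂ) (i : ℕ) :
    tc i (fun x => Complex.log (1 + x * z)) = z ^ i * (-(-1) ^ i / i) := by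
  have h1 := tc_of_series hasFPowerSeriesAt_clog_one_add i
  have h2 : AnalyticAt ℂ (fun x : ℂ => Complex.log (1 + x)) 0 :=
    hasFPowerSeriesAt_clog_one_add.analyticAt
  rw [tc_comp_mul h2, h1]

end B10
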