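import Pool.Agent.Lib.B10.Asm
import Pool.Agent.Lib.B10.Nv
import Pool.Agent.Lib.B10.Inst3
import Pool.Agent.Lib.B10.Inst7

/-!
# Base 10: what is left

`top10`: the archimedean bound and the bounds at `2` and `5` imply the theorem (nonvanishing and the
bounds at `3`, `7`, at the generic primes and in the base 10 world are plugged in).
-/

set_option autoImplicit false

open Finset
open scoped Classical

namespace B10

theorem Top_nv (m P : ℕ) (hP : P.Prime) (hw : P ^ 2 ∣ 10 ^ (P - 1) - 1) (h1 : 120 * m + 69 ≤ P)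
    (h2 : P ≤ 120 * m + 360) : ∃ x : Col m → Row m 60, Function.Injective x ∧ Dx x ≠ 0 := by
  rcases Nat.eq_zero_or_pos m with rfl | hm
  · have : IsEmpty (Col 0) := by
      rw [← Fintype.card_eq_zero_iff, card_Col]
    refine ⟨fun j => isEmptyElim j, fun j => isEmptyElim j, ?_⟩
    unfold Dx
    rw [Matrix.det_isEmpty]
    exact one_ne_zero
  · have := Fact.mk hP
    have h3 : (P : ℤ) ^ 2 ∣ 10 ^ (P - 1) - 1 := by
      have h4 := Int.natCast_dvd_natCast.2 hw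
      rw [Nat.cast_sub (Nat.one_le_pow _ _ (by norm_num))] at h4
      push_cast at h4
      exact h4
    exact nv hm h3 h1 h2 (by omega)

theorem top10 [Fact (Nat.Prime 5)]
    (harch : ∃ C : ℝ, 0 ≤ C ∧ ∃ n0 : ℕ, ∀ n : ℕ, n0 ≤ n → ∀ x : Col (2 * n) → Row (2 * n) 60,
      Function.Injective x →
        |((Dx x : ℚ) : ℝ)| ≤ Real.exp (14541 * (n : ℝ) ^ 2 + C * n * Real.log (n + 2)))
    (h2 : ∃ C : ℝ, 0 ≤ C ∧ ∀ (m : ℕ) (x : Col m → Row m 60), Function.Injective x →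
      ‖((Dx x : ℚ) : ℚ_[2])‖ ≤
        Real.exp ((-1566 / 11 * m ^ 2 + C * m * Real.log (m + 2)) * Real.log 2))
    (h5 : ∃ C : ℝ, 0 ≤ C ∧ ∀ (m : ℕ) (x : Col m → Row m 60), Function.Injective x →
      ‖((Dx x : ℚ) : ℚ_[5])‖ ≤
        Real.exp ((73 * m ^ 2 + C * m * Real.log (m + 2)) * Real.log 5)) :
    ∃ c : ℝ, 0 < c ∧ ∃ X₀ : ℝ, ∀ X : ℝ, X₀ ≤ X → c * X / Real.log X ≤
      (((Icc 1 ⌊X⌋₊).filter fun q : ℕ => q.Prime ∧ ¬ q ^ 2 ∣ 10 ^ (q - 1) - 1).card : ℝ) := by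
  refine main10 Top_nv harch ?_ ?_ ?_ ?_
  · simpa only [SadB, Nat.cast_ofNat] using h2
  · simpa only [SadB, Nat.cast_ofNat] using final3 60
  · simpa only [SadB, Nat.cast_ofNat] using h5
  · simpa only [SadB, Nat.cast_ofNat] using final7 60

end B10
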