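import Pool.Agent.Lib.B10.WorldG

/-!
# The base 10 world

The twelve letters, the three logarithms of the base 10 world, and their alignment: if
`p ^ 2 ∣ 10 ^ (p - 1) - 1` then for each of the three logarithms there is an integral form of degree
`p` whose germs at the six points `0, 1, ∞, -1, 2, 1/2` are congruent modulo `(p, t ^ p)` to the
logarithm with constant term `0`. The columns of the matrix modulo `p`.
-/

set_option autoImplicit false

open Finset PWief

namespace B10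

section fq

variable {p : ℕ} [hp : Fact p.Prime]

variable (p) in
/-- `(m ^ p - m) / p` modulo `p` -/
def fq (m : ℤ) : ZMod p := (((m ^ p - m) / p : ℤ) : ZMod p)

theorem fq_dvd (m : ℤ) : (p : ℤ) ∣ m ^ p - m := by
  rw [← ZMod.intCast_zmod_eq_zero_iff_dvd]
  push_cast
  rw [ZMod.pow_card, sub_self]

theorem fq_spec (m : ℤ) : (p : ℤ) * ((m ^ p - m) / p) = m ^ p - m := Int.mul_ediv_cancel' (fq_dvd m)

theorem fq_eq_of {m q : ℤ} (h : (p : ℤ) * q = m ^ p - m) : fq p m = (q : ZMod p) := by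
  unfold fq
  rw [← h, Int.mul_ediv_cancel_left _ (by exact_mod_cast hp.out.ne_zero)]

theorem fq_mul (m n : ℤ) : fq p (m * n) = m * fq p n + n * fq p m := by
  have h : fq p (m * n) = ((m ^ p * ((n ^ p - n) / p) + n * ((m ^ p - m) / p) : ℤ) : ZMod p) := by
    refine fq_eq_of ?_
    have h1 := fq_spec (p := p) m
    have h2 := fq_spec (p := p) n
    rw [mul_pow]
    linear_combination (m ^ p) * h2 + n * h1
  rw [h]
  push_cast
  rw [ZMod.pow_card]
  rfl

theorem fq_one : fq p 1 = 0 := by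
  have : fq p 1 = ((0 : ℤ) : ZMod p) := fq_eq_of (by simp)
  simpa using this

theorem fq_zero : fq p 0 = 0 := by
  have : fq p 0 = ((0 : ℤ) : ZMod p) := fq_eq_of (by simp [hp.out.ne_zero])
  simpa using this

theorem fq_neg (h2 : p ≠ 2) (m : ℤ) : fq p (-m) = - fq p m := by
  have h : fq p (-m) = ((-((m ^ p - m) / p) : ℤ) : ZMod p) := by
    refine fq_eq_of ?_
    have h1 := fq_spec (p := p) m
    rw [(hp.out.odd_of_ne_two h2).neg_pow]
    linear_combination -h1
  rw [h]
  push_cast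
  rfl

theorem fq_ten (hw : (p : ℤ) ^ 2 ∣ 10 ^ (p - 1) - 1) : fq p 10 = 0 := by
  obtain ⟨z, hz⟩ := hw
  have h : fq p 10 = ((10 * (p * z) : ℤ) : ZMod p) := by
    refine fq_eq_of ?_
    have h1 : (10 : ℤ) ^ p = 10 * 10 ^ (p - 1) := by
      rw [← pow_succ', Nat.sub_add_cancel hp.out.one_lt.le]
    rw [h1]
    linear_combination (-10 : ℤ) * hz
  rw [h]
  push_cast
  rw [CharP.cast_eq_zero (ZMod p) p]
  ring

end fq

/-- `m (v_2 (m) - v_5 (m))` for `|m| ≤ 5` -/
def tA (m : ℤ) : ℤ :=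
  if m = 2 then 2 else if m = -2 then -2 else if m = 4 then 8 else if m = -4 then -8
  else if m = 5 then -5 else if m = -5 then 5 else 0

/-- `m v_3 (m)` for `|m| ≤ 5` -/
def tB (m : ℤ) : ℤ := if m = 3 then 3 else if m = -3 then -3 else 0

theorem br_le {z : Fin 12} (hz : z < 6) (s : Fin 12) : |br (lt z) (lt s)| ≤ 5 := by
  revert z s
  decide

theorem br_le' (z s : Fin 12) : |br (lt z) (lt s)| ≤ 8 := by
  revert z s
  decide

/-- the linear forms which give the constants -/
def lA : Fin 3 → Fin 2 → ℤ := ![![0, 0], ![0, -8], ![8, 0]]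

/-- the linear forms which give the constants -/
def lB : Fin 3 → Fin 2 → ℤ := ![![0, 0], ![0, -21], ![21, 0]]

theorem sum_tA (u : Fin 3) {z : Fin 12} (hz : z < 6) :
    ∑ s, co u s * tA (br (lt z) (lt s)) = lA u 0 * lt z 0 + lA u 1 * lt z 1 := by
  revert u z
  decide

theorem sum_tB (u : Fin 3) {z : Fin 12} (hz : z < 6) :
    ∑ s, co u s * tB (br (lt z) (lt s)) = lB u 0 * lt z 0 + lB u 1 * lt z 1 := by
  revert u z
  decide

section world

variable {p : ℕ} [hp : Fact p.Prime]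

theorem fq_tab (h5 : 5 < p) (hw : (p : ℤ) ^ 2 ∣ 10 ^ (p - 1) - 1) :
    ∃ s t : ZMod p, ∀ m : ℤ, |m| ≤ 5 → fq p m = (tA m : ZMod p) * s + (tB m : ZMod p) * t := by
  have hne : ∀ k : ℕ, 0 < k → k ≤ 5 → (k : ZMod p) ≠ 0 := by
    intro k h0 hk h
    rw [ZMod.natCast_eq_zero_iff] at h
    have := Nat.le_of_dvd h0 h
    omega
  have h2 : (2 : ZMod p) ≠ 0 := by exact_mod_cast hne 2 (by norm_num) (by norm_num)
  have h3 : (3 : ZMod p) ≠ 0 := by exact_mod_cast hne 3 (by norm_num) (by norm_num)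
  have hodd : p ≠ 2 := by omega
  have h10 : (2 : ZMod p) * fq p 5 + 5 * fq p 2 = 0 := by
    have := fq_mul (p := p) 2 5
    rw [show (2 : ℤ) * 5 = 10 by norm_num, fq_ten hw] at this
    push_cast at this
    exact this.symm
  have h4 : fq p 4 = 4 * fq p 2 := by
    have := fq_mul (p := p) 2 2
    rw [show (2 : ℤ) * 2 = 4 by norm_num] at this
    push_cast at this
    rw [this]
    ring
  refine ⟨fq p 2 / 2, fq p 3 / 3, fun m hm => ?_⟩
  have e5 : fq p 5 = -5 * (fq p 2 / 2) := by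
    field_simp
    linear_combination h10
  have hm1 := abs_le.mp hm
  obtain ⟨ha, hb⟩ := hm1
  interval_cases m <;> simp only [tA, tB] <;> norm_num
  · rw [show (-5 : ℤ) = -(5) by norm_num, fq_neg hodd, e5]; ring
  · rw [show (-4 : ℤ) = -(4) by norm_num, fq_neg hodd, h4]; field_simp; ring
  · rw [show (-3 : ℤ) = -(3) by norm_num, fq_neg hodd]; field_simp
  · rw [show (-2 : ℤ) = -(2) by norm_num, fq_neg hodd]; field_simp
  · rw [show (-1 : ℤ) = -(1) by norm_num, fq_neg hodd, fq_one]; simp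
  · exact fq_zero
  · exact fq_one
  · field_simp
  · field_simp
  · rw [h4]; field_simp; ring
  · rw [e5]; ring

/-- the germ of `X e ^ p * f` -/
theorem colT_cg (b T : Fin 2 → ℤ) (e : Fin 2) (f : MvPolynomial (Fin 2) ℤ) {i : ℕ} (hi : i < p) :
    Cg p ((b e : ℚ) * (((sb b T f).coeff i : ℤ) : ℚ))
      (((sb b T (MvPolynomial.X e ^ p * f)).coeff i : ℤ) : ℚ) := by
  rw [← Int.cast_mul]
  refine cg_int.2 ?_
  have h1 : ((sb b T (MvPolynomial.X e ^ p * f)).coeff i : ZMod p) =
      (((sb b T (MvPolynomial.X e ^ p * f)).map (Int.castRingHom (ZMod p))).coeff i) := by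
    rw [Polynomial.coeff_map, eq_intCast]
  have h2 : (b e : ZMod p) ^ p = b e := ZMod.pow_card _
  rw [h1, map_mul, map_pow, sb_X, Polynomial.map_mul, Polynomial.map_pow, Polynomial.map_add,
    Polynomial.map_mul, Polynomial.map_C, Polynomial.map_C, Polynomial.map_X, eq_intCast,
    eq_intCast, add_pow_char, mul_pow, ← map_pow, h2, add_mul, Polynomial.coeff_add,
    Polynomial.coeff_C_mul, Polynomial.coeff_map, eq_intCast]
  have h3 : (Polynomial.C ((T e : ℤ) : ZMod p) ^ p * Polynomial.X ^ p *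
      (sb b T f).map (Int.castRingHom (ZMod p))).coeff i = 0 := by
    rw [mul_comm (Polynomial.C ((T e : ℤ) : ZMod p) ^ p), mul_assoc, Polynomial.coeff_X_pow_mul',
      if_neg (by omega)]
  rw [h3, add_zero]
  push_cast
  rfl

/-- **The three logarithms in the base 10 world.** -/
theorem world10 (h5 : 5 < p) (hw : (p : ℤ) ^ 2 ∣ 10 ^ (p - 1) - 1) (u : Fin 3) :
    ∃ (G E : MvPolynomial (Fin 2) ℤ) (lam : Fin 2 → ℤ), G.IsHomogeneous p ∧
      MvPolynomial.C (p : ℤ) * G = ∑ s, MvPolynomial.C (co u s) * lin (lt s) ^ p ∧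
      E = G - (MvPolynomial.X 0 ^ p * MvPolynomial.C (lam 0) +
        MvPolynomial.X 1 ^ p * MvPolynomial.C (lam 1)) ∧ E.IsHomogeneous p ∧
      ∀ (z : Fin 12), z < 6 → ∀ (T : Fin 2 → ℤ) (j : ℕ), j < p →
        Cg p (lg lt (co u) (lt z) T j) (((sb (lt z) T E).coeff j : ℤ) : ℚ) := by
  obtain ⟨G, hGh, hG⟩ := exists_G (p := p) lt (co u) (co_sum u)
  obtain ⟨s, t, hst⟩ := fq_tab h5 hw
  have hpz : (p : ℤ) ≠ 0 := by exact_mod_cast hp.out.ne_zero
  -- the constant of the linear form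
  let lam : Fin 2 → ℤ := fun e => (((lA u e : ZMod p) * s + (lB u e : ZMod p) * t).val : ℤ)
  have hlam : ∀ e, ((lam e : ℤ) : ZMod p) = (lA u e : ZMod p) * s + (lB u e : ZMod p) * t := by
    intro e
    simp only [lam]
    rw [Int.cast_natCast, ZMod.natCast_zmod_val]
  refine ⟨G, G - (MvPolynomial.X 0 ^ p * MvPolynomial.C (lam 0) +
    MvPolynomial.X 1 ^ p * MvPolynomial.C (lam 1)), lam, hGh, hG, rfl, ?_, fun z hz T j hj => ?_⟩
  · refine hGh.sub (MvPolynomial.IsHomogeneous.add ?_ ?_)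
    · simpa using ((MvPolynomial.isHomogeneous_X ℤ (0 : Fin 2)).pow p).mul
        (MvPolynomial.isHomogeneous_C (Fin 2) (lam 0))
    · simpa using ((MvPolynomial.isHomogeneous_X ℤ (1 : Fin 2)).pow p).mul
        (MvPolynomial.isHomogeneous_C (Fin 2) (lam 1))
  -- the two corrections
  have hcor : ∀ e, Cg p ((lt z e : ℚ) * (((sb (lt z) T (MvPolynomial.C (lam e))).coeff j : ℤ) : ℚ))
      (((sb (lt z) T (MvPolynomial.X e ^ p * MvPolynomial.C (lam e))).coeff j : ℤ) : ℚ) :=
    fun e => colT_cg _ _ _ _ hj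
  rw [map_sub, map_add, Polynomial.coeff_sub, Polynomial.coeff_add, Int.cast_sub, Int.cast_add]
  have hzz : lg lt (co u) (lt z) T j = (lg lt (co u) (lt z) T j +
      ((lt z 0 : ℚ) * (((sb (lt z) T (MvPolynomial.C (lam 0))).coeff j : ℤ) : ℚ) +
      (lt z 1 : ℚ) * (((sb (lt z) T (MvPolynomial.C (lam 1))).coeff j : ℤ) : ℚ))) -
      ((lt z 0 : ℚ) * (((sb (lt z) T (MvPolynomial.C (lam 0))).coeff j : ℤ) : ℚ) +
      (lt z 1 : ℚ) * (((sb (lt z) T (MvPolynomial.C (lam 1))).coeff j : ℤ) : ℚ)) := by ring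
  rw [hzz]
  refine Cg.sub ?_ ((hcor 0).add (hcor 1))
  rcases Nat.eq_zero_or_pos j with rfl | h0
  · rw [lg_zero, zero_add, sb_C, sb_C, Polynomial.coeff_C_zero, Polynomial.coeff_C_zero,
      ← Int.cast_mul, ← Int.cast_mul, ← Int.cast_add]
    refine cg_int.2 ?_
    have h1 := G_coeff hG (lt z) T 0
    have h2 : (p : ℤ) * (sb (lt z) T G).coeff 0 = (p : ℤ) * ∑ x, co u x *
        ((br (lt z) (lt x) ^ p - br (lt z) (lt x)) / p) := by
      rw [h1, Finset.mul_sum]
      have h3 : ∑ x, co u x * br (lt z) (lt x) = 0 := by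
        have e0 := co_sum u 0
        have e1 := co_sum u 1
        have : ∑ x, co u x * br (lt z) (lt x) =
            lt z 0 * ∑ x, co u x * lt x 1 - lt z 1 * ∑ x, co u x * lt x 0 := by
          rw [Finset.mul_sum, Finset.mul_sum, ← Finset.sum_sub_distrib]
          refine Finset.sum_congr rfl fun x _ => ?_
          unfold br
          ring
        rw [this, e0, e1]
        ring
      have h4 : ∀ x, (p : ℤ) * (co u x * ((br (lt z) (lt x) ^ p - br (lt z) (lt x)) / p)) =
          co u x * br (lt z) (lt x) ^ p - co u x * br (lt z) (lt x) := by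
        intro x
        have := fq_spec (p := p) (br (lt z) (lt x))
        linear_combination (co u x) * this
      rw [Finset.sum_congr rfl fun x _ => h4 x, Finset.sum_sub_distrib, h3, sub_zero]
      refine Finset.sum_congr rfl fun x _ => ?_
      simp
    rw [mul_left_cancel₀ hpz h2]
    push_cast
    have h5' : ∀ x, (((br (lt z) (lt x) ^ p - br (lt z) (lt x)) / p : ℤ) : ZMod p) =
        (tA (br (lt z) (lt x)) : ZMod p) * s + (tB (br (lt z) (lt x)) : ZMod p) * t :=
      fun x => hst _ (br_le hz x)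
    have h6 : ∑ x, ((co u x : ℤ) : ZMod p) *
        (((br (lt z) (lt x) ^ p - br (lt z) (lt x)) / p : ℤ) : ZMod p) =
        ((∑ x, co u x * tA (br (lt z) (lt x)) : ℤ) : ZMod p) * s +
        ((∑ x, co u x * tB (br (lt z) (lt x)) : ℤ) : ZMod p) * t := by
      push_cast
      rw [Finset.sum_mul, Finset.sum_mul, ← Finset.sum_add_distrib]
      refine Finset.sum_congr rfl fun x _ => ?_
      rw [h5' x]
      ring
    rw [h6, sum_tA u hz, sum_tB u hz, hlam, hlam]
    push_cast
    ring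
  · have h1 : ∀ e, (((sb (lt z) T (MvPolynomial.C (lam e))).coeff j : ℤ) : ℚ) = 0 := by
      intro e
      rw [sb_C, Polynomial.coeff_C, if_neg h0.ne', Int.cast_zero]
    rw [h1, h1, mul_zero, mul_zero, add_zero, add_zero]
    refine G_cg hG (lt z) T (fun x hx hd => ?_) h0 hj
    have h2 := Int.le_of_dvd (abs_pos.mpr hx) ((dvd_abs _ _).mpr hd)
    have h3 := br_le hz x
    omega

end world

end B10
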