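import Pool.Agent.Lib.B10.Forced

/-!
# The polynomials of the logarithms modulo `p` (base 10)

`c s`, `a s` with `∑ c s a s = 0`. For a prime `p` the form `G = (1 / p) ∑ c s ⟨X, a s⟩ ^ p` is
integral of degree `p`; its germ at `b` in the direction `T` is congruent modulo `(p, t ^ p)` to the
constant `G b` plus the series `∑ c s ⟨b, a s⟩ log (1 + t ⟨T, a s⟩ / ⟨b, a s⟩)`.
-/

set_option autoImplicit false

open Finset PWief

namespace B10

section

variable {S : Type*} [Fintype S]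

/-- the linear form `⟨X, a⟩` -/
noncomputable def lin (a : Fin 2 → ℤ) : MvPolynomial (Fin 2) ℤ :=
  MvPolynomial.C (a 1) * MvPolynomial.X 0 - MvPolynomial.C (a 0) * MvPolynomial.X 1

theorem sb_lin (b T a : Fin 2 → ℤ) :
    sb b T (lin a) = Polynomial.C (br b a) + Polynomial.C (br T a) * Polynomial.X := by
  rw [lin, map_sub, map_mul, map_mul, sb_C, sb_C, sb_X, sb_X, br, br]
  simp only [map_sub, map_mul]
  ring

theorem lin_hom (a : Fin 2 → ℤ) : (lin a).IsHomogeneous 1 := by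
  unfold lin
  refine MvPolynomial.IsHomogeneous.sub ?_ ?_
  · simpa using (MvPolynomial.isHomogeneous_C (Fin 2) (a 1)).mul
      (MvPolynomial.isHomogeneous_X ℤ (0 : Fin 2))
  · simpa using (MvPolynomial.isHomogeneous_C (Fin 2) (a 0)).mul
      (MvPolynomial.isHomogeneous_X ℤ (1 : Fin 2))

/-- Taylor coefficients of `∑ c s ⟨b, a s⟩ log (1 + t ⟨T, a s⟩ / ⟨b, a s⟩)` -/
noncomputable def lg (a : S → Fin 2 → ℤ) (c : S → ℤ) (b T : Fin 2 → ℤ) (j : ℕ) : ℚ :=
  ∑ s, if br b (a s) = 0 then 0 else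
    (c s : ℚ) * (((-1) ^ (j + 1) / (j : ℚ)) *
      ((br b (a s) : ℚ) * ((br T (a s) : ℚ) / (br b (a s) : ℚ)) ^ j))

theorem lg_zero (a : S → Fin 2 → ℤ) (c : S → ℤ) (b T : Fin 2 → ℤ) : lg a c b T 0 = 0 := by
  unfold lg
  refine Finset.sum_eq_zero fun s _ => ?_
  split_ifs
  · rfl
  · simp

variable {p : ℕ} [hp : Fact p.Prime]

/-- the sum of the `p`-th powers is divisible by `p` -/
theorem exists_G (a : S → Fin 2 → ℤ) (c : S → ℤ) (hc : ∀ e, ∑ s, c s * a s e = 0) :
    ∃ G : MvPolynomial (Fin 2) ℤ, G.IsHomogeneous p ∧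
      MvPolynomial.C (p : ℤ) * G = ∑ s, MvPolynomial.C (c s) * lin (a s) ^ p := by
  have h1 : MvPolynomial.C (p : ℤ) ∣ ∑ s, MvPolynomial.C (c s) * lin (a s) ^ p := by
    rw [MvPolynomial.C_dvd_iff_zmod]
    have hmap : ∀ s, MvPolynomial.map (Int.castRingHom (ZMod p)) (MvPolynomial.C (c s) *
        lin (a s) ^ p) = MvPolynomial.C ((c s * a s 1 : ℤ) : ZMod p) * MvPolynomial.X 0 ^ p -
          MvPolynomial.C ((c s * a s 0 : ℤ) : ZMod p) * MvPolynomial.X 1 ^ p := by
      intro s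
      have e : ∀ z : ℤ, (MvPolynomial.C (z : ZMod p) : MvPolynomial (Fin 2) (ZMod p)) ^ p =
          MvPolynomial.C (z : ZMod p) := fun z => by rw [← map_pow, ZMod.pow_card]
      rw [lin, map_mul, map_pow, map_sub, map_mul, map_mul, MvPolynomial.map_C,
        MvPolynomial.map_C, MvPolynomial.map_C, MvPolynomial.map_X, MvPolynomial.map_X,
        eq_intCast, eq_intCast, eq_intCast, sub_pow_char, mul_pow, mul_pow, e, e,
        Int.cast_mul, Int.cast_mul, map_mul, map_mul]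
      ring
    rw [map_sum, Finset.sum_congr rfl fun s _ => hmap s, Finset.sum_sub_distrib,
      ← Finset.sum_mul, ← Finset.sum_mul, ← map_sum, ← map_sum, ← Int.cast_sum, ← Int.cast_sum,
      hc 1, hc 0]
    simp
  obtain ⟨G, hG⟩ := h1
  refine ⟨G, ?_, hG.symm⟩
  have h2 : (MvPolynomial.C (p : ℤ) * G).IsHomogeneous p := by
    rw [← hG]
    refine MvPolynomial.IsHomogeneous.sum _ _ _ fun s _ => ?_
    simpa using (MvPolynomial.isHomogeneous_C (Fin 2) (c s)).mul ((lin_hom (a s)).pow p)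
  intro m hm
  refine h2 ?_
  rw [MvPolynomial.coeff_C_mul]
  exact mul_ne_zero (by exact_mod_cast hp.out.ne_zero) hm

omit hp in
/-- the coefficients of the germ of `G` -/
theorem G_coeff {a : S → Fin 2 → ℤ} {c : S → ℤ} {G : MvPolynomial (Fin 2) ℤ}
    (hG : MvPolynomial.C (p : ℤ) * G = ∑ s, MvPolynomial.C (c s) * lin (a s) ^ p)
    (b T : Fin 2 → ℤ) (j : ℕ) : (p : ℤ) * (sb b T G).coeff j =
      ∑ s, c s * (br b (a s) ^ (p - j) * br T (a s) ^ j * (p.choose j : ℤ)) := by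
  have h1 := congrArg (fun f => (sb b T f).coeff j) hG
  beta_reduce at h1
  rw [map_mul, sb_C, Polynomial.coeff_C_mul, map_sum, Polynomial.finsetSum_coeff] at h1
  rw [h1]
  refine Finset.sum_congr rfl fun s _ => ?_
  rw [map_mul, sb_C, Polynomial.coeff_C_mul, map_pow, sb_lin]
  congr 1
  rw [add_comm, mul_comm (Polynomial.C (br T (a s)))]
  have h2 : (Polynomial.X * Polynomial.C (br T (a s)) + Polynomial.C (br b (a s))) ^ p =
      ∑ k ∈ range (p + 1), Polynomial.C (br T (a s) ^ k * br b (a s) ^ (p - k) *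
        (p.choose k : ℤ)) * Polynomial.X ^ k := by
    rw [add_pow]
    refine Finset.sum_congr rfl fun k _ => ?_
    simp only [map_mul, map_pow, mul_pow, map_natCast]
    ring
  rw [h2, Polynomial.finsetSum_coeff]
  simp only [Polynomial.coeff_C_mul_X_pow]
  by_cases hj : j ∈ range (p + 1)
  · rw [Finset.sum_eq_single j]
    · rw [if_pos rfl]; ring
    · intro k _ hk
      rw [if_neg (Ne.symm hk)]
    · intro h; exact absurd hj h
  · rw [Finset.sum_eq_zero, Nat.choose_eq_zero_of_lt (by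
      rw [Finset.mem_range] at hj; omega)]
    · simp
    · intro k hk
      rw [if_neg]
      rintro rfl
      exact hj hk

/-- **The germ of `G`.** -/
theorem G_cg {a : S → Fin 2 → ℤ} {c : S → ℤ} {G : MvPolynomial (Fin 2) ℤ}
    (hG : MvPolynomial.C (p : ℤ) * G = ∑ s, MvPolynomial.C (c s) * lin (a s) ^ p)
    (b T : Fin 2 → ℤ) (hb : ∀ s, br b (a s) ≠ 0 → ¬ (p : ℤ) ∣ br b (a s)) {j : ℕ} (h0 : 0 < j)
    (hj : j < p) : Cg p (lg a c b T j) (((sb b T G).coeff j : ℤ) : ℚ) := by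
  have hp1 := hp.out.one_lt
  have hjp : ¬ (p : ℤ) ∣ (j : ℤ) := by
    intro h
    have := Nat.le_of_dvd h0 (Int.natCast_dvd_natCast.mp h)
    omega
  have hj0 : (j : ℚ) ≠ 0 := by exact_mod_cast h0.ne'
  -- `j` times the coefficient
  have h1 : (j : ℤ) * (sb b T G).coeff j =
      ∑ s, c s * (br b (a s) ^ (p - j) * br T (a s) ^ j * ((p - 1).choose (j - 1) : ℤ)) := by
    have h2 := G_coeff hG b T j
    have h3 : (j : ℤ) * (p.choose j : ℤ) = (p : ℤ) * ((p - 1).choose (j - 1) : ℤ) := by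
      have h4 := Nat.add_one_mul_choose_eq (p - 1) (j - 1)
      rw [Nat.sub_add_cancel hp1.le, Nat.sub_add_cancel h0] at h4
      exact_mod_cast (by rw [mul_comm, ← h4] : j * p.choose j = p * (p - 1).choose (j - 1))
    have h5 : (p : ℤ) * ((j : ℤ) * (sb b T G).coeff j) = (p : ℤ) *
        ∑ s, c s * (br b (a s) ^ (p - j) * br T (a s) ^ j * ((p - 1).choose (j - 1) : ℤ)) := by
      rw [mul_left_comm, h2, Finset.mul_sum, Finset.mul_sum]
      refine Finset.sum_congr rfl fun s _ => ?_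
      linear_combination (c s * (br b (a s) ^ (p - j) * br T (a s) ^ j)) * h3
    exact mul_left_cancel₀ (by exact_mod_cast hp.out.ne_zero) h5
  -- the binomial coefficient is a sign
  have h6 : (((p - 1).choose (j - 1) : ℕ) : ZMod p) = (-1) ^ (j - 1) := by
    have key : ∀ k : ℕ, k ≤ p - 1 → (((p - 1).choose k : ℕ) : ZMod p) = (-1) ^ k := by
      intro k
      induction k with
      | zero => intro _; simp
      | succ k ih =>
        intro hk
        have h7 : p.choose (k + 1) = (p - 1).choose k + (p - 1).choose (k + 1) := by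
          have := Nat.choose_succ_succ (p - 1) k
          rw [Nat.succ_eq_add_one, Nat.succ_eq_add_one, Nat.sub_add_cancel hp1.le] at this
          exact this
        have h8 : ((p.choose (k + 1) : ℕ) : ZMod p) = 0 := by
          rw [ZMod.natCast_eq_zero_iff]
          exact hp.out.dvd_choose_self (by omega) (by omega)
        rw [h7, Nat.cast_add, ih (by omega)] at h8
        rw [pow_succ]
        linear_combination h8
    exact key _ (by omega)
  refine cg_of_mul (m := (j : ℤ)) hjp ?_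
  have h9 : ((j : ℤ) : ℚ) * (((sb b T G).coeff j : ℤ) : ℚ) =
      ∑ s, ((c s * (br b (a s) ^ (p - j) * br T (a s) ^ j * ((p - 1).choose (j - 1) : ℤ)) : ℤ) : ℚ) := by
    rw [← Int.cast_mul, h1, Int.cast_sum]
  rw [h9, lg, Finset.mul_sum]
  refine cg_sum _ _ _ fun s _ => ?_
  split_ifs with hs
  · rw [mul_zero]
    have h10 : (0 : ℚ) = ((0 : ℤ) : ℚ) := by norm_num
    rw [h10]
    refine cg_int.2 ?_
    rw [hs, zero_pow (by omega)]
    simp
  · have hα := hb s hs
    have hα0 : ((br b (a s) : ℤ) : ℚ) ≠ 0 := by exact_mod_cast hs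
    have e1 : (j : ℚ) * ((c s : ℚ) * (((-1) ^ (j + 1) / (j : ℚ)) *
        ((br b (a s) : ℚ) * ((br T (a s) : ℚ) / (br b (a s) : ℚ)) ^ j))) =
        (c s : ℚ) * ((-1) ^ (j + 1) *
        ((br b (a s) : ℚ) * ((br T (a s) : ℚ) / (br b (a s) : ℚ)) ^ j)) := by
      field_simp
    have e2 : ((j : ℤ) : ℚ) = (j : ℚ) := by norm_num
    rw [e2, e1]
    have hm : ¬ (p : ℤ) ∣ br b (a s) ^ j := fun h =>
      hα (Int.Prime.dvd_pow' hp.out h)
    refine cg_of_mul (m := br b (a s) ^ j) hm ?_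
    have e3 : ((br b (a s) ^ j : ℤ) : ℚ) * ((c s : ℚ) * ((-1) ^ (j + 1) *
        ((br b (a s) : ℚ) * ((br T (a s) : ℚ) / (br b (a s) : ℚ)) ^ j))) =
        ((c s * ((-1) ^ (j + 1) * (br b (a s) * br T (a s) ^ j)) : ℤ) : ℚ) := by
      push_cast
      rw [div_pow]
      field_simp
    have e4 : ((br b (a s) ^ j : ℤ) : ℚ) * ((c s * (br b (a s) ^ (p - j) * br T (a s) ^ j *
        ((p - 1).choose (j - 1) : ℤ)) : ℤ) : ℚ) =
        ((br b (a s) ^ j * (c s * (br b (a s) ^ (p - j) * br T (a s) ^ j *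
        ((p - 1).choose (j - 1) : ℤ))) : ℤ) : ℚ) := by
      push_cast; ring
    rw [e3, e4]
    refine cg_int.2 ?_
    push_cast
    rw [h6]
    have e5 : ((br b (a s) : ℤ) : ZMod p) ^ j * ((br b (a s) : ℤ) : ZMod p) ^ (p - j) =
        ((br b (a s) : ℤ) : ZMod p) := by
      rw [← pow_add, Nat.add_sub_cancel' hj.le, ZMod.pow_card]
    have e6 : ((-1 : ZMod p)) ^ (j + 1) = (-1) ^ (j - 1) := by
      obtain ⟨i, rfl⟩ : ∃ i, j = i + 1 := ⟨j - 1, by omega⟩
      rw [Nat.add_sub_cancel, pow_succ, pow_succ]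
      ring
    rw [e6]
    linear_combination (-((c s : ZMod p) * (-1) ^ (j - 1) * ((br T (a s) : ℤ) : ZMod p) ^ j)) * e5

end

end B10
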