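import Pool.Agent.Lib.B10.Z2Row

/-!
# Base 10, the prime 2: the bounds
-/

set_option autoImplicit false

namespace B10.Z2

open Finset

variable {m L : ℕ} {κ : Fin 3}

/-! ### weights -/

noncomputable def wb (m : ℕ) : Fam → ℝ
  | Sum.inl false => 0
  | Sum.inl true => 40 * m
  | Sum.inr 0 => 40 * m
  | Sum.inr 1 => 20 * m
  | Sum.inr 2 => 12 * m

noncomputable def wc (m : ℕ) : Fam → ℝ
  | Sum.inl _ => 0
  | Sum.inr 0 => 40 * m
  | Sum.inr 1 => 22 * m
  | Sum.inr 2 => 22 * m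

noncomputable def wo (m : ℕ) : Fam → ℝ
  | Sum.inl _ => 0
  | Sum.inr 0 => 40 * m
  | Sum.inr 1 => 30 * m
  | Sum.inr 2 => 40 * m

/-! ### the fixed factor -/

theorem bd_FK_b (m L : ℕ) (κ : Fin 3) : Bd x2 (Real.exp (-(x2 * (12 * m)))) L
    (Polynomial.aeval (PowerSeries.X : PowerSeries ℚ_[2]) (FK ℚ_[2] m (bL κ))) := by
  have h := bd_FS (κ := κ) (z := bL κ) (Or.inl rfl) m 1 L univ 12 (sum_wt_b κ)
  rw [tK_b, ← FK_eq, Nat.cast_one, one_mul] at h
  exact_mod_cast h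

theorem bd_FK_c (m L : ℕ) (κ : Fin 3) : Bd (2 * x2) (Real.exp (-(x2 * (22 * m)))) L
    (Polynomial.aeval (tK ℚ_[2] (bL κ) (cL κ)) (FK ℚ_[2] m (bL κ))) := by
  have h := bd_FS (κ := κ) (z := cL κ) (mem_c κ) m 2 L univ 22 (sum_wt_c κ)
  rw [← FK_eq] at h
  exact_mod_cast h

theorem bd_tK_c (L : ℕ) (κ : Fin 3) :
    Bd x2 (Real.exp (-x2)) L (tK ℚ_[2] (bL κ) (cL κ)) := by
  have hm := mem_c κ
  refine bd_st x2_pos.le (norm_int_eq_one (al_odd κ _ hm)) (Padic.norm_int_le_one _) ?_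
    (Padic.norm_int_le_one _)
  obtain ⟨-, -, h3, -⟩ := al_c κ
  rw [h3, Int.cast_neg, norm_neg]
  exact (norm_ta κ).le

theorem exp_neg_le_one {y : ℝ} (hy : 0 ≤ y) : Real.exp (-y) ≤ 1 := by
  rw [← Real.exp_zero]
  exact Real.exp_le_exp.mpr (by linarith)

theorem bd_TT_c (s : Fin 3) (L N : ℕ) (κ : Fin 3) :
    Bd x2 L N (Polynomial.aeval (tK ℚ_[2] (bL κ) (cL κ)) (TT κ s L)) :=
  Bd.aeval _ (norm_TT_le κ s L) (bd_tK_c N κ) (Real.exp_pos _).le (exp_neg_le_one x2_pos.le)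

theorem bd_FL {z : Fin 12} (hz : mem κ z) (m L k W : ℕ) (hk : k ≤ 3)
    (h : (2 : ℤ) ^ k ∣ cβ (bL κ) z - ta κ * cα (bL κ) z)
    (hW : ∑ a ∈ univ.erase (o1 κ), FF a * wt k z a = W) :
    Bd (k * x2) (4 * m * Real.exp (-(x2 * ((4 * k + W) * m)))) L
      (Polynomial.aeval (tK ℚ_[2] (bL κ) z) (FL m κ)) := by
  have hx := x2_pos.le
  have hk3 : (k : ℝ) ≤ 3 := by exact_mod_cast hk
  have h1 := bd_FLp_series (c := t2 κ - t1 κ) (n := 4 * m) (L := L) (t2_ne κ) ((norm_t21 κ).trans (by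
    rw [norm_t2]
    exact Real.exp_le_exp.mpr (by linarith))) (y := k * x2) ((norm_t21 κ).trans
      (Real.exp_le_exp.mpr (by nlinarith))) (bd_tau hz L h) (bd_FS hz m k L (univ.erase (o1 κ)) W hW)
  rw [FL, map_mul, Polynomial.aeval_C]
  have h2 : ‖-(k1 κ : ℚ_[2])‖ ≤ 1 := by
    rw [norm_neg]
    exact Padic.norm_int_le_one _
  refine (Bd.C_mul h2 h1).mono (le_of_eq ?_)
  rw [one_mul, mul_assoc, ← Real.exp_add]
  push_cast
  congr 2
  ring

theorem bd_cb (hL : 4 * m ≤ L) (hL1 : 1 ≤ L) (s : Fam) :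
    Bd x2 (2 * L * Real.exp (-(x2 * wb m s))) L (cb m L κ s) := by
  have hx := x2_pos.le
  have hLr : (1 : ℝ) ≤ L := by exact_mod_cast hL1
  have hz : (0 : ℝ) ≤ 2 * L * Real.exp (-(x2 * (40 * m))) := by positivity
  rcases s with (_ | _) | s
  · rw [cb, wb, mul_zero, neg_zero, Real.exp_zero, mul_one]
    exact Bd.one.mono (by linarith)
  · exact Bd.zero hz
  · fin_cases s
    · exact bd_of_dvd hz ((dvd_EE0 κ L).mul_left _)
    · change Bd x2 (2 * L * Real.exp (-(x2 * (20 * m)))) L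
        (Polynomial.aeval PowerSeries.X (FK ℚ_[2] m (bL κ)) *
          (EE κ 1 (bL κ) - Polynomial.aeval PowerSeries.X (TT κ 1 L)) -
          Polynomial.aeval PowerSeries.X (FL m κ))
      have h1 := F_Lg_sub (τ₁ := t1 κ) (t2_ne κ) (4 * m) (F0 m κ)
      have hF : FK ℚ_[2] m (bL κ) = (Polynomial.X - Polynomial.C (t2 κ)) ^ (4 * m) * F0 m κ :=
        FK_fac m κ
      rw [← hF, ← STypeA_aeval_X, ← STypeA_aeval_X] at h1
      have h2 : Polynomial.aeval PowerSeries.X (FL m κ) =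
          PowerSeries.C (-(k1 κ : ℚ_[2])) *
            Polynomial.aeval PowerSeries.X (FLp (t2 κ - t1 κ) (t2 κ) (4 * m) (F0 m κ)) := by
        rw [FL, map_mul, Polynomial.aeval_C]
        rfl
      have h3 : Polynomial.aeval PowerSeries.X (FK ℚ_[2] m (bL κ)) *
          (EE κ 1 (bL κ) - Polynomial.aeval PowerSeries.X (TT κ 1 L)) -
          Polynomial.aeval PowerSeries.X (FL m κ) =
          Polynomial.aeval PowerSeries.X (FK ℚ_[2] m (bL κ)) *
            (EE κ 1 (bL κ) - Polynomial.aeval PowerSeries.X (TT κ 1 L) -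
              PowerSeries.C (-(k1 κ : ℚ_[2])) * (Lg (-1 / t1 κ) - Lg (-1 / t2 κ))) +
          PowerSeries.C (-(k1 κ : ℚ_[2])) *
            (Polynomial.aeval PowerSeries.X (FK ℚ_[2] m (bL κ)) *
              errSub (t1 κ) (t2 κ) (4 * m)) := by
        rw [h2]
        linear_combination (PowerSeries.C (-(k1 κ : ℚ_[2]))) * h1
      rw [h3]
      refine Bd.add (bd_of_dvd (by positivity) ((dvd_EE1 κ L).mul_left _)) ?_
      have h4 := Bd_errSub hK_padic (norm_t1 κ) (norm_t2 κ) (δ := Real.exp (-(2 * x2)))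
        (Real.exp_pos _).le ((norm_t21 κ).trans (by
          rw [← Real.exp_add]
          exact Real.exp_le_exp.mpr (by linarith))) (4 * m) L
      have h5 : ‖-(k1 κ : ℚ_[2])‖ ≤ 1 := by
        rw [norm_neg]
        exact Padic.norm_int_le_one _
      refine (Bd.C_mul h5 ((bd_FK_b m L κ).mul h4)).mono ?_
      rw [one_mul, ← Real.exp_nat_mul, ← mul_assoc, ← Real.exp_add, mul_comm]
      refine mul_le_mul (by linarith) (Real.exp_le_exp.mpr ?_) (Real.exp_pos _).le (by positivity)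
      push_cast
      nlinarith
    · change Bd x2 (2 * L * Real.exp (-(x2 * (12 * m)))) L
        (Polynomial.aeval PowerSeries.X (FK ℚ_[2] m (bL κ)) * EE κ 2 (bL κ))
      have h1 := bd_EE κ 2 (bL κ) 1 L (fun a ha => Or.inr (nd_b κ a ha))
      rw [Nat.cast_one, one_mul] at h1
      refine ((bd_FK_b m L κ).mul h1).mono ?_
      rw [mul_comm]
      exact mul_le_mul_of_nonneg_right (by linarith) (Real.exp_pos _).le

theorem dvd_trunc (f : PowerSeries ℚ_[2]) (L : ℕ) : (PowerSeries.X : PowerSeries ℚ_[2]) ^ L ∣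
    f - Polynomial.aeval PowerSeries.X (PowerSeries.trunc L f) := by
  rw [PowerSeries.X_pow_dvd_iff]
  intro i hi
  rw [map_sub, STypeA_aeval_X, Polynomial.coeff_coe, PowerSeries.coeff_trunc, if_pos hi, sub_self]

theorem bd_cc (hL : 4 * m ≤ L) (hL1 : 1 ≤ L) (s : Fam) :
    Bd (2 * x2) (2 * L * Real.exp (-(x2 * wc m s))) L (cc m L κ s) := by
  have hx := x2_pos.le
  have hLr : (1 : ℝ) ≤ L := by exact_mod_cast hL1
  have hLm : (4 * m : ℝ) ≤ L := by exact_mod_cast hL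
  have hz : (0 : ℝ) ≤ 2 * L * Real.exp (-(x2 * (40 * m))) := by positivity
  rcases s with (_ | _) | s
  · rw [cc, wc, mul_zero, neg_zero, Real.exp_zero, mul_one]
    exact Bd.one.mono (by linarith)
  · rw [cc, wc, mul_zero, neg_zero, Real.exp_zero, mul_one]
    refine (Bd.C (A := 1) ?_).mono (by linarith)
    rw [norm_neg]
    exact Padic.norm_int_le_one _
  · fin_cases s
    · exact bd_of_dvd hz ((dvd_trunc _ L).mul_left _)
    · change Bd (2 * x2) (2 * L * Real.exp (-(x2 * (22 * m)))) L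
        (Polynomial.aeval (tK ℚ_[2] (bL κ) (cL κ)) (FK ℚ_[2] m (bL κ)) *
          (EE κ 1 (cL κ) - Polynomial.aeval (tK ℚ_[2] (bL κ) (cL κ)) (TT κ 1 L)) -
          Polynomial.aeval (tK ℚ_[2] (bL κ) (cL κ)) (FL m κ))
      have h1 := bd_EE κ 1 (cL κ) 2 L (fun a ha => Or.inr (nd_c κ a ha))
      rw [Nat.cast_ofNat] at h1
      have h2 := (bd_TT_c 1 L L κ).mono_x (y := 2 * x2) (by linarith)
      have h3 := bd_FL (mem_c κ) m L 2 14 (by norm_num) (dvd_c κ) (sum_wt_c0 κ)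
      rw [Nat.cast_ofNat] at h3
      refine Bd.sub (((bd_FK_c m L κ).mul (h1.sub h2)).mono ?_) (h3.mono ?_)
      · rw [mul_comm]
        exact mul_le_mul_of_nonneg_right (by linarith) (Real.exp_pos _).le
      · refine mul_le_mul (by linarith) (Real.exp_le_exp.mpr (le_of_eq ?_)) (Real.exp_pos _).le
          (by positivity)
        push_cast
        ring
    · change Bd (2 * x2) (2 * L * Real.exp (-(x2 * (22 * m)))) L
        (Polynomial.aeval (tK ℚ_[2] (bL κ) (cL κ)) (FK ℚ_[2] m (bL κ)) * EE κ 2 (cL κ))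
      have h1 := bd_EE κ 2 (cL κ) 2 L (fun a ha => Or.inr (nd_c κ a ha))
      rw [Nat.cast_ofNat] at h1
      refine ((bd_FK_c m L κ).mul h1).mono ?_
      rw [mul_comm]
      exact mul_le_mul_of_nonneg_right (by linarith) (Real.exp_pos _).le

theorem bd_co (hL : 4 * m ≤ L) (hL1 : 1 ≤ L) {z : Fin 12} (hz : z = o1 κ ∨ z = o2 κ) (s : Fam) :
    Bd (3 * x2) (2 * L * Real.exp (-(x2 * wo m s))) L (co' m κ z s) := by
  have hx := x2_pos.le
  have hLr : (1 : ℝ) ≤ L := by exact_mod_cast hL1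
  have hLm : (4 * m : ℝ) ≤ L := by exact_mod_cast hL
  have hz0 : (0 : ℝ) ≤ 2 * L * Real.exp (-(x2 * (40 * m))) := by positivity
  have hxK : Bd (3 * x2) 1 L (xK ℚ_[2] (bL κ) z ^ (57 * m - 1)) :=
    bd_sx_pow (by positivity) (Padic.norm_int_le_one _) (Padic.norm_int_le_one _) _
  have hc : ∀ n : ℤ, Bd (3 * x2) 1 L
      (xK ℚ_[2] (bL κ) z ^ (57 * m - 1) * PowerSeries.C (n : ℚ_[2])) := fun n => by
    have := hxK.mul (Bd.C (x := 3 * x2) (L := L) (Padic.norm_int_le_one (p := 2) n))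
    rwa [one_mul] at this
  rcases s with (_ | _) | s
  · rw [co', wo, mul_zero, neg_zero, Real.exp_zero, mul_one]
    exact (hc _).mono (by linarith)
  · rw [co', wo, mul_zero, neg_zero, Real.exp_zero, mul_one]
    exact (hc _).mono (by linarith)
  · fin_cases s
    · exact Bd.zero hz0
    · change Bd (3 * x2) (2 * L * Real.exp (-(x2 * (30 * m)))) L
        (-(xK ℚ_[2] (bL κ) z ^ (57 * m - 1) * PowerSeries.C (cα (bL κ) z : ℚ_[2]) *
          Polynomial.aeval (tK ℚ_[2] (bL κ) z) (FL m κ)))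
      have h3 := bd_FL (mem_o hz) m L 3 18 le_rfl (dvd_o hz) (sum_wt_o0 κ z hz)
      rw [Nat.cast_ofNat] at h3
      refine (((hc _).mul h3).neg).mono ?_
      rw [one_mul]
      refine mul_le_mul (by linarith) (Real.exp_le_exp.mpr (le_of_eq ?_)) (Real.exp_pos _).le
          (by positivity)
      push_cast
      ring
    · exact Bd.zero hz0

/-! ### the polynomials -/

theorem norm_monoK_le (b : Fin 12) (i j k : ℕ) : ‖(monoK ℚ_[2] b i j).coeff k‖ ≤ 1 := by
  have h1 : ∀ (e : Fin 2) (n k : ℕ), ‖((Polynomial.C (lt b e : ℚ_[2]) +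
      Polynomial.C (tv b e : ℚ_[2]) * Polynomial.X) ^ n : Polynomial ℚ_[2]).coeff k‖ ≤ 1 := by
    intro e n k
    have := STypeZ_lin_pow (K := ℚ_[2]) (a := (lt b e : ℚ_[2])) (b := (tv b e : ℚ_[2])) (y := 0)
      (by rw [neg_zero, Real.exp_zero]; exact Padic.norm_int_le_one _)
      (by rw [neg_zero, Real.exp_zero]; exact Padic.norm_int_le_one _) n k
    rwa [zero_mul, neg_zero, Real.exp_zero] at this
  rw [monoK]
  have := STypeA_coeff_mul_norm _ _ zero_le_one zero_le_one (h1 0 i) (h1 1 j) k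
  rwa [one_mul] at this

theorem norm_C_mul_le {n : ℤ} {A : ℝ} {p : Polynomial ℚ_[2]} (hp : ∀ k, ‖p.coeff k‖ ≤ A) (k : ℕ) :
    ‖(Polynomial.C (n : ℚ_[2]) * p).coeff k‖ ≤ A := by
  rw [Polynomial.coeff_C_mul, norm_mul]
  exact (mul_le_of_le_one_left (norm_nonneg _) (Padic.norm_int_le_one _)).trans (hp k)

theorem norm_GK_le (j : Col m) (k : ℕ) : ‖(GK ℚ_[2] m (bL κ) j).coeff k‖ ≤ 1 := by
  rcases j with ⟨e, j⟩ | ⟨u, j⟩
  · exact norm_C_mul_le (norm_monoK_le _ _ _) k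
  · rw [GK, Polynomial.coeff_zero, norm_zero]
    exact zero_le_one

theorem norm_HK_le (j : Col m) (k : ℕ) : ‖(HK ℚ_[2] m (bL κ) j).coeff k‖ ≤ 1 := by
  rcases j with ⟨e, j⟩ | ⟨u, j⟩
  · exact norm_C_mul_le (norm_monoK_le _ _ _) k
  · rw [HK, Polynomial.coeff_zero, norm_zero]
    exact zero_le_one

theorem norm_qq_le (s : Fin 3) (j : Col m) (k : ℕ) : ‖(qq m κ s j).coeff k‖ ≤ 1 := by
  rw [qq]
  refine STypeA_coeff_sum_norm _ _ zero_le_one (fun v _ k => norm_C_mul_le (fun k => ?_) k) k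
  rcases j with ⟨e, j⟩ | ⟨u, j⟩
  · rw [qK, Polynomial.coeff_zero, norm_zero]
    exact zero_le_one
  · rw [qK]
    split_ifs
    · exact norm_monoK_le _ _ _ k
    · rw [Polynomial.coeff_zero, norm_zero]
      exact zero_le_one

theorem norm_FS_le (m : ℕ) (b : Fin 12) (S : Finset (Fin 12)) (k : ℕ) :
    ‖(FS m b S).coeff k‖ ≤ 1 := by
  refine coeff_le_of_bd (fun L => ?_) k
  rw [FS, map_prod]
  have h1 := Bd.prod (x := 0) (L := L) S
    (fun a => Polynomial.aeval (PowerSeries.X : PowerSeries ℚ_[2]) (lin b a ^ (FF a * m)))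
    (fun _ => 1) (fun a _ => by
      have h2 : Bd 0 1 L (Polynomial.aeval (PowerSeries.X : PowerSeries ℚ_[2]) (lin b a)) := by
        rw [aeval_lin]
        exact bd_sx (α := (br (lt b) (lt a) : ℚ_[2])) (α' := (br (tv b) (lt a) : ℚ_[2])) le_rfl
          (Padic.norm_int_le_one _) (Padic.norm_int_le_one _)
      have h3 := h2.pow (FF a * m)
      rwa [one_pow, ← map_pow] at h3)
  rwa [prod_const_one] at h1

theorem norm_FL_le (m : ℕ) (κ : Fin 3) (k : ℕ) : ‖(FL m κ).coeff k‖ ≤ 4 * m := by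
  rw [FL, Polynomial.coeff_C_mul, norm_mul]
  have h2 : ‖-(k1 κ : ℚ_[2])‖ ≤ 1 := by
    rw [norm_neg]
    exact Padic.norm_int_le_one _
  have h3 := norm_coeff_FLp_le hK_padic (c := t2 κ - t1 κ) (t2_ne κ) (Padic.norm_int_le_one (ta κ))
    ((norm_t21 κ).trans (by
      rw [norm_t2]
      exact Real.exp_le_exp.mpr (by linarith [x2_pos]))) (n := 4 * m) (F₀ := F0 m κ)
    (fun k => norm_FS_le m _ _ k) k
  push_cast at h3
  exact (mul_le_of_le_one_left (norm_nonneg _) h2).trans h3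

theorem norm_ee_le (hL : 4 * m ≤ L) (hL1 : 1 ≤ L) (s : Fam) (j : Col m) (k : ℕ) :
    ‖(ee m L κ s j).coeff k‖ ≤ 2 * L := by
  have hLr : (1 : ℝ) ≤ L := by exact_mod_cast hL1
  have hLm : (4 * m : ℝ) ≤ L := by exact_mod_cast hL
  rcases s with (_ | _) | s
  · have h1 : ‖(G1 m L κ j).coeff k‖ ≤ L := by
      have hT : ∀ s k, ‖(FK ℚ_[2] m (bL κ) * (TT κ s L * qq m κ s j)).coeff k‖ ≤ L := by
        intro s k
        have h2 := STypeA_coeff_mul_norm (TT κ s L) (qq m κ s j) (Nat.cast_nonneg L) zero_le_one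
          (norm_TT_le κ s L) (norm_qq_le s j)
        have h3 := STypeA_coeff_mul_norm (FK ℚ_[2] m (bL κ)) _ zero_le_one (by positivity)
          (fun k => norm_FS_le m _ _ k) h2 k
        rwa [mul_one, one_mul] at h3
      refine STypeA_coeff_add_norm _ _ (STypeA_coeff_add_norm _ _ (STypeA_coeff_add_norm _ _
        (fun k => (norm_GK_le j k).trans hLr) (hT 0)) (hT 1)) (fun k => ?_) k
      have h4 := STypeA_coeff_mul_norm (FL m κ) (qq m κ 1 j) (by positivity) zero_le_one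
        (norm_FL_le m κ) (norm_qq_le 1 j) k
      rw [mul_one] at h4
      exact h4.trans hLm
    change ‖(G1 m L κ j).coeff k‖ ≤ 2 * L
    linarith
  · change ‖(HK ℚ_[2] m (bL κ) j).coeff k‖ ≤ 2 * L
    linarith [norm_HK_le (κ := κ) j k]
  · change ‖(qq m κ s j).coeff k‖ ≤ 2 * L
    linarith [norm_qq_le (κ := κ) s j k]

/-! ### Psi -/

theorem bd_S0 : Bd x2 L L (S0 L κ) := by
  have h1 := bd_EE κ 0 (cL κ) 1 L (nd_c0 κ)
  rw [Nat.cast_one, one_mul] at h1
  exact h1.sub (bd_TT_c 0 L L κ)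

theorem even_ta (κ : Fin 3) : (2 : ℤ) ∣ ta κ := by
  revert κ
  decide

theorem norm_Psi_le (hL : 4 * m ≤ L) (k : ℕ) : ‖((Psi m L κ).comp
    (Polynomial.C (ta κ : ℚ_[2]) + Polynomial.C (2 : ℚ_[2]) * Polynomial.X)).coeff k‖ ≤
      2 * L * Real.exp (-(x2 * (12 * m))) := by
  have hx := x2_pos.le
  refine coeff_le_of_bd (fun N => ?_) k
  have hcomp : ∀ p : Polynomial ℚ_[2], Polynomial.aeval (PowerSeries.X : PowerSeries ℚ_[2])
      (p.comp (Polynomial.C (ta κ : ℚ_[2]) + Polynomial.C (2 : ℚ_[2]) * Polynomial.X)) =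
      Polynomial.aeval (sx (ta κ : ℚ_[2]) 2) p := by
    intro p
    rw [Polynomial.aeval_comp, map_add, map_mul, Polynomial.aeval_C, Polynomial.aeval_C,
      Polynomial.aeval_X]
    rfl
  rw [hcomp, Psi, map_mul]
  -- the fixed factor
  have h1 : Bd 0 (Real.exp (-(x2 * (12 * m)))) N
      (Polynomial.aeval (sx (ta κ : ℚ_[2]) 2) (FK ℚ_[2] m (bL κ))) := by
    rw [FK_eq, FS, map_prod]
    have h2 := Bd.prod (x := 0) (L := N) univ
      (fun a => Polynomial.aeval (sx (ta κ : ℚ_[2]) 2) (lin (bL κ) a ^ (FF a * m)))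
      (fun a => Real.exp (-(x2 * wt 1 (bL κ) a)) ^ (FF a * m)) (fun a _ => by
        rw [map_pow]
        refine Bd.pow ?_ _
        have h3 : Polynomial.aeval (sx (ta κ : ℚ_[2]) 2) (lin (bL κ) a) =
            sx ((br (lt (bL κ)) (lt a) + br (tv (bL κ)) (lt a) * ta κ : ℤ) : ℚ_[2])
              ((br (tv (bL κ)) (lt a) * 2 : ℤ) : ℚ_[2]) := by
          rw [aeval_lin, sx, sx]
          push_cast
          simp only [map_add, map_mul]
          ring
        have h4 : wt 1 (bL κ) a = 0 ∨ wt 1 (bL κ) a = 1 := by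
          have := wt_le 1 (bL κ) a
          omega
        have h5 := wt_dvd 1 (bL κ) a
        rw [h3]
        refine Bd.sx ?_ ?_
        · refine (norm_int_le (k := wt 1 (bL κ) a) ?_).trans (le_of_eq (by rw [mul_comm]))
          rcases h4 with h4 | h4 <;> rw [h4] at h5 ⊢
          · simp
          · rw [pow_one] at h5 ⊢
            exact h5.add ((even_ta κ).mul_left _)
        · rw [Real.exp_zero, mul_one]
          refine (norm_int_le (k := wt 1 (bL κ) a) ?_).trans (le_of_eq (by rw [mul_comm]))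
          rcases h4 with h4 | h4 <;> rw [h4]
          · simp
          · rw [pow_one]
            exact dvd_mul_left _ _)
    refine h2.mono (le_of_eq ?_)
    rw [show (∏ a, Real.exp (-(x2 * wt 1 (bL κ) a)) ^ (FF a * m)) =
      ∏ a, Real.exp (-(x2 * (FF a * wt 1 (bL κ) a * m))) from prod_congr rfl fun a _ => by
        rw [← Real.exp_nat_mul]
        congr 1
        push_cast
        ring, ← Real.exp_sum, sum_neg_distrib, ← mul_sum, ← sum_mul]
    have h6 : (∑ a, (FF a : ℝ) * (wt 1 (bL κ) a : ℝ)) = 12 := by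
      exact_mod_cast sum_wt_b κ
    rw [h6]
  -- the logarithm
  have h7 : Bd 0 (2 * L : ℝ) N (Polynomial.aeval (sx (ta κ : ℚ_[2]) 2) (Phi L κ)) := by
    rw [Phi, map_mul, Polynomial.aeval_C, Polynomial.aeval_comp, map_add, Polynomial.aeval_X,
      Polynomial.aeval_C]
    refine Bd.C_mul ?_ (bd_aeval_w (x := x2) _ (fun i => ?_) ?_)
    · rw [norm_inv, norm_neg, norm_ta, ← Real.exp_neg, neg_neg, x2, Real.exp_log (by norm_num)]
    · rw [PowerSeries.coeff_trunc]
      split_ifs with h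
      · exact bd_S0 i h
      · rw [norm_zero]
        positivity
    · have h8 : sx (ta κ : ℚ_[2]) 2 + algebraMap ℚ_[2] (PowerSeries ℚ_[2]) (ta κ : ℚ_[2]) =
          sx ((2 * ta κ : ℤ) : ℚ_[2]) 2 := by
        change sx (ta κ : ℚ_[2]) 2 + PowerSeries.C (ta κ : ℚ_[2]) = _
        rw [sx, sx]
        push_cast
        simp only [map_mul]
        have : (PowerSeries.C (2 : ℚ_[2]) : PowerSeries ℚ_[2]) = 2 := by
          rw [← map_ofNat (PowerSeries.C (R := ℚ_[2])) 2]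
        rw [this]
        ring
      rw [h8]
      refine Bd.sx ?_ ?_
      · have := norm_int_le (k := 1) (n := 2 * ta κ) (by rw [pow_one]; exact dvd_mul_right _ _)
        rwa [Nat.cast_one, one_mul] at this
      · rw [Real.exp_zero, mul_one]
        exact norm_two.le
  have h9 := h1.mul h7
  rwa [mul_comm (Real.exp _)] at h9

end B10.Z2
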