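import Pool.Agent.Lib.B10.Z2Data

/-!
# Base 10, the prime 2: the logarithms and the columns
-/

set_option autoImplicit false

namespace B10.Z2

open Finset

/-! ### the new basis of the logarithms -/

/-- the germs of the new logarithms -/
noncomputable def EE (κ s : Fin 3) (z : Fin 12) : PowerSeries ℚ_[2] :=
  ∑ u, PowerSeries.C (Sm κ s u : ℚ_[2]) * EK ℚ_[2] u z

/-- the coefficients of the new logarithms -/
noncomputable def qq (m : ℕ) (κ s : Fin 3) (j : Col m) : Polynomial ℚ_[2] :=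
  ∑ v, Polynomial.C (Tm κ s v : ℚ_[2]) * qK ℚ_[2] m (bL κ) v j

theorem sum_EE (κ : Fin 3) (z : Fin 12) (f : PowerSeries ℚ_[2]) (m : ℕ) (j : Col m) :
    ∑ u, EK ℚ_[2] u z * Polynomial.aeval f (qK ℚ_[2] m (bL κ) u j) =
      ∑ s, EE κ s z * Polynomial.aeval f (qq m κ s j) := by
  have h1 : ∀ s, EE κ s z * Polynomial.aeval f (qq m κ s j) = ∑ u, ∑ v,
      PowerSeries.C ((Sm κ s u * Tm κ s v : ℤ) : ℚ_[2]) *
        (EK ℚ_[2] u z * Polynomial.aeval f (qK ℚ_[2] m (bL κ) v j)) := by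
    intro s
    rw [EE, qq, map_sum, sum_mul_sum]
    refine sum_congr rfl fun u _ => sum_congr rfl fun v _ => ?_
    rw [map_mul, Polynomial.aeval_C]
    push_cast
    rw [map_mul]
    change _ * (PowerSeries.C (Tm κ s v : ℚ_[2]) * _) = _
    ring
  rw [sum_congr rfl fun s _ => h1 s, sum_comm]
  refine sum_congr rfl fun u _ => ?_
  rw [sum_comm]
  have h2 : ∀ v, ∑ s, PowerSeries.C ((Sm κ s u * Tm κ s v : ℤ) : ℚ_[2]) *
        (EK ℚ_[2] u z * Polynomial.aeval f (qK ℚ_[2] m (bL κ) v j)) =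
      if u = v then EK ℚ_[2] u z * Polynomial.aeval f (qK ℚ_[2] m (bL κ) v j) else 0 := by
    intro v
    rw [← sum_mul, ← map_sum, ← Int.cast_sum, Sm_Tm]
    split_ifs <;> simp
  rw [sum_congr rfl fun v _ => h2 v, sum_ite_eq, if_pos (mem_univ u)]

/-- the new logarithms as sums over the letters -/
theorem EE_eq (κ s : Fin 3) (z : Fin 12) : EE κ s z = ∑ a ∈ univ.erase z,
    PowerSeries.C ((cs κ s a : ℚ_[2]) * (br (lt z) (lt a) : ℚ_[2])) *
      Lg ((br (tv z) (lt a) : ℚ_[2]) / (br (lt z) (lt a) : ℚ_[2])) := by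
  rw [EE]
  simp only [EK, mul_sum]
  rw [sum_comm]
  refine sum_congr rfl fun a _ => ?_
  rw [cs, Int.cast_sum]
  simp only [← mul_assoc, ← map_mul]
  rw [← sum_mul, ← map_sum, sum_mul]
  congr 2
  refine sum_congr rfl fun u _ => ?_
  push_cast
  ring

theorem bd_EE (κ s : Fin 3) (z : Fin 12) (k L : ℕ)
    (h : ∀ a, a ≠ z → cs κ s a = 0 ∨ ¬ (2 : ℤ) ^ (k + 1) ∣ br (lt z) (lt a)) :
    Bd (k * x2) L L (EE κ s z) := by
  rw [EE_eq]
  refine Bd.sum _ _ (Nat.cast_nonneg L) fun a ha => ?_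
  rcases h a (mem_erase.mp ha).1 with h1 | h1
  · rw [h1, Int.cast_zero, zero_mul, map_zero, zero_mul]
    exact Bd.zero (Nat.cast_nonneg L)
  · have hc : ‖(cs κ s a : ℚ_[2]) * (br (lt z) (lt a) : ℚ_[2])‖ ≤ 1 := by
      rw [norm_mul]
      exact mul_le_one₀ (Padic.norm_int_le_one _) (norm_nonneg _) (Padic.norm_int_le_one _)
    have hw : ‖(br (tv z) (lt a) : ℚ_[2]) / (br (lt z) (lt a) : ℚ_[2])‖ ≤
        Real.exp (k * x2) := by
      rw [div_eq_mul_inv, norm_mul]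
      have h2 := mul_le_mul (Padic.norm_int_le_one (p := 2) (br (tv z) (lt a)))
        (norm_inv_le h1) (norm_nonneg _) zero_le_one
      rwa [one_mul] at h2
    have h2 := (Bd.C (x := k * x2) (L := L) hc).mul (bd_Lg (L := L) hw)
    rwa [one_mul] at h2

/-! ### the logarithms of the letters outside -/

noncomputable def ph (κ s : Fin 3) (a : Fin 12) : ℚ_[2] :=
  if mem κ a then 0 else (cs κ s a : ℚ_[2]) * (br (lt (bL κ)) (lt a) : ℚ_[2])

noncomputable def ww (κ : Fin 3) (a : Fin 12) : ℚ_[2] :=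
  if mem κ a then 0 else
    (br (tv (bL κ)) (lt a) : ℚ_[2]) / (br (lt (bL κ)) (lt a) : ℚ_[2])

theorem norm_ph_le (κ s : Fin 3) (a : Fin 12) : ‖ph κ s a‖ ≤ 1 := by
  rw [ph]
  split_ifs
  · rw [norm_zero]
    exact zero_le_one
  · rw [norm_mul]
    exact mul_le_one₀ (Padic.norm_int_le_one _) (norm_nonneg _) (Padic.norm_int_le_one _)

theorem norm_ww_le (κ : Fin 3) (a : Fin 12) : ‖ww κ a‖ ≤ 1 := by
  rw [ww]
  split_ifs with h
  · rw [norm_zero]
    exact zero_le_one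
  · rw [mem_iff] at h
    rw [norm_div, norm_int_eq_one h, div_one]
    exact Padic.norm_int_le_one _

/-- the truncated logarithm of the letters outside -/
noncomputable def TT (κ s : Fin 3) (L : ℕ) : Polynomial ℚ_[2] := LgPs (ph κ s) (ww κ) L

theorem norm_TT_le (κ s : Fin 3) (L k : ℕ) : ‖(TT κ s L).coeff k‖ ≤ L :=
  norm_coeff_LgPs_le hK_padic (norm_ph_le κ s) (norm_ww_le κ) L k

theorem filter_mem (κ : Fin 3) :
    (univ.erase (bL κ)).filter (fun a => mem κ a) = {cL κ, o1 κ, o2 κ} := by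
  revert κ
  decide

/-- the germ at the centre -/
theorem EE_b (κ s : Fin 3) : EE κ s (bL κ) = ∑ a, PowerSeries.C (ph κ s a) * Lg (ww κ a) +
    (PowerSeries.C ((cs κ s (cL κ) : ℚ_[2]) * (br (lt (bL κ)) (lt (cL κ)) : ℚ_[2])) *
        Lg ((br (tv (bL κ)) (lt (cL κ)) : ℚ_[2]) / (br (lt (bL κ)) (lt (cL κ)) : ℚ_[2])) +
      PowerSeries.C ((cs κ s (o1 κ) : ℚ_[2]) * (br (lt (bL κ)) (lt (o1 κ)) : ℚ_[2])) *
        Lg ((br (tv (bL κ)) (lt (o1 κ)) : ℚ_[2]) / (br (lt (bL κ)) (lt (o1 κ)) : ℚ_[2])) +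
      PowerSeries.C ((cs κ s (o2 κ) : ℚ_[2]) * (br (lt (bL κ)) (lt (o2 κ)) : ℚ_[2])) *
        Lg ((br (tv (bL κ)) (lt (o2 κ)) : ℚ_[2]) / (br (lt (bL κ)) (lt (o2 κ)) : ℚ_[2]))) := by
  classical
  rw [EE_eq]
  set g : Fin 12 → PowerSeries ℚ_[2] := fun a =>
    PowerSeries.C ((cs κ s a : ℚ_[2]) * (br (lt (bL κ)) (lt a) : ℚ_[2])) *
      Lg ((br (tv (bL κ)) (lt a) : ℚ_[2]) / (br (lt (bL κ)) (lt a) : ℚ_[2])) with hg
  have h1 : ∑ a, PowerSeries.C (ph κ s a) * Lg (ww κ a) =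
      ∑ a ∈ univ.erase (bL κ), if mem κ a then 0 else g a := by
    rw [← add_sum_erase univ _ (mem_univ (bL κ))]
    have h2 : ph κ s (bL κ) = 0 := by
      rw [ph, if_pos (show mem κ (bL κ) from Or.inl rfl)]
    rw [h2, map_zero, zero_mul, zero_add]
    refine sum_congr rfl fun a _ => ?_
    rw [ph, ww]
    split_ifs
    · rw [map_zero, zero_mul]
    · rfl
  have h3 : g (cL κ) + g (o1 κ) + g (o2 κ) =
      ∑ a ∈ univ.erase (bL κ), if mem κ a then g a else 0 := by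
    rw [← sum_filter]
    obtain ⟨-, -, -, d1, d2, d3⟩ := distinct κ
    rw [filter_mem, sum_insert (by simp [d1, d2]), sum_insert (by simp [d3]), sum_singleton, add_assoc]
  rw [h1]
  change ∑ a ∈ univ.erase (bL κ), g a = _ + (g (cL κ) + g (o1 κ) + g (o2 κ))
  rw [h3, ← sum_add_distrib]
  refine sum_congr rfl fun a _ => ?_
  split_ifs <;> simp

theorem coeff_TT (κ s : Fin 3) {L i : ℕ} (hi : i ≤ L) :
    PowerSeries.coeff i (Polynomial.aeval (PowerSeries.X : PowerSeries ℚ_[2]) (TT κ s L)) =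
      PowerSeries.coeff i (∑ a, PowerSeries.C (ph κ s a) * Lg (ww κ a)) := by
  rw [TT, LgPs, map_sum, map_sum, map_sum]
  refine sum_congr rfl fun a _ => ?_
  have hX : (sx 0 1 : PowerSeries ℚ_[2]) = PowerSeries.X := by simp [sx]
  rw [map_mul, Polynomial.aeval_C]
  change PowerSeries.coeff i (PowerSeries.C (ph κ s a) * _) = _
  rw [PowerSeries.coeff_C_mul, PowerSeries.coeff_C_mul, ← hX, coeff_aeval_LgP _ hi]

/-- at the centre the logarithm `0` is its truncation -/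
theorem dvd_EE0 (κ : Fin 3) (L : ℕ) : (PowerSeries.X : PowerSeries ℚ_[2]) ^ L ∣
    EE κ 0 (bL κ) - Polynomial.aeval PowerSeries.X (TT κ 0 L) := by
  rw [PowerSeries.X_pow_dvd_iff]
  intro i hi
  obtain ⟨h1, h2, h3⟩ := cs0_eq κ
  rw [map_sub, coeff_TT κ 0 hi.le, EE_b, h1, h2, h3]
  simp

/-- the two positions -/
noncomputable def t1 (κ : Fin 3) : ℚ_[2] := -(ta κ : ℚ_[2]) / 3
noncomputable def t2 (κ : Fin 3) : ℚ_[2] := (ta κ : ℚ_[2])

theorem norm_t2 (κ : Fin 3) : ‖t2 κ‖ = Real.exp (-x2) := norm_ta κ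

theorem norm_t1 (κ : Fin 3) : ‖t1 κ‖ = Real.exp (-x2) := by
  rw [t1, norm_div, norm_neg, norm_ta, norm_three, div_one]

theorem t1_ne (κ : Fin 3) : t1 κ ≠ 0 := by
  rw [← norm_pos_iff, norm_t1]
  exact Real.exp_pos _

theorem t2_ne (κ : Fin 3) : t2 κ ≠ 0 := by
  rw [← norm_pos_iff, norm_t2]
  exact Real.exp_pos _

theorem norm_t21 (κ : Fin 3) : ‖t2 κ - t1 κ‖ ≤ Real.exp (-(3 * x2)) := by
  have h3 : (3 : ℚ_[2]) ≠ 0 := by norm_num
  have h : t2 κ - t1 κ = ((4 * ta κ : ℤ) : ℚ_[2]) / 3 := by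
    rw [t1, t2]
    push_cast
    field_simp
    ring
  rw [h, norm_div, norm_three, div_one]
  have := norm_int_le (k := 3) (n := 4 * ta κ) (by
    rcases ta_cases κ with h | h <;> rw [h] <;> decide)
  exact_mod_cast this

/-- at the centre the logarithm `1` is its truncation and the difference of two logarithms -/
theorem dvd_EE1 (κ : Fin 3) (L : ℕ) : (PowerSeries.X : PowerSeries ℚ_[2]) ^ L ∣
    EE κ 1 (bL κ) - Polynomial.aeval PowerSeries.X (TT κ 1 L) -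
      PowerSeries.C (-(k1 κ : ℚ_[2])) * (Lg (-1 / t1 κ) - Lg (-1 / t2 κ)) := by
  rw [PowerSeries.X_pow_dvd_iff]
  intro i hi
  obtain ⟨h1, h2, h3⟩ := k1_eq κ
  obtain ⟨a1, a2, a3⟩ := o1_eq κ
  obtain ⟨b1, b2⟩ := o2_eq κ
  have ht : (ta κ : ℚ_[2]) ≠ 0 := t2_ne κ
  have hal : (cα (bL κ) (o1 κ) : ℚ_[2]) ≠ 0 := al_ne (Or.inr (Or.inr (Or.inl rfl)))
  have e1 : (cs κ 1 (o1 κ) : ℚ_[2]) * (br (lt (bL κ)) (lt (o1 κ)) : ℚ_[2]) = (k1 κ : ℚ_[2]) := by
    exact_mod_cast h1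
  have e2 : (cs κ 1 (o2 κ) : ℚ_[2]) * (br (lt (bL κ)) (lt (o2 κ)) : ℚ_[2]) = -(k1 κ : ℚ_[2]) := by
    exact_mod_cast h2
  have e3 : (br (tv (bL κ)) (lt (o1 κ)) : ℚ_[2]) / (br (lt (bL κ)) (lt (o1 κ)) : ℚ_[2]) =
      -1 / t2 κ := by
    rw [a1, a2, t2]
    push_cast
    field_simp
  have e4 : (br (tv (bL κ)) (lt (o2 κ)) : ℚ_[2]) / (br (lt (bL κ)) (lt (o2 κ)) : ℚ_[2]) =
      -1 / t1 κ := by
    rw [b1, b2, t1]
    push_cast
    field_simp
  rw [map_sub, map_sub, coeff_TT κ 1 hi.le, EE_b, h3, e1, e2, e3, e4]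
  simp only [Int.cast_zero, zero_mul, map_zero, zero_add, map_add, map_neg, map_sub,
    PowerSeries.coeff_C_mul, neg_mul]
  ring

end B10.Z2
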