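import Pool.Agent.Lib.B10.Coord
import Pool.Agent.Lib.B10.SRows
import Pool.Agent.Lib.B10.FLog
import Pool.Agent.Lib.B10.STypeZ

/-!
# Base 10, the prime 2: the data of the three chains of discs

Chain `κ`: centre letter `bL κ`, then the letter `cL κ`, then the letters `o1 κ`, `o2 κ`. In the
coordinate of the centre they are at `0`, `-ta`, `ta`, `-ta / 3`, `ta = 2` or `-2`.
-/

set_option autoImplicit false

namespace B10.Z2

open Finset

/-- the letters of the chains -/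
def bL : Fin 3 → Fin 12 := ![0, 1, 2]
def cL : Fin 3 → Fin 12 := ![4, 3, 5]
def o1 : Fin 3 → Fin 12 := ![6, 10, 7]
def o2 : Fin 3 → Fin 12 := ![9, 8, 11]

/-- the position of `o1` -/
def ta : Fin 3 → ℤ := ![2, -2, -2]
def k1 : Fin 3 → ℤ := ![2, 2, -2]

/-- the change of basis of the three logarithms and its inverse transpose -/
def Sm : Fin 3 → Fin 3 → Fin 3 → ℤ :=
  ![![![-6, 0, 1], ![1, 0, 0], ![0, 1, 0]], ![![5, 1, 1], ![1, 0, 0], ![0, 1, 0]],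
    ![![-6, 1, 0], ![1, 0, 0], ![0, 0, 1]]]
def Tm : Fin 3 → Fin 3 → Fin 3 → ℤ :=
  ![![![0, 0, 1], ![1, 0, 6], ![0, 1, 0]], ![![0, 0, 1], ![1, 0, -5], ![0, 1, -1]],
    ![![0, 1, 0], ![1, 6, 0], ![0, 0, 1]]]

theorem Sm_Tm (κ u v : Fin 3) : ∑ s, Sm κ s u * Tm κ s v = if u = v then 1 else 0 := by
  revert κ u v
  decide

/-- the coefficients of the new logarithms -/
def cs (κ s : Fin 3) (a : Fin 12) : ℤ := ∑ u, Sm κ s u * co u a

/-- `min k (v₂ ⟨z, a⟩)` -/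
def wt (k : ℕ) (z a : Fin 12) : ℕ :=
  if (8 : ℤ) ∣ br (lt z) (lt a) then min 3 k else if (4 : ℤ) ∣ br (lt z) (lt a) then min 2 k
  else if (2 : ℤ) ∣ br (lt z) (lt a) then min 1 k else 0

theorem wt_le (k : ℕ) (z a : Fin 12) : wt k z a ≤ k := by
  rw [wt]
  split_ifs <;> omega

theorem wt_dvd (k : ℕ) (z a : Fin 12) : (2 : ℤ) ^ wt k z a ∣ br (lt z) (lt a) := by
  rw [wt]
  split_ifs with h1 h2 h3
  · exact (pow_dvd_pow _ (min_le_left 3 k)).trans (by norm_num; exact h1)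
  · exact (pow_dvd_pow _ (min_le_left 2 k)).trans (by norm_num; exact h2)
  · exact (pow_dvd_pow _ (min_le_left 1 k)).trans (by norm_num; exact h3)
  · simp

theorem sum_wt_b (κ : Fin 3) : ∑ a, FF a * wt 1 (bL κ) a = 12 := by
  revert κ
  decide

theorem sum_wt_c (κ : Fin 3) : ∑ a, FF a * wt 2 (cL κ) a = 22 := by
  revert κ
  decide

theorem sum_wt_c0 (κ : Fin 3) : ∑ a ∈ univ.erase (o1 κ), FF a * wt 2 (cL κ) a = 14 := by
  revert κ
  decide

theorem sum_wt_o0 (κ : Fin 3) (z : Fin 12) (hz : z = o1 κ ∨ z = o2 κ) :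
    ∑ a ∈ univ.erase (o1 κ), FF a * wt 3 z a = 18 := by
  rcases hz with rfl | rfl <;> revert κ <;> decide

theorem FF_o1 (κ : Fin 3) : FF (o1 κ) = 4 := by
  revert κ
  decide

section facts

variable (κ : Fin 3)

theorem al_b : cα (bL κ) (bL κ) = 1 ∧ cα' (bL κ) (bL κ) = 0 ∧ cβ (bL κ) (bL κ) = 0 ∧
    cβ' (bL κ) (bL κ) = 1 := by
  revert κ
  decide

theorem al_c : cα (bL κ) (cL κ) = 1 ∧ cα' (bL κ) (cL κ) = 0 ∧ cβ (bL κ) (cL κ) = -ta κ ∧
    cβ' (bL κ) (cL κ) = 1 := by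
  revert κ
  decide

/-- the letters of the chain -/
def mem (z : Fin 12) : Prop := z = bL κ ∨ z = cL κ ∨ z = o1 κ ∨ z = o2 κ

instance (z : Fin 12) : Decidable (mem κ z) := by
  rw [mem]
  infer_instance

theorem al_odd (z : Fin 12) (hz : mem κ z) : ¬ (2 : ℤ) ∣ cα (bL κ) z := by
  revert κ z
  decide

theorem mem_iff (z : Fin 12) : mem κ z ↔ (2 : ℤ) ∣ br (lt (bL κ)) (lt z) := by
  revert κ z
  decide

/-- the position of the letters `o1`, `o2` with respect to `ta` -/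
theorem pos_o (z : Fin 12) (hz : z = o1 κ ∨ z = o2 κ) :
    (8 : ℤ) ∣ cβ (bL κ) z - ta κ * cα (bL κ) z := by
  revert κ z
  decide

theorem o1_eq : br (lt (bL κ)) (lt (o1 κ)) = ta κ * cα (bL κ) (o1 κ) ∧
    br (tv (bL κ)) (lt (o1 κ)) = -cα (bL κ) (o1 κ) ∧
    (cα (bL κ) (o1 κ)) ^ 4 = 1 := by
  revert κ
  decide

theorem o2_eq : br (lt (bL κ)) (lt (o2 κ)) = -ta κ ∧ br (tv (bL κ)) (lt (o2 κ)) = -3 := by
  revert κ
  decide

theorem k1_eq : cs κ 1 (o1 κ) * br (lt (bL κ)) (lt (o1 κ)) = k1 κ ∧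
    cs κ 1 (o2 κ) * br (lt (bL κ)) (lt (o2 κ)) = -k1 κ ∧ cs κ 1 (cL κ) = 0 := by
  revert κ
  decide

theorem cs0_eq : cs κ 0 (o1 κ) = 0 ∧ cs κ 0 (o2 κ) = 0 ∧ cs κ 0 (cL κ) = 0 := by
  revert κ
  decide

/-- the letters of the chain are different -/
theorem distinct : bL κ ≠ cL κ ∧ bL κ ≠ o1 κ ∧ bL κ ≠ o2 κ ∧ cL κ ≠ o1 κ ∧ cL κ ≠ o2 κ ∧
    o1 κ ≠ o2 κ := by
  revert κ
  decide

theorem nd_b (a : Fin 12) (ha : a ≠ bL κ) : ¬ (2 : ℤ) ^ 2 ∣ br (lt (bL κ)) (lt a) := by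
  revert κ a
  decide

theorem nd_c (a : Fin 12) (ha : a ≠ cL κ) : ¬ (2 : ℤ) ^ 3 ∣ br (lt (cL κ)) (lt a) := by
  revert κ a
  decide

theorem nd_c0 (a : Fin 12) (ha : a ≠ cL κ) :
    cs κ 0 a = 0 ∨ ¬ (2 : ℤ) ^ 2 ∣ br (lt (cL κ)) (lt a) := by
  revert κ a
  decide

theorem ta_cases : ta κ = 2 ∨ ta κ = -2 := by
  revert κ
  decide

end facts

/-! ### norms in `ℚ_[2]` -/

/-- the scale -/
noncomputable def x2 : ℝ := Real.log 2

theorem x2_pos : 0 < x2 := Real.log_pos (by norm_num)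

theorem norm_int_le {k : ℕ} {n : ℤ} (h : (2 : ℤ) ^ k ∣ n) :
    ‖(n : ℚ_[2])‖ ≤ Real.exp (-(k * x2)) := norm_intCast_le_exp (p := 2) (by exact_mod_cast h)

theorem norm_inv_le {k : ℕ} {n : ℤ} (h : ¬ (2 : ℤ) ^ (k + 1) ∣ n) :
    ‖((n : ℚ_[2]))⁻¹‖ ≤ Real.exp (k * x2) := by
  have hn : n ≠ 0 := fun h0 => h (h0 ▸ dvd_zero _)
  have hn' : (n : ℚ_[2]) ≠ 0 := Int.cast_ne_zero.mpr hn
  have h1 : ¬ ‖(n : ℚ_[2])‖ ≤ (2 : ℝ) ^ (-((k + 1 : ℕ) : ℤ)) := fun h2 => h (by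
    have := (Padic.norm_int_le_pow_iff_dvd (p := 2) n (k + 1)).mp (by exact_mod_cast h2)
    exact_mod_cast this)
  have h2 : ‖(n : ℚ_[2])‖ = (2 : ℝ) ^ (-(n : ℚ_[2]).valuation) := by
    rw [Padic.norm_eq_zpow_neg_valuation hn']
    norm_num
  rw [h2, not_le, zpow_lt_zpow_iff_right₀ (by norm_num)] at h1
  rw [norm_inv, h2, ← zpow_neg, neg_neg]
  have h3 : (n : ℚ_[2]).valuation ≤ (k : ℤ) := by
    push_cast at h1
    omega
  calc (2 : ℝ) ^ (n : ℚ_[2]).valuation ≤ (2 : ℝ) ^ (k : ℤ) :=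
        zpow_le_zpow_right₀ (by norm_num) h3
    _ = Real.exp (k * x2) := by
        rw [zpow_natCast, Real.exp_nat_mul, x2, Real.exp_log (by norm_num)]

theorem norm_int_eq_one {n : ℤ} (h : ¬ (2 : ℤ) ∣ n) : ‖(n : ℚ_[2])‖ = 1 :=
  norm_intCast_eq_one (p := 2) (by exact_mod_cast h)

theorem norm_two : ‖(2 : ℚ_[2])‖ = Real.exp (-x2) := by
  have h := Padic.norm_p (p := 2)
  rw [x2, Real.exp_neg, Real.exp_log (by norm_num)]
  exact_mod_cast h

theorem norm_three : ‖(3 : ℚ_[2])‖ = 1 := by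
  have := norm_int_eq_one (n := 3) (by decide)
  exact_mod_cast this

theorem norm_ta (κ : Fin 3) : ‖(ta κ : ℚ_[2])‖ = Real.exp (-x2) := by
  rcases ta_cases κ with h | h <;> rw [h] <;> push_cast
  · exact norm_two
  · rw [norm_neg]
    exact norm_two

/-! ### the factors -/

/-- a linear factor in the coordinate of `b` -/
noncomputable def lin (b a : Fin 12) : Polynomial ℚ_[2] :=
  Polynomial.C (br (lt b) (lt a) : ℚ_[2]) + Polynomial.C (br (tv b) (lt a) : ℚ_[2]) * Polynomial.X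

/-- the product over a set of letters -/
noncomputable def FS (m : ℕ) (b : Fin 12) (S : Finset (Fin 12)) : Polynomial ℚ_[2] :=
  ∏ a ∈ S, lin b a ^ (FF a * m)

theorem FK_eq (m : ℕ) (b : Fin 12) : FK ℚ_[2] m b = FS m b univ := rfl

theorem aeval_lin (f : PowerSeries ℚ_[2]) (b a : Fin 12) : Polynomial.aeval f (lin b a) =
    PowerSeries.C (br (lt b) (lt a) : ℚ_[2]) + PowerSeries.C (br (tv b) (lt a) : ℚ_[2]) * f := by
  rw [lin, map_add, map_mul, Polynomial.aeval_C, Polynomial.aeval_C, Polynomial.aeval_X]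
  rfl

theorem sx_lin {b z : Fin 12} (h : (cα b z : ℚ_[2]) ≠ 0) (a : Fin 12) :
    sx (br (lt z) (lt a) : ℚ_[2]) (br (tv z) (lt a) : ℚ_[2]) =
      xK ℚ_[2] b z * Polynomial.aeval (tK ℚ_[2] b z) (lin b a) := by
  rw [aeval_lin]
  refine sx_eq h ?_ ?_
  · rw [br_lt_eq b z a]
    push_cast
    rfl
  · rw [br_tv_eq b z a]
    push_cast
    rfl

theorem lin_eq {b z : Fin 12} (h : (cα b z : ℚ_[2]) ≠ 0) (a : Fin 12) :
    Polynomial.aeval (tK ℚ_[2] b z) (lin b a) =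
      sx (br (lt z) (lt a) : ℚ_[2]) (br (tv z) (lt a) : ℚ_[2]) *
        xinv (cα b z : ℚ_[2]) (cα' b z : ℚ_[2]) := by
  rw [sx_lin h, mul_comm, ← mul_assoc, xK, mul_comm (xinv _ _), sx_mul_xinv h, one_mul]

theorem al_ne {κ : Fin 3} {z : Fin 12} (hz : mem κ z) : (cα (bL κ) z : ℚ_[2]) ≠ 0 := by
  intro h
  have := norm_int_eq_one (al_odd κ z hz)
  rw [h, norm_zero] at this
  exact zero_ne_one this

/-- a factor at a letter of the chain -/
theorem bd_lin {κ : Fin 3} {z : Fin 12} (hz : mem κ z) (k L : ℕ) (a : Fin 12) :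
    Bd (k * x2) (Real.exp (-(x2 * wt k z a))) L
      (Polynomial.aeval (tK ℚ_[2] (bL κ) z) (lin (bL κ) a)) := by
  have hx := x2_pos.le
  rw [lin_eq (al_ne hz)]
  have h1 : Bd (k * x2) (Real.exp (-(x2 * wt k z a))) L
      (sx (br (lt z) (lt a) : ℚ_[2]) (br (tv z) (lt a) : ℚ_[2])) := by
    refine Bd.sx ?_ ?_
    · have := norm_int_le (wt_dvd k z a)
      rwa [mul_comm] at this
    · refine (Padic.norm_int_le_one _).trans ?_
      rw [← Real.exp_add]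
      refine Real.one_le_exp ?_
      have h2 : ((wt k z a : ℕ) : ℝ) ≤ k := by exact_mod_cast wt_le k z a
      nlinarith
  have h2 : Bd (k * x2) 1 L (xinv (cα (bL κ) z : ℚ_[2]) (cα' (bL κ) z : ℚ_[2])) :=
    bd_xinv (by positivity) (norm_int_eq_one (al_odd κ z hz)) (Padic.norm_int_le_one _)
  have h3 := h1.mul h2
  rwa [mul_one] at h3

/-- the product at a letter of the chain -/
theorem bd_FS {κ : Fin 3} {z : Fin 12} (hz : mem κ z) (m k L : ℕ) (S : Finset (Fin 12)) (W : ℕ)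
    (hW : ∑ a ∈ S, FF a * wt k z a = W) :
    Bd (k * x2) (Real.exp (-(x2 * (W * m)))) L
      (Polynomial.aeval (tK ℚ_[2] (bL κ) z) (FS m (bL κ) S)) := by
  rw [FS, map_prod]
  have h1 := Bd.prod (x := k * x2) (L := L) S
    (fun a => Polynomial.aeval (tK ℚ_[2] (bL κ) z) (lin (bL κ) a ^ (FF a * m)))
    (fun a => Real.exp (-(x2 * wt k z a)) ^ (FF a * m)) (fun a _ => by
      rw [map_pow]
      exact (bd_lin hz k L a).pow _)
  refine h1.mono (le_of_eq ?_)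
  rw [← hW]
  push_cast
  rw [show (∏ a ∈ S, Real.exp (-(x2 * wt k z a)) ^ (FF a * m)) =
    ∏ a ∈ S, Real.exp (-(x2 * (FF a * wt k z a * m))) from prod_congr rfl fun a _ => by
      rw [← Real.exp_nat_mul]
      congr 1
      push_cast
      ring, ← Real.exp_sum]
  congr 1
  rw [sum_neg_distrib, ← mul_sum, sum_mul]

/-- the factor of `o1` -/
theorem lin_o1 (κ : Fin 3) (m : ℕ) : lin (bL κ) (o1 κ) ^ (4 * m) =
    (Polynomial.X - Polynomial.C (ta κ : ℚ_[2])) ^ (4 * m) := by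
  obtain ⟨h1, h2, h3⟩ := o1_eq κ
  have h4 : lin (bL κ) (o1 κ) = Polynomial.C (-(cα (bL κ) (o1 κ) : ℚ_[2])) *
      (Polynomial.X - Polynomial.C (ta κ : ℚ_[2])) := by
    rw [lin, h1, h2]
    push_cast
    simp only [map_neg, map_mul]
    ring
  have h5 : (-(cα (bL κ) (o1 κ) : ℚ_[2])) ^ 4 = 1 := by
    rw [Even.neg_pow (by decide)]
    exact_mod_cast h3
  rw [h4, mul_pow, ← map_pow, pow_mul _ 4 m, h5, one_pow, map_one, one_mul]

/-- the fixed factor without the letter `o1` -/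
noncomputable def F0 (m : ℕ) (κ : Fin 3) : Polynomial ℚ_[2] := FS m (bL κ) (univ.erase (o1 κ))

theorem FK_fac (m : ℕ) (κ : Fin 3) : FK ℚ_[2] m (bL κ) =
    (Polynomial.X - Polynomial.C (ta κ : ℚ_[2])) ^ (4 * m) * F0 m κ := by
  rw [FK_eq, FS, ← mul_prod_erase univ _ (mem_univ (o1 κ)), FF_o1, lin_o1]
  rfl

end B10.Z2
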