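import Pool.Agent.Lib.B10.Z2Col

/-!
# Base 10, the prime 2: the families of the columns and the coefficients of the rows
-/

set_option autoImplicit false

namespace B10.Z2

open Finset

/-! ### tools -/

theorem bd_of_dvd {y A : ℝ} {L : ℕ} {f : PowerSeries ℚ_[2]} (hA : 0 ≤ A)
    (h : (PowerSeries.X : PowerSeries ℚ_[2]) ^ L ∣ f) : Bd y A L f := fun i hi => by
  rw [PowerSeries.X_pow_dvd_iff.mp h i hi, norm_zero]
  positivity

theorem coeff_le_of_bd {A : ℝ} {p : Polynomial ℚ_[2]}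
    (h : ∀ L, Bd 0 A L (Polynomial.aeval (PowerSeries.X : PowerSeries ℚ_[2]) p)) (k : ℕ) :
    ‖p.coeff k‖ ≤ A := by
  have h1 := h (k + 1) k (Nat.lt_succ_self k)
  rwa [STypeA_aeval_X, Polynomial.coeff_coe, zero_mul, Real.exp_zero, mul_one] at h1

/-- polynomials with growing coefficients -/
theorem bd_aeval_w {x y B : ℝ} {L : ℕ} {f : PowerSeries ℚ_[2]} (P : Polynomial ℚ_[2])
    (hP : ∀ k, ‖P.coeff k‖ ≤ B * Real.exp (x * k)) (hf : Bd y (Real.exp (-x)) L f) :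
    Bd y B L (Polynomial.aeval f P) := by
  have hB : 0 ≤ B := by
    have h1 := (norm_nonneg _).trans (hP 0)
    rwa [Nat.cast_zero, mul_zero, Real.exp_zero, mul_one] at h1
  rw [Polynomial.aeval_eq_sum_range]
  refine Bd.sum _ _ hB fun k _ => ?_
  refine ((hf.pow k).smul (hP k)).mono (le_of_eq ?_)
  rw [← Real.exp_nat_mul, mul_assoc, ← Real.exp_add]
  rw [show x * k + k * -x = 0 by ring, Real.exp_zero, mul_one]

theorem bd_FLp_series {c τ₂ : ℚ_[2]} (h2 : τ₂ ≠ 0) (hc2 : ‖c‖ ≤ ‖τ₂‖) {y : ℝ}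
    (hc : ‖c‖ ≤ Real.exp (-y)) {n L : ℕ} {t : PowerSeries ℚ_[2]}
    (ht : Bd y (Real.exp (-y)) L (t - PowerSeries.C τ₂)) {F₀ : Polynomial ℚ_[2]} {A : ℝ}
    (hA : Bd y A L (Polynomial.aeval t F₀)) :
    Bd y (n * Real.exp (-(y * n)) * A) L (Polynomial.aeval t (FLp c τ₂ n F₀)) := by
  have hC : ∀ a : ℚ_[2], (Polynomial.aeval t (Polynomial.C a) : PowerSeries ℚ_[2]) =
      PowerSeries.C a := fun a => by
    rw [Polynomial.aeval_C]
    rfl
  have hx : (Polynomial.aeval t (Polynomial.X - Polynomial.C τ₂) : PowerSeries ℚ_[2]) =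
      t - PowerSeries.C τ₂ := by
    rw [map_sub, Polynomial.aeval_X, hC]
  have hpow : ∀ k, Bd y (Real.exp (-y) ^ k) L ((t - PowerSeries.C τ₂) ^ k) := fun k => ht.pow k
  have hen : Real.exp (-(y * n)) = Real.exp (-y) ^ n := by
    rw [← Real.exp_nat_mul]
    congr 1
    ring
  rw [FLp, map_sub]
  refine Bd.sub ?_ ?_
  · rw [map_mul, map_sum]
    refine Bd.mul ?_ hA
    refine Bd.sum _ _ (by positivity) fun j hj => ?_
    rw [map_mul, map_pow, hx, hC]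
    have hj' := Finset.mem_range.mp hj
    refine Bd.mono (Bd.C_mul (norm_dsub_le hK_padic hc hj') (hpow (n - (j + 1)))) (le_of_eq ?_)
    rw [hen, mul_assoc, ← pow_add]
    congr 2
    omega
  · rw [map_mul, map_mul, map_pow, hx, hC]
    refine Bd.mono (Bd.C_mul (norm_kap0_le hK_padic h2 hc2 n) (Bd.mul (hpow n) hA))
      (le_of_eq ?_)
    rw [hen]
    ring

/-! ### the local coordinates -/

theorem xK_b (κ : Fin 3) : xK ℚ_[2] (bL κ) (bL κ) = 1 := by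
  obtain ⟨h1, h2, -, -⟩ := al_b κ
  rw [xK, h1, h2, sx]
  simp

theorem xinv_one : xinv (1 : ℚ_[2]) 0 = 1 := by
  have h := sx_mul_xinv (K := ℚ_[2]) (α := 1) (α' := 0) one_ne_zero
  rw [sx] at h
  simpa using h

theorem tK_b (κ : Fin 3) : tK ℚ_[2] (bL κ) (bL κ) = PowerSeries.X := by
  obtain ⟨h1, h2, h3, h4⟩ := al_b κ
  rw [tK, h1, h2, h3, h4, st, Int.cast_one, Int.cast_zero, xinv_one, sx]
  simp

theorem xK_c (κ : Fin 3) : xK ℚ_[2] (bL κ) (cL κ) = 1 := by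
  obtain ⟨h1, h2, -, -⟩ := al_c κ
  rw [xK, h1, h2, sx]
  simp

theorem tK_c (κ : Fin 3) : tK ℚ_[2] (bL κ) (cL κ) =
    PowerSeries.C (-(ta κ : ℚ_[2])) + PowerSeries.X := by
  obtain ⟨h1, h2, h3, h4⟩ := al_c κ
  rw [tK, h1, h2, h3, h4, st, Int.cast_one, Int.cast_zero, xinv_one, sx]
  simp

/-- the coordinate around `ta` -/
theorem bd_tau {κ : Fin 3} {z : Fin 12} (hz : mem κ z) {k : ℕ} (L : ℕ)
    (h : (2 : ℤ) ^ k ∣ cβ (bL κ) z - ta κ * cα (bL κ) z) :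
    Bd (k * x2) (Real.exp (-(k * x2))) L
      (tK ℚ_[2] (bL κ) z - PowerSeries.C (ta κ : ℚ_[2])) := by
  have hx := x2_pos.le
  have h1 : tK ℚ_[2] (bL κ) z - PowerSeries.C (ta κ : ℚ_[2]) =
      sx ((cβ (bL κ) z - ta κ * cα (bL κ) z : ℤ) : ℚ_[2])
        ((cβ' (bL κ) z - ta κ * cα' (bL κ) z : ℤ) : ℚ_[2]) *
        xinv (cα (bL κ) z : ℚ_[2]) (cα' (bL κ) z : ℚ_[2]) := by
    have h2 := sx_mul_xinv (α' := (cα' (bL κ) z : ℚ_[2])) (al_ne hz)
    have h3 : sx ((cβ (bL κ) z - ta κ * cα (bL κ) z : ℤ) : ℚ_[2])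
        ((cβ' (bL κ) z - ta κ * cα' (bL κ) z : ℤ) : ℚ_[2]) =
        sx (cβ (bL κ) z : ℚ_[2]) (cβ' (bL κ) z : ℚ_[2]) - PowerSeries.C (ta κ : ℚ_[2]) *
          sx (cα (bL κ) z : ℚ_[2]) (cα' (bL κ) z : ℚ_[2]) := by
      simp only [sx]
      push_cast
      simp only [map_sub, map_mul]
      ring
    rw [h3, tK, st, sub_mul, mul_assoc, h2, mul_one]
  rw [h1]
  have h4 : Bd (k * x2) (Real.exp (-(k * x2))) L
      (sx ((cβ (bL κ) z - ta κ * cα (bL κ) z : ℤ) : ℚ_[2])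
        ((cβ' (bL κ) z - ta κ * cα' (bL κ) z : ℤ) : ℚ_[2])) := by
    refine Bd.sx (norm_int_le h) ((Padic.norm_int_le_one _).trans ?_)
    rw [← Real.exp_add, neg_add_cancel, Real.exp_zero]
  have h5 := h4.mul (bd_xinv (L := L) (x := k * x2) (by positivity)
    (norm_int_eq_one (al_odd κ z hz)) (Padic.norm_int_le_one (cα' (bL κ) z)))
  rwa [mul_one] at h5

theorem dvd_c (κ : Fin 3) : (2 : ℤ) ^ 2 ∣ cβ (bL κ) (cL κ) - ta κ * cα (bL κ) (cL κ) := by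
  revert κ
  decide

theorem dvd_o {κ : Fin 3} {z : Fin 12} (hz : z = o1 κ ∨ z = o2 κ) :
    (2 : ℤ) ^ 3 ∣ cβ (bL κ) z - ta κ * cα (bL κ) z := by
  have := pos_o κ z hz
  norm_num
  exact this

theorem mem_c (κ : Fin 3) : mem κ (cL κ) := Or.inr (Or.inl rfl)

theorem mem_o {κ : Fin 3} {z : Fin 12} (hz : z = o1 κ ∨ z = o2 κ) : mem κ z := Or.inr (Or.inr hz)

/-- the inner coordinate -/
noncomputable def th (κ : Fin 3) (k : ℕ) (z : Fin 12) : PowerSeries ℚ_[2] :=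
  PowerSeries.C (((2 : ℚ_[2]) ^ k)⁻¹) * (tK ℚ_[2] (bL κ) z - PowerSeries.C (ta κ : ℚ_[2]))

theorem bd_th {κ : Fin 3} {z : Fin 12} (hz : mem κ z) {k : ℕ} (L : ℕ)
    (h : (2 : ℤ) ^ (k + 1) ∣ cβ (bL κ) z - ta κ * cα (bL κ) z) :
    Bd ((k + 1 : ℕ) * x2) (Real.exp (-x2)) L (th κ k z) := by
  refine ((bd_tau hz L h).C_mul (B := Real.exp (k * x2)) ?_).mono (le_of_eq ?_)
  · rw [norm_inv, norm_pow, norm_two, ← Real.exp_nat_mul, ← Real.exp_neg]
    refine Real.exp_le_exp.mpr (le_of_eq ?_)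
    ring
  · rw [← Real.exp_add]
    congr 1
    push_cast
    ring

theorem aeval_th (κ : Fin 3) (k : ℕ) (z : Fin 12) (p : Polynomial ℚ_[2]) :
    Polynomial.aeval (th κ k z)
      (p.comp (Polynomial.C (ta κ : ℚ_[2]) + Polynomial.C ((2 : ℚ_[2]) ^ k) * Polynomial.X)) =
      Polynomial.aeval (tK ℚ_[2] (bL κ) z) p := by
  rw [Polynomial.aeval_comp, map_add, map_mul, Polynomial.aeval_C, Polynomial.aeval_C,
    Polynomial.aeval_X]
  congr 2
  change PowerSeries.C (ta κ : ℚ_[2]) + PowerSeries.C ((2 : ℚ_[2]) ^ k) * th κ k z = _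
  have h2 : ((2 : ℚ_[2]) ^ k) ≠ 0 := pow_ne_zero _ (by norm_num)
  rw [th, ← mul_assoc, ← map_mul, mul_inv_cancel₀ h2, map_one, one_mul]
  ring

/-! ### the families -/

variable (m L : ℕ) (κ : Fin 3)

noncomputable def FL : Polynomial ℚ_[2] :=
  Polynomial.C (-(k1 κ : ℚ_[2])) * FLp (t2 κ - t1 κ) (t2 κ) (4 * m) (F0 m κ)

noncomputable def G1 (j : Col m) : Polynomial ℚ_[2] :=
  GK ℚ_[2] m (bL κ) j + FK ℚ_[2] m (bL κ) * (TT κ 0 L * qq m κ 0 j) +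
    FK ℚ_[2] m (bL κ) * (TT κ 1 L * qq m κ 1 j) + FL m κ * qq m κ 1 j

/-- the columns in the outer disc -/
noncomputable def ee : Fam → Col m → Polynomial ℚ_[2]
  | Sum.inl false => G1 m L κ
  | Sum.inl true => HK ℚ_[2] m (bL κ)
  | Sum.inr s => qq m κ s

/-- the logarithm `0` at `c` after the subtraction of the part from outside -/
noncomputable def S0 : PowerSeries ℚ_[2] :=
  EE κ 0 (cL κ) - Polynomial.aeval (tK ℚ_[2] (bL κ) (cL κ)) (TT κ 0 L)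

noncomputable def Phi : Polynomial ℚ_[2] :=
  Polynomial.C ((-(ta κ : ℚ_[2]))⁻¹) *
    (PowerSeries.trunc L (S0 L κ)).comp (Polynomial.X + Polynomial.C (ta κ : ℚ_[2]))

noncomputable def Psi : Polynomial ℚ_[2] := FK ℚ_[2] m (bL κ) * Phi L κ

/-- the columns in the inner discs -/
noncomputable def ff : Fam → Col m → Polynomial ℚ_[2]
  | Sum.inl false => G1 m L κ
  | Sum.inl true => fun j => HK ℚ_[2] m (bL κ) j + Psi m L κ * qq m κ 0 j
  | Sum.inr s => qq m κ s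

/-! ### the coefficients of the rows -/

noncomputable def cb : Fam → PowerSeries ℚ_[2]
  | Sum.inl false => 1
  | Sum.inl true => 0
  | Sum.inr 0 => Polynomial.aeval PowerSeries.X (FK ℚ_[2] m (bL κ)) *
      (EE κ 0 (bL κ) - Polynomial.aeval PowerSeries.X (TT κ 0 L))
  | Sum.inr 1 => Polynomial.aeval PowerSeries.X (FK ℚ_[2] m (bL κ)) *
      (EE κ 1 (bL κ) - Polynomial.aeval PowerSeries.X (TT κ 1 L)) -
        Polynomial.aeval PowerSeries.X (FL m κ)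
  | Sum.inr 2 => Polynomial.aeval PowerSeries.X (FK ℚ_[2] m (bL κ)) * EE κ 2 (bL κ)

noncomputable def cc : Fam → PowerSeries ℚ_[2]
  | Sum.inl false => 1
  | Sum.inl true => PowerSeries.C (-(ta κ : ℚ_[2]))
  | Sum.inr 0 => Polynomial.aeval (tK ℚ_[2] (bL κ) (cL κ)) (FK ℚ_[2] m (bL κ)) *
      (S0 L κ - Polynomial.aeval PowerSeries.X (PowerSeries.trunc L (S0 L κ)))
  | Sum.inr 1 => Polynomial.aeval (tK ℚ_[2] (bL κ) (cL κ)) (FK ℚ_[2] m (bL κ)) *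
      (EE κ 1 (cL κ) - Polynomial.aeval (tK ℚ_[2] (bL κ) (cL κ)) (TT κ 1 L)) -
        Polynomial.aeval (tK ℚ_[2] (bL κ) (cL κ)) (FL m κ)
  | Sum.inr 2 => Polynomial.aeval (tK ℚ_[2] (bL κ) (cL κ)) (FK ℚ_[2] m (bL κ)) * EE κ 2 (cL κ)

noncomputable def co' (z : Fin 12) : Fam → PowerSeries ℚ_[2]
  | Sum.inl false => xK ℚ_[2] (bL κ) z ^ (57 * m - 1) * PowerSeries.C (cα (bL κ) z : ℚ_[2])
  | Sum.inl true => xK ℚ_[2] (bL κ) z ^ (57 * m - 1) * PowerSeries.C (cβ (bL κ) z : ℚ_[2])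
  | Sum.inr 0 => 0
  | Sum.inr 1 => -(xK ℚ_[2] (bL κ) z ^ (57 * m - 1) * PowerSeries.C (cα (bL κ) z : ℚ_[2]) *
      Polynomial.aeval (tK ℚ_[2] (bL κ) z) (FL m κ))
  | Sum.inr 2 => 0

variable {m L κ}

theorem sum_fam (g : Fam → PowerSeries ℚ_[2]) : ∑ s, g s =
    g (Sum.inl false) + g (Sum.inl true) + (g (Sum.inr 0) + g (Sum.inr 1) + g (Sum.inr 2)) := by
  rw [Fintype.sum_sum_type, Fintype.sum_bool, Fin.sum_univ_three]
  ring

/-- the row at the centre -/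
theorem row_b (j : Col m) : rowK ℚ_[2] m (bL κ) (bL κ) j =
    ∑ s, cb m L κ s * Polynomial.aeval (PowerSeries.X : PowerSeries ℚ_[2]) (ee m L κ s j) := by
  obtain ⟨h1, -, h3, -⟩ := al_b κ
  rw [rowK, xK_b, tK_b, h1, h3, sum_EE, sum_fam, Fin.sum_univ_three]
  simp only [cb, ee, G1, one_pow, Int.cast_one, Int.cast_zero, map_one, map_zero, zero_mul,
    one_mul, map_add, map_mul]
  ring

/-- the row at `c` -/
theorem row_c (j : Col m) : rowK ℚ_[2] m (bL κ) (cL κ) j =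
    ∑ s, cc m L κ s * Polynomial.aeval (th κ 1 (cL κ)) ((ff m L κ s j).comp
      (Polynomial.C (ta κ : ℚ_[2]) + Polynomial.C (2 : ℚ_[2]) * Polynomial.X)) := by
  obtain ⟨h1, -, h3, -⟩ := al_c κ
  have h2 : ∀ p : Polynomial ℚ_[2], Polynomial.aeval (th κ 1 (cL κ)) (p.comp
      (Polynomial.C (ta κ : ℚ_[2]) + Polynomial.C (2 : ℚ_[2]) * Polynomial.X)) =
      Polynomial.aeval (tK ℚ_[2] (bL κ) (cL κ)) p := by
    intro p
    have := aeval_th κ 1 (cL κ) p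
    rwa [pow_one] at this
  have hta : (-(ta κ : ℚ_[2])) ≠ 0 := neg_ne_zero.mpr (t2_ne κ)
  have h4 : Polynomial.aeval (tK ℚ_[2] (bL κ) (cL κ)) (Phi L κ) =
      PowerSeries.C ((-(ta κ : ℚ_[2]))⁻¹) *
        Polynomial.aeval PowerSeries.X (PowerSeries.trunc L (S0 L κ)) := by
    rw [Phi, map_mul, Polynomial.aeval_C, Polynomial.aeval_comp, map_add, Polynomial.aeval_X,
      Polynomial.aeval_C, tK_c]
    congr 3
    change PowerSeries.C (-(ta κ : ℚ_[2])) + PowerSeries.X + PowerSeries.C (ta κ : ℚ_[2]) = _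
    rw [map_neg]
    ring
  have h5 : PowerSeries.C (-(ta κ : ℚ_[2])) * PowerSeries.C ((-(ta κ : ℚ_[2]))⁻¹) =
      (1 : PowerSeries ℚ_[2]) := by
    rw [← map_mul, mul_inv_cancel₀ hta, map_one]
  rw [rowK, xK_c, h1, h3, sum_EE, sum_fam, Fin.sum_univ_three]
  simp only [h2]
  simp only [cc, ff, G1, Psi, S0, one_pow, Int.cast_one, Int.cast_neg, map_one, one_mul,
    map_add, map_mul, h4]
  simp only [S0] at *
  linear_combination (-Polynomial.aeval (tK ℚ_[2] (bL κ) (cL κ)) (FK ℚ_[2] m (bL κ)) *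
    Polynomial.aeval PowerSeries.X (PowerSeries.trunc L (EE κ 0 (cL κ) -
      Polynomial.aeval (tK ℚ_[2] (bL κ) (cL κ)) (TT κ 0 L))) *
    Polynomial.aeval (tK ℚ_[2] (bL κ) (cL κ)) (qq m κ 0 j)) * h5

/-- the fixed factor vanishes at the letter -/
theorem dvd_FK {z : Fin 12} (hz : z = o1 κ ∨ z = o2 κ) :
    (PowerSeries.X : PowerSeries ℚ_[2]) ^ (4 * m) ∣
      Polynomial.aeval (tK ℚ_[2] (bL κ) z) (FK ℚ_[2] m (bL κ)) := by
  have hm := mem_o hz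
  have h4 : FF z = 4 := by
    rcases hz with rfl | rfl <;> revert κ <;> decide
  rw [FK_eq, FS, map_prod]
  refine Dvd.dvd.trans ?_ (dvd_prod_of_mem _ (mem_univ z))
  rw [map_pow, h4, lin_eq (al_ne hm)]
  refine pow_dvd_pow_of_dvd (Dvd.dvd.mul_right ?_ _) _
  have h5 : br (lt z) (lt z) = 0 := by
    rw [br]
    ring
  rw [h5, sx, Int.cast_zero, map_zero, zero_add]
  exact dvd_mul_left _ _

/-- the rows at `o1`, `o2` -/
theorem row_o {z : Fin 12} (hz : z = o1 κ ∨ z = o2 κ) (j : Col m) {i : ℕ} (hi : i < 4 * m) :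
    PowerSeries.coeff i (rowK ℚ_[2] m (bL κ) z j) =
    PowerSeries.coeff i (∑ s, co' m κ z s * Polynomial.aeval (th κ 2 z) ((ff m L κ s j).comp
      (Polynomial.C (ta κ : ℚ_[2]) + Polynomial.C ((2 : ℚ_[2]) ^ 2) * Polynomial.X))) := by
  rw [← sub_eq_zero, ← map_sub]
  refine PowerSeries.X_pow_dvd_iff.mp (Dvd.dvd.trans (dvd_FK hz) ?_) i hi
  rw [rowK, sum_EE, sum_fam, Fin.sum_univ_three]
  simp only [aeval_th]
  simp only [co', ff, G1, Psi, map_add, map_mul]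
  refine ⟨xK ℚ_[2] (bL κ) z ^ (57 * m - 1) *
    ((EE κ 0 z * Polynomial.aeval (tK ℚ_[2] (bL κ) z) (qq m κ 0 j) +
      EE κ 1 z * Polynomial.aeval (tK ℚ_[2] (bL κ) z) (qq m κ 1 j) +
      EE κ 2 z * Polynomial.aeval (tK ℚ_[2] (bL κ) z) (qq m κ 2 j)) -
      PowerSeries.C (cα (bL κ) z : ℚ_[2]) *
        (Polynomial.aeval (tK ℚ_[2] (bL κ) z) (TT κ 0 L) *
          Polynomial.aeval (tK ℚ_[2] (bL κ) z) (qq m κ 0 j) +
        Polynomial.aeval (tK ℚ_[2] (bL κ) z) (TT κ 1 L) *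
          Polynomial.aeval (tK ℚ_[2] (bL κ) z) (qq m κ 1 j)) -
      PowerSeries.C (cβ (bL κ) z : ℚ_[2]) *
        (Polynomial.aeval (tK ℚ_[2] (bL κ) z) (Phi L κ) *
          Polynomial.aeval (tK ℚ_[2] (bL κ) z) (qq m κ 0 j))), ?_⟩
  ring

end B10.Z2
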